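import Mathlib

/-!
Mean values of products of periodic functions with coprime periods.
-/

namespace Pool.Agent.Lib.MP_232f4c_nt

open Finset Function

theorem sum_mul_periodic {a b : ℕ} (ha : a ≠ 0) (hb : b ≠ 0) (co : a.Coprime b) {g h : ℕ → ℝ}
    (hg : Periodic g a) (hh : Periodic h b) :
    ∑ n ∈ range (a * b), g n * h n = (∑ n ∈ range a, g n) * ∑ n ∈ range b, h n := by
  rw [sum_mul_sum, ← sum_product']
  refine sum_nbij' (fun n => (n % a, n % b)) (fun x => Nat.chineseRemainder co x.1 x.2)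
    (fun n _ => ?_) (fun x _ => ?_) (fun n hn => ?_) (fun x hx => ?_) fun n _ => ?_
  · exact mem_product.2 ⟨mem_range.2 (Nat.mod_lt _ ha.bot_lt), mem_range.2 (Nat.mod_lt _ hb.bot_lt)⟩
  · exact mem_range.2 (Nat.chineseRemainder_lt_mul co _ _ ha hb)
  · exact (Nat.chineseRemainder_modEq_unique co (Nat.mod_modEq n a).symm
      (Nat.mod_modEq n b).symm).symm.eq_of_lt_of_lt (Nat.chineseRemainder_lt_mul co _ _ ha hb)
      (mem_range.1 hn)
  · rw [mem_product, mem_range, mem_range] at hx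
    exact Prod.ext (Eq.trans (Nat.chineseRemainder co x.1 x.2).prop.1 (Nat.mod_eq_of_lt hx.1))
      (Eq.trans (Nat.chineseRemainder co x.1 x.2).prop.2 (Nat.mod_eq_of_lt hx.2))
  · rw [hg.map_mod_nat, hh.map_mod_nat]

theorem periodic_prod {ι : Type*} (S : Finset ι) {q : ι → ℕ} {g : ι → ℕ → ℝ}
    (hg : ∀ p ∈ S, Periodic (g p) (q p)) : Periodic (fun n => ∏ p ∈ S, g p n) (∏ p ∈ S, q p) :=
  fun n => prod_congr rfl fun p hp => by
    obtain ⟨c, hc⟩ := dvd_prod_of_mem q hp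
    rw [hc, mul_comm]
    exact (hg p hp).nat_mul c n

theorem sum_prod_periodic {ι : Type*} (S : Finset ι) {q : ι → ℕ} {g : ι → ℕ → ℝ}
    (h0 : ∀ p ∈ S, q p ≠ 0) (co : (S : Set ι).Pairwise fun i j => (q i).Coprime (q j))
    (hg : ∀ p ∈ S, Periodic (g p) (q p)) :
    ∑ n ∈ range (∏ p ∈ S, q p), ∏ p ∈ S, g p n = ∏ p ∈ S, ∑ n ∈ range (q p), g p n := by
  classical
  induction S using Finset.induction_on with
  | empty => simp
  | insert j S hj ih =>
    simp only [prod_insert hj]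
    have h1 : ∀ p ∈ S, p ∈ insert j S := fun p hp => mem_insert_of_mem hp
    rw [sum_mul_periodic (h0 j (mem_insert_self _ _)) (prod_ne_zero_iff.2 fun p hp => h0 p (h1 p hp))
      (Nat.Coprime.prod_right fun p hp => co (mem_insert_self j S) (h1 p hp)
        (ne_of_mem_of_not_mem hp hj).symm) (hg j (mem_insert_self _ _))
      (periodic_prod S fun p hp => hg p (h1 p hp)),
      ih (fun p hp => h0 p (h1 p hp)) (co.mono fun p hp => h1 p hp) fun p hp => hg p (h1 p hp)]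

theorem sum_range_mul {G : ℕ → ℝ} {Q : ℕ} (hG : Periodic G Q) (k : ℕ) :
    ∑ n ∈ range (k * Q), G n = k * ∑ n ∈ range Q, G n := by
  induction k with
  | zero => simp
  | succ k ih =>
    have h : ∀ n, G (k * Q + n) = G n := fun n => by
      rw [add_comm]
      exact hG.nat_mul k n
    rw [Nat.succ_mul, sum_range_add, ih]
    simp only [h]
    push_cast
    ring

theorem sum_shift {G : ℕ → ℝ} {Q : ℕ} (hG : Periodic G Q) (i : ℕ) :
    ∑ n ∈ range Q, G (n + i) = ∑ n ∈ range Q, G n := by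
  induction i with
  | zero => simp
  | succ i ih =>
    have h1 := sum_range_succ (fun n => G (n + i)) Q
    have h2 := sum_range_succ' (fun n => G (n + i)) Q
    have h3 : G (Q + i) = G (0 + i) := by rw [add_comm, hG, zero_add]
    rw [← ih]
    simp only [add_right_comm _ 1 i, add_assoc] at h2
    linarith

theorem mean_prod_le {ι : Type*} (S : Finset ι) {q : ι → ℕ} {g : ι → ℕ → ℝ} {c : ι → ℝ}
    (h0 : ∀ p ∈ S, q p ≠ 0) (co : (S : Set ι).Pairwise fun i j => (q i).Coprime (q j))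
    (hg : ∀ p ∈ S, Periodic (g p) (q p)) (h1 : ∀ p ∈ S, ∀ n, 0 ≤ g p n)
    (h2 : ∀ p ∈ S, ∑ n ∈ range (q p), g p n ≤ q p * c p) (N : ℕ) :
    ∑ n ∈ Icc 1 N, ∏ p ∈ S, g p n ≤ (N + (∏ p ∈ S, q p : ℕ)) * ∏ p ∈ S, c p := by
  set Q := ∏ p ∈ S, q p with hQ
  have h3 : 0 < Q := Nat.pos_of_ne_zero (prod_ne_zero_iff.2 h0)
  have h4 : Icc 1 N ⊆ range ((N / Q + 1) * Q) := fun n hn =>
    mem_range.2 ((mem_Icc.1 hn).2.trans_lt (by rw [mul_comm]; exact Nat.lt_mul_div_succ N h3))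
  refine (sum_le_sum_of_subset_of_nonneg h4 fun n _ _ => prod_nonneg fun p hp => h1 p hp n).trans ?_
  rw [sum_range_mul (periodic_prod S hg), sum_prod_periodic S h0 co hg]
  have h5 := prod_le_prod (fun p hp => sum_nonneg fun n _ => h1 p hp n) h2
  have h6 : 0 ≤ ∏ p ∈ S, c p := prod_nonneg fun p hp => le_of_mul_le_mul_left
    (by simpa using (sum_nonneg fun n _ => h1 p hp n).trans (h2 p hp))
    (Nat.cast_pos.2 (h0 p hp).bot_lt : (0 : ℝ) < q p)
  rw [prod_mul_distrib, ← Nat.cast_prod] at h5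
  refine (mul_le_mul_of_nonneg_left h5 (Nat.cast_nonneg _)).trans ?_
  rw [← mul_assoc]
  refine mul_le_mul_of_nonneg_right ?_ h6
  have := Nat.div_mul_le_self N Q
  exact_mod_cast (by nlinarith : (N / Q + 1) * Q ≤ N + Q)

theorem sum_ite_le {R : ℕ → Prop} [DecidablePred R] {q : ℕ} {x d : ℝ} (hx : x ≤ 1)
    (h : d ≤ #{n ∈ range q | R n}) : ∑ n ∈ range q, (if R n then x else 1) ≤ q - (1 - x) * d := by
  have h1 := card_filter_add_card_filter_not (s := range q) R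
  rw [card_range] at h1
  have h2 : (#{n ∈ range q | R n} : ℝ) + #{n ∈ range q | ¬R n} = q := by exact_mod_cast h1
  rw [sum_ite, sum_const, sum_const, nsmul_eq_mul, nsmul_eq_mul]
  nlinarith

theorem card_exact {p : ℕ} (hp : 0 < p) :
    (p : ℝ) - 1 ≤ #{n ∈ range (p ^ 2) | p ∣ n ∧ ¬p ^ 2 ∣ n} := by
  have h1 : (Ico 1 p).image (p * ·) ⊆ {n ∈ range (p ^ 2) | p ∣ n ∧ ¬p ^ 2 ∣ n} := by
    intro n hn
    obtain ⟨k, hk, rfl⟩ := mem_image.1 hn
    rw [mem_Ico] at hk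
    have : p * k < p ^ 2 := by nlinarith
    exact mem_filter.2 ⟨mem_range.2 this, dvd_mul_right _ _,
      Nat.not_dvd_of_pos_of_lt (Nat.mul_pos hp hk.1) this⟩
  have h2 := card_le_card h1
  rw [card_image_of_injective _ (mul_right_injective₀ hp.ne'), Nat.card_Ico] at h2
  have h3 : ((p - 1 : ℕ) : ℝ) = p - 1 := by rw [Nat.cast_sub hp, Nat.cast_one]
  exact h3 ▸ Nat.cast_le.2 h2

theorem card_avoid (p : ℕ) (T : Finset ℕ) :
    (p : ℝ) - #T ≤ #{m ∈ range p | ∀ i ∈ T, ¬p ∣ m + i} := by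
  have h1 := card_filter_add_card_filter_not (s := range p) fun m => ∀ i ∈ T, ¬p ∣ m + i
  have h2 : {m ∈ range p | ¬∀ i ∈ T, ¬p ∣ m + i} ⊆ T.biUnion fun i => {m ∈ range p | p ∣ m + i} := by
    intro m hm
    simp only [mem_filter, not_forall, not_not] at hm
    obtain ⟨h3, i, h4, h5⟩ := hm
    exact mem_biUnion.2 ⟨i, h4, mem_filter.2 ⟨h3, h5⟩⟩
  have h3 := (card_le_card h2).trans (card_biUnion_le_card_mul _ _ 1 fun i _ => card_le_one.2
    fun m hm m' hm' => (Nat.ModEq.add_right_cancel' i (((Nat.modEq_zero_iff_dvd).2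
      (mem_filter.1 hm).2).trans ((Nat.modEq_zero_iff_dvd).2 (mem_filter.1 hm').2).symm)).eq_of_lt_of_lt
      (mem_range.1 (mem_filter.1 hm).1) (mem_range.1 (mem_filter.1 hm').1))
  rw [card_range] at h1
  rw [sub_le_iff_le_add]
  exact_mod_cast (by omega : p ≤ #{m ∈ range p | ∀ i ∈ T, ¬p ∣ m + i} + #T)

/-- The gain at the prime `p` for the pair `(n, m)`. -/
noncomputable def gain (T : Finset ℕ) (j p : ℕ) (x : ℝ) (n m : ℕ) : ℝ :=
  if (∀ i ∈ T, ¬p ∣ m + i) ∧ p ∣ n + j ∧ ¬p ^ 2 ∣ n + j then x else 1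

theorem sum_gain_le (T : Finset ℕ) (j : ℕ) (S : Finset Nat.Primes) {x : Nat.Primes → ℝ}
    (h0 : ∀ p, 0 ≤ x p) (h1 : ∀ p, x p ≤ 1) (hS : ∀ p ∈ S, 2 * #T ≤ (p : ℕ)) (N : ℕ) :
    ∑ m ∈ Icc 1 N, ∑ n ∈ Icc 1 N, ∏ p ∈ S, gain T j p (x p) n m ≤
      (N + (∏ p ∈ S, (p : ℕ) ^ 2 : ℕ)) * ((N + (∏ p ∈ S, (p : ℕ) : ℕ)) *
        ∏ p ∈ S, (1 - (1 - x p) / (p : ℕ) / 4)) := by
  have co : ∀ p q : Nat.Primes, p ≠ q → (p : ℕ).Coprime q := fun p q h =>
    (Nat.coprime_primes p.2 q.2).2 fun h' => h (Subtype.ext h')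
  have h2 : ∀ p : Nat.Primes, (2 : ℝ) ≤ (p : ℕ) := fun p => by exact_mod_cast p.2.two_le
  let y : Nat.Primes → ℝ := fun p => 1 - (1 - x p) * (((p : ℕ) - 1) / (p : ℕ) ^ 2)
  have h3 : ∀ p : Nat.Primes, 0 ≤ (((p : ℕ) : ℝ) - 1) / (p : ℕ) ^ 2 ∧
      (((p : ℕ) : ℝ) - 1) / (p : ℕ) ^ 2 ≤ 1 := fun p =>
    ⟨div_nonneg (by linarith [h2 p]) (by positivity),
      div_le_one_of_le₀ (by nlinarith [h2 p]) (by positivity)⟩
  have h4 : ∀ p, 0 ≤ y p ∧ y p ≤ 1 := fun p => by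
    have := mul_nonneg (sub_nonneg.2 (h1 p)) (h3 p).1
    have := mul_le_one₀ (by linarith [h0 p] : 1 - x p ≤ 1) (h3 p).1 (h3 p).2
    constructor <;> simp only [y] <;> linarith
  refine (sum_le_sum fun m _ => mean_prod_le S (q := fun p => (p : ℕ) ^ 2)
    (c := fun p => if ∀ i ∈ T, ¬(p : ℕ) ∣ m + i then y p else 1)
    (fun p _ => pow_ne_zero _ p.2.ne_zero) (fun p _ q _ h => (co p q h).pow _ _)
    (fun p _ n => ?_) (fun p _ n => ?_) (fun p _ => ?_) N).trans ?_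
  · simp only [gain, add_right_comm n _ j, Nat.dvd_add_self_right,
      Nat.dvd_add_left (dvd_pow_self (p : ℕ) two_ne_zero)]
  · rw [gain]
    split_ifs
    exacts [h0 p, zero_le_one]
  · unfold gain
    split_ifs with h5
    · simp only [eq_true h5, true_and]
      rw [sum_shift (G := fun n => if (p : ℕ) ∣ n ∧ ¬(p : ℕ) ^ 2 ∣ n then x p else 1) fun n => by
        simp only [Nat.dvd_add_self_right, Nat.dvd_add_left (dvd_pow_self (p : ℕ) two_ne_zero)]]
      refine (sum_ite_le (h1 p) (card_exact p.2.pos)).trans (le_of_eq ?_)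
      have := h2 p
      simp only [y]
      push_cast
      field_simp
    · simp only [eq_false h5, false_and, if_false]
      simp
  rw [← mul_sum]
  refine mul_le_mul_of_nonneg_left (mean_prod_le S (q := fun p => (p : ℕ))
    (fun p _ => p.2.ne_zero) (fun p _ q _ h => co p q h) (fun p _ n => ?_) (fun p _ n => ?_)
    (fun p hp => ?_) N) (by positivity)
  · simp only [add_right_comm n _, Nat.dvd_add_self_right]
  · split_ifs
    exacts [(h4 p).1, zero_le_one]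
  · refine (sum_ite_le (h4 p).2 (card_avoid p T)).trans ?_
    have h5 : 2 * (#T : ℝ) ≤ (p : ℕ) := by exact_mod_cast hS p hp
    have h6 := h2 p
    have h7 := sub_nonneg.2 (h1 p)
    simp only [y]
    generalize ((p : ℕ) : ℝ) = a at *
    have h8 : 1 / 4 ≤ (a - 1) / a ^ 2 * (a - #T) := by
      rw [div_mul_eq_mul_div, le_div_iff₀ (by positivity)]
      nlinarith [mul_le_mul (by linarith : a / 2 ≤ a - 1) (by linarith : a / 2 ≤ a - #T)
        (by linarith) (by linarith)]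
    have h9 : a * (1 - (1 - x p) / a / 4) = a - (1 - x p) * (1 / 4) := by field_simp
    rw [h9]
    nlinarith [mul_le_mul_of_nonneg_left h8 h7]

end Pool.Agent.Lib.MP_232f4c_nt
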