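import Pool.Agent.Lib.MP_232f4c_nt.CwDefs
import Pool.Agent.Lib.MP_9227d9_nt.MobB

namespace Pool.Agent.Lib.MP_232f4c_nt.Cw

open Polynomial Pool.Agent.Lib.MP_9227d9_nt.Mob Filter Topology

open scoped Classical

namespace CwB

theorem fprod_le {ι : Type} (s : Finset ι) (f : ι → ℝ) (h : ∀ i, |f i| ≤ 1) :
    |∏ i ∈ s, f i| ≤ 1 := by
  rw [Finset.abs_prod]
  exact Finset.prod_le_one (fun i _ => abs_nonneg _) fun i _ => h i

/-- The statement proved by induction. -/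
def Gen (n r : ℕ) (C : ℝ) : Prop :=
  ∀ (k : Type) [Field k] [Fintype k] [CharP k 2] (p : k[X])
    (J : Type) [Fintype J] [Nonempty J] (b a w : J → k[X]) (ι : Type) (s : Finset ι)
    (φ : ι → k[X] → ℝ) (M : ι → k[X]) (d : ι → ℕ) (L : ℕ), Fintype.card J ≤ r →
    ∑ i ∈ s, (d i + 1) ≤ n → IsP p → (∀ j, ¬ p ∣ derivative (b j)) → (∀ j, ¬ p ∣ w j) →
    (∀ i j, i ≠ j → ¬ p ∣ a i * w j - a j * w i) → (∀ i σ, |φ i σ| ≤ 1) →
    (∀ i ∈ s, Dg (M i) (d i) (φ i)) → (∀ i ∈ s, ¬ p ∣ M i) →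
    (∀ i ∈ s, (M i).natDegree + p.natDegree ≤ L) → 2 * p.natDegree ≤ L →
    |avg L fun σ => (∏ j, chi p (b j) (a j + w j * σ)) * ∏ i ∈ s, φ i σ| ^ 2 ^ (n + 1) ≤ C / Nm p

theorem base (h0 : StB0G) {k : Type} [Field k] [Fintype k] [CharP k 2] {p : k[X]} {J : Type}
    [Fintype J] [Nonempty J] (b a w : J → k[X]) {L r : ℕ} (n : ℕ) (hr : Fintype.card J ≤ r)
    (hp : IsP p) (hb : ∀ j, ¬ p ∣ derivative (b j)) (hw : ∀ j, ¬ p ∣ w j)
    (ha : ∀ i j, i ≠ j → ¬ p ∣ a i * w j - a j * w i) (hL : 2 * p.natDegree ≤ L) :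
    |avg L fun σ => ∏ j, chi p (b j) (a j + w j * σ)| ^ 2 ^ (n + 1) ≤
      ((r : ℝ) + 2) ^ 2 / Nm p := by
  have h1 := h0 k p J b a w L hp hb hw ha hL
  have h2 : |avg L fun σ => ∏ j, chi p (b j) (a j + w j * σ)| ≤ 1 :=
    abs_avg_le_of_le fun σ _ => B.prod_le _ fun j => B.chi_le _ _ _
  have h3 : 2 ≤ 2 ^ (n + 1) := Nat.le_self_pow (Nat.succ_ne_zero n) 2
  refine (pow_le_pow_of_le_one (abs_nonneg _) h2 h3).trans ?_
  rw [sq_abs]
  refine h1.trans (div_le_div_of_nonneg_right ?_ (Nm_pos p).le)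
  have : (Fintype.card J : ℝ) ≤ r := by exact_mod_cast hr
  gcongr

theorem step {n r : ℕ} {C : ℝ} (hC : 0 ≤ C) (ih : Gen n (2 * r) C) {k : Type} [Field k]
    [Fintype k] [CharP k 2] {p : k[X]} {J : Type} [Fintype J] [Nonempty J] (b a w : J → k[X])
    {ι : Type} (s : Finset ι) (φ : ι → k[X] → ℝ) (M : ι → k[X]) (d : ι → ℕ) {L : ℕ}
    (ψ : k[X] → ℝ) (N : k[X]) (hr : Fintype.card J ≤ r) (hn : ∑ i ∈ s, (d i + 1) ≤ n)
    (hp : IsP p) (hb : ∀ j, ¬ p ∣ derivative (b j)) (hw : ∀ j, ¬ p ∣ w j)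
    (ha : ∀ i j, i ≠ j → ¬ p ∣ a i * w j - a j * w i) (hφ : ∀ i σ, |φ i σ| ≤ 1)
    (hD : ∀ t t', ∀ i ∈ s, Dg (M i) (d i) fun σ => φ i (σ + N * t) * φ i (σ + N * t'))
    (hM : ∀ i ∈ s, ¬ p ∣ M i) (hdeg : ∀ i ∈ s, (M i).natDegree + p.natDegree ≤ L)
    (hL : 2 * p.natDegree ≤ L) (hψ : ∀ σ, |ψ σ| ≤ 1) (hper : ∀ σ t, ψ (σ + N * t) = ψ σ)
    (hN : ¬ p ∣ N) (hNd : N.natDegree + p.natDegree ≤ L) :
    |avg L fun σ => ((∏ j, chi p (b j) (a j + w j * σ)) * ∏ i ∈ s, φ i σ) * ψ σ| ^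
        2 ^ (n + 1 + 1) ≤
      2 ^ (2 ^ (n + 1) - 1) * (((r : ℝ) ^ 2) ^ 2 ^ (n + 1) + C) / Nm p := by
  have hN0 := Nm_pos p
  have hN1 : (1 : ℝ) ≤ Nm p := le_trans (by norm_num) hp.two_le_Nm
  have hE : 2 ^ (n + 1) ≠ 0 := by positivity
  obtain ⟨β, hβ, hβE⟩ : ∃ β : ℝ, 0 ≤ β ∧ β ^ 2 ^ (n + 1) = C / Nm p :=
    ⟨(C / Nm p) ^ (((2 ^ (n + 1) : ℕ) : ℝ)⁻¹), Real.rpow_nonneg (div_nonneg hC hN0.le) _,
      Real.rpow_inv_natCast_pow (div_nonneg hC hN0.le) hE⟩
  rw [pow_succ 2 (n + 1)]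
  refine B.numer hE (sq_nonneg _) hβ hN1 hβE ?_
  set Φ : k[X] → ℝ := fun σ => (∏ j, chi p (b j) (a j + w j * σ)) * ∏ i ∈ s, φ i σ with hΦ
  refine (B.vdc L p.natDegree Φ ψ N hψ hper hNd).trans ?_
  refine avg_le_of_le fun t _ => ?_
  have hΦ1 : ∀ σ, |Φ σ| ≤ 1 := fun σ =>
    B.mul_le (B.prod_le _ fun j => B.chi_le _ _ _) (fprod_le _ _ fun i => hφ _ _)
  have hcop : ∀ i j, IsCoprime (-(w i * w j * N)) p := by
    intro i j
    rw [hp.isCoprime_iff, dvd_neg]
    intro h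
    rcases hp.prime.dvd_or_dvd h with h | h
    · rcases hp.prime.dvd_or_dvd h with h | h
      · exact hw i h
      · exact hw j h
    · exact hN h
  have key : ∀ t' : k[X], (avg L fun σ => Φ (σ + N * t) * Φ (σ + N * t')) ≤
      (∑ ij : J × J, if p ∣ (a ij.1 * w ij.2 - a ij.2 * w ij.1 + w ij.1 * w ij.2 * N * t) +
        -(w ij.1 * w ij.2 * N) * t' then (1 : ℝ) else 0) + β := by
    intro t'
    have hnn : ∀ ij ∈ (Finset.univ : Finset (J × J)), (0 : ℝ) ≤
        if p ∣ (a ij.1 * w ij.2 - a ij.2 * w ij.1 + w ij.1 * w ij.2 * N * t) +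
          -(w ij.1 * w ij.2 * N) * t' then (1 : ℝ) else 0 :=
      fun ij _ => by split_ifs <;> norm_num
    by_cases hbad : ∃ ij : J × J,
        p ∣ (a ij.1 * w ij.2 - a ij.2 * w ij.1 + w ij.1 * w ij.2 * N * t) +
          -(w ij.1 * w ij.2 * N) * t'
    · obtain ⟨ij, hij⟩ := hbad
      have h1 := Finset.single_le_sum hnn (Finset.mem_univ ij)
      rw [if_pos hij] at h1
      have h2 : (avg L fun σ => Φ (σ + N * t) * Φ (σ + N * t')) ≤ 1 :=
        avg_le_of_le fun σ _ => (le_abs_self _).trans (B.mul_le (hΦ1 _) (hΦ1 _))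
      linarith
    · have h1 := Finset.sum_nonneg hnn
      have h2 := ih k p (J ⊕ J) (Sum.elim b b)
        (Sum.elim (fun j => a j + w j * N * t) fun j => a j + w j * N * t') (Sum.elim w w) ι s
        (fun i σ => φ i (σ + N * t) * φ i (σ + N * t')) M d L
        (by rw [Fintype.card_sum]; omega) hn hp (by rintro (j | j) <;> exact hb j)
        (by rintro (j | j) <;> exact hw j) ?_ (fun i σ => B.mul_le (hφ _ _) (hφ _ _))
        (hD t t') hM hdeg hL
      · rw [← hβE] at h2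
        have h3 := le_of_pow_le_pow_left₀ hE hβ h2
        have e1 : (fun σ => Φ (σ + N * t) * Φ (σ + N * t')) = fun σ =>
            (∏ j : J ⊕ J, chi p (Sum.elim b b j) (Sum.elim (fun j => a j + w j * N * t)
              (fun j => a j + w j * N * t') j + Sum.elim w w j * σ)) *
            ∏ i ∈ s, φ i (σ + N * t) * φ i (σ + N * t') := by
          funext σ
          rw [Fintype.prod_sum_type, Finset.prod_mul_distrib, hΦ]
          simp only [Sum.elim_inl, Sum.elim_inr]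
          have a1 : ∀ (j : J) (u : k[X]),
              a j + w j * (σ + N * u) = a j + w j * N * u + w j * σ := fun j u => by ring
          simp only [a1]
          ring
        rw [e1]
        exact (le_abs_self _).trans (h3.trans (le_add_of_nonneg_left h1))
      · rintro (i | i) (j | j) hij hd <;> simp only [Sum.elim_inl, Sum.elim_inr] at hd
        · refine ha i j (fun e => hij (by rw [e])) ?_
          rwa [show (a i + w i * N * t) * w j - (a j + w j * N * t) * w i =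
            a i * w j - a j * w i by ring] at hd
        · refine hbad ⟨(i, j), ?_⟩
          rwa [show (a i + w i * N * t) * w j - (a j + w j * N * t') * w i =
            (a i * w j - a j * w i + w i * w j * N * t) + -(w i * w j * N) * t' by ring] at hd
        · refine hbad ⟨(j, i), ?_⟩
          rwa [show (a i + w i * N * t') * w j - (a j + w j * N * t) * w i =
            -((a j * w i - a i * w j + w j * w i * N * t) + -(w j * w i * N) * t') by ring,
            dvd_neg] at hd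
        · refine ha i j (fun e => hij (by rw [e])) ?_
          rwa [show (a i + w i * N * t') * w j - (a j + w j * N * t') * w i =
            a i * w j - a j * w i by ring] at hd
  refine (avg_mono fun t' _ => key t').trans ?_
  rw [avg_add, avg_const, avg_sum]
  have e2 : ∀ ij ∈ (Finset.univ : Finset (J × J)), (avg p.natDegree fun t' =>
      if p ∣ (a ij.1 * w ij.2 - a ij.2 * w ij.1 + w ij.1 * w ij.2 * N * t) +
        -(w ij.1 * w ij.2 * N) * t' then (1 : ℝ) else 0) = 1 / Nm p :=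
    fun ij _ => avg_dvd hp.1.ne_zero le_rfl (hcop _ _) _
  rw [Finset.sum_congr rfl e2, Finset.sum_const, Finset.card_univ, Fintype.card_prod,
    nsmul_eq_mul, mul_one_div]
  have : (Fintype.card J : ℝ) ≤ r := by exact_mod_cast hr
  push_cast
  rw [← sq]
  gcongr

theorem gen_zero (h0 : StB0G) (r : ℕ) : Gen 0 r (((r : ℝ) + 2) ^ 2) := by
  intro k _ _ _ p J _ _ b a w ι s φ M d L hr hn hp hb hw ha _ _ _ _ hL
  obtain rfl : s = ∅ := by
    refine Finset.eq_empty_of_forall_notMem fun i hi => ?_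
    have := Finset.single_le_sum (f := fun i => d i + 1) (fun _ _ => Nat.zero_le _) hi
    omega
  simp only [Finset.prod_empty, mul_one]
  exact base h0 b a w 0 hr hp hb hw ha hL

theorem gen_succ (h0 : StB0G) (hd : StDeg) {n r : ℕ} {C : ℝ} (hC : 0 ≤ C)
    (ih : Gen n (2 * r) C) : Gen (n + 1) r
      (((r : ℝ) + 2) ^ 2 + 2 ^ (2 ^ (n + 1) - 1) * (((r : ℝ) ^ 2) ^ 2 ^ (n + 1) + C)) := by
  intro k _ _ _ p J _ _ b a w ι s φ M d L hr hn hp hb hw ha hφ hD hM hdeg hL
  have hN0 := Nm_pos p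
  rcases s.eq_empty_or_nonempty with rfl | ⟨i₀, hi₀⟩
  · simp only [Finset.prod_empty, mul_one]
    exact (base h0 b a w _ hr hp hb hw ha hL).trans
      (div_le_div_of_nonneg_right (le_add_of_nonneg_right (by positivity)) hN0.le)
  refine le_trans ?_
    (div_le_div_of_nonneg_right (le_add_of_nonneg_left (by positivity)) hN0.le)
  have hpair : ∀ t t', ∀ i ∈ s, Dg (M i) (d i)
      fun σ => φ i (σ + M i₀ * t) * φ i (σ + M i₀ * t') := fun t t' i hi =>
    (hd k (M i)).1 _ _ _ ((hd k (M i)).2.1 _ _ _ (hD i hi)) ((hd k (M i)).2.1 _ _ _ (hD i hi))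
  have hsum := Finset.add_sum_erase s (fun i => d i + 1) hi₀
  have hD0 := hD i₀ hi₀
  rcases hdi : d i₀ with _ | e
  · rw [hdi] at hD0
    have e0 : (fun σ => (∏ j, chi p (b j) (a j + w j * σ)) * ∏ i ∈ s, φ i σ) = fun σ =>
        ((∏ j, chi p (b j) (a j + w j * σ)) * ∏ i ∈ s.erase i₀, φ i σ) * φ i₀ σ := by
      funext σ
      rw [mul_assoc, Finset.prod_erase_mul s (fun i => φ i σ) hi₀]
    rw [e0]
    exact step hC ih b a w (s.erase i₀) φ M d (φ i₀) (M i₀) hr (by omega) hp hb hw ha hφ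
      (fun t t' i hi => hpair t t' i (Finset.mem_of_mem_erase hi))
      (fun i hi => hM i (Finset.mem_of_mem_erase hi))
      (fun i hi => hdeg i (Finset.mem_of_mem_erase hi)) hL (hφ i₀) hD0 (hM i₀ hi₀) (hdeg i₀ hi₀)
  · rw [hdi] at hD0
    have h1 := step hC ih b a w s φ M (Function.update d i₀ e) (fun _ => 1) (M i₀) hr ?_ hp hb hw
      ha hφ ?_ hM hdeg hL (fun _ => by simp) (fun _ _ => rfl) (hM i₀ hi₀) (hdeg i₀ hi₀)
    · simpa only [mul_one] using h1
    · rw [← Finset.add_sum_erase s _ hi₀, Function.update_self,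
        Finset.sum_congr rfl (g := fun i => d i + 1) fun i hi => by
          rw [Function.update_of_ne (Finset.ne_of_mem_erase hi)]]
      omega
    · intro t t' i hi
      rcases eq_or_ne i i₀ with rfl | hne
      · rw [Function.update_self]
        have h2 := (hd k (M i)).2.1 _ _ (M i * t) (hD0 (t' - t))
        have e1 : ∀ σ : k[X], σ + M i * t + M i * (t' - t) = σ + M i * t' := fun σ => by ring
        simpa only [e1] using h2
      · rw [Function.update_of_ne hne]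
        exact hpair t t' i hi

theorem gen (h0 : StB0G) (hd : StDeg) (n : ℕ) : ∀ r, ∃ C, 0 ≤ C ∧ Gen n r C := by
  induction n with
  | zero => exact fun r => ⟨_, by positivity, gen_zero h0 r⟩
  | succ n ih =>
    intro r
    obtain ⟨C, hC, hG⟩ := ih (2 * r)
    exact ⟨_, by positivity, gen_succ h0 hd hC hG⟩

end CwB

theorem stBG (h0 : StB0G) (hd : StDeg) : StBG := by
  intro n r
  exact CwB.gen h0 hd n r

end Pool.Agent.Lib.MP_232f4c_nt.Cw
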