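import Pool.Agent.Lib.MP_232f4c_nt.CwDefs
import Pool.Agent.Lib.MP_9227d9_nt.MobB0

/-!
The complete cubic sum for several forms with different moduli.
-/

namespace Pool.Agent.Lib.MP_232f4c_nt.Cw

open Polynomial Pool.Agent.Lib.MP_9227d9_nt.Mob Filter Topology

open scoped Classical

namespace CwB0

open B0

variable {K : Type} [Field K] [Fintype K] [CharP K 2] {J : Type} [Fintype J]

/-- The summand. -/
noncomputable def Pg (y om v om' γ be : J → K) (x : K × K) : ℝ :=
  ∏ j, if y j + om j * x.1 = 0 then 0 else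
    ps (((v j + om' j * x.1 + om j * x.2) ^ 2 + γ j) ^ 3 / ((y j + om j * x.1) ^ 2 * be j ^ 4))

omit [Fintype K] [CharP K 2] in
theorem abs_Pg (y om v om' γ be : J → K) (x : K × K) : |Pg y om v om' γ be x| ≤ 1 := by
  rw [Pg, Finset.abs_prod]
  refine Finset.prod_le_one (fun _ _ => abs_nonneg _) fun j _ => ?_
  split_ifs
  · simp
  · exact (abs_ps _).le

theorem card_bad [Nonempty J] {y om be : J → K} (hom : ∀ j, om j ≠ 0) (hbe : ∀ j, be j ≠ 0)
    (hy : ∀ i j, i ≠ j → y i * om j - y j * om i ≠ 0) :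
    (Finset.univ.filter fun s : K => (∀ j, y j + om j * s ≠ 0) ∧
      ∑ j, om j ^ 3 * ((y j + om j * s) * be j ^ 2)⁻¹ = 0).card ≤ Fintype.card J := by
  set Q : K[X] := ∑ j, C (om j ^ 3 * (be j ^ 2)⁻¹) *
    ∏ i ∈ Finset.univ.erase j, (C (om i) * X + C (y i)) with hQ
  have hev : ∀ s : K, Q.eval s = ∑ j, om j ^ 3 * (be j ^ 2)⁻¹ *
      ∏ i ∈ Finset.univ.erase j, (y i + om i * s) := by
    intro s
    rw [hQ, eval_finsetSum]
    refine Finset.sum_congr rfl fun j _ => ?_
    rw [eval_mul, eval_C, eval_prod]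
    congr 1
    refine Finset.prod_congr rfl fun i _ => ?_
    rw [eval_add, eval_mul, eval_C, eval_C, eval_X, add_comm]
  have h0 : Q ≠ 0 := fun h => by
    obtain ⟨i⟩ := ‹Nonempty J›
    have h1 := hev (-(y i / om i))
    rw [h, eval_zero, Finset.sum_eq_single i] at h1
    · refine mul_ne_zero (mul_ne_zero (pow_ne_zero _ (hom i))
        (inv_ne_zero (pow_ne_zero _ (hbe i)))) (Finset.prod_ne_zero_iff.2 fun j hj h2 => ?_)
        h1.symm
      refine hy j i (Finset.mem_erase.1 hj).1 ?_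
      have h3 := hom i
      field_simp at h2
      linear_combination h2
    · intro j _ hj
      refine mul_eq_zero_of_right _ (Finset.prod_eq_zero
        (Finset.mem_erase.2 ⟨hj.symm, Finset.mem_univ i⟩) ?_)
      have h3 := hom i
      field_simp
      ring
    · intro h2
      exact absurd (Finset.mem_univ i) h2
  have hd : Q.natDegree ≤ Fintype.card J := by
    refine natDegree_sum_le_of_forall_le _ _ fun j _ => ?_
    refine (natDegree_C_mul_le _ _).trans ((natDegree_prod_le _ _).trans ?_)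
    refine (Finset.sum_le_card_nsmul _ _ 1 fun i _ => natDegree_linear_le).trans ?_
    rw [smul_eq_mul, mul_one]
    exact Finset.card_le_univ _
  refine (card_le_degree_of_subset_roots fun s hs => ?_).trans hd
  obtain ⟨h1, h2⟩ := (Finset.mem_filter.1 hs).2
  rw [mem_roots h0, IsRoot, hev]
  have h3 : ∀ j, om j ^ 3 * (be j ^ 2)⁻¹ * ∏ i ∈ Finset.univ.erase j, (y i + om i * s) =
      (∏ i, (y i + om i * s)) * (om j ^ 3 * ((y j + om j * s) * be j ^ 2)⁻¹) := by
    intro j
    rw [← Finset.mul_prod_erase _ _ (Finset.mem_univ j)]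
    have h4 := h1 j
    have h5 := hbe j
    generalize ∏ i ∈ Finset.univ.erase j, (y i + om i * s) = P
    field_simp
  simp only [h3]
  rw [← Finset.mul_sum, h2, mul_zero]

theorem inner_le (y om v om' γ be : J → K) (s : K)
    (hs : ¬ ((∀ j, y j + om j * s ≠ 0) ∧
      ∑ j, om j ^ 3 * ((y j + om j * s) * be j ^ 2)⁻¹ = 0)) :
    |∑ t : K, Pg y om v om' γ be (s, t)| ≤ 2 * √(Fintype.card K) := by
  by_cases h1 : ∀ j, y j + om j * s ≠ 0
  · have h2 : ∑ j, om j ^ 3 * ((y j + om j * s) * be j ^ 2)⁻¹ ≠ 0 := fun h => hs ⟨h1, h⟩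
    have h3 : (2 : K) = 0 := CharTwo.two_eq_zero
    have hA : ∑ j, ((y j + om j * s) ^ 2 * be j ^ 4)⁻¹ * om j ^ 6 ≠ 0 := by
      have e : ∑ j, ((y j + om j * s) ^ 2 * be j ^ 4)⁻¹ * om j ^ 6 =
          (∑ j, om j ^ 3 * ((y j + om j * s) * be j ^ 2)⁻¹) ^ 2 := by
        rw [CharTwo.sum_sq]
        refine Finset.sum_congr rfl fun j _ => ?_
        rw [mul_pow, inv_pow, mul_pow, ← pow_mul, ← pow_mul, mul_comm]
      rw [e]
      exact pow_ne_zero _ h2
    have h4 := cubic hA
      (∑ j, ((y j + om j * s) ^ 2 * be j ^ 4)⁻¹ * (((v j + om' j * s) ^ 2 + γ j) * om j ^ 4))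
      (∑ j, ((y j + om j * s) ^ 2 * be j ^ 4)⁻¹ * (((v j + om' j * s) ^ 2 + γ j) ^ 2 * om j ^ 2))
      (∑ j, ((y j + om j * s) ^ 2 * be j ^ 4)⁻¹ * ((v j + om' j * s) ^ 2 + γ j) ^ 3)
    rw [← sq_bij.sum_comp] at h4
    have e : ∀ t : K, Pg y om v om' γ be (s, t) =
        ps ((∑ j, ((y j + om j * s) ^ 2 * be j ^ 4)⁻¹ * om j ^ 6) * (t ^ 2) ^ 3 +
          (∑ j, ((y j + om j * s) ^ 2 * be j ^ 4)⁻¹ *
            (((v j + om' j * s) ^ 2 + γ j) * om j ^ 4)) * (t ^ 2) ^ 2 +
          (∑ j, ((y j + om j * s) ^ 2 * be j ^ 4)⁻¹ *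
            (((v j + om' j * s) ^ 2 + γ j) ^ 2 * om j ^ 2)) * t ^ 2 +
          ∑ j, ((y j + om j * s) ^ 2 * be j ^ 4)⁻¹ * ((v j + om' j * s) ^ 2 + γ j) ^ 3) := by
      intro t
      simp only [Pg, h1, if_false, Finset.sum_mul, ← Finset.sum_add_distrib, ps_sum]
      refine Finset.prod_congr rfl fun j _ => ?_
      congr 1
      rw [CharTwo.add_sq (v j + om' j * s), div_eq_inv_mul]
      generalize ((y j + om j * s) ^ 2 * be j ^ 4)⁻¹ = κ
      generalize (v j + om' j * s) ^ 2 = V
      linear_combination κ * ((V + γ j) * om j ^ 4 * (t ^ 2) ^ 2 +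
        (V + γ j) ^ 2 * om j ^ 2 * t ^ 2) * h3
    simp only [e]
    refine abs_le_of_sq_le_sq' ?_ (by positivity) |> abs_le.2
    rw [mul_pow, Real.sq_sqrt (Nat.cast_nonneg _)]
    linarith
  · push Not at h1
    obtain ⟨j, hj⟩ := h1
    have e : ∀ t : K, Pg y om v om' γ be (s, t) = 0 := fun t =>
      Finset.prod_eq_zero (Finset.mem_univ j) (if_pos hj)
    simp only [e, Finset.sum_const_zero, abs_zero]
    positivity

theorem total_le [Nonempty J] {y om be : J → K} (hom : ∀ j, om j ≠ 0) (hbe : ∀ j, be j ≠ 0)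
    (hy : ∀ i j, i ≠ j → y i * om j - y j * om i ≠ 0) (v om' γ : J → K) :
    ((∑ x : K × K, Pg y om v om' γ be x) / (Fintype.card K : ℝ) ^ 2) ^ 2 ≤
      ((Fintype.card J : ℝ) + 2) ^ 2 / Fintype.card K := by
  have hN : (1 : ℝ) ≤ Fintype.card K := by exact_mod_cast Fintype.card_pos
  have hs : 1 ≤ √(Fintype.card K : ℝ) := Real.one_le_sqrt.2 hN
  have hq : √(Fintype.card K : ℝ) ^ 2 = Fintype.card K := Real.sq_sqrt (Nat.cast_nonneg _)
  have h1 : |∑ x : K × K, Pg y om v om' γ be x| ≤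
      Fintype.card J * Fintype.card K + Fintype.card K * (2 * √(Fintype.card K)) := by
    rw [Fintype.sum_prod_type]
    refine (Finset.abs_sum_le_sum_abs _ _).trans ?_
    calc _ ≤ ∑ s : K, ((if (∀ j, y j + om j * s ≠ 0) ∧
          ∑ j, om j ^ 3 * ((y j + om j * s) * be j ^ 2)⁻¹ = 0 then (Fintype.card K : ℝ)
          else 0) + 2 * √(Fintype.card K)) := by
          refine Finset.sum_le_sum fun s _ => ?_
          split_ifs with h
          · refine le_add_of_le_of_nonneg ((Finset.abs_sum_le_sum_abs _ _).trans ?_)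
              (by positivity)
            simpa using Finset.sum_le_card_nsmul Finset.univ _ 1 fun (t : K) _ =>
              abs_Pg y om v om' γ be (s, t)
          · rw [zero_add]
            exact inner_le y om v om' γ be s h
      _ ≤ _ := by
          rw [Finset.sum_add_distrib, ← Finset.sum_filter, Finset.sum_const, Finset.sum_const,
            nsmul_eq_mul, nsmul_eq_mul, Finset.card_univ]
          gcongr
          exact card_bad hom hbe hy
  generalize √(Fintype.card K : ℝ) = s at *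
  rw [← hq] at h1 ⊢
  rw [← div_pow]
  refine sq_le_sq' (neg_le.1 ?_) ?_
  · rw [← neg_div, div_le_div_iff₀ (by positivity) (by positivity)]
    have h2 := neg_le_abs (∑ x : K × K, Pg y om v om' γ be x)
    have h3 : (Fintype.card J : ℝ) * s ^ 3 * 1 ≤ Fintype.card J * s ^ 3 * s := by gcongr
    nlinarith [mul_le_mul_of_nonneg_right (h2.trans h1) (zero_le_one.trans hs)]
  · rw [div_le_div_iff₀ (by positivity) (by positivity)]
    have h2 := le_abs_self (∑ x : K × K, Pg y om v om' γ be x)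
    have h3 : (Fintype.card J : ℝ) * s ^ 3 * 1 ≤ Fintype.card J * s ^ 3 * s := by gcongr
    nlinarith [mul_le_mul_of_nonneg_right (h2.trans h1) (zero_le_one.trans hs)]

end CwB0

theorem stB0G : StB0G := by
  intro k _ _ _ p J _ _ b a w L hp hb hw ha hL
  have : Fact (Irreducible p) := ⟨hp.2⟩
  have : Module.Finite k (AdjoinRoot p) := (AdjoinRoot.powerBasis hp.1.ne_zero).finite
  have : Finite (AdjoinRoot p) := Module.finite_of_finite k
  let _ : Fintype (AdjoinRoot p) := Fintype.ofFinite _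
  have : CharP (AdjoinRoot p) 2 :=
    charP_of_injective_algebraMap (algebraMap k (AdjoinRoot p)).injective 2
  have hN : (Fintype.card (AdjoinRoot p) : ℝ) = Nm p := by
    rw [Module.card_eq_pow_finrank (K := k), (AdjoinRoot.powerBasis hp.1.ne_zero).finrank,
      AdjoinRoot.powerBasis_dim, Nat.cast_pow]
    rfl
  have h0 : ∀ x, AdjoinRoot.mk p x = 0 ↔ p ∣ x := fun x => AdjoinRoot.mk_eq_zero
  have h1 := avg_periodic (F := fun τ => ∏ j, chi p (b j) (a j + w j * τ)) (n := L) (M := p ^ 2)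
    (pow_ne_zero _ hp.1.ne_zero) (by rwa [natDegree_pow])
    (fun v t => Finset.prod_congr rfl fun j _ => by
      rw [show a j + w j * (v + p ^ 2 * t) = a j + w j * v + p ^ 2 * (w j * t) by ring,
        chi_periodic]) 0
  simp only [zero_add, natDegree_pow] at h1
  have h2 := CwB0.total_le (y := fun j => AdjoinRoot.mk p (a j))
    (om := fun j => AdjoinRoot.mk p (w j)) (be := fun j => AdjoinRoot.mk p (derivative (b j)))
    (fun j h => hw j ((h0 _).1 h)) (fun j h => hb j ((h0 _).1 h))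
    (fun i j hij h => ha i j hij ((h0 _).1 (by rw [map_sub, map_mul, map_mul]; exact h)))
    (fun j => AdjoinRoot.mk p (derivative (a j))) (fun j => AdjoinRoot.mk p (derivative (w j)))
    (fun j => AdjoinRoot.mk p (X * derivative (b j) ^ 2))
  rw [← B0.avg_eq hp h0 hN, hN] at h2
  rw [h1]
  convert h2 using 4 with τ
  refine Finset.prod_congr rfl fun j _ => ?_
  rw [B0.chi_eq AdjoinRoot.mk_surjective h0 (hb j), derivative_add, derivative_mul, map_add,
    map_add, map_add, map_mul, map_mul, map_mul, add_assoc]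

end Pool.Agent.Lib.MP_232f4c_nt.Cw
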