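import Pool.Agent.Lib.MP_232f4c_nt.CwDefs
import Pool.Agent.Lib.MP_9227d9_nt.MobS

namespace Pool.Agent.Lib.MP_232f4c_nt.Cw

open Polynomial Pool.Agent.Lib.MP_9227d9_nt.Mob Filter Topology

open scoped Classical

namespace CwBad

theorem avg_eo {k : Type} [Field k] [Fintype k] [CharP k 2] (m : ℕ) (F : k[X] → ℝ) :
    avg (2 * m + 1) F =
      avg m fun b : k[X] => avg (m + 1) fun a : k[X] => F (a ^ 2 + X * b ^ 2) := by
  unfold avg
  rw [← Finset.sum_div, div_div, ← pow_add, ← Finset.sum_product',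
    show m + 1 + m = 2 * m + 1 by ring]
  congr 1
  symm
  refine Finset.sum_bij' (fun x _ => x.2 ^ 2 + X * x.1 ^ 2) (fun v _ => (od v, ev v))
    ?_ ?_ ?_ ?_ ?_
  · intro x hx
    obtain ⟨h1, h2⟩ := Finset.mem_product.1 hx
    refine mem_Pn.2 ((degree_add_le _ _).trans_lt (max_lt ?_ ?_))
    · have := degree_mul_sq_lt (a := (1 : k[X])) (n := 2 * m + 1) (mem_Pn.1 h2)
        (by rw [natDegree_one]; omega)
      rwa [one_mul] at this
    · exact degree_mul_sq_lt (mem_Pn.1 h1) (by rw [natDegree_X]; omega)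
  · intro v hv
    have h := mem_Pn.1 hv
    refine Finset.mem_product.2 ⟨mem_Pn.2 (degree_od_lt h), mem_Pn.2 (degree_ev_lt (h.trans_le ?_))⟩
    exact_mod_cast (by omega : 2 * m + 1 ≤ 2 * (m + 1))
  · intro x _
    exact Prod.ext (od_eq _ _) (ev_eq _ _)
  · intro v _
    exact (ev_od v).symm
  · intro x _
    rfl

end CwBad

theorem stEO : StEO := by
  intro k _ _ _ m F
  unfold avm
  rw [CwBad.avg_eo]
  refine avg_congr fun b _ => avg_congr fun a _ => ?_
  have h2 : (2 : k[X]) = 0 := CharTwo.two_eq_zero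
  have h : X ^ (2 * m + 1) + (a ^ 2 + X * b ^ 2) = a ^ 2 + X * (X ^ m + b) ^ 2 := by
    linear_combination (-(X * X ^ m * b)) * h2
  rw [h]

theorem stTr : StTr := by
  intro k _ _ m A β F hA hβ hF
  have hMD : MD A.natDegree A := ⟨hA, rfl⟩
  have hinj : Set.InjOn (fun t => A * (X ^ m + t) + β) (Pn k m : Set k[X]) := fun t _ t' _ h =>
    add_left_cancel (mul_left_cancel₀ hA.ne_zero (add_right_cancel h))
  have key : ∑ t ∈ Pn k m, F (A * (X ^ m + t) + β) ≤
      ∑ f ∈ (Mo k (A.natDegree + m)).filter (fun f => f.natDegree = A.natDegree + m), F f := by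
    calc ∑ t ∈ Pn k m, F (A * (X ^ m + t) + β)
        = ∑ f ∈ (Pn k m).image (fun t => A * (X ^ m + t) + β), F f :=
          (Finset.sum_image hinj).symm
      _ ≤ _ := by
        refine Finset.sum_le_sum_of_subset_of_nonneg ?_ fun f _ _ => hF f
        intro f hf
        obtain ⟨t, ht, rfl⟩ := Finset.mem_image.1 hf
        have := (hMD.mul (MD_add (mem_Pn.1 ht))).add hβ
        exact Finset.mem_filter.2 ⟨mem_Mo.2 ⟨this.1, this.2.le⟩, this.2⟩
  rw [avm_eq_sum (n := A.natDegree + m)]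
  unfold avm avg Nm
  have h1 := qR_pow_pos (k := k) A.natDegree
  have h2 := qR_pow_pos (k := k) m
  rw [pow_add, ← mul_div_assoc, mul_div_mul_left _ _ h1.ne']
  exact div_le_div_of_nonneg_right key h2.le

theorem stSq : StSq := by
  intro k _ _ n y
  refine (avm_mono fun u hu => ?_).trans (stSQ k n y)
  split_ifs with h
  · obtain ⟨g, hg, hy, hd⟩ := h
    have h1 : g ∣ u := (dvd_pow_self g two_ne_zero).trans hd
    have h2 : g.natDegree ≤ n := hu.2 ▸ natDegree_le_of_dvd h1 hu.ne_zero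
    have h3 : g ∈ (Mo k n).filter fun g => y < g.natDegree ∧ g ^ 2 ∣ u :=
      Finset.mem_filter.2 ⟨mem_Mo.2 ⟨hg, h2⟩, hy, hd⟩
    exact_mod_cast Finset.card_pos.2 ⟨g, h3⟩
  · exact Nat.cast_nonneg _

end Pool.Agent.Lib.MP_232f4c_nt.Cw
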