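import Pool.Agent.Lib.MP_232f4c_nt.CwDefs
import Pool.Agent.Lib.MP_9227d9_nt.MobA
import Pool.Agent.Lib.MP_9227d9_nt.MobA1

namespace Pool.Agent.Lib.MP_232f4c_nt.Cw

open Polynomial Pool.Agent.Lib.MP_9227d9_nt.Mob Filter Topology

open scoped Classical

namespace Cmp

open Pool.Agent.Lib.MP_a3f657_nt.Two

variable {k : Type} [Field k]

theorem monic_F {a b : k[X]} (hb : b.Monic) (ha : a.natDegree ≤ b.natDegree) :
    (a ^ 2 + X * b ^ 2).Monic ∧ (a ^ 2 + X * b ^ 2).natDegree = 2 * b.natDegree + 1 := by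
  have hXb : (X * b ^ 2).natDegree = 2 * b.natDegree + 1 := by
    rw [monic_X.natDegree_mul (hb.pow 2), natDegree_X, natDegree_pow, add_comm]
  have hlt : (a ^ 2).natDegree < (X * b ^ 2).natDegree := by
    rw [hXb, natDegree_pow]
    omega
  exact ⟨(monic_X.mul (hb.pow 2)).add_of_right (degree_lt_degree hlt),
    by rw [natDegree_add_eq_right_of_natDegree_lt hlt, hXb]⟩

theorem not_sqf {a b p : k[X]} (hp : IsP p) (ha : p ∣ a) (hb : p ∣ b) :
    ¬ Squarefree (a ^ 2 + X * b ^ 2) := fun h =>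
  hp.2.not_isUnit (h p (by
    rw [← pow_two]
    exact (pow_dvd_pow_of_dvd ha 2).add ((pow_dvd_pow_of_dvd hb 2).mul_left _)))

theorem exists_y {b₀ P : k[X]} (hm : b₀.Monic) (h : IsCoprime b₀ P) (W : k[X]) :
    ∃ y : k[X], y.degree < (2 * b₀.natDegree : ℕ) ∧ b₀ ^ 2 ∣ W - y * P ^ 2 := by
  obtain ⟨v, u, e⟩ := h.pow (m := 2) (n := 2)
  refine ⟨(u * W) %ₘ b₀ ^ 2, ?_, v * W + (u * W) /ₘ b₀ ^ 2 * P ^ 2, ?_⟩
  · have h1 := degree_modByMonic_lt (u * W) (hm.pow 2)
    rwa [degree_eq_natDegree (hm.pow 2).ne_zero, natDegree_pow] at h1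
  · linear_combination (-W) * e - P ^ 2 * modByMonic_add_div (u * W) (b₀ ^ 2)

variable [Fintype k]

theorem not_dvd_der {b₀ p : k[X]} {S : Finset k[X]} (hS : ∀ p ∈ S, IsP p) (hp : p ∈ S)
    (h0 : ¬ p ∣ b₀) : ¬ p ∣ derivative (b₀ * ∏ p ∈ S, p) := fun h => by
  have h1 : p ∣ ∏ p ∈ S, p := Finset.dvd_prod_of_mem _ hp
  rw [derivative_mul] at h
  rcases (hS p hp).prime.dvd_or_dvd ((dvd_add_right (h1.mul_left _)).1 h) with h2 | h2
  · exact h0 h2
  · exact (hS p hp).2.not_isUnit ((isCoprime_derivative (squarefree_prod hS)).isUnit_of_dvd' h1 h2)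

theorem map_fix (f : k[X]) : (f.map (algebraMap k (AlgebraicClosure k))).map
    (FiniteField.frobeniusAlgHom k (AlgebraicClosure k)).toRingHom =
      f.map (algebraMap k (AlgebraicClosure k)) := by
  rw [Polynomial.map_map]
  exact congrArg (fun g => f.map g)
    (FiniteField.frobeniusAlgHom k (AlgebraicClosure k)).comp_algebraMap

variable [CharP k 2]

omit [Fintype k] in
theorem sum_eF {a b P : k[X]} (hP : P ∣ b) {m : ℕ} {β : Fin m → AlgebraicClosure k}
    (hβ : P.map (algebraMap k (AlgebraicClosure k)) = ∏ j, (X - C (β j))) :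
    ∑ j, eF (a.map (algebraMap k (AlgebraicClosure k)) ^ 2 +
        X * b.map (algebraMap k (AlgebraicClosure k)) ^ 2) (β j) =
      Lp.Sk (a ^ 2 * derivative b ^ 4) ((derivative a ^ 2 + X * derivative b ^ 2) ^ 3) P := by
  rw [Lp.Sk, Lp.SS]
  conv_rhs => rw [hβ, Finset.prod_eq_multiset_prod, ← Function.comp_def (fun c => X - C c) β,
    ← Multiset.map_map, roots_multiset_prod_X_sub_C, Multiset.map_map,
    ← Finset.sum_eq_multiset_sum]
  refine Finset.sum_congr rfl fun j _ => ?_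
  have h0 : (b.map (algebraMap k (AlgebraicClosure k))).eval (β j) = 0 := by
    obtain ⟨c, rfl⟩ := hP
    rw [Polynomial.map_mul, eval_mul, hβ, eval_prod,
      Finset.prod_eq_zero (Finset.mem_univ j) (by simp), zero_mul]
  obtain ⟨c0, c2, c3⟩ := A.taylor_coeffs (a.map (algebraMap k (AlgebraicClosure k))) _ h0
  simp only [eF, Polynomial.map_add, Polynomial.map_mul, Polynomial.map_pow, map_X, c0, c2, c3,
    Function.comp_apply, derivative_map, eval_add, eval_mul, eval_pow, eval_X]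
  ring

theorem sg_Sk {b₀ a : k[X]} {S : Finset k[X]} (hS : ∀ p ∈ S, IsP p) (h0 : ∀ p ∈ S, ¬ p ∣ b₀)
    (hF : Squarefree (a ^ 2 + X * (b₀ * ∏ p ∈ S, p) ^ 2)) :
    sg 1 (Lp.Sk (a ^ 2 * derivative (b₀ * ∏ p ∈ S, p) ^ 4)
      ((derivative a ^ 2 + X * derivative (b₀ * ∏ p ∈ S, p) ^ 2) ^ 3) (∏ p ∈ S, p)) =
      ((∏ p ∈ S, chi p (b₀ * ∏ p ∈ S, p) a : ℝ) : ℂ) := by
  have hpa : ∀ p ∈ S, ¬ p ∣ a := fun p hp h =>
    not_sqf (hS p hp) h ((Finset.dvd_prod_of_mem _ hp).mul_left _) hF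
  rw [A.sg_prod _ S fun p hp => ⟨(hS p hp).1, (hS p hp).2, fun hd => by
    rcases (hS p hp).prime.dvd_or_dvd hd with h3 | h3
    · exact hpa p hp ((hS p hp).prime.dvd_of_dvd_pow h3)
    · exact not_dvd_der hS hp (h0 p hp) ((hS p hp).prime.dvd_of_dvd_pow h3)⟩,
    Complex.ofReal_prod]
  exact Finset.prod_congr rfl fun p hp => by rw [chi, if_neg (hpa p hp), A.sgR_cast]

end Cmp

open Pool.Agent.Lib.MP_a3f657_nt.Two in
theorem stCmp (h : StW) : StCmp := by
  intro k _ _ _ b₀ b a a' S hm hS h0 hb hd ha ha' hF hF'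
  have hPm := monic_prod hS
  have hbm : b.Monic := hb ▸ hm.mul hPm
  have hcop : IsCoprime b₀ (∏ p ∈ S, p) :=
    IsCoprime.prod_right fun p hp => (hS p hp).isCoprime_iff.2 (h0 p hp)
  obtain ⟨s₀, hs₀⟩ := hd
  obtain ⟨y₀, hy1, hy2⟩ := Cmp.exists_y hm hcop (a * derivative a + X * (b * derivative b))
  obtain ⟨α, s, hα, hαF, hαs⟩ := A.exists_enum (Cmp.monic_F hbm ha).1 (Cmp.monic_F hbm ha).2 hF
  obtain ⟨α', s', hα', hαF', hαs'⟩ :=
    A.exists_enum (Cmp.monic_F hbm ha').1 (Cmp.monic_F hbm ha').2 hF'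
  obtain ⟨β, t, hβ, hβb, hβt⟩ := A.exists_enum hPm rfl (squarefree_prod hS)
  obtain ⟨z, hz1, hz2⟩ := h (AlgebraicClosure k)
    (FiniteField.frobeniusAlgHom k (AlgebraicClosure k)).toRingHom b.natDegree _
    (b₀.map (algebraMap k _)) (b.map (algebraMap k _)) (a.map (algebraMap k _))
    (a'.map (algebraMap k _)) (s₀.map (algebraMap k _)) (y₀.map (algebraMap k _)) β t α α' s s'
    (hm.map _) (by rw [natDegree_map, hb, hm.natDegree_mul hPm])
    (by rw [← hβb, ← Polynomial.map_mul, ← hb])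
    (by rw [← Polynomial.map_pow, ← Polynomial.map_mul, ← hs₀, ← Polynomial.map_add,
      add_sub_cancel])
    (Cmp.map_fix _) (Cmp.map_fix _) (Cmp.map_fix _) (Cmp.map_fix _) hβ (fun j => (hβt j).symm)
    (fun j => by
      rw [eval_map_algebraMap]
      refine (aeval_ne_zero_of_isCoprime hcop (β j)).resolve_right (not_not.2 ?_)
      rw [← eval_map_algebraMap, hβb, eval_prod]
      exact Finset.prod_eq_zero (Finset.mem_univ j) (by simp))
    (by rwa [natDegree_map]) (by rwa [natDegree_map]) (by rwa [degree_map, natDegree_map])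
    (by
      have h1 := Polynomial.map_dvd (algebraMap k (AlgebraicClosure k)) hy2
      simpa only [Polynomial.map_sub, Polynomial.map_add, Polynomial.map_mul, Polynomial.map_pow,
        map_X, hβb, derivative_map] using h1)
    hα hα' (fun i => (hαs i).symm) (fun i => (hαs' i).symm)
    (by rw [← hαF, Polynomial.map_add, Polynomial.map_mul, Polynomial.map_pow, Polynomial.map_pow,
      map_X])
    (by rw [← hαF', Polynomial.map_add, Polynomial.map_mul, Polynomial.map_pow,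
      Polynomial.map_pow, map_X])
  have hPb : ∏ p ∈ S, p ∣ b := hb ▸ dvd_mul_left _ _
  rw [Cmp.sum_eF hPb hβb, Cmp.sum_eF hPb hβb] at hz1
  have h3 := Rh.sg_eq (k := k) one_pos
    (a := if Equiv.Perm.sign s = Equiv.Perm.sign s' then 0 else 1) hz1 (by
    rw [pow_one]
    refine hz2.trans ?_
    split_ifs
    · rw [Rh.cz_zero]
    · rw [Rh.cz_one])
  rw [stA1 k _ _ α s hF hαF hαs, stA1 k _ _ α' s' hF' hαF' hαs']
  generalize b.natDegree = m at α α' s s' h3
  subst hb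
  rw [Lp.sg_add one_pos (Lp.Sk_mem ..) (Lp.Sk_mem ..), Cmp.sg_Sk hS h0 hF, Cmp.sg_Sk hS h0 hF',
    ← Complex.ofReal_mul] at h3
  apply Complex.ofReal_injective
  rw [h3, pow_succ, pow_mul]
  rcases Int.units_eq_one_or (Equiv.Perm.sign s) with h1 | h1 <;>
    rcases Int.units_eq_one_or (Equiv.Perm.sign s') with h2 | h2 <;> simp [h1, h2, Rh.sgn]

theorem stAG (h : StCmp) : StAG := by
  intro k _ _ _ b₀ b S hm hS h0 hb
  have hbm : b.Monic := hb ▸ hm.mul (monic_prod hS)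
  obtain ⟨Pr, hPr⟩ : ∃ Pr : k[X] → k[X] → Prop, ∀ a a', Pr a a' ↔ (b₀ ^ 4 ∣ a' - a ∧
      a'.natDegree ≤ b.natDegree ∧ Squarefree (a' ^ 2 + X * b ^ 2)) := ⟨_, fun _ _ => Iff.rfl⟩
  refine ⟨fun a => if ∃ a', Pr a a' then mu (Classical.epsilon (Pr a) ^ 2 + X * b ^ 2) *
    ∏ p ∈ S, chi p b (Classical.epsilon (Pr a)) else 0, fun a => ?_, fun a t => ?_,
    fun a ha => ?_⟩
  · beta_reduce
    split_ifs
    · rw [abs_mul, Finset.abs_prod]
      exact mul_le_one₀ (abs_mu_le _) (Finset.prod_nonneg fun _ _ => abs_nonneg _)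
        (Finset.prod_le_one (fun _ _ => abs_nonneg _) fun _ _ => abs_chi_le _ _ _)
    · simp
  · have e : Pr (a + b₀ ^ 4 * t) = Pr a := by
      funext a'
      rw [eq_iff_iff, hPr, hPr, ← sub_sub, dvd_sub_left (dvd_mul_right _ _)]
    beta_reduce
    rw [e]
  · beta_reduce
    by_cases hF : Squarefree (a ^ 2 + X * b ^ 2)
    · have hex : ∃ a', Pr a a' := ⟨a, (hPr a a).2 ⟨by simp, ha, hF⟩⟩
      obtain ⟨h1, h2, h3⟩ := (hPr _ _).1 (Classical.epsilon_spec hex)
      have h4 := h k b₀ b a _ S hm hS h0 hb h1 ha h2 hF h3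
      have h5 := mu_sq (Classical.epsilon (Pr a) ^ 2 + X * b ^ 2)
      rw [if_pos h3] at h5
      rw [if_pos hex]
      linear_combination (-mu (a ^ 2 + X * b ^ 2)) * h5 +
        mu (Classical.epsilon (Pr a) ^ 2 + X * b ^ 2) * h4
    · rw [not_not.1 (mu_ne_zero_iff.not.2 hF)]
      obtain ⟨p, hp, hd⟩ := exists_isP_of_not_squarefree (Cmp.monic_F hbm ha).1.ne_zero hF
      have h3 := dvd_od_of_sq_dvd hd
      have h4 := dvd_ev_of_sq_dvd hd
      rw [od_eq] at h3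
      rw [ev_eq] at h4
      rcases hp.prime.dvd_or_dvd (hb ▸ h3 : p ∣ b₀ * ∏ p ∈ S, p) with h5 | h5
      · rw [if_neg, zero_mul]
        rintro ⟨a', ha'⟩
        obtain ⟨h1, -, h2⟩ := (hPr _ _).1 ha'
        refine Cmp.not_sqf hp ?_ h3 h2
        exact (dvd_sub_left h4).1 ((dvd_pow h5 (by norm_num)).trans h1)
      · rw [Finset.prod_eq_zero (f := fun p => chi p b a) ((dvd_prod_iff_mem hS hp).1 h5)
          (by rw [chi, if_pos h4]), mul_zero]

end Pool.Agent.Lib.MP_232f4c_nt.Cw
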