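import Pool.Agent.Lib.MP_232f4c_nt.CwDefs
import Pool.Agent.Lib.MP_9227d9_nt.MobB0

/-! Functions of bounded degree. -/

namespace Pool.Agent.Lib.MP_232f4c_nt.Cw

open Polynomial Pool.Agent.Lib.MP_9227d9_nt.Mob Filter Topology

open scoped Classical

namespace Deg

variable {k : Type} [Field k] {M : k[X]}

theorem mul (d : ℕ) : ∀ φ ψ : k[X] → ℝ, Dg M d φ → Dg M d ψ → Dg M d fun σ => φ σ * ψ σ := by
  induction d with
  | zero => exact fun φ ψ h1 h2 σ t => by simp only [h1 σ t, h2 σ t]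
  | succ d ih =>
    intro φ ψ h1 h2 t
    have := ih _ _ (h1 t) (h2 t)
    simpa only [mul_mul_mul_comm (φ _) (φ _)] using this

theorem shift (d : ℕ) : ∀ (φ : k[X] → ℝ) (c : k[X]), Dg M d φ → Dg M d fun σ => φ (σ + c) := by
  induction d with
  | zero => exact fun φ c h σ t => by simp only [add_right_comm σ _ c, h (σ + c) t]
  | succ d ih =>
    intro φ c h t
    have := ih _ c (h t)
    simpa only [add_right_comm _ c] using this

theorem mono (d : ℕ) (φ : k[X] → ℝ) (h : Dg M d φ) : Dg M (d + 1) φ :=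
  fun t => mul d _ _ h (shift d φ (M * t) h)

theorem four {K : Type} [Field K] [Fintype K] [CharP K 2] (e κ v w : K) :
    B0.ps (e ^ 3 / κ) * B0.ps ((e + v) ^ 3 / κ) *
      (B0.ps ((e + w) ^ 3 / κ) * B0.ps ((e + w + v) ^ 3 / κ)) =
      B0.ps ((v ^ 2 * w + v * w ^ 2) / κ) := by
  have h2 : (2 : K) = 0 := CharTwo.two_eq_zero
  rw [← B0.ps_add, ← B0.ps_add, ← B0.ps_add, ← add_div, ← add_div, ← add_div]
  congr 2
  linear_combination (2 * e ^ 3 + 3 * e ^ 2 * v + 3 * e ^ 2 * w + 3 * e * v ^ 2 + 3 * e * w ^ 2 +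
    3 * e * v * w + v ^ 3 + w ^ 3 + v ^ 2 * w + v * w ^ 2) * h2

theorem one [Fintype k] [CharP k 2] {p b : k[X]} (a w : k[X]) (hp : IsP p)
    (hb : ¬ p ∣ derivative b) (hM : p ∣ M) : Dg M 2 fun σ => chi p b (a + w * σ) := by
  have : Fact (Irreducible p) := ⟨hp.2⟩
  have : Module.Finite k (AdjoinRoot p) := (AdjoinRoot.powerBasis hp.1.ne_zero).finite
  have : Finite (AdjoinRoot p) := Module.finite_of_finite k
  let _ : Fintype (AdjoinRoot p) := Fintype.ofFinite _
  have : CharP (AdjoinRoot p) 2 :=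
    charP_of_injective_algebraMap (algebraMap k (AdjoinRoot p)).injective 2
  have h0 : ∀ x, AdjoinRoot.mk p x = 0 ↔ p ∣ x := fun x => AdjoinRoot.mk_eq_zero
  have hM0 : AdjoinRoot.mk p M = 0 := (h0 M).2 hM
  have key : ∀ σ u : k[X], chi p b (a + w * (σ + M * u)) =
      if AdjoinRoot.mk p (a + w * σ) = 0 then 0 else
        B0.ps ((AdjoinRoot.mk p (derivative (a + w * σ)) ^ 2 +
          AdjoinRoot.mk p (X * derivative b ^ 2) +
          (AdjoinRoot.mk p (w * derivative M) * AdjoinRoot.mk p u) ^ 2) ^ 3 /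
          (AdjoinRoot.mk p (a + w * σ) ^ 2 * AdjoinRoot.mk p (derivative b) ^ 4)) := by
    intro σ u
    have e1 : AdjoinRoot.mk p (a + w * (σ + M * u)) = AdjoinRoot.mk p (a + w * σ) := by
      simp only [map_add, map_mul, hM0, zero_mul, add_zero]
    have e2 : AdjoinRoot.mk p (derivative (a + w * (σ + M * u))) =
        AdjoinRoot.mk p (derivative (a + w * σ)) +
          AdjoinRoot.mk p (w * derivative M) * AdjoinRoot.mk p u := by
      simp only [derivative_mul, map_add, map_mul, hM0, zero_mul, add_zero]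
      ring
    rw [B0.chi_eq AdjoinRoot.mk_surjective h0 hb, e1, e2, CharTwo.add_sq, add_right_comm]
  intro t t' σ s
  have k0 : ∀ s, chi p b (a + w * (σ + M * s)) * chi p b (a + w * (σ + M * s + M * t)) *
      (chi p b (a + w * (σ + M * s + M * t')) * chi p b (a + w * (σ + M * s + M * t' + M * t))) =
      if AdjoinRoot.mk p (a + w * σ) = 0 then 0 else
        B0.ps ((((AdjoinRoot.mk p (w * derivative M) * AdjoinRoot.mk p t) ^ 2) ^ 2 *
          (AdjoinRoot.mk p (w * derivative M) * AdjoinRoot.mk p t') ^ 2 +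
          (AdjoinRoot.mk p (w * derivative M) * AdjoinRoot.mk p t) ^ 2 *
          ((AdjoinRoot.mk p (w * derivative M) * AdjoinRoot.mk p t') ^ 2) ^ 2) /
          (AdjoinRoot.mk p (a + w * σ) ^ 2 * AdjoinRoot.mk p (derivative b) ^ 4)) := by
    intro s
    simp only [add_assoc σ, ← mul_add M, key]
    split_ifs
    · simp
    · simp only [map_add (AdjoinRoot.mk p) s, map_add (AdjoinRoot.mk p) (s + t'),
        mul_add (AdjoinRoot.mk p (w * derivative M)), CharTwo.add_sq, ← add_assoc]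
      exact four _ _ _ _
  have k1 := k0 0
  simp only [mul_zero, add_zero] at k1
  exact (k0 s).trans k1.symm

end Deg

theorem stDeg : StDeg := by
  intro k _ _ _ M
  refine ⟨Deg.mul, Deg.shift, Deg.mono, fun S b a w h => ?_⟩
  induction S using Finset.induction_on with
  | empty => exact Deg.mono _ _ (Deg.mono _ _ fun _ _ => by simp)
  | insert p S hp ih =>
    simp only [Finset.prod_insert hp]
    have h1 := h p (Finset.mem_insert_self _ _)
    exact Deg.mul _ _ _ (Deg.one a w h1.1 h1.2.1 h1.2.2)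
      (ih fun q hq => h q (Finset.mem_insert_of_mem hq))

end Pool.Agent.Lib.MP_232f4c_nt.Cw
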