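import Pool.Agent.Lib.MP_232f4c_nt.CwDefs

namespace Pool.Agent.Lib.MP_232f4c_nt.Cw

open Polynomial Pool.Agent.Lib.MP_9227d9_nt.Mob Filter Topology

open scoped Classical

namespace Fac

/-- A set of total weight at most `2 T`, with weights at most `T`, is a union of three chunks. -/
theorem chunks {α : Type} [DecidableEq α] (S : Finset α) (w : α → ℕ) (T : ℕ)
    (h1 : ∀ q ∈ S, w q ≤ T) (h2 : ∑ q ∈ S, w q ≤ 2 * T) :
    ∃ S₁ S₂ S₃ : Finset α, S = S₁ ∪ S₂ ∪ S₃ ∧ Disjoint S₁ S₂ ∧ Disjoint (S₁ ∪ S₂) S₃ ∧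
      ∑ q ∈ S₁, w q ≤ T ∧ ∑ q ∈ S₂, w q ≤ T ∧ ∑ q ∈ S₃, w q ≤ T := by
  obtain ⟨S₁, hS₁, hmax⟩ := Finset.exists_max_image
    (S.powerset.filter fun R => ∑ q ∈ R, w q ≤ T) Finset.card
    ⟨∅, Finset.mem_filter.2 ⟨Finset.empty_mem_powerset _, by simp⟩⟩
  obtain ⟨hsub, hle⟩ := Finset.mem_filter.1 hS₁
  rw [Finset.mem_powerset] at hsub
  by_cases he : S ⊆ S₁
  · exact ⟨S₁, ∅, ∅, by simpa using Finset.Subset.antisymm he hsub, by simp, by simp, hle,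
      by simp, by simp⟩
  obtain ⟨q', hq'S, hq'⟩ := Finset.not_subset.1 he
  have hsub' : S₁ ∪ {q'} ⊆ S := Finset.union_subset hsub (Finset.singleton_subset_iff.2 hq'S)
  have hdis : Disjoint S₁ {q'} := Finset.disjoint_singleton_right.2 hq'
  have hbig : T < ∑ q ∈ S₁ ∪ {q'}, w q := by
    by_contra hn
    have := hmax (S₁ ∪ {q'}) (Finset.mem_filter.2 ⟨Finset.mem_powerset.2 hsub', not_lt.1 hn⟩)
    rw [Finset.card_union_of_disjoint hdis, Finset.card_singleton] at this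
    omega
  refine ⟨S₁, {q'}, S \ (S₁ ∪ {q'}), (Finset.union_sdiff_of_subset hsub').symm, hdis,
    Finset.disjoint_sdiff, hle, by simpa using h1 q' hq'S, ?_⟩
  have := Finset.sum_sdiff (f := w) hsub'
  omega

variable {k : Type} [Field k] [Fintype k]

theorem not_dvd_der {b q : k[X]} (hq : IsP q) (h1 : q ∣ b) (h2 : ¬ q ^ 2 ∣ b) :
    ¬ q ∣ derivative b := by
  obtain ⟨c, rfl⟩ := h1
  intro h
  rw [derivative_mul] at h
  have h3 : q ∣ derivative q * c := (dvd_add_left (dvd_mul_right q _)).1 h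
  rcases hq.prime.dvd_or_dvd h3 with h4 | h4
  · exact hq.2.not_isUnit ((isCoprime_derivative hq.2.squarefree).isUnit_of_dvd' dvd_rfl h4)
  · exact h2 (by rw [sq]; exact mul_dvd_mul_left q h4)

end Fac

theorem stFac : StFac := by
  intro k _ _ b p T y hb hp hp2 hT hdeg hy
  have hb0 := hb.ne_zero
  set S : Finset k[X] := (pf b).filter fun q => ¬ q ^ 2 ∣ b with hS
  have hmem : ∀ q, q ∈ S ↔ (IsP q ∧ q ∣ b) ∧ ¬ q ^ 2 ∣ b := fun q => by
    rw [hS, Finset.mem_filter, mem_pf hb0]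
  have hP : ∀ q ∈ S, IsP q := fun q hq => ((hmem q).1 hq).1.1
  obtain ⟨b₀, hb₀⟩ : ∏ q ∈ S, q ∣ b := (prod_dvd_iff hP).2 fun q hq => ((hmem q).1 hq).1.2
  have hm : b₀.Monic := by
    have h1 : ((∏ q ∈ S, q) * b₀).Monic := hb₀ ▸ hb
    exact (monic_prod hP).of_mul_monic_left h1
  have hd : b₀ ∣ b := ⟨_, hb₀.trans (mul_comm _ _)⟩
  have hnd : ∀ q ∈ S, ¬ q ∣ b₀ := fun q hq h => ((hmem q).1 hq).2 (by
    rw [hb₀, sq]
    exact mul_dvd_mul (Finset.dvd_prod_of_mem _ hq) h)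
  have hsq : ∀ q, IsP q → q ∣ b₀ → q ^ 2 ∣ b := fun q hq h => by
    by_contra hn
    exact hnd q ((hmem q).2 ⟨⟨hq, h.trans hd⟩, hn⟩) h
  have hsq' : ∀ q, IsP q → q ∣ b₀ → q ^ 2 ∣ b₀ := fun q hq h => by
    have h1 : ¬ q ∣ ∏ q ∈ S, q := fun e => hnd q ((dvd_prod_iff_mem hP hq).1 e) h
    have h2 := hsq q hq h
    rw [hb₀] at h2
    exact (hq.isCoprime_iff.2 h1).symm.pow_left.dvd_of_dvd_mul_left h2
  obtain ⟨g, u, hg, hu, hus, he⟩ := exists_sq_mul hm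
  have hug : u ∣ g := by
    rw [← prod_pf hu hus]
    refine (prod_dvd_iff fun q hq => isP_of_mem_pf hq).2 fun q hq => ?_
    obtain ⟨h1, h2⟩ := (mem_pf hu.ne_zero).1 hq
    by_contra hn
    have h3 := hsq' q h1 (he ▸ h2.mul_left _)
    rw [he] at h3
    have h4 : q ^ 2 ∣ u :=
      (h1.isCoprime_iff.2 hn).symm.pow.dvd_of_dvd_mul_left h3
    exact h1.2.not_isUnit (hus q (by rwa [← sq]))
  have hgy : g.natDegree ≤ y := hy g hg ((Dvd.intro _ he.symm).trans hd)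
  have hdeg0 : b₀.natDegree ≤ 3 * y := by
    have h1 := natDegree_le_of_dvd hug hg.ne_zero
    rw [he, (hg.pow 2).natDegree_mul hu, hg.natDegree_pow]
    omega
  have hsum : ∑ q ∈ S.erase p, q.natDegree ≤ 2 * T :=
    le_trans (Finset.sum_le_sum_of_subset
      ((Finset.erase_subset _ _).trans (Finset.filter_subset _ _)))
      ((sum_natDegree_pf_le hb0).trans hdeg)
  obtain ⟨S₁, S₂, S₃, e1, e2, e3, e4, e5, e6⟩ := Fac.chunks (S.erase p) natDegree T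
    (fun q hq => hT q (hP q (Finset.mem_of_mem_erase hq))
      ((hmem q).1 (Finset.mem_of_mem_erase hq)).1.2) hsum
  exact ⟨b₀, S, S₁, S₂, S₃, hm, hdeg0, fun h => hp2 (hsq p hp h), hP, hnd,
    fun q hq => Fac.not_dvd_der (hP q hq) ((hmem q).1 hq).1.2 ((hmem q).1 hq).2,
    hb₀.trans (mul_comm _ _), e1, e2, e3, e4, e5, e6⟩

end Pool.Agent.Lib.MP_232f4c_nt.Cw
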