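import Pool.Agent.Lib.MP_232f4c_nt.CwDefs

namespace Pool.Agent.Lib.MP_232f4c_nt.Cw

open Polynomial Pool.Agent.Lib.MP_9227d9_nt.Mob Filter Topology

open scoped Classical

namespace Line

variable {k : Type} [Field k] [Fintype k]

theorem abs_prod_le (S : Finset k[X]) (b a : k[X]) : |∏ q ∈ S, chi q b a| ≤ 1 := by
  rw [Finset.abs_prod]
  exact Finset.prod_le_one (fun _ _ => abs_nonneg _) fun q _ => abs_chi_le q b a

theorem chunk [CharP k 2] (h3 : StDeg) {S S' : Finset k[X]} {p b : k[X]} (a w : k[X]) {T : ℕ}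
    (hp : IsP p) (hS : ∀ q ∈ S, IsP q) (hd : ∀ q ∈ S, ¬ q ∣ derivative b) (h : S' ⊆ S.erase p)
    (hT : ∑ q ∈ S', q.natDegree ≤ T) :
    (Dg (∏ q ∈ S', q) 2 fun σ => ∏ q ∈ S', chi q b (a + w * σ)) ∧ ¬ p ∣ ∏ q ∈ S', q ∧
      (∏ q ∈ S', q).natDegree ≤ T := by
  have h1 : ∀ q ∈ S', IsP q := fun q hq => hS q (Finset.mem_of_mem_erase (h hq))
  refine ⟨(h3 k _).2.2.2 S' b a w fun q hq =>
    ⟨h1 q hq, hd q (Finset.mem_of_mem_erase (h hq)), Finset.dvd_prod_of_mem _ hq⟩, ?_, ?_⟩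
  · rw [dvd_prod_iff_mem h1 hp]
    exact fun hq => Finset.notMem_erase p S (h hq)
  · rwa [natDegree_prod_isP h1]

end Line

theorem stStr (h1 : StAG) (h2 : StFac) (h3 : StDeg) : StStr := by
  intro k _ _ _ b a w p T y hb hp hpp hT hbT hy hyT
  obtain ⟨b₀, S, S₁, S₂, S₃, hm, hdeg, hp0, hS, hS0, hSd, hbe, hU, d12, d3, t1, t2, t3⟩ :=
    h2 k b p T y hb hp hpp hT hbT hy
  obtain ⟨Φ, hΦ1, hΦ2, hΦ3⟩ := h1 k b₀ b S hm hS hS0 hbe
  have hpS : p ∣ b ↔ p ∈ S := by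
    rw [← dvd_prod_iff_mem hS hp]
    constructor
    · intro h
      rw [hbe] at h
      exact (hp.prime.dvd_or_dvd h).resolve_left hp0
    · intro h
      rw [hbe]
      exact h.mul_left _
  have s1 : S₁ ⊆ S.erase p := by
    rw [hU]
    exact Finset.subset_union_left.trans Finset.subset_union_left
  have s2 : S₂ ⊆ S.erase p := by
    rw [hU]
    exact Finset.subset_union_right.trans Finset.subset_union_left
  have s3 : S₃ ⊆ S.erase p := by
    rw [hU]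
    exact Finset.subset_union_right
  obtain ⟨a1, b1, c1⟩ := Line.chunk h3 a w hp hS hSd s1 t1
  obtain ⟨a2, b2, c2⟩ := Line.chunk h3 a w hp hS hSd s2 t2
  obtain ⟨a3, b3, c3⟩ := Line.chunk h3 a w hp hS hSd s3 t3
  have a0 : Dg (b₀ ^ 4) 2 fun σ => Φ (a + w * σ) := by
    refine (h3 k _).2.2.1 1 _ ((h3 k _).2.2.1 0 _ fun σ t => ?_)
    show Φ (a + w * (σ + b₀ ^ 4 * t)) = Φ (a + w * σ)
    rw [← hΦ2 (a + w * σ) (w * t)]
    congr 1
    ring
  have b0 : ¬ p ∣ b₀ ^ 4 := fun h => hp0 (hp.prime.dvd_of_dvd_pow h)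
  have c0 : (b₀ ^ 4).natDegree ≤ T := by
    rw [hm.natDegree_pow]
    omega
  refine ⟨fun h => hSd p (hpS.1 h),
    ![fun σ => Φ (a + w * σ), fun σ => ∏ q ∈ S₁, chi q b (a + w * σ),
      fun σ => ∏ q ∈ S₂, chi q b (a + w * σ), fun σ => ∏ q ∈ S₃, chi q b (a + w * σ)],
    ![b₀ ^ 4, ∏ q ∈ S₁, q, ∏ q ∈ S₂, q, ∏ q ∈ S₃, q], fun i σ => ?_, fun i => ?_, fun i => ?_,
    fun i => ?_, fun σ hσ => ?_⟩
  · fin_cases i
    exacts [hΦ1 _, Line.abs_prod_le _ _ _, Line.abs_prod_le _ _ _, Line.abs_prod_le _ _ _]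
  · fin_cases i
    exacts [a0, a1, a2, a3]
  · fin_cases i
    exacts [b0, b1, b2, b3]
  · fin_cases i
    exacts [c0, c1, c2, c3]
  · have e : ∏ q ∈ S, chi q b (a + w * σ) =
        (if p ∣ b then chi p b (a + w * σ) else 1) * ∏ q ∈ S.erase p, chi q b (a + w * σ) := by
      split_ifs with h
      · exact (Finset.mul_prod_erase S (fun q => chi q b (a + w * σ)) (hpS.1 h)).symm
      · rw [Finset.erase_eq_of_notMem fun h' => h (hpS.2 h'), one_mul]
    rw [hΦ3 _ hσ, e, hU, Finset.prod_union d3, Finset.prod_union d12, Fin.prod_univ_four]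
    simp only [Matrix.cons_val_zero, Matrix.cons_val_one, Matrix.cons_val]
    ring

theorem stLine (h1 : StStr) (h2 : StBG) : StLine := by
  intro r
  obtain ⟨C, hC, H⟩ := h2 (12 * r) r
  refine ⟨C, hC, ?_⟩
  intro k _ _ _ ι _ b a w p L T y hr hp hb hj hpp hw hnd hdeg hT hbT hy hyT hL
  have hs := fun j => h1 k (b j) (a j) (w j) p T y (hb j) hp (hpp j) (hT j) (hbT j) (hy j) hyT
  choose φ M hφ hD hM hMT hmu using fun j => (hs j).2
  obtain ⟨j₀, hj₀⟩ := hj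
  have : Nonempty {j // p ∣ b j} := ⟨⟨j₀, hj₀⟩⟩
  have hpT := hT j₀ p hp hj₀
  have key := H k p {j // p ∣ b j} (fun j => b j.1) (fun j => a j.1) (fun j => w j.1)
    (ι × Fin 4) Finset.univ (fun i => φ i.1 i.2) (fun i => M i.1 i.2) (fun _ => 2) L
    ((Fintype.card_subtype_le _).trans hr) (by
      simp only [Finset.sum_const, Finset.card_univ, Fintype.card_prod, Fintype.card_fin,
        smul_eq_mul]
      omega) hp (fun j => (hs j.1).1 j.2) (fun j => hw j.1)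
    (fun i j hij => hnd i.1 j.1 (fun h => hij (Subtype.ext h)) i.2 j.2)
    (fun i σ => hφ i.1 i.2 σ) (fun i _ => hD i.1 i.2) (fun i _ => hM i.1 i.2)
    (fun i _ => by have := hMT i.1 i.2; omega) (by omega)
  rw [avg_congr (G := fun σ => (∏ j : {j // p ∣ b j}, chi p (b j.1) (a j.1 + w j.1 * σ)) *
    ∏ i : ι × Fin 4, φ i.1 i.2 σ) fun σ hσ => ?_]
  · exact key
  · rw [Finset.prod_congr rfl fun j _ => hmu j σ (hdeg j σ hσ), Finset.prod_mul_distrib,
      Fintype.prod_prod_type, ← Finset.prod_filter]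
    congr 1
    exact Finset.prod_subtype _ (by simp) fun j => chi p (b j) (a j + w j * σ)

end Pool.Agent.Lib.MP_232f4c_nt.Cw
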