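import Pool.Agent.Lib.MP_232f4c_nt.CwDefs2

namespace Pool.Agent.Lib.MP_232f4c_nt.Cw

open Polynomial Pool.Agent.Lib.MP_9227d9_nt.Mob Filter Topology

open scoped Classical

namespace Main

variable {k : Type} [Field k] [Fintype k]

theorem exists_pow (K δ : ℝ) (hδ : 0 < δ) : ∃ y : ℕ, ∀ z, y ≤ z → K / qR k ^ z ≤ δ := by
  have h1 : (1 : ℝ) < qR k := lt_of_lt_of_le one_lt_two two_le_qR
  obtain ⟨y, hy⟩ := eventually_atTop.1
    ((tendsto_pow_atTop_atTop_of_one_lt h1).eventually_ge_atTop (K / δ))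
  refine ⟨y, fun z hz => ?_⟩
  have h2 := hy z hz
  rw [div_le_iff₀ hδ] at h2
  rw [div_le_iff₀ (pow_pos qR_pos z)]
  linarith

variable [CharP k 2]

theorem form (A B a b s : k[X]) :
    A ^ 2 * (a ^ 2 + X * b ^ 2 + s ^ 2) + B =
      (ev B + A * a + A * s) ^ 2 + X * (A * b + od B) ^ 2 := by
  have h := ev_od B
  have h2 : (2 : k[X]) = 0 := CharTwo.two_eq_zero
  linear_combination h - (ev B * A * a + ev B * A * s + A ^ 2 * a * s + X * A * b * od B) * h2

theorem nondeg {p A A' B B' b a : k[X]} {η : ℕ} (hp : IsP p) (hA : A.natDegree ≤ η)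
    (hA' : A'.natDegree ≤ η) (hB : B.natDegree ≤ η) (hB' : B'.natDegree ≤ η)
    (hd : 2 * η < p.natDegree) (hne : A ^ 2 * B' ≠ A' ^ 2 * B) (h1 : p ∣ A * b + od B)
    (h2 : p ∣ A' * b + od B') : ¬ p ∣ (ev B + A * a) * A' - (ev B' + A' * a) * A := by
  rw [show (ev B + A * a) * A' - (ev B' + A' * a) * A = ev B * A' - ev B' * A by ring]
  have hdeg : ∀ u u' : k[X], u.natDegree ≤ η → u'.natDegree ≤ η →
      (u * A' - u' * A).natDegree < p.natDegree := by
    intro u u' hu hu'
    have e1 := natDegree_sub_le (u * A') (u' * A)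
    have e2 := natDegree_mul_le (p := u) (q := A')
    have e3 := natDegree_mul_le (p := u') (q := A)
    omega
  have o1 := natDegree_od_le B
  have o2 := natDegree_od_le B'
  have o3 := natDegree_ev_le B
  have o4 := natDegree_ev_le B'
  have h3 : p ∣ od B * A' - od B' * A := by
    have e : od B * A' - od B' * A = (A * b + od B) * A' - (A' * b + od B') * A := by ring
    rw [e]
    exact dvd_sub (h1.mul_right _) (h2.mul_right _)
  have h4 : od B * A' - od B' * A = 0 := by
    by_contra h0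
    exact hp.not_dvd_of_lt h0 (hdeg _ _ (by omega) (by omega)) h3
  refine hp.not_dvd_of_lt (fun h5 => hne ?_) (hdeg _ _ (by omega) (by omega))
  have e1 := ev_od B
  have e2 := ev_od B'
  linear_combination A ^ 2 * e2 - A' ^ 2 * e1 - (ev B * A' + ev B' * A) * h5 -
    X * (od B * A' + od B' * A) * h4

omit [Fintype k] [CharP k 2] in
theorem abs_prod_le {ι : Type} [Fintype ι] (F : ι → k[X]) : |∏ j, mu (F j)| ≤ 1 := by
  rw [Finset.abs_prod]
  exact Finset.prod_le_one (fun j _ => abs_nonneg _) fun j _ => abs_mu_le _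

theorem MD_line {A B b : k[X]} {η m : ℕ} (hA : A.Monic) (hB : B.natDegree ≤ η) (hm : η < m)
    (hb : MD m b) : (od B).degree < (A.natDegree + m : ℕ) ∧ MD (A.natDegree + m) (A * b + od B) := by
  have o1 := natDegree_od_le B
  have h1 : (od B).degree < (A.natDegree + m : ℕ) := degree_lt_of_natDegree fun _ => by omega
  exact ⟨h1, (MD.mul ⟨hA, rfl⟩ hb).add h1⟩

end Main

open Main in
theorem stCwL (hL : StLine) (hEO : StEO) (hTr : StTr) (hSq : StSq) (hBig : StBig) (hNo : StNo) :
    StCwL := by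
  intro k _ _ _ ι _ _ A B hA hAB l
  obtain ⟨C, hC0, hC⟩ := hL (Fintype.card ι)
  obtain ⟨η, hηA, hηB⟩ : ∃ η : ℕ, (∀ j, (A j).natDegree ≤ η) ∧ ∀ j, (B j).natDegree ≤ η := by
    refine ⟨∑ j, ((A j).natDegree + (B j).natDegree), fun j => ?_, fun j => ?_⟩
    · exact le_trans (Nat.le_add_right _ _) (Finset.single_le_sum
        (f := fun j => (A j).natDegree + (B j).natDegree) (fun _ _ => Nat.zero_le _)
        (Finset.mem_univ j))
    · exact le_trans (Nat.le_add_left _ _) (Finset.single_le_sum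
        (f := fun j => (A j).natDegree + (B j).natDegree) (fun _ _ => Nat.zero_le _)
        (Finset.mem_univ j))
  obtain ⟨j₀⟩ : Nonempty ι := inferInstance
  have hq : (0 : ℝ) < qR k := qR_pos
  have hr : (0 : ℝ) < Fintype.card ι := by exact_mod_cast Fintype.card_pos
  have key : ∀ δ : ℝ, 0 < δ → ∃ N : ℕ, ∀ m, N ≤ m →
      (avm (2 * m + 1) fun G =>
        |avg (m - l) fun s => ∏ j, mu (A j ^ 2 * (G + s ^ 2) + B j)|) ≤ 4 * δ := by
    intro δ hδ
    obtain ⟨y, hy⟩ := exists_pow (k := k) (Fintype.card ι * qR k ^ η) δ hδ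
    obtain ⟨D₀, hD₀⟩ := exists_pow (k := k) C (δ ^ 2 ^ (12 * Fintype.card ι + 1)) (pow_pos hδ _)
    obtain ⟨D', m₀, hm₀⟩ := hNo k (D₀ + y + 2 * η + 1) δ hδ
    obtain ⟨n₀, hn₀⟩ := hBig k (η + l + D') (δ / (Fintype.card ι * qR k ^ η)) (by positivity)
    refine ⟨m₀ + n₀ + η + 2 * l + 2 * D' + 12 * y + 1, fun m hm => ?_⟩
    rw [hEO]
    simp only [form]
    set No : k[X] → ℝ := fun b => if ∃ p : k[X], IsP p ∧ D₀ + y + 2 * η + 1 ≤ p.natDegree ∧
      p.natDegree ≤ D' ∧ p ∣ A j₀ * b + od (B j₀) then 0 else 1 with hNo'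
    set Sq : k[X] → ℝ := fun F =>
      if ∃ g : k[X], g.Monic ∧ y < g.natDegree ∧ g ^ 2 ∣ F then 1 else 0 with hSq'
    set Big : ι → k[X] → ℝ := fun j F => if ∃ q : k[X], IsP q ∧ q ∣ F ∧
      (A j).natDegree + m ≤ q.natDegree + (η + l + D') then 1 else 0 with hBig'
    have p1 : ∀ b, 0 ≤ No b := fun b => by
      simp only [hNo']
      split_ifs <;> norm_num
    have p2 : ∀ F, 0 ≤ Sq F := fun F => by
      simp only [hSq']
      split_ifs <;> norm_num
    have p3 : ∀ j F, 0 ≤ Big j F := fun j F => by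
      simp only [hBig']
      split_ifs <;> norm_num
    have hpt : ∀ b : k[X], MD m b → ∀ a : k[X], a.degree < (m + 1 : ℕ) →
        |avg (m - l) fun s : k[X] => ∏ j, mu ((ev (B j) + A j * a + A j * s) ^ 2 +
          X * (A j * b + od (B j)) ^ 2)| ≤
        δ + No b + ∑ j, Sq (A j * b + od (B j)) + ∑ j, Big j (A j * b + od (B j)) := by
      intro b hb a ha
      have s2 : 0 ≤ ∑ j, Sq (A j * b + od (B j)) := Finset.sum_nonneg fun j _ => p2 _
      have s3 : 0 ≤ ∑ j, Big j (A j * b + od (B j)) := Finset.sum_nonneg fun j _ => p3 _ _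
      have s1 := p1 b
      have triv : |avg (m - l) fun s : k[X] => ∏ j, mu ((ev (B j) + A j * a + A j * s) ^ 2 +
          X * (A j * b + od (B j)) ^ 2)| ≤ 1 := abs_avg_le_of_le fun a _ => abs_prod_le _
      by_cases c1 : ∃ p : k[X], IsP p ∧ D₀ + y + 2 * η + 1 ≤ p.natDegree ∧
        p.natDegree ≤ D' ∧ p ∣ A j₀ * b + od (B j₀)
      swap
      · have e : No b = 1 := if_neg c1
        linarith
      by_cases c2 : ∃ j, ∃ g : k[X], g.Monic ∧ y < g.natDegree ∧ g ^ 2 ∣ A j * b + od (B j)
      · obtain ⟨j, hj⟩ := c2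
        have e : Sq (A j * b + od (B j)) = 1 := if_pos hj
        have e' := Finset.single_le_sum (f := fun j => Sq (A j * b + od (B j)))
          (fun j _ => p2 _) (Finset.mem_univ j)
        linarith
      by_cases c3 : ∃ j, ∃ q : k[X], IsP q ∧ q ∣ A j * b + od (B j) ∧
        (A j).natDegree + m ≤ q.natDegree + (η + l + D')
      · obtain ⟨j, hj⟩ := c3
        have e : Big j (A j * b + od (B j)) = 1 := if_pos hj
        have e' := Finset.single_le_sum (f := fun j => Big j (A j * b + od (B j)))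
          (fun j _ => p3 _ _) (Finset.mem_univ j)
        linarith
      obtain ⟨p, hp, hp1, hp2, hp3⟩ := c1
      have hMD : ∀ j, MD ((A j).natDegree + m) (A j * b + od (B j)) := fun j =>
        (MD_line (hA j) (hηB j) (by omega) hb).2
      have hg : ∀ (j : ι) (g : k[X]), g.Monic → g ^ 2 ∣ A j * b + od (B j) → g.natDegree ≤ y :=
        fun j g h1 h2 => not_lt.1 fun h3 => c2 ⟨j, g, h1, h3, h2⟩
      have main := hC k ι (fun j => A j * b + od (B j)) (fun j => ev (B j) + A j * a) A p (m - l)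
        (m - l - D') y le_rfl hp (fun j => (hMD j).1) ⟨j₀, hp3⟩
        (fun j h => by have := hg j p hp.1 h; omega)
        (fun j => hp.not_dvd_of_lt (hA j).ne_zero (by have := hηA j; omega))
        (fun i j hij h1 h2 => nondeg hp (hηA i) (hηA j) (hηB i) (hηB j) (by omega)
          (hAB i j hij) h1 h2)
        (fun j σ hσ => by
          have e0 := natDegree_add_le (ev (B j) + A j * a) (A j * σ)
          have e1 := natDegree_add_le (ev (B j)) (A j * a)
          have e2 := natDegree_mul_le (p := A j) (q := σ)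
          have e2' := natDegree_mul_le (p := A j) (q := a)
          have e3 := natDegree_ev_le (B j)
          have e4 := hηB j
          have e5 : σ.natDegree ≤ m := by
            by_cases h0 : σ = 0
            · simp [h0]
            · exact (natDegree_lt_of_degree h0 hσ).le.trans (Nat.sub_le m l)
          have e6 : a.natDegree ≤ m := by
            by_cases h0 : a = 0
            · simp [h0]
            · exact Nat.lt_succ_iff.1 (natDegree_lt_of_degree h0 ha)
          rw [(hMD j).2]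
          omega)
        (fun j q h1 h2 => by
          have e1 : ¬ (A j).natDegree + m ≤ q.natDegree + (η + l + D') := fun h3 =>
            c3 ⟨j, q, h1, h2, h3⟩
          have e2 := hηA j
          omega)
        (fun j => by
          have e2 := hηA j
          rw [(hMD j).2]
          omega)
        hg (by omega) (by omega)
      have m2 := main.trans (hD₀ p.natDegree (by omega))
      have m3 := le_of_pow_le_pow_left₀ (by positivity) hδ.le m2
      linarith
    have hN : ∀ j, Nm (A j) ≤ qR k ^ η := fun j => pow_le_pow_right₀ one_le_qR (hηA j)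
    have hdeg : ∀ j, (od (B j)).degree < ((A j).natDegree + m : ℕ) := fun j =>
      (MD_line (b := X ^ m) (hA j) (hηB j) (by omega) ⟨monic_X_pow m, natDegree_X_pow m⟩).1
    have b1 : avm m No ≤ δ :=
      hm₀ m (by omega) (A j₀) (od (B j₀)) (hA j₀).ne_zero (by have := hηA j₀; omega)
    have b2 : ∀ j, avm m (fun b => Sq (A j * b + od (B j))) ≤ qR k ^ η * (1 / qR k ^ y) :=
      fun j => (hTr k m (A j) (od (B j)) Sq (hA j) (hdeg j) p2).trans
        (mul_le_mul (hN j) (hSq k _ y) (avm_nonneg fun f _ => p2 f) (by positivity))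
    have b3 : ∀ j, avm m (fun b => Big j (A j * b + od (B j))) ≤
        qR k ^ η * (δ / (Fintype.card ι * qR k ^ η)) :=
      fun j => (hTr k m (A j) (od (B j)) (Big j) (hA j) (hdeg j) (p3 j)).trans
        (mul_le_mul (hN j) (hn₀ _ (by omega)) (avm_nonneg fun f _ => p3 j f) (by positivity))
    have b4 := Finset.sum_le_sum fun j (_ : j ∈ Finset.univ) => b2 j
    have b5 := Finset.sum_le_sum fun j (_ : j ∈ Finset.univ) => b3 j
    rw [Finset.sum_const, Finset.card_univ, nsmul_eq_mul] at b4 b5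
    have b6 : (Fintype.card ι : ℝ) * (qR k ^ η * (1 / qR k ^ y)) ≤ δ := by
      have := hy y le_rfl
      rwa [mul_one_div, ← mul_div_assoc]
    have b7 : (Fintype.card ι : ℝ) * (qR k ^ η * (δ / (Fintype.card ι * qR k ^ η))) = δ := by
      field_simp
    refine (avm_mono fun b hb => avg_le_of_le (hpt b hb)).trans ?_
    rw [avm_add, avm_add, avm_add, avm_const, avm_sum, avm_sum]
    linarith
  rw [Metric.tendsto_atTop]
  intro ε hε
  obtain ⟨N, hN⟩ := key (ε / 5) (by positivity)
  refine ⟨N, fun m hm => ?_⟩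
  rw [Real.dist_eq, sub_zero, abs_of_nonneg (avm_nonneg fun _ _ => abs_nonneg _)]
  have := hN m hm
  linarith

end Pool.Agent.Lib.MP_232f4c_nt.Cw
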