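import Pool.Agent.Lib.MP_232f4c_nt.CwDefs

namespace Pool.Agent.Lib.MP_232f4c_nt.Cw

open Polynomial Pool.Agent.Lib.MP_9227d9_nt.Mob Filter Topology

open scoped Classical

namespace CwRes

theorem detPhi {O : Type} [CommRing O] (Φ : O →+* O) {n : ℕ} (a : Fin n → O)
    (s : Equiv.Perm (Fin n)) (ha : ∀ i, Φ (a i) = a (s i)) :
    Φ (Matrix.vandermonde a).det
      = ((Equiv.Perm.sign s : ℤˣ) : ℤ) * (Matrix.vandermonde a).det := by
  rw [RingHom.map_det, ← Matrix.det_permute]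
  congr 1
  ext i k
  simp [ha]

theorem deg_prod {S : Type} [CommRing S] [Nontrivial S] {n : ℕ} (a : Fin n → S) :
    (∏ i, (X - C (a i))).Monic ∧ (∏ i, (X - C (a i))).natDegree = n := by
  refine ⟨monic_prod_of_monic _ _ fun i _ => monic_X_sub_C _, ?_⟩
  rw [natDegree_prod_of_monic _ _ fun i _ => monic_X_sub_C _]
  simp

theorem res_prod {S : Type} [CommRing S] [Nontrivial S] {n : ℕ} (a : Fin n → S) (H : S[X]) :
    ∏ i, H.eval (a i) = (∏ i, (X - C (a i))).resultant H n H.natDegree := by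
  have h := resultant_prod_left Finset.univ (fun i => X - C (a i)) H H.natDegree (by simp) le_rfl
  rw [(deg_prod a).2] at h
  rw [h]
  refine Finset.prod_congr rfl fun i _ => ?_
  rw [natDegree_X_sub_C, resultant_X_sub_C_left _ _ _ le_rfl]

theorem res_eq {S : Type} [CommRing S] {n : ℕ} (a a' : Fin n → S) (H U : S[X]) (hH : H.Monic)
    (h : ∏ i, (X - C (a' i)) = ∏ i, (X - C (a i)) + H * U) :
    ∏ i, H.eval (a' i) = ∏ i, H.eval (a i) := by
  nontriviality S
  rw [res_prod, res_prod, h]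
  rcases eq_or_ne U 0 with rfl | hU
  · rw [mul_zero, add_zero]
  · refine resultant_add_mul_left _ _ _ _ _ ?_ le_rfl
    have e : H * U = ∏ i, (X - C (a' i)) - ∏ i, (X - C (a i)) := by rw [h]; ring
    rw [add_comm, ← hH.natDegree_mul' hU, e]
    refine (natDegree_sub_le _ _).trans ?_
    rw [(deg_prod a).2, (deg_prod a').2, max_self]

end CwRes

theorem stFin : StFin := by
  intro O L _ _ _ _ r Φ φ m a a' s s' R w ρ ρ' ζ ζ' E E' h hΦ ha ha' hR hR0 hρ hρ0 hζ hρ' hρ0'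
    hζ' v1 v2
  have h2L : (2 : L) = 0 := CharTwo.two_eq_zero
  obtain ⟨δ, hδ⟩ : ∃ δ, δ = (Matrix.vandermonde a).det := ⟨_, rfl⟩
  obtain ⟨δ', hδ'⟩ : ∃ δ', δ' = (Matrix.vandermonde a').det := ⟨_, rfl⟩
  have d1 := CwRes.detPhi Φ a s ha
  have d2 := CwRes.detPhi Φ a' s' ha'
  rw [← hδ] at d1 v1
  rw [← hδ'] at d2 v2
  have hN : r (NN m : O) = 1 := by
    obtain ⟨k, hk⟩ : Odd (NN m) := (A2.eta_odd _).mul (Odd.pow ⟨m, rfl⟩)
    rw [hk]
    simp [h.two]
  obtain ⟨σ, hσ⟩ : ∃ σ : O, σ = NN m * ρ * ρ' * R := ⟨_, rfl⟩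
  have hσr : r σ ≠ 0 := by
    rw [hσ, map_mul, map_mul, map_mul, hN, one_mul]
    exact mul_ne_zero (mul_ne_zero hρ0 hρ0') hR0
  have hσ0 : σ ≠ 0 := fun e => hσr (by rw [e, map_zero])
  have hσΦ : Φ σ = σ := by rw [hσ, map_mul, map_mul, map_mul, map_intCast, hρ, hρ', hR]
  have v3 : A2.V r (R + 8 * w) R 0 := by
    have := A2.V.of_add h (w := 2 * w) hR0
    rwa [map_mul, h.two, zero_mul, zero_div, show R + 4 * (2 * w) = R + 8 * w by ring] at this
  have v5 : A2.V r ((δ * δ') ^ 2) (σ ^ 2) (E + ζ + ζ ^ 2 + (E' + ζ' + ζ' ^ 2)) := by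
    have v4 := (A2.V.refl (r := r) (NN m * R * ρ ^ 2 * (NN m * ρ' ^ 2))).mul h v3
    have v6 := v1.mul h v2
    rw [show (NN m * R * ρ ^ 2 * (NN m * (R + 8 * w) * ρ' ^ 2) : O) =
      NN m * R * ρ ^ 2 * (NN m * ρ' ^ 2) * (R + 8 * w) by ring, ← mul_pow] at v6
    have v7 := v6.trans h v4
    rwa [add_zero, add_zero, show (NN m * R * ρ ^ 2 * (NN m * ρ' ^ 2) * R : O) = σ ^ 2 by
      rw [hσ]; ring] at v7
  obtain ⟨τ, hτ⟩ : ∃ τ, δ * δ' = σ * (1 + 2 * τ) := by
    obtain ⟨u, hu, -⟩ := v5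
    have e1 := congrArg r hu
    simp only [map_mul r (σ ^ 2), map_pow, map_add, map_one, map_mul r 4, h.four, zero_mul,
      add_zero, mul_one] at e1
    have e2 : r (δ * δ' - σ) ^ 2 = 0 := by
      rw [map_sub]
      linear_combination e1 + (r σ ^ 2 - r (δ * δ') * r σ) * h2L
    obtain ⟨c, hc⟩ := h.ker _ (pow_eq_zero_iff two_ne_zero |>.1 e2)
    obtain ⟨u, hu⟩ := (h.unit σ hσr).exists_right_inv
    exact ⟨u * c, by linear_combination hc - 2 * c * hu⟩
  have v7 : A2.V r ((δ * δ') ^ 2) (σ ^ 2) (r τ ^ 2 + r τ) :=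
    ⟨τ ^ 2 + τ, by rw [hτ]; ring, by simp⟩
  have key := A2.V.unique h (pow_ne_zero 2 hσ0) v7 v5
  refine ⟨r τ + ζ + ζ', ?_, ?_⟩
  · linear_combination key + (ζ + ζ' + ζ ^ 2 + ζ' ^ 2 + r τ * ζ + r τ * ζ' + ζ * ζ') * h2L
  · have e2 := congrArg Φ hτ
    rw [map_mul, d1, d2, map_mul, map_add, map_mul, map_one, map_ofNat, hσΦ] at e2
    rw [map_add, map_add, hζ, hζ', ← hΦ]
    by_cases hs : Equiv.Perm.sign s = Equiv.Perm.sign s'
    · have e3 : σ * (2 * Φ τ) = σ * (2 * τ) := by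
        rcases Int.units_eq_one_or (Equiv.Perm.sign s) with h1 | h1 <;>
        · rw [← hs, h1] at e2
          push_cast at e2
          linear_combination hτ - e2
      rw [mul_left_cancel₀ h.ne (mul_left_cancel₀ hσ0 e3), if_pos hs, add_zero]
    · have e3 : σ * (2 * Φ τ) = σ * (2 * (-1 - τ)) := by
        rcases Int.units_eq_one_or (Equiv.Perm.sign s) with h1 | h1 <;>
        rcases Int.units_eq_one_or (Equiv.Perm.sign s') with h2 | h2 <;>
        first
        | exact absurd (h1.trans h2.symm) hs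
        | rw [h1, h2] at e2
          push_cast at e2
          linear_combination -hτ - e2
      rw [mul_left_cancel₀ h.ne (mul_left_cancel₀ hσ0 e3), if_neg hs, map_sub, map_neg, map_one]
      linear_combination (-1 - r τ) * h2L

theorem stRes : StRes := by
  intro O _ n a a' H U U' hH h
  let π := Ideal.Quotient.mk (Ideal.span {(8 : O)})
  have h8 : (8 : (O ⧸ Ideal.span {(8 : O)})[X]) = 0 := by
    have : π 8 = 0 := Ideal.Quotient.eq_zero_iff_mem.2 (Ideal.mem_span_singleton_self _)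
    rw [← map_ofNat C, ← map_ofNat π, this, map_zero]
  have h1 := congrArg (Polynomial.map π) h
  simp only [Polynomial.map_add, Polynomial.map_mul, Polynomial.map_prod, Polynomial.map_sub,
    map_X, map_C, Polynomial.map_ofNat, h8, zero_mul, add_zero] at h1
  have h2 := CwRes.res_eq _ _ _ _ (hH.map π) h1
  simp only [eval_map_apply, ← map_prod] at h2
  obtain ⟨w, hw⟩ := Ideal.mem_span_singleton.1 (Ideal.Quotient.eq.1 h2)
  exact ⟨w, by linear_combination hw⟩

theorem stHens : StHens := by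
  intro L _ _ _ φ n α s G hα hφ hG hGr hGφ
  have h := A2.loc_witt L
  obtain ⟨r, hr⟩ : ∃ r : WittVector 2 L →+* L, r = WittVector.constantCoeff := ⟨_, rfl⟩
  have hm : ∀ x, x ∈ Ideal.span {((2 : ℕ) : WittVector 2 L)} ↔ r x = 0 := fun x =>
    hr ▸ WittVector.mem_span_p_iff_coeff_zero_eq_zero x
  have ht : ∀ x, r (WittVector.teichmuller 2 x) = x := fun x => hr ▸ rfl
  have hΦ : ∀ x, r (WittVector.map φ x) = φ (r x) := fun x => hr ▸ WittVector.map_coeff φ x 0
  rw [← hr] at h hGr ⊢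
  have hex : ∀ i, ∃ x, G.IsRoot x ∧ r x = α i := fun i => by
    obtain ⟨x, hx, hx'⟩ := HenselianRing.is_henselian
      (I := Ideal.span {((2 : ℕ) : WittVector 2 L)}) G hG (WittVector.teichmuller 2 (α i))
      (by
        rw [hm, ← eval_map_apply, hGr, ht, eval_prod]
        exact Finset.prod_eq_zero (Finset.mem_univ i) (by simp))
      ((h.unit _ (by
        rw [← eval_map_apply, ← derivative_map, hGr, ht, A2.eval_der]
        exact Finset.prod_ne_zero_iff.2 fun k hk =>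
          sub_ne_zero.2 fun e => Finset.ne_of_mem_erase hk (hα e).symm)).map _)
    rw [hm, map_sub, ht, sub_eq_zero] at hx'
    exact ⟨x, hx, hx'⟩
  choose a ha har using hex
  have hGa : G = ∏ i, (X - C (a i)) := by
    refine eq_of_monic_of_dvd_of_natDegree_le (CwRes.deg_prod a).1 hG
      (Fintype.prod_dvd_of_coprime (fun i j hij => ?_) fun i => dvd_iff_isRoot.2 (ha i)) ?_
    · refine isCoprime_X_sub_C_of_isUnit_sub (h.unit _ ?_)
      rw [map_sub, har, har, sub_ne_zero]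
      exact fun e => hij (hα e)
    · rw [← hG.natDegree_map r, hGr, (CwRes.deg_prod a).2, (CwRes.deg_prod α).2]
  refine ⟨a, har, hGa, fun i => ?_⟩
  have e1 : G.eval (WittVector.map φ (a i)) = 0 := by
    rw [← hGφ, eval_map_apply, (ha i).eq_zero, map_zero]
  rw [hGa, eval_prod, Finset.prod_eq_zero_iff] at e1
  obtain ⟨j, -, hj⟩ := e1
  rw [eval_sub, eval_X, eval_C, sub_eq_zero] at hj
  have e2 := congrArg r hj
  rw [hΦ, har, har, hφ] at e2
  rw [hj, hα e2]

end Pool.Agent.Lib.MP_232f4c_nt.Cw
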