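import Pool.Agent.Lib.MP_232f4c_nt.CwDefs

/-! Comparison of two discriminants through compatible lifts to Witt vectors. -/

namespace Pool.Agent.Lib.MP_232f4c_nt.Cw

open Polynomial Pool.Agent.Lib.MP_9227d9_nt.Mob Filter Topology

open scoped Classical

namespace W

variable {L : Type} [Field L] [CharP L 2] [PerfectRing L 2]

/-- The coefficientwise multiplicative lift. -/
noncomputable def lf (f : L[X]) : (WittVector 2 L)[X] :=
  f.sum fun i c => monomial i (WittVector.teichmuller 2 c)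

/-- The residue map. -/
noncomputable abbrev rr (L : Type) [Field L] [CharP L 2] : WittVector 2 L →+* L :=
  WittVector.constantCoeff

omit [CharP L 2] [PerfectRing L 2] in
theorem coeff_lf (f : L[X]) (i : ℕ) : (lf f).coeff i = WittVector.teichmuller 2 (f.coeff i) := by
  rw [lf, coeff_sum, Polynomial.sum_def, Finset.sum_eq_single i]
  · simp
  · intro j _ hj
    simp [coeff_monomial, hj]
  · intro hi
    rw [notMem_support_iff.1 hi]
    simp

omit [PerfectRing L 2] in
theorem map_lf (f : L[X]) : (lf f).map (rr L) = f := by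
  ext i
  rw [coeff_map, coeff_lf]
  exact WittVector.teichmuller_coeff_zero 2 _

omit [PerfectRing L 2] in
theorem lf_fix {φ : L →+* L} {f : L[X]} (h : f.map φ = f) :
    (lf f).map (WittVector.map φ) = lf f := by
  refine Polynomial.ext fun i => ?_
  rw [coeff_map, coeff_lf, WittVector.map_teichmuller, ← coeff_map, h]

omit [PerfectRing L 2] in
theorem degree_lf (f : L[X]) : (lf f).degree ≤ f.degree := by
  rw [degree_le_iff_coeff_zero]
  intro i hi
  rw [coeff_lf, coeff_eq_zero_of_degree_lt hi, WittVector.teichmuller_zero]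

omit [PerfectRing L 2] in
theorem natDegree_lf (f : L[X]) : (lf f).natDegree = f.natDegree := by
  refine le_antisymm (natDegree_le_natDegree (degree_lf f)) ?_
  conv_lhs => rw [← map_lf f]
  exact natDegree_map_le

omit [PerfectRing L 2] in
theorem monic_lf {f : L[X]} (h : f.Monic) : (lf f).Monic := by
  rw [Monic, leadingCoeff, natDegree_lf, coeff_lf, h.coeff_natDegree, map_one]

theorem exists_two {D : (WittVector 2 L)[X]} (h : D.map (rr L) = 0) : ∃ Z, D = 2 * Z := by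
  obtain ⟨Z, hZ⟩ : C (2 : WittVector 2 L) ∣ D := (C_dvd_iff_dvd_coeff _ _).2 fun i => by
    have := congrArg (fun p => coeff p i) h
    simp only [coeff_map, coeff_zero] at this
    exact (A2.loc_witt L).ker _ this
  exact ⟨Z, by rw [hZ, map_ofNat]⟩

theorem der_dec {A B₀ B₁ Y₀ : (WittVector 2 L)[X]}
    (h : B₀.map (rr L) ^ 2 ∣
      (A * derivative A + X * ((B₀ * B₁) * derivative (B₀ * B₁)) - Y₀ * B₁ ^ 2).map (rr L)) :
    ∃ Z Z', derivative (A ^ 2 + X * (B₀ * B₁) ^ 2) = (B₀ ^ 2 + 2 * Y₀) * Z + 4 * Z' := by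
  obtain ⟨c, hc⟩ := h
  obtain ⟨Z₂, hZ⟩ := exists_two (D := A * derivative A + X * ((B₀ * B₁) * derivative (B₀ * B₁)) -
      Y₀ * B₁ ^ 2 - B₀ ^ 2 * lf c) (by
    rw [Polynomial.map_sub, hc, Polynomial.map_mul, Polynomial.map_pow, map_lf, sub_self])
  refine ⟨B₁ ^ 2 + 2 * lf c, Z₂ - Y₀ * lf c, ?_⟩
  have e : derivative (A ^ 2 + X * (B₀ * B₁) ^ 2) = (B₀ * B₁) ^ 2 +
      2 * (A * derivative A + X * ((B₀ * B₁) * derivative (B₀ * B₁))) := by
    generalize B₀ * B₁ = B
    simp only [sq, derivative_add, derivative_mul, derivative_X]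
    ring
  rw [e]
  linear_combination 2 * hZ

theorem monic_aux {R : Type} [CommRing R] [Nontrivial R] {A B : R[X]} {m : ℕ} (hB : B.Monic)
    (hd : B.natDegree = m) (hA : A.natDegree ≤ m) : (A ^ 2 + X * B ^ 2).Monic := by
  have h1 : (X * B ^ 2).natDegree = 2 * m + 1 := by
    rw [monic_X.natDegree_mul (hB.pow 2), natDegree_X, hB.natDegree_pow, hd, add_comm]
  refine (monic_X.mul (hB.pow 2)).add_of_right (degree_lt_degree ?_)
  have := natDegree_pow_le (p := A) (n := 2)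
  omega

omit [PerfectRing L 2] in
theorem der_eq (a b : L[X]) : derivative (a ^ 2 + X * b ^ 2) = b ^ 2 := by
  have h2 : (2 : L[X]) = 0 := CharTwo.two_eq_zero
  simp only [sq, derivative_add, derivative_mul, derivative_X]
  linear_combination (a * derivative a + X * (b * derivative b)) * h2

end W

open W in
theorem stW (h1 : StHalf) (h2 : StFin) (h3 : StRes) (h4 : StHens) : StW := by
  intro L _ _ _ φ m m₁ b₀ b a a' s₀ y₀ β t α α' s s' hb₀ hm hb ha' fb₀ fa fs₀ fy₀ hβ hβt hβ0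
    da da' dy hdv hα hα' hαs hαs' hF hF'
  have hloc := A2.loc_witt L
  have hΦ : ∀ x, rr L (WittVector.map φ x) = φ (rr L x) := fun x => WittVector.map_coeff φ x 0
  obtain ⟨bb, hbb⟩ : ∃ bb : Fin m₁ → WittVector 2 L, ∀ j, bb j = WittVector.teichmuller 2 (β j) :=
    ⟨_, fun _ => rfl⟩
  have rb : ∀ j, rr L (bb j) = β j := fun j => by
    rw [hbb]
    exact WittVector.teichmuller_coeff_zero 2 _
  have fb : ∀ j, WittVector.map φ (bb j) = bb (t j) := fun j => by
    rw [hbb, hbb, WittVector.map_teichmuller, hβt]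
  obtain ⟨B₁, hB₁⟩ : ∃ B₁ : (WittVector 2 L)[X], B₁ = ∏ j, (X - C (bb j)) := ⟨_, rfl⟩
  have mB₁ : B₁.Monic := hB₁ ▸ monic_prod_of_monic _ _ fun j _ => monic_X_sub_C _
  have dB₁ : B₁.natDegree = m₁ := by
    rw [hB₁, natDegree_prod_of_monic _ _ fun j _ => monic_X_sub_C _]
    simp
  have rB₁ : B₁.map (rr L) = ∏ j, (X - C (β j)) := by
    rw [hB₁, Polynomial.map_prod]
    simp only [Polynomial.map_sub, map_X, map_C, rb]
  have fB₁ : B₁.map (WittVector.map φ) = B₁ := by
    rw [hB₁, Polynomial.map_prod]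
    simp only [Polynomial.map_sub, map_X, map_C, fb]
    exact Equiv.prod_comp t fun j => X - C (bb j)
  have mB : (lf b₀ * B₁).Monic := (monic_lf hb₀).mul mB₁
  have dB : (lf b₀ * B₁).natDegree = m := by
    rw [(monic_lf hb₀).natDegree_mul mB₁, natDegree_lf, dB₁, hm]
  have rB : (lf b₀ * B₁).map (rr L) = b := by rw [Polynomial.map_mul, map_lf, rB₁, hb]
  have fB : (lf b₀ * B₁).map (WittVector.map φ) = lf b₀ * B₁ := by
    rw [Polynomial.map_mul, lf_fix fb₀, fB₁]
  have fH : (lf b₀ ^ 2 + 2 * lf y₀).map (WittVector.map φ) = lf b₀ ^ 2 + 2 * lf y₀ := by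
    rw [Polynomial.map_add, Polynomial.map_mul, Polynomial.map_pow, lf_fix fb₀, lf_fix fy₀,
      Polynomial.map_ofNat]
  have dY : (lf y₀).degree < (2 * (lf b₀).natDegree : ℕ) := by
    rw [natDegree_lf]
    exact (degree_lf _).trans_lt dy
  have mH : (lf b₀ ^ 2 + 2 * lf y₀).Monic := by
    refine ((monic_lf hb₀).pow 2).add_of_left ?_
    rw [degree_eq_natDegree ((monic_lf hb₀).pow 2).ne_zero, (monic_lf hb₀).natDegree_pow,
      ← map_ofNat C 2, ← smul_eq_C_mul]
    exact (degree_smul_le _ _).trans_lt dY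
  -- one half
  have half : ∀ (A : (WittVector 2 L)[X]) (x : L[X]) (γ : Fin (2 * m + 1) → L)
      (u : Equiv.Perm (Fin (2 * m + 1))), A.map (rr L) = x → A.map (WittVector.map φ) = A →
      A.natDegree ≤ m → b₀ ^ 2 ∣ x * derivative x + X * (b * derivative b) -
        y₀ * (∏ j, (X - C (β j))) ^ 2 → Function.Injective γ → (∀ i, φ (γ i) = γ (u i)) →
      x ^ 2 + X * b ^ 2 = ∏ i, (X - C (γ i)) →
      ∃ c : Fin (2 * m + 1) → WittVector 2 L, (∀ i, WittVector.map φ (c i) = c (u i)) ∧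
        A ^ 2 + X * (lf b₀ * B₁) ^ 2 = ∏ i, (X - C (c i)) ∧
        ∃ (ρ : WittVector 2 L) (ζ : L), WittVector.map φ ρ = ρ ∧ rr L ρ ≠ 0 ∧ φ ζ = ζ ∧
          rr L (∏ i, (lf b₀ ^ 2 + 2 * lf y₀).eval (c i)) ≠ 0 ∧
          A2.V (rr L) ((Matrix.vandermonde c).det ^ 2)
            (NN m * (∏ i, (lf b₀ ^ 2 + 2 * lf y₀).eval (c i)) * ρ ^ 2)
            (∑ j, eF (x ^ 2 + X * b ^ 2) (β j) + ζ + ζ ^ 2) := by
    intro A x γ u rA fA dA hx hγ hγu hx'
    have rG : (A ^ 2 + X * (lf b₀ * B₁) ^ 2).map (rr L) = x ^ 2 + X * b ^ 2 := by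
      rw [Polynomial.map_add, Polynomial.map_mul, Polynomial.map_pow, Polynomial.map_pow, rA, rB,
        map_X]
    obtain ⟨c, rc, hc, fc⟩ := h4 L φ _ γ u (A ^ 2 + X * (lf b₀ * B₁) ^ 2) hγ hγu
      (monic_aux mB dB dA) (rG.trans hx') (by
        rw [Polynomial.map_add, Polynomial.map_mul, Polynomial.map_pow, Polynomial.map_pow, fA, fB,
          map_X])
    obtain ⟨Z, Z', hZ⟩ := der_dec (A := A) (B₀ := lf b₀) (B₁ := B₁) (Y₀ := lf y₀) (by
      rw [Polynomial.map_sub, Polynomial.map_add, Polynomial.map_mul, Polynomial.map_mul,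
        Polynomial.map_mul (p := lf b₀ * B₁), Polynomial.map_mul (p := lf y₀), Polynomial.map_pow,
        ← derivative_map, ← derivative_map, rA, rB, rB₁, map_lf, map_lf, map_X]
      exact hx)
    have key := h1 _ L (rr L) (WittVector.map φ) φ m m₁ c bb u t _ (lf b₀) (lf y₀) Z Z' hloc hΦ
      (by simpa only [rc] using hγ) (by simpa only [rb] using hβ) fc fb hc (monic_lf hb₀)
      (by rw [natDegree_lf, hm]) dY
      (fun j => by rw [← eval_map_apply, map_lf, rb]; exact hβ0 j)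
      (by rw [rG, der_eq, map_lf, hb]; simp only [rb]) hZ
    rw [rG] at key
    simp only [rb] at key
    exact ⟨c, fc, hc, key⟩
  have dA' : (lf a + lf b₀ ^ 4 * lf s₀).natDegree ≤ m := by
    refine (natDegree_add_le _ _).trans (max_le (by rwa [natDegree_lf]) ?_)
    by_cases h0 : s₀ = 0
    · have : lf s₀ = 0 := by rw [h0, lf, sum_zero_index]
      simp [this]
    · have e1 : (b₀ ^ 4 * s₀).natDegree ≤ m := by
        rw [show b₀ ^ 4 * s₀ = a' - a by rw [ha']; ring]
        exact (natDegree_sub_le _ _).trans (max_le da' da)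
      rw [(hb₀.pow 4).natDegree_mul' h0, hb₀.natDegree_pow] at e1
      refine natDegree_mul_le.trans ?_
      rwa [(monic_lf hb₀).natDegree_pow, natDegree_lf, natDegree_lf]
  obtain ⟨c, fc, hc, ρ, ζ, p1, p2, p3, p4, p5⟩ := half (lf a) a α s (map_lf a) (lf_fix fa)
    (by rwa [natDegree_lf]) hdv hα hαs hF
  obtain ⟨c', fc', hc', ρ', ζ', q1, q2, q3, -, q5⟩ := half (lf a + lf b₀ ^ 4 * lf s₀) a' α' s'
    (by rw [Polynomial.map_add, Polynomial.map_mul, Polynomial.map_pow, map_lf, map_lf, map_lf, ha'])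
    (by rw [Polynomial.map_add, Polynomial.map_mul, Polynomial.map_pow, lf_fix fa, lf_fix fb₀,
      lf_fix fs₀]) dA'
    (by
      have e : a' * derivative a' + X * (b * derivative b) - y₀ * (∏ j, (X - C (β j))) ^ 2 =
          (a * derivative a + X * (b * derivative b) - y₀ * (∏ j, (X - C (β j))) ^ 2) +
          b₀ ^ 2 * (b₀ ^ 2 * s₀ * derivative a' +
            a * (4 * b₀ * derivative b₀ * s₀ + b₀ ^ 2 * derivative s₀)) := by
        have e1 : derivative a' = derivative a +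
            b₀ ^ 2 * (4 * b₀ * derivative b₀ * s₀ + b₀ ^ 2 * derivative s₀) := by
          rw [ha', derivative_add, derivative_mul, derivative_pow]
          simp only [Nat.cast_ofNat, map_ofNat]
          ring
        linear_combination derivative a' * ha' + a * e1
      rw [e]
      exact hdv.add (dvd_mul_right _ _)) hα' hαs' hF'
  obtain ⟨w, hw⟩ := h3 _ _ c c' (lf b₀ ^ 2 + 2 * lf y₀)
    (lf s₀ * ((lf b₀ ^ 2 - 2 * lf y₀) * (2 * lf a + lf b₀ ^ 4 * lf s₀) +
      4 * lf y₀ ^ 2 * lf s₀ * (lf b₀ ^ 2 - 2 * lf y₀)))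
    (lf y₀ ^ 2 * lf s₀ * lf a + 2 * lf y₀ ^ 4 * lf s₀ ^ 2) mH (by
      rw [← hc, ← hc']
      ring)
  rw [hw] at q5
  refine h2 _ L (rr L) (WittVector.map φ) φ m c c' s s' _ w ρ ρ' ζ ζ' _ _ hloc hΦ fc fc' ?_ p4
    p1 p2 p3 q1 q2 q3 p5 q5
  rw [map_prod]
  have e : ∀ i, WittVector.map φ ((lf b₀ ^ 2 + 2 * lf y₀).eval (c i)) =
      (lf b₀ ^ 2 + 2 * lf y₀).eval (c (s i)) := fun i => by
    rw [← eval_map_apply, fH, fc]
  simp only [e]
  exact Equiv.prod_comp s fun i => (lf b₀ ^ 2 + 2 * lf y₀).eval (c i)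

end Pool.Agent.Lib.MP_232f4c_nt.Cw
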