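import Pool.Agent.Lib.MP_232f4c_nt.CwHalf
import Pool.Agent.Lib.MP_232f4c_nt.CwRes
import Pool.Agent.Lib.MP_232f4c_nt.CwW
import Pool.Agent.Lib.MP_232f4c_nt.CwCmp
import Pool.Agent.Lib.MP_232f4c_nt.CwB0
import Pool.Agent.Lib.MP_232f4c_nt.CwDeg
import Pool.Agent.Lib.MP_232f4c_nt.CwB
import Pool.Agent.Lib.MP_232f4c_nt.CwFac
import Pool.Agent.Lib.MP_232f4c_nt.CwLine
import Pool.Agent.Lib.MP_232f4c_nt.CwBad
import Pool.Agent.Lib.MP_232f4c_nt.CwPr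
import Pool.Agent.Lib.MP_232f4c_nt.CwMain

/-! The correlation theorem. -/

namespace Pool.Agent.Lib.MP_232f4c_nt.Cw

theorem cwL : StCwL :=
  stCwL (stLine (stStr (stAG (stCmp (stW stHalf stFin stRes stHens))) stFac stDeg)
    (stBG stB0G stDeg)) stEO stTr stSq stBig stNo

end Pool.Agent.Lib.MP_232f4c_nt.Cw
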