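import Pool.Agent.Lib.MP_9227d9_nt.MobA2

/-!
Correlations of all orders of the Moebius function over finite fields of characteristic two,
for every degree (definitions and statements of the modules).
-/

namespace Pool.Agent.Lib.MP_232f4c_nt.Cw

open Polynomial Pool.Agent.Lib.MP_9227d9_nt.Mob Filter Topology

open scoped Classical

/-- The local term at a critical point `β` of `F`. -/
noncomputable def eF {L : Type} [Field L] (F : L[X]) (β : L) : L :=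
  (taylor β F).coeff 2 ^ 3 / ((taylor β F).coeff 0 * (taylor β F).coeff 3 ^ 2)

/-- The odd constant in the formula for the discriminant. -/
def NN (m : ℕ) : ℤ := A2.eta (2 * m + 1) * (2 * m + 1) ^ (2 * m + 1)

/-- `d` multiplicative derivatives in the directions `M * t` make `φ` periodic modulo `M`. -/
def Dg {k : Type} [Field k] (M : k[X]) : ℕ → (k[X] → ℝ) → Prop
  | 0, φ => ∀ σ t, φ (σ + M * t) = φ σ
  | d + 1, φ => ∀ t, Dg M d fun σ => φ σ * φ (σ + M * t)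

/-- Half: the discriminant modulo eight, with an unevaluated factor. -/
def StHalf : Prop :=
  ∀ (O L : Type) [CommRing O] [IsDomain O] [Field L] [CharP L 2] (r : O →+* L) (Φ : O →+* O)
    (φ : L →+* L) (m m₁ : ℕ) (a : Fin (2 * m + 1) → O) (b : Fin m₁ → O)
    (s : Equiv.Perm (Fin (2 * m + 1))) (t : Equiv.Perm (Fin m₁)) (G B₀ Y₀ Z Z' : O[X]),
    A2.Loc r → (∀ x, r (Φ x) = φ (r x)) → (Function.Injective fun i => r (a i)) →
    (Function.Injective fun j => r (b j)) → (∀ i, Φ (a i) = a (s i)) → (∀ j, Φ (b j) = b (t j)) →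
    G = ∏ i, (X - C (a i)) → B₀.Monic → B₀.natDegree + m₁ = m →
    Y₀.degree < (2 * B₀.natDegree : ℕ) → (∀ j, r (B₀.eval (b j)) ≠ 0) →
    derivative (G.map r) = (B₀.map r * ∏ j, (X - C (r (b j)))) ^ 2 →
    derivative G = (B₀ ^ 2 + 2 * Y₀) * Z + 4 * Z' →
    ∃ (ρ : O) (ζ : L), Φ ρ = ρ ∧ r ρ ≠ 0 ∧ φ ζ = ζ ∧
      r (∏ i, (B₀ ^ 2 + 2 * Y₀).eval (a i)) ≠ 0 ∧
      A2.V r ((Matrix.vandermonde a).det ^ 2)
        (NN m * (∏ i, (B₀ ^ 2 + 2 * Y₀).eval (a i)) * ρ ^ 2)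
        (∑ j, eF (G.map r) (r (b j)) + ζ + ζ ^ 2)

/-- Fin: extraction of the square root. -/
def StFin : Prop :=
  ∀ (O L : Type) [CommRing O] [IsDomain O] [Field L] [CharP L 2] (r : O →+* L) (Φ : O →+* O)
    (φ : L →+* L) (m : ℕ) (a a' : Fin (2 * m + 1) → O) (s s' : Equiv.Perm (Fin (2 * m + 1)))
    (R w ρ ρ' : O) (ζ ζ' E E' : L), A2.Loc r → (∀ x, r (Φ x) = φ (r x)) →
    (∀ i, Φ (a i) = a (s i)) → (∀ i, Φ (a' i) = a' (s' i)) → Φ R = R → r R ≠ 0 →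
    Φ ρ = ρ → r ρ ≠ 0 → φ ζ = ζ → Φ ρ' = ρ' → r ρ' ≠ 0 → φ ζ' = ζ' →
    A2.V r ((Matrix.vandermonde a).det ^ 2) (NN m * R * ρ ^ 2) (E + ζ + ζ ^ 2) →
    A2.V r ((Matrix.vandermonde a').det ^ 2) (NN m * (R + 8 * w) * ρ' ^ 2) (E' + ζ' + ζ' ^ 2) →
    ∃ z : L, z ^ 2 + z = E + E' ∧
      φ z = z + if Equiv.Perm.sign s = Equiv.Perm.sign s' then 0 else 1

/-- Res: a norm depends only on the class of the polynomial. -/
def StRes : Prop :=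
  ∀ (O : Type) [CommRing O] (n : ℕ) (a a' : Fin n → O) (H U U' : O[X]), H.Monic →
    ∏ i, (X - C (a' i)) = ∏ i, (X - C (a i)) + H * U + 8 * U' →
    ∃ w : O, ∏ i, H.eval (a' i) = ∏ i, H.eval (a i) + 8 * w

/-- Hens: lifting of simple roots to Witt vectors. -/
def StHens : Prop :=
  ∀ (L : Type) [Field L] [CharP L 2] [PerfectRing L 2] (φ : L →+* L) (n : ℕ) (α : Fin n → L)
    (s : Equiv.Perm (Fin n)) (G : (WittVector 2 L)[X]), Function.Injective α →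
    (∀ i, φ (α i) = α (s i)) → G.Monic →
    G.map (WittVector.constantCoeff : WittVector 2 L →+* L) = ∏ i, (X - C (α i)) →
    G.map (WittVector.map φ) = G →
    ∃ a : Fin n → WittVector 2 L, (∀ i, WittVector.constantCoeff (a i) = α i) ∧
      G = ∏ i, (X - C (a i)) ∧ ∀ i, WittVector.map φ (a i) = a (s i)

/-- W: comparison of two discriminants. -/
def StW : Prop :=
  ∀ (L : Type) [Field L] [CharP L 2] [PerfectRing L 2] (φ : L →+* L) (m m₁ : ℕ)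
    (b₀ b a a' s₀ y₀ : L[X]) (β : Fin m₁ → L) (t : Equiv.Perm (Fin m₁))
    (α α' : Fin (2 * m + 1) → L) (s s' : Equiv.Perm (Fin (2 * m + 1))),
    b₀.Monic → b₀.natDegree + m₁ = m → b = b₀ * ∏ j, (X - C (β j)) → a' = a + b₀ ^ 4 * s₀ →
    b₀.map φ = b₀ → a.map φ = a → s₀.map φ = s₀ → y₀.map φ = y₀ →
    Function.Injective β → (∀ j, φ (β j) = β (t j)) → (∀ j, b₀.eval (β j) ≠ 0) →
    a.natDegree ≤ m → a'.natDegree ≤ m → y₀.degree < (2 * b₀.natDegree : ℕ) →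
    b₀ ^ 2 ∣ a * derivative a + X * (b * derivative b) - y₀ * (∏ j, (X - C (β j))) ^ 2 →
    Function.Injective α → Function.Injective α' → (∀ i, φ (α i) = α (s i)) →
    (∀ i, φ (α' i) = α' (s' i)) → a ^ 2 + X * b ^ 2 = ∏ i, (X - C (α i)) →
    a' ^ 2 + X * b ^ 2 = ∏ i, (X - C (α' i)) →
    ∃ z : L, z ^ 2 + z = ∑ j, eF (a ^ 2 + X * b ^ 2) (β j) + ∑ j, eF (a' ^ 2 + X * b ^ 2) (β j) ∧
      φ z = z + if Equiv.Perm.sign s = Equiv.Perm.sign s' then 0 else 1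

/-- Cmp: comparison of two values of the Moebius function. -/
def StCmp : Prop :=
  ∀ (k : Type) [Field k] [Fintype k] [CharP k 2] (b₀ b a a' : k[X]) (S : Finset k[X]),
    b₀.Monic → (∀ p ∈ S, IsP p) → (∀ p ∈ S, ¬ p ∣ b₀) → b = b₀ * ∏ p ∈ S, p →
    b₀ ^ 4 ∣ a' - a → a.natDegree ≤ b.natDegree → a'.natDegree ≤ b.natDegree →
    Squarefree (a ^ 2 + X * b ^ 2) → Squarefree (a' ^ 2 + X * b ^ 2) →
    mu (a ^ 2 + X * b ^ 2) * mu (a' ^ 2 + X * b ^ 2) =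
      (∏ p ∈ S, chi p b a) * ∏ p ∈ S, chi p b a'

/-- AG: the Moebius function on `a ^ 2 + X * b ^ 2` for an arbitrary monic `b`. -/
def StAG : Prop :=
  ∀ (k : Type) [Field k] [Fintype k] [CharP k 2] (b₀ b : k[X]) (S : Finset k[X]),
    b₀.Monic → (∀ p ∈ S, IsP p) → (∀ p ∈ S, ¬ p ∣ b₀) → b = b₀ * ∏ p ∈ S, p →
    ∃ Φ : k[X] → ℝ, (∀ a, |Φ a| ≤ 1) ∧ (∀ a t, Φ (a + b₀ ^ 4 * t) = Φ a) ∧
      ∀ a : k[X], a.natDegree ≤ b.natDegree →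
        mu (a ^ 2 + X * b ^ 2) = Φ a * ∏ p ∈ S, chi p b a

/-- B0G: the complete sum. -/
def StB0G : Prop :=
  ∀ (k : Type) [Field k] [Fintype k] [CharP k 2] (p : k[X]) (J : Type) [Fintype J] [Nonempty J]
    (b a w : J → k[X]) (L : ℕ), IsP p → (∀ j, ¬ p ∣ derivative (b j)) → (∀ j, ¬ p ∣ w j) →
    (∀ i j, i ≠ j → ¬ p ∣ a i * w j - a j * w i) → 2 * p.natDegree ≤ L →
    (avg L fun σ => ∏ j, chi p (b j) (a j + w j * σ)) ^ 2 ≤
      ((Fintype.card J : ℝ) + 2) ^ 2 / Nm p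

/-- Dg: the functions of bounded degree. -/
def StDeg : Prop :=
  ∀ (k : Type) [Field k] [Fintype k] [CharP k 2] (M : k[X]),
    (∀ (d : ℕ) (φ ψ : k[X] → ℝ), Dg M d φ → Dg M d ψ → Dg M d fun σ => φ σ * ψ σ) ∧
    (∀ (d : ℕ) (φ : k[X] → ℝ) (c : k[X]), Dg M d φ → Dg M d fun σ => φ (σ + c)) ∧
    (∀ (d : ℕ) (φ : k[X] → ℝ), Dg M d φ → Dg M (d + 1) φ) ∧
    ∀ (S : Finset k[X]) (b a w : k[X]), (∀ p ∈ S, IsP p ∧ ¬ p ∣ derivative b ∧ p ∣ M) →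
      Dg M 2 fun σ => ∏ p ∈ S, chi p b (a + w * σ)

/-- BG: the van der Corput iteration. -/
def StBG : Prop :=
  ∀ n r : ℕ, ∃ C : ℝ, 0 ≤ C ∧ ∀ (k : Type) [Field k] [Fintype k] [CharP k 2] (p : k[X])
    (J : Type) [Fintype J] [Nonempty J] (b a w : J → k[X]) (ι : Type) (s : Finset ι)
    (φ : ι → k[X] → ℝ) (M : ι → k[X]) (d : ι → ℕ) (L : ℕ), Fintype.card J ≤ r →
    ∑ i ∈ s, (d i + 1) ≤ n → IsP p → (∀ j, ¬ p ∣ derivative (b j)) → (∀ j, ¬ p ∣ w j) →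
    (∀ i j, i ≠ j → ¬ p ∣ a i * w j - a j * w i) → (∀ i σ, |φ i σ| ≤ 1) →
    (∀ i ∈ s, Dg (M i) (d i) (φ i)) → (∀ i ∈ s, ¬ p ∣ M i) →
    (∀ i ∈ s, (M i).natDegree + p.natDegree ≤ L) → 2 * p.natDegree ≤ L →
    |avg L fun σ => (∏ j, chi p (b j) (a j + w j * σ)) * ∏ i ∈ s, φ i σ| ^ 2 ^ (n + 1) ≤ C / Nm p

/-- Fac: a factorisation of the modulus. -/
def StFac : Prop :=
  ∀ (k : Type) [Field k] [Fintype k] (b p : k[X]) (T y : ℕ), b.Monic → IsP p → ¬ p ^ 2 ∣ b →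
    (∀ q, IsP q → q ∣ b → q.natDegree ≤ T) → b.natDegree ≤ 2 * T →
    (∀ g : k[X], g.Monic → g ^ 2 ∣ b → g.natDegree ≤ y) →
    ∃ (b₀ : k[X]) (S S₁ S₂ S₃ : Finset k[X]), b₀.Monic ∧ b₀.natDegree ≤ 3 * y ∧ ¬ p ∣ b₀ ∧
      (∀ q ∈ S, IsP q) ∧ (∀ q ∈ S, ¬ q ∣ b₀) ∧ (∀ q ∈ S, ¬ q ∣ derivative b) ∧
      b = b₀ * ∏ q ∈ S, q ∧ S.erase p = S₁ ∪ S₂ ∪ S₃ ∧ Disjoint S₁ S₂ ∧ Disjoint (S₁ ∪ S₂) S₃ ∧
      ∑ q ∈ S₁, q.natDegree ≤ T ∧ ∑ q ∈ S₂, q.natDegree ≤ T ∧ ∑ q ∈ S₃, q.natDegree ≤ T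

/-- Str: the structure of the Moebius function on a line. -/
def StStr : Prop :=
  ∀ (k : Type) [Field k] [Fintype k] [CharP k 2] (b a w p : k[X]) (T y : ℕ), b.Monic → IsP p →
    ¬ p ^ 2 ∣ b → (∀ q, IsP q → q ∣ b → q.natDegree ≤ T) → b.natDegree ≤ 2 * T →
    (∀ g : k[X], g.Monic → g ^ 2 ∣ b → g.natDegree ≤ y) → 12 * y ≤ T →
    (p ∣ b → ¬ p ∣ derivative b) ∧
    ∃ (φ : Fin 4 → k[X] → ℝ) (M : Fin 4 → k[X]), (∀ i σ, |φ i σ| ≤ 1) ∧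
      (∀ i, Dg (M i) 2 (φ i)) ∧ (∀ i, ¬ p ∣ M i) ∧ (∀ i, (M i).natDegree ≤ T) ∧
      ∀ σ : k[X], (a + w * σ).natDegree ≤ b.natDegree →
        mu ((a + w * σ) ^ 2 + X * b ^ 2) =
          (if p ∣ b then chi p b (a + w * σ) else 1) * ∏ i, φ i σ

/-- Line: cancellation on a good line. -/
def StLine : Prop :=
  ∀ r : ℕ, ∃ C : ℝ, 0 ≤ C ∧ ∀ (k : Type) [Field k] [Fintype k] [CharP k 2] (ι : Type) [Fintype ι]
    (b a w : ι → k[X]) (p : k[X]) (L T y : ℕ), Fintype.card ι ≤ r → IsP p →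
    (∀ j, (b j).Monic) → (∃ j, p ∣ b j) → (∀ j, ¬ p ^ 2 ∣ b j) → (∀ j, ¬ p ∣ w j) →
    (∀ i j, i ≠ j → p ∣ b i → p ∣ b j → ¬ p ∣ a i * w j - a j * w i) →
    (∀ (j : ι) (σ : k[X]), σ.degree < L → (a j + w j * σ).natDegree ≤ (b j).natDegree) →
    (∀ j q, IsP q → q ∣ b j → q.natDegree ≤ T) → (∀ j, (b j).natDegree ≤ 2 * T) →
    (∀ (j : ι) (g : k[X]), g.Monic → g ^ 2 ∣ b j → g.natDegree ≤ y) → 12 * y ≤ T →
    T + p.natDegree ≤ L →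
    |avg L fun σ => ∏ j, mu ((a j + w j * σ) ^ 2 + X * b j ^ 2)| ^ 2 ^ (12 * r + 1) ≤ C / Nm p

/-- EO: even and odd parts are independent. -/
def StEO : Prop :=
  ∀ (k : Type) [Field k] [Fintype k] [CharP k 2] (m : ℕ) (F : k[X] → ℝ),
    avm (2 * m + 1) F = avm m fun b : k[X] => avg (m + 1) fun a : k[X] => F (a ^ 2 + X * b ^ 2)

/-- Tr: the mean over a progression of a nonnegative function. -/
def StTr : Prop :=
  ∀ (k : Type) [Field k] [Fintype k] (m : ℕ) (A β : k[X]) (F : k[X] → ℝ), A.Monic →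
    β.degree < (A.natDegree + m : ℕ) → (∀ f, 0 ≤ F f) →
    avm m (fun b => F (A * b + β)) ≤ Nm A * avm (A.natDegree + m) F

/-- Sq: large square divisors are rare. -/
def StSq : Prop :=
  ∀ (k : Type) [Field k] [Fintype k] (n y : ℕ),
    avm n (fun F : k[X] => if ∃ g : k[X], g.Monic ∧ y < g.natDegree ∧ g ^ 2 ∣ F then 1 else 0) ≤
      1 / qR k ^ y

/-- Big: prime factors of nearly full degree are rare. -/
def StBig : Prop :=
  ∀ (k : Type) [Field k] [Fintype k] [CharP k 2] (c : ℕ) (ε : ℝ), 0 < ε → ∃ n₀ : ℕ, ∀ n, n₀ ≤ n →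
    avm n (fun F : k[X] => if ∃ q : k[X], IsP q ∧ q ∣ F ∧ n ≤ q.natDegree + c then 1 else 0) ≤ ε

/-- No: most terms of a progression have a prime factor of bounded and large degree. -/
def StNo : Prop :=
  ∀ (k : Type) [Field k] [Fintype k] [CharP k 2] (D : ℕ) (ε : ℝ), 0 < ε → ∃ D' m₀ : ℕ,
    ∀ m, m₀ ≤ m → ∀ A β : k[X], A ≠ 0 → A.natDegree < D →
    avm m (fun b => if ∃ p : k[X], IsP p ∧ D ≤ p.natDegree ∧ p.natDegree ≤ D' ∧ p ∣ A * b + β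
      then 0 else 1) ≤ ε

/-- Cw: the correlations of the Moebius function along forms with square leading terms. -/
def StCw : Prop :=
  ∀ (k : Type) [Field k] [Fintype k] [CharP k 2] (ι : Type) [Fintype ι] [Nonempty ι]
    (A B : ι → k[X]), (∀ j, (A j).Monic) → (∀ i j, i ≠ j → A i ^ 2 * B j ≠ A j ^ 2 * B i) →
    Tendsto (fun m : ℕ => avm (2 * m + 1) fun G => ∏ j, mu (A j ^ 2 * G + B j)) atTop (𝓝 0)

end Pool.Agent.Lib.MP_232f4c_nt.Cw
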