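import Pool.Agent.Lib.MP_232f4c_nt.CwDefs

/-! The correlation theorem on short lines (statement). -/

namespace Pool.Agent.Lib.MP_232f4c_nt.Cw

open Polynomial Pool.Agent.Lib.MP_9227d9_nt.Mob Filter Topology

/-- CwL: cancellation on almost all lines `G + s ^ 2` of bounded codimension. -/
def StCwL : Prop :=
  ∀ (k : Type) [Field k] [Fintype k] [CharP k 2] (ι : Type) [Fintype ι] [Nonempty ι]
    (A B : ι → k[X]), (∀ j, (A j).Monic) → (∀ i j, i ≠ j → A i ^ 2 * B j ≠ A j ^ 2 * B i) →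
    ∀ l : ℕ, Tendsto (fun m : ℕ => avm (2 * m + 1) fun G =>
      |avg (m - l) fun s => ∏ j, mu (A j ^ 2 * (G + s ^ 2) + B j)|) atTop (𝓝 0)

end Pool.Agent.Lib.MP_232f4c_nt.Cw
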