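import Pool.Agent.Lib.MP_232f4c_nt.CwDefs
import Pool.Agent.Lib.MP_9227d9_nt.MobA

namespace Pool.Agent.Lib.MP_232f4c_nt.Cw

open Polynomial Pool.Agent.Lib.MP_9227d9_nt.Mob Filter Topology

open scoped Classical

namespace CwHalf

open A2

variable {O L : Type} [CommRing O] [Field L] {r : O →+* L}

theorem H_monic [Nontrivial O] {B Y : O[X]} (hB : B.Monic)
    (hY : Y.degree < (2 * B.natDegree : ℕ)) :
    (B ^ 2 + 2 * Y).Monic ∧ (B ^ 2 + 2 * Y).natDegree = 2 * B.natDegree := by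
  have h1 : (B ^ 2).Monic := hB.pow 2
  have h2 : (B ^ 2).natDegree = 2 * B.natDegree := hB.natDegree_pow 2
  have h3 : (2 * Y).degree < (B ^ 2).degree := by
    rw [degree_eq_natDegree h1.ne_zero, h2, two_mul Y]
    exact (degree_add_le _ _).trans_lt (max_lt hY hY)
  exact ⟨h1.add_of_left h3, by rw [natDegree_add_eq_left_of_degree_lt h3, h2]⟩

theorem cop_eval {B : O[X]} {b : O} (h : IsUnit (B.eval b)) : IsCoprime B (X - C b) := by
  obtain ⟨c, hc⟩ := X_sub_C_dvd_sub_C_eval (p := B) (a := b)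
  obtain ⟨u, hu⟩ := h.exists_right_inv
  have hu' : C (B.eval b) * C u = 1 := by rw [← map_mul, hu, map_one]
  exact ⟨C u, -(C u * c), by linear_combination C u * hc + hu'⟩

theorem cong4' [IsDomain O] (h : Loc r) {m m₁ : ℕ} {G B Y₀ Z Z' : O[X]} (hG : G.Monic)
    (hd : G.natDegree = 2 * m + 1) (b P Q : Fin m₁ → O)
    (hb : Function.Injective fun j => r (b j)) (hB : B.Monic) (hm : B.natDegree + m₁ = m)
    (hY₀ : Y₀.degree < (2 * B.natDegree : ℕ)) (hBb : ∀ j, r (B.eval (b j)) ≠ 0)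
    (hZ : derivative G = (B ^ 2 + 2 * Y₀) * Z + 4 * Z')
    (h1 : ∀ j, (taylor (b j) G).coeff 1 = 2 * Q j * (taylor (b j) G).coeff 3)
    (h2 : ∀ j, (taylor (b j) G).coeff 2 = P j * (taylor (b j) G).coeff 3) :
    ∃ Y : O[X], derivative G = C ((2 * m + 1 : ℕ) : O) *
        ((B ^ 2 + 2 * Y₀) * ∏ j, HH (b j) (P j) (Q j)) + 4 * Y ∧
      Y.degree < (2 * m : ℕ) := by
  obtain ⟨hHm, hHd⟩ := H_monic hB hY₀
  obtain ⟨W, hW⟩ : ∃ W, W = (B ^ 2 + 2 * Y₀) * ∏ j, HH (b j) (P j) (Q j) := ⟨_, rfl⟩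
  have hPm : (∏ j, HH (b j) (P j) (Q j)).Monic :=
    monic_prod_of_monic _ _ fun j _ => (HH_monic _ _ _).1
  have hPd : (∏ j, HH (b j) (P j) (Q j)).natDegree = 2 * m₁ := by
    rw [natDegree_prod_of_monic _ _ fun j _ => (HH_monic _ _ _).1]
    simp [(HH_monic _ _ _).2, mul_comm]
  have hWm : W.Monic := hW ▸ hHm.mul hPm
  have hWd : W.natDegree = 2 * m := by
    rw [hW, hHm.natDegree_mul hPm, hHd, hPd]
    omega
  obtain ⟨D, hD⟩ : ∃ D, D = derivative G - C ((2 * m + 1 : ℕ) : O) * W := ⟨_, rfl⟩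
  have hDd : D.degree < (2 * m : ℕ) := by
    rw [degree_lt_iff_coeff_zero]
    intro k hk
    rw [hD, coeff_sub, coeff_derivative, coeff_C_mul]
    rcases hk.eq_or_lt with rfl | hk
    · have e1 : G.coeff (2 * m + 1) = 1 := hd ▸ hG.coeff_natDegree
      have e2 : W.coeff (2 * m) = 1 := hWd ▸ hWm.coeff_natDegree
      rw [e1, e2]
      push_cast
      ring
    · rw [coeff_eq_zero_of_natDegree_lt (by omega), coeff_eq_zero_of_natDegree_lt (by omega)]
      simp
  let π := Ideal.Quotient.mk (Ideal.span {(4 : O)})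
  have h4 : (4 : (O ⧸ Ideal.span {(4 : O)})[X]) = 0 := by
    have : π 4 = 0 := Ideal.Quotient.eq_zero_iff_mem.2 (Ideal.mem_span_singleton_self _)
    rw [← map_ofNat C, ← map_ofNat π, this, map_zero]
  have hdv : W.map π ∣ D.map π := by
    have hG' : W.map π ∣ (derivative G).map π := by
      rw [hW, Polynomial.map_mul]
      refine IsCoprime.mul_dvd ?_ ?_ ?_
      · rw [Polynomial.map_prod]
        refine IsCoprime.prod_right fun j _ => ?_
        have := ((cop_eval (h.unit _ (hBb j))).pow (m := 2) (n := 2)).map (mapRingHom π)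
        have h5 := cop h4 this (Y₀.map π) ((C (P j) * (X - C (b j)) + C (Q j)).map π)
        simpa only [HH, Polynomial.map_add, Polynomial.map_mul, Polynomial.map_ofNat,
          coe_mapRingHom] using h5
      · rw [hZ, Polynomial.map_add (p := (B ^ 2 + 2 * Y₀) * Z), Polynomial.map_mul,
          Polynomial.map_mul (p := 4), Polynomial.map_ofNat, h4, zero_mul, add_zero]
        exact dvd_mul_right _ _
      · rw [Polynomial.map_prod]
        refine Fintype.prod_dvd_of_coprime (fun j k hjk => ?_) fun j => ?_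
        · have hu : IsUnit (b j - b k) := h.unit _ (by
            rw [map_sub, sub_ne_zero]
            exact fun e => hjk (hb e))
          have := ((isCoprime_X_sub_C_of_isUnit_sub hu).pow (m := 2) (n := 2)).map (mapRingHom π)
          have h5 := cop h4 this ((C (P j) * (X - C (b j)) + C (Q j)).map π)
            ((C (P k) * (X - C (b k)) + C (Q k)).map π)
          simpa only [Function.onFun, HH, Polynomial.map_add, Polynomial.map_mul,
            Polynomial.map_ofNat, coe_mapRingHom] using h5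
        · obtain ⟨A, B', hAB⟩ := dec (h1 j) (h2 j)
          have e1 : derivative G =
              HH (b j) (P j) (Q j) * taylor (-b j) A + 4 * taylor (-b j) B' := by
            have := congrArg (taylor (-b j)) hAB
            rw [der_taylor, taylor_taylor, neg_add_cancel, taylor_zero, map_add, taylor_mul, HH_eq,
              taylor_mul, ← map_ofNat C 4, taylor_C, map_ofNat] at this
            exact this
          rw [e1, Polynomial.map_add, Polynomial.map_mul, Polynomial.map_mul,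
            Polynomial.map_ofNat, h4, zero_mul, add_zero]
          exact dvd_mul_right _ _
    rw [hD, Polynomial.map_sub, Polynomial.map_mul]
    exact dvd_sub hG' (dvd_mul_left _ _)
  have hD0 : D.map π = 0 := by
    have e1 : D %ₘ W = D := (modByMonic_eq_self_iff hWm).2 (by
      rw [degree_eq_natDegree hWm.ne_zero, hWd]; exact hDd)
    rw [← e1, map_modByMonic _ hWm, modByMonic_eq_zero_iff_dvd (hWm.map _)]
    exact hdv
  obtain ⟨Y, hY⟩ : C (4 : O) ∣ D := (C_dvd_iff_dvd_coeff _ _).2 fun k => by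
    have := congrArg (fun p => coeff p k) hD0
    simp only [coeff_map, coeff_zero] at this
    exact Ideal.mem_span_singleton.1 (Ideal.Quotient.eq_zero_iff_mem.1 this)
  have h40 : (4 : O) ≠ 0 := by
    rw [show (4 : O) = 2 * 2 by norm_num]
    exact mul_ne_zero h.ne h.ne
  refine ⟨Y, ?_, by rwa [hY, degree_C_mul h40] at hDd⟩
  rw [← hW, ← map_ofNat C 4, ← hY, hD]
  ring

theorem resid' {ι κ : Type} [Fintype ι] [Fintype κ] [CharP L 2] {α : ι → L} {β : κ → L}
    {F B : L[X]} (hα : Function.Injective α) (hβ : Function.Injective β)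
    (hF : F = ∏ i, (X - C (α i))) (hB : ∀ j, B.eval (β j) ≠ 0)
    (hF' : derivative F = (B * ∏ j, (X - C (β j))) ^ 2) (j : κ) :
    (taylor (β j) F).coeff 0 ≠ 0 ∧ (taylor (β j) F).coeff 1 = 0 ∧
      (taylor (β j) F).coeff 3 ≠ 0 := by
  have e00 : (∏ k, (X - C (β k))).eval (β j) = 0 := by
    rw [eval_prod]
    exact Finset.prod_eq_zero (Finset.mem_univ j) (by simp)
  have e0 : (B * ∏ k, (X - C (β k))).eval (β j) = 0 := by rw [eval_mul, e00, mul_zero]
  have e1 : (derivative F).eval (β j) = 0 := by rw [hF', eval_pow, e0]; simp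
  refine ⟨fun h0 => ?_, by rw [taylor_coeff_one, e1], fun h3 => ?_⟩
  · rw [taylor_coeff_zero, hF, eval_prod, Finset.prod_eq_zero_iff] at h0
    obtain ⟨i, -, hi⟩ := h0
    rw [eval_sub, eval_X, eval_C, sub_eq_zero] at hi
    rw [hi, hF, eval_der, Finset.prod_eq_zero_iff] at e1
    obtain ⟨k, hk, hk'⟩ := e1
    exact Finset.ne_of_mem_erase hk (hα (sub_eq_zero.1 hk')).symm
  · have e2 := congrArg (fun p => coeff p 2) (der_taylor (β j) F)
    simp only [coeff_derivative, h3, zero_mul, hF', taylor_pow] at e2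
    rw [sq, coeff_mul, Finset.Nat.sum_antidiagonal_eq_sum_range_succ_mk] at e2
    simp only [Finset.sum_range_succ, Finset.sum_range_zero, taylor_coeff_zero, e0, tsub_self,
      zero_mul, mul_zero, zero_add, add_zero, Nat.reduceSub, taylor_coeff_one] at e2
    rw [eq_comm, mul_self_eq_zero, derivative_mul, eval_add, eval_mul, eval_mul, e00, mul_zero,
      zero_add, mul_eq_zero, eval_der, Finset.prod_eq_zero_iff] at e2
    rcases e2 with e2 | ⟨k, hk, hk'⟩
    · exact hB j e2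
    · exact Finset.ne_of_mem_erase hk (hβ (sub_eq_zero.1 hk')).symm

end CwHalf

open A2 CwHalf in
theorem stHalf : StHalf := by
  intro O L _ _ _ _ r Φ φ m m₁ a b s t G B₀ Y₀ Z Z' h hΦ hα hβ ha hb hG hB hm hY₀ hBb hF' hZ
  have h2L : (2 : L) = 0 := CharTwo.two_eq_zero
  obtain ⟨F, hGF⟩ : ∃ F, G.map r = F := ⟨_, rfl⟩
  have hF : F = ∏ i, (X - C (r (a i))) := by simp [hG, ← hGF, Polynomial.map_prod]
  rw [hGF] at hF' ⊢
  have hGm : G.Monic := hG ▸ monic_prod_of_monic _ _ fun i _ => monic_X_sub_C _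
  have hGd : G.natDegree = 2 * m + 1 := by
    rw [hG, natDegree_prod_of_monic _ _ fun i _ => monic_X_sub_C _]
    simp
  have hGΦ : G.map Φ = G := by
    rw [hG, Polynomial.map_prod]
    simp only [Polynomial.map_sub, map_X, map_C, ha]
    exact Equiv.prod_comp s fun i => X - C (a i)
  obtain ⟨g, hg⟩ : ∃ g : ℕ → Fin m₁ → O, ∀ k j, g k j = (taylor (b j) G).coeff k :=
    ⟨_, fun _ _ => rfl⟩
  obtain ⟨f, hf⟩ : ∃ f : ℕ → Fin m₁ → L, ∀ k j, f k j = (taylor (r (b j)) F).coeff k :=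
    ⟨_, fun _ _ => rfl⟩
  have hgf : ∀ k j, r (g k j) = f k j := fun k j => by
    rw [hg, hf, ← coeff_map, map_taylor, hGF]
  have hgΦ : ∀ k j, Φ (g k j) = g k (t j) := fun k j => by
    rw [hg, hg, ← coeff_map, map_taylor, hGΦ, hb]
  have hfφ : ∀ k j, φ (f k j) = f k (t j) := fun k j => by rw [← hgf, ← hΦ, hgΦ, hgf]
  have hres : ∀ j, f 0 j ≠ 0 ∧ f 1 j = 0 ∧ f 3 j ≠ 0 := fun j => by
    simp only [hf]
    exact resid' hα hβ hF (fun j => by rw [eval_map_apply]; exact hBb j) hF' j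
  simp only [eF, ← hf]
  have hPQ : ∀ j, ∃ P Q : O, g 1 j = 2 * Q * g 3 j ∧ g 2 j = P * g 3 j := fun j => by
    obtain ⟨u, hu⟩ := (h.unit (g 3 j) (by rw [hgf]; exact (hres j).2.2)).exists_right_inv
    obtain ⟨y, hy⟩ := h.ker (g 1 j) (by rw [hgf]; exact (hres j).2.1)
    exact ⟨g 2 j * u, y * u, by linear_combination hy - 2 * y * hu,
      by linear_combination (-g 2 j) * hu⟩
  choose P Q hQ hP using hPQ
  have hQΦ : ∀ j, Φ (Q j) = Q (t j) := fun j => by
    have e1 := congrArg Φ (hQ j)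
    rw [map_mul, map_mul, map_ofNat, hgΦ, hgΦ, hQ] at e1
    have e2 : g 3 (t j) ≠ 0 := fun e => (hres (t j)).2.2 (by rw [← hgf, e, map_zero])
    exact (mul_left_cancel₀ h.ne (mul_right_cancel₀ e2 e1)).symm
  obtain ⟨ζ, hζ⟩ : ∃ ζ : Fin m₁ → L, ∀ j, ζ j = r (Q j) * f 2 j / f 0 j := ⟨_, fun _ => rfl⟩
  have hζφ : ∀ j, φ (ζ j) = ζ (t j) := fun j => by
    rw [hζ, hζ, map_div₀, map_mul, ← hΦ, hQΦ, hfφ, hfφ]
  have v1 : ∀ j, V r (∏ i, (HH (b j) (P j) (Q j)).eval (a i)) (g 0 j ^ 2)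
      (f 2 j ^ 3 / (f 0 j * f 3 j ^ 2) + ζ j + ζ j ^ 2) := fun j => by
    obtain ⟨w, hw⟩ := stA2n O (Fin (2 * m + 1)) (fun i => a i - b j) (P j) (Q j) (taylor (b j) G)
      (by rw [hG, taylor_prod]) (by rw [← hg, ← hg, hQ])
    simp only [← hg] at hw
    have e1 : ∏ i, (HH (b j) (P j) (Q j)).eval (a i) = g 0 j ^ 2 + 4 * (P j ^ 2 * g 0 j * g 2 j +
        Q j * g 0 j * g 2 j + Q j ^ 2 * g 2 j ^ 2 + 2 * w) := by
      rw [mul_add _ _ (2 * w), ← add_assoc, ← mul_assoc 4 2 w, show (4 * 2 : O) = 8 by norm_num,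
        ← hw]
      refine Finset.prod_congr rfl fun i _ => ?_
      simp only [HH, eval_add, eval_mul, eval_pow, eval_sub, eval_X, eval_C, eval_ofNat]
      ring
    have e2 : r (P j) = f 2 j / f 3 j := by
      rw [eq_div_iff (hres j).2.2, ← hgf, ← hgf, hP, map_mul]
    have e3 := V.of_add h (y := g 0 j ^ 2) (w := P j ^ 2 * g 0 j * g 2 j +
      Q j * g 0 j * g 2 j + Q j ^ 2 * g 2 j ^ 2 + 2 * w)
      (by rw [map_pow, hgf]; exact pow_ne_zero _ (hres j).1)
    rw [e1]
    convert e3 using 1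
    have n0 := (hres j).1
    have n3 := (hres j).2.2
    simp only [map_add, map_mul, map_pow, hgf, h.two, e2, hζ]
    field_simp
    ring
  obtain ⟨Y, hY, hYd⟩ := cong4' h hGm hGd b P Q hβ hB hm hY₀ hBb hZ
    (fun j => by rw [← hg, ← hg, hQ]) (fun j => by rw [← hg, ← hg, hP])
  obtain ⟨H, hH⟩ : ∃ H, B₀ ^ 2 + 2 * Y₀ = H := ⟨_, rfl⟩
  simp only [hH] at hY ⊢
  have hder : ∀ i, r ((derivative G).eval (a i))
      = ∏ k ∈ Finset.univ.erase i, (r (a i) - r (a k)) := fun i => by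
    simp only [hG, eval_der, map_prod, map_sub]
  have hne : ∀ i, ∏ k ∈ Finset.univ.erase i, (r (a i) - r (a k)) ≠ 0 := fun i =>
    Finset.prod_ne_zero_iff.2 fun k hk =>
      sub_ne_zero.2 fun e => Finset.ne_of_mem_erase hk (hα e).symm
  have e1 : ∀ i, (derivative G).eval (a i) = ((2 * m + 1 : ℕ) : O) *
      (H.eval (a i) * ∏ j, (HH (b j) (P j) (Q j)).eval (a i)) + 4 * Y.eval (a i) := fun i => by
    rw [hY, eval_add, eval_mul, eval_mul, eval_mul, eval_C, eval_prod, eval_ofNat]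
  have e2 : ∀ i, r (((2 * m + 1 : ℕ) : O) *
      (H.eval (a i) * ∏ j, (HH (b j) (P j) (Q j)).eval (a i)))
      = ∏ k ∈ Finset.univ.erase i, (r (a i) - r (a k)) := fun i => by
    rw [← hder, e1, map_add, map_mul r 4, h.four, zero_mul, add_zero]
  have v2 : ∀ i, V r ((derivative G).eval (a i))
      (((2 * m + 1 : ℕ) : O) * (H.eval (a i) * ∏ j, (HH (b j) (P j) (Q j)).eval (a i)))
      ((Y.map r).eval (r (a i)) / ∏ k ∈ Finset.univ.erase i, (r (a i) - r (a k))) := fun i => by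
    have e3 := V.of_add h (w := Y.eval (a i)) (e2 i ▸ hne i)
    rwa [← e1, e2, ← eval_map_apply] at e3
  have hHr : r (∏ i, H.eval (a i)) ≠ 0 := by
    rw [map_prod]
    refine Finset.prod_ne_zero_iff.2 fun i _ e => hne i ?_
    rw [← e2, map_mul, map_mul, e, zero_mul, mul_zero]
  have v3 := V.prod h Finset.univ v2
  have e0 : ∑ i, (Y.map r).eval (r (a i)) / ∏ k ∈ Finset.univ.erase i, (r (a i) - r (a k))
      = 0 := by
    have d1 : (Y.map r).degree < (2 * m : ℕ) := degree_map_le.trans_lt hYd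
    have := Lagrange.coeff_eq_sum (s := Finset.univ) (v := fun i => r (a i)) hα.injOn
      (P := Y.map r) (d1.trans (by simp only [Finset.card_univ, Fintype.card_fin]; norm_cast; omega))
    rw [← this]
    simpa using coeff_eq_zero_of_degree_lt d1
  rw [e0, Finset.prod_mul_distrib, Finset.prod_mul_distrib, Finset.prod_comm, Finset.prod_const,
    Finset.card_univ, Fintype.card_fin] at v3
  have v4 := V.prod h Finset.univ v1
  rw [Finset.prod_pow, Finset.sum_add_distrib, Finset.sum_add_distrib, ← CharTwo.sum_sq] at v4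
  refine ⟨∏ j, g 0 j, ∑ j, ζ j, ?_, ?_, ?_, hHr, ?_⟩
  · rw [map_prod]
    simp only [hgΦ]
    exact Equiv.prod_comp t fun j => g 0 j
  · rw [map_prod]
    exact Finset.prod_ne_zero_iff.2 fun j _ => by rw [hgf]; exact (hres j).1
  · rw [map_sum]
    simp only [hζφ]
    exact Equiv.sum_comp t ζ
  · have := (V.refl (eta (2 * m + 1) : O)).mul h
      (v3.trans h ((V.refl _).mul h ((V.refl _).mul h v4)))
    rw [zero_add, zero_add, zero_add, zero_add, hG, ← disc] at this
    convert this using 1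
    rw [NN]
    push_cast
    ring

end Pool.Agent.Lib.MP_232f4c_nt.Cw
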