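import Pool.Agent.Lib.MP_232f4c_nt.CwDefs
import Pool.Agent.Lib.MP_a3f657_nt.C2SfPrime

namespace Pool.Agent.Lib.MP_232f4c_nt.Cw

open Polynomial Pool.Agent.Lib.MP_9227d9_nt.Mob Filter Topology

open scoped Classical

namespace CwPr

variable {k : Type} [Field k] [Fintype k] [CharP k 2]

theorem deg_le (e : ℕ) (s : Finset k[X]) (hs : ∀ p ∈ s, IsP p ∧ p.natDegree = e) :
    ∑ p ∈ s, p.natDegree ≤ Fintype.card k ^ e := by
  rcases Nat.eq_zero_or_pos e with rfl | he
  · exact (Finset.sum_eq_zero fun p hp => (hs p hp).2).trans_le (Nat.zero_le _)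
  · exact MP_a3f657_nt.Two.sum_deg_eq_le he s fun p hp => ⟨(hs p hp).2, (hs p hp).1⟩

omit [CharP k 2] in
theorem sum_inv (d : ℕ) : ∑ p ∈ PrD k d, 1 / Nm p = (PrD k d).card / qR k ^ d := by
  rw [Finset.sum_congr rfl (g := fun _ => 1 / qR k ^ d) fun p hp => by
    rw [Nm, (mem_PrD.1 hp).2], Finset.sum_const, nsmul_eq_mul, mul_one_div]

omit [CharP k 2] in
theorem sum_deg (d : ℕ) : ∑ p ∈ PrD k d, p.natDegree = d * (PrD k d).card := by
  rw [Finset.sum_congr rfl fun p hp => (mem_PrD.1 hp).2, Finset.sum_const, smul_eq_mul, mul_comm]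

theorem upper {d : ℕ} (hd : 0 < d) : ∑ p ∈ PrD k d, 1 / Nm p ≤ 1 / (d : ℝ) := by
  have h := deg_le d (PrD k d) fun p hp => mem_PrD.1 hp
  rw [sum_deg] at h
  rw [sum_inv, div_le_div_iff₀ (qR_pow_pos d) (by exact_mod_cast hd), one_mul, mul_comm, qR]
  exact_mod_cast h

theorem lower {d : ℕ} (hd : 3 ≤ d) : 1 / (d : ℝ) ≤ 2 * ∑ p ∈ PrD k d, 1 / Nm p := by
  have hq : 2 ≤ Fintype.card k := Fintype.one_lt_card
  obtain ⟨c, rfl⟩ : ∃ c, d = c + 1 := ⟨d - 1, by omega⟩
  have h1 := MP_a3f657_nt.Two.sum_deg_eq (k := k) (m := c + 1) (by omega) le_rfl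
  generalize hs : (MP_a3f657_nt.Two.irrLe k (c + 1)).filter (·.natDegree ∣ c + 1) = s at h1
  have m : ∀ p ∈ s, IsP p ∧ p.natDegree ∣ c + 1 := fun p hp => by
    rw [← hs, Finset.mem_filter] at hp
    exact ⟨(MP_a3f657_nt.Two.mem_irrLe.1 hp.1).2, hp.2⟩
  rw [← Finset.sum_fiberwise_of_maps_to (g := natDegree) (t := insert (c + 1) (Finset.range c))
    fun p hp => by
      have a := Nat.le_of_dvd c.succ_pos (m p hp).2
      have b : p.natDegree ≠ c := fun e => by
        have := (Nat.dvd_add_right (dvd_refl c)).1 (e ▸ (m p hp).2)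
        have := Nat.le_of_dvd one_pos this
        omega
      simp only [Finset.mem_insert, Finset.mem_range]
      omega, Finset.sum_insert (by simp)] at h1
  have h2 : ∑ p ∈ s with p.natDegree = c + 1, p.natDegree ≤ (c + 1) * (PrD k (c + 1)).card := by
    rw [← sum_deg]
    exact Finset.sum_le_sum_of_subset fun p hp =>
      mem_PrD.2 ⟨(m p (Finset.mem_filter.1 hp).1).1, (Finset.mem_filter.1 hp).2⟩
  have h3 : ∑ e ∈ Finset.range c, ∑ p ∈ s with p.natDegree = e, p.natDegree <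
      Fintype.card k ^ c :=
    (Finset.sum_le_sum fun e _ => deg_le e _ fun p hp =>
      ⟨(m p (Finset.mem_filter.1 hp).1).1, (Finset.mem_filter.1 hp).2⟩).trans_lt
      (Nat.geomSum_lt hq fun _ => Finset.mem_range.1)
  have h4 : Fintype.card k ^ (c + 1) ≤ 2 * (PrD k (c + 1)).card * (c + 1) := by
    have := Nat.mul_le_mul_left (Fintype.card k ^ c) hq
    rw [← pow_succ] at this
    nlinarith
  rw [sum_inv, ← mul_div_assoc, div_le_div_iff₀ (by positivity) (qR_pow_pos _), one_mul, qR]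
  exact_mod_cast h4

end CwPr

theorem stBig : StBig := by
  intro k _ _ _ c ε hε
  obtain ⟨N, hN⟩ := exists_nat_gt ((c + 1 : ℝ) / ε)
  have h0 : (0 : ℝ) < N := lt_trans (by positivity) hN
  refine ⟨N + c, fun n hn => ?_⟩
  refine (avm_mono (G := fun F => ∑ d ∈ Finset.Icc (n - c) n, ∑ q ∈ PrD k d,
    if q ∣ F then 1 else 0) fun F hF => ?_).trans ?_
  · have p : ∀ d, ∀ q ∈ PrD k d, (0 : ℝ) ≤ if q ∣ F then 1 else 0 := fun _ _ _ => by
      split_ifs <;> norm_num
    split_ifs with h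
    · obtain ⟨q, h1, h2, h3⟩ := h
      have h4 := hF.2 ▸ natDegree_le_of_dvd h2 hF.ne_zero
      refine le_trans ?_ (Finset.single_le_sum (fun d _ => Finset.sum_nonneg (p d))
        (Finset.mem_Icc.2 ⟨by omega, h4⟩))
      exact (if_pos h2).ge.trans (Finset.single_le_sum (p _) (mem_PrD.2 ⟨h1, rfl⟩))
    · exact Finset.sum_nonneg fun d _ => Finset.sum_nonneg (p d)
  · rw [avm_sum]
    refine (Finset.sum_le_card_nsmul _ _ (1 / N : ℝ) fun d hd => ?_).trans ?_
    · obtain ⟨h1, h2⟩ := Finset.mem_Icc.1 hd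
      have h3 : N ≤ d := by omega
      rw [avm_sum, Finset.sum_congr rfl (g := fun q => 1 / Nm q) fun q hq => by
        simpa only [one_mul, avm] using avg_dvd (n := n) (β := 1) (mem_PrD.1 hq).1.1.ne_zero
          ((mem_PrD.1 hq).2.trans_le h2) isCoprime_one_left (X ^ n)]
      exact (CwPr.upper ((Nat.cast_pos.1 h0).trans_le h3)).trans
        (one_div_le_one_div_of_le h0 (by exact_mod_cast h3))
    · rw [Nat.card_Icc, show n + 1 - (n - c) = c + 1 by omega, nsmul_eq_mul, mul_one_div,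
        div_le_iff₀ h0]
      rw [div_lt_iff₀ hε] at hN
      push_cast
      linarith

theorem stNo : StNo := by
  intro k _ _ _ D ε hε
  have t := (not_summable_iff_tendsto_nat_atTop_of_nonneg fun i => by positivity).1
    (mt (summable_nat_add_iff (D + 3)).1 Real.not_summable_one_div_natCast)
  obtain ⟨n, hn⟩ := (t.eventually_ge_atTop (2 * -Real.log ε)).exists
  obtain ⟨P, hP⟩ : ∃ P, P = (Finset.range n).biUnion fun i => PrD k (i + (D + 3)) := ⟨_, rfl⟩
  have m : ∀ p ∈ P, IsP p ∧ D ≤ p.natDegree ∧ p.natDegree ≤ n + (D + 3) := fun p hp => by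
    obtain ⟨i, hi, hp⟩ := Finset.mem_biUnion.1 (hP ▸ hp)
    obtain ⟨h1, h2⟩ := mem_PrD.1 hp
    have := Finset.mem_range.1 hi
    exact ⟨h1, by omega, by omega⟩
  have s : -Real.log ε ≤ ∑ p ∈ P, 1 / Nm p := by
    rw [hP, Finset.sum_biUnion fun i _ j _ h => Finset.disjoint_left.2 fun p a b =>
      h (add_right_cancel ((mem_PrD.1 a).2.symm.trans (mem_PrD.1 b).2))]
    have := hn.trans (Finset.sum_le_sum fun i _ => CwPr.lower (k := k) (by omega))
    rw [← Finset.mul_sum] at this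
    linarith
  refine ⟨n + (D + 3), ∑ p ∈ P, p.natDegree, fun l hl A β hA hD => ?_⟩
  refine (avm_mono (G := fun b => ∏ p ∈ P, (1 - if p ∣ β + A * b then 1 else 0))
    fun b _ => ?_).trans ?_
  · split_ifs with h
    · exact Finset.prod_nonneg fun _ _ => by split_ifs <;> norm_num
    · refine (Finset.prod_eq_one fun p hp => ?_).ge
      rw [if_neg fun c => h ⟨p, (m p hp).1, (m p hp).2.1, (m p hp).2.2, add_comm β _ ▸ c⟩, sub_zero]
  · refine (avg_prod P (fun p => p) (fun p b => 1 - if p ∣ β + A * b then 1 else 0)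
      (fun p hp => (m p hp).1.1.ne_zero)
      (fun p hp q hq h => (m p hp).1.isCoprime (m q hq).1 h) (fun p _ v t => by
        rw [mul_add, ← add_assoc, mul_left_comm]
        simp only [dvd_add_left (dvd_mul_right p _)]) hl (X ^ l)).trans_le ?_
    rw [← Real.exp_log hε]
    refine le_trans ?_ (Real.exp_le_exp.2 (neg_le.1 s))
    rw [← Finset.sum_neg_distrib, Real.exp_sum]
    refine Finset.prod_le_prod (fun _ _ => avg_nonneg fun _ _ => by split_ifs <;> norm_num)
      fun p hp => ?_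
    rw [avg_sub, avg_const, avg_dvd (m p hp).1.1.ne_zero le_rfl
      ((m p hp).1.isCoprime_iff.2 ((m p hp).1.not_dvd_of_lt hA (hD.trans_le (m p hp).2.1)))]
    exact Real.one_sub_le_exp_neg _

end Pool.Agent.Lib.MP_232f4c_nt.Cw
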