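import Mathlib

/-!
Vanishing of correlations along a sequence of scales gives orthogonality to all weights that are
completely deterministic along that sequence.
-/

namespace Pool.Agent.Lib.MP_232f4c_nt

open MeasureTheory Filter Topology Finset Metric
open scoped BoundedContinuousFunction ComplexConjugate

/-- Complete determinism along `N`. -/
def Det (N : ℕ → ℕ) (w : ℕ → ℂ) : Prop :=
  ∀ φ : ℕ → ℕ, StrictMono φ → ∀ μ : Measure (ℤ → ℂ), IsProbabilityMeasure μ →
    (∀ g : (ℤ → ℂ) →ᵇ ℝ, Tendsto (fun k : ℕ => (1 / (N (φ k) : ℝ)) * ∑ n ∈ Finset.Icc 1 (N (φ k)),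
      g (fun j : ℤ => if 0 < j + (n : ℤ) then w (j + (n : ℤ)).toNat else 0))
      atTop (nhds (∫ x, g x ∂μ))) →
    ∀ m : ℕ, ∀ P : (ℤ → ℂ) → Fin m, Measurable P →
      Tendsto (fun r : ℕ => (1 / (r : ℝ)) * ∑ a : Fin r → Fin m, Real.negMulLog
        ((μ {x | ∀ i : Fin r, P (fun j : ℤ => x (j + (i.val : ℤ))) = a i}).toReal)) atTop (nhds 0)

/-- The correlation with shifts `A` and conjugated shifts `B`. -/
noncomputable def corr (u : ℕ → ℂ) (A B : Finset ℕ) (N : ℕ) : ℂ :=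
  (1 / (N : ℂ)) * ∑ n ∈ Icc 1 N, (∏ i ∈ A, u (n + i)) * ∏ i ∈ B, conj (u (n + i))

/-- All correlations with distinct shifts vanish along `N`. -/
def Chow (N : ℕ → ℕ) (u : ℕ → ℂ) : Prop :=
  ∀ A B : Finset ℕ, Disjoint A B → (A ∪ B).Nonempty →
    Tendsto (fun k => corr u A B (N k)) atTop (𝓝 0)

variable {N : ℕ → ℕ} {u w : ℕ → ℂ}

theorem riesz (hN : Tendsto N atTop atTop) (h : Chow N u) (α β : ℕ → ℂ) (C : Finset ℕ) :
    ∀ A B : Finset ℕ, Disjoint A B → Disjoint (A ∪ B) C →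
      Tendsto (fun k => (1 / (N k : ℂ)) * ∑ n ∈ Icc 1 (N k), ((∏ i ∈ A, u (n + i)) *
        ∏ i ∈ B, conj (u (n + i))) * ∏ i ∈ C, (1 + α i * u (n + i) + β i * conj (u (n + i))))
        atTop (𝓝 (if (A ∪ B).Nonempty then 0 else 1)) := by
  induction C using Finset.induction_on with
  | empty =>
    intro A B hAB _
    split_ifs with h1
    · simpa [corr] using h A B hAB h1
    · rw [not_nonempty_iff_eq_empty, union_eq_empty] at h1
      refine tendsto_const_nhds.congr' ?_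
      filter_upwards [hN.eventually_gt_atTop 0] with k hk
      have : (N k : ℂ) ≠ 0 := Nat.cast_ne_zero.2 hk.ne'
      simp [h1.1, h1.2, this]
  | insert j C hj ih =>
    intro A B hAB h1
    rw [disjoint_insert_right, mem_union, not_or] at h1
    have h2 := ih A B hAB h1.2
    have h3 := ih (insert j A) B (disjoint_insert_left.2 ⟨h1.1.2, hAB⟩)
      (by rw [insert_union]; exact disjoint_insert_left.2 ⟨hj, h1.2⟩)
    have h4 := ih A (insert j B) (disjoint_insert_right.2 ⟨h1.1.1, hAB⟩)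
      (by rw [union_insert]; exact disjoint_insert_left.2 ⟨hj, h1.2⟩)
    rw [if_pos (by simp)] at h3 h4
    have h5 := (h2.add (h3.const_mul (α j))).add (h4.const_mul (β j))
    rw [mul_zero, mul_zero, add_zero, add_zero] at h5
    refine h5.congr fun k => ?_
    simp only [prod_insert hj, prod_insert h1.1.1, prod_insert h1.1.2, mul_sum, ← sum_add_distrib]
    exact sum_congr rfl fun n _ => by ring

theorem exp_le_one_add {x : ℝ} (hx : |x| ≤ 1 / 2) : Real.exp (x - 2 * x ^ 2) ≤ 1 + x := by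
  rw [abs_le] at hx
  have h1 := Real.add_one_le_exp (-(x - 2 * x ^ 2))
  have h2 : Real.exp (x - 2 * x ^ 2) * Real.exp (-(x - 2 * x ^ 2)) = 1 := by
    rw [← Real.exp_add, add_neg_cancel, Real.exp_zero]
  have h3 := Real.exp_pos (x - 2 * x ^ 2)
  have h4 : 1 ≤ (1 + x) * Real.exp (-(x - 2 * x ^ 2)) := by
    have : 1 ≤ (1 + x) * (-(x - 2 * x ^ 2) + 1) := by nlinarith [sq_nonneg x]
    nlinarith
  nlinarith

theorem large_dev (hN : Tendsto N atTop atTop) (h : Chow N u) (hu : ∀ n, ‖u n‖ ≤ 1) {c : ℕ → ℂ}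
    (hc : ∀ i, ‖c i‖ ≤ 1) {η : ℝ} (h0 : 0 < η) (h1 : η ≤ 1) (r : ℕ) :
    ∀ᶠ k in atTop, (#{n ∈ Icc 1 (N k) | η * r ≤ ∑ i ∈ range r, (c i * u (n + i)).re} : ℝ) ≤
      2 * Real.exp (-(η ^ 2 * r / 8)) * N k := by
  have h2 := riesz hN h (fun i => (η / 8 : ℝ) * c i) (fun i => (η / 8 : ℝ) * conj (c i)) (range r)
    ∅ ∅ (by simp) (by simp)
  have h3 : ∀ n i, 1 + (η / 8 : ℝ) * c i * u (n + i) + (η / 8 : ℝ) * conj (c i) * conj (u (n + i))
      = ((1 + η / 4 * (c i * u (n + i)).re : ℝ) : ℂ) := fun n i => by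
    have := Complex.add_conj (c i * u (n + i))
    rw [map_mul] at this
    push_cast at this ⊢
    linear_combination (η / 8 : ℂ) * this
  simp only [h3, prod_empty, one_mul, union_empty, Finset.not_nonempty_empty, if_false] at h2
  have h4 : Tendsto (fun k => (1 / (N k : ℝ)) * ∑ n ∈ Icc 1 (N k),
      ∏ i ∈ range r, (1 + η / 4 * (c i * u (n + i)).re)) atTop (𝓝 1) := by
    have := (Complex.continuous_re.tendsto 1).comp h2
    refine this.congr fun k => ?_
    rw [Function.comp_apply, ← Complex.ofReal_re (_ * _ : ℝ)]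
    push_cast
    rfl
  have h5 : ∀ n i, |(c i * u (n + i)).re| ≤ 1 := fun n i => (Complex.abs_re_le_norm _).trans (by
    rw [norm_mul]; exact mul_le_one₀ (hc i) (norm_nonneg _) (hu _))
  have h6 : ∀ n i, |η / 4 * (c i * u (n + i)).re| ≤ η / 4 := fun n i => by
    rw [abs_mul, abs_of_pos (by positivity)]
    exact mul_le_of_le_one_right (by positivity) (h5 n i)
  filter_upwards [h4.eventually (gt_mem_nhds one_lt_two), hN.eventually_gt_atTop 0] with k k1 k2
  have k3 : (0 : ℝ) < N k := Nat.cast_pos.2 k2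
  rw [one_div, inv_mul_lt_iff₀ k3] at k1
  have k4 : (#{n ∈ Icc 1 (N k) | η * r ≤ ∑ i ∈ range r, (c i * u (n + i)).re} : ℝ) *
      Real.exp (η ^ 2 * r / 8) ≤ ∑ n ∈ Icc 1 (N k),
        ∏ i ∈ range r, (1 + η / 4 * (c i * u (n + i)).re) := by
    rw [← nsmul_eq_mul]
    refine (card_nsmul_le_sum _ _ _ fun n hn => ?_).trans (sum_le_sum_of_subset_of_nonneg
      (filter_subset _ _) fun n _ _ => prod_nonneg fun i _ => ?_)
    · refine le_trans ?_ (prod_le_prod (fun i _ => (Real.exp_pos _).le)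
        fun i _ => exp_le_one_add ((h6 n i).trans (by linarith)))
      rw [← Real.exp_sum, Real.exp_le_exp, sum_sub_distrib, ← mul_sum]
      have k5 : ∑ i ∈ range r, 2 * (η / 4 * (c i * u (n + i)).re) ^ 2 ≤ r * (η ^ 2 / 8) := by
        refine (sum_le_card_nsmul _ _ (η ^ 2 / 8) fun i _ => ?_).trans (by simp)
        have := sq_le_sq' (abs_le.1 (h6 n i)).1 (abs_le.1 (h6 n i)).2
        linarith
      have k6 := mul_le_mul_of_nonneg_left (mem_filter.1 hn).2 (by positivity : 0 ≤ η / 4)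
      nlinarith
    · have := (abs_le.1 (h6 n i)).1
      linarith
  rw [Real.exp_neg, mul_assoc, mul_left_comm, ← div_eq_inv_mul, le_div_iff₀ (Real.exp_pos _)]
  linarith

theorem few_words {A : Type*} [Fintype A] [DecidableEq A] {p : A → ℝ} (h0 : ∀ a, 0 ≤ p a)
    (h1 : ∑ a, p a = 1) {δ t : ℝ} (ht : 0 < t) (h : ∑ a, Real.negMulLog (p a) ≤ δ * t) :
    ∃ G : Finset A, (#G : ℝ) ≤ Real.exp t ∧ ∑ a ∈ Gᶜ, p a ≤ δ := by
  refine ⟨univ.filter fun a => Real.exp (-t) ≤ p a, ?_, ?_⟩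
  · have h2 := (card_nsmul_le_sum ({a | Real.exp (-t) ≤ p a} : Finset A) p _
      fun a ha => (mem_filter.1 ha).2).trans
      (sum_le_sum_of_subset_of_nonneg (subset_univ _) fun a _ _ => h0 a)
    rw [h1, nsmul_eq_mul, ← le_div_iff₀ (Real.exp_pos _), one_div, ← Real.exp_neg, neg_neg] at h2
    exact h2
  · refine le_of_mul_le_mul_right (le_trans ?_ h) ht
    rw [sum_mul]
    refine (sum_le_sum fun a ha => ?_).trans (sum_le_sum_of_subset_of_nonneg (subset_univ _)
      fun a _ _ => Real.negMulLog_nonneg (h0 a)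
        (h1 ▸ single_le_sum (fun a _ => h0 a) (mem_univ a)))
    rcases (h0 a).eq_or_lt with h3 | h3
    · simp [← h3]
    · have h4 : p a < Real.exp (-t) := by simpa using ha
      have h5 := (Real.log_lt_iff_lt_exp h3).2 h4
      rw [Real.negMulLog]
      nlinarith

theorem exists_net {δ : ℝ} (hδ : 0 < δ) : ∃ (e : ℕ → ℂ) (M : ℕ) (q : ℂ → Fin (M + 1)),
    Measurable q ∧ (∀ j, ‖e j‖ ≤ 1) ∧ ∀ z : ℂ, ‖z‖ ≤ 1 → ‖z - e (q z)‖ < δ := by
  let d := TopologicalSpace.denseSeq (closedBall (0 : ℂ) 1)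
  obtain ⟨s, hs⟩ := (isCompact_closedBall (0 : ℂ) 1).elim_finite_subcover
    (fun j => ball (d j : ℂ) δ) (fun j => isOpen_ball) fun z hz => by
      obtain ⟨j, hj⟩ := (TopologicalSpace.denseRange_denseSeq _).exists_dist_lt (⟨z, hz⟩ :
        closedBall (0 : ℂ) 1) hδ
      exact Set.mem_iUnion.2 ⟨j, hj⟩
  refine ⟨fun j => d j, s.sup id, fun z => ⟨SimpleFunc.nearestPtInd (fun j => (d j : ℂ)) (s.sup id) z,
    Nat.lt_succ_of_le (SimpleFunc.nearestPtInd_le _ _ _)⟩, ?_,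
    fun j => mem_closedBall_zero_iff.1 (d j).2, fun z hz => ?_⟩
  · refine measurable_to_countable' fun b => ?_
    convert (SimpleFunc.nearestPtInd (fun j => (d j : ℂ)) (s.sup id)).measurableSet_fiber b using 1
    ext z
    simp [Fin.ext_iff]
  · obtain ⟨j, h1, h2⟩ := Set.mem_iUnion₂.1 (hs (mem_closedBall_zero_iff.2 hz))
    have h3 := SimpleFunc.edist_nearestPt_le (fun j => (d j : ℂ)) z (le_sup (f := id) h1)
    rw [edist_dist, edist_dist, ENNReal.ofReal_le_ofReal_iff dist_nonneg] at h3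
    rw [← dist_eq_norm, dist_comm]
    exact h3.trans_lt (mem_ball'.1 h2)

open Classical in
/-- Most blocks of a deterministic weight are close to one of few words. -/
theorem cover (hN : Tendsto N atTop atTop) (hw : ∀ n, ‖w n‖ ≤ 1) (hd : Det N w) {Q : ℕ → Prop}
    (hQ : ∃ᶠ k in atTop, Q k) {δ : ℝ} (hδ : 0 < δ) :
    ∀ᶠ r : ℕ in atTop, ∃ G : Finset (ℕ → ℂ), (∀ c ∈ G, ∀ i, ‖c i‖ ≤ 1) ∧ (#G : ℝ) ≤ Real.exp (δ * r) ∧
      ∃ᶠ k in atTop, Q k ∧
        (#{n ∈ Icc 1 (N k) | ∀ c ∈ G, ∃ i < r, δ ≤ ‖w (n + i) - c i‖} : ℝ) ≤ 2 * δ * N k := by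
  obtain ⟨φ, hφ, h1⟩ := extraction_of_frequently_atTop
    (hQ.and_eventually (hN.eventually_gt_atTop 0))
  let W : ℕ → ℤ → closedBall (0 : ℂ) 1 := fun n j =>
    ⟨if 0 < j + (n : ℤ) then w (j + (n : ℤ)).toNat else 0, by
      rw [mem_closedBall_zero_iff]
      split_ifs
      exacts [hw _, by simp]⟩
  let ν : ℕ → ProbabilityMeasure (ℤ → closedBall (0 : ℂ) 1) := fun k =>
    ⟨(N (φ k) : ENNReal)⁻¹ • ∑ n ∈ Icc 1 (N (φ k)), Measure.dirac (W n), ⟨by
      simpa using ENNReal.inv_mul_cancel (Nat.cast_ne_zero.2 (h1 k).2.ne') (by simp)⟩⟩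
  obtain ⟨ν₀, ψ, hψ, h2⟩ := CompactSpace.tendsto_subseq ν
  let ι : C(ℤ → closedBall (0 : ℂ) 1, ℤ → ℂ) := ⟨fun x j => x j, by fun_prop⟩
  have hι : Measurable ι := ι.continuous.measurable
  have hp : IsProbabilityMeasure ((ν₀ : Measure _).map ι) :=
    Measure.isProbabilityMeasure_map hι.aemeasurable
  obtain ⟨e, M, q, q1, q2, q3⟩ := exists_net hδ
  have h3 := hd (φ ∘ ψ) (hφ.comp hψ) _ hp (fun g => ?_) (M + 1) (fun x => q (x 0))
    (q1.comp (measurable_pi_apply 0))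
  swap
  · rw [integral_map hι.aemeasurable g.continuous.aestronglyMeasurable]
    refine (ProbabilityMeasure.tendsto_iff_forall_integral_tendsto.1 h2
      (g.compContinuous ι)).congr fun k => ?_
    simp only [ν, Function.comp_apply, ProbabilityMeasure.coe_mk, integral_smul_measure]
    rw [integral_finsetSum_measure fun n _ => (g.compContinuous ι).integrable _]
    simp [W, ι]
  filter_upwards [h3.eventually (gt_mem_nhds (mul_pos hδ hδ)), eventually_gt_atTop 0] with r r1 r2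
  have r3 : (0 : ℝ) < r := Nat.cast_pos.2 r2
  let Φ : (ℤ → ℂ) → Fin r → Fin (M + 1) := fun x i => q (x i.val)
  have hΦ : ∀ a, MeasurableSet (Φ ⁻¹' {a}) := fun a =>
    (measurable_pi_lambda Φ fun i => q1.comp (measurable_pi_apply _)) (measurableSet_singleton a)
  have r4 : ∀ a, {x : ℤ → ℂ | ∀ i : Fin r, q (x (0 + (i.val : ℤ))) = a i} = Φ ⁻¹' {a} := fun a => by
    ext x
    simp [Φ, funext_iff]
  rw [one_div, inv_mul_lt_iff₀ r3] at r1
  obtain ⟨G, g1, g2⟩ := few_words (p := fun a => ((ν₀ : Measure _).map ι).real (Φ ⁻¹' {a}))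
    (fun a => measureReal_nonneg) (by rw [sum_measureReal_preimage_singleton _ fun a _ => hΦ a]; simp)
    (mul_pos hδ r3) (δ := δ) (by
      refine le_trans (le_of_eq (sum_congr rfl fun a _ => ?_)) (r1.le.trans_eq (by ring))
      rw [measureReal_def, ← r4 a])
  rw [sum_measureReal_preimage_singleton _ fun a _ => hΦ a] at g2
  let c : (Fin r → Fin (M + 1)) → ℕ → ℂ := fun a i => if h : i < r then e (a ⟨i, h⟩) else 0
  refine ⟨G.image c, ?_, (Nat.cast_le.2 card_image_le).trans g1, ?_⟩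
  · intro c' hc' i
    obtain ⟨a, -, rfl⟩ := mem_image.1 hc'
    simp only [c]
    split_ifs
    exacts [q2 _, by simp]
  let F : Set (ℤ → closedBall (0 : ℂ) 1) :=
    ⋂ a ∈ G, ⋃ i : Fin r, {x | δ ≤ ‖(x i.val : ℂ) - e (a i)‖}
  have f1 : IsClosed F := isClosed_biInter fun a _ => isClosed_iUnion_of_finite fun i =>
    isClosed_le continuous_const (by fun_prop)
  have f2 : (ν₀ : Measure _) F < ENNReal.ofReal (2 * δ) := by
    have m1 : MeasurableSet (Φ ⁻¹' (↑(Gᶜ) : Set _)) := by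
      rw [← Finset.set_biUnion_preimage_singleton]
      exact Finset.measurableSet_biUnion _ fun a _ => hΦ a
    rw [map_measureReal_apply hι m1] at g2
    refine (measure_mono (t := ι ⁻¹' (Φ ⁻¹' (↑(Gᶜ) : Set _))) fun x hx => ?_).trans_lt ?_
    · simp only [Set.mem_preimage, mem_coe, mem_compl]
      intro hG
      obtain ⟨i, hi⟩ := Set.mem_iUnion.1 (Set.mem_iInter₂.1 hx _ hG)
      exact (q3 _ (mem_closedBall_zero_iff.1 (x i.val).2)).not_ge hi
    · rw [← ofReal_measureReal, ENNReal.ofReal_lt_ofReal_iff (by positivity)]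
      linarith
  have f3 := eventually_lt_of_limsup_lt
    ((ProbabilityMeasure.limsup_measure_closed_le_of_tendsto h2 f1).trans_lt f2)
  refine (hφ.comp hψ).tendsto_atTop.frequently (f3.frequently.mono fun k hk => ⟨(h1 _).1, ?_⟩)
  have k1 : (0 : ℝ) < N (φ (ψ k)) := Nat.cast_pos.2 (h1 _).2
  have k2 := ENNReal.toReal_le_of_le_ofReal (by positivity) hk.le
  simp only [ν, Function.comp_apply, ProbabilityMeasure.coe_mk, Measure.smul_apply, smul_eq_mul,
    Measure.finsetSum_apply, ENNReal.toReal_mul, ENNReal.toReal_inv, ENNReal.toReal_natCast] at k2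
  rw [inv_mul_le_iff₀ k1, ENNReal.toReal_sum fun n _ => measure_ne_top _ _, mul_comm] at k2
  refine le_trans ?_ k2
  rw [Function.comp_apply, card_eq_sum_ones, Nat.cast_sum]
  refine (sum_le_sum fun n hn => ?_).trans (sum_le_sum_of_subset_of_nonneg (filter_subset _ _)
    fun n _ _ => ENNReal.toReal_nonneg)
  rw [mem_filter, mem_Icc] at hn
  rw [Measure.dirac_apply_of_mem, Nat.cast_one, ENNReal.toReal_one]
  refine Set.mem_iInter₂.2 fun a ha => ?_
  obtain ⟨i, hi, h4⟩ := hn.2 _ (mem_image_of_mem c ha)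
  refine Set.mem_iUnion.2 ⟨⟨i, hi⟩, ?_⟩
  have h5 : 0 < (i : ℤ) + n := by omega
  have h6 : ((i : ℤ) + n).toNat = n + i := by omega
  simpa [W, c, hi, h5, h6] using h4

theorem shift_le {y : ℕ → ℝ} (hy : ∀ n, |y n| ≤ 1) (M i : ℕ) :
    ∑ n ∈ Icc 1 M, y n ≤ ∑ n ∈ Icc 1 M, y (n + i) + 2 * i := by
  induction i with
  | zero => simp
  | succ i ih =>
    have h1 : ∑ n ∈ Icc 1 M, (y (n + (i + 1)) - y (n + i)) = y (M + 1 + i) - y (1 + i) := by
      have := sum_Ico_sub (fun n => y (n + i)) (Nat.le_add_left 1 M)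
      rw [← this, ← Finset.Ico_add_one_right_eq_Icc]
      exact sum_congr rfl fun n _ => by rw [add_right_comm, add_assoc]
    rw [sum_sub_distrib] at h1
    have h2 := abs_le.1 (hy (M + 1 + i))
    have h3 := abs_le.1 (hy (1 + i))
    push_cast
    linarith

theorem re_le (hN : Tendsto N atTop atTop) (h : Chow N u) (hu : ∀ n, ‖u n‖ ≤ 1)
    (hw : ∀ n, ‖w n‖ ≤ 1) (hd : Det N w) {θ : ℂ} (hθ : ‖θ‖ ≤ 1) {η : ℝ} (h0 : 0 < η) (h1 : η ≤ 1) :
    ∀ᶠ k in atTop, ∑ n ∈ Icc 1 (N k), (θ * (u n * w n)).re ≤ 6 * η * N k := by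
  classical
  by_contra h2
  rw [not_eventually] at h2
  have h3 : Tendsto (fun r : ℕ => 2 * Real.exp (-(η ^ 2 / 16 * r))) atTop (𝓝 0) := by
    simpa using (Real.tendsto_exp_neg_atTop_nhds_zero.comp (tendsto_natCast_atTop_atTop.const_mul_atTop
      (by positivity : 0 < η ^ 2 / 16))).const_mul 2
  obtain ⟨r, ⟨⟨G, g1, g2, g3⟩, r1⟩, r2⟩ := (((cover hN hw hd h2 (by positivity : 0 < η ^ 2 / 16)).and
    (h3.eventually (gt_mem_nhds h0))).and (eventually_gt_atTop 0)).exists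
  have r3 : (0 : ℝ) < r := Nat.cast_pos.2 r2
  have g4 := (eventually_all_finset G).2 fun c hc => large_dev hN h hu (c := fun i => θ * c i)
    (fun i => by rw [norm_mul]; exact mul_le_one₀ hθ (norm_nonneg _) (g1 c hc i)) h0 h1 r
  have g5 : ∀ᶠ k in atTop, 2 * r / η ≤ (N k : ℝ) :=
    (tendsto_natCast_atTop_atTop.comp hN).eventually_ge_atTop _
  obtain ⟨k, ⟨k1, k2⟩, k3, k4⟩ := (g3.and_eventually (g4.and g5)).exists
  rw [div_le_iff₀ h0] at k4
  have hy : ∀ n, |(θ * (u n * w n)).re| ≤ 1 := fun n => (Complex.abs_re_le_norm _).trans (by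
    rw [norm_mul, norm_mul]
    exact mul_le_one₀ hθ (by positivity) (mul_le_one₀ (hu n) (norm_nonneg _) (hw n)))
  set F := {n ∈ Icc 1 (N k) | ∀ c ∈ G, ∃ i < r, η ^ 2 / 16 ≤ ‖w (n + i) - c i‖}
  set B := fun c : ℕ → ℂ =>
    {n ∈ Icc 1 (N k) | η * r ≤ ∑ i ∈ range r, (θ * c i * u (n + i)).re}
  have k5 : (#(F ∪ G.biUnion B) : ℝ) ≤ 2 * η * N k := by
    have e1 : (#(F ∪ G.biUnion B) : ℝ) ≤ #F + ∑ c ∈ G, (#(B c) : ℝ) := by
      exact_mod_cast (card_union_le _ _).trans (Nat.add_le_add_left card_biUnion_le _)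
    have e2 := (sum_le_card_nsmul _ _ _ k3).trans ((nsmul_eq_mul _ _).le.trans
      (mul_le_mul_of_nonneg_right g2 (by positivity)))
    have e3 : Real.exp (η ^ 2 / 16 * r) * (2 * Real.exp (-(η ^ 2 * r / 8)) * N k) =
        2 * Real.exp (-(η ^ 2 / 16 * r)) * N k := by
      rw [show -(η ^ 2 / 16 * r) = η ^ 2 / 16 * r + -(η ^ 2 * r / 8) by ring, Real.exp_add]
      ring
    have e4 : (0 : ℝ) ≤ N k := Nat.cast_nonneg _
    have e5 := mul_le_mul_of_nonneg_right r1.le e4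
    have e6 := mul_le_mul_of_nonneg_right (by nlinarith : 2 * (η ^ 2 / 16) ≤ η) e4
    linarith
  have k6 : ∀ n ∈ Icc 1 (N k), ∑ i ∈ range r, (θ * (u (n + i) * w (n + i))).re ≤
      2 * η * r + if n ∈ F ∪ G.biUnion B then (r : ℝ) else 0 := by
    intro n hn
    split_ifs with e1
    · have := sum_le_card_nsmul (range r) _ 1 fun i _ => (abs_le.1 (hy (n + i))).2
      simp only [card_range, nsmul_eq_mul, mul_one] at this
      have : 0 ≤ 2 * η * r := by positivity
      linarith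
    · simp only [mem_union, mem_biUnion, F, B, mem_filter, hn, true_and] at e1
      push Not at e1
      obtain ⟨⟨c, c1, c2⟩, c3⟩ := e1
      have e2 : ∀ i ∈ range r, (θ * (u (n + i) * w (n + i))).re ≤ (θ * c i * u (n + i)).re + η := by
        intro i hi
        have e3 : θ * (u (n + i) * w (n + i)) =
            θ * c i * u (n + i) + θ * u (n + i) * (w (n + i) - c i) := by ring
        have e4 : ‖θ * u (n + i) * (w (n + i) - c i)‖ ≤ η := by
          rw [norm_mul, norm_mul]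
          refine (mul_le_of_le_one_left (norm_nonneg _)
            (mul_le_one₀ hθ (norm_nonneg _) (hu _))).trans ((c2 i (mem_range.1 hi)).le.trans ?_)
          nlinarith
        rw [e3, Complex.add_re]
        linarith [Complex.re_le_norm (θ * u (n + i) * (w (n + i) - c i))]
      have e5 := sum_le_sum e2
      rw [sum_add_distrib, sum_const, card_range, nsmul_eq_mul] at e5
      linarith [c3 c c1]
  have k7 := sum_le_sum k6
  rw [sum_comm, sum_add_distrib, sum_const, sum_ite_mem, sum_const, Nat.card_Icc, nsmul_eq_mul,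
    nsmul_eq_mul, Nat.add_sub_cancel] at k7
  have k8 : (#(Icc 1 (N k) ∩ (F ∪ G.biUnion B)) : ℝ) ≤ 2 * η * N k :=
    (Nat.cast_le.2 (card_le_card inter_subset_right)).trans k5
  have k9 := sum_le_sum fun i (hi : i ∈ range r) => (shift_le hy (N k) i).trans
    (add_le_add_right (mul_le_mul_of_nonneg_left (Nat.cast_le.2 (mem_range.1 hi).le) zero_le_two) _)
  rw [sum_add_distrib, sum_const, sum_const, card_range, nsmul_eq_mul, nsmul_eq_mul] at k9
  refine k1 (le_of_mul_le_mul_left ?_ r3)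
  have := mul_le_mul_of_nonneg_right k8 r3.le
  have := mul_le_mul_of_nonneg_right k4 r3.le
  have : 0 ≤ η * N k * r := by positivity
  nlinarith

theorem orth (hN : Tendsto N atTop atTop) (h : Chow N u) (hu : ∀ n, ‖u n‖ ≤ 1)
    (hw : ∀ n, ‖w n‖ ≤ 1) (hd : Det N w) :
    Tendsto (fun k => (1 / (N k : ℂ)) * ∑ n ∈ Icc 1 (N k), u n * w n) atTop (𝓝 0) := by
  rw [NormedAddGroup.tendsto_nhds_zero]
  intro ε hε
  have h0 : 0 < min (ε / 13) 1 := lt_min (by positivity) one_pos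
  have h1 := fun (θ : ℂ) (hθ : ‖θ‖ ≤ 1) => re_le hN h hu hw hd hθ h0 (min_le_right _ _)
  filter_upwards [h1 1 (by simp), h1 (-1) (by simp), h1 Complex.I (by simp),
    h1 (-Complex.I) (by simp), hN.eventually_gt_atTop 0] with k k1 k2 k3 k4 k5
  rw [← Complex.re_sum, ← mul_sum] at k1 k2 k3 k4
  have k6 : (0 : ℝ) < N k := Nat.cast_pos.2 k5
  rw [norm_mul, norm_div, norm_one, Complex.norm_natCast, one_div, inv_mul_lt_iff₀ k6]
  generalize ∑ n ∈ Icc 1 (N k), u n * w n = z at k1 k2 k3 k4 ⊢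
  simp only [one_mul, neg_mul, Complex.neg_re, Complex.I_mul_re, neg_neg] at k1 k2 k3 k4
  have k7 := Complex.norm_le_abs_re_add_abs_im z
  have k8 := abs_le.2 ⟨neg_le.1 k2, k1⟩
  have k9 := abs_le.2 ⟨neg_le.1 k3, k4⟩
  have := mul_le_mul_of_nonneg_right (min_le_left (ε / 13) 1) k6.le
  have := mul_pos hε k6
  nlinarith

end Pool.Agent.Lib.MP_232f4c_nt
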