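import Pool.Agent.Lib.MP_232f4c_nt.Det

/-!
Vanishing of correlations gives orthogonality to all completely deterministic weights:
the version for a countable abelian group, averaging sets `I j` that are eventually invariant under
every translation, and windows `R r`.
-/

namespace Pool.Agent.Lib.MP_232f4c_nt.Ff

open MeasureTheory Filter Topology Finset Metric
open scoped BoundedContinuousFunction ComplexConjugate Classical

variable {G : Type} [AddCommGroup G]

/-- Complete determinism along the averaging sets `I`, entropy computed along the windows `R`. -/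
def Det (I R : ℕ → Finset G) (w : G → ℂ) : Prop :=
  ∀ φ : ℕ → ℕ, StrictMono φ → ∀ μ : Measure (G → ℂ), IsProbabilityMeasure μ →
    (∀ g : (G → ℂ) →ᵇ ℝ, Tendsto (fun j : ℕ => (∑ F ∈ I (φ j), g fun h => w (F + h)) /
      (#(I (φ j)) : ℝ)) atTop (𝓝 (∫ x, g x ∂μ))) →
    ∀ m : ℕ, ∀ P : (G → ℂ) → Fin m, Measurable P →
      Tendsto (fun r : ℕ => (∑ᶠ a : R r → Fin m, Real.negMulLog
        (μ {x | ∀ y : R r, P (fun h => x (h + y)) = a y}).toReal) / (#(R r) : ℝ)) atTop (𝓝 0)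

/-- All correlations with distinct shifts vanish along `I`. -/
def Chow (I : ℕ → Finset G) (u : G → ℂ) : Prop :=
  ∀ A B : Finset G, Disjoint A B → A.Nonempty ∨ B.Nonempty →
    Tendsto (fun j => (∑ F ∈ I j, (∏ i ∈ A, u (F + i)) * ∏ i ∈ B, conj (u (F + i))) / (#(I j) : ℂ))
      atTop (𝓝 0)

variable {I R : ℕ → Finset G} {u w : G → ℂ}

theorem riesz (hI : ∀ j, (I j).Nonempty) (h : Chow I u) (α β : G → ℂ) (C : Finset G) :
    ∀ A B : Finset G, Disjoint A B → Disjoint (A ∪ B) C →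
      Tendsto (fun j => (∑ n ∈ I j, ((∏ i ∈ A, u (n + i)) * ∏ i ∈ B, conj (u (n + i))) *
        ∏ i ∈ C, (1 + α i * u (n + i) + β i * conj (u (n + i)))) / (#(I j) : ℂ))
        atTop (𝓝 (if (A ∪ B).Nonempty then 0 else 1)) := by
  induction C using Finset.induction_on with
  | empty =>
    intro A B hAB _
    split_ifs with h1
    · simpa using h A B hAB (union_nonempty.1 h1)
    · rw [not_nonempty_iff_eq_empty, union_eq_empty] at h1
      refine tendsto_const_nhds.congr fun j => ?_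
      have : (#(I j) : ℂ) ≠ 0 := Nat.cast_ne_zero.2 (hI j).card_pos.ne'
      simp [h1.1, h1.2, this]
  | insert j C hj ih =>
    intro A B hAB h1
    rw [disjoint_insert_right, mem_union, not_or] at h1
    have h2 := ih A B hAB h1.2
    have h3 := ih (insert j A) B (disjoint_insert_left.2 ⟨h1.1.2, hAB⟩)
      (by rw [insert_union]; exact disjoint_insert_left.2 ⟨hj, h1.2⟩)
    have h4 := ih A (insert j B) (disjoint_insert_right.2 ⟨h1.1.1, hAB⟩)
      (by rw [union_insert]; exact disjoint_insert_left.2 ⟨hj, h1.2⟩)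
    rw [if_pos (by simp)] at h3 h4
    have h5 := (h2.add (h3.const_mul (α j))).add (h4.const_mul (β j))
    rw [mul_zero, mul_zero, add_zero, add_zero] at h5
    refine h5.congr fun k => ?_
    simp only [prod_insert hj, prod_insert h1.1.1, prod_insert h1.1.2, ← mul_div_assoc, ← add_div,
      mul_sum, ← sum_add_distrib]
    exact congrArg (· / _) (sum_congr rfl fun n _ => by ring)

theorem large_dev (hI : ∀ j, (I j).Nonempty) (h : Chow I u) (hu : ∀ n, ‖u n‖ ≤ 1) {c : G → ℂ}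
    (hc : ∀ i, ‖c i‖ ≤ 1) {η : ℝ} (h0 : 0 < η) (h1 : η ≤ 1) (C : Finset G) :
    ∀ᶠ k in atTop, (#{n ∈ I k | η * #C ≤ ∑ i ∈ C, (c i * u (n + i)).re} : ℝ) ≤
      2 * Real.exp (-(η ^ 2 * #C / 8)) * #(I k) := by
  have h2 := riesz hI h (fun i => (η / 8 : ℝ) * c i) (fun i => (η / 8 : ℝ) * conj (c i)) C
    ∅ ∅ (by simp) (by simp)
  have h3 : ∀ n i, 1 + (η / 8 : ℝ) * c i * u (n + i) + (η / 8 : ℝ) * conj (c i) * conj (u (n + i))
      = ((1 + η / 4 * (c i * u (n + i)).re : ℝ) : ℂ) := fun n i => by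
    have := Complex.add_conj (c i * u (n + i))
    rw [map_mul] at this
    push_cast at this ⊢
    linear_combination (η / 8 : ℂ) * this
  simp only [h3, prod_empty, one_mul, union_empty, Finset.not_nonempty_empty, if_false] at h2
  have h4 : Tendsto (fun k => (∑ n ∈ I k, ∏ i ∈ C, (1 + η / 4 * (c i * u (n + i)).re)) /
      (#(I k) : ℝ)) atTop (𝓝 1) := by
    have := (Complex.continuous_re.tendsto 1).comp h2
    refine this.congr fun k => ?_
    rw [Function.comp_apply, ← Complex.ofReal_natCast, Complex.div_ofReal_re, Complex.re_sum]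
    simp only [← Complex.ofReal_prod, Complex.ofReal_re]
  have h5 : ∀ n i, |(c i * u (n + i)).re| ≤ 1 := fun n i => (Complex.abs_re_le_norm _).trans (by
    rw [norm_mul]; exact mul_le_one₀ (hc i) (norm_nonneg _) (hu _))
  have h6 : ∀ n i, |η / 4 * (c i * u (n + i)).re| ≤ η / 4 := fun n i => by
    rw [abs_mul, abs_of_pos (by positivity)]
    exact mul_le_of_le_one_right (by positivity) (h5 n i)
  filter_upwards [h4.eventually (gt_mem_nhds one_lt_two)] with k k1
  have k3 : (0 : ℝ) < #(I k) := Nat.cast_pos.2 (hI k).card_pos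
  rw [div_lt_iff₀ k3] at k1
  have k4 : (#{n ∈ I k | η * #C ≤ ∑ i ∈ C, (c i * u (n + i)).re} : ℝ) *
      Real.exp (η ^ 2 * #C / 8) ≤ ∑ n ∈ I k, ∏ i ∈ C, (1 + η / 4 * (c i * u (n + i)).re) := by
    rw [← nsmul_eq_mul]
    refine (card_nsmul_le_sum _ _ _ fun n hn => ?_).trans (sum_le_sum_of_subset_of_nonneg
      (filter_subset _ _) fun n _ _ => prod_nonneg fun i _ => ?_)
    · refine le_trans ?_ (prod_le_prod (fun i _ => (Real.exp_pos _).le)
        fun i _ => exp_le_one_add ((h6 n i).trans (by linarith)))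
      rw [← Real.exp_sum, Real.exp_le_exp, sum_sub_distrib, ← mul_sum]
      have k5 : ∑ i ∈ C, 2 * (η / 4 * (c i * u (n + i)).re) ^ 2 ≤ #C * (η ^ 2 / 8) := by
        refine (sum_le_card_nsmul _ _ (η ^ 2 / 8) fun i _ => ?_).trans (by simp)
        have := sq_le_sq' (abs_le.1 (h6 n i)).1 (abs_le.1 (h6 n i)).2
        linarith
      have k6 := mul_le_mul_of_nonneg_left (mem_filter.1 hn).2 (by positivity : 0 ≤ η / 4)
      nlinarith
    · have := (abs_le.1 (h6 n i)).1
      linarith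
  rw [Real.exp_neg, mul_assoc, mul_left_comm, ← div_eq_inv_mul, le_div_iff₀ (Real.exp_pos _)]
  linarith

/-- Most blocks of a deterministic weight are close to one of few words. -/
theorem cover [Countable G] (hI : ∀ j, (I j).Nonempty) (hR : ∀ r, (R r).Nonempty)
    (hw : ∀ n, ‖w n‖ ≤ 1) (hd : Det I R w) {Q : ℕ → Prop} (hQ : ∃ᶠ k in atTop, Q k) {δ : ℝ}
    (hδ : 0 < δ) :
    ∀ᶠ r : ℕ in atTop, ∃ T : Finset (G → ℂ), (∀ c ∈ T, ∀ i, ‖c i‖ ≤ 1) ∧
      (#T : ℝ) ≤ Real.exp (δ * #(R r)) ∧ ∃ᶠ k in atTop, Q k ∧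
        (#{n ∈ I k | ∀ c ∈ T, ∃ i ∈ R r, δ ≤ ‖w (n + i) - c i‖} : ℝ) ≤ 2 * δ * #(I k) := by
  obtain ⟨φ, hφ, h1⟩ := extraction_of_frequently_atTop hQ
  let W : G → G → closedBall (0 : ℂ) 1 := fun n j => ⟨w (n + j), mem_closedBall_zero_iff.2 (hw _)⟩
  let ν : ℕ → ProbabilityMeasure (G → closedBall (0 : ℂ) 1) := fun k =>
    ⟨(#(I (φ k)) : ENNReal)⁻¹ • ∑ n ∈ I (φ k), Measure.dirac (W n), ⟨by
      simpa using ENNReal.inv_mul_cancel (Nat.cast_ne_zero.2 (hI _).card_pos.ne') (by simp)⟩⟩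
  obtain ⟨ν₀, ψ, hψ, h2⟩ := CompactSpace.tendsto_subseq ν
  let ι : C(G → closedBall (0 : ℂ) 1, G → ℂ) := ⟨fun x j => x j, by fun_prop⟩
  have hι : Measurable ι := ι.continuous.measurable
  have hp : IsProbabilityMeasure ((ν₀ : Measure _).map ι) :=
    Measure.isProbabilityMeasure_map hι.aemeasurable
  obtain ⟨e, M, q, q1, q2, q3⟩ := exists_net hδ
  have h3 := hd (φ ∘ ψ) (hφ.comp hψ) _ hp (fun g => ?_) (M + 1) (fun x => q (x 0))
    (q1.comp (measurable_pi_apply 0))
  swap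
  · rw [integral_map hι.aemeasurable g.continuous.aestronglyMeasurable]
    refine (ProbabilityMeasure.tendsto_iff_forall_integral_tendsto.1 h2
      (g.compContinuous ι)).congr fun k => ?_
    simp only [ν, Function.comp_apply, ProbabilityMeasure.coe_mk, integral_smul_measure]
    rw [integral_finsetSum_measure fun n _ => (g.compContinuous ι).integrable _]
    simp [W, ι, div_eq_inv_mul]
  filter_upwards [h3.eventually (gt_mem_nhds (mul_pos hδ hδ))] with r r1
  have r3 : (0 : ℝ) < #(R r) := Nat.cast_pos.2 (hR r).card_pos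
  let Φ : (G → ℂ) → R r → Fin (M + 1) := fun x i => q (x i.val)
  have hΦ : ∀ a, MeasurableSet (Φ ⁻¹' {a}) := fun a =>
    (measurable_pi_lambda Φ fun i => q1.comp (measurable_pi_apply _)) (measurableSet_singleton a)
  have r4 : ∀ a, {x : G → ℂ | ∀ i : R r, q (x (0 + i.val)) = a i} = Φ ⁻¹' {a} := fun a => by
    ext x
    simp only [Φ, Set.mem_ofPred_eq, zero_add, Set.mem_preimage, Set.mem_singleton_iff, funext_iff]
  rw [div_lt_iff₀ r3, finsum_eq_sum_of_fintype] at r1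
  obtain ⟨T, g1, g2⟩ := few_words (p := fun a => ((ν₀ : Measure _).map ι).real (Φ ⁻¹' {a}))
    (fun a => measureReal_nonneg) (by rw [sum_measureReal_preimage_singleton _ fun a _ => hΦ a]; simp)
    (mul_pos hδ r3) (δ := δ) (by
      refine le_trans (le_of_eq (sum_congr rfl fun a _ => ?_)) (r1.le.trans_eq (by ring))
      rw [measureReal_def, ← r4 a])
  rw [sum_measureReal_preimage_singleton _ fun a _ => hΦ a] at g2
  let c : (R r → Fin (M + 1)) → G → ℂ := fun a i => if h : i ∈ R r then e (a ⟨i, h⟩) else 0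
  refine ⟨T.image c, ?_, (Nat.cast_le.2 card_image_le).trans g1, ?_⟩
  · intro c' hc' i
    obtain ⟨a, -, rfl⟩ := mem_image.1 hc'
    simp only [c]
    split_ifs
    exacts [q2 _, by simp]
  let F : Set (G → closedBall (0 : ℂ) 1) :=
    ⋂ a ∈ T, ⋃ i : R r, {x | δ ≤ ‖(x i.val : ℂ) - e (a i)‖}
  have f1 : IsClosed F := isClosed_biInter fun a _ => isClosed_iUnion_of_finite fun i =>
    isClosed_le continuous_const (by fun_prop)
  have f2 : (ν₀ : Measure _) F < ENNReal.ofReal (2 * δ) := by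
    have m1 : MeasurableSet (Φ ⁻¹' (↑(Tᶜ) : Set _)) := by
      rw [← Finset.set_biUnion_preimage_singleton]
      exact Finset.measurableSet_biUnion _ fun a _ => hΦ a
    rw [map_measureReal_apply hι m1] at g2
    refine (measure_mono (t := ι ⁻¹' (Φ ⁻¹' (↑(Tᶜ) : Set _))) fun x hx => ?_).trans_lt ?_
    · simp only [Set.mem_preimage, mem_coe, mem_compl]
      intro hG
      obtain ⟨i, hi⟩ := Set.mem_iUnion.1 (Set.mem_iInter₂.1 hx _ hG)
      exact (q3 _ (mem_closedBall_zero_iff.1 (x i.val).2)).not_ge hi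
    · rw [← ofReal_measureReal, ENNReal.ofReal_lt_ofReal_iff (by positivity)]
      linarith
  have f3 := eventually_lt_of_limsup_lt
    ((ProbabilityMeasure.limsup_measure_closed_le_of_tendsto h2 f1).trans_lt f2)
  refine (hφ.comp hψ).tendsto_atTop.frequently (f3.frequently.mono fun k hk => ⟨h1 _, ?_⟩)
  have k1 : (0 : ℝ) < #(I (φ (ψ k))) := Nat.cast_pos.2 (hI _).card_pos
  have k2 := ENNReal.toReal_le_of_le_ofReal (by positivity) hk.le
  simp only [ν, Function.comp_apply, ProbabilityMeasure.coe_mk, Measure.smul_apply, smul_eq_mul,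
    Measure.finsetSum_apply, ENNReal.toReal_mul, ENNReal.toReal_inv, ENNReal.toReal_natCast] at k2
  rw [inv_mul_le_iff₀ k1, ENNReal.toReal_sum fun n _ => measure_ne_top _ _, mul_comm] at k2
  refine le_trans ?_ k2
  rw [Function.comp_apply, card_eq_sum_ones, Nat.cast_sum]
  refine (sum_le_sum fun n hn => ?_).trans (sum_le_sum_of_subset_of_nonneg (filter_subset _ _)
    fun n _ _ => ENNReal.toReal_nonneg)
  rw [mem_filter] at hn
  rw [Measure.dirac_apply_of_mem, Nat.cast_one, ENNReal.toReal_one]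
  refine Set.mem_iInter₂.2 fun a ha => ?_
  obtain ⟨i, hi, h4⟩ := hn.2 _ (mem_image_of_mem c ha)
  refine Set.mem_iUnion.2 ⟨⟨i, hi⟩, ?_⟩
  simpa [W, c, hi] using h4

theorem re_le [Countable G] (hI : ∀ j, (I j).Nonempty) (hR : ∀ r, (R r).Nonempty)
    (hR' : Tendsto (fun r => (#(R r) : ℝ)) atTop atTop)
    (hs : ∀ i, ∀ᶠ k in atTop, ∀ y : G → ℝ, ∑ n ∈ I k, y (n + i) = ∑ n ∈ I k, y n)
    (h : Chow I u) (hu : ∀ n, ‖u n‖ ≤ 1) (hw : ∀ n, ‖w n‖ ≤ 1) (hd : Det I R w) {θ : ℂ}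
    (hθ : ‖θ‖ ≤ 1) {η : ℝ} (h0 : 0 < η) (h1 : η ≤ 1) :
    ∀ᶠ k in atTop, ∑ n ∈ I k, (θ * (u n * w n)).re ≤ 6 * η * #(I k) := by
  by_contra h2
  rw [not_eventually] at h2
  have h3 : Tendsto (fun r : ℕ => 2 * Real.exp (-(η ^ 2 / 16 * #(R r)))) atTop (𝓝 0) := by
    simpa using (Real.tendsto_exp_neg_atTop_nhds_zero.comp (hR'.const_mul_atTop
      (by positivity : 0 < η ^ 2 / 16))).const_mul 2
  obtain ⟨r, ⟨T, g1, g2, g3⟩, r1⟩ := ((cover hI hR hw hd h2 (by positivity : 0 < η ^ 2 / 16)).and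
    (h3.eventually (gt_mem_nhds h0))).exists
  have r3 : (0 : ℝ) < #(R r) := Nat.cast_pos.2 (hR r).card_pos
  have g4 := (eventually_all_finset T).2 fun c hc => large_dev hI h hu (c := fun i => θ * c i)
    (fun i => by rw [norm_mul]; exact mul_le_one₀ hθ (norm_nonneg _) (g1 c hc i)) h0 h1 (R r)
  have g5 := (eventually_all_finset (R r)).2 fun i _ => hs i
  obtain ⟨k, ⟨k1, k2⟩, k3, k4⟩ := (g3.and_eventually (g4.and g5)).exists
  have hy : ∀ n, |(θ * (u n * w n)).re| ≤ 1 := fun n => (Complex.abs_re_le_norm _).trans (by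
    rw [norm_mul, norm_mul]
    exact mul_le_one₀ hθ (by positivity) (mul_le_one₀ (hu n) (norm_nonneg _) (hw n)))
  set F := {n ∈ I k | ∀ c ∈ T, ∃ i ∈ R r, η ^ 2 / 16 ≤ ‖w (n + i) - c i‖}
  set B := fun c : G → ℂ => {n ∈ I k | η * #(R r) ≤ ∑ i ∈ R r, (θ * c i * u (n + i)).re}
  have e4 : (0 : ℝ) ≤ #(I k) := Nat.cast_nonneg _
  have k5 : (#(F ∪ T.biUnion B) : ℝ) ≤ 2 * η * #(I k) := by
    have e1 : (#(F ∪ T.biUnion B) : ℝ) ≤ #F + ∑ c ∈ T, (#(B c) : ℝ) := by
      exact_mod_cast (card_union_le _ _).trans (Nat.add_le_add_left card_biUnion_le _)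
    have e2 := (sum_le_card_nsmul _ _ _ k3).trans ((nsmul_eq_mul _ _).le.trans
      (mul_le_mul_of_nonneg_right g2 (by positivity)))
    have e3 : Real.exp (η ^ 2 / 16 * #(R r)) * (2 * Real.exp (-(η ^ 2 * #(R r) / 8)) * #(I k)) =
        2 * Real.exp (-(η ^ 2 / 16 * #(R r))) * #(I k) := by
      rw [show -(η ^ 2 / 16 * #(R r)) = η ^ 2 / 16 * #(R r) + -(η ^ 2 * #(R r) / 8) by ring,
        Real.exp_add]
      ring
    have e5 := mul_le_mul_of_nonneg_right r1.le e4
    have e6 := mul_le_mul_of_nonneg_right (by nlinarith : 2 * (η ^ 2 / 16) ≤ η) e4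
    linarith
  have k6 : ∀ n ∈ I k, ∑ i ∈ R r, (θ * (u (n + i) * w (n + i))).re ≤
      2 * η * #(R r) + if n ∈ F ∪ T.biUnion B then (#(R r) : ℝ) else 0 := by
    intro n hn
    split_ifs with e1
    · have := sum_le_card_nsmul (R r) _ 1 fun i _ => (abs_le.1 (hy (n + i))).2
      simp only [nsmul_eq_mul, mul_one] at this
      have : 0 ≤ 2 * η * #(R r) := by positivity
      linarith
    · simp only [mem_union, mem_biUnion, F, B, mem_filter, hn, true_and] at e1
      push Not at e1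
      obtain ⟨⟨c, c1, c2⟩, c3⟩ := e1
      have e2 : ∀ i ∈ R r, (θ * (u (n + i) * w (n + i))).re ≤ (θ * c i * u (n + i)).re + η := by
        intro i hi
        have e3 : θ * (u (n + i) * w (n + i)) =
            θ * c i * u (n + i) + θ * u (n + i) * (w (n + i) - c i) := by ring
        have e4 : ‖θ * u (n + i) * (w (n + i) - c i)‖ ≤ η := by
          rw [norm_mul, norm_mul]
          refine (mul_le_of_le_one_left (norm_nonneg _)
            (mul_le_one₀ hθ (norm_nonneg _) (hu _))).trans ((c2 i hi).le.trans ?_)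
          nlinarith
        rw [e3, Complex.add_re]
        linarith [Complex.re_le_norm (θ * u (n + i) * (w (n + i) - c i))]
      have e5 := sum_le_sum e2
      rw [sum_add_distrib, sum_const, nsmul_eq_mul] at e5
      linarith [c3 c c1]
  have k7 := sum_le_sum k6
  rw [sum_comm, sum_add_distrib, sum_const, sum_ite_mem, sum_const, nsmul_eq_mul, nsmul_eq_mul,
    sum_congr rfl fun i hi => k4 i hi fun n => (θ * (u n * w n)).re, sum_const,
    nsmul_eq_mul] at k7
  have k8 : (#(I k ∩ (F ∪ T.biUnion B)) : ℝ) ≤ 2 * η * #(I k) :=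
    (Nat.cast_le.2 (card_le_card inter_subset_right)).trans k5
  refine k1 (le_of_mul_le_mul_left ?_ r3)
  have := mul_le_mul_of_nonneg_right k8 r3.le
  have : 0 ≤ η * #(I k) * #(R r) := by positivity
  nlinarith

theorem orth [Countable G] (hI : ∀ j, (I j).Nonempty) (hR : ∀ r, (R r).Nonempty)
    (hR' : Tendsto (fun r => (#(R r) : ℝ)) atTop atTop)
    (hs : ∀ i, ∀ᶠ k in atTop, ∀ y : G → ℝ, ∑ n ∈ I k, y (n + i) = ∑ n ∈ I k, y n)
    (h : Chow I u) (hu : ∀ n, ‖u n‖ ≤ 1) (hw : ∀ n, ‖w n‖ ≤ 1) (hd : Det I R w) :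
    Tendsto (fun k => (∑ n ∈ I k, u n * w n) / (#(I k) : ℂ)) atTop (𝓝 0) := by
  rw [NormedAddGroup.tendsto_nhds_zero]
  intro ε hε
  have h0 : 0 < min (ε / 13) 1 := lt_min (by positivity) one_pos
  have h1 := fun (θ : ℂ) (hθ : ‖θ‖ ≤ 1) => re_le hI hR hR' hs h hu hw hd hθ h0 (min_le_right _ _)
  filter_upwards [h1 1 (by simp), h1 (-1) (by simp), h1 Complex.I (by simp),
    h1 (-Complex.I) (by simp)] with k k1 k2 k3 k4
  rw [← Complex.re_sum, ← mul_sum] at k1 k2 k3 k4
  have k6 : (0 : ℝ) < #(I k) := Nat.cast_pos.2 (hI k).card_pos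
  rw [norm_div, Complex.norm_natCast, div_lt_iff₀ k6]
  generalize ∑ n ∈ I k, u n * w n = z at k1 k2 k3 k4 ⊢
  simp only [one_mul, neg_mul, Complex.neg_re, Complex.I_mul_re, neg_neg] at k1 k2 k3 k4
  have k7 := Complex.norm_le_abs_re_add_abs_im z
  have k8 := abs_le.2 ⟨neg_le.1 k2, k1⟩
  have k9 := abs_le.2 ⟨neg_le.1 k3, k4⟩
  have := mul_le_mul_of_nonneg_right (min_le_left (ε / 13) 1) k6.le
  have := mul_pos hε k6
  nlinarith

end Pool.Agent.Lib.MP_232f4c_nt.Ff
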