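import Pool.Agent.Lib.MP_232f4c_nt.FfTK
import Pool.Agent.Lib.MP_232f4c_nt.CwDefs2

/-!
Correlations of multiplicative functions that pretend to be a character or the Liouville function
times a character.
-/

namespace Pool.Agent.Lib.MP_232f4c_nt.Ff

open Polynomial Pool.Agent.Lib.MP_9227d9_nt.Mob Filter Topology

open scoped Classical ComplexConjugate

variable {k : Type} [Field k] [Fintype k]

theorem avm_split {A : k[X]} (hA : A.Monic) (n : ℕ) (Φ : k[X] → ℝ) :
    avm (A.natDegree + n) Φ = avg A.natDegree fun r => avm n fun G => Φ (r + A * G) := by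
  have h1 : MD (A.natDegree + n) (A * X ^ n) :=
    MD.mul ⟨hA, rfl⟩ ⟨monic_X_pow n, natDegree_X_pow n⟩
  rw [← avm_shift h1.degree_sub, avm, avg_split hA.ne_zero]
  refine avg_congr fun r _ => avg_congr fun t _ => congrArg Φ ?_
  ring

/-- The function on rough numbers. -/
noncomputable def gg (ε : ℂ) (ξ : k[X] →* ℂ) (F : k[X]) : ℂ :=
  (if ε = -1 then ((mu F : ℝ) : ℂ) else 1) * ξ F

omit [Fintype k] in
theorem norm_gg_le {ε : ℂ} {ξ : k[X] →* ℂ} (hξ : ∀ F, ‖ξ F‖ ≤ 1) (W F : k[X]) :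
    ‖(if ε = -1 then ((mu W : ℝ) : ℂ) else 1) * ξ F‖ ≤ 1 := by
  rw [norm_mul]
  refine mul_le_one₀ ?_ (norm_nonneg _) (hξ F)
  split_ifs
  · rw [Complex.norm_real]
    exact abs_mu_le W
  · simp

theorem approx' {f : k[X] → ℂ} {ε : ℂ} {ξ : k[X] →* ℂ} (hf : ∀ F, ‖f F‖ ≤ 1)
    (hm : ∀ F G : k[X], F.Monic → G.Monic → IsCoprime F G → f (F * G) = f F * f G)
    (hξ : ∀ F, ‖ξ F‖ ≤ 1) (hε : ε = 1 ∨ ε = -1)
    (hs : Summable fun P : {P : k[X] // P.Monic ∧ Irreducible P} =>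
      (1 - (ε * f P * conj (ξ P)).re) / (Fintype.card k : ℝ) ^ P.1.natDegree)
    {η : ℝ} (hη : 0 < η) : ∀ᶠ y in atTop, ∀ n, ∃ c : ℂ, ‖c‖ ≤ 1 ∧
      avm n (fun F => ‖f F - md y c f (gg ε ξ) F‖) ≤ η := by
  have h0 : 0 < min (η / 20) (η ^ 2 / 64) := lt_min (by positivity) (by positivity)
  obtain ⟨s, hs'⟩ := summable_iff_vanishing_norm.1 hs _ h0
  have h1 : Tendsto (fun y : ℕ => 1 / qR k ^ y) atTop (𝓝 0) :=
    tendsto_const_nhds.div_atTop (tendsto_pow_atTop_atTop_of_one_lt (one_lt_two.trans_le two_le_qR))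
  filter_upwards [h1.eventually (gt_mem_nhds (by positivity : 0 < η / 8)),
    eventually_ge_atTop (s.sup fun P => P.1.natDegree)] with y y1 y2 n
  have hga : ∀ S : Finset k[X], (∀ p ∈ S, IsP p) →
      gg ε ξ (∏ p ∈ S, p) = ∏ p ∈ S, ε * ξ p := fun S hS => by
    rw [gg, map_prod, Finset.prod_mul_distrib, Finset.prod_const]
    rcases hε with rfl | rfl
    · rw [if_neg (by norm_num), one_pow]
    · rw [if_pos rfl, mu_prod hS]
      push_cast
      rfl
  have hτ : ∑ p ∈ (PrL k (n + 1)).filter (fun p => y < p.natDegree),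
      (1 - (f p * conj (ε * ξ p)).re) / Nm p ≤ min (η / 20) (η ^ 2 / 64) := by
    have h2 := hs' (((PrL k (n + 1)).filter fun p => y < p.natDegree).subtype _)
      (Finset.disjoint_left.2 fun P h3 h4 => (Finset.mem_filter.1 (Finset.mem_subtype.1 h3)).2.not_ge
        ((Finset.le_sup (f := fun P : {P : k[X] // P.Monic ∧ Irreducible P} => P.1.natDegree)
          h4).trans y2))
    rw [Finset.sum_subtype_of_mem (p := fun P : k[X] => P.Monic ∧ Irreducible P)
      (fun P : k[X] => (1 - (ε * f P * conj (ξ P)).re) / (Fintype.card k : ℝ) ^ P.natDegree)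
      fun p hp => (mem_PrL.1 (Finset.mem_filter.1 hp).1).1] at h2
    refine le_trans (le_of_eq (Finset.sum_congr rfl fun p _ => ?_)) ((le_abs_self _).trans h2.le)
    rcases hε with rfl | rfl <;> simp [Nm, qR]
  obtain ⟨c, c1, c2⟩ := approx hf (fun F => norm_gg_le hξ F F)
    (fun F => by rcases hε with rfl | rfl <;> simpa using hξ F) hm hga y n
    (by positivity : 0 < η / 8) hτ
  refine ⟨c, c1, c2.trans ?_⟩
  have h2 : 2 * min (η / 20) (η ^ 2 / 64) / (η / 8) ≤ η / 4 := by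
    rw [div_le_iff₀ (by positivity)]
    linarith [min_le_right (η / 20) (η ^ 2 / 64)]
  linarith [min_le_left (η / 20) (η ^ 2 / 64)]

variable [CharP k 2] {ι : Type} [Fintype ι] {a b : ι → k[X]} {f : ι → k[X] → ℂ} {ε : ι → ℂ}
  {ξ : ι → k[X] →* ℂ} {M : k[X]} {l : ℕ}

/-- The model on one residue class. -/
theorem cls (hC : Cw.StCwL) (ha : ∀ i, (a i).Monic)
    (hab : ∀ i j, i ≠ j → a i * b j ≠ a j * b i) (hf : ∀ i F, ‖f i F‖ ≤ 1)
    (hξ : ∀ i F, ‖ξ i F‖ ≤ 1) (hξ' : ∀ (i : ι) (F t : k[X]), F.Monic →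
      (M * t).natDegree + l < F.natDegree → ξ i (F + M * t) = ξ i F) (hε : ∃ i, ε i = -1)
    {y : ℕ} {A : k[X]} (hA : A.Monic) (hd : QQ k y ^ (2 * y + 3) * M ∣ A)
    (hsm : ∀ i p, IsP p → p ∣ a i * A → p.natDegree ≤ y) (r : k[X]) {η : ℝ} (hη : 0 < η) :
    ∀ᶠ m : ℕ in atTop, ∀ (θ : ℂ) (c : ι → ℂ), ‖θ‖ ≤ 1 → (∀ i, ‖c i‖ ≤ 1) →
      avm (2 * m + 1) (fun G => (θ * ∏ i, md y (c i) (f i) (gg (ε i) (ξ i))
        (a i * (r + A * G) + b i)).re) ≤ η := by
  obtain ⟨u, hu⟩ := hd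
  choose v hv using fun i => sp_dvd y (a i * r + b i)
  obtain ⟨d, hd⟩ : ∃ d : ι → k[X], ∀ i, sp y (a i * r + b i) = d i := ⟨_, fun _ => rfl⟩
  obtain ⟨ρ, hρ⟩ : ∃ ρ : ι → k[X], ∀ i, rp y (a i * r + b i) = ρ i := ⟨_, fun _ => rfl⟩
  obtain ⟨e, he⟩ : ∃ e : ι → k[X], ∀ i, e i = QQ k y * (M * (u * a i * v i)) := ⟨_, fun _ => rfl⟩
  have h1 : ∀ i, d i * ρ i = a i * r + b i := fun i => hd i ▸ hρ i ▸ sp_mul_rp y _
  have h2 : ∀ i, (d i).Monic := fun i => hd i ▸ sp_monic y _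
  have h3 : ∀ i, d i * e i = a i * A := fun i => by
    rw [he, hu, pow_succ, hv i, hd]
    ring
  have h4 : ∀ i, (e i).Monic := fun i => (h2 i).of_mul_monic_left (h3 i ▸ (ha i).mul hA)
  have h5 : ∀ i G, sp y (a i * (r + A * G) + b i) = d i := fun i G =>
    (gcd_eq_of_dvd_sub_left ⟨QQ k y * M * u * a i * G, by rw [hu]; ring⟩).trans (hd i)
  have h6 : ∀ i G, rp y (a i * (r + A * G) + b i) = ρ i + e i * G := fun i G => by
    refine mul_left_cancel₀ (h2 i).ne_zero ?_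
    have e1 := sp_mul_rp y (a i * (r + A * G) + b i)
    rw [h5] at e1
    linear_combination e1 - h1 i - G * h3 i
  choose V W hV hW hWs hVW using fun i => exists_sq_mul (h4 i)
  have : Nonempty {i // ε i = -1} := nonempty_subtype.2 hε
  have h7 := hC k {i // ε i = -1} (fun i => V i * W i) (fun i => W i * ρ i)
    (fun i => (hV i).mul (hW i)) (fun i j hij h => hab i j (fun h' => hij (Subtype.ext h')) (by
      refine mul_left_cancel₀ (mul_ne_zero hA.ne_zero (mul_ne_zero (hW i).ne_zero (hW j).ne_zero)) ?_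
      have e1 := h3 i
      have e2 := h3 j
      rw [hVW] at e1 e2
      linear_combination d i * d j * h - W i * W j * d j * ρ j * e1 - W i * W j * a i * A * h1 j
        + W i * W j * d i * ρ i * e2 + W i * W j * a j * A * h1 i)) l
  have h8 : ∀ᶠ m : ℕ in atTop, ∀ i, (ρ i).natDegree ≤ m :=
    eventually_all.2 fun i => eventually_ge_atTop _
  filter_upwards [h7.eventually (gt_mem_nhds hη), h8] with m m1 m2 θ c hθ hc
  obtain ⟨ω, hω⟩ : ∃ ω : k[X] → ℝ, ∀ G, ω G = (θ * ∏ i, if IsCoprime (ρ i) (QQ k y) then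
      c i * f i (d i) * ((if ε i = -1 then ((mu (W i) : ℝ) : ℂ) else 1) * ξ i (ρ i + e i * G))
      else 0).re := ⟨_, fun _ => rfl⟩
  have w1 : ∀ G, |ω G| ≤ 1 := fun G => by
    rw [hω]
    refine (Complex.abs_re_le_norm _).trans ?_
    rw [norm_mul]
    refine mul_le_one₀ hθ (norm_nonneg _) (norm_prod_le_one _ fun i _ => ?_)
    by_cases h : IsCoprime (ρ i) (QQ k y)
    · rw [if_pos h, norm_mul, norm_mul]
      exact mul_le_one₀ (mul_le_one₀ (hc i) (norm_nonneg _) (hf _ _)) (norm_nonneg _)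
        (norm_gg_le (hξ i) _ _)
    · simp [h]
  have w2 : ∀ G s : k[X], MD (2 * m + 1) G → s.degree < (m - l : ℕ) → ω (G + s ^ 2) = ω G := by
    intro G s hG hs
    by_cases h0 : s = 0
    · simp [h0]
    have s1 := natDegree_lt_of_degree h0 hs
    have s2 : ∀ i, ξ i (ρ i + e i * (G + s ^ 2)) = ξ i (ρ i + e i * G) := fun i => by
      have s3 := (MD.mul ⟨h4 i, rfl⟩ hG).add (v := ρ i)
        (degree_lt_of_natDegree fun _ => by have := m2 i; omega)
      have s4 : M * (QQ k y * (u * a i * v i) * s ^ 2) = e i * s ^ 2 := by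
        rw [he]
        ring
      have s5 := hξ' i _ (QQ k y * (u * a i * v i) * s ^ 2) s3.1 (by
        rw [s3.2, s4, natDegree_mul (h4 i).ne_zero (pow_ne_zero 2 h0), natDegree_pow]
        omega)
      rw [s4] at s5
      rw [add_comm (ρ i) (e i * G), ← s5]
      congr 1
      ring
    simp only [hω, s2]
  have w3 : ∀ G, (θ * ∏ i, md y (c i) (f i) (gg (ε i) (ξ i)) (a i * (r + A * G) + b i)).re =
      ω G * ∏ j : {i // ε i = -1}, mu ((V j * W j) ^ 2 * G + W j * ρ j) := fun G => by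
    rw [hω, ← Complex.re_mul_ofReal, mul_assoc, Complex.ofReal_prod,
      ← Finset.prod_subtype (Finset.univ.filter fun i => ε i = -1) (by simp)
        fun j => ((mu ((V j * W j) ^ 2 * G + W j * ρ j) : ℝ) : ℂ), Finset.prod_filter,
      ← Finset.prod_mul_distrib]
    refine congrArg (fun z => (θ * z).re) (Finset.prod_congr rfl fun i _ => ?_)
    have c1 : IsCoprime (ρ i + e i * G) (QQ k y) ↔ IsCoprime (ρ i) (QQ k y) := by
      rw [he, mul_assoc, IsCoprime.add_mul_left_left_iff]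
    rw [md, h5, h6, gg, if_congr c1 rfl rfl]
    split_ifs with c2 c3
    · have c4 : IsCoprime (W i) (ρ i + e i * G) := by
        by_contra c5
        obtain ⟨p, p1, p2, p3⟩ := exists_isP_of_not_isCoprime (hW i).ne_zero c5
        refine p1.2.not_isUnit ((c1.2 c2).isUnit_of_dvd' p3 ((dvd_QQ p1).2 (hsm i p p1 ?_)))
        rw [← h3, hVW]
        exact (p2.mul_left _).mul_left _
      have c5 : (V i * W i) ^ 2 * G + W i * ρ i = W i * (ρ i + e i * G) := by
        rw [hVW]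
        ring
      have c6 := mu_sq (W i)
      rw [if_pos (hWs i)] at c6
      have c7 : ((mu (W i) : ℝ) : ℂ) ^ 2 = 1 := by exact_mod_cast c6
      rw [c5, mu_mul c4]
      push_cast
      linear_combination (-(c i * f i (d i) * mu (ρ i + e i * G) * ξ i (ρ i + e i * G))) * c7
    all_goals simp
  simp only [w3]
  rw [avm_avg_shift (m - l) (fun s => s ^ 2) fun s hs => by
    simpa using degree_mul_sq_lt (a := 1) (n := 2 * m + 1) hs (by simp; omega)]
  refine le_trans (avm_mono fun G hG => ?_) m1.le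
  rw [avg_congr (G := fun s => ω G * ∏ j : {i // ε i = -1},
    mu ((V j * W j) ^ 2 * (G + s ^ 2) + W j * ρ j)) fun s hs => by rw [w2 G s hG hs], avg_mul_left]
  refine (le_abs_self _).trans ?_
  rw [abs_mul]
  exact mul_le_of_le_one_left (abs_nonneg _) (w1 G)

/-- The correlations vanish. -/
theorem ell (hC : Cw.StCwL) (hT : Cw.StTr) (ha : ∀ i, (a i).Monic)
    (hab : ∀ i j, i ≠ j → a i * b j ≠ a j * b i) (hf : ∀ i F, ‖f i F‖ ≤ 1)
    (hm : ∀ (i : ι) (F G : k[X]), F.Monic → G.Monic → IsCoprime F G → f i (F * G) = f i F * f i G)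
    (hM : M.Monic) (hξ : ∀ i F, ‖ξ i F‖ ≤ 1) (hξ' : ∀ (i : ι) (F t : k[X]), F.Monic →
      (M * t).natDegree + l < F.natDegree → ξ i (F + M * t) = ξ i F)
    (hε : ∀ i, ε i = 1 ∨ ε i = -1) (hε' : ∃ i, ε i = -1)
    (hs : ∀ i, Summable fun P : {P : k[X] // P.Monic ∧ Irreducible P} =>
      (1 - (ε i * f i P * conj (ξ i P)).re) / (Fintype.card k : ℝ) ^ P.1.natDegree) :
    Tendsto (fun n : ℕ => (∑ F ∈ (Mo k n).filter (fun F => F.natDegree = n),
      ∏ i, f i (a i * F + b i)) / (Fintype.card k : ℂ) ^ n) atTop (𝓝 0) := by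
  rw [NormedAddGroup.tendsto_nhds_zero]
  intro η hη
  have hK : 0 ≤ ∑ i, Nm (a i) := Finset.sum_nonneg fun i _ => (Nm_pos _).le
  have h0 : 0 < η / (∑ i, Nm (a i) + 2) := by positivity
  obtain ⟨y, ⟨y1, y2⟩, y3, y4⟩ := (((eventually_all.2 fun i =>
    approx' (hf i) (hm i) (hξ i) (hε i) (hs i) h0).and (eventually_all.2 fun i =>
    eventually_ge_atTop (a i).natDegree)).and ((eventually_ge_atTop M.natDegree).and
    (eventually_ge_atTop 1))).exists
  have hE : (QQ k y ^ (2 * y + 3) * M).Monic := ((QQ_monic y).pow _).mul hM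
  have h1 : ∀ δ : ℕ, ∀ᶠ m : ℕ in atTop, ∀ (θ : ℂ) (c : ι → ℂ), ‖θ‖ ≤ 1 → (∀ i, ‖c i‖ ≤ 1) →
      avm ((QQ k y ^ (2 * y + 3) * M).natDegree + δ + (2 * m + 1)) (fun F =>
        (θ * ∏ i, md y (c i) (f i) (gg (ε i) (ξ i)) (a i * F + b i)).re) ≤
        η / (∑ i, Nm (a i) + 2) := fun δ => by
    have hA := hE.mul (monic_X_pow δ)
    have h2 := (eventually_all_finset (Pn k (QQ k y ^ (2 * y + 3) * M * X ^ δ).natDegree)).2
      fun r _ => cls hC ha hab hf hξ hξ' hε' hA (dvd_mul_right _ _) (fun i p hp hd => ?_) r h0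
    · filter_upwards [h2] with m hm θ c hθ hc
      rw [← natDegree_X_pow (R := k) δ, ← hE.natDegree_mul (monic_X_pow δ), avm_split hA]
      exact avg_le_of_le fun r hr => hm r (mem_Pn.2 hr) θ c hθ hc
    · rcases hp.prime.dvd_or_dvd hd with h | h
      · exact (natDegree_le_of_dvd h (ha i).ne_zero).trans (y2 i)
      rcases hp.prime.dvd_or_dvd h with h | h
      · rcases hp.prime.dvd_or_dvd h with h | h
        · exact (dvd_QQ hp).1 (hp.prime.dvd_of_dvd_pow h)
        · exact (natDegree_le_of_dvd h hM.ne_zero).trans y3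
      · exact (natDegree_le_of_dvd (hp.prime.dvd_of_dvd_pow h) X_ne_zero).trans
          (natDegree_X_le.trans y4)
  obtain ⟨m₀, h2⟩ := eventually_atTop.1 ((h1 0).and (h1 1))
  have h3 : ∀ᶠ n : ℕ in atTop, ∀ i, (b i).natDegree < n :=
    eventually_all.2 fun i => eventually_gt_atTop _
  filter_upwards [eventually_ge_atTop ((QQ k y ^ (2 * y + 3) * M).natDegree + 2 * m₀ + 2), h3]
    with n n1 n2
  choose c c1 c2 using fun i => y1 i ((a i).natDegree + n)
  obtain ⟨θ, t1, t2⟩ := Complex.exists_norm_eq_mul_self ((∑ F ∈ (Mo k n).filter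
    (fun F => F.natDegree = n), ∏ i, f i (a i * F + b i)) / (Fintype.card k : ℂ) ^ n)
  have h4 : avm n (fun F => (θ * ∏ i, md y (c i) (f i) (gg (ε i) (ξ i)) (a i * F + b i)).re) ≤
      η / (∑ i, Nm (a i) + 2) := by
    generalize (QQ k y ^ (2 * y + 3) * M).natDegree = D at h2 n1
    obtain ⟨m, hm | hm⟩ := Nat.even_or_odd' (n - D - 1)
    · rw [show n = D + 0 + (2 * m + 1) by omega]
      exact (h2 m (by omega)).1 θ c t1.le c1
    · rw [show n = D + 1 + (2 * m + 1) by omega]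
      exact (h2 m (by omega)).2 θ c t1.le c1
  have h5 : ∑ i, avm n (fun F => ‖f i (a i * F + b i) -
      md y (c i) (f i) (gg (ε i) (ξ i)) (a i * F + b i)‖) ≤
      (∑ i, Nm (a i)) * (η / (∑ i, Nm (a i) + 2)) := by
    rw [Finset.sum_mul]
    exact Finset.sum_le_sum fun i _ => (hT k n (a i) (b i) _ (ha i)
      (degree_lt_of_natDegree fun _ => by have := n2 i; omega) fun _ => norm_nonneg _).trans
      (mul_le_mul_of_nonneg_left (c2 i) (Nm_pos _).le)
  have h6 := congrArg Complex.re t2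
  rw [Complex.ofReal_re, ← mul_div_assoc, ← Complex.ofReal_natCast, ← Complex.ofReal_pow,
    Complex.div_ofReal_re, Finset.mul_sum, Complex.re_sum] at h6
  have h7 : avm n (fun F => (θ * ∏ i, f i (a i * F + b i)).re) ≤
      η / (∑ i, Nm (a i) + 2) + (∑ i, Nm (a i)) * (η / (∑ i, Nm (a i) + 2)) := by
    refine le_trans ?_ (add_le_add h4 h5)
    rw [← avm_sum, ← avm_add]
    refine avm_mono fun F _ => ?_
    refine le_trans ?_ (add_le_add_right (norm_prod_sub_le Finset.univ _ _ (fun i _ => hf i _)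
      fun i _ => norm_md_le (g := gg (ε i) (ξ i)) (c1 i) (hf i)
        fun F => norm_gg_le (hξ i) F F) _)
    rw [← sub_le_iff_le_add', ← Complex.sub_re, ← mul_sub]
    refine (Complex.re_le_norm _).trans ?_
    rw [norm_mul, t1, one_mul]
  rw [avm_eq_sum] at h7
  rw [← Complex.ofReal_natCast, ← Complex.ofReal_pow, h6]
  refine h7.trans_lt ?_
  rw [← one_add_mul, ← mul_div_assoc, div_lt_iff₀ (by positivity)]
  nlinarith

end Pool.Agent.Lib.MP_232f4c_nt.Ff
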