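import Pool.Agent.Lib.MP_232f4c_nt.FfEll
import Pool.Agent.Lib.MP_232f4c_nt.FfDet

/-!
Orthogonality to completely deterministic weights over `k[X]`.
-/

namespace Pool.Agent.Lib.MP_232f4c_nt.Ff

open Polynomial Pool.Agent.Lib.MP_9227d9_nt.Mob Filter Topology MeasureTheory

open scoped Classical ComplexConjugate BoundedContinuousFunction

variable {k : Type} [Field k] [Fintype k]

theorem countable_poly (k : Type) [Field k] [Fintype k] : Countable k[X] := by
  rw [← Set.countable_univ_iff]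
  refine (Set.countable_iUnion fun n : ℕ => (finite_degree_lt k n).countable).mono fun f _ => ?_
  exact Set.mem_iUnion.2 ⟨f.natDegree + 1, degree_le_natDegree.trans_lt
    (by exact_mod_cast Nat.lt_succ_self _)⟩

theorem finsum_monic {R : Type} [AddCommMonoid R] (n : ℕ) (Φ : k[X] → R) :
    ∑ᶠ F ∈ {F : k[X] | F.Monic ∧ F.natDegree = n}, Φ F =
      ∑ F ∈ (Mo k n).filter (fun F => F.natDegree = n), Φ F := by
  rw [← finsum_mem_coe_finset]
  refine finsum_mem_congr (Set.ext fun F => ?_) fun _ _ => rfl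
  simp only [Finset.coe_filter, mem_Mo, Set.mem_ofPred_eq]
  exact ⟨fun h => ⟨⟨h.1, h.2.le⟩, h.2⟩, fun h => ⟨h.1.1, h.2⟩⟩

theorem card_monic (n : ℕ) :
    ((Mo k n).filter fun F => F.natDegree = n).card = Fintype.card k ^ n := by
  have := card_MD (k := k) n n le_rfl
  unfold qR at this
  exact_mod_cast this

theorem sarnak [CharP k 2] (hC : Cw.StCwL) (hT : Cw.StTr) {f : k[X] → ℂ} {ξ : k[X] →* ℂ} {M : k[X]}
    {l : ℕ} (hf : ∀ F, ‖f F‖ ≤ 1)
    (hm : ∀ F G : k[X], F.Monic → G.Monic → IsCoprime F G → f (F * G) = f F * f G)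
    (hM : M.Monic) (hξ : ∀ F, ‖ξ F‖ ≤ 1) (hξ' : ∀ F t : k[X], F.Monic →
      (M * t).natDegree + l < F.natDegree → ξ (F + M * t) = ξ F)
    (hs : Summable fun P : {P : k[X] // P.Monic ∧ Irreducible P} =>
      (1 + (f P * conj (ξ P)).re) / (Fintype.card k : ℝ) ^ P.1.natDegree)
    {N : ℕ → ℕ} (hN : Tendsto N atTop atTop) {w : k[X] → ℂ} (hw : ∀ F, ‖w F‖ ≤ 1)
    (hd : ∀ φ : ℕ → ℕ, StrictMono φ → ∀ μ : Measure (k[X] → ℂ), IsProbabilityMeasure μ →
      (∀ g : (k[X] → ℂ) →ᵇ ℝ, Tendsto (fun j : ℕ =>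
        (∑ᶠ F ∈ {F : k[X] | F.Monic ∧ F.natDegree = N (φ j)}, g fun h => w (F + h)) /
          (Fintype.card k : ℝ) ^ N (φ j)) atTop (𝓝 (∫ x, g x ∂μ))) →
      ∀ m : ℕ, ∀ P : (k[X] → ℂ) → Fin m, Measurable P →
        Tendsto (fun r : ℕ => (∑ᶠ a : degreeLT k r → Fin m, Real.negMulLog
          (μ {x | ∀ y : degreeLT k r, P (fun h => x (h + y)) = a y}).toReal) /
            (Fintype.card k : ℝ) ^ r) atTop (𝓝 0)) :
    Tendsto (fun j : ℕ => (∑ᶠ F ∈ {F : k[X] | F.Monic ∧ F.natDegree = N j}, f F * w F) /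
      (Fintype.card k : ℂ) ^ N j) atTop (𝓝 0) := by
  have := countable_poly k
  have h1 : ∀ r, (0 : ℝ) < (Pn k r).card := fun r => card_Pn (k := k) r ▸ qR_pow_pos r
  have h2 := orth (I := fun j => (Mo k (N j)).filter fun F => F.natDegree = N j) (R := Pn k)
    (u := f) (w := w) (fun j => Finset.card_pos.1 (card_monic (k := k) (N j) ▸ by positivity))
    (fun r => Finset.card_pos.1 (Nat.cast_pos.1 (h1 r)))
    (by simpa only [card_Pn] using
      tendsto_pow_atTop_atTop_of_one_lt (one_lt_two.trans_le (two_le_qR (k := k))))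
    (fun i => ?_) (fun A B hAB hne => ?_) hf hw fun φ hφ μ hμ hg m P hP => ?_
  · simpa only [finsum_monic, card_monic, Nat.cast_pow] using h2
  · filter_upwards [hN.eventually_gt_atTop i.natDegree] with j hj y
    have h3 := avm_shift (F := y) (degree_lt_of_natDegree fun _ => hj)
    rwa [avm_eq_sum, avm_eq_sum, div_left_inj' (qR_pow_pos _).ne'] at h3
  · have h3 := ell (ι := A ⊕ B) (a := fun _ => 1) (b := Sum.elim (↑) (↑))
      (f := Sum.elim (fun _ => f) fun _ F => conj (f F)) (ε := fun _ => -1)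
      (ξ := Sum.elim (fun _ => ξ) fun _ => (starRingEnd ℂ).toMonoidHom.comp ξ) (M := M) (l := l)
      hC hT (fun _ => monic_one) ?_ ?_ ?_ hM ?_ ?_ (fun _ => Or.inr rfl) ?_ ?_
    · refine (h3.comp hN).congr fun j => ?_
      simp only [Function.comp_def, card_monic, Nat.cast_pow, Fintype.prod_sum_type, one_mul,
        Sum.elim_inl, Sum.elim_inr]
      refine congrArg (· / _) (Finset.sum_congr rfl fun F _ => ?_)
      rw [Finset.prod_coe_sort A fun i => f (F + i), Finset.prod_coe_sort B fun i => conj (f (F + i))]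
    · rintro (i | i) (j | j) hij h <;> simp only [one_mul, Sum.elim_inl, Sum.elim_inr] at h
      · exact hij (congrArg _ (Subtype.ext h.symm))
      · exact Finset.disjoint_left.1 hAB i.2 (h ▸ j.2)
      · exact Finset.disjoint_left.1 hAB j.2 (h ▸ i.2)
      · exact hij (congrArg _ (Subtype.ext h.symm))
    · rintro (i | i) F <;> simpa using hf F
    · rintro (i | i) F G h3 h4 h5 <;> simp [hm F G h3 h4 h5]
    · rintro (i | i) F <;> simpa using hξ F
    · rintro (i | i) F t h3 h4 <;> simp [hξ' F t h3 h4]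
    · exact hne.elim (fun ⟨x, h⟩ => ⟨Sum.inl ⟨x, h⟩, rfl⟩) fun ⟨x, h⟩ => ⟨Sum.inr ⟨x, h⟩, rfl⟩
    · rintro (i | i) <;> exact hs.congr fun P => by simp [sub_eq_add_neg]
  · refine (hd φ hφ μ hμ (fun g => ?_) m P hP).congr fun r => ?_
    · simpa only [finsum_monic, card_monic, Nat.cast_pow] using hg g
    · let e : Pn k r ≃ degreeLT k r :=
        Equiv.subtypeEquivRight fun x => mem_Pn.trans mem_degreeLT.symm
      rw [card_Pn, ← finsum_comp_equiv (e.arrowCongr (Equiv.refl _))]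
      refine congrArg (· / _) (finsum_congr fun a => ?_)
      refine congrArg (fun S => Real.negMulLog (μ S).toReal) (Set.ext fun x => ?_)
      exact (e.forall_congr fun y => by simp [e]).symm

end Pool.Agent.Lib.MP_232f4c_nt.Ff
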