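import Pool.Agent.Lib.MP_9227d9_nt.MobS

/-!
A multiplicative function on `k[X]` is close in the mean to its smooth part times the function it
pretends to be (Turan-Kubilius).
-/

namespace Pool.Agent.Lib.MP_232f4c_nt.Ff

open Polynomial Pool.Agent.Lib.MP_9227d9_nt.Mob Filter Topology

open scoped Classical ComplexConjugate

theorem norm_prod_le_one {ι : Type} (S : Finset ι) {u : ι → ℂ} (hu : ∀ i ∈ S, ‖u i‖ ≤ 1) :
    ‖∏ i ∈ S, u i‖ ≤ 1 := by
  rw [norm_prod]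
  exact Finset.prod_le_one (fun _ _ => norm_nonneg _) hu

theorem norm_prod_sub_le {ι : Type} (S : Finset ι) (u v : ι → ℂ) (hu : ∀ i ∈ S, ‖u i‖ ≤ 1)
    (hv : ∀ i ∈ S, ‖v i‖ ≤ 1) : ‖∏ i ∈ S, u i - ∏ i ∈ S, v i‖ ≤ ∑ i ∈ S, ‖u i - v i‖ := by
  induction S using Finset.induction_on with
  | empty => simp
  | insert j S hj ih =>
    rw [Finset.prod_insert hj, Finset.prod_insert hj, Finset.sum_insert hj]
    have h1 := ih (fun i hi => hu i (Finset.mem_insert_of_mem hi))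
      fun i hi => hv i (Finset.mem_insert_of_mem hi)
    have h2 := norm_prod_le_one S fun i hi => hu i (Finset.mem_insert_of_mem hi)
    have e : u j * ∏ i ∈ S, u i - v j * ∏ i ∈ S, v i =
        (u j - v j) * ∏ i ∈ S, u i + v j * (∏ i ∈ S, u i - ∏ i ∈ S, v i) := by ring
    rw [e]
    refine (norm_add_le _ _).trans (add_le_add ?_ ?_)
    · rw [norm_mul]
      exact mul_le_of_le_one_right (norm_nonneg _) h2
    · rw [norm_mul]
      exact (mul_le_of_le_one_left (norm_nonneg _) (hv j (Finset.mem_insert_self _ _))).trans h1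

theorem local_le {u a : ℂ} (hu : ‖u‖ ≤ 1) (ha : ‖a‖ ≤ 1) :
    0 ≤ 1 - (u * conj a).re ∧ (u * conj a).im ^ 2 ≤ 2 * (1 - (u * conj a).re) ∧
      ‖u - a * Complex.exp (Complex.I * ((u * conj a).im : ℝ))‖ ≤ 5 * (1 - (u * conj a).re) := by
  have h1 : ‖u * conj a‖ ≤ ‖a‖ := by
    rw [norm_mul, Complex.norm_conj]
    exact mul_le_of_le_one_left (norm_nonneg _) hu
  have h2 : a * (u * conj a) = u * ((‖a‖ ^ 2 : ℝ) : ℂ) := by
    rw [← Complex.normSq_eq_norm_sq, ← Complex.mul_conj]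
    ring
  generalize u * conj a = g at h1 h2 ⊢
  have h3 := abs_le.1 (Complex.abs_re_le_norm g)
  have h4 : g.re ^ 2 + g.im ^ 2 ≤ 1 := by
    have := Complex.sq_norm g
    rw [Complex.normSq_apply] at this
    nlinarith [norm_nonneg g]
  have h5 : g.im ^ 2 ≤ 2 * (1 - g.re) := by nlinarith
  refine ⟨by linarith, h5, ?_⟩
  have h6 : ‖Complex.I * (g.im : ℝ)‖ = |g.im| := by simp
  have h7 := Complex.norm_exp_sub_one_sub_id_le (x := Complex.I * (g.im : ℝ))
    (h6 ▸ (Complex.abs_im_le_norm g).trans (h1.trans ha))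
  rw [h6, sq_abs] at h7
  have e : u - a * Complex.exp (Complex.I * (g.im : ℝ)) = u * ((1 - ‖a‖ ^ 2 : ℝ) : ℂ) +
      a * (((g.re - 1 : ℝ) : ℂ) - (Complex.exp (Complex.I * (g.im : ℝ)) - 1 -
        Complex.I * (g.im : ℝ))) := by
    have := Complex.re_add_im g
    push_cast at h2 ⊢
    linear_combination -h2 - a * this
  rw [e]
  have h8 : ‖u * ((1 - ‖a‖ ^ 2 : ℝ) : ℂ)‖ ≤ 2 * (1 - g.re) := by
    rw [norm_mul, Complex.norm_real, Real.norm_eq_abs,
      abs_of_nonneg (by nlinarith [norm_nonneg a])]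
    refine (mul_le_of_le_one_left (by nlinarith [norm_nonneg a]) hu).trans ?_
    nlinarith [norm_nonneg a]
  have h9 : ‖((g.re - 1 : ℝ) : ℂ)‖ = 1 - g.re := by
    rw [Complex.norm_real, Real.norm_eq_abs, abs_of_nonpos (by linarith)]
    ring
  refine (norm_add_le _ _).trans ?_
  rw [norm_mul a]
  have h10 := (mul_le_of_le_one_left (norm_nonneg _) ha).trans
    ((norm_sub_le _ _).trans (add_le_add h9.le h7))
  linarith

theorem norm_exp_sub_le (x y : ℝ) :
    ‖Complex.exp (Complex.I * x) - Complex.exp (Complex.I * y)‖ ≤ |x - y| := by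
  have e : Complex.exp (Complex.I * x) - Complex.exp (Complex.I * y) =
      Complex.exp (Complex.I * y) * (Complex.exp (Complex.I * ((x - y : ℝ) : ℂ)) - 1) := by
    rw [mul_sub, ← Complex.exp_add]
    push_cast
    ring_nf
  rw [e, norm_mul, Complex.norm_exp_I_mul_ofReal, one_mul]
  exact Real.norm_exp_I_mul_ofReal_sub_one_le

theorem abs_le_add_sq {l : ℝ} (hl : 0 < l) (x : ℝ) : |x| ≤ l + x ^ 2 / l := by
  rw [← sq_abs, ← sub_le_iff_le_add', le_div_iff₀ hl]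
  nlinarith [sq_nonneg (|x| - l), abs_nonneg x]

variable {k : Type} [Field k] [Fintype k]

/-- The product of the primes of degree at most `y`. -/
noncomputable def QQ (k : Type) [Field k] [Fintype k] (y : ℕ) : k[X] := ∏ p ∈ PrL k (y + 1), p

/-- The smooth part. -/
noncomputable def sp (y : ℕ) (F : k[X]) : k[X] := GCDMonoid.gcd F (QQ k y ^ (2 * y + 2))

/-- The rough part. -/
noncomputable def rp (y : ℕ) (F : k[X]) : k[X] := F / sp y F

/-- The model of `f`. -/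
noncomputable def md (y : ℕ) (c : ℂ) (f g : k[X] → ℂ) (F : k[X]) : ℂ :=
  if IsCoprime (rp y F) (QQ k y) then c * f (sp y F) * g (rp y F) else 0

theorem QQ_monic (y : ℕ) : (QQ k y).Monic := monic_prod fun _ hp => (mem_PrL.1 hp).1

theorem dvd_QQ {y : ℕ} {p : k[X]} (hp : IsP p) : p ∣ QQ k y ↔ p.natDegree ≤ y := by
  rw [QQ, dvd_prod_iff_mem (fun _ hp => (mem_PrL.1 hp).1) hp, mem_PrL, Nat.lt_succ_iff]
  exact and_iff_right hp

theorem sp_dvd (y : ℕ) (F : k[X]) : sp y F ∣ QQ k y ^ (2 * y + 2) := gcd_dvd_right _ _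

theorem sp_monic (y : ℕ) (F : k[X]) : (sp y F).Monic := by
  rw [sp, ← normalize_gcd]
  exact monic_normalize (ne_zero_of_dvd_ne_zero ((QQ_monic y).pow _).ne_zero (sp_dvd y F))

theorem sp_mul_rp (y : ℕ) (F : k[X]) : sp y F * rp y F = F :=
  EuclideanDomain.mul_div_cancel' (sp_monic y F).ne_zero (gcd_dvd_left _ _)

theorem norm_md_le {y : ℕ} {c : ℂ} {f g : k[X] → ℂ} (hc : ‖c‖ ≤ 1) {F : k[X]}
    (hf : ∀ F, ‖f F‖ ≤ 1) (hg : ∀ F, ‖g F‖ ≤ 1) : ‖md y c f g F‖ ≤ 1 := by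
  unfold md
  split_ifs
  · rw [norm_mul, norm_mul]
    exact mul_le_one₀ (mul_le_one₀ hc (norm_nonneg _) (hf _)) (norm_nonneg _) (hg _)
  · simp

theorem good {y : ℕ} {F : k[X]} (hF : F ≠ 0)
    (h : ∀ g : k[X], g.Monic → y < g.natDegree → ¬ g ^ 2 ∣ F) :
    IsCoprime (rp y F) (QQ k y) ∧ Squarefree (rp y F) ∧
      ∀ p, IsP p → (p ∣ rp y F ↔ y < p.natDegree ∧ p ∣ F) := by
  have e := sp_mul_rp y F
  have hR : rp y F ≠ 0 := right_ne_zero_of_mul (e.symm ▸ hF)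
  have hRF : rp y F ∣ F := Dvd.intro_left _ e
  have h1 : IsCoprime (rp y F) (QQ k y) := by
    by_contra hc
    obtain ⟨p, hp, p1, p2⟩ := exists_isP_of_not_isCoprime hR hc
    obtain ⟨v, hv⟩ := sp_dvd y F
    by_cases hpv : p ∣ v
    · have h2 : sp y F * p ∣ sp y F * 1 := by
        rw [mul_one]
        refine dvd_gcd ((mul_dvd_mul_left _ p1).trans e.dvd) ?_
        rw [hv]
        exact mul_dvd_mul_left _ hpv
      exact hp.2.not_isUnit (isUnit_of_dvd_one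
        ((mul_dvd_mul_iff_left (sp_monic y F).ne_zero).1 h2))
    · have h2 : p ^ (2 * y + 2) ∣ sp y F * v := hv ▸ pow_dvd_pow_of_dvd p2 _
      have h3 := (IsCoprime.pow_left (hp.isCoprime_iff.2 hpv).symm).dvd_of_dvd_mul_right h2
      refine h (p ^ (y + 1)) (hp.1.pow _) ?_ ?_
      · rw [natDegree_pow]
        nlinarith [hp.natDegree_pos]
      · rw [← pow_mul, show (y + 1) * 2 = 2 * y + 2 by ring]
        exact h3.trans (Dvd.intro _ e)
  have h2 : ∀ p, IsP p → p ∣ rp y F → y < p.natDegree := fun p hp hd => by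
    by_contra hc
    exact hp.2.not_isUnit (h1.isUnit_of_dvd' hd ((dvd_QQ hp).2 (not_lt.1 hc)))
  refine ⟨h1, ?_, fun p hp => ⟨fun hd => ⟨h2 p hp hd, hd.trans hRF⟩, fun hd => ?_⟩⟩
  · by_contra hc
    obtain ⟨p, hp, hd⟩ := exists_isP_of_not_squarefree hR hc
    exact h p hp.1 (h2 p hp ((dvd_pow_self p two_ne_zero).trans hd)) (hd.trans hRF)
  · refine (hp.prime.dvd_or_dvd (e.symm ▸ hd.2 : p ∣ sp y F * rp y F)).resolve_left fun h3 => ?_
    exact hd.1.not_ge ((dvd_QQ hp).1 (hp.prime.dvd_of_dvd_pow (h3.trans (sp_dvd y F))))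

omit [Fintype k] in
theorem mult_prod {f : k[X] → ℂ}
    (hm : ∀ F G : k[X], F.Monic → G.Monic → IsCoprime F G → f (F * G) = f F * f G) {d : k[X]}
    (hd : d.Monic) (S : Finset k[X]) (hS : ∀ p ∈ S, IsP p ∧ ¬ p ∣ d) :
    f (d * ∏ p ∈ S, p) = f d * ∏ p ∈ S, f p := by
  induction S using Finset.induction_on with
  | empty => simp
  | insert p S hp ih =>
    have h1 := hS p (Finset.mem_insert_self _ _)
    have h2 : ∀ r ∈ S, IsP r ∧ ¬ r ∣ d := fun r hr => hS r (Finset.mem_insert_of_mem hr)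
    have h3 : ∀ r ∈ S, IsP r := fun r hr => (h2 r hr).1
    rw [Finset.prod_insert hp, Finset.prod_insert hp, mul_comm p, ← mul_assoc,
      hm _ _ (hd.mul (monic_prod h3)) h1.1.1 (h1.1.isCoprime_iff.2 fun h4 => ?_), ih h2]
    · ring
    · exact (h1.1.prime.dvd_or_dvd h4).elim h1.2 fun h5 => hp ((dvd_prod_iff_mem h3 h1.1).1 h5)

theorem avm_dvd {M : k[X]} {n : ℕ} (hM : M ≠ 0) (hn : M.natDegree ≤ n) :
    avm n (fun F => if M ∣ F then 1 else 0) = 1 / Nm M := by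
  simpa [avm] using avg_dvd hM hn isCoprime_one_left (X ^ n)

theorem avm_sq_sum {n : ℕ} (S : Finset k[X]) (Z : k[X] → k[X] → ℝ)
    (h : ∀ p ∈ S, ∀ p' ∈ S, p ≠ p' → avm n (fun F => Z p F * Z p' F) = 0) :
    avm n (fun F => (∑ p ∈ S, Z p F) ^ 2) = ∑ p ∈ S, avm n fun F => Z p F ^ 2 := by
  simp only [sq, Finset.sum_mul_sum, avm_sum]
  exact Finset.sum_congr rfl fun p hp =>
    Finset.sum_eq_single_of_mem p hp fun p' hp' hne => h p hp p' hp' hne.symm

/-- The Turan-Kubilius inequality. -/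
theorem tk {n : ℕ} (T : Finset k[X]) (hT : ∀ p ∈ T, IsP p ∧ p.natDegree ≤ n) (t : k[X] → ℝ)
    {l : ℝ} (hl : 0 < l) : ∃ m : ℝ, avm n (fun F => |(∑ p ∈ T, if p ∣ F then t p else 0) - m|) ≤
      2 * l + (∑ p ∈ T, t p ^ 2 / Nm p) / l := by
  have hd : ∀ p ∈ T, avm n (fun F => if p ∣ F then 1 else 0) = 1 / Nm p := fun p hp =>
    avm_dvd (hT p hp).1.1.ne_zero (hT p hp).2
  have hc : ∀ p ∈ T, ∀ p' ∈ T, p ≠ p' → ∀ F, (p * p' ∣ F ↔ p ∣ F ∧ p' ∣ F) :=
    fun p hp p' hp' hne F => ⟨fun h => ⟨(dvd_mul_right _ _).trans h, (dvd_mul_left _ _).trans h⟩,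
      fun h => ((hT p hp).1.isCoprime (hT p' hp').1 hne).mul_dvd h.1 h.2⟩
  have h1 : avm n (fun F => (∑ p ∈ T.filter (fun p => 2 * p.natDegree ≤ n),
      t p * ((if p ∣ F then 1 else 0) - 1 / Nm p)) ^ 2) ≤
      ∑ p ∈ T.filter (fun p => 2 * p.natDegree ≤ n), t p ^ 2 / Nm p := by
    rw [avm_sq_sum _ _ fun p hp p' hp' hne => ?_]
    · refine Finset.sum_le_sum fun p hp => ?_
      have e : ∀ F, (t p * ((if p ∣ F then 1 else 0) - 1 / Nm p)) ^ 2 = t p ^ 2 *
          ((1 - 2 / Nm p) * (if p ∣ F then 1 else 0) + (1 / Nm p) ^ 2) := fun F => by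
        split_ifs <;> ring
      simp only [e]
      rw [avm_mul_left, avm_add, avm_mul_left, avm_const, hd p (Finset.mem_filter.1 hp).1,
        div_eq_mul_one_div (t p ^ 2), div_eq_mul_one_div 2]
      exact mul_le_mul_of_nonneg_left (by nlinarith [sq_nonneg (1 / Nm p)]) (sq_nonneg _)
    · rw [Finset.mem_filter] at hp hp'
      have e : ∀ F, t p * ((if p ∣ F then 1 else 0) - 1 / Nm p) *
          (t p' * ((if p' ∣ F then 1 else 0) - 1 / Nm p')) = t p * t p' *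
          ((if p * p' ∣ F then 1 else 0) - 1 / Nm p' * (if p ∣ F then 1 else 0) -
            1 / Nm p * (if p' ∣ F then 1 else 0) + 1 / Nm p * (1 / Nm p')) := fun F => by
        simp only [hc p hp.1 p' hp'.1 hne F]
        by_cases h1 : p ∣ F <;> by_cases h2 : p' ∣ F <;> simp [h1, h2] <;> ring
      have e1 := (hT p hp.1).1.1.natDegree_mul (hT p' hp'.1).1.1
      simp only [e]
      rw [avm_mul_left, avm_add, avm_sub, avm_sub, avm_mul_left, avm_mul_left, avm_const,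
        hd p hp.1, hd p' hp'.1,
        avm_dvd ((hT p hp.1).1.1.mul (hT p' hp'.1).1.1).ne_zero (by omega), Nm, e1, pow_add]
      unfold Nm
      ring
  have h2 : avm n (fun F => (∑ p ∈ T.filter (fun p => ¬ 2 * p.natDegree ≤ n),
      t p * (if p ∣ F then 1 else 0)) ^ 2) ≤
      ∑ p ∈ T.filter (fun p => ¬ 2 * p.natDegree ≤ n), t p ^ 2 / Nm p := by
    rw [avm_sq_sum _ _ fun p hp p' hp' hne => ?_]
    · refine Finset.sum_le_sum fun p hp => ?_
      have e : ∀ F, (t p * (if p ∣ F then 1 else 0)) ^ 2 = t p ^ 2 * (if p ∣ F then 1 else 0) :=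
        fun F => by split_ifs <;> ring
      simp only [e]
      rw [avm_mul_left, hd p (Finset.mem_filter.1 hp).1, mul_one_div]
    · rw [Finset.mem_filter] at hp hp'
      refine (avm_congr fun F hF => ?_).trans (avm_const n 0)
      split_ifs with h1 h2
      · have h3 := natDegree_le_of_dvd ((hc p hp.1 p' hp'.1 hne F).2 ⟨h1, h2⟩) hF.ne_zero
        rw [(hT p hp.1).1.1.natDegree_mul (hT p' hp'.1).1.1, hF.2] at h3
        omega
      all_goals simp
  refine ⟨∑ p ∈ T.filter (fun p => 2 * p.natDegree ≤ n), t p / Nm p, ?_⟩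
  rw [← Finset.sum_filter_add_sum_filter_not T (fun p => 2 * p.natDegree ≤ n)
    fun p => t p ^ 2 / Nm p]
  have h3 := div_le_div_of_nonneg_right (add_le_add h1 h2) hl.le
  refine le_trans ?_ (add_le_add_right h3 _)
  rw [← avm_add, div_eq_mul_inv, ← avm_mul_right]
  refine le_trans (avm_mono fun F _ => ?_)
    (avm_add.trans (congrArg (· + _) (avm_const n (2 * l)))).le
  have e : (∑ p ∈ T, if p ∣ F then t p else 0) -
      ∑ p ∈ T.filter (fun p => 2 * p.natDegree ≤ n), t p / Nm p =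
      ∑ p ∈ T.filter (fun p => 2 * p.natDegree ≤ n), t p * ((if p ∣ F then 1 else 0) - 1 / Nm p) +
      ∑ p ∈ T.filter (fun p => ¬ 2 * p.natDegree ≤ n), t p * (if p ∣ F then 1 else 0) := by
    rw [← Finset.sum_filter_add_sum_filter_not T (fun p => 2 * p.natDegree ≤ n)]
    simp only [mul_sub, Finset.sum_sub_distrib, mul_ite, mul_one, mul_zero, mul_one_div]
    ring
  rw [e, ← div_eq_mul_inv, add_div]
  refine (abs_add_le _ _).trans ?_
  linarith [abs_le_add_sq hl (∑ p ∈ T.filter (fun p => 2 * p.natDegree ≤ n),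
    t p * ((if p ∣ F then 1 else 0) - 1 / Nm p)), abs_le_add_sq hl
    (∑ p ∈ T.filter (fun p => ¬ 2 * p.natDegree ≤ n), t p * (if p ∣ F then 1 else 0))]

/-- The approximation by the model. -/
theorem approx {f g a : k[X] → ℂ} (hf : ∀ F, ‖f F‖ ≤ 1) (hg : ∀ F, ‖g F‖ ≤ 1) (ha : ∀ F, ‖a F‖ ≤ 1)
    (hm : ∀ F G : k[X], F.Monic → G.Monic → IsCoprime F G → f (F * G) = f F * f G)
    (hga : ∀ S : Finset k[X], (∀ p ∈ S, IsP p) → g (∏ p ∈ S, p) = ∏ p ∈ S, a p) (y n : ℕ) {τ l : ℝ}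
    (hl : 0 < l) (hτ : ∑ p ∈ (PrL k (n + 1)).filter (fun p => y < p.natDegree),
      (1 - (f p * conj (a p)).re) / Nm p ≤ τ) :
    ∃ c : ℂ, ‖c‖ ≤ 1 ∧ avm n (fun F => ‖f F - md y c f g F‖) ≤
      2 * (1 / qR k ^ y) + 5 * τ + (2 * l + 2 * τ / l) := by
  set T := (PrL k (n + 1)).filter fun p => y < p.natDegree with hTd
  have hT : ∀ p, p ∈ T ↔ (IsP p ∧ p.natDegree ≤ n) ∧ y < p.natDegree := fun p => by
    rw [hTd, Finset.mem_filter, mem_PrL, Nat.lt_succ_iff]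
  have hL := fun p => local_le (hf p) (ha p)
  obtain ⟨m, hm'⟩ := tk T (fun p hp => ((hT p).1 hp).1) (fun p => (f p * conj (a p)).im) hl
  have hc : ‖Complex.exp (Complex.I * m)‖ ≤ 1 := (Complex.norm_exp_I_mul_ofReal m).le
  refine ⟨_, hc, ?_⟩
  have h1 : (∑ p ∈ T, (f p * conj (a p)).im ^ 2 / Nm p) / l ≤ 2 * τ / l := by
    refine div_le_div_of_nonneg_right (le_trans ?_ (mul_le_mul_of_nonneg_left hτ zero_le_two)) hl.le
    rw [Finset.mul_sum]
    refine Finset.sum_le_sum fun p _ => ?_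
    rw [← mul_div_assoc]
    exact div_le_div_of_nonneg_right (hL p).2.1 (Nm_pos p).le
  have h2 : avm n (fun F => ∑ p ∈ T, (1 - (f p * conj (a p)).re) * if p ∣ F then 1 else 0) ≤ τ := by
    rw [avm_sum]
    refine le_trans (le_of_eq (Finset.sum_congr rfl fun p hp => ?_)) hτ
    rw [avm_mul_left, avm_dvd ((hT p).1 hp).1.1.1.ne_zero ((hT p).1 hp).1.2, mul_one_div]
  refine le_trans ?_ (add_le_add (add_le_add (mul_le_mul_of_nonneg_left (stSQ k n y) zero_le_two)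
    (mul_le_mul_of_nonneg_left h2 (by norm_num))) (hm'.trans (add_le_add_right h1 _)))
  rw [← avm_mul_left, ← avm_mul_left, ← avm_add, ← avm_add]
  refine avm_mono fun F hF => ?_
  have h3 : 0 ≤ ∑ p ∈ T, (1 - (f p * conj (a p)).re) * if p ∣ F then 1 else 0 :=
    Finset.sum_nonneg fun p _ => mul_nonneg (hL p).1 (by split_ifs <;> simp)
  by_cases hb : ∀ g : k[X], g.Monic → y < g.natDegree → ¬ g ^ 2 ∣ F
  swap
  · push Not at hb
    obtain ⟨e, e1, e2, e3⟩ := hb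
    have h4 : (1 : ℝ) ≤ (((Mo k n).filter fun g => y < g.natDegree ∧ g ^ 2 ∣ F).card : ℝ) := by
      refine Nat.one_le_cast.2 (Finset.card_pos.2 ⟨e, Finset.mem_filter.2 ⟨mem_Mo.2 ⟨e1, ?_⟩, e2, e3⟩⟩)
      exact hF.2 ▸ natDegree_le_of_dvd ((dvd_pow_self e two_ne_zero).trans e3) hF.ne_zero
    have h5 := (norm_sub_le _ _).trans (add_le_add (hf F) (norm_md_le (y := y) (F := F) hc hf hg))
    linarith [abs_nonneg ((∑ p ∈ T, if p ∣ F then (f p * conj (a p)).im else 0) - m)]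
  obtain ⟨g1, g2, g3⟩ := good hF.ne_zero hb
  have e := sp_mul_rp y F
  have hR : (rp y F).Monic := (sp_monic y F).of_mul_monic_left (e.symm ▸ hF.1)
  have hS : pf (rp y F) = T.filter fun p => p ∣ F := by
    ext p
    rw [mem_pf hR.ne_zero, Finset.mem_filter, hT]
    exact ⟨fun h => ⟨⟨⟨h.1, hF.2 ▸ natDegree_le_of_dvd ((g3 p h.1).1 h.2).2 hF.ne_zero⟩,
      ((g3 p h.1).1 h.2).1⟩, ((g3 p h.1).1 h.2).2⟩, fun h => ⟨h.1.1.1, (g3 p h.1.1.1).2 ⟨h.1.2, h.2⟩⟩⟩
  have hP := prod_pf hR g2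
  rw [hS] at hP
  have hSP : ∀ p ∈ T.filter fun p => p ∣ F, IsP p := fun p hp =>
    ((hT p).1 (Finset.mem_filter.1 hp).1).1.1
  have e1 : f F = f (sp y F) * ∏ p ∈ T.filter fun p => p ∣ F, f p := by
    rw [← mult_prod hm (sp_monic y F) _ fun p hp => ⟨hSP p hp, fun h => ?_⟩, hP, e]
    exact ((hT p).1 (Finset.mem_filter.1 hp).1).2.not_ge
      ((dvd_QQ (hSP p hp)).1 ((hSP p hp).prime.dvd_of_dvd_pow (h.trans (sp_dvd y F))))
  have e2 := hga _ hSP
  rw [hP] at e2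
  simp only [mul_ite, mul_one, mul_zero, ← Finset.sum_filter] at h3 ⊢
  rw [md, if_pos g1, e1, e2]
  generalize T.filter (fun p => p ∣ F) = S
  have h4 := norm_prod_sub_le S f
    (fun p => a p * Complex.exp (Complex.I * ((f p * conj (a p)).im : ℝ))) (fun p _ => hf p)
    fun p _ => by rw [norm_mul, Complex.norm_exp_I_mul_ofReal, mul_one]; exact ha p
  have h5 := h4.trans (Finset.sum_le_sum fun p _ => (hL p).2.2)
  rw [Finset.prod_mul_distrib, ← Complex.exp_sum, ← Finset.mul_sum, ← Finset.mul_sum,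
    ← Complex.ofReal_sum] at h5
  have h6 := norm_exp_sub_le (∑ p ∈ S, (f p * conj (a p)).im) m
  have h7 := norm_prod_le_one S fun p _ => ha p
  generalize Complex.exp (Complex.I * ((∑ p ∈ S, (f p * conj (a p)).im : ℝ) : ℂ)) = E at h5 h6
  have e3 : f (sp y F) * ∏ p ∈ S, f p - Complex.exp (Complex.I * m) * f (sp y F) * ∏ p ∈ S, a p =
      f (sp y F) * ((∏ p ∈ S, f p - (∏ p ∈ S, a p) * E) +
        (∏ p ∈ S, a p) * (E - Complex.exp (Complex.I * m))) := by ring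
  rw [e3, norm_mul]
  refine (mul_le_of_le_one_left (norm_nonneg _) (hf _)).trans ((norm_add_le _ _).trans ?_)
  rw [norm_mul]
  have h8 := (mul_le_of_le_one_left (norm_nonneg _) h7).trans h6
  have h9 : (0 : ℝ) ≤ (((Mo k n).filter fun g => y < g.natDegree ∧ g ^ 2 ∣ F).card : ℝ) :=
    Nat.cast_nonneg _
  linarith

end Pool.Agent.Lib.MP_232f4c_nt.Ff
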