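import Mathlib

/-!
Truncated expansions of finite products and mean values of periodic functions.
-/

namespace Pool.Agent.Lib.MP_232f4c_nt.Gap

open Finset Function

/-- The part of the expansion of `∏ (1 + z p)` over the subsets whose size satisfies `s`. -/
def lev {R : Type*} [CommSemiring R] (s : ℕ → Prop) [DecidablePred s] (P : Finset ℕ) (z : ℕ → R) :
    R := ∑ D ∈ P.powerset with s #D, ∏ p ∈ D, z p

section lev

variable {R : Type*} [CommSemiring R]

theorem lev_congr {s s' : ℕ → Prop} [DecidablePred s] [DecidablePred s'] (h : ∀ n, s n ↔ s' n)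
    (P : Finset ℕ) (z : ℕ → R) : lev s P z = lev s' P z :=
  sum_congr (filter_congr fun _ _ => h _) fun _ _ => rfl

theorem lev_insert (s : ℕ → Prop) [DecidablePred s] {P : Finset ℕ} {a : ℕ} (ha : a ∉ P)
    (z : ℕ → R) : lev s (insert a P) z = lev s P z + z a * lev (fun n => s (n + 1)) P z := by
  simp only [lev, sum_filter]
  rw [sum_powerset_insert ha, mul_sum]
  congr 1
  refine sum_congr rfl fun D hD => ?_
  have h : a ∉ D := fun h => ha (mem_powerset.1 hD h)
  rw [card_insert_of_notMem h, prod_insert h]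
  split_ifs <;> simp

theorem lev_le_split (m : ℕ) (P : Finset ℕ) (z : ℕ → R) :
    lev (· ≤ m) P z = lev (fun n => n + 1 ≤ m) P z + lev (· = m) P z := by
  simp only [lev, sum_filter]
  rw [← sum_add_distrib]
  refine sum_congr rfl fun D _ => ?_
  rcases lt_trichotomy #D m with h | h | h
  · rw [if_pos h.le, if_pos (by omega), if_neg h.ne, add_zero]
  · rw [if_pos h.le, if_neg (by omega), if_pos h, zero_add]
  · rw [if_neg (by omega), if_neg (by omega), if_neg h.ne', add_zero]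

theorem lev_zero (P : Finset ℕ) (z : ℕ → R) : lev (· = 0) P z = 1 := by
  have h : P.powerset.filter (fun D => #D = 0) = {∅} := by
    ext D
    simp only [mem_filter, mem_powerset, card_eq_zero, mem_singleton]
    exact ⟨fun h => h.2, fun h => ⟨h ▸ empty_subset _, h⟩⟩
  simp only [lev]
  rw [h]
  simp

theorem lev_or (m : ℕ) (P : Finset ℕ) (z : ℕ → R) :
    lev (fun n => n = 0 ∨ n = m + 1) P z = 1 + lev (· = m + 1) P z := by
  rw [← lev_zero P z]
  simp only [lev, sum_filter]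
  rw [← sum_add_distrib]
  refine sum_congr rfl fun D _ => ?_
  by_cases h0 : #D = 0
  · rw [if_pos (Or.inl h0), if_pos h0, if_neg (by omega), add_zero]
  · by_cases h1 : #D = m + 1
    · rw [if_pos (Or.inr h1), if_neg h0, if_pos h1, zero_add]
    · rw [if_neg (by tauto), if_neg h0, if_neg h1, add_zero]

end lev

theorem lev_nonneg (s : ℕ → Prop) [DecidablePred s] {P : Finset ℕ} {a : ℕ → ℝ}
    (ha : ∀ p ∈ P, 0 ≤ a p) : 0 ≤ lev s P a :=
  sum_nonneg fun _ hD => prod_nonneg fun p hp => ha p (mem_powerset.1 (mem_filter.1 hD).1 hp)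

theorem lev_mono {s s' : ℕ → Prop} [DecidablePred s] [DecidablePred s'] (h : ∀ n, s n → s' n)
    {P : Finset ℕ} {a a' : ℕ → ℝ} (ha : ∀ p ∈ P, 0 ≤ a p) (h' : ∀ p ∈ P, a p ≤ a' p) :
    lev s P a ≤ lev s' P a' := by
  refine (sum_le_sum fun D hD => ?_).trans (sum_le_sum_of_subset_of_nonneg
    (monotone_filter_right _ fun D _ hD => h _ hD) fun D hD _ => ?_)
  · have hs := mem_powerset.1 (mem_filter.1 hD).1
    exact prod_le_prod (fun p hp => ha p (hs hp)) fun p hp => h' p (hs hp)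
  · have hs := mem_powerset.1 (mem_filter.1 hD).1
    exact prod_nonneg fun p hp => (ha p (hs hp)).trans (h' p (hs hp))

theorem norm_lev_le (s : ℕ → Prop) [DecidablePred s] (P : Finset ℕ) (z : ℕ → ℂ) :
    ‖lev s P z‖ ≤ lev s P fun p => ‖z p‖ :=
  (norm_sum_le _ _).trans (sum_le_sum fun D _ => (norm_prod D z).le)

theorem tail_le (P : Finset ℕ) (z : ℕ → ℂ) (hz : ∀ p ∈ P, ‖1 + z p‖ ≤ 1) (m : ℕ) :
    ‖∏ p ∈ P, (1 + z p) - lev (· ≤ m) P z‖ ≤ lev (· = m + 1) P fun p => ‖z p‖ := by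
  induction P using Finset.induction_on with
  | empty => simp [lev, sum_filter]
  | insert a P ha ih =>
    have h1 := ih fun p hp => hz p (mem_insert_of_mem hp)
    have h2 := hz a (mem_insert_self _ _)
    rw [prod_insert ha, lev_insert _ ha, lev_insert _ ha,
      lev_congr (s := fun n => n + 1 = m + 1) (s' := (· = m)) (fun n => by omega)]
    have e : (1 + z a) * ∏ p ∈ P, (1 + z p) -
        (lev (· ≤ m) P z + z a * lev (fun n => n + 1 ≤ m) P z) =
        (1 + z a) * (∏ p ∈ P, (1 + z p) - lev (· ≤ m) P z) + z a * lev (· = m) P z := by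
      rw [lev_le_split m P z]; ring
    rw [e]
    refine (norm_add_le _ _).trans (add_le_add ?_ ?_)
    · rw [norm_mul]
      exact (mul_le_of_le_one_left (norm_nonneg _) h2).trans h1
    · rw [norm_mul]
      exact mul_le_mul_of_nonneg_left (norm_lev_le _ _ _) (norm_nonneg _)

theorem lev_eq_le (P : Finset ℕ) (a : ℕ → ℝ) (ha : ∀ p ∈ P, 0 ≤ a p) :
    ∀ m : ℕ, lev (· = m) P a ≤ (∑ p ∈ P, a p) ^ m / m.factorial := by
  induction P using Finset.induction_on with
  | empty =>
    intro m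
    rcases m with _ | m <;> simp [lev, sum_filter]
  | insert b P hb ih =>
    intro m
    have h0 : ∀ p ∈ P, 0 ≤ a p := fun p hp => ha p (mem_insert_of_mem hp)
    have hb0 := ha b (mem_insert_self _ _)
    have hs : 0 ≤ ∑ p ∈ P, a p := sum_nonneg h0
    rcases m with _ | m
    · rw [lev_zero]; simp
    · rw [lev_insert _ hb, sum_insert hb,
        lev_congr (s := fun n => n + 1 = m + 1) (s' := (· = m)) (fun n => by omega)]
      have h1 := ih h0 (m + 1)
      have h2 := mul_le_mul_of_nonneg_left (ih h0 m) hb0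
      refine (add_le_add h1 h2).trans ?_
      have hf : (0 : ℝ) < m.factorial := by positivity
      have h3 : (∑ p ∈ P, a p) ^ (m + 1) + (m + 1) * (a b * (∑ p ∈ P, a p) ^ m) ≤
          (a b + ∑ p ∈ P, a p) ^ (m + 1) := by
        have := pow_add_mul_le_add_pow hs (by linarith : 0 ≤ 2 * (∑ p ∈ P, a p) + a b) (m + 1)
        simp only [Nat.add_sub_cancel, Nat.cast_add, Nat.cast_one] at this
        rw [add_comm (a b)]
        linarith
      rw [Nat.factorial_succ, Nat.cast_mul, Nat.cast_add, Nat.cast_one, le_div_iff₀ (by positivity)]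
      refine le_trans (le_of_eq ?_) h3
      field_simp

theorem lev_le_pow (P : Finset ℕ) (a : ℕ → ℝ) (ha : ∀ p ∈ P, 0 ≤ a p) (m : ℕ) :
    lev (· ≤ m) P a ≤ (1 + ∑ p ∈ P, a p) ^ m := by
  have hs : 0 ≤ ∑ p ∈ P, a p := sum_nonneg ha
  induction m with
  | zero => rw [lev_congr (s' := (· = 0)) (fun n => by omega), lev_zero]; simp
  | succ m ih =>
    rw [lev_le_split, lev_congr (s := fun n => n + 1 ≤ m + 1) (s' := (· ≤ m)) (fun n => by omega)]
    have h1 : lev (· = m + 1) P a ≤ (∑ p ∈ P, a p) ^ (m + 1) :=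
      (lev_eq_le P a ha (m + 1)).trans (div_le_self (by positivity)
        (by exact_mod_cast Nat.factorial_pos _))
    have h2 : (∑ p ∈ P, a p) ^ m ≤ (1 + ∑ p ∈ P, a p) ^ m :=
      pow_le_pow_left₀ hs (by linarith) m
    have h3 := mul_le_mul_of_nonneg_right h2 hs
    rw [pow_succ] at h1 ⊢
    nlinarith

theorem lev_le_exp (s : ℕ → Prop) [DecidablePred s] (P : Finset ℕ) (a : ℕ → ℝ)
    (ha : ∀ p ∈ P, 0 ≤ a p) : lev s P a ≤ Real.exp (∑ p ∈ P, a p) := by
  calc lev s P a ≤ ∑ D ∈ P.powerset, ∏ p ∈ D, a p :=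
        sum_le_sum_of_subset_of_nonneg (filter_subset _ _) fun D hD _ =>
          prod_nonneg fun p hp => ha p (mem_powerset.1 hD hp)
    _ = ∏ p ∈ P, (1 + a p) := (prod_one_add _).symm
    _ ≤ ∏ p ∈ P, Real.exp (a p) :=
        prod_le_prod (fun p hp => by linarith [ha p hp]) fun p _ => by
          linarith [Real.add_one_le_exp (a p)]
    _ = _ := (Real.exp_sum _ _).symm

theorem norm_prod_sub_prod_le (J : ℕ) (x y : ℕ → ℂ) (B : ℕ → ℝ) (hx : ∀ j, ‖x j‖ ≤ 1)
    (h : ∀ j, ‖x j - y j‖ ≤ B j) :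
    ‖∏ j ∈ range J, x j - ∏ j ∈ range J, y j‖ ≤ ∏ j ∈ range J, (1 + B j) - 1 := by
  induction J with
  | zero => simp
  | succ J ih =>
    simp only [prod_range_succ]
    have hB : 0 ≤ B J := (norm_nonneg _).trans (h J)
    have h1 : ‖∏ j ∈ range J, x j‖ ≤ 1 := by
      rw [norm_prod]; exact prod_le_one (fun _ _ => norm_nonneg _) fun j _ => hx j
    have h2 : ‖y J‖ ≤ 1 + B J := by
      have := norm_sub_le (x J) (x J - y J)
      rw [sub_sub_cancel] at this
      linarith [hx J, h J]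
    have e : (∏ j ∈ range J, x j) * x J - (∏ j ∈ range J, y j) * y J =
        (∏ j ∈ range J, x j) * (x J - y J) + (∏ j ∈ range J, x j - ∏ j ∈ range J, y j) * y J := by
      ring
    rw [e]
    refine (norm_add_le _ _).trans ?_
    rw [norm_mul, norm_mul]
    have h3 := mul_le_mul h1 (h J) (norm_nonneg _) zero_le_one
    have h4 := mul_le_mul ih h2 (norm_nonneg _) ((norm_nonneg _).trans ih)
    linarith

/-- The mean value over one period. -/
noncomputable def mean {K : Type*} [Field K] (Q : ℕ) (S : ℕ → K) : K := (∑ n ∈ range Q, S n) / Q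

section mean

variable {K : Type*} [Field K]

theorem mean_mul {a b : ℕ} (ha : a ≠ 0) (hb : b ≠ 0) (co : a.Coprime b) {g h : ℕ → K}
    (hg : Periodic g a) (hh : Periodic h b) :
    mean (a * b) (fun n => g n * h n) = mean a g * mean b h := by
  have key : ∑ n ∈ range (a * b), g n * h n = (∑ n ∈ range a, g n) * ∑ n ∈ range b, h n := by
    rw [sum_mul_sum, ← sum_product']
    refine sum_nbij' (fun n => (n % a, n % b)) (fun x => Nat.chineseRemainder co x.1 x.2)
      (fun n _ => ?_) (fun x _ => ?_) (fun n hn => ?_) (fun x hx => ?_) fun n _ => ?_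
    · exact mem_product.2
        ⟨mem_range.2 (Nat.mod_lt _ ha.bot_lt), mem_range.2 (Nat.mod_lt _ hb.bot_lt)⟩
    · exact mem_range.2 (Nat.chineseRemainder_lt_mul co _ _ ha hb)
    · exact (Nat.chineseRemainder_modEq_unique co (Nat.mod_modEq n a).symm
        (Nat.mod_modEq n b).symm).symm.eq_of_lt_of_lt (Nat.chineseRemainder_lt_mul co _ _ ha hb)
        (mem_range.1 hn)
    · rw [mem_product, mem_range, mem_range] at hx
      exact Prod.ext (Eq.trans (Nat.chineseRemainder co x.1 x.2).prop.1 (Nat.mod_eq_of_lt hx.1))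
        (Eq.trans (Nat.chineseRemainder co x.1 x.2).prop.2 (Nat.mod_eq_of_lt hx.2))
    · rw [hg.map_mod_nat, hh.map_mod_nat]
  rw [mean, key, mean, mean, Nat.cast_mul, div_mul_div_comm]

theorem periodic_of_dvd {β : Type*} {g : ℕ → β} {a b : ℕ} (hg : Periodic g a) (h : a ∣ b) :
    Periodic g b := by
  obtain ⟨c, rfl⟩ := h
  rw [mul_comm]
  exact hg.nat_mul c

theorem periodic_term {Q : ℕ} {S : ℕ → K} (hS : Periodic S Q) {D : Finset ℕ} {v : ℕ → ℕ → K}
    (hv : ∀ p ∈ D, Periodic (v p) p) :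
    Periodic (fun n => S n * ∏ p ∈ D, v p n) (Q * ∏ p ∈ D, p) := fun n => by
  beta_reduce
  rw [periodic_of_dvd hS (dvd_mul_right _ _) n]
  congr 1
  exact prod_congr rfl fun p hp =>
    periodic_of_dvd (hv p hp) ((dvd_prod_of_mem _ hp).mul_left Q) n

theorem mean_term {Q : ℕ} (hQ : Q ≠ 0) {S : ℕ → K} (hS : Periodic S Q) {D : Finset ℕ}
    {v : ℕ → ℕ → K} (hv : ∀ p ∈ D, Periodic (v p) p) (hp : ∀ p ∈ D, p.Prime ∧ Q.Coprime p) :
    mean (Q * ∏ p ∈ D, p) (fun n => S n * ∏ p ∈ D, v p n) =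
      mean Q S * ∏ p ∈ D, mean p (v p) := by
  induction D using Finset.induction_on with
  | empty => simp
  | insert a D ha ih =>
    have h1 : ∀ p ∈ D, p ∈ insert a D := fun p hp => mem_insert_of_mem hp
    have h2 := hp a (mem_insert_self _ _)
    simp only [prod_insert ha]
    have e1 : Q * (a * ∏ p ∈ D, p) = (Q * ∏ p ∈ D, p) * a := by ring
    have e2 : (fun n => S n * (v a n * ∏ p ∈ D, v p n)) =
        fun n => (S n * ∏ p ∈ D, v p n) * v a n := by
      funext n; ring
    rw [e1, e2, mean_mul (mul_ne_zero hQ (prod_ne_zero_iff.2 fun p h => (hp p (h1 p h)).1.ne_zero))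
      h2.1.ne_zero (Nat.Coprime.mul_left h2.2 (Nat.Coprime.prod_left fun p h =>
        (Nat.coprime_primes (hp p (h1 p h)).1 h2.1).2 (ne_of_mem_of_not_mem h ha)))
      (periodic_term hS fun p h => hv p (h1 p h)) (hv a (mem_insert_self _ _)),
      ih (fun p h => hv p (h1 p h)) fun p h => hp p (h1 p h)]
    ring

end mean

theorem mean_nonneg (Q : ℕ) {S : ℕ → ℝ} (h : ∀ n, 0 ≤ S n) : 0 ≤ mean Q S :=
  div_nonneg (sum_nonneg fun n _ => h n) (Nat.cast_nonneg _)

theorem mean_le {Q : ℕ} {S : ℕ → ℝ} {B : ℝ} (hB : 0 ≤ B) (h : ∀ n, S n ≤ B) : mean Q S ≤ B := by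
  rcases Nat.eq_zero_or_pos Q with rfl | hQ
  · simpa [mean] using hB
  · rw [mean, div_le_iff₀ (by exact_mod_cast hQ)]
    refine (sum_le_card_nsmul _ _ B fun n _ => h n).trans ?_
    simp [mul_comm]

theorem norm_mean_le {𝕜 : Type*} [RCLike 𝕜] (Q : ℕ) (S : ℕ → 𝕜) :
    ‖mean Q S‖ ≤ mean Q fun n => ‖S n‖ := by
  rw [mean, mean, norm_div, RCLike.norm_natCast]
  exact div_le_div_of_nonneg_right (norm_sum_le _ _) (Nat.cast_nonneg _)

theorem sum_Ioc_period {M : Type*} [AddCommGroup M] {S : ℕ → M} {Q : ℕ} (hS : Periodic S Q)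
    (a : ℕ) : ∑ n ∈ Ioc a (a + Q), S n = ∑ n ∈ range Q, S n := by
  have h : ∀ b : ℕ, ∑ n ∈ range Q, S (b + n) = ∑ n ∈ range Q, S n := by
    intro b
    induction b with
    | zero => simp
    | succ b ih =>
      have h1 := sum_range_succ (fun n => S (b + n)) Q
      have h2 := sum_range_succ' (fun n => S (b + n)) Q
      rw [h1, hS b, add_zero, ih] at h2
      have h3 : ∑ n ∈ range Q, S (b + 1 + n) = ∑ n ∈ range Q, S (b + (n + 1)) :=
        sum_congr rfl fun n _ => by congr 1; ring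
      rw [h3]
      exact (add_right_cancel h2).symm
  rw [← h (a + 1), ← Ico_add_one_add_one_eq_Ioc, sum_Ico_eq_sum_range]
  congr 2
  omega

theorem interval_mean {𝕜 : Type*} [RCLike 𝕜] {Q : ℕ} (hQ : 0 < Q) {S : ℕ → 𝕜} (hS : Periodic S Q)
    {B : ℝ} (hB : ∀ n, ‖S n‖ ≤ B) (L : ℕ) :
    ∀ a : ℕ, ‖∑ n ∈ Ioc a (a + L), S n - L * mean Q S‖ ≤ 2 * Q * B := by
  have hB0 : 0 ≤ B := (norm_nonneg _).trans (hB 0)
  induction L using Nat.strong_induction_on with
  | _ L ih =>
    intro a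
    rcases lt_or_ge L Q with h | h
    · have h1 : ‖∑ n ∈ Ioc a (a + L), S n‖ ≤ L * B := by
        refine (norm_sum_le _ _).trans ((sum_le_card_nsmul _ _ B fun n _ => hB n).trans ?_)
        simp
      have h2 : ‖(L : 𝕜) * mean Q S‖ ≤ L * B := by
        rw [norm_mul, RCLike.norm_natCast]
        exact mul_le_mul_of_nonneg_left ((norm_mean_le _ _).trans (mean_le hB0 hB))
          (Nat.cast_nonneg _)
      have h3 : (L : ℝ) * B ≤ Q * B := mul_le_mul_of_nonneg_right (by exact_mod_cast h.le) hB0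
      linarith [norm_sub_le (∑ n ∈ Ioc a (a + L), S n) ((L : 𝕜) * mean Q S)]
    · obtain ⟨L', rfl⟩ := Nat.exists_eq_add_of_le h
      have h1 := ih L' (by omega) (a + Q)
      have h2 : ∑ n ∈ Ioc a (a + (Q + L')), S n =
          ∑ n ∈ Ioc a (a + Q), S n + ∑ n ∈ Ioc (a + Q) (a + Q + L'), S n := by
        rw [sum_Ioc_consecutive _ (by omega) (by omega), add_assoc]
      have h3 : (Q : 𝕜) * mean Q S = ∑ n ∈ range Q, S n := by
        rw [mean, mul_div_cancel₀ _ (by exact_mod_cast hQ.ne')]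
      rw [h2, sum_Ioc_period hS, Nat.cast_add, add_mul, h3, add_sub_add_left_eq_sub]
      exact h1

end Pool.Agent.Lib.MP_232f4c_nt.Gap
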