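import Pool.Agent.Lib.MP_232f4c_nt.GapA
import Pool.Agent.Lib.MP_458f0b_nt.Mertens

/-!
A Brun-Hooley type approximation of products of local factors over the primes up to `y`.
-/

namespace Pool.Agent.Lib.MP_232f4c_nt.Gap

open Finset Function

theorem block_ind {𝕜 : Type*} [RCLike 𝕜] (I : Finset ℕ) (b : ℕ → 𝕜) (κ : 𝕜) {α η Z : ℝ}
    (hΛ : ∀ Q : ℕ, 0 < Q → (Q : ℝ) ≤ Z → ∀ S : ℕ → 𝕜, Periodic S Q → ∀ B : ℝ, (∀ n, ‖S n‖ ≤ B) →
      ‖∑ n ∈ I, S n * b n - κ * mean Q S‖ ≤ α * Q * B + η * mean Q fun n => ‖S n‖)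
    (P : ℕ → Finset ℕ) (s : ℕ → ℕ → Prop) [∀ j, DecidablePred (s j)] (v : ℕ → ℕ → 𝕜) (Y : ℕ → ℝ)
    (hY0 : ∀ j, 0 ≤ Y j) (hY : ∀ j, ∀ D ⊆ P j, s j #D → ((∏ p ∈ D, p : ℕ) : ℝ) ≤ Y j)
    (hP : ∀ j, ∀ p ∈ P j, p.Prime ∧ Periodic (v p) p ∧ ∀ n, ‖v p n‖ ≤ 2)
    (hd : ∀ i j, i ≠ j → Disjoint (P i) (P j)) (J : ℕ) :
    ∀ (Q : ℕ) (S : ℕ → 𝕜) (B : ℝ), 0 < Q → (∀ j < J, ∀ p ∈ P j, Q.Coprime p) →
      Q * ∏ j ∈ range J, Y j ≤ Z → Periodic S Q → (∀ n, ‖S n‖ ≤ B) →
      ‖∑ n ∈ I, S n * (∏ j ∈ range J, lev (s j) (P j) fun p => v p n) * b n -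
        κ * mean Q S * ∏ j ∈ range J, lev (s j) (P j) fun p => mean p (v p)‖ ≤
      α * Q * B * ∏ j ∈ range J, lev (s j) (P j) (fun p => 2 * (p : ℝ)) +
        η * mean Q (fun n => ‖S n‖) *
          ∏ j ∈ range J, lev (s j) (P j) fun p => mean p fun n => ‖v p n‖ := by
  induction J with
  | zero =>
    intro Q S B hQ _ hZ hS hB
    simpa using hΛ Q hQ (by simpa using hZ) S hS B hB
  | succ J ih =>
    intro Q S B hQ hc hZ hS hB
    have hB0 : 0 ≤ B := (norm_nonneg _).trans (hB 0)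
    simp only [prod_range_succ] at hZ ⊢
    set G : ℕ → 𝕜 := fun n => ∏ j ∈ range J, lev (s j) (P j) fun p => v p n
    set M : 𝕜 := ∏ j ∈ range J, lev (s j) (P j) fun p => mean p (v p)
    set C₁ : ℝ := ∏ j ∈ range J, lev (s j) (P j) fun p => 2 * (p : ℝ)
    set C₂ : ℝ := ∏ j ∈ range J, lev (s j) (P j) fun p => mean p fun n => ‖v p n‖
    have e1 : ∑ n ∈ I, S n * (G n * lev (s J) (P J) fun p => v p n) * b n -
        κ * mean Q S * (M * lev (s J) (P J) fun p => mean p (v p)) =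
        ∑ D ∈ (P J).powerset with s J #D, (∑ n ∈ I, (S n * ∏ p ∈ D, v p n) * G n * b n -
          κ * (mean Q S * ∏ p ∈ D, mean p (v p)) * M) := by
      rw [sum_sub_distrib, sum_comm]
      simp only [lev, mul_sum, sum_mul]
      congr 1
      · exact sum_congr rfl fun n _ => sum_congr rfl fun D _ => by ring
      · exact sum_congr rfl fun D _ => by ring
    have e2 : α * Q * B * (C₁ * lev (s J) (P J) fun p => 2 * (p : ℝ)) +
        η * mean Q (fun n => ‖S n‖) * (C₂ * lev (s J) (P J) fun p => mean p fun n => ‖v p n‖) =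
        ∑ D ∈ (P J).powerset with s J #D,
          (α * (Q * ∏ p ∈ D, p : ℕ) * (B * ∏ _p ∈ D, 2) * C₁ +
            η * (mean Q (fun n => ‖S n‖) * ∏ p ∈ D, mean p fun n => ‖v p n‖) * C₂) := by
      rw [sum_add_distrib]
      simp only [lev, mul_sum]
      congr 1
      · refine sum_congr rfl fun D _ => ?_
        rw [prod_mul_distrib]
        push_cast
        ring
      · exact sum_congr rfl fun D _ => by ring
    rw [e1, e2]
    refine (norm_sum_le _ _).trans (sum_le_sum fun D hD => ?_)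
    obtain ⟨hD1, hD2⟩ := mem_filter.1 hD
    have hD3 := mem_powerset.1 hD1
    have hv : ∀ p ∈ D, Periodic (v p) p := fun p hp => (hP J p (hD3 hp)).2.1
    have hp' : ∀ p ∈ D, p.Prime ∧ Q.Coprime p :=
      fun p hp => ⟨(hP J p (hD3 hp)).1, hc J (Nat.lt_succ_self J) p (hD3 hp)⟩
    have h1 := ih (Q * ∏ p ∈ D, p) (fun n => S n * ∏ p ∈ D, v p n) (B * ∏ _p ∈ D, 2)
      (Nat.mul_pos hQ (prod_pos fun p hp => (hp' p hp).1.pos))
      (fun j hj p hp => Nat.Coprime.mul_left (hc j (by omega) p hp)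
        (Nat.Coprime.prod_left fun r hr => (Nat.coprime_primes (hp' r hr).1 (hP j p hp).1).2
          fun h => disjoint_left.1 (hd j J hj.ne) hp (h ▸ hD3 hr)))
      (by
        refine le_trans ?_ hZ
        rw [Nat.cast_mul, mul_assoc, mul_comm _ (∏ j ∈ range J, Y j)]
        exact mul_le_mul_of_nonneg_left (mul_le_mul_of_nonneg_left (hY J D hD3 hD2)
          (prod_nonneg fun j _ => hY0 j)) (Nat.cast_nonneg _))
      (periodic_term hS hv) (fun n => by
        rw [norm_mul, norm_prod]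
        exact mul_le_mul (hB n) (prod_le_prod (fun _ _ => norm_nonneg _)
          fun p hp => (hP J p (hD3 hp)).2.2 n) (prod_nonneg fun _ _ => norm_nonneg _) hB0)
    rw [mean_term hQ.ne' hS hv hp'] at h1
    simp only [norm_mul, norm_prod] at h1
    rw [mean_term hQ.ne' (S := fun n => ‖S n‖) (fun n => by simp only [hS n])
      (v := fun p n => ‖v p n‖) (fun p hp n => by simp only [hv p hp n]) hp'] at h1
    exact h1

theorem sum_inv_range {z Z : ℝ} (hz : 1 < z) (hZ : 1 ≤ Z) (s : Finset ℕ)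
    (hs : ∀ p ∈ s, p.Prime ∧ z < p ∧ (p : ℝ) ≤ Z) :
    ∑ p ∈ s, (p : ℝ)⁻¹ ≤ (Real.log Z + Real.log 4) / Real.log z := by
  have hl : 0 < Real.log z := Real.log_pos hz
  have h1 : 1 ≤ ⌊Z⌋₊ := Nat.le_floor (by simpa using hZ)
  have h2 := Pool.Agent.Lib.MP_458f0b_nt.sum_log_div_le h1
  have h3 : Real.log (⌊Z⌋₊ : ℝ) ≤ Real.log Z :=
    Real.log_le_log (by exact_mod_cast h1) (Nat.floor_le (by linarith))
  rw [le_div_iff₀ hl, sum_mul]
  calc ∑ p ∈ s, (p : ℝ)⁻¹ * Real.log z ≤ ∑ p ∈ s, Real.log p / p := by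
        refine sum_le_sum fun p hp => ?_
        rw [div_eq_inv_mul]
        exact mul_le_mul_of_nonneg_left (Real.log_le_log (by linarith) (hs p hp).2.1.le)
          (by positivity)
    _ ≤ ∑ p ∈ ⌊Z⌋₊.primesLE, Real.log p / p := by
        refine sum_le_sum_of_subset_of_nonneg (fun p hp => ?_) fun p _ _ => ?_
        · exact Nat.mem_primesLE.2 ⟨Nat.le_floor (hs p hp).2.2, (hs p hp).1⟩
        · exact div_nonneg (Real.log_natCast_nonneg p) (Nat.cast_nonneg p)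
    _ ≤ _ := by linarith

theorem exists_depth (x ε : ℝ) (hx : 0 ≤ x) (hε : 0 < ε) :
    ∃ m : ℕ, ∀ J : ℕ, ∏ j ∈ range J, (1 + x ^ (m + j + 1) / (m + j + 1).factorial) ≤ 1 + ε := by
  have hs := Real.summable_pow_div_factorial x
  have hl : 0 < Real.log (1 + ε) := Real.log_pos (by linarith)
  obtain ⟨m, hm⟩ := ((tendsto_sum_nat_add fun i => x ^ i / (i.factorial : ℝ)).eventually
    (gt_mem_nhds hl)).exists_forall_of_atTop
  refine ⟨m, fun J => ?_⟩
  have h1 := hm (m + 1) (by omega)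
  have h2 : ∑ j ∈ range J, x ^ (j + (m + 1)) / ((j + (m + 1)).factorial : ℝ) ≤
      ∑' j, x ^ (j + (m + 1)) / ((j + (m + 1)).factorial : ℝ) :=
    ((summable_nat_add_iff (m + 1)).2 hs).sum_le_tsum _ fun j _ => by positivity
  calc ∏ j ∈ range J, (1 + x ^ (m + j + 1) / (m + j + 1).factorial)
      ≤ ∏ j ∈ range J, Real.exp (x ^ (j + (m + 1)) / ((j + (m + 1)).factorial : ℝ)) := by
        refine prod_le_prod (fun j _ => by positivity) fun j _ => ?_
        rw [show j + (m + 1) = m + j + 1 by ring]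
        linarith [Real.add_one_le_exp (x ^ (m + j + 1) / ((m + j + 1).factorial : ℝ))]
    _ = Real.exp _ := (Real.exp_sum _ _).symm
    _ ≤ Real.exp (Real.log (1 + ε)) := Real.exp_le_exp.2 (h2.trans h1.le)
    _ = 1 + ε := Real.exp_log (by linarith)

theorem sum_depth_le (m J : ℕ) :
    ∑ j ∈ range J, ((m + j + 1 : ℕ) : ℝ) / 2 ^ j ≤ 2 * m + 4 := by
  have h : ∑ j ∈ range J, ((m + j + 1 : ℕ) : ℝ) / 2 ^ j =
      2 * m + 4 - (2 * m + 2 * J + 4) / 2 ^ J := by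
    induction J with
    | zero => simp
    | succ J ih =>
      rw [sum_range_succ, ih]
      push_cast
      field_simp
      ring
  rw [h]
  have : (0 : ℝ) ≤ (2 * m + 2 * J + 4) / 2 ^ J := by positivity
  linarith

/-- The block of the prime `p`. -/
noncomputable def blk (y : ℝ) (p : ℕ) : ℕ := Nat.log 2 ⌊Real.log y / Real.log p⌋₊

theorem blk_spec {y : ℝ} {p : ℕ} (hp : p.Prime) (hy : (p : ℝ) ≤ y) :
    Real.exp (Real.log y / 2 ^ blk y p / 2) < p ∧ (p : ℝ) ≤ Real.exp (Real.log y / 2 ^ blk y p) := by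
  have h2 : (2 : ℝ) ≤ p := by exact_mod_cast hp.two_le
  have hl : 0 < Real.log p := Real.log_pos (by linarith)
  have h1 : 1 ≤ Real.log y / Real.log p := by
    rw [le_div_iff₀ hl, one_mul]; exact Real.log_le_log (by linarith) hy
  have h3 : ⌊Real.log y / Real.log p⌋₊ ≠ 0 := by
    have : 1 ≤ ⌊Real.log y / Real.log p⌋₊ := Nat.le_floor (by simpa using h1)
    omega
  have h4 : ((2 ^ blk y p : ℕ) : ℝ) ≤ Real.log y / Real.log p :=
    (Nat.cast_le.2 (Nat.pow_log_le_self 2 h3)).trans (Nat.floor_le (by linarith))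
  have h5 : Real.log y / Real.log p < ((2 ^ (blk y p + 1) : ℕ) : ℝ) :=
    (Nat.floor_lt (by linarith)).1 (Nat.lt_pow_succ_log_self one_lt_two _)
  push_cast at h4 h5
  rw [le_div_iff₀ hl] at h4
  rw [div_lt_iff₀ hl, pow_succ] at h5
  have h6 : (0 : ℝ) < 2 ^ blk y p := by positivity
  constructor
  · rw [← Real.lt_log_iff_exp_lt (by linarith), div_div, div_lt_iff₀ (by positivity)]
    linarith
  · rw [← Real.log_le_iff_le_exp (by linarith), le_div_iff₀ h6]
    linarith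

theorem block_facts {l : ℝ} (hl : 0 ≤ l) (P : Finset ℕ)
    (hP : ∀ p ∈ P, p.Prime ∧ Real.exp (l / 2) < p ∧ (p : ℝ) ≤ Real.exp l) :
    ∑ p ∈ P, (p : ℝ)⁻¹ ≤ 6 ∧ 1 + ∑ p ∈ P, 2 * (p : ℝ) ≤ Real.exp l ^ 4 := by
  have h1 : 1 ≤ Real.exp l := Real.one_le_exp hl
  rcases P.eq_empty_or_nonempty with rfl | ⟨q, hq⟩
  · simpa using one_le_pow₀ h1
  · have h2 : (2 : ℝ) ≤ Real.exp l := le_trans (by exact_mod_cast (hP q hq).1.two_le) (hP q hq).2.2
    have h3 : Real.log 2 ≤ l := (Real.log_le_iff_le_exp two_pos).2 h2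
    have h4 : 0 < Real.log 2 := Real.log_pos one_lt_two
    constructor
    · refine (sum_inv_range (Real.one_lt_exp_iff.2 (by linarith : 0 < l / 2)) h1 P hP).trans ?_
      rw [Real.log_exp, Real.log_exp, div_le_iff₀ (by linarith),
        show (4 : ℝ) = 2 ^ 2 by norm_num, Real.log_pow]
      push_cast
      linarith
    · have h5 : (#P : ℝ) ≤ Real.exp l := by
        have : P ⊆ Icc 1 ⌊Real.exp l⌋₊ := fun p hp =>
          mem_Icc.2 ⟨(hP p hp).1.one_le, Nat.le_floor (hP p hp).2.2⟩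
        have h6 := card_le_card this
        rw [Nat.card_Icc, Nat.add_sub_cancel] at h6
        exact (Nat.cast_le.2 h6).trans (Nat.floor_le (by linarith))
      have h6 : ∑ p ∈ P, 2 * (p : ℝ) ≤ #P * (2 * Real.exp l) := by
        refine (sum_le_card_nsmul _ _ _ fun p hp => ?_).trans (by rw [nsmul_eq_mul])
        linarith [(hP p hp).2.2]
      have h7 : (#P : ℝ) * (2 * Real.exp l) ≤ Real.exp l * (2 * Real.exp l) :=
        mul_le_mul_of_nonneg_right h5 (by linarith)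
      have h8 : 4 ≤ Real.exp l ^ 2 := by nlinarith
      nlinarith

theorem mean_exc {p k : ℕ} {g : ℕ → ℂ} (hg : ∀ n, ‖g n‖ ≤ 1)
    (hk : #{r ∈ range p | g r ≠ 1} ≤ k) : mean p (fun n => ‖g n - 1‖) ≤ 2 * k * (p : ℝ)⁻¹ := by
  rw [mean, div_eq_mul_inv]
  refine mul_le_mul_of_nonneg_right ?_ (by positivity)
  rw [← sum_filter_of_ne (p := fun r => g r ≠ 1) fun r _ h h' => h (by simp [h'])]
  refine (sum_le_card_nsmul _ _ 2 fun r _ => ?_).trans ?_
  · linarith [norm_sub_le (g r) 1, hg r, norm_one (α := ℂ)]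
  · rw [nsmul_eq_mul, mul_comm]
    exact mul_le_mul_of_nonneg_left (by exact_mod_cast hk) two_pos.le

theorem mean_sub_one {p : ℕ} (hp : 0 < p) (g : ℕ → ℂ) :
    1 + mean p (fun n => g n - 1) = mean p g := by
  have h : (p : ℂ) ≠ 0 := by exact_mod_cast hp.ne'
  rw [mean, mean, sum_sub_distrib]
  simp only [sum_const, card_range, nsmul_eq_mul, mul_one]
  field_simp
  ring

theorem sum_mod_le (I : Finset ℕ) (b : ℕ → ℂ) {Q : ℕ} (hQ : 0 < Q) {η : ℝ}
    (h : ∀ r < Q, ‖∑ n ∈ I with n % Q = r, b n‖ ≤ η / Q) {S : ℕ → ℂ} (hS : Periodic S Q) :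
    ‖∑ n ∈ I, S n * b n‖ ≤ η * mean Q fun n => ‖S n‖ := by
  rw [← sum_fiberwise_of_maps_to (g := fun n => n % Q) (t := range Q)
    fun n _ => mem_range.2 (Nat.mod_lt _ hQ), mean, sum_div, mul_sum]
  refine (norm_sum_le _ _).trans (sum_le_sum fun r hr => ?_)
  have e : ∑ n ∈ I with n % Q = r, S n * b n = S r * ∑ n ∈ I with n % Q = r, b n := by
    rw [mul_sum]
    exact sum_congr rfl fun n hn => by rw [← (mem_filter.1 hn).2, hS.map_mod_nat]
  rw [e, norm_mul]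
  refine (mul_le_mul_of_nonneg_left (h r (mem_range.1 hr)) (norm_nonneg _)).trans (le_of_eq ?_)
  ring

end Pool.Agent.Lib.MP_232f4c_nt.Gap
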