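import Mathlib

/-!
The van der Corput derivative test in a form with free differencing step.
-/

namespace Pool.Agent.Lib.MP_232f4c_nt.Gap

open Finset
open scoped ComplexConjugate

/-- The unimodular number of argument `x`. -/
noncomputable def eI (x : ℝ) : ℂ := Complex.exp (x * Complex.I)

theorem norm_eI (x : ℝ) : ‖eI x‖ = 1 := Complex.norm_exp_ofReal_mul_I x

theorem eI_add (x y : ℝ) : eI (x + y) = eI x * eI y := by
  simp only [eI, Complex.ofReal_add, add_mul, Complex.exp_add]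

theorem eI_zero : eI 0 = 1 := by simp [eI]

theorem conj_eI (x : ℝ) : conj (eI x) = eI (-x) := by
  simp only [eI, ← Complex.exp_conj, map_mul, Complex.conj_ofReal, Complex.conj_I,
    Complex.ofReal_neg]
  ring_nf

theorem norm_eI_sub_le (x y : ℝ) : ‖eI x - eI y‖ ≤ |x - y| := by
  have h : eI x - eI y = eI y * (Complex.exp (Complex.I * (x - y : ℝ)) - 1) := by
    rw [mul_sub, mul_one, mul_comm Complex.I]
    change eI x - eI y = eI y * eI (x - y) - eI y
    rw [← eI_add]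
    congr 2
    ring
  rw [h, norm_mul, norm_eI, one_mul]
  exact Real.norm_exp_I_mul_ofReal_sub_one_le

theorem sum_shift_c (f : ℕ → ℂ) (N h M : ℕ) (hM : N + h ≤ M) :
    ∑ n ∈ range M, (if h ≤ n ∧ n - h < N then f (n - h) else 0) = ∑ n ∈ range N, f n := by
  rw [← sum_filter]
  symm
  refine sum_nbij' (fun n => n + h) (fun n => n - h) ?_ ?_ ?_ ?_ ?_
  · intro n hn
    simp only [mem_range, mem_filter] at hn ⊢
    omega
  · intro n hn
    simp only [mem_range, mem_filter] at hn ⊢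
    omega
  · intro n _
    simp
  · intro n hn
    simp only [mem_range, mem_filter] at hn
    omega
  · intro n _
    simp

/-- The shifted and truncated sequence. -/
noncomputable def sh_c (a : ℕ → ℂ) (N h n : ℕ) : ℂ := if h ≤ n ∧ n - h < N then a (n - h) else 0

theorem corr_c (a : ℕ → ℂ) (N p q M : ℕ) (hM : N + (p + q) ≤ M) :
    ∑ n ∈ range M, sh_c a N p n * conj (sh_c a N (p + q) n) =
      ∑ n ∈ range (N - q), a (n + q) * conj (a n) := by
  rw [← sum_shift_c (fun n => a (n + q) * conj (a n)) (N - q) (p + q) M (by omega)]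
  refine sum_congr rfl fun n _ => ?_
  unfold sh_c
  by_cases h : p + q ≤ n ∧ n - (p + q) < N - q
  · have h1 : p ≤ n ∧ n - p < N := by omega
    have h2 : p + q ≤ n ∧ n - (p + q) < N := by omega
    have h3 : n - (p + q) + q = n - p := by omega
    rw [if_pos h, if_pos h1, if_pos h2, h3]
  · rw [if_neg h]
    by_cases h1 : p ≤ n ∧ n - p < N
    · have h2 : ¬(p + q ≤ n ∧ n - (p + q) < N) := by omega
      rw [if_neg h2, map_zero, mul_zero]
    · rw [if_neg h1, zero_mul]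

/-- The differencing inequality with shifts that are multiples of `g`. -/
theorem vdc_ineq (a : ℕ → ℂ) (ha : ∀ n, ‖a n‖ ≤ 1) (N J g : ℕ) (hJ : 0 < J) (N₀ E : ℝ)
    (hN : (N : ℝ) ≤ N₀) (hJg : (J : ℝ) * g ≤ N₀) (hE0 : 0 ≤ E)
    (hE : ∀ j, 1 ≤ j → j < J → ‖∑ n ∈ range (N - j * g), a (n + j * g) * conj (a n)‖ ≤ E) :
    ‖∑ n ∈ range N, a n‖ ^ 2 ≤ 2 * N₀ ^ 2 / J + 2 * N₀ * E := by
  have hN0 : 0 ≤ N₀ := (Nat.cast_nonneg N).trans hN
  have hJ' : (0 : ℝ) < J := by exact_mod_cast hJ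
  set M := N + J * g with hM
  have hle : ∀ j, j < J → N + j * g ≤ M := fun j hj =>
    Nat.add_le_add_left (Nat.mul_le_mul_right g hj.le) N
  have e1 : (J : ℂ) * ∑ n ∈ range N, a n =
      ∑ n ∈ range M, ∑ j ∈ range J, sh_c a N (j * g) n := by
    rw [sum_comm]
    unfold sh_c
    rw [sum_congr rfl fun j hj => sum_shift_c a N (j * g) M (hle j (mem_range.1 hj))]
    simp
  have hle2 : ∀ j k, j + k < J →
      ‖∑ n ∈ range M, sh_c a N (j * g) n * conj (sh_c a N ((j + k) * g) n)‖ ≤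
        (if k = 0 then N₀ else 0) + E := by
    intro j k hjk
    have h := hle _ hjk
    rw [add_mul] at h ⊢
    rw [corr_c a N _ _ M h]
    by_cases hk : k = 0
    · subst hk
      rw [if_pos rfl]
      have : ‖∑ n ∈ range (N - 0 * g), a (n + 0 * g) * conj (a n)‖ ≤
          ∑ _n ∈ range (N - 0 * g), (1 : ℝ) := by
        refine norm_sum_le_of_le _ fun n _ => ?_
        rw [norm_mul, Complex.norm_conj]
        exact mul_le_one₀ (ha _) (norm_nonneg _) (ha _)
      simp only [zero_mul, tsub_zero, sum_const, card_range, nsmul_eq_mul, mul_one] at this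
      simp only [zero_mul, tsub_zero]
      linarith
    · rw [if_neg hk, zero_add]
      exact hE k (by omega) (by omega)
  have hT : ∀ j ∈ range J, ∀ j' ∈ range J,
      ‖∑ n ∈ range M, sh_c a N (j * g) n * conj (sh_c a N (j' * g) n)‖ ≤
        (if j = j' then N₀ else 0) + E := by
    intro j hj j' hj'
    rw [mem_range] at hj hj'
    rcases le_total j j' with h | h
    · obtain ⟨k, rfl⟩ := Nat.exists_eq_add_of_le h
      have := hle2 j k hj'
      simpa only [left_eq_add] using this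
    · obtain ⟨k, rfl⟩ := Nat.exists_eq_add_of_le h
      have := hle2 j' k hj
      rw [← Complex.norm_conj, map_sum] at this
      simp only [map_mul, Complex.conj_conj] at this
      simp only [add_eq_left]
      refine le_trans (le_of_eq ?_) this
      congr 1
      exact sum_congr rfl fun n _ => mul_comm _ _
  have e2 : ((∑ n ∈ range M, ‖∑ j ∈ range J, sh_c a N (j * g) n‖ ^ 2 : ℝ) : ℂ) =
      ∑ j ∈ range J, ∑ j' ∈ range J,
        ∑ n ∈ range M, sh_c a N (j * g) n * conj (sh_c a N (j' * g) n) := by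
    rw [Complex.ofReal_sum]
    have : ∀ n, ((‖∑ j ∈ range J, sh_c a N (j * g) n‖ ^ 2 : ℝ) : ℂ) =
        ∑ j ∈ range J, ∑ j' ∈ range J, sh_c a N (j * g) n * conj (sh_c a N (j' * g) n) := by
      intro n
      rw [← Complex.normSq_eq_norm_sq, ← Complex.mul_conj, map_sum, sum_mul_sum]
    rw [sum_congr rfl fun n _ => this n, sum_comm]
    exact sum_congr rfl fun j _ => sum_comm
  have e3 : ∑ n ∈ range M, ‖∑ j ∈ range J, sh_c a N (j * g) n‖ ^ 2 ≤ J * N₀ + J ^ 2 * E := by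
    have h0 : 0 ≤ ∑ n ∈ range M, ‖∑ j ∈ range J, sh_c a N (j * g) n‖ ^ 2 :=
      sum_nonneg fun n _ => sq_nonneg _
    rw [← Real.norm_of_nonneg h0, ← Complex.norm_real, e2]
    refine (norm_sum_le_of_le _ fun j hj => norm_sum_le_of_le _ fun j' hj' => hT j hj j' hj').trans
      (le_of_eq ?_)
    rw [sum_congr rfl (g := fun _ => N₀ + J * E) fun j hj => by
      rw [sum_add_distrib, sum_ite_eq, if_pos hj]; simp]
    simp only [sum_const, card_range, nsmul_eq_mul]
    ring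
  have e4 : (J : ℝ) ^ 2 * ‖∑ n ∈ range N, a n‖ ^ 2 ≤ M * (J * N₀ + J ^ 2 * E) := by
    have h1 : (J : ℝ) * ‖∑ n ∈ range N, a n‖ ≤
        ∑ n ∈ range M, ‖∑ j ∈ range J, sh_c a N (j * g) n‖ := by
      have := norm_sum_le (range M) fun n => ∑ j ∈ range J, sh_c a N (j * g) n
      rwa [← e1, norm_mul, Complex.norm_natCast] at this
    have h2 := pow_le_pow_left₀ (by positivity) h1 2
    have h3 := sq_sum_le_card_mul_sum_sq (s := range M)
      (f := fun n => ‖∑ j ∈ range J, sh_c a N (j * g) n‖)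
    rw [card_range] at h3
    rw [mul_pow] at h2
    exact h2.trans (h3.trans (mul_le_mul_of_nonneg_left e3 (Nat.cast_nonneg M)))
  have hM2 : (M : ℝ) ≤ 2 * N₀ := by
    rw [hM]; push_cast; linarith
  have e5 := e4.trans (mul_le_mul_of_nonneg_right hM2 (by positivity))
  have e6 : 2 * N₀ * (J * N₀ + J ^ 2 * E) = (J : ℝ) ^ 2 * (2 * N₀ ^ 2 / J + 2 * N₀ * E) := by
    field_simp
  rw [e6] at e5
  exact le_of_mul_le_mul_left e5 (by positivity)

theorem half_le_c {d : ℝ} (hd : |d| ≤ 1) : |d| / 2 ≤ ‖eI d - 1‖ := by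
  have h : ‖eI d - 1‖ = 2 * |Real.sin (d / 2)| := by
    rw [eI, mul_comm, Complex.norm_exp_I_mul_ofReal_sub_one, Real.norm_eq_abs, abs_mul, abs_two]
  have hpi := Real.pi_gt_three
  have hpi4 := Real.pi_le_four
  have h1 : |d / 2| = |d| / 2 := by rw [abs_div, abs_two]
  have h2 := Real.mul_abs_le_abs_sin (x := d / 2) (by rw [h1]; linarith)
  have h3 : (1 : ℝ) / 2 ≤ 2 / Real.pi := by
    rw [div_le_div_iff₀ (by norm_num) (by linarith)]; linarith
  have h4 := mul_le_mul_of_nonneg_right h3 (abs_nonneg (d / 2))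
  rw [h]
  rw [h1] at h2 h4
  linarith

/-- The first derivative test by partial summation. -/
theorem first_test (ψ : ℕ → ℝ) (N : ℕ) (μ μ' : ℝ) (hμ : 0 < μ)
    (h1 : ∀ n ≤ N, μ ≤ |ψ (n + 1) - ψ n| ∧ |ψ (n + 1) - ψ n| ≤ 1)
    (h2 : ∀ n < N, |ψ (n + 2) - ψ (n + 1) - (ψ (n + 1) - ψ n)| ≤ μ') :
    ‖∑ n ∈ range N, eI (ψ n)‖ ≤ 4 / μ + 4 * N * μ' / μ ^ 2 := by
  set u : ℕ → ℂ := fun n => eI (ψ (n + 1) - ψ n) - 1 with hu
  have hu1 : ∀ n ≤ N, μ / 2 ≤ ‖u n‖ := fun n hn =>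
    le_trans (by linarith [(h1 n hn).1]) (half_le_c (h1 n hn).2)
  have hu0 : ∀ n ≤ N, u n ≠ 0 := fun n hn => by
    have := hu1 n hn
    intro h
    rw [h, norm_zero] at this
    linarith
  have hb : ∀ n ≤ N, ‖(u n)⁻¹‖ ≤ 2 / μ := fun n hn => by
    rw [norm_inv, ← inv_div]
    exact inv_anti₀ (by positivity) (hu1 n hn)
  have hd : ∀ n < N, ‖(u n)⁻¹ - (u (n + 1))⁻¹‖ ≤ 4 * μ' / μ ^ 2 := fun n hn => by
    have e : (u n)⁻¹ - (u (n + 1))⁻¹ = (u (n + 1) - u n) * ((u n)⁻¹ * (u (n + 1))⁻¹) := by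
      have a1 := hu0 n hn.le
      have a2 := hu0 (n + 1) hn
      field_simp
    have e2 : ‖u (n + 1) - u n‖ ≤ μ' := by
      have : u (n + 1) - u n = eI (ψ (n + 2) - ψ (n + 1)) - eI (ψ (n + 1) - ψ n) := by
        simp only [hu]; ring
      rw [this]
      exact (norm_eI_sub_le _ _).trans (h2 n hn)
    have hμ' : 0 ≤ μ' := (norm_nonneg _).trans e2
    rw [e, norm_mul, norm_mul]
    calc _ ≤ μ' * (2 / μ * (2 / μ)) :=
          mul_le_mul e2 (mul_le_mul (hb n hn.le) (hb (n + 1) hn) (norm_nonneg _) (by positivity))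
            (by positivity) hμ'
      _ = _ := by field_simp; norm_num
  have key : ∀ M ≤ N, ‖∑ n ∈ range M, eI (ψ n) - (u M)⁻¹ * eI (ψ M) + (u 0)⁻¹ * eI (ψ 0)‖ ≤
      M * (4 * μ' / μ ^ 2) := by
    intro M
    induction M with
    | zero => intro _; simp
    | succ M ih =>
      intro hM
      have a1 := hu0 M (by omega)
      have e1 : eI (ψ (M + 1)) = eI (ψ M) * (u M + 1) := by
        simp only [hu, sub_add_cancel]
        rw [← eI_add]; congr 1; ring
      have e2 : (u M)⁻¹ * eI (ψ (M + 1)) = eI (ψ M) + (u M)⁻¹ * eI (ψ M) := by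
        rw [e1]; field_simp
      have e : ∑ n ∈ range (M + 1), eI (ψ n) - (u (M + 1))⁻¹ * eI (ψ (M + 1)) +
          (u 0)⁻¹ * eI (ψ 0) =
          (∑ n ∈ range M, eI (ψ n) - (u M)⁻¹ * eI (ψ M) + (u 0)⁻¹ * eI (ψ 0)) +
            ((u M)⁻¹ - (u (M + 1))⁻¹) * eI (ψ (M + 1)) := by
        rw [sum_range_succ]
        linear_combination -e2
      rw [e]
      refine (norm_add_le _ _).trans ?_
      rw [norm_mul, norm_eI, mul_one]
      have := ih (by omega)
      have := hd M (by omega)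
      push_cast
      linarith
  have k := key N le_rfl
  have e : ∑ n ∈ range N, eI (ψ n) =
      (∑ n ∈ range N, eI (ψ n) - (u N)⁻¹ * eI (ψ N) + (u 0)⁻¹ * eI (ψ 0)) +
        ((u N)⁻¹ * eI (ψ N) - (u 0)⁻¹ * eI (ψ 0)) := by ring
  rw [e]
  refine (norm_add_le _ _).trans ?_
  have k2 := norm_sub_le ((u N)⁻¹ * eI (ψ N)) ((u 0)⁻¹ * eI (ψ 0))
  rw [norm_mul, norm_mul, norm_eI, norm_eI, mul_one, mul_one] at k2
  have b1 := hb N le_rfl
  have b2 := hb 0 (Nat.zero_le N)
  have e3 : 4 / μ + 4 * N * μ' / μ ^ 2 = N * (4 * μ' / μ ^ 2) + (2 / μ + 2 / μ) := by ring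
  rw [e3]
  linarith

theorem mvt_c {F : ℕ → ℝ → ℝ} (hF : ∀ j x, 0 ≤ x → HasDerivAt (F j) (F (j + 1) x) x) (j : ℕ)
    {x h : ℝ} (hx : 0 ≤ x) (hh : 0 < h) :
    ∃ ξ, x ≤ ξ ∧ ξ ≤ x + h ∧ F j (x + h) - F j x = h * F (j + 1) ξ := by
  obtain ⟨ξ, hξ, e⟩ := exists_hasDerivAt_eq_slope (F j) (F (j + 1)) (show x < x + h by linarith)
    (fun y hy => (hF j y (hx.trans hy.1)).continuousAt.continuousWithinAt)
    (fun y hy => hF j y (hx.trans hy.1.le))
  refine ⟨ξ, hξ.1.le, hξ.2.le, ?_⟩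
  rw [e, add_sub_cancel_left]
  field_simp

theorem diff_c {F : ℕ → ℝ → ℝ} (hF : ∀ j x, 0 ≤ x → HasDerivAt (F j) (F (j + 1) x) x) {h : ℝ}
    (hh : 0 ≤ h) (j : ℕ) (x : ℝ) (hx : 0 ≤ x) :
    HasDerivAt (fun y => F j (y + h) - F j y) (F (j + 1) (x + h) - F (j + 1) x) x :=
  (HasDerivAt.comp_add_const x h (hF j (x + h) (by linarith))).sub (hF j x hx)

theorem le_of_sq_le_sq_c {a b : ℝ} (hb : 0 ≤ b) (h : a ^ 2 ≤ b ^ 2) : a ≤ b :=
  (abs_le_of_sq_le_sq' h hb).2

/-- The derivative test of order `r + 1`. -/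
theorem vdc (r : ℕ) : ∀ (F : ℕ → ℝ → ℝ), (∀ j x, 0 ≤ x → HasDerivAt (F j) (F (j + 1) x) x) →
    ∀ (N J g : ℕ) (N₀ lam Lam Lam' β : ℝ), 0 < J → 0 < g → (N : ℝ) ≤ N₀ → (J : ℝ) * g ≤ N₀ →
    0 < lam → (∀ x : ℝ, 0 ≤ x → x ≤ N + 2 →
      lam ≤ |F (r + 1) x| ∧ |F (r + 1) x| ≤ Lam ∧ |F (r + 2) x| ≤ Lam') →
    ((J : ℝ) * g) ^ r * Lam ≤ 1 →
    4 / ((g : ℝ) ^ r * lam) + 4 * N₀ * (((J : ℝ) * g) ^ r * Lam') / ((g : ℝ) ^ r * lam) ^ 2 ≤
      N₀ / J →
    0 < β → β ≤ 1 → 1 / (J : ℝ) ≤ β ^ 2 ^ r →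
    ‖∑ n ∈ range N, eI (F 0 n)‖ ≤ 4 * N₀ * β := by
  induction r with
  | zero =>
    intro F hF N J g N₀ lam Lam Lam' β hJ hg hN hJg hlam hb hL hc hβ hβ1 hJβ
    simp only [pow_zero, one_mul, pow_one, zero_add] at hb hL hc hJβ
    have hN0 : 0 ≤ N₀ := (Nat.cast_nonneg N).trans hN
    have hL' : 0 ≤ Lam' := (abs_nonneg _).trans (hb 0 le_rfl (by positivity)).2.2
    have t := first_test (fun n => F 0 n) N lam Lam' hlam
      (fun n hn => by
        have hn' : (n : ℝ) ≤ N := by exact_mod_cast hn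
        obtain ⟨ξ, a1, a2, e⟩ := mvt_c hF 0 (Nat.cast_nonneg n) one_pos
        have := hb ξ ((Nat.cast_nonneg n).trans a1) (by linarith)
        push_cast
        rw [e, one_mul]
        exact ⟨this.1, this.2.1.trans hL⟩)
      (fun n hn => by
        have hn' : (n : ℝ) ≤ N := by exact_mod_cast hn.le
        obtain ⟨ξ, a1, a2, e⟩ := mvt_c (F := fun j y => F j (y + 1) - F j y)
          (diff_c hF zero_le_one) 0 (Nat.cast_nonneg n) one_pos
        have hξ := (Nat.cast_nonneg n).trans a1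
        obtain ⟨ζ, b1, b2, e'⟩ := mvt_c hF (0 + 1) hξ one_pos
        have := hb ζ (hξ.trans b1) (by linarith)
        push_cast
        have e2 : (n : ℝ) + 2 = n + 1 + 1 := by ring
        rw [e2, e, e', one_mul, one_mul]
        exact this.2.2)
    have t2 : 4 * (N : ℝ) * Lam' / lam ^ 2 ≤ 4 * N₀ * Lam' / lam ^ 2 := by gcongr
    have t3 : N₀ / J ≤ N₀ * β := by
      rw [div_eq_mul_one_div]; exact mul_le_mul_of_nonneg_left hJβ hN0
    have t4 : 0 ≤ N₀ * β := by positivity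
    linarith
  | succ r ih =>
    intro F hF N J g N₀ lam Lam Lam' β hJ hg hN hJg hlam hb hL hc hβ hβ1 hJβ
    have hN0 : 0 ≤ N₀ := (Nat.cast_nonneg N).trans hN
    have hg' : (0 : ℝ) < g := by exact_mod_cast hg
    have hL' : 0 ≤ Lam' := (abs_nonneg _).trans (hb 0 le_rfl (by positivity)).2.2
    have hL0 : 0 ≤ Lam := (abs_nonneg _).trans (hb 0 le_rfl (by positivity)).2.1
    have t := vdc_ineq (fun n => eI (F 0 n)) (fun n => (norm_eI _).le) N J g hJ N₀
      (4 * N₀ * β ^ 2) hN hJg (by positivity) (fun j hj1 hjJ => by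
        by_cases hjN : N ≤ j * g
        · rw [Nat.sub_eq_zero_of_le hjN]
          simp only [range_zero, sum_empty, norm_zero]
          positivity
        have hjN' : j * g ≤ N := (not_le.1 hjN).le
        have hj1' : (1 : ℝ) ≤ j := by exact_mod_cast hj1
        have hjJ' : (j : ℝ) ≤ J := by exact_mod_cast hjJ.le
        have hh1 : (g : ℝ) ≤ j * g := le_mul_of_one_le_left hg'.le hj1'
        have hh2 : (j : ℝ) * g ≤ J * g := mul_le_mul_of_nonneg_right hjJ' hg'.le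
        have hh : (0 : ℝ) < j * g := hg'.trans_le hh1
        have hc' : ((N - j * g : ℕ) : ℝ) = N - j * g := by
          rw [Nat.cast_sub hjN']; push_cast; rfl
        have := ih (fun i y => F i (y + j * g) - F i y) (diff_c hF hh.le) (N - j * g) J g N₀
          (g * lam) (J * g * Lam) (J * g * Lam') (β ^ 2) hJ hg (by rw [hc']; linarith) hJg
          (by positivity)
          (fun x hx hx2 => by
            rw [hc'] at hx2
            obtain ⟨ξ, a1, a2, e⟩ := mvt_c hF (r + 1) hx hh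
            obtain ⟨ζ, b1, b2, e'⟩ := mvt_c hF (r + 2) hx hh
            have c1 := hb ξ (hx.trans a1) (by linarith)
            have c2 := hb ζ (hx.trans b1) (by linarith)
            simp only [e, e', abs_mul, abs_of_pos hh]
            exact ⟨mul_le_mul hh1 c1.1 hlam.le hh.le,
              mul_le_mul hh2 c1.2.1 (abs_nonneg _) (hh.le.trans hh2),
              mul_le_mul hh2 c2.2.2 (abs_nonneg _) (hh.le.trans hh2)⟩)
          (by rw [← mul_assoc, ← pow_succ]; exact hL)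
          (by simp only [← mul_assoc, ← pow_succ] at hc ⊢
              rw [mul_assoc (4 * N₀ * ((J : ℝ) * g) ^ r), mul_assoc (4 * N₀), ← pow_succ]
              exact hc)
          (by positivity) (pow_le_one₀ hβ.le hβ1)
          (by rw [← pow_mul, ← pow_succ']; exact hJβ)
        refine le_trans (le_of_eq ?_) this
        congr 1
        refine sum_congr rfl fun n _ => ?_
        rw [conj_eI, ← eI_add]
        push_cast
        rfl)
    have t1 : 1 / (J : ℝ) ≤ β ^ 2 :=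
      hJβ.trans (pow_le_pow_of_le_one hβ.le hβ1 (by
        rw [pow_succ]; exact Nat.le_mul_of_pos_left 2 (by positivity)))
    have t2 : 2 * N₀ ^ 2 / J ≤ 2 * N₀ ^ 2 * β ^ 2 := by
      rw [div_eq_mul_one_div]; exact mul_le_mul_of_nonneg_left t1 (by positivity)
    have t3 : 0 ≤ N₀ ^ 2 * β ^ 2 := by positivity
    refine le_of_sq_le_sq_c (by positivity) ?_
    nlinarith

end Pool.Agent.Lib.MP_232f4c_nt.Gap
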