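import Mathlib

/-!
The derivatives of a combination of shifted logarithms and their size at infinity.
-/

namespace Pool.Agent.Lib.MP_232f4c_nt.Gap

open Finset Filter

/-- The derivatives of `x ↦ ∑ c i * log (x + i)`. -/
noncomputable def lph (T : Finset ℕ) (c : ℕ → ℝ) : ℕ → ℝ → ℝ
  | 0, x => ∑ i ∈ T, c i * Real.log (x + i)
  | j + 1, x => ∑ i ∈ T, c i * ((-1) ^ j * (j.factorial : ℝ) / (x + i) ^ (j + 1))

theorem hasDerivAt_lph (T : Finset ℕ) (c : ℕ → ℝ) (j : ℕ) {x : ℝ} (hx : 0 < x) :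
    HasDerivAt (lph T c j) (lph T c (j + 1) x) x := by
  have hp : ∀ i : ℕ, (x + i : ℝ) ≠ 0 := fun i => by positivity
  cases j with
  | zero =>
    have : lph T c 0 = fun x => ∑ i ∈ T, c i * Real.log (x + i) := by funext y; rfl
    rw [this]
    simp only [lph]
    refine HasDerivAt.fun_sum fun i _ => HasDerivAt.const_mul _ ?_
    have h := ((hasDerivAt_id x).add_const (i : ℝ)).log (hp i)
    simpa using h
  | succ j =>
    have : lph T c (j + 1) =
        fun x => ∑ i ∈ T, c i * ((-1) ^ j * (j.factorial : ℝ) / (x + i) ^ (j + 1)) := by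
      funext y; rfl
    rw [this]
    simp only [lph]
    refine HasDerivAt.fun_sum fun i _ => HasDerivAt.const_mul _ ?_
    have h1 : HasDerivAt (fun y : ℝ => (y + i) ^ (j + 1)) (((j + 1 : ℕ) : ℝ) * (x + i) ^ j) x := by
      have h := ((hasDerivAt_id x).add_const (i : ℝ)).fun_pow (j + 1)
      simpa using h
    have h2 := (hasDerivAt_const x ((-1) ^ j * (j.factorial : ℝ))).fun_div h1
      (pow_ne_zero _ (hp i))
    convert h2 using 1
    have := hp i
    rw [Nat.factorial_succ]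
    push_cast
    field_simp
    ring

/-- Moments of the coefficients. -/
noncomputable def mom_d1 (T : Finset ℕ) (c : ℕ → ℝ) (j : ℕ) : ℝ := ∑ i ∈ T, c i * (i : ℝ) ^ j

/-- Weighted sums of negative powers. -/
noncomputable def gg_d1 (T : Finset ℕ) (c : ℕ → ℝ) (l j : ℕ) (x : ℝ) : ℝ :=
  ∑ i ∈ T, c i * (i : ℝ) ^ j / (x + i) ^ l

theorem exists_mom_d1 (T : Finset ℕ) (c : ℕ → ℝ) (hc : ∃ i ∈ T, c i ≠ 0) :
    ∃ j, j < #T ∧ mom_d1 T c j ≠ 0 := by
  obtain ⟨i₀, hi₀, hc⟩ := hc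
  by_contra h
  push Not at h
  set p : Polynomial ℝ := ∏ i ∈ T.erase i₀, (Polynomial.X - Polynomial.C (i : ℝ)) with hp
  have hdeg : p.natDegree < #T := by
    rw [hp, Polynomial.natDegree_prod_of_monic _ _ fun i _ => Polynomial.monic_X_sub_C _]
    simp only [Polynomial.natDegree_X_sub_C, Finset.sum_const, smul_eq_mul, mul_one]
    exact Finset.card_erase_lt_of_mem hi₀
  have h1 : ∑ i ∈ T, c i * p.eval (i : ℝ) = 0 := by
    simp only [Polynomial.eval_eq_sum_range' hdeg, Finset.mul_sum]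
    rw [Finset.sum_comm]
    refine Finset.sum_eq_zero fun j hj => ?_
    have h2 := h j (Finset.mem_range.1 hj)
    calc ∑ i ∈ T, c i * (p.coeff j * (i : ℝ) ^ j) = p.coeff j * mom_d1 T c j := by
          rw [mom_d1, Finset.mul_sum]
          exact Finset.sum_congr rfl fun i _ => by ring
      _ = 0 := by rw [h2, mul_zero]
  rw [Finset.sum_eq_single i₀] at h1
  · rcases mul_eq_zero.1 h1 with h3 | h3
    · exact hc h3
    · rw [hp, Polynomial.eval_prod, Finset.prod_eq_zero_iff] at h3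
      obtain ⟨i, hi, h4⟩ := h3
      simp only [Polynomial.eval_sub, Polynomial.eval_X, Polynomial.eval_C] at h4
      have : i₀ = i := by exact_mod_cast sub_eq_zero.1 h4
      exact (Finset.mem_erase.1 hi).1 this.symm
  · intro i hi hne
    rw [hp, Polynomial.eval_prod, Finset.prod_eq_zero (Finset.mem_erase.2 ⟨hne, hi⟩) (by simp),
      mul_zero]
  · intro h5
    exact absurd hi₀ h5

theorem gg_rec_d1 (T : Finset ℕ) (c : ℕ → ℝ) (l j : ℕ) {x : ℝ} (hx : 0 < x) :
    x * gg_d1 T c (l + 1) j x = gg_d1 T c l j x - gg_d1 T c (l + 1) (j + 1) x := by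
  simp only [gg_d1, Finset.mul_sum, ← Finset.sum_sub_distrib]
  refine Finset.sum_congr rfl fun i _ => ?_
  have : (x + i : ℝ) ≠ 0 := by positivity
  field_simp
  ring

theorem tendsto_ratio_d1 (i : ℕ) : Tendsto (fun x : ℝ => x / (x + i)) atTop (nhds 1) := by
  have h1 : Tendsto (fun x : ℝ => (i : ℝ) / (x + i)) atTop (nhds 0) :=
    tendsto_const_nhds.div_atTop (tendsto_atTop_add_const_right _ _ tendsto_id)
  have h2 := (tendsto_const_nhds (x := (1 : ℝ))).sub h1
  rw [sub_zero] at h2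
  refine h2.congr' ?_
  filter_upwards [eventually_gt_atTop 0] with x hx
  have : (x + i : ℝ) ≠ 0 := by positivity
  field_simp
  ring

theorem gg_lim_d1 (T : Finset ℕ) (c : ℕ → ℝ) (j₀ : ℕ) (h0 : ∀ j < j₀, mom_d1 T c j = 0) (r : ℕ) :
    ∀ l j, j + r = j₀ → ∃ a : ℝ, 0 ≤ a ∧ (1 ≤ l → 0 < a) ∧
      Tendsto (fun x : ℝ => x ^ (l + r) * gg_d1 T c l j x) atTop
        (nhds ((-1) ^ r * a * mom_d1 T c j₀)) := by
  induction r with
  | zero =>
    intro l j hj
    obtain rfl : j = j₀ := by simpa using hj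
    refine ⟨1, zero_le_one, fun _ => one_pos, ?_⟩
    have h1 : Tendsto (fun x : ℝ => ∑ i ∈ T, c i * (i : ℝ) ^ j * (x / (x + i)) ^ l) atTop
        (nhds (∑ i ∈ T, c i * (i : ℝ) ^ j * 1 ^ l)) :=
      tendsto_finsetSum _ fun i _ => ((tendsto_ratio_d1 i).pow l).const_mul _
    simp only [one_pow, mul_one] at h1
    simp only [pow_zero, mul_one, one_mul, add_zero, mom_d1]
    refine h1.congr fun x => ?_
    simp only [gg_d1, Finset.mul_sum]
    refine Finset.sum_congr rfl fun i _ => ?_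
    rw [div_pow]
    ring
  | succ r ih =>
    intro l j hj
    induction l with
    | zero =>
      refine ⟨0, le_rfl, fun h => absurd h (by omega), ?_⟩
      have h1 : ∀ x : ℝ, gg_d1 T c 0 j x = 0 := fun x => by
        have := h0 j (by omega)
        simpa [gg_d1, mom_d1] using this
      simp only [h1, mul_zero, zero_mul]
      exact tendsto_const_nhds
    | succ l ihl =>
      obtain ⟨a₁, ha₁, -, t₁⟩ := ihl
      obtain ⟨a₂, -, ha₂, t₂⟩ := ih (l + 1) (j + 1) (by omega)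
      have ha₂' := ha₂ (by omega)
      refine ⟨a₁ + a₂, by linarith, fun _ => by linarith, ?_⟩
      have t := t₁.sub t₂
      have e : (-1 : ℝ) ^ (r + 1) * a₁ * mom_d1 T c j₀ - (-1) ^ r * a₂ * mom_d1 T c j₀ =
          (-1) ^ (r + 1) * (a₁ + a₂) * mom_d1 T c j₀ := by ring
      rw [e] at t
      refine t.congr' ?_
      filter_upwards [eventually_gt_atTop 0] with x hx
      have h2 := gg_rec_d1 T c l j hx
      calc x ^ (l + (r + 1)) * gg_d1 T c l j x - x ^ (l + 1 + r) * gg_d1 T c (l + 1) (j + 1) x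
          = x ^ (l + r + 1) * (gg_d1 T c l j x - gg_d1 T c (l + 1) (j + 1) x) := by ring
        _ = x ^ (l + 1 + (r + 1)) * gg_d1 T c (l + 1) j x := by rw [← h2]; ring

theorem lph_lim_d1 (T : Finset ℕ) (c : ℕ → ℝ) (j₀ : ℕ) (h0 : ∀ j < j₀, mom_d1 T c j = 0)
    (h1 : mom_d1 T c j₀ ≠ 0) (l : ℕ) : ∃ v : ℝ, 0 < v ∧
      Tendsto (fun x : ℝ => |lph T c (l + 1) x| * x ^ (l + 1 + j₀)) atTop (nhds v) := by
  obtain ⟨a, -, ha, t⟩ := gg_lim_d1 T c j₀ h0 j₀ (l + 1) 0 (by simp)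
  have ha' := ha (by omega)
  have hf : (0 : ℝ) < l.factorial := by exact_mod_cast l.factorial_pos
  refine ⟨|(-1) ^ l * (l.factorial : ℝ) * ((-1) ^ j₀ * a * mom_d1 T c j₀)|, ?_, ?_⟩
  · refine abs_pos.2 ?_
    have : (-1 : ℝ) ≠ 0 := by norm_num
    positivity
  · refine ((t.const_mul ((-1) ^ l * (l.factorial : ℝ))).abs).congr' ?_
    filter_upwards [eventually_gt_atTop 0] with x hx
    have e : lph T c (l + 1) x = (-1) ^ l * (l.factorial : ℝ) * gg_d1 T c (l + 1) 0 x := by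
      simp only [lph, gg_d1, Finset.mul_sum]
      exact Finset.sum_congr rfl fun i _ => by ring
    have hx' : 0 < x ^ (l + 1 + j₀) := pow_pos hx _
    rw [e, ← abs_of_pos hx', ← abs_mul, abs_of_pos hx']
    congr 1
    ring

/-- All derivatives of order `l` between `1` and `L` have exact size `x ^ (-(l + j₀))`. -/
theorem lph_size (T : Finset ℕ) (c : ℕ → ℝ) (hc : ∃ i ∈ T, c i ≠ 0) :
    ∃ j₀ : ℕ, j₀ < #T ∧ ∀ L : ℕ, ∃ c₀ C₀ : ℝ, 0 < c₀ ∧ c₀ ≤ C₀ ∧ ∀ᶠ x : ℝ in atTop,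
      ∀ l, 1 ≤ l → l ≤ L →
        c₀ ≤ |lph T c l x| * x ^ (l + j₀) ∧ |lph T c l x| * x ^ (l + j₀) ≤ C₀ := by
  classical
  have hex := exists_mom_d1 T c hc
  have hex' : ∃ j, mom_d1 T c j ≠ 0 := hex.imp fun j h => h.2
  have h1 : mom_d1 T c (Nat.find hex') ≠ 0 := Nat.find_spec hex'
  have h0 : ∀ j < Nat.find hex', mom_d1 T c j = 0 := fun j hj => by
    simpa using Nat.find_min hex' hj
  obtain ⟨j₁, hj₁, hj₁'⟩ := hex
  refine ⟨Nat.find hex', lt_of_le_of_lt (Nat.find_min' hex' hj₁') hj₁, fun L => ?_⟩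
  induction L with
  | zero => exact ⟨1, 1, one_pos, le_rfl, Eventually.of_forall fun x l h h' => by omega⟩
  | succ L ih =>
    obtain ⟨c₀, C₀, hc₀, hC₀, H⟩ := ih
    obtain ⟨v, hv, t⟩ := lph_lim_d1 T c _ h0 h1 L
    refine ⟨min c₀ (v / 2), max C₀ (2 * v), lt_min hc₀ (by linarith),
      (min_le_left _ _).trans (hC₀.trans (le_max_left _ _)), ?_⟩
    filter_upwards [H, t.eventually (lt_mem_nhds (show v / 2 < v by linarith)),
      t.eventually (gt_mem_nhds (show v < 2 * v by linarith))] with x hx ha hb l hl hl'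
    rcases Nat.lt_or_ge l (L + 1) with h | h
    · obtain ⟨u₁, u₂⟩ := hx l hl (by omega)
      exact ⟨(min_le_left _ _).trans u₁, u₂.trans (le_max_left _ _)⟩
    · obtain rfl : l = L + 1 := by omega
      exact ⟨(min_le_right _ _).trans ha.le, hb.le.trans (le_max_right _ _)⟩

end Pool.Agent.Lib.MP_232f4c_nt.Gap
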