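import Pool.Agent.Lib.MP_232f4c_nt.GapC
import Pool.Agent.Lib.MP_232f4c_nt.GapD1

/-!
Cancellation in sums of `∏ (x + i) ^ (i t c i)` along arithmetic progressions, for large `t`.
-/

namespace Pool.Agent.Lib.MP_232f4c_nt.Gap

open Finset Filter

theorem exists_step_d2 {w ν : ℝ} {r : ℕ} (hr : 1 ≤ r) (hw : 1 ≤ w) (h1 : 1 / w ^ 5 ≤ ν)
    (h2 : ν ≤ 1 / w) :
    ∃ g : ℕ, 0 < g ∧ (g : ℝ) ≤ 2 * w ^ 2 ∧ 1 / w ^ 3 ≤ (g : ℝ) ^ r * ν ∧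
      (g : ℝ) ^ r * ν ≤ 2 ^ r / w := by
  have hw0 : 0 < w := by linarith
  have hν : 0 < ν := lt_of_lt_of_le (by positivity) h1
  have hw2 : 1 ≤ w ^ 2 := one_le_pow₀ hw
  have hc : 0 < ⌈w ^ 2⌉₊ ∧ 1 / w ^ 3 ≤ ((⌈w ^ 2⌉₊ : ℕ) : ℝ) ^ r * ν := by
    refine ⟨Nat.ceil_pos.2 (by positivity), ?_⟩
    have h3 : w ^ 2 ≤ ((⌈w ^ 2⌉₊ : ℕ) : ℝ) := Nat.le_ceil _
    have h4 : ((⌈w ^ 2⌉₊ : ℕ) : ℝ) ≤ ((⌈w ^ 2⌉₊ : ℕ) : ℝ) ^ r :=
      le_self_pow₀ (hw2.trans h3) (by omega)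
    calc 1 / w ^ 3 = w ^ 2 * (1 / w ^ 5) := by field_simp
      _ ≤ _ := mul_le_mul (h3.trans h4) h1 (by positivity) (by positivity)
  have hex : ∃ g : ℕ, 0 < g ∧ 1 / w ^ 3 ≤ (g : ℝ) ^ r * ν := ⟨_, hc⟩
  classical
  have hs := Nat.find_spec hex
  have hle : Nat.find hex ≤ ⌈w ^ 2⌉₊ := Nat.find_min' hex hc
  have h2r : (1 : ℝ) ≤ 2 ^ r := one_le_pow₀ (by norm_num)
  refine ⟨Nat.find hex, hs.1, ?_, hs.2, ?_⟩
  · have h3 : ((Nat.find hex : ℕ) : ℝ) ≤ ((⌈w ^ 2⌉₊ : ℕ) : ℝ) := by exact_mod_cast hle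
    have h4 := Nat.ceil_lt_add_one (show 0 ≤ w ^ 2 by positivity)
    linarith
  · obtain ⟨k, hk⟩ : ∃ k, Nat.find hex = k + 1 := ⟨Nat.find hex - 1, by have := hs.1; omega⟩
    rcases Nat.eq_zero_or_pos k with h0 | h0
    · rw [hk, h0]
      simp only [zero_add, Nat.cast_one, one_pow, one_mul]
      exact h2.trans (div_le_div_of_nonneg_right h2r hw0.le)
    · have hm := Nat.find_min hex (show k < Nat.find hex by omega)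
      have hlt : (k : ℝ) ^ r * ν < 1 / w ^ 3 := by
        by_contra hcon
        exact hm ⟨h0, not_lt.1 hcon⟩
      have hk1 : (1 : ℝ) ≤ k := by exact_mod_cast h0
      have h5 : ((k + 1 : ℕ) : ℝ) ^ r ≤ 2 ^ r * (k : ℝ) ^ r := by
        rw [← mul_pow]
        refine pow_le_pow_left₀ (by positivity) ?_ r
        push_cast
        linarith
      have h6 : 1 / w ^ 3 ≤ 1 / w :=
        one_div_le_one_div_of_le hw0 (le_self_pow₀ hw (by norm_num))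
      rw [hk]
      calc ((k + 1 : ℕ) : ℝ) ^ r * ν ≤ 2 ^ r * (k : ℝ) ^ r * ν :=
            mul_le_mul_of_nonneg_right h5 hν.le
        _ = 2 ^ r * ((k : ℝ) ^ r * ν) := by ring
        _ ≤ 2 ^ r * (1 / w) := mul_le_mul_of_nonneg_left (hlt.le.trans h6) (by positivity)
        _ = 2 ^ r / w := by ring

theorem core_d2 (F : ℕ → ℝ → ℝ) (hF : ∀ j x, 0 ≤ x → HasDerivAt (F j) (F (j + 1) x) x)
    (N : ℕ) {w ν c₁ C₁ β : ℝ} {r J M : ℕ} (hr : 1 ≤ r) (hrM : r ≤ M) (hw : 1 ≤ w)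
    (hN : (N : ℝ) ≤ 2 * w ^ 4) (h1 : 1 / w ^ 5 ≤ ν) (h2 : ν ≤ 1 / w) (hc : 0 < c₁) (hC : 0 < C₁)
    (hb : ∀ x : ℝ, 0 ≤ x → x ≤ N + 2 →
      c₁ * ν ≤ |F (r + 1) x| ∧ |F (r + 1) x| ≤ C₁ * ν ∧ |F (r + 2) x| ≤ C₁ * (ν / w ^ 4))
    (hJ : 0 < J) (hK : (1 + C₁ * 2 ^ M + 4 / c₁ + 8 * C₁ / c₁ ^ 2) * (J : ℝ) ^ (M + 1) ≤ w)
    (hβ : 0 < β) (hβ1 : β ≤ 1) (hJβ : 1 / (J : ℝ) ≤ β ^ 2 ^ M) :
    ‖∑ n ∈ range N, eI (F 0 n)‖ ≤ 8 * w ^ 4 * β := by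
  obtain ⟨g, hg0, hg1, hg2, hg3⟩ := exists_step_d2 hr hw h1 h2
  have hw0 : 0 < w := by linarith
  have hν : 0 < ν := lt_of_lt_of_le (by positivity) h1
  have hJ1 : (1 : ℝ) ≤ J := by exact_mod_cast hJ
  have hgp : (0 : ℝ) < g := by exact_mod_cast hg0
  set Q : ℝ := (J : ℝ) ^ (M + 1) with hQ
  have hQ1 : (J : ℝ) ≤ Q := le_self_pow₀ hJ1 (by omega)
  have hQ2 : (J : ℝ) ^ r ≤ Q := pow_le_pow_right₀ hJ1 (by omega)
  have hQ3 : (J : ℝ) ^ r * J ≤ Q := by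
    rw [← pow_succ]; exact pow_le_pow_right₀ hJ1 (by omega)
  have hQ0 : 0 < Q := by positivity
  have e1 : 0 ≤ C₁ * 2 ^ M * Q := by positivity
  have e2 : 0 ≤ 4 / c₁ * Q := by positivity
  have e3 : 0 ≤ 8 * C₁ / c₁ ^ 2 * Q := by positivity
  have hQw : Q ≤ w := by nlinarith
  have hK2 : C₁ * 2 ^ M * Q ≤ w := by nlinarith
  have hK3 : 4 / c₁ * Q + 8 * C₁ / c₁ ^ 2 * Q ≤ w := by nlinarith
  have key := vdc r F hF N J g (2 * w ^ 4) (c₁ * ν) (C₁ * ν) (C₁ * (ν / w ^ 4)) β hJ hg0 hN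
    ?_ (by positivity) hb ?_ ?_ hβ hβ1 ?_
  · linarith
  · have : (J : ℝ) ≤ w ^ 2 := (hQ1.trans hQw).trans (le_self_pow₀ hw (by norm_num))
    calc (J : ℝ) * g ≤ w ^ 2 * (2 * w ^ 2) := mul_le_mul this hg1 hgp.le (by positivity)
      _ = 2 * w ^ 4 := by ring
  · have h2r : (2 : ℝ) ^ r ≤ 2 ^ M := pow_le_pow_right₀ (by norm_num) hrM
    calc ((J : ℝ) * g) ^ r * (C₁ * ν) = C₁ * (J : ℝ) ^ r * ((g : ℝ) ^ r * ν) := by
          rw [mul_pow]; ring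
      _ ≤ C₁ * Q * (2 ^ M / w) := by
          refine mul_le_mul (mul_le_mul_of_nonneg_left hQ2 hC.le)
            (hg3.trans (div_le_div_of_nonneg_right h2r hw0.le)) (by positivity) (by positivity)
      _ = C₁ * 2 ^ M * Q / w := by ring
      _ ≤ 1 := (div_le_one hw0).2 hK2
  · set μ : ℝ := (g : ℝ) ^ r * ν with hμ
    have hμ0 : 0 < μ := by positivity
    have hinv : 1 / μ ≤ w ^ 3 := by
      rw [div_le_iff₀ hμ0]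
      rw [div_le_iff₀ (by positivity)] at hg2
      linarith
    have e : 4 / ((g : ℝ) ^ r * (c₁ * ν)) + 4 * (2 * w ^ 4) *
        (((J : ℝ) * g) ^ r * (C₁ * (ν / w ^ 4))) / ((g : ℝ) ^ r * (c₁ * ν)) ^ 2 =
        (4 / c₁ + 8 * C₁ / c₁ ^ 2 * (J : ℝ) ^ r) * (1 / μ) := by
      rw [hμ, mul_pow]
      field_simp
      ring
    rw [e, le_div_iff₀ (by positivity)]
    have f1 : 4 / c₁ * (J : ℝ) ≤ 4 / c₁ * Q := mul_le_mul_of_nonneg_left hQ1 (by positivity)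
    have f2 : 8 * C₁ / c₁ ^ 2 * ((J : ℝ) ^ r * J) ≤ 8 * C₁ / c₁ ^ 2 * Q :=
      mul_le_mul_of_nonneg_left hQ3 (by positivity)
    calc (4 / c₁ + 8 * C₁ / c₁ ^ 2 * (J : ℝ) ^ r) * (1 / μ) * J =
          (4 / c₁ * (J : ℝ) + 8 * C₁ / c₁ ^ 2 * ((J : ℝ) ^ r * J)) * (1 / μ) := by ring
      _ ≤ w * w ^ 3 := mul_le_mul (by linarith) hinv (by positivity) hw0.le
      _ ≤ 2 * w ^ 4 := by nlinarith [pow_pos hw0 4]
  · exact hJβ.trans (pow_le_pow_of_le_one hβ.le hβ1 (Nat.pow_le_pow_right (by norm_num) hrM))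

theorem size_d2 {c₀ C₀ δ X z u : ℝ} {k K : ℕ} (hk : k ≤ K) (hδ : 0 < δ)
    (hδ1 : δ ≤ 1) (hX : 0 < X) (hz1 : δ * X ≤ z) (hz2 : z ≤ 4 * X) (hu : 0 ≤ u)
    (h1 : c₀ ≤ u * z ^ k) (h2 : u * z ^ k ≤ C₀) :
    c₀ / 4 ^ K ≤ u * X ^ k ∧ u * X ^ k ≤ C₀ / δ ^ K := by
  have hz0 : 0 < z := lt_of_lt_of_le (by positivity) hz1
  constructor
  · rw [div_le_iff₀ (by positivity)]
    have a1 : z ^ k ≤ X ^ k * 4 ^ K := by
      calc z ^ k ≤ (4 * X) ^ k := pow_le_pow_left₀ hz0.le hz2 k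
        _ = X ^ k * 4 ^ k := by rw [mul_pow]; ring
        _ ≤ X ^ k * 4 ^ K :=
          mul_le_mul_of_nonneg_left (pow_le_pow_right₀ (by norm_num) hk) (by positivity)
    calc c₀ ≤ u * z ^ k := h1
      _ ≤ u * (X ^ k * 4 ^ K) := mul_le_mul_of_nonneg_left a1 hu
      _ = _ := by ring
  · rw [le_div_iff₀ (by positivity)]
    have a1 : X ^ k * δ ^ K ≤ z ^ k := by
      calc X ^ k * δ ^ K ≤ X ^ k * δ ^ k :=
          mul_le_mul_of_nonneg_left (pow_le_pow_of_le_one hδ.le hδ1 hk) (by positivity)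
        _ = (δ * X) ^ k := by rw [mul_pow]; ring
        _ ≤ z ^ k := pow_le_pow_left₀ (by positivity) hz1 k
    calc u * X ^ k * δ ^ K = u * (X ^ k * δ ^ K) := by ring
      _ ≤ u * z ^ k := mul_le_mul_of_nonneg_left a1 hu
      _ ≤ C₀ := h2

theorem order_d2 {τ w : ℝ} {M : ℕ} (hw : 1 ≤ w) (h1 : (w ^ 4) ^ 2 ≤ τ) (hw1 : 1 < w ^ 4)
    (h2 : τ ≤ (w ^ 4) ^ M) :
    ∃ r : ℕ, 1 ≤ r ∧ r ≤ M ∧ 1 / w ^ 5 ≤ τ / (w ^ 4) ^ (r + 1) ∧ τ / (w ^ 4) ^ (r + 1) ≤ 1 / w := by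
  have hw0 : 0 < w := by linarith
  have hP : w ≤ w ^ 4 := le_self_pow₀ hw (by norm_num)
  have hM : τ / (w ^ 4) ^ (M + 1) ≤ 1 / w := by
    calc τ / (w ^ 4) ^ (M + 1) ≤ (w ^ 4) ^ M / (w ^ 4) ^ (M + 1) :=
          div_le_div_of_nonneg_right h2 (by positivity)
      _ = 1 / w ^ 4 := by rw [pow_succ (w ^ 4)]; field_simp
      _ ≤ 1 / w := one_div_le_one_div_of_le hw0 hP
  have hex : ∃ r : ℕ, τ / (w ^ 4) ^ (r + 1) ≤ 1 / w := ⟨M, hM⟩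
  classical
  have hs := Nat.find_spec hex
  have hinv : 1 / w ≤ 1 := by rw [div_le_one hw0]; exact hw
  have h0 : Nat.find hex ≠ 0 := by
    intro h
    rw [h, zero_add, pow_one] at hs
    have : w ^ 4 ≤ τ / w ^ 4 := by
      rw [le_div_iff₀ (by positivity), ← pow_two]; exact h1
    linarith
  refine ⟨Nat.find hex, by omega, Nat.find_min' hex hM, ?_, hs⟩
  obtain ⟨k, hk⟩ : ∃ k, Nat.find hex = k + 1 := ⟨Nat.find hex - 1, by omega⟩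
  have hm := not_le.1 (Nat.find_min hex (show k < Nat.find hex by omega))
  rw [hk]
  calc 1 / w ^ 5 = 1 / w / w ^ 4 := by field_simp
    _ ≤ τ / (w ^ 4) ^ (k + 1) / w ^ 4 := div_le_div_of_nonneg_right hm.le (by positivity)
    _ = τ / (w ^ 4) ^ (k + 1 + 1) := by rw [div_div, ← pow_succ]

theorem log_phase (T : Finset ℕ) (c : ℕ → ℝ) (H : ℕ) (hT : #T ≤ H) (hc : ∃ i ∈ T, c i ≠ 0)
    (A δ₀ : ℝ) (hδ : 0 < δ₀) :
    ∃ κ : ℝ, 0 < κ ∧ ∀ᶠ X : ℝ in atTop, ∀ t : ℝ, X ^ (H + 1) ≤ |t| → |t| ≤ X ^ A →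
      ∀ d : ℕ, 0 < d → (d : ℝ) ^ 2 ≤ X → ∀ (x₀ : ℝ) (N : ℕ), δ₀ * X ≤ x₀ → x₀ + d * N ≤ 2 * X →
        ‖∑ m ∈ range N, eI (t * lph T c 0 (x₀ + d * m))‖ ≤ X / d * X ^ (-κ) := by
  obtain ⟨j₀, hj₀, hsz⟩ := lph_size T c hc
  obtain ⟨a, ha⟩ := exists_nat_ge A
  set M : ℕ := 2 * a with hM
  obtain ⟨c₀, C₀, hc₀, hcC, hev⟩ := hsz (M + 2)
  obtain ⟨z₀, hz₀⟩ := eventually_atTop.1 hev
  set δ : ℝ := min δ₀ 1 with hδd
  have hδ0 : 0 < δ := lt_min hδ one_pos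
  have hδ1 : δ ≤ 1 := min_le_right _ _
  have hδ2 : δ ≤ δ₀ := min_le_left _ _
  set c₁ : ℝ := c₀ / 4 ^ (M + 2 + j₀) with hc₁
  set C₁ : ℝ := C₀ / δ ^ (M + 2 + j₀) with hC₁
  have hc₁0 : 0 < c₁ := by positivity
  have hC₀ : 0 < C₀ := hc₀.trans_le hcC
  have hC₁0 : 0 < C₁ := by positivity
  set K : ℝ := 1 + C₁ * 2 ^ M + 4 / c₁ + 8 * C₁ / c₁ ^ 2 with hK
  have hK0 : 0 < K := by positivity
  set q : ℕ := 2 * 2 ^ M * (M + 1) with hq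
  have hq0 : 0 < q := by positivity
  have hκ : (0 : ℝ) < ((16 * q : ℕ) : ℝ)⁻¹ := by positivity
  refine ⟨((16 * q : ℕ) : ℝ)⁻¹, hκ, ?_⟩
  have t1 : Tendsto (fun X : ℝ => X ^ (((16 * q : ℕ) : ℝ)⁻¹)) atTop atTop := tendsto_rpow_atTop hκ
  have t2 : Tendsto (fun X : ℝ => δ * X) atTop atTop := tendsto_id.const_mul_atTop hδ0
  filter_upwards [t1.eventually_ge_atTop (K * 2 ^ (M + 1)), t1.eventually_ge_atTop 8,
    t2.eventually_ge_atTop z₀, eventually_gt_atTop 1] with X hY1 hY2 hXz hX1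
  intro t ht1 ht2 d hd hdX x₀ N hx₀ hN
  have hX0 : 0 < X := by linarith
  have hYX : (X ^ (((16 * q : ℕ) : ℝ)⁻¹)) ^ (16 * q) = X :=
    Real.rpow_inv_natCast_pow hX0.le (by omega)
  rw [Real.rpow_neg hX0.le]
  set Y : ℝ := X ^ (((16 * q : ℕ) : ℝ)⁻¹) with hY
  have hY0 : 0 < Y := by linarith
  have hY3 : 1 ≤ Y := by linarith
  have hd1 : (1 : ℝ) ≤ d := by exact_mod_cast hd
  have hd0 : (0 : ℝ) < d := by linarith
  have hdX' : (d : ℝ) ≤ X := by nlinarith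
  set P : ℝ := X / d with hP
  have hP0 : 0 < P := by positivity
  have hPX : P ≤ X := div_le_self hX0.le hd1
  have hP2 : X ≤ P ^ 2 := by
    rw [hP, div_pow, le_div_iff₀ (by positivity)]
    nlinarith
  have hP1 : 1 < P := by nlinarith
  obtain ⟨w, hw0, hw4⟩ : ∃ w : ℝ, 0 < w ∧ w ^ 4 = P :=
    ⟨P ^ (((4 : ℕ) : ℝ)⁻¹), by positivity, Real.rpow_inv_natCast_pow hP0.le (by norm_num)⟩
  have hwY : Y ^ (2 * q) ≤ w := by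
    refine le_of_pow_le_pow_left₀ (n := 8) (by norm_num) hw0.le ?_
    calc (Y ^ (2 * q)) ^ 8 = Y ^ (16 * q) := by rw [← pow_mul]; congr 1; ring
      _ = X := hYX
      _ ≤ P ^ 2 := hP2
      _ = w ^ 8 := by rw [← hw4]; ring
  have hw1 : 1 ≤ w := (one_le_pow₀ hY3).trans hwY
  set τ : ℝ := |t| / X ^ j₀ with hτ
  have hτ1 : (w ^ 4) ^ 2 ≤ τ := by
    rw [hw4, hτ, le_div_iff₀ (by positivity)]
    calc P ^ 2 * X ^ j₀ ≤ X ^ 2 * X ^ j₀ :=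
          mul_le_mul_of_nonneg_right (pow_le_pow_left₀ hP0.le hPX 2) (by positivity)
      _ = X ^ (2 + j₀) := by rw [pow_add]
      _ ≤ X ^ (H + 1) := pow_le_pow_right₀ hX1.le (by omega)
      _ ≤ |t| := ht1
  have hτ2 : τ ≤ (w ^ 4) ^ M := by
    calc τ ≤ |t| := div_le_self (abs_nonneg t) (one_le_pow₀ hX1.le)
      _ ≤ X ^ A := ht2
      _ ≤ X ^ (a : ℝ) := Real.rpow_le_rpow_of_exponent_le hX1.le ha
      _ = X ^ a := Real.rpow_natCast X a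
      _ ≤ (P ^ 2) ^ a := pow_le_pow_left₀ hX0.le hP2 a
      _ = (w ^ 4) ^ M := by rw [hw4, hM, pow_mul]
  obtain ⟨r, hr1, hrM, hν1, hν2⟩ := order_d2 hw1 hτ1 (by rw [hw4]; exact hP1) hτ2
  have hx₀' : δ * X ≤ x₀ := (mul_le_mul_of_nonneg_right hδ2 hX0.le).trans hx₀
  have hx₀0 : 0 < x₀ := lt_of_lt_of_le (by positivity) hx₀'
  set F : ℕ → ℝ → ℝ := fun j x => t * (d : ℝ) ^ j * lph T c j (x₀ + d * x) with hF
  have hFd : ∀ j x, 0 ≤ x → HasDerivAt (F j) (F (j + 1) x) x := by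
    intro j x hx
    have h1 : HasDerivAt (fun x : ℝ => x₀ + d * x) (d : ℝ) x := by
      simpa using ((hasDerivAt_id x).const_mul (d : ℝ)).const_add x₀
    have h2 := ((hasDerivAt_lph T c j (x := x₀ + d * x) (by positivity)).comp x h1).const_mul
      (t * (d : ℝ) ^ j)
    refine h2.congr_deriv ?_
    simp only [hF]
    ring
  have hFs : ∀ l, 1 ≤ l → l ≤ M + 2 → ∀ x : ℝ, 0 ≤ x → x ≤ N + 2 →
      c₁ * (τ / (w ^ 4) ^ l) ≤ |F l x| ∧ |F l x| ≤ C₁ * (τ / (w ^ 4) ^ l) := by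
    intro l hl1 hl2 x hx1 hx2
    have hz1 : δ * X ≤ x₀ + d * x := hx₀'.trans (le_add_of_nonneg_right (by positivity))
    have hz2 : x₀ + d * x ≤ 4 * X := by nlinarith
    obtain ⟨b1, b2⟩ := hz₀ _ (hXz.trans hz1) l hl1 hl2
    obtain ⟨b3, b4⟩ := size_d2 (K := M + 2 + j₀) (by omega) hδ0 hδ1 hX0 hz1 hz2
      (abs_nonneg _) b1 b2
    have e : |F l x| = |lph T c l (x₀ + d * x)| * X ^ (l + j₀) * (τ / (w ^ 4) ^ l) := by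
      simp only [hF, abs_mul, abs_pow, abs_of_pos hd0]
      rw [hw4, hτ, hP, div_pow, pow_add]
      field_simp
    have hν : 0 ≤ τ / (w ^ 4) ^ l := by positivity
    rw [e]
    exact ⟨mul_le_mul_of_nonneg_right b3 hν, mul_le_mul_of_nonneg_right b4 hν⟩
  have hYp : 1 ≤ Y ^ (2 * 2 ^ M) := one_le_pow₀ hY3
  have hJ1 : Y ^ (2 * 2 ^ M) ≤ ((⌈Y ^ (2 * 2 ^ M)⌉₊ : ℕ) : ℝ) := Nat.le_ceil _
  have hJ2 : ((⌈Y ^ (2 * 2 ^ M)⌉₊ : ℕ) : ℝ) ≤ 2 * Y ^ (2 * 2 ^ M) := by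
    have := Nat.ceil_lt_add_one (show 0 ≤ Y ^ (2 * 2 ^ M) by positivity)
    linarith
  have key := core_d2 F hFd N (w := w) (ν := τ / (w ^ 4) ^ (r + 1)) (c₁ := c₁) (C₁ := C₁)
    (β := (Y ^ 2)⁻¹) (r := r) (J := ⌈Y ^ (2 * 2 ^ M)⌉₊) (M := M) hr1 hrM hw1 ?_ hν1 hν2 hc₁0
    hC₁0 ?_ (Nat.ceil_pos.2 (by positivity)) ?_ (by positivity)
    (inv_le_one_of_one_le₀ (one_le_pow₀ hY3)) ?_
  · simp only [hF, pow_zero, mul_one] at key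
    refine key.trans ?_
    rw [hw4]
    calc 8 * P * (Y ^ 2)⁻¹ = P * Y⁻¹ * (8 / Y) := by field_simp
      _ ≤ P * Y⁻¹ * 1 :=
        mul_le_mul_of_nonneg_left ((div_le_one hY0).2 hY2) (by positivity)
      _ = P * Y⁻¹ := mul_one _
  · rw [hw4, hP, ← mul_div_assoc, le_div_iff₀ hd0]
    nlinarith
  · intro x hx1 hx2
    obtain ⟨b1, b2⟩ := hFs (r + 1) (by omega) (by omega) x hx1 hx2
    obtain ⟨-, b3⟩ := hFs (r + 2) (by omega) (by omega) x hx1 hx2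
    refine ⟨b1, b2, b3.trans (le_of_eq ?_)⟩
    rw [div_div τ, ← pow_succ]
  · have b1 : ((⌈Y ^ (2 * 2 ^ M)⌉₊ : ℕ) : ℝ) ^ (M + 1) ≤ 2 ^ (M + 1) * Y ^ q := by
      refine (pow_le_pow_left₀ (by positivity) hJ2 (M + 1)).trans (le_of_eq ?_)
      rw [mul_pow, ← pow_mul]
    have b2 : Y ≤ Y ^ q := le_self_pow₀ hY3 (by omega)
    calc K * ((⌈Y ^ (2 * 2 ^ M)⌉₊ : ℕ) : ℝ) ^ (M + 1) ≤ K * (2 ^ (M + 1) * Y ^ q) :=
          mul_le_mul_of_nonneg_left b1 hK0.le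
      _ = K * 2 ^ (M + 1) * Y ^ q := by ring
      _ ≤ Y ^ q * Y ^ q := mul_le_mul_of_nonneg_right (hY1.trans b2) (by positivity)
      _ = Y ^ (2 * q) := by rw [← pow_add]; congr 1; ring
      _ ≤ w := hwY
  · rw [inv_pow, ← pow_mul, ← one_div]
    exact one_div_le_one_div_of_le (by positivity) hJ1

end Pool.Agent.Lib.MP_232f4c_nt.Gap
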