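import Pool.Agent.Lib.MP_232f4c_nt.GapB2
import Pool.Agent.Lib.MP_232f4c_nt.GapC
import Pool.Agent.Lib.MP_232f4c_nt.GapD1

/-!
The model function attached to a multiplicative function, a character and a twist.
-/

namespace Pool.Agent.Lib.MP_232f4c_nt.Gap

open Finset Function
open scoped ComplexConjugate

/-- A bounded multiplicative function with value one at one. -/
structure IsMul (f : ℕ → ℂ) : Prop where
  le : ∀ n, ‖f n‖ ≤ 1
  one : f 1 = 1
  mul : ∀ m n : ℕ, 0 < m → 0 < n → m.Coprime n → f (m * n) = f m * f n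

section defs

variable (f : ℕ → ℂ) {q : ℕ} (χ : DirichletCharacter ℂ q) (t : ℝ)

/-- The twisted value at a prime. -/
noncomputable def zz (p : ℕ) : ℂ := f p * conj (χ p) * eI (-(t * Real.log p))

/-- The squared pretentious distance up to `X`. -/
noncomputable def dst (X : ℝ) : ℝ := ∑ p ∈ ⌊X⌋₊.primesLE, (1 - (zz f χ t p).re) / p

/-- The periodic factor of the model. -/
noncomputable def sm (V n : ℕ) : ℂ :=
  f (n.gcd V) * eI (-(t * Real.log (n.gcd V : ℕ))) * χ (n / n.gcd V : ℕ)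

/-- The local factor of the model. -/
noncomputable def loc (p n : ℕ) : ℂ := if p ∣ n then zz f χ t p else 1

/-- The primes up to `y` not dividing `V`. -/
noncomputable def PS (V : ℕ) (y : ℝ) : Finset ℕ := {p ∈ ⌊y⌋₊.primesLE | ¬p ∣ V}

/-- The model. -/
noncomputable def apx (V : ℕ) (y : ℝ) (n : ℕ) : ℂ :=
  sm f χ t V n * (∏ p ∈ PS V y, loc f χ t p n) * eI (t * Real.log n)

/-- The error caused by the primes between `y` and `X`. -/
noncomputable def lrg (X y : ℝ) (n : ℕ) : ℝ :=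
  ∑ p ∈ ⌊X⌋₊.primesLE with y < (p : ℕ) ∧ p ∣ n, ‖zz f χ t p - 1‖

end defs

/-- The integers at which the model is accurate. -/
def good (V n : ℕ) : Prop := Squarefree (n / n.gcd V) ∧ (n / n.gcd V).Coprime V

instance (V : ℕ) : DecidablePred (good V) := fun n => by unfold good; infer_instance

/-- A product with conjugated factors. -/
noncomputable def cp (A B : Finset ℕ) (g : ℕ → ℂ) : ℂ := (∏ i ∈ A, g i) * ∏ i ∈ B, conj (g i)

/-- An admissible pair of sets of shifts. -/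
structure Adm (H : ℕ) (A B : Finset ℕ) : Prop where
  left : A ⊆ range H
  right : B ⊆ range H
  disj : Disjoint A B
  ne : (A ∪ B).Nonempty

variable {f : ℕ → ℂ} {q : ℕ} (χ : DirichletCharacter ℂ q) (t : ℝ)

theorem norm_zz_le (hf : IsMul f) (p : ℕ) : ‖zz f χ t p‖ ≤ 1 := by
  rw [zz, norm_mul, norm_mul, norm_eI, mul_one, Complex.norm_conj]
  exact mul_le_one₀ (hf.le p) (norm_nonneg _) (χ.norm_le_one _)

theorem re_zz_le (hf : IsMul f) (p : ℕ) : 0 ≤ 1 - (zz f χ t p).re ∧ 1 - (zz f χ t p).re ≤ 2 := by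
  have := abs_le.1 ((Complex.abs_re_le_norm _).trans (norm_zz_le χ t hf p))
  constructor <;> linarith [this.1, this.2]

theorem norm_sm_le (hf : IsMul f) (V n : ℕ) : ‖sm f χ t V n‖ ≤ 1 := by
  rw [sm, norm_mul, norm_mul, norm_eI, mul_one]
  exact mul_le_one₀ (hf.le _) (norm_nonneg _) (χ.norm_le_one _)

theorem periodic_sm (f : ℕ → ℂ) (V : ℕ) : Periodic (sm f χ t V) (q * V) := fun n => by
  have h1 : (n + q * V).gcd V = n.gcd V := Nat.gcd_add_mul_right_left V n q
  have h2 : (n + q * V) / n.gcd V = n / n.gcd V + q * (V / n.gcd V) := by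
    rw [Nat.add_div_of_dvd_right (Nat.gcd_dvd_left n V), Nat.mul_div_assoc _ (Nat.gcd_dvd_right n V)]
  simp only [sm, h1, h2, Nat.cast_add, Nat.cast_mul, ZMod.natCast_self, zero_mul, add_zero]

theorem norm_loc_le (hf : IsMul f) (p n : ℕ) : ‖loc f χ t p n‖ ≤ 1 := by
  unfold loc
  split_ifs
  · exact norm_zz_le χ t hf p
  · simp

theorem periodic_loc (f : ℕ → ℂ) (p : ℕ) : Periodic (loc f χ t p) p := fun n => by
  simp only [loc, Nat.dvd_add_self_right]

theorem norm_prod_le_one {ι : Type*} (s : Finset ι) {g : ι → ℂ} (h : ∀ i ∈ s, ‖g i‖ ≤ 1) :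
    ‖∏ i ∈ s, g i‖ ≤ 1 := by
  rw [norm_prod]
  exact prod_le_one (fun _ _ => norm_nonneg _) h

theorem norm_apx_le (hf : IsMul f) (V : ℕ) (y : ℝ) (n : ℕ) : ‖apx f χ t V y n‖ ≤ 1 := by
  rw [apx, norm_mul, norm_mul, norm_eI, mul_one]
  exact mul_le_one₀ (norm_sm_le χ t hf V n) (norm_nonneg _)
    (norm_prod_le_one _ fun p _ => norm_loc_le χ t hf p n)

theorem lrg_nonneg (f : ℕ → ℂ) (X y : ℝ) (n : ℕ) : 0 ≤ lrg f χ t X y n :=
  sum_nonneg fun _ _ => norm_nonneg _

theorem mem_PS {V p : ℕ} {y : ℝ} (hy : 0 ≤ y) :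
    p ∈ PS V y ↔ p.Prime ∧ (p : ℝ) ≤ y ∧ ¬p ∣ V := by
  rw [PS, mem_filter, Nat.mem_primesLE, Nat.le_floor_iff hy]
  tauto

theorem dst_sub (f : ℕ → ℂ) {y X : ℝ} (hy : 0 ≤ y) (h : y ≤ X) :
    dst f χ t X - dst f χ t y =
      ∑ p ∈ ⌊X⌋₊.primesLE with y < (p : ℕ), (1 - (zz f χ t p).re) / p := by
  rw [dst, ← sum_filter_add_sum_filter_not _ fun p : ℕ => y < p, dst, sub_eq_iff_eq_add]
  congr 2
  ext p
  simp only [mem_filter, Nat.mem_primesLE, Nat.le_floor_iff hy, Nat.le_floor_iff (hy.trans h),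
    not_lt]
  exact ⟨fun k => ⟨k.2, k.1.2⟩, fun k => ⟨⟨k.1.trans h, k.2⟩, k.1⟩⟩

theorem dst_mono (hf : IsMul f) {y X : ℝ} (h : y ≤ X) : dst f χ t y ≤ dst f χ t X :=
  sum_le_sum_of_subset_of_nonneg (Nat.primesLE_mono (Nat.floor_mono h)) fun p _ _ =>
    div_nonneg (re_zz_le χ t hf p).1 (Nat.cast_nonneg p)

theorem dst_nonneg (hf : IsMul f) (X : ℝ) : 0 ≤ dst f χ t X :=
  sum_nonneg fun p _ => div_nonneg (re_zz_le χ t hf p).1 (Nat.cast_nonneg p)

theorem norm_prod_sub_le {ι : Type*} (s : Finset ι) {g h : ι → ℂ} (hg : ∀ i ∈ s, ‖g i‖ ≤ 1)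
    (hh : ∀ i ∈ s, ‖h i‖ ≤ 1) : ‖∏ i ∈ s, g i - ∏ i ∈ s, h i‖ ≤ ∑ i ∈ s, ‖g i - h i‖ := by
  classical
  induction s using Finset.induction_on with
  | empty => simp
  | insert a s ha ih =>
    rw [prod_insert ha, prod_insert ha, sum_insert ha]
    have h1 := ih (fun i hi => hg i (mem_insert_of_mem hi)) fun i hi => hh i (mem_insert_of_mem hi)
    have h2 := norm_prod_le_one s fun i hi => hg i (mem_insert_of_mem hi)
    have h3 : g a * ∏ i ∈ s, g i - h a * ∏ i ∈ s, h i =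
        (g a - h a) * ∏ i ∈ s, g i + h a * (∏ i ∈ s, g i - ∏ i ∈ s, h i) := by ring
    rw [h3]
    refine (norm_add_le _ _).trans (add_le_add ?_ ?_)
    · rw [norm_mul]
      exact mul_le_of_le_one_right (norm_nonneg _) h2
    · rw [norm_mul]
      exact (mul_le_of_le_one_left (norm_nonneg _) (hh a (mem_insert_self _ _))).trans h1

theorem norm_cp_le (A B : Finset ℕ) {g : ℕ → ℂ} (h : ∀ i, ‖g i‖ ≤ 1) : ‖cp A B g‖ ≤ 1 := by
  rw [cp, norm_mul]
  exact mul_le_one₀ (norm_prod_le_one _ fun i _ => h i) (norm_nonneg _)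
    (norm_prod_le_one _ fun i _ => by rw [Complex.norm_conj]; exact h i)

theorem cp_mul (A B : Finset ℕ) (g h : ℕ → ℂ) :
    cp A B (fun i => g i * h i) = cp A B g * cp A B h := by
  simp only [cp, map_mul, prod_mul_distrib]
  ring

theorem cp_prod (A B : Finset ℕ) (s : Finset ℕ) (g : ℕ → ℕ → ℂ) :
    cp A B (fun i => ∏ p ∈ s, g p i) = ∏ p ∈ s, cp A B (g p) := by
  simp only [cp, map_prod, prod_mul_distrib]
  rw [prod_comm, prod_comm (s := B)]

theorem norm_cp_sub_le {H : ℕ} {A B : Finset ℕ} (hAB : Adm H A B) {g h : ℕ → ℂ}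
    (hg : ∀ i, ‖g i‖ ≤ 1) (hh : ∀ i, ‖h i‖ ≤ 1) :
    ‖cp A B g - cp A B h‖ ≤ ∑ i ∈ range H, ‖g i - h i‖ := by
  have h1 := norm_prod_sub_le A (fun i _ => hg i) fun i _ => hh i
  have h2 := norm_prod_sub_le B (g := fun i => conj (g i)) (h := fun i => conj (h i))
    (fun i _ => by rw [Complex.norm_conj]; exact hg i)
    fun i _ => by rw [Complex.norm_conj]; exact hh i
  simp only [← map_sub, Complex.norm_conj] at h2
  have h3 : cp A B g - cp A B h = (∏ i ∈ A, g i - ∏ i ∈ A, h i) * ∏ i ∈ B, conj (g i) +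
      (∏ i ∈ A, h i) * (∏ i ∈ B, conj (g i) - ∏ i ∈ B, conj (h i)) := by
    simp only [cp]
    ring
  have h4 : ∑ i ∈ A, ‖g i - h i‖ + ∑ i ∈ B, ‖g i - h i‖ ≤ ∑ i ∈ range H, ‖g i - h i‖ := by
    rw [← sum_union hAB.disj]
    exact sum_le_sum_of_subset_of_nonneg (union_subset hAB.left hAB.right)
      fun _ _ _ => norm_nonneg _
  rw [h3]
  refine (norm_add_le _ _).trans (le_trans (add_le_add ?_ ?_) h4)
  · rw [norm_mul]
    exact (mul_le_of_le_one_right (norm_nonneg _) (norm_prod_le_one _ fun i _ => by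
      rw [Complex.norm_conj]; exact hg i)).trans h1
  · rw [norm_mul]
    exact (mul_le_of_le_one_left (norm_nonneg _) (norm_prod_le_one _ fun i _ => hh i)).trans h2

theorem cp_apx (f : ℕ → ℂ) (A B : Finset ℕ) (V : ℕ) (y : ℝ) (n : ℕ) :
    cp A B (fun i => apx f χ t V y (n + i)) = cp A B (fun i => sm f χ t V (n + i)) *
      (∏ p ∈ PS V y, cp A B fun i => loc f χ t p (n + i)) *
        cp A B fun i => eI (t * Real.log (n + i : ℕ)) := by
  simp only [apx]
  rw [cp_mul, cp_mul, cp_prod]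

theorem periodic_cp (A B : Finset ℕ) {g : ℕ → ℂ} {Q : ℕ} (hg : Periodic g Q) :
    Periodic (fun n => cp A B fun i => g (n + i)) Q := fun n => by
  simp only [add_right_comm n Q, hg _]

theorem card_dvd_le {p : ℕ} (i : ℕ) : #{r ∈ range p | p ∣ r + i} ≤ 1 := by
  refine card_le_one.2 fun a ha b hb => ?_
  obtain ⟨a1, a2⟩ := mem_filter.1 ha
  obtain ⟨b1, b2⟩ := mem_filter.1 hb
  refine Nat.ModEq.eq_of_lt_of_lt (m := p) (Nat.ModEq.add_right_cancel' i ?_) (mem_range.1 a1)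
    (mem_range.1 b1)
  exact ((Nat.modEq_zero_iff_dvd).2 a2).trans ((Nat.modEq_zero_iff_dvd).2 b2).symm

/-- The local factors of a correlation of the model satisfy the hypotheses of `bh`. -/
theorem bh_hyp (hf : IsMul f) {H V : ℕ} {A B : Finset ℕ} (hAB : Adm H A B) (hq : q ∣ V) {y : ℝ}
    (hy : 0 ≤ y) : ∀ p ∈ PS V y, p.Prime ∧ (p : ℝ) ≤ y ∧ (q * V).Coprime p ∧
      Periodic (fun n => cp A B fun i => loc f χ t p (n + i)) p ∧
      (∀ n, ‖cp A B fun i => loc f χ t p (n + i)‖ ≤ 1) ∧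
      #{r ∈ range p | (cp A B fun i => loc f χ t p (r + i)) ≠ 1} ≤ H := fun p hp => by
  obtain ⟨h1, h2, h3⟩ := (mem_PS hy).1 hp
  refine ⟨h1, h2, ?_, periodic_cp A B (periodic_loc χ t f p),
    fun n => norm_cp_le A B fun i => norm_loc_le χ t hf p _, ?_⟩
  · refine ((Nat.Prime.coprime_iff_not_dvd h1).2 fun h => h3 ?_).symm
    exact ((Nat.Prime.dvd_mul h1).1 h).elim (fun k => k.trans hq) id
  · calc _ ≤ #((range H).biUnion fun i => {r ∈ range p | p ∣ r + i}) := by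
          refine card_le_card fun r hr => ?_
          obtain ⟨r1, r2⟩ := mem_filter.1 hr
          by_contra r3
          simp only [mem_biUnion, mem_filter, r1, true_and, not_exists, not_and] at r3
          refine r2 ?_
          rw [cp, prod_eq_one, prod_eq_one, mul_one]
          · intro i hi
            rw [loc, if_neg (r3 i (hAB.right hi)), map_one]
          · intro i hi
            rw [loc, if_neg (r3 i (hAB.left hi))]
      _ ≤ ∑ i ∈ range H, 1 := card_biUnion_le.trans (sum_le_sum fun i _ => card_dvd_le i)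
      _ = H := by simp

end Pool.Agent.Lib.MP_232f4c_nt.Gap
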