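import Pool.Agent.Lib.MP_232f4c_nt.GapE0

/-!
The model approximates the function pointwise and on average.
-/

namespace Pool.Agent.Lib.MP_232f4c_nt.Gap

open Finset Function
open scoped ComplexConjugate

variable {f : ℕ → ℂ} {q : ℕ} (χ : DirichletCharacter ℂ q) (t : ℝ)

theorem eI_neg_e1 (x : ℝ) : eI x * eI (-x) = 1 := by rw [← eI_add, add_neg_cancel, eI_zero]

theorem prime_e1 (f : ℕ → ℂ) {p : ℕ} (hp : p.Coprime q) :
    f p = χ p * eI (t * Real.log p) * zz f χ t p := by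
  have h1 : ‖χ (p : ZMod q)‖ = 1 := χ.unit_norm_eq_one ((ZMod.isUnit_iff_coprime p q).2 hp).unit
  have h2 : χ (p : ZMod q) * conj (χ p) = 1 := by
    rw [Complex.mul_conj, Complex.normSq_eq_norm_sq, h1]
    simp
  have h3 := eI_neg_e1 (t * Real.log p)
  calc f p = f p * (χ (p : ZMod q) * conj (χ p)) *
        (eI (t * Real.log p) * eI (-(t * Real.log p))) := by rw [h2, h3, mul_one, mul_one]
    _ = _ := by rw [zz]; ring

theorem prod_e1 (hf : IsMul f) (s : Finset ℕ) (hs : ∀ p ∈ s, p.Prime ∧ p.Coprime q) :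
    f (∏ p ∈ s, p) = χ ((∏ p ∈ s, p : ℕ) : ZMod q) * eI (t * Real.log (∏ p ∈ s, p : ℕ)) *
      ∏ p ∈ s, zz f χ t p := by
  induction s using Finset.induction_on with
  | empty => simp [hf.one, eI_zero]
  | insert a s ha ih =>
    have h1 := hs a (mem_insert_self _ _)
    have h2 : ∀ p ∈ s, p.Prime ∧ p.Coprime q := fun p hp => hs p (mem_insert_of_mem hp)
    have h3 : 0 < ∏ p ∈ s, p := prod_pos fun p hp => (h2 p hp).1.pos
    have h4 : a.Coprime (∏ p ∈ s, p) := Nat.Coprime.prod_right fun p hp =>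
      (Nat.coprime_primes h1.1 (h2 p hp).1).2 fun e => ha (e ▸ hp)
    rw [prod_insert ha, prod_insert ha, hf.mul _ _ h1.1.pos h3 h4, ih h2, prime_e1 χ t f h1.2,
      Nat.cast_mul, Nat.cast_mul, map_mul, Real.log_mul (Nat.cast_ne_zero.2 h1.1.ne_zero)
        (Nat.cast_ne_zero.2 h3.ne'), mul_add, eI_add]
    ring

theorem approx_pt (hf : IsMul f) {V n : ℕ} (hq : q ∣ V) {X y : ℝ} (hy : 0 ≤ y) (hn : 0 < n)
    (hX : (n : ℝ) ≤ X) (hg : good V n) : ‖f n - apx f χ t V y n‖ ≤ lrg f χ t X y n := by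
  obtain ⟨hsq, hco⟩ := hg
  obtain ⟨g, hgd⟩ : ∃ g, g = n.gcd V := ⟨_, rfl⟩
  obtain ⟨m, hm⟩ : ∃ m, m = n / n.gcd V := ⟨_, rfl⟩
  have hsm : sm f χ t V n = f g * eI (-(t * Real.log g)) * χ m := by rw [sm, ← hm, ← hgd]
  rw [← hm] at hsq hco
  have hgV : g ∣ V := hgd ▸ Nat.gcd_dvd_right n V
  have hnm : n = g * m := by rw [hm, hgd, Nat.mul_div_cancel' (Nat.gcd_dvd_left n V)]
  have hg0 : 0 < g := Nat.pos_of_ne_zero fun e => hn.ne' (by rw [hnm, e, zero_mul])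
  have hm0 : 0 < m := Nat.pos_of_ne_zero fun e => hn.ne' (by rw [hnm, e, mul_zero])
  have hmn : m ∣ n := Dvd.intro_left g hnm.symm
  have hiff : ∀ p : ℕ, p.Prime → (p ∣ m ↔ p ∣ n ∧ ¬p ∣ V) := fun p hp =>
    ⟨fun h => ⟨h.trans hmn, fun h' => hp.one_lt.ne' (Nat.eq_one_of_dvd_coprimes hco h h')⟩,
      fun h => ((Nat.Prime.dvd_mul hp).1 (hnm ▸ h.1)).resolve_left fun h' => h.2 (h'.trans hgV)⟩
  have h1 := prod_e1 χ t hf m.primeFactors fun p hp => ⟨Nat.prime_of_mem_primeFactors hp,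
    (hco.coprime_dvd_left (Nat.dvd_of_mem_primeFactors hp)).coprime_dvd_right hq⟩
  rw [Nat.prod_primeFactors_of_squarefree hsq] at h1
  have h2 : f n = sm f χ t V n * (∏ p ∈ m.primeFactors, zz f χ t p) * eI (t * Real.log n) := by
    have e1 : f n = f g * f m := by
      rw [← hf.mul g m hg0 hm0 (hco.coprime_dvd_right hgV).symm, ← hnm]
    have e2 : Real.log n = Real.log g + Real.log m := by
      rw [← Real.log_mul (Nat.cast_ne_zero.2 hg0.ne') (Nat.cast_ne_zero.2 hm0.ne'), ← Nat.cast_mul,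
        ← hnm]
    have e3 := eI_neg_e1 (t * Real.log g)
    rw [e1, h1, hsm, e2, mul_add, eI_add]
    linear_combination (-(f g * χ m * eI (t * Real.log m) * ∏ p ∈ m.primeFactors, zz f χ t p)) * e3
  have h3 : ∏ p ∈ PS V y, loc f χ t p n =
      ∏ p ∈ m.primeFactors, if (p : ℝ) ≤ y then zz f χ t p else 1 := by
    simp only [loc]
    rw [← prod_filter, ← prod_filter]
    refine prod_congr ?_ fun _ _ => rfl
    ext p
    simp only [mem_filter, mem_PS hy, Nat.mem_primeFactors]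
    constructor
    · rintro ⟨⟨a1, a2, a3⟩, a4⟩
      exact ⟨⟨a1, (hiff p a1).2 ⟨a4, a3⟩, hm0.ne'⟩, a2⟩
    · rintro ⟨⟨a1, a2, -⟩, a3⟩
      exact ⟨⟨a1, a3, ((hiff p a1).1 a2).2⟩, ((hiff p a1).1 a2).1⟩
  rw [apx, h2, h3, ← sub_mul, ← mul_sub, norm_mul, norm_mul, norm_eI, mul_one]
  refine (mul_le_of_le_one_left (norm_nonneg _) (norm_sm_le χ t hf V n)).trans ?_
  refine (norm_prod_sub_le _ (fun p _ => norm_zz_le χ t hf p) fun p _ => ?_).trans ?_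
  · split_ifs
    · exact norm_zz_le χ t hf p
    · simp
  have h4 : ∀ p : ℕ, ‖zz f χ t p - if (p : ℝ) ≤ y then zz f χ t p else 1‖ =
      if y < (p : ℝ) then ‖zz f χ t p - 1‖ else 0 := fun p => by
    by_cases h : (p : ℝ) ≤ y
    · rw [if_pos h, if_neg (not_lt.2 h), sub_self, norm_zero]
    · rw [if_neg h, if_pos (not_le.1 h)]
  simp only [h4]
  rw [← sum_filter, lrg]
  refine sum_le_sum_of_subset_of_nonneg (fun p hp => ?_) fun _ _ _ => norm_nonneg _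
  obtain ⟨a1, a2⟩ := mem_filter.1 hp
  have a3 := (Nat.dvd_of_mem_primeFactors a1).trans hmn
  refine mem_filter.2 ⟨Nat.mem_primesLE.2 ⟨Nat.le_floor ?_, Nat.prime_of_mem_primeFactors a1⟩,
    a2, a3⟩
  exact (Nat.cast_le.2 (Nat.le_of_dvd hn a3)).trans hX

theorem norm_sub_one_e1 {z : ℂ} (hz : ‖z‖ ≤ 1) {l : ℝ} (hl : 0 < l) :
    ‖z - 1‖ ≤ l + (1 - z.re) / (2 * l) := by
  have h1 : ‖z - 1‖ ^ 2 ≤ 2 * (1 - z.re) := by
    have h2 : ‖z‖ ^ 2 ≤ 1 := pow_le_one₀ (norm_nonneg _) hz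
    rw [← Complex.normSq_eq_norm_sq, Complex.normSq_apply] at h2 ⊢
    simp only [Complex.sub_re, Complex.one_re, Complex.sub_im, Complex.one_im, sub_zero]
    nlinarith
  rw [← sub_le_iff_le_add', le_div_iff₀ (by positivity)]
  nlinarith [sq_nonneg (‖z - 1‖ - 2 * l)]

theorem sum_lrg_le (hf : IsMul f) {X l : ℝ} {u : ℕ} (hX : 4 ≤ X) (hu : 0 < u) (hl : 0 < l) :
    ∑ n ∈ Ioc 0 ⌊X⌋₊, lrg f χ t X (X ^ (u : ℝ)⁻¹) n ≤
      X * (2 * u * l + (dst f χ t X - dst f χ t (X ^ (u : ℝ)⁻¹)) / (2 * l)) := by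
  have hu' : (1 : ℝ) ≤ u := by exact_mod_cast hu
  have hX0 : 0 < X := by linarith
  have hy1 : 1 < X ^ (u : ℝ)⁻¹ := Real.one_lt_rpow (by linarith) (by positivity)
  have hyX : X ^ (u : ℝ)⁻¹ ≤ X := by
    conv_rhs => rw [← Real.rpow_one X]
    exact Real.rpow_le_rpow_of_exponent_le (by linarith) (inv_le_one_of_one_le₀ hu')
  have hlog : Real.log (X ^ (u : ℝ)⁻¹) = (u : ℝ)⁻¹ * Real.log X := Real.log_rpow hX0 _
  rw [dst_sub χ t f (by linarith) hyX]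
  obtain ⟨y, hy⟩ : ∃ y, y = X ^ (u : ℝ)⁻¹ := ⟨_, rfl⟩
  rw [← hy] at hy1 hyX hlog ⊢
  obtain ⟨P, hP⟩ : ∃ P, P = {p ∈ ⌊X⌋₊.primesLE | y < (p : ℕ)} := ⟨_, rfl⟩
  rw [← hP]
  have hmem : ∀ p ∈ P, p.Prime ∧ y < p ∧ (p : ℝ) ≤ X := fun p hp => by
    rw [hP, mem_filter, Nat.mem_primesLE, Nat.le_floor_iff hX0.le] at hp
    exact ⟨hp.1.2, hp.2, hp.1.1⟩
  have h1 : ∑ p ∈ P, (p : ℝ)⁻¹ ≤ 2 * u := by
    refine (sum_inv_range hy1 (by linarith) P hmem).trans ?_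
    have h2 : Real.log 4 ≤ Real.log X := Real.log_le_log (by norm_num) hX
    have h3 : 0 < Real.log X := Real.log_pos (by linarith)
    rw [hlog, div_le_iff₀ (by positivity)]
    have h4 : 2 * (u : ℝ) * ((u : ℝ)⁻¹ * Real.log X) = 2 * Real.log X := by field_simp
    linarith
  have h2 : ∀ n, lrg f χ t X y n = ∑ p ∈ P, if p ∣ n then ‖zz f χ t p - 1‖ else 0 := fun n => by
    rw [lrg, hP, ← sum_filter, filter_filter]
  simp only [h2]
  rw [sum_comm]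
  calc ∑ p ∈ P, ∑ n ∈ Ioc 0 ⌊X⌋₊, (if p ∣ n then ‖zz f χ t p - 1‖ else 0)
      ≤ ∑ p ∈ P, X * (l * (p : ℝ)⁻¹ + (1 - (zz f χ t p).re) / p / (2 * l)) := by
        refine sum_le_sum fun p hp => ?_
        rw [← sum_filter, sum_const, Nat.Ioc_filter_dvd_card_eq_div, nsmul_eq_mul]
        have h3 : ((⌊X⌋₊ / p : ℕ) : ℝ) ≤ X / p :=
          Nat.cast_div_le.trans (div_le_div_of_nonneg_right (Nat.floor_le hX0.le) (by positivity))
        refine (mul_le_mul h3 (norm_sub_one_e1 (norm_zz_le χ t hf p) hl) (norm_nonneg _)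
          (by positivity)).trans (le_of_eq ?_)
        ring
    _ = X * (l * ∑ p ∈ P, (p : ℝ)⁻¹ + (∑ p ∈ P, (1 - (zz f χ t p).re) / p) / (2 * l)) := by
        rw [← mul_sum, sum_add_distrib, ← mul_sum, ← sum_div]
    _ ≤ _ := by
        refine mul_le_mul_of_nonneg_left (add_le_add_left ?_ _) hX0.le
        nlinarith

theorem csum_apx (hf : IsMul f) {H V N : ℕ} {A B : Finset ℕ} (hAB : Adm H A B) (hq : q ∣ V)
    {X y : ℝ} (hy : 0 ≤ y) (hN : (N : ℝ) + H ≤ X) :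
    ‖∑ n ∈ Ioc 0 N, cp A B (fun i => f (n + i)) -
      ∑ n ∈ Ioc 0 N, cp A B fun i => apx f χ t V y (n + i)‖ ≤
      H * (2 * #{n ∈ Ioc 0 ⌊X⌋₊ | ¬good V n} + ∑ n ∈ Ioc 0 ⌊X⌋₊, lrg f χ t X y n) := by
  have hX0 : 0 ≤ X := le_trans (by positivity) hN
  have h1 : ∑ m ∈ Ioc 0 ⌊X⌋₊, ‖f m - apx f χ t V y m‖ ≤
      2 * #{n ∈ Ioc 0 ⌊X⌋₊ | ¬good V n} + ∑ n ∈ Ioc 0 ⌊X⌋₊, lrg f χ t X y n := by
    have h2 : (2 : ℝ) * #{n ∈ Ioc 0 ⌊X⌋₊ | ¬good V n} =
        ∑ n ∈ Ioc 0 ⌊X⌋₊, if ¬good V n then 2 else 0 := by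
      rw [← sum_filter, sum_const, nsmul_eq_mul, mul_comm]
    rw [h2, ← sum_add_distrib]
    refine sum_le_sum fun m hm => ?_
    obtain ⟨m1, m2⟩ := mem_Ioc.1 hm
    by_cases hg : good V m
    · rw [if_neg (not_not.2 hg), zero_add]
      exact approx_pt χ t hf hq hy m1 ((Nat.le_floor_iff hX0).1 m2) hg
    · rw [if_pos hg]
      have h3 := norm_sub_le (f m) (apx f χ t V y m)
      have h4 := hf.le m
      have h5 := norm_apx_le χ t hf V y m
      have h6 := lrg_nonneg χ t f X y m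
      linarith
  rw [← sum_sub_distrib]
  refine (norm_sum_le _ _).trans ((sum_le_sum fun n _ => norm_cp_sub_le hAB
    (fun i => hf.le (n + i)) fun i => norm_apx_le χ t hf V y (n + i)).trans ?_)
  rw [sum_comm]
  refine (sum_le_card_nsmul _ _ _ fun i hi => le_trans ?_ h1).trans (le_of_eq ?_)
  · rw [← sum_image (s := Ioc 0 N) (g := fun n => n + i)
      (f := fun m => ‖f m - apx f χ t V y m‖) fun a _ b _ h => Nat.add_right_cancel h]
    refine sum_le_sum_of_subset_of_nonneg (fun m hm => ?_) fun _ _ _ => norm_nonneg _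
    obtain ⟨n, hn, rfl⟩ := mem_image.1 hm
    obtain ⟨n1, n2⟩ := mem_Ioc.1 hn
    have h2 : N + H ≤ ⌊X⌋₊ := Nat.le_floor (by exact_mod_cast hN)
    have h3 := mem_range.1 hi
    exact mem_Ioc.2 ⟨by omega, by omega⟩
  · rw [card_range, nsmul_eq_mul]

end Pool.Agent.Lib.MP_232f4c_nt.Gap
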