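import Pool.Agent.Lib.MP_232f4c_nt.GapE0

/-!
Counting the integers at which the model is not accurate.
-/

namespace Pool.Agent.Lib.MP_232f4c_nt.Gap

open Finset Function

theorem bad_e2 {w k n : ℕ} (hk : k ≠ 0) (hn : 0 < n) (h : ¬good (w.factorial ^ k) n) :
    ∃ p : ℕ, p.Prime ∧ ((p ≤ w ∧ p ^ k ∣ n) ∨ (w < p ∧ p ^ 2 ∣ n)) := by
  have hg := Nat.gcd_pos_of_pos_left (w.factorial ^ k) hn
  have h1 := Nat.div_dvd_of_dvd (Nat.gcd_dvd_left n (w.factorial ^ k))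
  by_cases h2 : ∃ p : ℕ, p.Prime ∧ p ∣ n / n.gcd (w.factorial ^ k) ∧ p ∣ w.factorial ^ k
  · obtain ⟨p, hp, h3, h4⟩ := h2
    have h5 := hp.dvd_of_dvd_pow h4
    refine ⟨p, hp, Or.inl ⟨hp.dvd_factorial.1 h5, ?_⟩⟩
    have h6 := pow_dvd_pow_of_dvd h5 k
    rw [← Nat.mul_div_cancel' (Nat.gcd_dvd_right n (w.factorial ^ k))] at h6
    exact ((((Nat.coprime_div_gcd_div_gcd hg).coprime_dvd_left h3).pow_left k).dvd_of_dvd_mul_right
      h6).trans (Nat.gcd_dvd_left _ _)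
  have h3 : (n / n.gcd (w.factorial ^ k)).Coprime (w.factorial ^ k) :=
    Nat.coprime_of_dvd fun p hp h3 h4 => h2 ⟨p, hp, h3, h4⟩
  have h4 : ¬Squarefree (n / n.gcd (w.factorial ^ k)) := fun e => h ⟨e, h3⟩
  rw [Nat.squarefree_iff_prime_squarefree] at h4
  push Not at h4
  obtain ⟨p, hp, h5⟩ := h4
  refine ⟨p, hp, Or.inr ⟨not_le.1 fun h6 => h2 ⟨p, hp, (dvd_mul_right p p).trans h5,
    (hp.dvd_factorial.2 h6).trans (dvd_pow_self _ hk)⟩, sq p ▸ h5.trans h1⟩⟩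

theorem card_mult_e2 (S : Finset ℕ) (e N : ℕ) :
    (#(S.biUnion fun p => {n ∈ Ioc 0 N | p ^ e ∣ n}) : ℝ) ≤ N * ∑ p ∈ S, ((p : ℝ) ^ e)⁻¹ := by
  rw [mul_sum]
  refine (Nat.cast_le.2 card_biUnion_le).trans ?_
  rw [Nat.cast_sum]
  refine sum_le_sum fun p _ => ?_
  rw [Nat.Ioc_filter_dvd_card_eq_div, ← div_eq_mul_inv, ← Nat.cast_pow]
  exact Nat.cast_div_le

theorem exists_mod {ε : ℝ} (hε : 0 < ε) {q : ℕ} (hq : 0 < q) (H : ℕ) :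
    ∃ V : ℕ, 0 < V ∧ q ∣ V ∧ (∀ p : ℕ, p.Prime → p ≤ H → p ∣ V) ∧
      ∀ N : ℕ, (#{n ∈ Ioc 0 N | ¬good V n} : ℝ) ≤ ε * N := by
  obtain ⟨w, hw⟩ := exists_nat_ge (max (2 / ε) (q + H : ℕ))
  have h1 : q + H ≤ w := Nat.cast_le.1 ((le_max_right _ _).trans hw)
  have h2 : 2 / ε ≤ w := (le_max_left _ _).trans hw
  have w0 : 0 < w := by omega
  have w1 : (0 : ℝ) < w := Nat.cast_pos.2 w0
  have hk : w ^ 2 ≠ 0 := by positivity
  refine ⟨w.factorial ^ w ^ 2, by positivity,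
    (Nat.dvd_factorial hq (by omega)).trans (dvd_pow_self _ hk),
    fun p hp h => (hp.dvd_factorial.2 (by omega)).trans (dvd_pow_self _ hk), fun N => ?_⟩
  have h3 : {n ∈ Ioc 0 N | ¬good (w.factorial ^ w ^ 2) n} ⊆
      ((Ioc 1 w).biUnion fun p => {n ∈ Ioc 0 N | p ^ w ^ 2 ∣ n}) ∪
        (Ioc w N).biUnion fun p => {n ∈ Ioc 0 N | p ^ 2 ∣ n} := fun n hn => by
    obtain ⟨a, b⟩ := mem_filter.1 hn
    obtain ⟨a1, a2⟩ := mem_Ioc.1 a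
    obtain ⟨p, hp, ⟨c, d⟩ | ⟨c, d⟩⟩ := bad_e2 hk a1 b
    · exact mem_union_left _ (mem_biUnion.2 ⟨p, mem_Ioc.2 ⟨hp.one_lt, c⟩, mem_filter.2 ⟨a, d⟩⟩)
    · exact mem_union_right _ (mem_biUnion.2 ⟨p, mem_Ioc.2 ⟨c, (Nat.le_of_dvd a1
        ((dvd_pow_self p two_ne_zero).trans d)).trans a2⟩, mem_filter.2 ⟨a, d⟩⟩)
  have h4 : ∑ p ∈ Ioc 1 w, ((p : ℝ) ^ w ^ 2)⁻¹ ≤ (w : ℝ)⁻¹ := by
    refine (sum_le_card_nsmul _ _ ((w : ℝ) ^ 2)⁻¹ fun p hp => ?_).trans ?_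
    · refine inv_anti₀ (by positivity) ?_
      exact_mod_cast (Nat.lt_pow_self (mem_Ioc.1 hp).1).le
    · rw [Nat.card_Ioc, nsmul_eq_mul]
      calc _ ≤ (w : ℝ) * ((w : ℝ) ^ 2)⁻¹ := by gcongr; exact Nat.sub_le _ _
        _ = _ := by field_simp
  have h5 := MP_458f0b_nt.sum_inv_sq_le (Ioc w N) w0 fun p hp => (mem_Ioc.1 hp).1
  have h6 : (w : ℝ)⁻¹ ≤ ε / 2 := by
    rw [div_le_iff₀ hε] at h2
    rw [inv_le_iff_one_le_mul₀ w1]
    linarith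
  have h7 := (card_le_card h3).trans (card_union_le _ _)
  have h8 := card_mult_e2 (Ioc 1 w) (w ^ 2) N
  have h9 := card_mult_e2 (Ioc w N) 2 N
  have h10 : (0 : ℝ) ≤ N := N.cast_nonneg
  rw [← Nat.cast_le (α := ℝ), Nat.cast_add] at h7
  nlinarith [mul_le_mul_of_nonneg_left (h4.trans h6) h10,
    mul_le_mul_of_nonneg_left (h5.trans h6) h10]

theorem card_ap_e2 (V d a L : ℕ) : #{n ∈ Ioc a (a + L) | d ∣ V * n + 1} ≤ L / d + 1 := by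
  rw [← card_range (L / d + 1)]
  refine card_le_card_of_injOn (fun n => (n - (a + 1)) / d) (fun n hn => ?_) fun n hn m hm e => ?_
  · have := mem_Ioc.1 (mem_filter.1 (mem_coe.1 hn)).1
    exact mem_coe.2 (mem_range.2 (Nat.lt_succ_of_le (Nat.div_le_div_right (by omega))))
  obtain ⟨a1, a2⟩ := mem_filter.1 (mem_coe.1 hn)
  obtain ⟨b1, b2⟩ := mem_filter.1 (mem_coe.1 hm)
  have a3 := mem_Ioc.1 a1
  have b3 := mem_Ioc.1 b1
  have h1 : d.Coprime V := Nat.Coprime.coprime_dvd_left a2 (by simp)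
  have h2 : n ≡ m [MOD d] := Nat.ModEq.cancel_left_of_coprime h1 (Nat.ModEq.add_right_cancel' 1
    ((Nat.modEq_zero_iff_dvd.2 a2).trans (Nat.modEq_zero_iff_dvd.2 b2).symm))
  have h3 : n - (a + 1) ≡ m - (a + 1) [MOD d] := Nat.ModEq.add_right_cancel' (a + 1)
    (by rwa [Nat.sub_add_cancel a3.1, Nat.sub_add_cancel b3.1])
  have h4 := Nat.ext_div_mod e h3
  omega

theorem card_bad_ap {V w : ℕ} (hw : 0 < w) (hV : ∀ p : ℕ, p.Prime → p ≤ w → p ∣ V) (a L : ℕ) :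
    (#{n ∈ Ioc a (a + L) | ¬good V (V * n + 1)} : ℝ) ≤ L / w + √(V * (a + L) + 1) := by
  have h1 : {n ∈ Ioc a (a + L) | ¬good V (V * n + 1)} ⊆ (Ioc w (V * (a + L) + 1).sqrt).biUnion
      fun p => {n ∈ Ioc a (a + L) | p ^ 2 ∣ V * n + 1} := fun n hn => by
    obtain ⟨a1, a2⟩ := mem_filter.1 hn
    have h2 : (V * n + 1).Coprime V := by simp
    rw [good, h2, Nat.div_one, and_iff_left h2, Nat.squarefree_iff_prime_squarefree] at a2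
    push Not at a2
    obtain ⟨p, hp, h3⟩ := a2
    refine mem_biUnion.2 ⟨p, mem_Ioc.2 ⟨not_le.1 fun h4 => hp.ne_one ?_, Nat.le_sqrt.2 ?_⟩,
      mem_filter.2 ⟨a1, sq p ▸ h3⟩⟩
    · exact Nat.eq_one_of_dvd_coprimes h2 ((dvd_mul_right p p).trans h3) (hV p hp h4)
    · exact (Nat.le_of_dvd (Nat.succ_pos _) h3).trans
        (Nat.succ_le_succ (Nat.mul_le_mul_left V (mem_Ioc.1 a1).2))
  have h2 := ((card_le_card h1).trans card_biUnion_le).trans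
    (sum_le_sum fun p _ => card_ap_e2 V (p ^ 2) a L)
  refine (Nat.cast_le.2 h2).trans ?_
  rw [sum_add_distrib, Nat.cast_add, Nat.cast_sum, ← card_eq_sum_ones, Nat.card_Ioc]
  refine add_le_add ?_ ((Nat.cast_le.2 (Nat.sub_le _ _)).trans ?_)
  · refine (sum_le_sum (g := fun p : ℕ => L * ((p : ℝ) ^ 2)⁻¹) fun p _ => ?_).trans ?_
    · rw [← div_eq_mul_inv, ← Nat.cast_pow]
      exact Nat.cast_div_le
    · rw [← mul_sum, div_eq_mul_inv]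
      exact mul_le_mul_of_nonneg_left
        (MP_458f0b_nt.sum_inv_sq_le _ hw fun p hp => (mem_Ioc.1 hp).1) L.cast_nonneg
  · exact_mod_cast Real.nat_sqrt_le_real_sqrt (a := V * (a + L) + 1)

end Pool.Agent.Lib.MP_232f4c_nt.Gap
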