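import Pool.Agent.Lib.MP_232f4c_nt.GapE0

/-!
Local means, blocks, progressions and phases.
-/

namespace Pool.Agent.Lib.MP_232f4c_nt.Gap

open Finset Function
open scoped ComplexConjugate

variable {f : ℕ → ℂ} {q : ℕ} (χ : DirichletCharacter ℂ q) (t : ℝ)

theorem not_dvd_e3 {p m : ℕ} (h1 : p < m) (h2 : m < 2 * p) : ¬p ∣ m := by
  rintro ⟨c, rfl⟩
  have k1 : 1 < c := by
    by_contra k
    have := Nat.mul_le_mul_left p (not_lt.1 k)
    omega
  have := Nat.mul_le_mul_left p (show 2 ≤ c from k1)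
  omega

theorem norm_one_add_e3 {z : ℂ} (hz : ‖z‖ ≤ 1) : ‖1 + z‖ ≤ 2 - (1 - z.re) / 2 := by
  have h1 := abs_le.1 ((Complex.abs_re_le_norm z).trans hz)
  have h2 : ‖z‖ ^ 2 ≤ 1 := pow_le_one₀ (norm_nonneg _) hz
  refine le_of_sq_le_sq_c (by linarith [h1.1]) ?_
  rw [Complex.sq_norm, Complex.normSq_apply] at h2 ⊢
  simp only [Complex.add_re, Complex.add_im, Complex.one_re, Complex.one_im, zero_add]
  nlinarith [sq_nonneg (1 - z.re)]

theorem cp_single_e3 {A B : Finset ℕ} (hd : Disjoint A B) {g : ℕ → ℂ} {i₀ : ℕ} (hi : i₀ ∈ A ∪ B)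
    (h : ∀ i ∈ A ∪ B, i ≠ i₀ → g i = 1) : cp A B g = g i₀ ∨ cp A B g = conj (g i₀) := by
  rcases mem_union.1 hi with k | k
  · left
    rw [cp, prod_eq_single_of_mem i₀ k fun i hi' ne => h i (mem_union_left _ hi') ne, prod_eq_one,
      mul_one]
    intro i hi'
    rw [h i (mem_union_right _ hi') fun e => disjoint_left.1 hd k (e ▸ hi'), map_one]
  · right
    rw [cp, prod_eq_single_of_mem (f := fun i => conj (g i)) i₀ k fun i hi' ne => by
      rw [h i (mem_union_right _ hi') ne, map_one], prod_eq_one, one_mul]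
    intro i hi'
    exact h i (mem_union_left _ hi') fun e => disjoint_left.1 hd hi' (e ▸ k)

theorem norm_mean_cp_le (hf : IsMul f) {H : ℕ} {A B : Finset ℕ} (hAB : Adm H A B) {p : ℕ}
    (hp : H < p) : ‖mean p fun n => cp A B fun i => loc f χ t p (n + i)‖ ≤
      1 - (1 - (zz f χ t p).re) / p / 2 := by
  obtain ⟨i₀, hi, hmax⟩ := exists_max_image (A ∪ B) id hAB.ne
  simp only [id] at hmax
  have hiH : i₀ < H := mem_range.1 (union_subset hAB.left hAB.right hi)
  obtain ⟨a, ha⟩ : ∃ a, a + i₀ + 2 = 2 * p := ⟨2 * p - i₀ - 2, by omega⟩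
  have hp0 : (0 : ℝ) < p := by exact_mod_cast (by omega : 0 < p)
  set S : ℕ → ℂ := fun n => cp A B fun i => loc f χ t p (n + i) with hS
  have hS1 : ∀ n, ‖S n‖ ≤ 1 := fun n => norm_cp_le A B fun i => norm_loc_le χ t hf p _
  have e1 : S (a + 1) = 1 := by
    have k : ∀ i ∈ A ∪ B, loc f χ t p (a + 1 + i) = 1 := fun i hi' => by
      have := hmax i hi'
      rw [loc, if_neg (not_dvd_e3 (by omega) (by omega))]
    simp only [hS]
    rw [cp, prod_eq_one fun i hi' => k i (mem_union_left _ hi'), prod_eq_one, mul_one]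
    intro i hi'
    rw [k i (mem_union_right _ hi'), map_one]
  have e2 : ‖1 + S (a + 2)‖ ≤ 2 - (1 - (zz f χ t p).re) / 2 := by
    have k : loc f χ t p (a + 2 + i₀) = zz f χ t p := by
      rw [loc, if_pos ⟨2, by omega⟩]
    have k2 := cp_single_e3 hAB.disj (g := fun i => loc f χ t p (a + 2 + i)) hi fun i hi' ne => by
      have := hmax i hi'
      rw [loc, if_neg (not_dvd_e3 (by omega) (by omega))]
    simp only [k] at k2
    simp only [hS]
    rcases k2 with k2 | k2 <;> rw [k2]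
    · exact norm_one_add_e3 (norm_zz_le χ t hf p)
    · simpa using norm_one_add_e3 (z := conj (zz f χ t p))
        (by rw [Complex.norm_conj]; exact norm_zz_le χ t hf p)
  have e3 : Ioc a (a + p) = insert (a + 1) (insert (a + 2) (Ioc (a + 2) (a + p))) := by
    ext n
    simp only [mem_Ioc, mem_insert]
    omega
  have e4 : ‖∑ n ∈ Ioc (a + 2) (a + p), S n‖ ≤ p - 2 := by
    refine (norm_sum_le _ _).trans ((sum_le_card_nsmul _ _ 1 fun n _ => hS1 n).trans ?_)
    rw [Nat.card_Ioc, show a + p - (a + 2) = p - 2 by omega, nsmul_eq_mul, mul_one,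
      Nat.cast_sub (by omega)]
    simp
  rw [mean, ← sum_Ioc_period (periodic_cp A B (periodic_loc χ t f p)) a, norm_div,
    Complex.norm_natCast, div_le_iff₀ hp0, e3, sum_insert (by simp), sum_insert (by simp),
    ← add_assoc]
  have e5 : (1 - (1 - (zz f χ t p).re) / p / 2) * p = p - (1 - (zz f χ t p).re) / 2 := by
    field_simp
  rw [e5]
  refine (norm_add_le _ _).trans ?_
  change ‖S (a + 1) + S (a + 2)‖ + ‖∑ n ∈ Ioc (a + 2) (a + p), S n‖ ≤ _
  rw [e1]
  linarith

theorem prod_mean_le (hf : IsMul f) {H V : ℕ} {A B : Finset ℕ} (hAB : Adm H A B) (hV0 : 0 < V)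
    (hV : ∀ p : ℕ, p.Prime → p ≤ H → p ∣ V) {y : ℝ} (hy : 0 ≤ y) :
    ‖∏ p ∈ PS V y, mean p fun n => cp A B fun i => loc f χ t p (n + i)‖ ≤
      Real.exp (-((dst f χ t y - V) / 2)) := by
  have h1 : dst f χ t y - V ≤ ∑ p ∈ PS V y, (1 - (zz f χ t p).re) / p := by
    rw [dst, ← sum_filter_add_sum_filter_not _ fun p : ℕ => p ∣ V, PS]
    have k : ∑ p ∈ ⌊y⌋₊.primesLE with p ∣ V, (1 - (zz f χ t p).re) / p ≤ V := by
      refine (sum_le_card_nsmul _ _ 1 fun p hp => ?_).trans ?_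
      · have k1 : (2 : ℝ) ≤ p := by
          exact_mod_cast (Nat.mem_primesLE.1 (mem_filter.1 hp).1).2.two_le
        rw [div_le_one (by linarith)]
        linarith [(re_zz_le χ t hf p).2]
      · rw [nsmul_eq_mul, mul_one, Nat.cast_le]
        refine (card_le_card (t := Ioc 0 V) fun p hp => ?_).trans (by simp)
        exact mem_Ioc.2 ⟨(Nat.mem_primesLE.1 (mem_filter.1 hp).1).2.pos,
          Nat.le_of_dvd hV0 (mem_filter.1 hp).2⟩
    linarith
  rw [norm_prod]
  calc _ ≤ ∏ p ∈ PS V y, Real.exp (-((1 - (zz f χ t p).re) / p / 2)) := by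
        refine prod_le_prod (fun _ _ => norm_nonneg _) fun p hp => ?_
        obtain ⟨k1, -, k3⟩ := (mem_PS hy).1 hp
        refine (norm_mean_cp_le χ t hf hAB (not_le.1 fun k => k3 (hV p k1 k))).trans ?_
        linarith [Real.add_one_le_exp (-((1 - (zz f χ t p).re) / p / 2))]
    _ ≤ _ := by
        rw [← Real.exp_sum, sum_neg_distrib, ← sum_div]
        exact Real.exp_le_exp.2 (by linarith)

theorem sum_blocks (F : ℕ → ℂ) (hF : ∀ n, ‖F n‖ ≤ 1) {a₀ L : ℕ} (hL : 0 < L) {θ : ℝ} (hθ : 0 ≤ θ)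
    (h : ∀ a, a₀ ≤ a → ‖∑ n ∈ Ioc a (a + L), F n‖ ≤ θ * L) (N : ℕ) :
    ‖∑ n ∈ Ioc 0 N, F n‖ ≤ a₀ + L + θ * N := by
  induction N using Nat.strong_induction_on with
  | _ N ih =>
    rcases lt_or_ge N (a₀ + L) with k | k
    · refine (norm_sum_le _ _).trans ((sum_le_card_nsmul _ _ 1 fun n _ => hF n).trans ?_)
      have k1 : (N : ℝ) ≤ a₀ + L := by exact_mod_cast k.le
      have k2 : 0 ≤ θ * N := by positivity
      simp only [Nat.card_Ioc, Nat.sub_zero, nsmul_eq_mul, mul_one]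
      linarith
    · obtain ⟨M, rfl⟩ : ∃ M, N = M + L := ⟨N - L, by omega⟩
      rw [← sum_Ioc_consecutive F (Nat.zero_le M) (Nat.le_add_right M L)]
      refine (norm_add_le _ _).trans ?_
      have k1 := ih M (by omega)
      have k2 := h M (by omega)
      push_cast
      linarith

theorem ap_sum (a L : ℕ) {d r : ℕ} (hr : r < d) : ∃ n₀ M : ℕ, a < n₀ ∧ n₀ + d * M ≤ a + L + d ∧
    ∀ F : ℕ → ℂ, ∑ n ∈ Ioc a (a + L) with n % d = r, F n = ∑ m ∈ range M, F (n₀ + d * m) := by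
  have key : ∃ n₀ M : ℕ, n₀ % d = r ∧ a < n₀ ∧ a + L < n₀ + d * M ∧ n₀ + d * M ≤ a + L + d ∧
      ∀ F : ℕ → ℂ, ∑ n ∈ Ioc a (a + L) with n % d = r, F n = ∑ m ∈ range M, F (n₀ + d * m) := by
    induction L with
    | zero =>
      have k1 := Nat.div_add_mod a d
      have k2 := Nat.mod_lt a (show 0 < d by omega)
      rcases lt_or_ge (a % d) r with k | k
      · exact ⟨d * (a / d) + r, 0, by rw [Nat.mul_add_mod, Nat.mod_eq_of_lt hr], by omega,
          by omega, by omega, fun F => by simp⟩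
      · refine ⟨d * (a / d + 1) + r, 0, by rw [Nat.mul_add_mod, Nat.mod_eq_of_lt hr], ?_, ?_, ?_,
          fun F => by simp⟩ <;> rw [mul_add] <;> omega
    | succ L ih =>
      obtain ⟨n₀, M, h1, h2, h3, h4, h5⟩ := ih
      have e : ∀ F : ℕ → ℂ, ∑ n ∈ Ioc a (a + (L + 1)) with n % d = r, F n =
          ∑ n ∈ Ioc a (a + L) with n % d = r, F n +
            if (a + L + 1) % d = r then F (a + L + 1) else 0 := fun F => by
        rw [sum_filter, sum_filter, ← add_assoc, sum_Ioc_succ_top (Nat.le_add_right a L)]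
      rcases eq_or_lt_of_le (show a + L + 1 ≤ n₀ + d * M from h3) with k | k
      · refine ⟨n₀, M + 1, h1, h2, ?_, ?_, fun F => ?_⟩
        · rw [mul_add]; omega
        · rw [mul_add]; omega
        · rw [e, h5, sum_range_succ, k, if_pos (by rw [Nat.add_mul_mod_self_left, h1])]
      · refine ⟨n₀, M, h1, h2, by omega, by omega, fun F => ?_⟩
        rw [e, h5, if_neg, add_zero]
        intro k1
        have k2 : a + L + 1 ≡ n₀ + d * M [MOD d] := by
          rw [Nat.ModEq, k1, Nat.add_mul_mod_self_left, h1]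
        have := Nat.le_of_dvd (by omega) ((Nat.modEq_iff_dvd' k.le).1 k2)
        omega
  obtain ⟨n₀, M, -, h2, -, h4, h5⟩ := key
  exact ⟨n₀, M, h2, h4, h5⟩

theorem prod_eI_e3 (s : Finset ℕ) (g : ℕ → ℝ) : ∏ i ∈ s, eI (g i) = eI (∑ i ∈ s, g i) := by
  induction s using Finset.induction_on with
  | empty => simp [eI_zero]
  | insert a s ha ih => rw [prod_insert ha, sum_insert ha, ih, eI_add]

theorem cp_eI {H : ℕ} {A B : Finset ℕ} (hAB : Adm H A B) (n : ℕ) :
    (cp A B fun i => eI (t * Real.log (n + i : ℕ))) =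
      eI (t * lph (A ∪ B) (fun i => if i ∈ A then 1 else -1) 0 n) := by
  simp only [cp, conj_eI, prod_eI_e3, ← eI_add, lph]
  congr 1
  rw [sum_union hAB.disj, mul_add, mul_sum, mul_sum]
  congr 1
  · refine sum_congr rfl fun i hi => ?_
    rw [if_pos hi, Nat.cast_add, one_mul]
  · refine sum_congr rfl fun i hi => ?_
    rw [if_neg (disjoint_right.1 hAB.disj hi), Nat.cast_add]
    ring

theorem cp_osc {H : ℕ} {A B : Finset ℕ} (hAB : Adm H A B) {a n L : ℕ} (ha : 0 < a) (h1 : a ≤ n)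
    (h2 : n ≤ a + L) : ‖(cp A B fun i => eI (t * Real.log (n + i : ℕ))) -
      cp A B fun i => eI (t * Real.log (a + i : ℕ))‖ ≤ H * (|t| * (L / a)) := by
  refine (norm_cp_sub_le hAB (fun i => (norm_eI _).le) fun i => (norm_eI _).le).trans ?_
  refine (sum_le_card_nsmul _ _ (|t| * (L / a)) fun i _ => ?_).trans (by simp)
  refine (norm_eI_sub_le _ _).trans ?_
  rw [← mul_sub, abs_mul]
  refine mul_le_mul_of_nonneg_left ?_ (abs_nonneg _)
  have a0 : (0 : ℝ) < a := by exact_mod_cast ha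
  have k1 : (a : ℝ) ≤ n := by exact_mod_cast h1
  have k2 : (n : ℝ) ≤ a + L := by exact_mod_cast h2
  have i0 : (0 : ℝ) ≤ i := Nat.cast_nonneg i
  have L0 : (0 : ℝ) ≤ L := Nat.cast_nonneg L
  push_cast
  rw [abs_of_nonneg (sub_nonneg.2 (Real.log_le_log (by linarith) (by linarith))),
    ← Real.log_div (by linarith) (by linarith)]
  refine (Real.log_le_sub_one_of_pos (div_pos (by linarith) (by linarith))).trans ?_
  rw [div_sub_one (by linarith)]
  exact div_le_div₀ L0 (by linarith) a0 (by linarith)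

end Pool.Agent.Lib.MP_232f4c_nt.Gap
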