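import Pool.Agent.Lib.MP_232f4c_nt.GapD2
import Pool.Agent.Lib.MP_232f4c_nt.GapE3

/-!
Correlations of the model for a large twist.
-/

namespace Pool.Agent.Lib.MP_232f4c_nt.Gap

open Finset Function Filter

theorem small_f1 (H : ℕ) {κ δ : ℝ} (hκ : 0 < κ) (hδ : 0 < δ) : ∀ᶠ X : ℝ in atTop,
    X ^ (-κ) * Real.exp (2 * H * (Real.log (1 + Real.log X) + 3)) ≤ δ := by
  have h1 : Tendsto (fun X : ℝ => 1 + Real.log X) atTop atTop :=
    tendsto_atTop_add_const_left _ _ Real.tendsto_log_atTop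
  have h2 := ((tendsto_rpow_mul_exp_neg_mul_atTop_nhds_zero (2 * H) κ hκ).comp h1).const_mul
    (Real.exp (κ + 6 * H))
  rw [mul_zero] at h2
  filter_upwards [h2.eventually (ge_mem_nhds hδ), eventually_ge_atTop 1] with X hX hX1
  have h3 : 0 < 1 + Real.log X := by linarith [Real.log_nonneg hX1]
  refine le_of_eq_of_le ?_ hX
  simp only [comp]
  rw [Real.rpow_def_of_pos (by linarith), Real.rpow_def_of_pos h3, ← Real.exp_add,
    ← Real.exp_add, ← Real.exp_add]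
  congr 1
  ring

theorem phase_f1 (H : ℕ) {δ : ℝ} (hδ : 0 < δ) (A₀ : ℝ) (A B : Finset ℕ) :
    ∀ᶠ X : ℝ in atTop, Adm H A B → ∃ θ : ℝ, 0 ≤ θ ∧
      θ * Real.exp (2 * H * (Real.log (1 + Real.log X) + 3)) ≤ δ ∧
      ∀ t : ℝ, X ^ (H + 1) ≤ |t| → |t| ≤ X ^ A₀ → ∀ d : ℕ, 0 < d → (d : ℝ) ^ 2 ≤ X →
        ∀ (x₀ : ℝ) (N : ℕ), δ * X ≤ x₀ → x₀ + d * N ≤ 2 * X →
          ‖∑ m ∈ range N, eI (t * lph (A ∪ B) (fun i => if i ∈ A then 1 else -1) 0
            (x₀ + d * m))‖ ≤ X / d * θ := by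
  by_cases hAB : Adm H A B
  · have hT : #(A ∪ B) ≤ H := by
      simpa using card_le_card (union_subset hAB.left hAB.right)
    obtain ⟨i, hi⟩ := hAB.ne
    obtain ⟨κ, hκ, h⟩ := log_phase (A ∪ B) (fun i => if i ∈ A then 1 else -1) H hT
      ⟨i, hi, by split_ifs <;> norm_num⟩ A₀ δ hδ
    filter_upwards [h, small_f1 H hκ hδ, eventually_ge_atTop 0] with X h1 h2 h3 _
    exact ⟨X ^ (-κ), Real.rpow_nonneg h3 _, h2, h1⟩
  · exact Eventually.of_forall fun X h => absurd h hAB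

theorem sum_PS_f1 (V : ℕ) {y X : ℝ} (hX : 2 ≤ X) (hy : y ≤ X) :
    ∑ p ∈ PS V y, (p : ℝ)⁻¹ ≤ Real.log (1 + Real.log X) + 3 := by
  have h2 : 2 ≤ ⌊X⌋₊ := Nat.le_floor (by exact_mod_cast hX)
  have h2' : (2 : ℝ) ≤ (⌊X⌋₊ : ℕ) := by exact_mod_cast h2
  have h3 : Real.log (⌊X⌋₊ : ℕ) ≤ Real.log X :=
    Real.log_le_log (by linarith) (Nat.floor_le (by linarith))
  have h4 : 0 ≤ Real.log (⌊X⌋₊ : ℕ) := Real.log_nonneg (by linarith)
  calc ∑ p ∈ PS V y, (p : ℝ)⁻¹ ≤ ∑ p ∈ ⌊X⌋₊.primesLE, (p : ℝ)⁻¹ :=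
        sum_le_sum_of_subset_of_nonneg
          ((filter_subset _ _).trans (Nat.primesLE_mono (Nat.floor_mono hy)))
          fun p _ _ => by positivity
    _ ≤ Real.log (1 + Real.log (⌊X⌋₊ : ℕ)) + 3 :=
        Pool.Agent.Lib.MP_458f0b_nt.sum_inv_primesLE_le h2
    _ ≤ _ := by
        have := Real.log_le_log (by linarith : 0 < 1 + Real.log (⌊X⌋₊ : ℕ))
          (by linarith : 1 + Real.log (⌊X⌋₊ : ℕ) ≤ 1 + Real.log X)
        linarith

theorem norm_sum_le_f1 {F : ℕ → ℂ} (hF : ∀ n, ‖F n‖ ≤ 1) (N : ℕ) :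
    ‖∑ n ∈ Ioc 0 N, F n‖ ≤ N := by
  refine (norm_sum_le _ _).trans ((sum_le_sum fun n _ => hF n).trans ?_)
  simp

theorem upper (H : ℕ) {ε : ℝ} (hε : 0 < ε) : ∃ s : ℕ, ∀ u : ℕ, s ≤ u → ∀ f : ℕ → ℂ, IsMul f →
    ∀ (q : ℕ) (χ : DirichletCharacter ℂ q) (V : ℕ), 0 < q → 0 < V → q ∣ V → ∀ A₀ : ℝ,
      ∀ᶠ X : ℝ in atTop, ∀ t : ℝ, X ^ (H + 1) ≤ |t| → |t| ≤ X ^ A₀ → ∀ A B, Adm H A B →
        ∀ N : ℕ, (N : ℝ) ≤ X →
          ‖∑ n ∈ Ioc 0 N, cp A B fun i => apx f χ t V (X ^ (u : ℝ)⁻¹) (n + i)‖ ≤ ε * X := by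
  have hδ : 0 < ε / 8 := by positivity
  obtain ⟨s₀, hs₀, hbh⟩ := bh H hδ
  refine ⟨4 * s₀, fun u hu f hf q χ V hq hV hqV A₀ => ?_⟩
  have hQ : 0 < q * V := Nat.mul_pos hq hV
  have hQ' : (0 : ℝ) < (q * V : ℕ) := by exact_mod_cast hQ
  have hu' : (4 : ℝ) * s₀ ≤ u := by exact_mod_cast hu
  have hs' : (1 : ℝ) ≤ s₀ := by exact_mod_cast hs₀
  have hu0 : (0 : ℝ) < u := by linarith
  have hall := (eventually_all_finset ((range H).powerset ×ˢ (range H).powerset)).2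
    fun P _ => phase_f1 H hδ A₀ P.1 P.2
  have hw : Tendsto (fun X : ℝ => X ^ (4 : ℝ)⁻¹) atTop atTop := tendsto_rpow_atTop (by norm_num)
  filter_upwards [hall, eventually_ge_atTop 2, eventually_ge_atTop (8 / ε),
    hw.eventually_ge_atTop 1, hw.eventually_ge_atTop ((q * V : ℕ) : ℝ),
    hw.eventually_ge_atTop (32 * ((q * V : ℕ) : ℝ) / ε)] with X hP hX2 hXε hw1 hwQ hwε
  intro t ht1 ht2 A B hAB N hN
  obtain ⟨θ, hθ0, hθ, hph⟩ := hP (A, B)
    (mem_product.2 ⟨mem_powerset.2 hAB.left, mem_powerset.2 hAB.right⟩) hAB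
  have hX0 : 0 < X := by linarith
  have hX1 : 1 ≤ X := by linarith
  set w : ℝ := X ^ (4 : ℝ)⁻¹ with hwd
  have hw4 : w ^ 4 = X := by
    rw [hwd, ← Real.rpow_natCast, ← Real.rpow_mul hX0.le]
    norm_num
  set y : ℝ := X ^ (u : ℝ)⁻¹ with hyd
  have hy1 : 1 ≤ y := Real.one_le_rpow hX1 (by positivity)
  have hyX : y ≤ X := by
    calc y ≤ X ^ (1 : ℝ) := Real.rpow_le_rpow_of_exponent_le hX1
          (inv_le_one_of_one_le₀ (by linarith))
      _ = X := Real.rpow_one X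
  have hys : y ^ s₀ ≤ w := by
    rw [hyd, ← Real.rpow_natCast, ← Real.rpow_mul hX0.le]
    refine Real.rpow_le_rpow_of_exponent_le hX1 ?_
    rw [inv_mul_le_iff₀ hu0]
    linarith
  have h1ε : 1 ≤ ε / 8 * X := by
    rw [div_le_iff₀ hε] at hXε
    linarith
  have hεX : 0 < ε * X := by positivity
  have hF : ∀ n, ‖cp A B fun i => apx f χ t V y (n + i)‖ ≤ 1 := fun n =>
    norm_cp_le A B fun i => norm_apx_le χ t hf V y _
  set a : ℕ := ⌈ε / 8 * X⌉₊ with had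
  have ha1 : ε / 8 * X ≤ a := Nat.le_ceil _
  have ha2 : (a : ℝ) ≤ ε / 4 * X := by
    have := (Nat.ceil_lt_add_one (by positivity : 0 ≤ ε / 8 * X)).le
    linarith
  rcases le_total N a with hNa | haN
  · have h1 : (N : ℝ) ≤ a := by exact_mod_cast hNa
    have h2 := norm_sum_le_f1 hF N
    linarith
  obtain ⟨L, rfl⟩ := Nat.exists_eq_add_of_le haN
  rw [← sum_Ioc_consecutive _ (Nat.zero_le a) (Nat.le_add_right a L)]
  have h1 := norm_sum_le_f1 hF a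
  have hmain := (hbh y (PS V y) (fun p n => cp A B fun i => loc f χ t p (n + i)) (q * V)
    (fun n => cp A B fun i => sm f χ t V (n + i)) a L hy1 (bh_hyp χ t hf hAB hqV (by linarith)) hQ
    (periodic_cp A B (periodic_sm χ t f V))
    (fun n => norm_cp_le A B fun i => norm_sm_le χ t hf V _)).2
    (fun n => eI (t * lph (A ∪ B) (fun i => if i ∈ A then 1 else -1) 0 n)) (X * θ)
    (fun n => (norm_eI _).le) (by positivity) (by
      intro d hd hdQ r hr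
      obtain ⟨n₀, M, k1, k2, k3⟩ := ap_sum a L hr
      have hd1 : (1 : ℝ) ≤ d := by exact_mod_cast hd
      have hdw : (d : ℝ) ≤ w * w :=
        hdQ.trans (mul_le_mul hwQ hys (by positivity) (by linarith))
      have hd2 : (d : ℝ) ^ 2 ≤ X := by
        rw [← hw4]
        calc (d : ℝ) ^ 2 ≤ (w * w) ^ 2 := pow_le_pow_left₀ (by linarith) hdw 2
          _ = w ^ 4 := by ring
      have hdX : (d : ℝ) ≤ X := by nlinarith
      have k1' : (a : ℝ) ≤ n₀ := by exact_mod_cast k1.le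
      have k2' : (n₀ : ℝ) + d * M ≤ ((a + L : ℕ) : ℝ) + d := by exact_mod_cast k2
      have k4 := hph t ht1 ht2 d hd hd2 n₀ M (ha1.trans k1') (by linarith)
      rw [k3]
      simp only [Nat.cast_add, Nat.cast_mul]
      refine k4.trans (le_of_eq ?_)
      ring)
  have e : ∑ n ∈ Ioc a (a + L), (cp A B fun i => apx f χ t V y (n + i)) =
      ∑ n ∈ Ioc a (a + L), (cp A B fun i => sm f χ t V (n + i)) *
        (∏ p ∈ PS V y, cp A B fun i => loc f χ t p (n + i)) *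
          eI (t * lph (A ∪ B) (fun i => if i ∈ A then 1 else -1) 0 n) :=
    sum_congr rfl fun n _ => by rw [cp_apx, cp_eI t hAB]
  have hL : (L : ℝ) ≤ X := by
    have : (L : ℝ) ≤ ((a + L : ℕ) : ℝ) := by exact_mod_cast Nat.le_add_left L a
    linarith
  have g1 : ε / 8 * L ≤ ε / 8 * X := mul_le_mul_of_nonneg_left hL hδ.le
  have g2 : 4 * ((q * V : ℕ) : ℝ) * y ^ s₀ ≤ ε / 8 * X := by
    rw [div_le_iff₀ hε] at hwε
    have k1 : w * w ≤ X := by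
      rw [← hw4]
      have : 1 ≤ w * w := one_le_mul_of_one_le_of_one_le hw1 hw1
      nlinarith
    calc 4 * ((q * V : ℕ) : ℝ) * y ^ s₀ ≤ 4 * ((q * V : ℕ) : ℝ) * w := by gcongr
      _ ≤ ε / 8 * w * w := mul_le_mul_of_nonneg_right (by linarith) (by linarith)
      _ = ε / 8 * (w * w) := by ring
      _ ≤ ε / 8 * X := mul_le_mul_of_nonneg_left k1 hδ.le
  have g3 : X * θ * Real.exp (2 * H * ∑ p ∈ PS V y, (p : ℝ)⁻¹) ≤ ε / 8 * X := by
    have k1 := sum_PS_f1 V hX2 hyX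
    calc X * θ * Real.exp (2 * H * ∑ p ∈ PS V y, (p : ℝ)⁻¹)
        ≤ X * θ * Real.exp (2 * H * (Real.log (1 + Real.log X) + 3)) := by gcongr
      _ = X * (θ * Real.exp (2 * H * (Real.log (1 + Real.log X) + 3))) := by ring
      _ ≤ X * (ε / 8) := mul_le_mul_of_nonneg_left hθ hX0.le
      _ = ε / 8 * X := by ring
  rw [← e] at hmain
  refine (norm_add_le _ _).trans ?_
  linarith

end Pool.Agent.Lib.MP_232f4c_nt.Gap
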