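import Pool.Agent.Lib.MP_232f4c_nt.GapE3

/-!
Correlations of the model for a small twist and a large distance.
-/

namespace Pool.Agent.Lib.MP_232f4c_nt.Gap

open Finset Function Filter

theorem eventually_rpow_le {a b : ℝ} (h : a < b) (C : ℝ) {e : ℝ} (he : 0 < e) :
    ∀ᶠ X : ℝ in atTop, C * X ^ a ≤ e * X ^ b := by
  filter_upwards [(tendsto_rpow_atTop (sub_pos.2 h)).eventually_ge_atTop (C / e),
    eventually_gt_atTop 0] with X k1 k2
  rw [div_le_iff₀ he] at k1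
  have k3 : X ^ b = X ^ (b - a) * X ^ a := by rw [← Real.rpow_add k2, sub_add_cancel]
  rw [k3, ← mul_assoc, mul_comm e]
  exact mul_le_mul_of_nonneg_right k1 (by positivity)

theorem lower (H : ℕ) {ε : ℝ} (hε : 0 < ε) : ∃ s : ℕ, ∀ u : ℕ, s ≤ u → ∀ f : ℕ → ℂ, IsMul f →
    ∀ (q : ℕ) (χ : DirichletCharacter ℂ q) (V : ℕ), 0 < q → 0 < V → q ∣ V →
      (∀ p : ℕ, p.Prime → p ≤ H → p ∣ V) → ∃ K : ℝ, ∀ᶠ X : ℝ in atTop, ∀ t : ℝ,
        |t| ≤ X ^ (u : ℝ)⁻¹ → K ≤ dst f χ t (X ^ (u : ℝ)⁻¹) → ∀ A B, Adm H A B →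
        ∀ N : ℕ, (N : ℝ) ≤ X →
          ‖∑ n ∈ Ioc 0 N, cp A B fun i => apx f χ t V (X ^ (u : ℝ)⁻¹) (n + i)‖ ≤ ε * X := by
  obtain ⟨e, he, rfl⟩ : ∃ e : ℝ, 0 < e ∧ ε = 9 * e := ⟨ε / 9, by positivity, by ring⟩
  obtain ⟨s, s0, hs⟩ := bh H he
  refine ⟨4 * s, fun u hu f hf q χ V hq V0 V1 V2 => ⟨V - 2 * Real.log e, ?_⟩⟩
  have u0 : (4 * s : ℝ) ≤ u := by exact_mod_cast hu
  have s1 : (1 : ℝ) ≤ s := Nat.one_le_cast.2 s0
  filter_upwards [eventually_rpow_le (by norm_num : (1 / 4 : ℝ) < 1 / 2) (6 * (q * V : ℕ)) he,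
    eventually_rpow_le (by norm_num : (3 / 4 : ℝ) < 1) (2 * H) (mul_pos he he),
    eventually_rpow_le (by norm_num : (1 / 2 : ℝ) < 1) 1 he, eventually_ge_atTop 1]
    with X k1 k2 k3 k4 t t1 t2 A B hAB N hN
  set y := X ^ (u : ℝ)⁻¹ with hy
  have y1 : 1 ≤ y := Real.one_le_rpow k4 (by positivity)
  have y2 : y ^ s ≤ X ^ (1 / 4 : ℝ) := by
    rw [hy, ← Real.rpow_natCast, ← Real.rpow_mul (by linarith)]
    refine Real.rpow_le_rpow_of_exponent_le k4 ?_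
    rw [inv_mul_le_iff₀ (by linarith)]
    linarith
  have y3 : y ≤ X ^ (1 / 4 : ℝ) := (le_self_pow₀ y1 s0.ne').trans y2
  have r1 : 1 ≤ X ^ (1 / 2 : ℝ) := Real.one_le_rpow k4 (by norm_num)
  have r2 : X ^ (1 / 4 : ℝ) * X ^ (1 / 2 : ℝ) = X ^ (3 / 4 : ℝ) := by
    rw [← Real.rpow_add (by linarith)]
    norm_num
  rw [Real.rpow_one] at k2 k3
  obtain ⟨L, L1, L2⟩ : ∃ L : ℕ, X ^ (1 / 2 : ℝ) ≤ L ∧ (L : ℝ) ≤ 2 * X ^ (1 / 2 : ℝ) :=
    ⟨⌈X ^ (1 / 2 : ℝ)⌉₊, Nat.le_ceil _, by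
      linarith [Nat.ceil_lt_add_one (by linarith : 0 ≤ X ^ (1 / 2 : ℝ))]⟩
  have L0 : (0 : ℝ) < L := by linarith
  have eX : 0 < e * X := by positivity
  have h1 := sum_blocks (fun n => cp A B fun i => apx f χ t V y (n + i))
    (fun n => norm_cp_le A B fun i => norm_apx_le χ t hf V y _) (a₀ := ⌈e * X⌉₊) (L := L)
    (Nat.cast_pos.1 L0) (θ := 5 * e) (by positivity) (fun a ha => ?_) N
  · have h2 := Nat.ceil_lt_add_one eX.le
    have h3 := mul_le_mul_of_nonneg_left hN he.le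
    linarith
  have a1 : e * X ≤ a := Nat.ceil_le.1 ha
  have a0 : (0 : ℝ) < a := by linarith
  have hS : ∀ n, ‖cp A B fun i => sm f χ t V (n + i)‖ ≤ 1 := fun n =>
    norm_cp_le A B fun i => norm_sm_le χ t hf V _
  have h2 := (hs y (PS V y) (fun p n => cp A B fun i => loc f χ t p (n + i)) (q * V)
    (fun n => cp A B fun i => sm f χ t V (n + i)) a L y1 (bh_hyp χ t hf hAB V1 (by linarith))
    (Nat.mul_pos hq V0) (periodic_cp A B (periodic_sm χ t f V)) hS).1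
  have h3 := mean_le (Q := q * V) zero_le_one hS
  have h4 := (prod_mean_le χ t hf hAB V0 V2 (by linarith : 0 ≤ y)).trans
    (Real.exp_le_exp.2 (by linarith : -((dst f χ t y - V) / 2) ≤ Real.log e))
  rw [Real.exp_log he] at h4
  have h5 : ‖(L : ℂ) * mean (q * V) (fun n => cp A B fun i => sm f χ t V (n + i)) *
      ∏ p ∈ PS V y, mean p fun n => cp A B fun i => loc f χ t p (n + i)‖ ≤ L * 1 * e := by
    rw [norm_mul, norm_mul, Complex.norm_natCast]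
    exact mul_le_mul (mul_le_mul_of_nonneg_left ((norm_mean_le _ _).trans h3) L0.le) h4
      (norm_nonneg _) (by positivity)
  have h6 := (norm_le_norm_add_norm_sub' _ _).trans (add_le_add h5 h2)
  have h7 : H * (|t| * (L / a)) ≤ e := by
    rw [← mul_div_assoc, ← mul_div_assoc, div_le_iff₀ a0]
    have k5 := mul_le_mul (t1.trans y3) L2 L0.le (by positivity)
    have k6 := mul_le_mul_of_nonneg_left k5 (Nat.cast_nonneg (α := ℝ) H)
    have k7 := mul_le_mul_of_nonneg_left a1 he.le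
    rw [mul_left_comm (X ^ (1 / 4 : ℝ)), r2] at k6
    linarith
  have h8 : ‖∑ n ∈ Ioc a (a + L), (cp A B fun i => apx f χ t V y (n + i)) -
      (∑ n ∈ Ioc a (a + L), (cp A B fun i => sm f χ t V (n + i)) *
        ∏ p ∈ PS V y, cp A B fun i => loc f χ t p (n + i)) *
          cp A B fun i => eI (t * Real.log (a + i : ℕ))‖ ≤ L * e := by
    rw [sum_mul, ← sum_sub_distrib]
    refine (norm_sum_le _ _).trans ((sum_le_card_nsmul _ _ e fun n hn => ?_).trans (by simp))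
    rw [cp_apx, ← mul_sub, norm_mul, norm_mul]
    refine (mul_le_of_le_one_left (norm_nonneg _) (mul_le_one₀ (hS n) (norm_nonneg _)
      (norm_prod_le_one _ fun p _ => norm_cp_le A B fun i => norm_loc_le χ t hf p _))).trans ?_
    exact (cp_osc t hAB (Nat.cast_pos.1 a0) (mem_Ioc.1 hn).1.le (mem_Ioc.1 hn).2).trans h7
  have h9 := (norm_le_norm_add_norm_sub' _ _).trans (add_le_add ((norm_mul_le _ _).trans
    ((mul_le_of_le_one_right (norm_nonneg _) (norm_cp_le A B fun i => (norm_eI _).le)).trans h6)) h8)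
  have h10 := mul_le_mul_of_nonneg_left h3 (by positivity : 0 ≤ 2 * e * L)
  have h11 := mul_le_mul_of_nonneg_left y2 (by positivity : (0 : ℝ) ≤ 6 * (q * V : ℕ))
  have h12 := mul_le_mul_of_nonneg_left L1 he.le
  linarith

end Pool.Agent.Lib.MP_232f4c_nt.Gap
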