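import Pool.Agent.Lib.MP_232f4c_nt.GapE1
import Pool.Agent.Lib.MP_232f4c_nt.GapE2

/-!
An aperiodic function is not pretentious.
-/

namespace Pool.Agent.Lib.MP_232f4c_nt.Gap

open Finset Function Filter Topology

/-- Vanishing means along all progressions. -/
def Aper (f : ℕ → ℂ) : Prop := ∀ a b : ℕ, 0 < a → 0 < b →
  Tendsto (fun N : ℕ => (1 / (N : ℂ)) * ∑ n ∈ Icc 1 N, f (a * n + b)) atTop (𝓝 0)

variable {f : ℕ → ℂ} {q : ℕ} (χ : DirichletCharacter ℂ q)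

theorem tail_f3 (hf : IsMul f) {t K : ℝ} (hK : ∀ Y, dst f χ t Y ≤ K) {η : ℝ} (hη : 0 < η) :
    ∃ Y₀ : ℝ, ∀ y X, Y₀ ≤ y → dst f χ t X - dst f χ t y ≤ η := by
  have hb : BddAbove (Set.range (dst f χ t)) := ⟨K, by rintro _ ⟨Y, rfl⟩; exact hK Y⟩
  obtain ⟨Y₀, h⟩ := exists_lt_of_lt_ciSup (f := dst f χ t)
    (show (⨆ Y, dst f χ t Y) - η < ⨆ Y, dst f χ t Y by linarith)
  refine ⟨Y₀, fun y X hy => ?_⟩
  have h1 := le_ciSup hb X
  have h2 := dst_mono χ t hf hy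
  linarith

theorem card_res_f3 {p V : ℕ} (hp : p.Prime) (hV : ¬p ∣ V) :
    #{r ∈ range p | p ∣ V * r + 1} ≤ 1 := by
  refine card_le_one.2 fun a ha b hb => ?_
  obtain ⟨a1, a2⟩ := mem_filter.1 ha
  obtain ⟨b1, b2⟩ := mem_filter.1 hb
  have h1 : V * a + 1 ≡ V * b + 1 [MOD p] :=
    ((Nat.modEq_zero_iff_dvd).2 a2).trans ((Nat.modEq_zero_iff_dvd).2 b2).symm
  have h2 : a ≡ b [MOD p] := Nat.ModEq.cancel_left_of_coprime
    ((Nat.Prime.coprime_iff_not_dvd hp).2 hV) (Nat.ModEq.add_right_cancel' 1 h1)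
  exact Nat.ModEq.eq_of_lt_of_lt h2 (mem_range.1 a1) (mem_range.1 b1)

theorem mean_loc_f3 (hf : IsMul f) (t : ℝ) {p V : ℕ} (hp : p.Prime) (hV : ¬p ∣ V) :
    1 - (1 - (zz f χ t p).re) / p ≤ ‖mean p fun n => loc f χ t p (V * n + 1)‖ := by
  have hp0 : (0 : ℝ) < p := by exact_mod_cast hp.pos
  refine le_trans ?_ (Complex.re_le_norm _)
  rw [mean, Complex.div_natCast_re, Complex.re_sum, le_div_iff₀ hp0]
  have h1 : ∑ n ∈ range p, (loc f χ t p (V * n + 1)).re =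
      p - ∑ n ∈ range p with p ∣ V * n + 1, (1 - (zz f χ t p).re) := by
    rw [sum_filter, eq_sub_iff_add_eq, ← sum_add_distrib]
    rw [sum_congr rfl (g := fun _ => (1 : ℝ)) fun n _ => ?_]
    · simp
    · unfold loc
      split_ifs <;> simp
  rw [h1, sum_const, nsmul_eq_mul, sub_mul, div_mul_cancel₀ _ hp0.ne', one_mul]
  have h2 : (#{r ∈ range p | p ∣ V * r + 1} : ℝ) ≤ 1 := by exact_mod_cast card_res_f3 hp hV
  have h3 := (re_zz_le χ t hf p).1
  nlinarith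

theorem prod_mean_f3 (hf : IsMul f) (t : ℝ) {V w : ℕ} (hV : ∀ p : ℕ, p.Prime → p ≤ w → p ∣ V)
    {y : ℝ} (hy : (w : ℝ) ≤ y) :
    1 - (dst f χ t y - dst f χ t w) ≤
      ‖∏ p ∈ PS V y, mean p fun n => loc f χ t p (V * n + 1)‖ := by
  have hw0 : (0 : ℝ) ≤ w := Nat.cast_nonneg w
  have hy0 : 0 ≤ y := hw0.trans hy
  have h0 : ∀ p : ℕ, 0 ≤ (1 - (zz f χ t p).re) / p := fun p =>
    div_nonneg (re_zz_le χ t hf p).1 (Nat.cast_nonneg p)
  have h1 : ∀ p ∈ PS V y, (1 - (zz f χ t p).re) / p ≤ 1 := fun p hp => by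
    have h2 : (2 : ℝ) ≤ p := by exact_mod_cast ((mem_PS hy0).1 hp).1.two_le
    rw [div_le_one (by linarith)]
    linarith [(re_zz_le χ t hf p).2]
  have h2 : ∑ p ∈ PS V y, (1 - (zz f χ t p).re) / p ≤ dst f χ t y - dst f χ t w := by
    rw [dst_sub χ t f hw0 hy]
    refine sum_le_sum_of_subset_of_nonneg (fun p hp => ?_) fun p _ _ => h0 p
    obtain ⟨h3, h4, h5⟩ := (mem_PS hy0).1 hp
    refine mem_filter.2 ⟨Nat.mem_primesLE.2 ⟨Nat.le_floor h4, h3⟩, ?_⟩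
    have : w < p := not_le.1 fun h6 => h5 (hV p h3 h6)
    exact_mod_cast this
  have h3 := Pool.Agent.Lib.MP_458f0b_nt.one_sub_sum_le_prod (PS V y)
    (fun p : ℕ => (1 - (zz f χ t p).re) / p) (fun p _ => h0 p) h1
  rw [norm_prod]
  refine le_trans (by linarith) (h3.trans ?_)
  refine prod_le_prod (fun p hp => sub_nonneg.2 (h1 p hp)) fun p hp => ?_
  exact mean_loc_f3 χ hf t ((mem_PS hy0).1 hp).1 ((mem_PS hy0).1 hp).2.2

theorem sm_one_f3 (hf : IsMul f) (t : ℝ) {V : ℕ} (hq : q ∣ V) (n : ℕ) :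
    sm f χ t V (V * n + 1) = 1 := by
  have h1 : (V * n + 1).gcd V = 1 := by
    rw [Nat.gcd_comm, add_comm, Nat.gcd_add_mul_left_right, Nat.gcd_one_right]
  have h2 : ((V : ℕ) : ZMod q) = 0 := (ZMod.natCast_eq_zero_iff V q).2 hq
  simp [sm, h1, hf.one, h2, eI_zero]

theorem phase_f3 (t : ℝ) {V a L n : ℕ} (ha : 0 < a) (hn : n ∈ Ioc a (a + L)) :
    ‖eI (t * Real.log (V * n + 1 : ℕ)) - eI (t * Real.log (V * a + 1 : ℕ))‖ ≤ |t| * (L / a) := by
  obtain ⟨h1, h2⟩ := mem_Ioc.1 hn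
  have a0 : (0 : ℝ) < a := by exact_mod_cast ha
  have b1 : (a : ℝ) ≤ n := by exact_mod_cast h1.le
  have b2 : (n : ℝ) ≤ a + L := by exact_mod_cast h2
  have hV : (0 : ℝ) ≤ V := Nat.cast_nonneg V
  have hL : (0 : ℝ) ≤ L := Nat.cast_nonneg L
  have c1 : (0 : ℝ) < V * a + 1 := by positivity
  have c2 : (V : ℝ) * a + 1 ≤ V * n + 1 := by nlinarith
  refine (norm_eI_sub_le _ _).trans ?_
  rw [← mul_sub, abs_mul]
  refine mul_le_mul_of_nonneg_left ?_ (abs_nonneg t)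
  push_cast
  rw [abs_of_nonneg (sub_nonneg.2 (Real.log_le_log c1 c2)),
    ← Real.log_div (c1.trans_le c2).ne' c1.ne']
  refine (Real.log_le_sub_one_of_pos (div_pos (c1.trans_le c2) c1)).trans ?_
  rw [div_sub_one c1.ne', div_le_div_iff₀ c1 a0]
  have c3 : (V : ℝ) * (n - a) * a ≤ V * L * a :=
    mul_le_mul_of_nonneg_right (mul_le_mul_of_nonneg_left (by linarith) hV) a0.le
  nlinarith

theorem err_f3 (hf : IsMul f) (t : ℝ) {V w : ℕ} (hV0 : 0 < V) (hq : q ∣ V) (hw : 0 < w)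
    (hV : ∀ p : ℕ, p.Prime → p ≤ w → p ∣ V) (a L : ℕ) {y : ℝ} (hy : 0 ≤ y) :
    ‖∑ n ∈ Ioc a (a + L), f (V * n + 1) - ∑ n ∈ Ioc a (a + L), apx f χ t V y (V * n + 1)‖ ≤
      2 * (L / w + √(V * (a + L) + 1)) +
        ∑ n ∈ Ioc 0 ⌊(V * (a + L) + 1 : ℝ)⌋₊, lrg f χ t (V * (a + L) + 1) y n := by
  set X : ℝ := V * (a + L) + 1 with hX
  have hXn : ⌊X⌋₊ = V * (a + L) + 1 := by
    rw [hX, ← Nat.floor_natCast (R := ℝ) (V * (a + L) + 1)]
    push_cast
    rfl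
  have h1 : ∀ n ∈ Ioc a (a + L), ‖f (V * n + 1) - apx f χ t V y (V * n + 1)‖ ≤
      (if ¬good V (V * n + 1) then 2 else 0) + lrg f χ t X y (V * n + 1) := by
    intro n hn
    by_cases hg : good V (V * n + 1)
    · simp only [hg, not_true, if_false, zero_add]
      refine approx_pt χ t hf hq hy (Nat.succ_pos _) ?_ hg
      have : V * n + 1 ≤ V * (a + L) + 1 := by
        have := Nat.mul_le_mul_left V (mem_Ioc.1 hn).2
        omega
      rw [hX]
      exact_mod_cast this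
    · simp only [hg, not_false_iff, if_true]
      have h2 := norm_sub_le (f (V * n + 1)) (apx f χ t V y (V * n + 1))
      linarith [hf.le (V * n + 1), norm_apx_le χ t hf V y (V * n + 1),
        lrg_nonneg χ t f X y (V * n + 1)]
  rw [← sum_sub_distrib]
  refine ((norm_sum_le _ _).trans (sum_le_sum h1)).trans ?_
  rw [sum_add_distrib, ← sum_filter, sum_const, nsmul_eq_mul]
  refine add_le_add (by linarith [card_bad_ap hw hV a L]) ?_
  rw [← sum_image (s := Ioc a (a + L)) (g := fun n => V * n + 1) (f := lrg f χ t X y)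
    fun m _ n _ h => Nat.eq_of_mul_eq_mul_left hV0 (Nat.succ_injective h)]
  refine sum_le_sum_of_subset_of_nonneg (fun m hm => ?_) fun m _ _ => lrg_nonneg χ t f X y m
  obtain ⟨n, hn, rfl⟩ := mem_image.1 hm
  have := Nat.mul_le_mul_left V (mem_Ioc.1 hn).2
  rw [hXn, mem_Ioc]
  omega

theorem aper_f3 (ha : Aper f) {V : ℕ} (hV : 0 < V) {θ : ℝ} (hθ : 0 < θ) :
    ∃ M₀ : ℕ, ∀ a L : ℕ, M₀ ≤ a → ‖∑ n ∈ Ioc a (a + L), f (V * n + 1)‖ ≤ θ * (2 * a + L) := by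
  have h1 := (ha V 1 hV one_pos).norm
  rw [norm_zero] at h1
  obtain ⟨M₀, h2⟩ := eventually_atTop.1 (h1.eventually (ge_mem_nhds hθ))
  have h3 : ∀ M : ℕ, M₀ + 1 ≤ M → ‖∑ n ∈ Ioc 0 M, f (V * n + 1)‖ ≤ θ * M := by
    intro M hM
    have h4 := h2 M (by omega)
    have h5 : (0 : ℝ) < M := by exact_mod_cast (show 0 < M by omega)
    rw [norm_mul, norm_div, norm_one, Complex.norm_natCast, one_div, inv_mul_le_iff₀ h5] at h4
    rw [mul_comm]
    exact h4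
  refine ⟨M₀ + 1, fun a L hM => ?_⟩
  have h4 := sum_Ioc_consecutive (fun n => f (V * n + 1)) (Nat.zero_le a) (Nat.le_add_right a L)
  rw [eq_sub_of_add_eq' h4]
  refine (norm_sub_le _ _).trans ?_
  have h5 := h3 a hM
  have h6 := h3 (a + L) (by omega)
  push_cast at h6
  linarith

theorem not_bdd (hf : IsMul f) (ha : Aper f) (hq : 0 < q) (t K : ℝ) :
    ∃ Y : ℝ, K < dst f χ t Y := by
  by_contra hK
  push Not at hK
  obtain ⟨Y₀, hY₀⟩ := tail_f3 χ hf hK (show (0 : ℝ) < 1 / 10 by norm_num)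
  obtain ⟨w, hw⟩ := exists_nat_ge (max 20 Y₀)
  have hw1 : (20 : ℝ) ≤ w := (le_max_left _ _).trans hw
  have hw2 : Y₀ ≤ w := (le_max_right _ _).trans hw
  have hw0 : 0 < w := by exact_mod_cast (show (0 : ℝ) < w by linarith)
  obtain ⟨V, hV0, hqV, hV⟩ : ∃ V : ℕ, 0 < V ∧ q ∣ V ∧ ∀ p : ℕ, p.Prime → p ≤ w → p ∣ V :=
    ⟨q * w.factorial, Nat.mul_pos hq w.factorial_pos, dvd_mul_right _ _, fun p hp h =>
      (Nat.dvd_factorial hp.pos h).mul_left q⟩
  obtain ⟨s, hs, hbh⟩ := bh 1 (show (0 : ℝ) < 1 / 20 by norm_num)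
  obtain ⟨B, hB⟩ := exists_nat_ge (10 * |t| + 1)
  have hB1 : (1 : ℝ) ≤ B := by linarith [abs_nonneg t]
  have hB0 : 1 ≤ B := by exact_mod_cast hB1
  have hV1 : (1 : ℝ) ≤ V := by exact_mod_cast hV0
  have hs0 : (0 : ℝ) < s := by exact_mod_cast hs
  obtain ⟨C, hC⟩ : ∃ C : ℝ, C = V * (B + 1) + 1 := ⟨_, rfl⟩
  have hC1 : 1 ≤ C := by rw [hC]; nlinarith
  obtain ⟨l, hl⟩ : ∃ l : ℝ, l = 1 / (40 * (4 * s : ℕ) * C) := ⟨_, rfl⟩
  have hl0 : 0 < l := by rw [hl]; positivity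
  obtain ⟨Y₁, hY₁⟩ := tail_f3 χ hf hK (show 0 < l / (10 * C) by positivity)
  obtain ⟨M₀, hM₀⟩ := aper_f3 ha hV0 (show (0 : ℝ) < 1 / (16 * (B + 1)) by positivity)
  obtain ⟨Y, hY⟩ : ∃ Y : ℝ, Y = max (w : ℝ) Y₁ := ⟨_, rfl⟩
  have hYw : (w : ℝ) ≤ Y := hY ▸ le_max_left _ _
  have hYY : Y₁ ≤ Y := hY ▸ le_max_right _ _
  obtain ⟨L, hL⟩ := exists_nat_ge (Y ^ (4 * s) + 1024 * C + M₀)
  have hYp : 0 ≤ Y ^ (4 * s) := pow_nonneg (by linarith) _
  have hM : (0 : ℝ) ≤ M₀ := Nat.cast_nonneg _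
  have hL1 : 1024 * C ≤ L := by linarith
  have hL0 : (0 : ℝ) < L := by linarith
  have hLn : 0 < L := by exact_mod_cast hL0
  have hLM : M₀ ≤ B * L := by
    have h1 : M₀ ≤ L := by exact_mod_cast (show (M₀ : ℝ) ≤ L by linarith)
    exact h1.trans (Nat.le_mul_of_pos_left L hB0)
  have up := hM₀ (B * L) L hLM
  have er := fun (y : ℝ) (hy : 0 ≤ y) => err_f3 χ hf t hV0 hqV hw0 hV (B * L) L hy
  obtain ⟨X, hX⟩ : ∃ X : ℝ, X = V * ((B * L : ℕ) + L) + 1 := ⟨_, rfl⟩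
  rw [← hX] at er
  have hBL : (0 : ℝ) ≤ B * L := by positivity
  have hXL : (L : ℝ) ≤ X := by rw [hX]; push_cast; nlinarith
  have hXC : X ≤ C * L := by rw [hX, hC]; push_cast; nlinarith
  have hX4 : 4 ≤ X := by linarith
  have hu : 0 < 4 * s := by omega
  obtain ⟨y, hy⟩ : ∃ y : ℝ, y = X ^ ((4 * s : ℕ) : ℝ)⁻¹ := ⟨_, rfl⟩
  have hYy : Y ≤ y := by
    rw [hy, ← Real.pow_rpow_inv_natCast (show 0 ≤ Y by linarith) hu.ne']
    exact Real.rpow_le_rpow hYp (by linarith) (by positivity)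
  have hys : y ^ s ≤ √X := by
    rw [hy, ← Real.rpow_natCast, ← Real.rpow_mul (by linarith), Real.sqrt_eq_rpow]
    refine Real.rpow_le_rpow_of_exponent_le (by linarith) ?_
    push_cast
    rw [mul_inv, mul_assoc, inv_mul_cancel₀ hs0.ne']
    norm_num
  have hsq : √X ≤ L / 32 := by
    rw [Real.sqrt_le_left (by positivity)]
    nlinarith
  have hy0 : 0 ≤ y := by linarith
  have e1 := er y hy0
  have e2 := sum_lrg_le χ t hf hX4 hu hl0
  rw [← hy] at e2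
  have e3 : X * (2 * (4 * s : ℕ) * l + (dst f χ t X - dst f χ t y) / (2 * l)) ≤ L / 10 := by
    have h1 : (dst f χ t X - dst f χ t y) / (2 * l) ≤ 1 / (20 * C) := by
      refine (div_le_div_of_nonneg_right (hY₁ y X (by linarith)) (by positivity)).trans ?_
      apply le_of_eq
      field_simp
      norm_num
    have h2 : 2 * ((4 * s : ℕ) : ℝ) * l = 1 / (20 * C) := by
      rw [hl]
      push_cast
      field_simp
      norm_num
    have h3 : X * (1 / (20 * C) + 1 / (20 * C)) ≤ C * L * (1 / (20 * C) + 1 / (20 * C)) :=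
      mul_le_mul_of_nonneg_right hXC (by positivity)
    have h4 : C * L * (1 / (20 * C) + 1 / (20 * C)) = L / 10 := by
      field_simp
      norm_num
    have h5 := mul_le_mul_of_nonneg_left (add_le_add h2.le h1) (show 0 ≤ X by linarith)
    linarith
  have e4 : (L : ℝ) / w ≤ L / 20 := div_le_div_of_nonneg_left hL0.le (by norm_num) hw1
  have e5 := (hbh y (PS V y) (fun p n => loc f χ t p (V * n + 1)) 1 (fun _ => 1) (B * L) L
    (by linarith) (fun p hp => by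
      obtain ⟨h1, h2, h3⟩ := (mem_PS hy0).1 hp
      refine ⟨h1, h2, Nat.coprime_one_left p, fun n => ?_, fun n => norm_loc_le χ t hf p _, ?_⟩
      · have : V * (n + p) + 1 = V * n + 1 + p * V := by ring
        simp only [loc, this, Nat.dvd_add_left (dvd_mul_right p V)]
      · refine (card_le_card fun r hr => ?_).trans (card_res_f3 h1 h3)
        obtain ⟨r1, r2⟩ := mem_filter.1 hr
        refine mem_filter.2 ⟨r1, ?_⟩
        by_contra r3
        exact r2 (by simp only [loc, r3, if_false]))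
    one_pos (fun _ => rfl) (fun _ => by simp)).1
  simp only [mean, range_one, sum_singleton, Nat.cast_one, div_one, one_mul, mul_one,
    norm_one] at e5
  have e6 := prod_mean_f3 χ hf t hV (hYw.trans hYy)
  have e7 := hY₀ w y hw2
  simp only [mean] at e6
  set P : ℂ := ∏ p ∈ PS V y, (∑ n ∈ range p, loc f χ t p (V * n + 1)) / p with hP
  set S : ℂ := ∑ n ∈ Ioc (B * L) (B * L + L), ∏ p ∈ PS V y, loc f χ t p (V * n + 1) with hS
  have e8 : (L : ℝ) * (9 / 10) ≤ ‖(L : ℂ) * P‖ := by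
    rw [norm_mul, Complex.norm_natCast]
    exact mul_le_mul_of_nonneg_left (by linarith) hL0.le
  have e9 : ‖∑ n ∈ Ioc (B * L) (B * L + L), apx f χ t V y (V * n + 1) -
      S * eI (t * Real.log (V * (B * L) + 1 : ℕ))‖ ≤ L / 10 := by
    rw [hS, sum_mul, ← sum_sub_distrib]
    have h1 : |t| * ((L : ℝ) / (B * L : ℕ)) ≤ 1 / 10 := by
      push_cast
      rw [div_mul_cancel_right₀ hL0.ne', ← div_eq_mul_inv, div_le_iff₀ (by linarith)]
      linarith
    refine (norm_sum_le _ _).trans ((sum_le_card_nsmul _ _ (1 / 10 : ℝ) fun n hn => ?_).trans ?_)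
    · rw [apx, sm_one_f3 χ hf t hqV, one_mul, ← mul_sub, norm_mul]
      refine (mul_le_of_le_one_left (norm_nonneg _)
        (norm_prod_le_one _ fun p _ => norm_loc_le χ t hf p _)).trans ?_
      exact (phase_f3 t (Nat.mul_pos hB0 hLn) hn).trans h1
    · rw [Nat.card_Ioc, Nat.add_sub_cancel_left, nsmul_eq_mul]
      linarith
  have e10 : ‖S * eI (t * Real.log (V * (B * L) + 1 : ℕ))‖ = ‖S‖ := by
    rw [norm_mul, norm_eI, mul_one]
  have e11 : 1 / (16 * ((B : ℝ) + 1)) * (2 * (B * L : ℕ) + L) ≤ L / 8 := by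
    push_cast
    rw [one_div, inv_mul_le_iff₀ (by positivity)]
    nlinarith
  have t1 := norm_sub_norm_le ((L : ℂ) * P) S
  have t2 := norm_sub_norm_le (S * eI (t * Real.log (V * (B * L) + 1 : ℕ)))
    (∑ n ∈ Ioc (B * L) (B * L + L), apx f χ t V y (V * n + 1))
  have t3 := norm_sub_norm_le (∑ n ∈ Ioc (B * L) (B * L + L), apx f χ t V y (V * n + 1))
    (∑ n ∈ Ioc (B * L) (B * L + L), f (V * n + 1))
  rw [norm_sub_rev] at t1 t2 t3
  linarith

theorem not_pret (hf : IsMul f) (ha : Aper f) (hq : 0 < q) (K T : ℝ) :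
    ∀ᶠ Y : ℝ in atTop, ∀ t : ℝ, |t| ≤ T → K < dst f χ t Y := by
  have hc : ∀ Y : ℝ, Continuous fun t : ℝ => dst f χ t Y := fun Y => by
    unfold dst zz eI
    fun_prop
  have h := (isCompact_Icc (a := -T) (b := T)).induction_on
    (p := fun s => ∀ᶠ Y : ℝ in atTop, ∀ t ∈ s, K < dst f χ t Y)
    (Eventually.of_forall fun _ _ h => absurd h (Set.notMem_empty _))
    (fun s₁ s₂ h₁ h₂ => h₂.mono fun Y h t ht => h t (h₁ ht))
    (fun s₁ s₂ h₁ h₂ => (h₁.and h₂).mono fun Y h t ht => ht.elim (h.1 t) (h.2 t))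
    fun t₀ _ => by
      obtain ⟨Y₀, h₀⟩ := not_bdd χ hf ha hq t₀ K
      refine ⟨{t | K < dst f χ t Y₀},
        mem_nhdsWithin_of_mem_nhds ((isOpen_lt continuous_const (hc Y₀)).mem_nhds h₀), ?_⟩
      filter_upwards [eventually_ge_atTop Y₀] with Y hY t ht
      exact lt_of_lt_of_le ht (dst_mono χ t hf hY)
  exact h.mono fun Y hY t ht => hY t (abs_le.1 ht)

end Pool.Agent.Lib.MP_232f4c_nt.Gap
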