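import Mathlib

/-!
Pigeonholing over scales.
-/

namespace Pool.Agent.Lib.MP_232f4c_nt.Gap

open Filter

section

variable {u : ℕ}

theorem root_succ {Z : ℝ} (hZ : 0 ≤ Z) (R : ℕ) :
    Z ^ ((u : ℝ)⁻¹ ^ (R + 1)) = (Z ^ (u : ℝ)⁻¹) ^ ((u : ℝ)⁻¹ ^ R) := by
  rw [pow_succ', Real.rpow_mul hZ]

theorem root_le (hu : 0 < u) {Z : ℝ} (hZ : 1 ≤ Z) {R R' : ℕ} (h : R ≤ R') :
    Z ^ ((u : ℝ)⁻¹ ^ R') ≤ Z ^ ((u : ℝ)⁻¹ ^ R) :=
  Real.rpow_le_rpow_of_exponent_le hZ (pow_le_pow_of_le_one (by positivity)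
    (inv_le_one_of_one_le₀ (Nat.one_le_cast.2 hu)) h)

theorem root_le_self (hu : 0 < u) {Z : ℝ} (hZ : 1 ≤ Z) (R : ℕ) : Z ^ ((u : ℝ)⁻¹ ^ R) ≤ Z := by
  simpa using root_le hu hZ (Nat.zero_le R)

theorem tendsto_root (hu : 0 < u) (R : ℕ) :
    Tendsto (fun Z : ℝ => Z ^ ((u : ℝ)⁻¹ ^ R)) atTop atTop :=
  tendsto_rpow_atTop (by positivity)

end

theorem no_gap (D : ℝ → ℝ → ℝ) (hmono : ∀ t X Y, X ≤ Y → D t X ≤ D t Y) (hpos : ∀ t X, 0 ≤ D t X)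
    {H u : ℕ} (hu : H + 1 ≤ u) {δ : ℝ} (hδ : 0 < δ)
    (hU : ∀ A₀ : ℝ, ∀ᶠ X : ℝ in atTop, ∀ t : ℝ, X ^ (H + 1) ≤ |t| → |t| ≤ X ^ A₀ →
      δ ≤ D t X - D t (X ^ (u : ℝ)⁻¹))
    (hL : ∃ K : ℝ, ∀ᶠ X : ℝ in atTop, ∀ t : ℝ, |t| ≤ X ^ (u : ℝ)⁻¹ → K ≤ D t (X ^ (u : ℝ)⁻¹) →
      δ ≤ D t X - D t (X ^ (u : ℝ)⁻¹))
    (hP : ∀ K T : ℝ, ∀ᶠ Y : ℝ in atTop, ∀ t : ℝ, |t| ≤ T → K < D t Y) (R : ℕ) (A : ℝ) :
    ∀ᶠ M : ℝ in atTop, ∀ t : ℝ, |t| ≤ M ^ A →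
      R * δ ≤ D t M - D t (M ^ ((u : ℝ)⁻¹ ^ (2 * R + 1))) := by
  have hu0 : 0 < u := by omega
  have hu1 : (u : ℝ) ≠ 0 := Nat.cast_ne_zero.2 hu0.ne'
  have ht : Tendsto (fun Z : ℝ => Z ^ (u : ℝ)⁻¹) atTop atTop := by simpa using tendsto_root hu0 1
  have h1 : ∀ (R : ℕ) (A₁ : ℝ), ∀ᶠ Z : ℝ in atTop, ∀ t : ℝ, Z ^ (H + 1) ≤ |t| → |t| ≤ Z ^ A₁ →
      R * δ ≤ D t Z - D t (Z ^ ((u : ℝ)⁻¹ ^ R)) := by
    intro R
    induction R with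
    | zero => intro A₁; simp
    | succ R ih =>
      intro A₁
      filter_upwards [hU A₁, ht.eventually (ih (u * A₁)), eventually_ge_atTop 1]
        with Z k1 k2 k3 t t1 t2
      have k4 : Z ^ (u : ℝ)⁻¹ ≤ Z := by simpa using root_le_self hu0 k3 1
      have k5 := k2 t ((pow_le_pow_left₀ (by positivity) k4 _).trans t1) (by
        rwa [← Real.rpow_mul (by linarith), inv_mul_cancel_left₀ hu1])
      rw [root_succ (by linarith)]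
      push_cast
      linarith [k1 t t1 t2]
  have h2 : ∀ K : ℝ, ∀ᶠ y : ℝ in atTop, ∀ t : ℝ, |t| ≤ y → K ≤ D t y := by
    intro K
    obtain ⟨R, hR⟩ := exists_nat_ge (K / δ)
    obtain ⟨Z₀, hZ₀⟩ := eventually_atTop.1 ((h1 R (H + 1 : ℕ)).and (eventually_ge_atTop 1))
    have hZ1 := (hZ₀ Z₀ le_rfl).2
    filter_upwards [hP K (Z₀ ^ (H + 1))] with y k1 t t1
    rcases le_or_gt |t| (Z₀ ^ (H + 1)) with t2 | t2
    · exact (k1 t t2).le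
    have k2 : (|t| ^ ((H + 1 : ℕ) : ℝ)⁻¹) ^ (H + 1) = |t| :=
      Real.rpow_inv_natCast_pow (abs_nonneg t) (by omega)
    have k3 : Z₀ ≤ |t| ^ ((H + 1 : ℕ) : ℝ)⁻¹ := by
      refine le_of_not_gt fun k => ?_
      have := pow_le_pow_left₀ (by positivity) k.le (H + 1)
      linarith
    have k4 := (hZ₀ _ k3).1 t k2.le (by rw [Real.rpow_natCast, k2])
    have k5 : |t| ^ ((H + 1 : ℕ) : ℝ)⁻¹ ≤ |t| := by
      simpa using root_le_self (u := H + 1) (by omega) ((one_le_pow₀ hZ1).trans t2.le) 1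
    rw [div_le_iff₀ hδ] at hR
    linarith [hmono t _ _ (k5.trans t1), hpos t ((|t| ^ ((H + 1 : ℕ) : ℝ)⁻¹) ^ ((u : ℝ)⁻¹ ^ R))]
  obtain ⟨K, hK⟩ := hL
  have h3 : ∀ R : ℕ, ∀ᶠ X : ℝ in atTop, ∀ t : ℝ, |t| ≤ X ^ ((u : ℝ)⁻¹ ^ R) →
      R * δ ≤ D t X - D t (X ^ ((u : ℝ)⁻¹ ^ R)) := by
    intro R
    induction R with
    | zero => simp
    | succ R ih =>
      filter_upwards [hK, ht.eventually (h2 K), ht.eventually ih, eventually_ge_atTop 1]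
        with X k1 k2 k3 k4 t t1
      have t2 : |t| ≤ X ^ (u : ℝ)⁻¹ := by
        simpa using t1.trans (root_le hu0 k4 (by omega : 1 ≤ R + 1))
      rw [root_succ (by linarith)] at t1 ⊢
      push_cast
      linarith [k1 t t2 (k2 t t2), k3 t t1]
  filter_upwards [h3 R, (tendsto_root hu0 (R + 1)).eventually (h1 R (u ^ (R + 1) * A)),
    eventually_ge_atTop 1] with M k1 k2 k3 t t1
  rcases le_or_gt |t| (M ^ ((u : ℝ)⁻¹ ^ R)) with t2 | t2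
  · linarith [k1 t t2, hmono t _ _ (root_le hu0 k3 (by omega : R ≤ 2 * R + 1))]
  have k4 : (M ^ ((u : ℝ)⁻¹ ^ (R + 1))) ^ (H + 1) ≤ |t| := by
    refine (pow_le_pow_right₀ (Real.one_le_rpow k3 (by positivity)) hu).trans (le_trans ?_ t2.le)
    rw [← Real.rpow_natCast, ← Real.rpow_mul (by linarith), pow_succ, mul_assoc,
      inv_mul_cancel₀ hu1, mul_one]
  have k5 := k2 t k4 (by
    rwa [← Real.rpow_mul (by linarith), ← mul_assoc, ← mul_pow, inv_mul_cancel₀ hu1, one_pow,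
      one_mul])
  rw [← Real.rpow_mul (by linarith), ← pow_add, (by ring : R + 1 + R = 2 * R + 1)] at k5
  linarith [hmono t _ _ (root_le_self hu0 k3 (R + 1))]

end Pool.Agent.Lib.MP_232f4c_nt.Gap
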