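import Pool.Agent.Lib.MP_232f4c_nt.Det
import Pool.Agent.Lib.MP_232f4c_nt.GapF1
import Pool.Agent.Lib.MP_232f4c_nt.GapF2
import Pool.Agent.Lib.MP_232f4c_nt.GapF3
import Pool.Agent.Lib.MP_232f4c_nt.GapG1

/-!
Vanishing of all correlations along a sequence of scales.
-/

namespace Pool.Agent.Lib.MP_232f4c_nt.Gap

open Finset Function Filter Topology

variable {f : ℕ → ℂ}

/-- All correlations with shifts below `H` are small at the scale `N`. -/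
def Small (f : ℕ → ℂ) (H : ℕ) (ε : ℝ) (N : ℕ) : Prop :=
  ∀ A B, Adm H A B → ‖corr f A B N‖ ≤ ε

/-- Long ranges of primes on which `f` pretends to be a twisted character. -/
def LongRange (f : ℕ → ℂ) : Prop :=
  ∀ ε : ℝ, 0 < ε → ∀ U : ℝ, ∃ u : ℝ, U ≤ u ∧ ∃ q : ℕ, 0 < q ∧ ∃ χ : DirichletCharacter ℂ q,
    ∀ M₀ : ℕ, ∃ M : ℕ, M₀ ≤ M ∧ ∃ t : ℝ, |t| ≤ (M : ℝ) ^ u ∧
      dst f χ t M - dst f χ t ((M : ℝ) ^ (1 / u)) ≤ ε * Real.log u

theorem corr_eq (f : ℕ → ℂ) (A B : Finset ℕ) (N : ℕ) :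
    ‖corr f A B N‖ = ‖∑ n ∈ Ioc 0 N, cp A B fun i => f (n + i)‖ / N := by
  rw [corr, norm_mul, one_div, norm_inv, Complex.norm_natCast, div_eq_inv_mul]
  rfl

theorem small_of (hf : IsMul f) {q H V u : ℕ} (χ : DirichletCharacter ℂ q) (t : ℝ) (hq : q ∣ V)
    (hu : 0 < u) {X e : ℝ} (he : 0 < e) (h4 : 4 ≤ X) (hH : 2 * (H : ℝ) ≤ X)
    (hb : ∀ N : ℕ, (#{n ∈ Ioc 0 N | ¬good V n} : ℝ) ≤ e * N)
    (hd : dst f χ t X - dst f χ t (X ^ (u : ℝ)⁻¹) ≤ e * e / u)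
    (hs : ∀ A B, Adm H A B → ∀ N : ℕ, (N : ℝ) ≤ X →
      ‖∑ n ∈ Ioc 0 N, cp A B fun i => apx f χ t V (X ^ (u : ℝ)⁻¹) (n + i)‖ ≤ e * X) :
    Small f H (4 * (4 * H + 1) * e) ⌊X / 2⌋₊ := fun A B hAB => by
  have h1 : (⌊X / 2⌋₊ : ℝ) ≤ X / 2 := Nat.floor_le (by linarith)
  have h2 : X / 2 < ⌊X / 2⌋₊ + 1 := Nat.lt_floor_add_one _
  have hu1 : (0 : ℝ) < u := Nat.cast_pos.2 hu
  have h3 := csum_apx χ t hf hAB hq (N := ⌊X / 2⌋₊) (X := X) (y := X ^ (u : ℝ)⁻¹) (by positivity)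
    (by linarith)
  have h5 := sum_lrg_le χ t hf h4 hu (l := e / (2 * u)) (by positivity)
  have h6 : 2 * u * (e / (2 * u)) +
      (dst f χ t X - dst f χ t (X ^ (u : ℝ)⁻¹)) / (2 * (e / (2 * u))) ≤ 2 * e := by
    have k1 : 2 * u * (e / (2 * u)) = e := by field_simp
    have k2 : e * e / u = e * (2 * (e / (2 * u))) := by field_simp
    rw [k2, ← div_le_iff₀ (by positivity)] at hd
    linarith
  have h7 := (hb ⌊X⌋₊).trans (mul_le_mul_of_nonneg_left (Nat.floor_le (by linarith)) he.le)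
  have h8 := h5.trans (mul_le_mul_of_nonneg_left h6 (by linarith))
  have h9 := h3.trans (mul_le_mul_of_nonneg_left (add_le_add
    (mul_le_mul_of_nonneg_left h7 two_pos.le) h8) (Nat.cast_nonneg H))
  have h10 := (norm_le_norm_add_norm_sub' _ _).trans (add_le_add (hs A B hAB _ (by linarith)) h9)
  rw [corr_eq, div_le_iff₀ (by linarith)]
  have h11 : 0 ≤ (4 * (H : ℝ) + 1) * e := by positivity
  nlinarith [mul_le_mul_of_nonneg_left (by linarith : X ≤ 4 * (⌊X / 2⌋₊ : ℝ)) h11]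

theorem exists_small (hf : IsMul f) (ha : Aper f) (hl : LongRange f) (H N₀ : ℕ) {ε : ℝ}
    (hε : 0 < ε) : ∃ N, N₀ ≤ N ∧ Small f H ε N := by
  by_contra hn
  push Not at hn
  obtain ⟨e, he, rfl⟩ : ∃ e : ℝ, 0 < e ∧ ε = 4 * (4 * H + 1) * e :=
    ⟨ε / (4 * (4 * H + 1)), by positivity, by field_simp⟩
  obtain ⟨s₁, h₁⟩ := upper H he
  obtain ⟨s₂, h₂⟩ := lower H he
  obtain ⟨u, u1, u2, u3⟩ : ∃ u : ℕ, s₁ ≤ u ∧ s₂ ≤ u ∧ H + 2 ≤ u :=
    ⟨s₁ + s₂ + H + 2, by omega, by omega, by omega⟩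
  have u4 : (1 : ℝ) < u := Nat.one_lt_cast.2 (by omega)
  have u5 := Real.log_pos u4
  obtain ⟨v, v1, q, hq, χ, hχ⟩ := hl (e * e / u / (5 * Real.log u)) (by positivity) (u ^ 3)
  obtain ⟨V, V0, V1, V2, V3⟩ := exists_mod he hq H
  have v0 : 1 ≤ v := (one_le_pow₀ u4.le).trans v1
  obtain ⟨n, n1, n2⟩ := exists_nat_pow_near v0 u4
  have n3 : 3 < n + 1 := (pow_lt_pow_iff_right₀ u4).1 (v1.trans_lt n2)
  obtain ⟨R, R1, R2, R3⟩ : ∃ R : ℕ, 2 * R + 1 ≤ n ∧ n + 1 ≤ 5 * R ∧ 0 < R :=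
    ⟨(n - 1) / 2, by omega, by omega, by omega⟩
  have key : ∀ᶠ X : ℝ in atTop, ∀ t : ℝ, (∀ A B, Adm H A B → ∀ N : ℕ, (N : ℝ) ≤ X →
      ‖∑ n ∈ Ioc 0 N, cp A B fun i => apx f χ t V (X ^ (u : ℝ)⁻¹) (n + i)‖ ≤ e * X) →
      e * e / u ≤ dst f χ t X - dst f χ t (X ^ (u : ℝ)⁻¹) := by
    filter_upwards [eventually_ge_atTop 4, eventually_ge_atTop (2 * (H : ℝ)),
      eventually_ge_atTop (2 * (N₀ : ℝ))] with X k1 k2 k3 t k4
    by_contra k5
    exact hn _ (Nat.le_floor (by linarith))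
      (small_of hf χ t V1 (by omega) he k1 k2 V3 (not_le.1 k5).le k4)
  have h3 := no_gap (dst f χ) (fun t X Y h => dst_mono χ t hf h) (fun t X => dst_nonneg χ t hf X)
    (H := H) (u := u) (by omega) (δ := e * e / u) (by positivity)
    (fun A₀ => by
      filter_upwards [key, h₁ u u1 f hf q χ V hq V0 V1 A₀] with X k1 k2 t t1 t2
      exact k1 t (k2 t t1 t2))
    (by
      obtain ⟨K, hK⟩ := h₂ u u2 f hf q χ V hq V0 V1 V2
      refine ⟨K, ?_⟩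
      filter_upwards [key, hK] with X k1 k2 t t1 t2
      exact k1 t (k2 t t1 t2))
    (not_pret χ hf ha hq) R v
  obtain ⟨M₀, hM₀⟩ := eventually_atTop.1
    (tendsto_natCast_atTop_atTop.eventually (h3.and (eventually_ge_atTop 1)))
  obtain ⟨M, M1, t, t1, t2⟩ := hχ M₀
  have h4 := (hM₀ M M1).1 t t1
  have h5 : (M : ℝ) ^ (1 / v) ≤ (M : ℝ) ^ ((u : ℝ)⁻¹ ^ (2 * R + 1)) := by
    refine Real.rpow_le_rpow_of_exponent_le (hM₀ M M1).2 ?_
    rw [one_div, inv_pow]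
    exact inv_anti₀ (by positivity) ((pow_le_pow_right₀ u4.le R1).trans n1)
  have h6 : Real.log v < R * (5 * Real.log u) := by
    have := Real.log_lt_log (by linarith) (n2.trans_le (pow_le_pow_right₀ u4.le R2))
    rw [Real.log_pow] at this
    push_cast at this
    linarith
  have h7 := mul_lt_mul_of_pos_left h6 (by positivity : 0 < e * e / u / (5 * Real.log u))
  have h8 : e * e / u / (5 * Real.log u) * (R * (5 * Real.log u)) = R * (e * e / u) := by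
    field_simp
  linarith [dst_mono χ t hf h5]

theorem chow (hf : IsMul f) (ha : Aper f) (hl : LongRange f) :
    ∃ N : ℕ → ℕ, Tendsto N atTop atTop ∧ Chow N f := by
  choose N h1 h2 using fun k : ℕ =>
    exists_small hf ha hl k k (ε := 1 / ((k : ℝ) + 1)) (by positivity)
  refine ⟨N, tendsto_atTop_mono h1 tendsto_id, fun A B hAB hne => ?_⟩
  refine squeeze_zero_norm' ?_ tendsto_one_div_add_atTop_nhds_zero_nat
  filter_upwards [eventually_gt_atTop ((A ∪ B).sup id)] with k hk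
  have h3 : A ∪ B ⊆ range k := fun i hi => mem_range.2 ((le_sup (f := id) hi).trans_lt hk)
  exact h2 k A B ⟨subset_union_left.trans h3, subset_union_right.trans h3, hAB, hne⟩

open scoped ComplexConjugate in
theorem chow' (f : ℕ → ℂ) (h1 : ∀ n, ‖f n‖ ≤ 1)
    (h2 : ∀ m n : ℕ, 0 < m → 0 < n → Nat.Coprime m n → f (m * n) = f m * f n) (h3 : Aper f)
    (h4 : ∀ ε : ℝ, 0 < ε → ∀ U : ℝ, ∃ u : ℝ, U ≤ u ∧ ∃ q : ℕ, 0 < q ∧
      ∃ χ : DirichletCharacter ℂ q, ∀ M₀ : ℕ, ∃ M : ℕ, M₀ ≤ M ∧ ∃ t : ℝ, |t| ≤ (M : ℝ) ^ u ∧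
        ∑ p ∈ (Icc 1 M).filter (fun p : ℕ => p.Prime ∧ (M : ℝ) ^ (1 / u) < p),
          (1 - (f p * conj (χ p) * (p : ℂ) ^ (-(t * Complex.I))).re) / p ≤ ε * Real.log u) :
    ∃ N : ℕ → ℕ, Tendsto N atTop atTop ∧ Chow N f := by
  have h5 : f 1 * (f 1 - 1) = 0 := by
    have := h2 1 1 one_pos one_pos (Nat.coprime_one_left 1)
    rw [mul_one] at this
    linear_combination -this
  rcases mul_eq_zero.1 h5 with h6 | h6
  · have h7 : ∀ n, 0 < n → f n = 0 := fun n hn => by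
      have := h2 n 1 hn one_pos (Nat.coprime_one_right n)
      rwa [mul_one, h6, mul_zero] at this
    refine ⟨id, tendsto_id, fun A B _ hne => tendsto_const_nhds.congr fun k => ?_⟩
    rw [corr, sum_eq_zero, mul_zero]
    intro n hn
    obtain ⟨i, hi⟩ := hne
    have h8 := h7 (n + i) (by have := (mem_Icc.1 hn).1; omega)
    rcases mem_union.1 hi with hi | hi
    · rw [prod_eq_zero hi h8, zero_mul]
    · rw [prod_eq_zero hi (by rw [h8, map_zero]), mul_zero]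
  refine chow ⟨h1, sub_eq_zero.1 h6, h2⟩ h3 fun ε hε U => ?_
  obtain ⟨u, u1, q, hq, χ, hχ⟩ := h4 ε hε (max U 1)
  refine ⟨u, (le_max_left _ _).trans u1, q, hq, χ, fun M₀ => ?_⟩
  obtain ⟨M, M1, t, t1, t2⟩ := hχ (max M₀ 1)
  have u2 : 1 ≤ u := (le_max_right _ _).trans u1
  have M2 : (1 : ℝ) ≤ M := Nat.one_le_cast.2 ((le_max_right _ _).trans M1)
  refine ⟨M, (le_max_left _ _).trans M1, t, t1, le_trans (le_of_eq ?_) t2⟩
  rw [dst_sub χ t f (by positivity) (by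
    simpa using Real.rpow_le_rpow_of_exponent_le M2 ((div_le_one (by linarith)).2 u2)),
    Nat.floor_natCast, Nat.primesLE_eq_filter_Icc_one, filter_filter]
  refine sum_congr rfl fun p hp => ?_
  have p0 : (p : ℂ) ≠ 0 := Nat.cast_ne_zero.2 (mem_filter.1 hp).2.1.ne_zero
  rw [zz, eI, Complex.cpow_def_of_ne_zero p0, ← Complex.natCast_log]
  congr 5
  push_cast
  ring

end Pool.Agent.Lib.MP_232f4c_nt.Gap
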