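import Mathlib

/-!
A Bessel inequality taken cell by cell, and the choice of the sieve depth.
-/

namespace Pool.Agent.Lib.MP_232f4c_nt.H86

open Finset Filter Topology
open scoped ComplexConjugate

theorem depth (x : ℝ) (hx : 0 ≤ x) (C : ℝ) (D : ℕ) {η : ℝ} (hη : 0 < η) :
    ∃ (m : ℕ) (ε : ℝ), 0 ≤ ε ∧ C * ((8 * m + 19 : ℕ) : ℝ) ^ D * ε ≤ η ∧
      ∀ J : ℕ, ∏ j ∈ range J, (1 + x ^ (m + j + 1) / (m + j + 1).factorial) ≤ 1 + ε := by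
  have h1 : Tendsto (fun m : ℕ => |C| * 27 ^ D * (2 * Real.exp (2 * x)) * ((m : ℝ) ^ D / 2 ^ m))
      atTop (𝓝 0) := by
    simpa using (tendsto_pow_const_div_const_pow_of_one_lt D (one_lt_two (α := ℝ))).const_mul
      (|C| * 27 ^ D * (2 * Real.exp (2 * x)))
  have h2 : Tendsto (fun m : ℕ => Real.exp (2 * x) * ((m : ℝ) ^ 0 / 2 ^ m)) atTop (𝓝 0) := by
    simpa using (tendsto_pow_const_div_const_pow_of_one_lt 0 (one_lt_two (α := ℝ))).const_mul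
      (Real.exp (2 * x))
  obtain ⟨m, k1, k2, k3⟩ := ((h1.eventually (gt_mem_nhds hη)).and
    ((h2.eventually (gt_mem_nhds one_pos)).and (eventually_ge_atTop 1))).exists
  rw [pow_zero, mul_one_div] at k2
  have hT : 0 ≤ Real.exp (2 * x) / 2 ^ m := by positivity
  refine ⟨m, 2 * (Real.exp (2 * x) / 2 ^ m), by positivity, ?_, fun J => ?_⟩
  · have e1 : ((8 * m + 19 : ℕ) : ℝ) ^ D ≤ 27 ^ D * (m : ℝ) ^ D := by
      rw [← mul_pow]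
      refine pow_le_pow_left₀ (by positivity) ?_ D
      exact_mod_cast (by omega : 8 * m + 19 ≤ 27 * m)
    calc C * ((8 * m + 19 : ℕ) : ℝ) ^ D * (2 * (Real.exp (2 * x) / 2 ^ m))
        ≤ |C| * (27 ^ D * (m : ℝ) ^ D) * (2 * (Real.exp (2 * x) / 2 ^ m)) := by
          refine mul_le_mul_of_nonneg_right ?_ (by positivity)
          exact mul_le_mul (le_abs_self C) e1 (by positivity) (abs_nonneg C)
      _ = |C| * 27 ^ D * (2 * Real.exp (2 * x)) * ((m : ℝ) ^ D / 2 ^ m) := by ring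
      _ ≤ η := k1.le
  · have e1 : ∀ i : ℕ, x ^ i / (i.factorial : ℝ) ≤ Real.exp (2 * x) / 2 ^ i := fun i => by
      have := Real.pow_div_factorial_le_exp (2 * x) (by positivity) i
      rw [le_div_iff₀ (by positivity)]
      refine le_trans (le_of_eq ?_) this
      rw [mul_pow]
      ring
    have e2 : ∀ J : ℕ, ∑ j ∈ range J, x ^ (m + j + 1) / ((m + j + 1).factorial : ℝ) ≤
        Real.exp (2 * x) / 2 ^ m - Real.exp (2 * x) / 2 ^ (m + J) := fun J => by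
      induction J with
      | zero => simp
      | succ J ih =>
        rw [sum_range_succ]
        have := e1 (m + J + 1)
        have e3 : Real.exp (2 * x) / 2 ^ (m + J) =
            2 * (Real.exp (2 * x) / 2 ^ (m + J + 1)) := by
          rw [pow_succ]
          field_simp
        rw [← add_assoc]
        linarith
    have e3 : ∑ j ∈ range J, x ^ (m + j + 1) / ((m + j + 1).factorial : ℝ) ≤
        Real.exp (2 * x) / 2 ^ m := (e2 J).trans (sub_le_self _ (by positivity))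
    have e4 := (abs_le.1 (Real.abs_exp_sub_one_le (x := Real.exp (2 * x) / 2 ^ m)
      (by rw [abs_of_nonneg hT]; exact k2.le))).2
    rw [abs_of_nonneg hT] at e4
    calc ∏ j ∈ range J, (1 + x ^ (m + j + 1) / (m + j + 1).factorial)
        ≤ ∏ j ∈ range J, Real.exp (x ^ (m + j + 1) / ((m + j + 1).factorial : ℝ)) := by
          refine prod_le_prod (fun j _ => by positivity) fun j _ => ?_
          linarith [Real.add_one_le_exp (x ^ (m + j + 1) / ((m + j + 1).factorial : ℝ))]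
      _ = Real.exp _ := (Real.exp_sum _ _).symm
      _ ≤ Real.exp (Real.exp (2 * x) / 2 ^ m) := Real.exp_le_exp.2 e3
      _ ≤ _ := by linarith

theorem gram_le {ι : Type*} [DecidableEq ι] (I : Finset ℕ) (ρ : Finset ι) (Ψ : ι → ℕ → ℂ)
    (b : ι → ℂ) {η : ℝ} (hη : 0 ≤ η) (hΨ : ∀ r ∈ ρ, ∀ n, ‖Ψ r n‖ ≤ 1) (hb : ∀ r ∈ ρ, ‖b r‖ ≤ 1)
    (ho : ∀ r ∈ ρ, ∀ s ∈ ρ, r ≠ s → ‖∑ n ∈ I, Ψ r n * conj (Ψ s n)‖ ≤ η * #I) :
    ∑ n ∈ I, ‖∑ r ∈ ρ, b r * Ψ r n‖ ^ 2 ≤ #ρ * (#I + #ρ * (η * #I)) := by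
  have e1 : ((∑ n ∈ I, ‖∑ r ∈ ρ, b r * Ψ r n‖ ^ 2 : ℝ) : ℂ) =
      ∑ r ∈ ρ, ∑ s ∈ ρ, b r * conj (b s) * ∑ n ∈ I, Ψ r n * conj (Ψ s n) := by
    push_cast
    have k : ∀ n, ((‖∑ r ∈ ρ, b r * Ψ r n‖ : ℝ) : ℂ) ^ 2 =
        ∑ r ∈ ρ, ∑ s ∈ ρ, b r * conj (b s) * (Ψ r n * conj (Ψ s n)) := fun n => by
      rw [← Complex.mul_conj', map_sum, sum_mul_sum]
      exact sum_congr rfl fun r _ => sum_congr rfl fun s _ => by rw [map_mul]; ring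
    simp only [k, mul_sum]
    rw [sum_comm]
    exact sum_congr rfl fun r _ => sum_comm
  have e2 : ∑ n ∈ I, ‖∑ r ∈ ρ, b r * Ψ r n‖ ^ 2 ≤
      ‖∑ r ∈ ρ, ∑ s ∈ ρ, b r * conj (b s) * ∑ n ∈ I, Ψ r n * conj (Ψ s n)‖ := by
    rw [← e1, Complex.norm_real]
    exact le_abs_self _
  refine e2.trans ((norm_sum_le _ _).trans ?_)
  refine (sum_le_card_nsmul _ _ (#I + #ρ * (η * #I)) fun r hr => ?_).trans (by rw [nsmul_eq_mul])
  refine (norm_sum_le _ _).trans ?_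
  have e3 : ∀ s ∈ ρ, ‖b r * conj (b s) * ∑ n ∈ I, Ψ r n * conj (Ψ s n)‖ ≤
      (if r = s then (#I : ℝ) else 0) + η * #I := fun s hs => by
    have k1 : ‖b r * conj (b s)‖ ≤ 1 := by
      rw [norm_mul, Complex.norm_conj]
      exact mul_le_one₀ (hb r hr) (norm_nonneg _) (hb s hs)
    rw [norm_mul]
    refine (mul_le_of_le_one_left (norm_nonneg _) k1).trans ?_
    split_ifs with h
    · have k2 : ‖∑ n ∈ I, Ψ r n * conj (Ψ s n)‖ ≤ #I := by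
        refine (norm_sum_le _ _).trans ((sum_le_card_nsmul _ _ 1 fun n _ => ?_).trans (by simp))
        rw [norm_mul, Complex.norm_conj]
        exact mul_le_one₀ (hΨ r hr n) (norm_nonneg _) (hΨ s hs n)
      have : 0 ≤ η * #I := by positivity
      linarith
    · simpa using ho r hr s hs h
  refine (sum_le_sum e3).trans (le_of_eq ?_)
  rw [sum_add_distrib, sum_ite_eq, if_pos hr, sum_const, nsmul_eq_mul]

theorem bessel {ι κ : Type*} [DecidableEq ι] (I : Finset ℕ) (ρ : Finset ι) (𝒦 : Finset κ)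
    (Ψ : ι → ℕ → ℂ) (K : ℕ → κ) (θ : ι → κ → ℂ) (a : ℕ → ℂ) {η δ : ℝ} (hη : 0 ≤ η) (hδ : 0 ≤ δ)
    (hI : I.Nonempty) (hΨ : ∀ r ∈ ρ, ∀ n, ‖Ψ r n‖ ≤ 1) (hθ : ∀ r ∈ ρ, ∀ c, ‖θ r c‖ ≤ 1)
    (ha : ∀ n, ‖a n‖ ≤ 1) (hK : ∀ n ∈ I, K n ∈ 𝒦)
    (ho : ∀ r ∈ ρ, ∀ s ∈ ρ, r ≠ s → ‖∑ n ∈ I, Ψ r n * conj (Ψ s n)‖ ≤ η * #I)
    (hl : ∀ r ∈ ρ, δ * #I ≤ ‖∑ n ∈ I, a n * (θ r (K n) * Ψ r n)‖) :
    δ ^ 2 * #ρ ≤ #𝒦 * (1 + η * #ρ) := by
  rcases ρ.eq_empty_or_nonempty with rfl | hρ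
  · simp
  have hM : (0 : ℝ) < #ρ := Nat.cast_pos.2 hρ.card_pos
  have hN : (0 : ℝ) < #I := Nat.cast_pos.2 hI.card_pos
  choose b hb1 hb2 using fun r : ι =>
    Complex.exists_norm_eq_mul_self (∑ n ∈ I, a n * (θ r (K n) * Ψ r n))
  have e1 : #ρ * (δ * #I) ≤ ∑ n ∈ I, ‖∑ r ∈ ρ, b r * θ r (K n) * Ψ r n‖ := by
    have k1 : ((∑ r ∈ ρ, ‖∑ n ∈ I, a n * (θ r (K n) * Ψ r n)‖ : ℝ) : ℂ) =
        ∑ n ∈ I, a n * ∑ r ∈ ρ, b r * θ r (K n) * Ψ r n := by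
      push_cast
      rw [sum_congr rfl fun r _ => hb2 r]
      simp only [mul_sum]
      rw [sum_comm]
      exact sum_congr rfl fun n _ => sum_congr rfl fun r _ => by ring
    calc #ρ * (δ * #I) ≤ ∑ r ∈ ρ, ‖∑ n ∈ I, a n * (θ r (K n) * Ψ r n)‖ := by
          rw [← nsmul_eq_mul]
          exact card_nsmul_le_sum _ _ _ hl
      _ ≤ ‖∑ n ∈ I, a n * ∑ r ∈ ρ, b r * θ r (K n) * Ψ r n‖ := by
          rw [← k1, Complex.norm_real]
          exact le_abs_self _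
      _ ≤ _ := (norm_sum_le _ _).trans (sum_le_sum fun n _ => by
          rw [norm_mul]
          exact mul_le_of_le_one_left (norm_nonneg _) (ha n))
  have e2 : (∑ n ∈ I, ‖∑ r ∈ ρ, b r * θ r (K n) * Ψ r n‖) ^ 2 ≤
      #I * ∑ n ∈ I, ‖∑ r ∈ ρ, b r * θ r (K n) * Ψ r n‖ ^ 2 := sq_sum_le_card_mul_sum_sq
  have e3 : ∑ n ∈ I, ‖∑ r ∈ ρ, b r * θ r (K n) * Ψ r n‖ ^ 2 ≤
      #𝒦 * (#ρ * (#I + #ρ * (η * #I))) := by
    calc ∑ n ∈ I, ‖∑ r ∈ ρ, b r * θ r (K n) * Ψ r n‖ ^ 2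
        ≤ ∑ n ∈ I, ∑ c ∈ 𝒦, ‖∑ r ∈ ρ, b r * θ r c * Ψ r n‖ ^ 2 :=
          sum_le_sum fun n hn => single_le_sum
            (f := fun c => ‖∑ r ∈ ρ, b r * θ r c * Ψ r n‖ ^ 2) (fun _ _ => by positivity) (hK n hn)
      _ = ∑ c ∈ 𝒦, ∑ n ∈ I, ‖∑ r ∈ ρ, b r * θ r c * Ψ r n‖ ^ 2 := sum_comm
      _ ≤ _ := by
          rw [← nsmul_eq_mul]
          refine sum_le_card_nsmul _ _ _ fun c _ => gram_le I ρ Ψ (fun r => b r * θ r c) hη hΨ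
            (fun r hr => ?_) ho
          rw [norm_mul, hb1, one_mul]
          exact hθ r hr c
  have e4 : (#ρ * (δ * #I)) ^ 2 ≤ #I * (#𝒦 * (#ρ * (#I + #ρ * (η * #I)))) :=
    (pow_le_pow_left₀ (by positivity) e1 2).trans
      (e2.trans (mul_le_mul_of_nonneg_left e3 hN.le))
  refine le_of_mul_le_mul_left (le_of_eq_of_le ?_ (e4.trans (le_of_eq ?_)))
    (by positivity : (0 : ℝ) < #ρ * #I ^ 2)
  · ring
  · ring

end Pool.Agent.Lib.MP_232f4c_nt.H86
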