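import Pool.Agent.Lib.MP_232f4c_nt.GapB2

/-!
The Brun-Hooley mean value bound with the depth kept explicit.
-/

namespace Pool.Agent.Lib.MP_232f4c_nt.H86

open Finset Function Pool.Agent.Lib.MP_232f4c_nt.Gap

theorem bhq (k m : ℕ) {ε : ℝ}
    (hm : ∀ J : ℕ, ∏ j ∈ range J,
      (1 + ((2 : ℝ) * k * 6) ^ (m + j + 1) / (m + j + 1).factorial) ≤ 1 + ε)
    (y : ℝ) (PP : Finset ℕ) (γ : ℕ → ℕ → ℂ) (Q : ℕ) (S : ℕ → ℂ) (a L : ℕ) (hy : 1 ≤ y)
    (hPP : ∀ p ∈ PP, p.Prime ∧ (p : ℝ) ≤ y ∧ Q.Coprime p ∧ Periodic (γ p) p ∧ (∀ n, ‖γ p n‖ ≤ 1) ∧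
        #{r ∈ range p | γ p r ≠ 1} ≤ k) (hQ : 0 < Q) (hS : Periodic S Q) (hS1 : ∀ n, ‖S n‖ ≤ 1) :
    ‖∑ n ∈ Ioc a (a + L), S n * ∏ p ∈ PP, γ p n - L * mean Q S * ∏ p ∈ PP, mean p (γ p)‖ ≤
      2 * ε * L * mean Q (fun n => ‖S n‖) + 6 * Q * y ^ (4 * (2 * m + 4)) := by
  set s := 4 * (2 * m + 4) with hs
  have hly : 0 ≤ Real.log y := Real.log_nonneg hy
  let P : ℕ → Finset ℕ := fun j => PP.filter fun p => blk y p = j
  let J : ℕ := PP.sup (blk y) + 1
  let Y : ℕ → ℝ := fun j => Real.exp (Real.log y / 2 ^ j) ^ (m + j + 1)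
  let v : ℕ → ℕ → ℂ := fun p n => γ p n - 1
  have hmap : ∀ p ∈ PP, blk y p ∈ range J := fun p hp =>
    mem_range.2 (Nat.lt_succ_of_le (le_sup (f := blk y) hp))
  have hPs : ∀ j, ∀ p ∈ P j, p ∈ PP := fun j p hp => (mem_filter.1 hp).1
  have hl : ∀ j : ℕ, 0 ≤ Real.log y / 2 ^ j := fun j => by positivity
  have hb : ∀ j, ∀ p ∈ P j, p.Prime ∧ Real.exp (Real.log y / 2 ^ j / 2) < p ∧
      (p : ℝ) ≤ Real.exp (Real.log y / 2 ^ j) := fun j p hp => by
    obtain ⟨h1, h2⟩ := mem_filter.1 hp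
    exact ⟨(hPP p h1).1, h2 ▸ blk_spec (hPP p h1).1 (hPP p h1).2.1⟩
  have hf := fun j => block_facts (hl j) (P j) (hb j)
  have hY0 : ∀ j, 0 ≤ Y j := fun j => by positivity
  have hY : ∀ j, ∀ D ⊆ P j, #D ≤ m + j + 1 → ((∏ p ∈ D, p : ℕ) : ℝ) ≤ Y j := fun j D hD h => by
    rw [Nat.cast_prod]
    refine le_trans (prod_le_prod (fun p _ => Nat.cast_nonneg p) fun p hp =>
      (hb j p (hD hp)).2.2) ?_
    rw [prod_const]
    exact pow_le_pow_right₀ (Real.one_le_exp (hl j)) h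
  have hd : ∀ i j, i ≠ j → Disjoint (P i) (P j) := fun i j h =>
    disjoint_filter.2 fun p _ h1 h2 => h (h1.symm.trans h2)
  have hlev : ∏ j ∈ range J, Y j ≤ y ^ (2 * m + 4) := by
    simp only [Y, ← Real.exp_nat_mul]
    rw [← Real.exp_sum, ← Real.exp_log (by linarith : 0 < y), ← Real.exp_nat_mul, Real.exp_log
      (by linarith : 0 < y), Real.exp_le_exp]
    have := mul_le_mul_of_nonneg_right (sum_depth_le m J) hly
    rw [sum_mul] at this
    refine le_trans (le_of_eq (sum_congr rfl fun j _ => by ring)) (this.trans (le_of_eq ?_))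
    push_cast
    ring
  have hys : y ^ (2 * m + 4) ≤ y ^ s := pow_le_pow_right₀ hy (by omega)
  have hys1 : 1 ≤ y ^ s := one_le_pow₀ hy
  have hZ : Q * ∏ j ∈ range J, Y j ≤ Q * y ^ s :=
    mul_le_mul_of_nonneg_left (hlev.trans hys) (Nat.cast_nonneg _)
  have hcount : ∀ (σ : ℕ → ℕ → Prop) [∀ j, DecidablePred (σ j)], (∀ j n, σ j n → n ≤ m + j + 1) →
      ∏ j ∈ range J, lev (σ j) (P j) (fun p => 2 * (p : ℝ)) ≤ y ^ s := fun σ _ hσ => by
    calc ∏ j ∈ range J, lev (σ j) (P j) (fun p => 2 * (p : ℝ)) ≤ ∏ j ∈ range J, Y j ^ 4 := by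
          refine prod_le_prod (fun j _ => lev_nonneg _ fun p _ => by positivity) fun j _ => ?_
          refine (lev_mono (hσ j) (fun p _ => by positivity) fun p _ => le_rfl).trans
            ((lev_le_pow _ _ (fun p _ => by positivity) _).trans ?_)
          rw [← pow_mul, mul_comm, pow_mul]
          exact pow_le_pow_left₀ (by positivity) (hf j).2 _
      _ = (∏ j ∈ range J, Y j) ^ 4 := prod_pow _ _ _
      _ ≤ (y ^ (2 * m + 4)) ^ 4 := pow_le_pow_left₀ (prod_nonneg fun j _ => hY0 j) hlev 4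
      _ = y ^ s := by rw [← pow_mul, mul_comm]
  have hv2 : ∀ p ∈ PP, ∀ n, ‖v p n‖ ≤ 2 := fun p hp n => by
    linarith [norm_sub_le (γ p n) 1, (hPP p hp).2.2.2.2.1 n, norm_one (α := ℂ)]
  have hvp : ∀ p ∈ PP, Periodic (v p) p := fun p hp n => by
    simp only [v, (hPP p hp).2.2.2.1 n]
  have hvm : ∀ p ∈ PP, mean p (fun n => ‖v p n‖) ≤ 2 * k * (p : ℝ)⁻¹ := fun p hp =>
    mean_exc (hPP p hp).2.2.2.2.1 (hPP p hp).2.2.2.2.2
  have hP : ∀ j, ∀ p ∈ P j, p.Prime ∧ Periodic (v p) p ∧ ∀ n, ‖v p n‖ ≤ 2 := fun j p hp =>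
    ⟨(hb j p hp).1, hvp p (hPs j p hp), hv2 p (hPs j p hp)⟩
  have hco : ∀ j < J, ∀ p ∈ P j, Q.Coprime p := fun j _ p hp => (hPP p (hPs j p hp)).2.2.1
  have hsmall : ∀ c : ℕ → ℝ, (∀ p ∈ PP, 0 ≤ c p ∧ c p ≤ 2 * k * (p : ℝ)⁻¹) →
      ∏ j ∈ range J, (1 + lev (· = m + j + 1) (P j) c) ≤ 1 + ε := fun c hc => by
    refine le_trans (prod_le_prod (fun j _ => ?_) fun j _ => ?_) (hm J)
    · linarith [lev_nonneg (· = m + j + 1) fun p hp => (hc p (hPs j p hp)).1]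
    · have h1 : ∑ p ∈ P j, c p ≤ 2 * k * 6 := by
        refine (sum_le_sum fun p hp => (hc p (hPs j p hp)).2).trans ?_
        rw [← mul_sum]
        exact mul_le_mul_of_nonneg_left (hf j).1 (by positivity)
      have h2 := lev_eq_le (P j) c (fun p hp => (hc p (hPs j p hp)).1) (m + j + 1)
      have h3 := pow_le_pow_left₀ (sum_nonneg fun p hp => (hc p (hPs j p hp)).1) h1 (m + j + 1)
      have h4 := div_le_div_of_nonneg_right h3 (Nat.cast_nonneg (α := ℝ) (m + j + 1).factorial)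
      linarith
  have happ : ∀ z : ℕ → ℂ, (∀ p ∈ PP, ‖1 + z p‖ ≤ 1) →
      ‖∏ p ∈ PP, (1 + z p) - ∏ j ∈ range J, lev (· ≤ m + j) (P j) z‖ ≤
        ∏ j ∈ range J, (1 + lev (· = m + j + 1) (P j) fun p => ‖z p‖) - 1 := fun z hz => by
    rw [← prod_fiberwise_of_maps_to hmap]
    refine norm_prod_sub_prod_le J _ _ _ (fun j => ?_) fun j =>
      tail_le (P j) z (fun p hp => hz p (hPs j p hp)) (m + j)
    rw [norm_prod]
    exact prod_le_one (fun _ _ => norm_nonneg _) fun p hp => hz p (hPs j p hp)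
  let G : ℕ → ℂ := fun n => ∏ j ∈ range J, lev (· ≤ m + j) (P j) fun p => v p n
  set ρ := mean Q fun n => ‖S n‖ with hρ
  have hρ0 : 0 ≤ ρ := mean_nonneg _ fun _ => norm_nonneg _
  have hρ1 : ρ ≤ 1 := mean_le zero_le_one hS1
  have hL : (0 : ℝ) ≤ L := Nat.cast_nonneg _
  have hQ1 : (0 : ℝ) ≤ Q := Nat.cast_nonneg _
  have herr : ∑ n ∈ Ioc a (a + L), ‖S n‖ * ‖∏ p ∈ PP, γ p n - G n‖ ≤
      ε * L * ρ + 4 * Q * y ^ s := by
    have hSp : Periodic (fun n => ‖S n‖) Q := fun n => by simp only [hS n]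
    have h1 := block_ind (𝕜 := ℝ) (Ioc a (a + L)) (fun _ => 1) L (interval_fun a L (Q * y ^ s)) P
      (fun j n => n = 0 ∨ n = m + j + 1) (fun p n => ‖v p n‖) Y hY0
      (fun j D hD h => hY j D hD (by omega))
      (fun j p hp => ⟨(hP j p hp).1, fun n => by simp only [(hP j p hp).2.1 n],
        fun n => by simpa using (hP j p hp).2.2 n⟩) hd J Q (fun n => ‖S n‖) 1 hQ hco hZ hSp
      (fun n => by simpa using hS1 n)
    have h2 := interval_mean (𝕜 := ℝ) hQ hSp (B := 1) (fun n => by simpa using hS1 n) L a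
    have h3 := hcount (fun j n => n = 0 ∨ n = m + j + 1) fun j n h => by omega
    simp only [lev_or, zero_mul, add_zero, mul_one, Real.norm_eq_abs] at h1 h2 h3
    have h4 := hsmall (fun p => mean p fun n => ‖v p n‖) fun p hp =>
      ⟨mean_nonneg _ fun _ => norm_nonneg _, hvm p hp⟩
    have h5 : ∑ n ∈ Ioc a (a + L), ‖S n‖ * ‖∏ p ∈ PP, γ p n - G n‖ ≤
        ∑ n ∈ Ioc a (a + L), ‖S n‖ * ∏ j ∈ range J,
          (1 + lev (· = m + j + 1) (P j) fun p => ‖v p n‖) - ∑ n ∈ Ioc a (a + L), ‖S n‖ := by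
      rw [← sum_sub_distrib]
      refine sum_le_sum fun n _ => ?_
      have h6 := happ (fun p => v p n) fun p hp => by
        simpa [v] using (hPP p hp).2.2.2.2.1 n
      simp only [v, add_sub_cancel] at h6
      have h7 := mul_le_mul_of_nonneg_left h6 (norm_nonneg (S n))
      rw [mul_sub, mul_one] at h7
      exact h7
    have h6 := mul_le_mul_of_nonneg_left h4 (mul_nonneg hL hρ0)
    have h7 := mul_le_mul_of_nonneg_left h3 (mul_nonneg two_pos.le hQ1)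
    have h8 := mul_le_mul_of_nonneg_left hys1 hQ1
    rw [← hρ] at h1 h2
    linarith [(abs_le.1 h1).2, (abs_le.1 h2).1]
  have hdiff : ∀ b : ℕ → ℂ, (∀ n, ‖b n‖ ≤ 1) →
      ‖∑ n ∈ Ioc a (a + L), S n * (∏ p ∈ PP, γ p n) * b n -
        ∑ n ∈ Ioc a (a + L), S n * G n * b n‖ ≤ ε * L * ρ + 4 * Q * y ^ s := fun b hb1 => by
    rw [← sum_sub_distrib]
    refine (norm_sum_le _ _).trans (le_trans (sum_le_sum fun n _ => ?_) herr)
    rw [← sub_mul, ← mul_sub, norm_mul, norm_mul]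
    exact mul_le_of_le_one_right (by positivity) (hb1 n)
  have h3 := hcount (fun j n => n ≤ m + j) fun j n h => by omega
  have h1 := block_ind (Ioc a (a + L)) (fun _ => (1 : ℂ)) L (interval_fun a L (Q * y ^ s)) P
    (fun j n => n ≤ m + j) v Y hY0 (fun j D hD h => hY j D hD (by omega)) hP hd J Q S 1 hQ hco hZ
    hS hS1
  have h2 := hdiff (fun _ => 1) fun _ => by simp
  have h4 := happ (fun p => mean p (v p)) fun p hp => by
    rw [mean_sub_one (hPP p hp).1.pos]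
    exact (norm_mean_le _ _).trans (mean_le zero_le_one (hPP p hp).2.2.2.2.1)
  rw [prod_congr rfl fun p hp => mean_sub_one (hPP p hp).1.pos (γ p)] at h4
  have h5 := hsmall (fun p => ‖mean p (v p)‖) fun p hp =>
    ⟨norm_nonneg _, (norm_mean_le _ _).trans (hvm p hp)⟩
  have h6 : ‖L * mean Q S * ∏ j ∈ range J, lev (· ≤ m + j) (P j) (fun p => mean p (v p)) -
      L * mean Q S * ∏ p ∈ PP, mean p (γ p)‖ ≤ L * ρ * ε := by
    rw [← mul_sub, norm_mul, norm_mul, Complex.norm_natCast, norm_sub_rev]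
    exact mul_le_mul (mul_le_mul_of_nonneg_left (norm_mean_le _ _) hL) (by linarith)
      (norm_nonneg _) (mul_nonneg hL hρ0)
  have h7 := mul_le_mul_of_nonneg_left h3 (mul_nonneg two_pos.le hQ1)
  simp only [mul_one, zero_mul, add_zero] at h1 h2
  have h8 := (norm_sub_le_norm_sub_add_norm_sub _ _ _).trans (add_le_add h2
    ((norm_sub_le_norm_sub_add_norm_sub _ _ _).trans (add_le_add h1 h6)))
  linarith

end Pool.Agent.Lib.MP_232f4c_nt.H86
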