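import Pool.Agent.Lib.MP_232f4c_nt.H86Model
import Pool.Agent.Lib.MP_232f4c_nt.H86Bessel

/-!
In a family of multiplicative functions that are pairwise at infinite distance and nearly constant
on colour classes of primes along long ranges, only countably many twists of a given bounded
function have correlations that do not vanish along any sequence of scales.
-/

namespace Pool.Agent.Lib.MP_232f4c_nt.H86

open Finset Function Filter Topology Pool.Agent.Lib.MP_232f4c_nt.Gap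
open scoped ComplexConjugate

variable {J : ℕ} {F : ℕ → ℂ} {x : ℕ → ℕ} {c : ℕ → ℕ → Fin J}

/-- Nearly constant on the colour classes along the ranges from `x k` to `x k ^ u`. -/
def Col (x : ℕ → ℕ) (c : ℕ → ℕ → Fin J) (h : ℕ → ℂ) : Prop :=
  ∃ z : ℕ → Fin J → ℂ, (∀ k j, ‖z k j‖ ≤ 1) ∧
    ∀ u : ℕ, Tendsto (fun k => tl h (z k) (c k) (x k) (x k ^ u)) atTop (𝓝 0)

/-- Infinite pretentious distance. -/
def Far (h h' : ℕ → ℂ) : Prop :=
  Tendsto (fun y : ℕ => dst (fun n => h n * conj (h' n)) (1 : DirichletCharacter ℂ 1) 0 y)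
    atTop atTop

theorem tl_mono (h : ℕ → ℂ) (z : Fin J → ℂ) (c : ℕ → Fin J) (y : ℕ) {X Y : ℕ} (hXY : X ≤ Y) :
    tl h z c y X ≤ tl h z c y Y :=
  sum_le_sum_of_subset_of_nonneg (filter_subset_filter _ (Ioc_subset_Ioc_right hXY))
    fun _ _ _ => by positivity

theorem few (hF : ∀ n, ‖F n‖ ≤ 1) (hx : Tendsto x atTop atTop) (H : ℕ) {δ : ℝ} (hδ : 0 < δ) :
    ∃ M u : ℕ, 0 < u ∧ ∀ ρ : Finset (ℕ → ℂ), (∀ h ∈ ρ, IsMul h ∧ Col x c h) →
      (∀ h ∈ ρ, ∀ h' ∈ ρ, h ≠ h' → Far h h') → ∀ᶠ k in atTop, ∀ A B, Adm H A B →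
        ∀ σ ⊆ ρ, (∀ h ∈ σ, δ ≤ ‖corr (fun n => F n * h n) A B (x k ^ u)‖) → #σ ≤ M := by
  classical
  obtain ⟨e, he, rfl⟩ : ∃ e : ℝ, 0 < e ∧ δ = 12 * (H + 1) * e :=
    ⟨δ / (12 * (H + 1)), by positivity, by field_simp⟩
  set δ : ℝ := 12 * (H + 1) * e with hδe
  obtain ⟨V, V0, -, V2, V3⟩ := exists_mod he one_pos H
  obtain ⟨m, ε, hε, k1, k2⟩ := depth ((2 : ℝ) * H * 6) (by positivity) (((V + 1 : ℕ) : ℝ) ^ H)
    (J * H) (η := δ ^ 2 / 32) (by positivity)
  set R : ℝ := ((V + 1 : ℕ) : ℝ) ^ H * ((8 * m + 19 : ℕ) : ℝ) ^ (J * H) with hR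
  have R0 : 0 < R := by positivity
  set τ : ℝ := δ ^ 2 / 32 / R with hτ
  have τ0 : 0 < τ := by positivity
  refine ⟨⌊8 * R / δ ^ 2⌋₊, 8 * m + 17, by omega, fun ρ hρ hfar => ?_⟩
  choose! z hz1 hz2 using fun h (hh : h ∈ ρ) => (hρ h hh).2
  have E1 : ∀ᶠ k in atTop, ∀ h ∈ ρ, tl h (z h k) (c k) (x k) (x k ^ (8 * m + 18)) ≤ e :=
    (eventually_all_finset ρ).2 fun h hh => (hz2 h hh _).eventually (ge_mem_nhds he)
  have E2 : ∀ᶠ k in atTop, ∀ h ∈ ρ, ∀ h' ∈ ρ, h ≠ h' → Real.exp (-((dst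
      (fun n => h n * conj (h' n)) (1 : DirichletCharacter ℂ 1) 0 (x k) - V) / 2)) ≤ τ := by
    refine (eventually_all_finset ρ).2 fun h hh => (eventually_all_finset ρ).2 fun h' hh' => ?_
    by_cases hne : h = h'
    · exact Eventually.of_forall fun _ k => absurd hne k
    have t1 := (tendsto_atTop_add_const_right _ (-(V : ℝ))
      ((hfar h hh h' hh' hne).comp hx)).atTop_div_const two_pos
    have t2 := (Real.tendsto_exp_neg_atTop_nhds_zero.comp t1).eventually (ge_mem_nhds τ0)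
    filter_upwards [t2] with k hk _
    simpa only [comp, sub_eq_add_neg] using hk
  have E3 : ∀ᶠ k in atTop, 6 / τ ≤ (x k : ℝ) :=
    (tendsto_natCast_atTop_atTop.comp hx).eventually_ge_atTop _
  filter_upwards [E1, E2, E3, hx.eventually_ge_atTop (V + H + 2)] with k e1 e2 e3 e4 A B hAB σ hσ hl
  obtain ⟨y, hy⟩ : ∃ y, y = x k := ⟨_, rfl⟩
  rw [← hy] at e1 e2 e3 e4 hl
  obtain ⟨N, hN⟩ : ∃ N, N = y ^ (8 * m + 17) := ⟨_, rfl⟩
  rw [← hN] at hl
  have n1 : y ≤ N := hN ▸ Nat.le_self_pow (by omega) y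
  have n2 : N + H ≤ y ^ (8 * m + 18) := by
    rw [pow_succ, ← hN]
    nlinarith
  have n3 : (0 : ℝ) < N := Nat.cast_pos.2 (by omega)
  have n4 : ((N + H : ℕ) : ℝ) ≤ 2 * N := by exact_mod_cast (by omega : N + H ≤ 2 * N)
  have n5 : 6 * (y : ℝ) ^ (4 * (2 * m + 4)) ≤ τ * N := by
    rw [div_le_iff₀ τ0] at e3
    rw [hN, show 8 * m + 17 = 4 * (2 * m + 4) + 1 by ring, Nat.cast_pow, pow_succ]
    nlinarith [pow_nonneg (Nat.cast_nonneg (α := ℝ) y) (4 * (2 * m + 4))]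
  have hI : #(Ioc 0 N) = N := by simp
  have hb := bessel (Ioc 0 N) σ
    (Fintype.piFinset fun _ : Fin H =>
      range (V + 1) ×ˢ Fintype.piFinset fun _ : Fin J => range (8 * m + 18 + 1))
    (fun h n => cp A B fun i => sml h V y (n + i)) (fun n i => key (c k) V y (n + i))
    (fun h => thc H A B h (z h k)) (fun n => cp A B fun i => F (n + i))
    (η := 2 * τ + 2 * ε) (δ := δ / 2) (by positivity) (by positivity)
    (nonempty_Ioc.2 (by omega))
    (fun h hh n => norm_cp_le A B fun i => norm_sml_le (hρ h (hσ hh)).1 _ _ _)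
    (fun h hh _ => norm_thc_le (hρ h (hσ hh)).1 (hz1 h (hσ hh) k) _ _ _ _)
    (fun n => norm_cp_le A B fun i => hF _)
    (fun n hn => Fintype.mem_piFinset.2 fun i => by
      obtain ⟨a1, a2⟩ := mem_Ioc.1 hn
      have := i.2
      exact key_mem (c k) V0 (by omega) (by omega) (by omega))
    (fun h hh h' hh' hne => by
      have a1 := pair_le (hρ h (hσ hh)).1 (hρ h' (hσ hh')).1 hAB V0 V2 (x := y) (by omega) k2 N
      have a2 := mul_le_mul_of_nonneg_left (e2 h (hσ hh) h' (hσ hh') hne) n3.le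
      rw [hI]
      linarith)
    (fun h hh => by
      have a1 := corr_ap (c := c k) (hρ h (hσ hh)).1 (hz1 h (hσ hh) k) hF hAB V0
        (x := y) (by omega) N
      have a2 := hl h hh
      rw [corr_eq, le_div_iff₀ n3] at a2
      have a3 := (V3 (N + H)).trans (mul_le_mul_of_nonneg_left n4 he.le)
      have a4 := mul_le_mul n4 ((tl_mono h (z h k) (c k) y n2).trans (e1 h (hσ hh)))
        (sum_nonneg fun _ _ => by positivity) (by positivity)
      have a5 := a1.trans (mul_le_mul_of_nonneg_left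
        (add_le_add (mul_le_mul_of_nonneg_left a3 two_pos.le) a4) (Nat.cast_nonneg H))
      have a6 := (norm_le_norm_add_norm_sub' _ _).trans (add_le_add_right a5 _)
      have a7 : 0 ≤ e * N := by positivity
      rw [hI]
      rw [hδe] at a2 ⊢
      nlinarith)
  have hc : (#(Fintype.piFinset fun _ : Fin H =>
      range (V + 1) ×ˢ Fintype.piFinset fun _ : Fin J => range (8 * m + 18 + 1)) : ℝ) = R := by
    simp only [Fintype.card_piFinset, card_product, card_range, prod_const, card_univ,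
      Fintype.card_fin, hR]
    push_cast
    rw [mul_pow, ← pow_mul]
    ring
  rw [hc] at hb
  have b1 : R * τ = δ ^ 2 / 32 := by rw [hτ]; field_simp
  have b2 : (0 : ℝ) ≤ #σ := Nat.cast_nonneg _
  refine Nat.le_floor ?_
  rw [le_div_iff₀ (by positivity)]
  nlinarith [mul_le_mul_of_nonneg_right k1 b2]

theorem finite_bad (hF : ∀ n, ‖F n‖ ≤ 1) (hx : Tendsto x atTop atTop) {𝓗 : Set (ℕ → ℂ)}
    (h1 : ∀ h ∈ 𝓗, IsMul h ∧ Col x c h) (h2 : ∀ h ∈ 𝓗, ∀ h' ∈ 𝓗, h ≠ h' → Far h h') (H : ℕ)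
    {δ : ℝ} (hδ : 0 < δ) :
    {h ∈ 𝓗 | ∀ᶠ N in atTop, ¬Small (fun n => F n * h n) H δ N}.Finite := by
  classical
  obtain ⟨M, u, hu, hM⟩ := few (c := c) hF hx H hδ
  by_contra hinf
  obtain ⟨ρ, r1, r2⟩ := Set.Infinite.exists_subset_card_eq hinf (2 ^ H * 2 ^ H * M + 1)
  have hxu : Tendsto (fun k => x k ^ u) atTop atTop :=
    tendsto_atTop_mono (fun k => Nat.le_self_pow hu.ne' _) hx
  have E1 : ∀ᶠ k in atTop, ∀ h ∈ ρ, ¬Small (fun n => F n * h n) H δ (x k ^ u) :=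
    (eventually_all_finset ρ).2 fun h hh => hxu.eventually (r1 hh).2
  obtain ⟨k, k1, k2⟩ := (E1.and (hM ρ (fun h hh => h1 h (r1 hh).1)
    fun h hh h' hh' => h2 h (r1 hh).1 h' (r1 hh').1)).exists
  have h3 : ρ ⊆ ((range H).powerset ×ˢ (range H).powerset).biUnion fun P =>
      {h ∈ ρ | Adm H P.1 P.2 ∧ δ ≤ ‖corr (fun n => F n * h n) P.1 P.2 (x k ^ u)‖} := fun h hh => by
    have a1 := k1 h hh
    simp only [Gap.Small, not_forall, not_le] at a1
    obtain ⟨A, B, a2, a3⟩ := a1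
    exact mem_biUnion.2 ⟨(A, B), mem_product.2 ⟨mem_powerset.2 a2.left, mem_powerset.2 a2.right⟩,
      mem_filter.2 ⟨hh, a2, a3.le⟩⟩
  have h4 := (card_le_card h3).trans (card_biUnion_le_card_mul _ _ M fun P _ => by
    by_cases a : Adm H P.1 P.2
    · exact k2 _ _ a _ (filter_subset _ _) fun h hh => (mem_filter.1 hh).2.2
    · rw [filter_false_of_mem fun h _ b => a b.1]
      simp)
  rw [card_product, card_powerset, card_range, r2] at h4
  omega

theorem countable_bad (hF : ∀ n, ‖F n‖ ≤ 1) (hx : Tendsto x atTop atTop) {𝓗 : Set (ℕ → ℂ)}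
    (h1 : ∀ h ∈ 𝓗, IsMul h ∧ Col x c h) (h2 : ∀ h ∈ 𝓗, ∀ h' ∈ 𝓗, h ≠ h' → Far h h') :
    {h ∈ 𝓗 | ¬∃ N : ℕ → ℕ, Tendsto N atTop atTop ∧ Chow N fun n => F n * h n}.Countable := by
  refine (Set.countable_iUnion fun k : ℕ => (finite_bad hF hx h1 h2 k
    (δ := 1 / ((k : ℝ) + 1)) (by positivity)).countable).mono fun h hh => ?_
  by_contra hn
  simp only [Set.mem_iUnion, Set.mem_ofPred_eq, not_exists, not_and, not_eventually, not_not] at hn
  choose N a1 a2 using fun k : ℕ => frequently_atTop.1 (hn k hh.1) k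
  refine hh.2 ⟨N, tendsto_atTop_mono a1 tendsto_id, fun A B hAB hne => ?_⟩
  refine squeeze_zero_norm' ?_ tendsto_one_div_add_atTop_nhds_zero_nat
  filter_upwards [eventually_gt_atTop ((A ∪ B).sup id)] with k hk
  have h3 : A ∪ B ⊆ range k := fun i hi => mem_range.2 ((le_sup (f := id) hi).trans_lt hk)
  exact a2 k A B ⟨subset_union_left.trans h3, subset_union_right.trans h3, hAB, hne⟩

theorem far_of {h h' : ℕ → ℂ} (hf : Tendsto (fun y : ℕ => ∑ p ∈ (Icc 1 y).filter Nat.Prime,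
    (1 - (h p * conj (h' p)).re) / p) atTop atTop) : Far h h' := by
  refine hf.congr fun y => ?_
  rw [dst, Nat.floor_natCast, Nat.primesLE_eq_filter_Icc_one]
  simp only [zz_one]

end Pool.Agent.Lib.MP_232f4c_nt.H86
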