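import Pool.Agent.Lib.MP_232f4c_nt.H86Count

/-!
The family `z ^ Ω`: all correlations of `F z ^ Ω` vanish along a sequence of scales for all but
countably many `z` on the unit circle.
-/

namespace Pool.Agent.Lib.MP_232f4c_nt.H86

open Finset Filter Topology Pool.Agent.Lib.MP_232f4c_nt.Gap ArithmeticFunction
open scoped ComplexConjugate

theorem tendsto_sum_inv_primes :
    Tendsto (fun y : ℕ => ∑ p ∈ (Icc 1 y).filter Nat.Prime, (1 : ℝ) / p) atTop atTop := by
  have h1 := (not_summable_iff_tendsto_nat_atTop_of_nonneg fun n => by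
    exact Set.indicator_nonneg (fun _ _ => by positivity) n).1 not_summable_one_div_on_primes
  refine tendsto_atTop_mono (fun y => ?_) h1
  have h2 : ∑ i ∈ range y, Set.indicator {p : ℕ | p.Prime} (fun n : ℕ => (1 : ℝ) / n) i =
      ∑ p ∈ (range y).filter Nat.Prime, (1 : ℝ) / p := by
    rw [sum_filter]
    exact sum_congr rfl fun i _ => by simp [Set.indicator_apply]
  rw [h2]
  refine sum_le_sum_of_subset_of_nonneg (fun p hp => ?_) fun _ _ _ => by positivity
  obtain ⟨a1, a2⟩ := mem_filter.1 hp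
  exact mem_filter.2 ⟨mem_Icc.2 ⟨a2.pos, (mem_range.1 a1).le⟩, a2⟩

theorem omega_family {F : ℕ → ℂ} (hF : ∀ n, ‖F n‖ ≤ 1) :
    {z : ℂ | ‖z‖ = 1 ∧ ¬∃ N : ℕ → ℕ, Tendsto N atTop atTop ∧
      Chow N fun n => F n * z ^ cardFactors n}.Countable := by
  let e : ℂ → ℕ → ℂ := fun z n => z ^ cardFactors n
  have hp : ∀ z, ∀ p : ℕ, p.Prime → e z p = z := fun z p hp => by
    simp [e, cardFactors_apply_prime hp]
  have hinj : Function.Injective e := fun z w h => by
    rw [← hp z 2 Nat.prime_two, h, hp w 2 Nat.prime_two]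
  have h1 := countable_bad (c := fun _ _ => (0 : Fin 1)) (𝓗 := e '' {z | ‖z‖ = 1}) hF tendsto_id
    (by
      rintro _ ⟨z, hz, rfl⟩
      have hz' : ‖z‖ = 1 := hz
      refine ⟨⟨fun n => by simp [e, hz'], by simp [e], fun m n hm hn _ => by
        simp [e, cardFactors_mul hm.ne' hn.ne', pow_add]⟩, fun _ _ => z, fun _ _ => hz'.le,
        fun u => tendsto_const_nhds.congr fun k => ?_⟩
      exact (sum_eq_zero fun p k => by rw [hp z p (mem_filter.1 k).2]; simp).symm)
    (by
      rintro _ ⟨z, hz, rfl⟩ _ ⟨w, hw, rfl⟩ hne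
      have hz' : ‖z‖ = 1 := hz
      have hw' : ‖w‖ = 1 := hw
      have hzw : z ≠ w := fun k => hne (by rw [k])
      have k1 : 0 < 1 - (z * conj w).re := by
        have k2 : 0 < Complex.normSq (z - w) := Complex.normSq_pos.2 (sub_ne_zero.2 hzw)
        rw [Complex.normSq_sub, Complex.normSq_eq_norm_sq, Complex.normSq_eq_norm_sq, hz', hw'] at k2
        linarith
      refine far_of ((tendsto_sum_inv_primes.const_mul_atTop k1).congr fun y => ?_)
      rw [mul_sum]
      refine sum_congr rfl fun p k => ?_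
      rw [hp z p (mem_filter.1 k).2, hp w p (mem_filter.1 k).2, mul_one_div])
  refine Set.Countable.mono (fun z hz => ?_) (h1.preimage_of_injOn hinj.injOn)
  exact ⟨⟨z, hz.1, rfl⟩, hz.2⟩

end Pool.Agent.Lib.MP_232f4c_nt.H86
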