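import Pool.Agent.Lib.MP_232f4c_nt.GapG2
import Pool.Agent.Lib.MP_232f4c_nt.H86Bh

/-!
The model of a multiplicative function that is nearly constant on the colour classes of the large
primes: a factor depending on finitely many cells times a product of local factors.
-/

namespace Pool.Agent.Lib.MP_232f4c_nt.H86

open Finset Function Pool.Agent.Lib.MP_232f4c_nt.Gap
open scoped ComplexConjugate

variable {J : ℕ}

/-- The prime factors of `m` above `x`. -/
def big (x m : ℕ) : Finset ℕ := {p ∈ m.primeFactors | x < p}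

/-- The cell of `m`. -/
def key (c : ℕ → Fin J) (V x m : ℕ) : ℕ × (Fin J → ℕ) :=
  (m.gcd V, fun j => #{p ∈ big x m | c p = j})

/-- The factor attached to a cell. -/
noncomputable def th (h : ℕ → ℂ) (z : Fin J → ℂ) (k : ℕ × (Fin J → ℕ)) : ℂ :=
  h k.1 * ∏ j, z j ^ k.2 j

/-- The product of the local factors at the primes up to `x`. -/
noncomputable def sml (h : ℕ → ℂ) (V x m : ℕ) : ℂ :=
  ∏ p ∈ PS V x, if p ∣ m then h p else 1

/-- The distance to the colour values over the primes between `x` and `X`. -/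
noncomputable def tl (h : ℕ → ℂ) (z : Fin J → ℂ) (c : ℕ → Fin J) (x X : ℕ) : ℝ :=
  ∑ p ∈ (Ioc x X).filter Nat.Prime, ‖h p - z (c p)‖ / p

variable {h h' : ℕ → ℂ} {z : Fin J → ℂ} {c : ℕ → Fin J}

theorem norm_th_le (hh : IsMul h) (hz : ∀ j, ‖z j‖ ≤ 1) (k : ℕ × (Fin J → ℕ)) :
    ‖th h z k‖ ≤ 1 := by
  rw [th, norm_mul]
  refine mul_le_one₀ (hh.le _) (norm_nonneg _) (norm_prod_le_one _ fun j _ => ?_)
  rw [norm_pow]
  exact pow_le_one₀ (norm_nonneg _) (hz j)

theorem norm_sml_le (hh : IsMul h) (V x m : ℕ) : ‖sml h V x m‖ ≤ 1 :=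
  norm_prod_le_one _ fun p _ => by
    split_ifs
    · exact hh.le p
    · simp

theorem map_prod_primes (hh : IsMul h) (s : Finset ℕ) (hs : ∀ p ∈ s, p.Prime) :
    h (∏ p ∈ s, p) = ∏ p ∈ s, h p := by
  induction s using Finset.induction_on with
  | empty => simp [hh.one]
  | insert a s ha ih =>
    have h1 := hs a (mem_insert_self _ _)
    have h2 : ∀ p ∈ s, p.Prime := fun p hp => hs p (mem_insert_of_mem hp)
    rw [prod_insert ha, prod_insert ha, hh.mul _ _ h1.pos (prod_pos fun p hp => (h2 p hp).pos)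
      (Nat.Coprime.prod_right fun p hp =>
        (Nat.coprime_primes h1 (h2 p hp)).2 fun e => ha (e ▸ hp)), ih h2]

theorem ap_pt (hh : IsMul h) (hz : ∀ j, ‖z j‖ ≤ 1) {V x m : ℕ} (hV : 0 < V) (hx : V ≤ x)
    (hm : 0 < m) (hg : good V m) :
    ‖h m - th h z (key c V x m) * sml h V x m‖ ≤ ∑ p ∈ big x m, ‖h p - z (c p)‖ := by
  obtain ⟨hsq, hco⟩ := hg
  obtain ⟨g, hgd⟩ : ∃ g, g = m.gcd V := ⟨_, rfl⟩
  obtain ⟨l, hl⟩ : ∃ l, l = m / m.gcd V := ⟨_, rfl⟩
  rw [← hl] at hsq hco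
  have hgV : g ∣ V := hgd ▸ Nat.gcd_dvd_right m V
  have hnm : m = g * l := by rw [hl, hgd, Nat.mul_div_cancel' (Nat.gcd_dvd_left m V)]
  have hg0 : 0 < g := Nat.pos_of_ne_zero fun e => hm.ne' (by rw [hnm, e, zero_mul])
  have hl0 : 0 < l := Nat.pos_of_ne_zero fun e => hm.ne' (by rw [hnm, e, mul_zero])
  have hln : l ∣ m := Dvd.intro_left g hnm.symm
  have hiff : ∀ p : ℕ, p.Prime → (p ∣ l ↔ p ∣ m ∧ ¬p ∣ V) := fun p hp =>
    ⟨fun k => ⟨k.trans hln, fun k' => hp.one_lt.ne' (Nat.eq_one_of_dvd_coprimes hco k k')⟩,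
      fun k => ((Nat.Prime.dvd_mul hp).1 (hnm ▸ k.1)).resolve_left fun k' => k.2 (k'.trans hgV)⟩
  have h1 := map_prod_primes hh l.primeFactors fun p hp => Nat.prime_of_mem_primeFactors hp
  rw [Nat.prod_primeFactors_of_squarefree hsq,
    ← prod_filter_mul_prod_filter_not _ fun p => x < p] at h1
  have h2 : {p ∈ l.primeFactors | x < p} = big x m := by
    ext p
    simp only [big, mem_filter, Nat.mem_primeFactors]
    constructor
    · rintro ⟨⟨a1, a2, -⟩, a3⟩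
      exact ⟨⟨a1, a2.trans hln, hm.ne'⟩, a3⟩
    · rintro ⟨⟨a1, a2, -⟩, a3⟩
      exact ⟨⟨a1, (hiff p a1).2 ⟨a2, fun k => by have := Nat.le_of_dvd hV k; omega⟩, hl0.ne'⟩, a3⟩
  have h3 : sml h V x m = ∏ p ∈ l.primeFactors with ¬x < p, h p := by
    rw [sml, ← prod_filter]
    refine prod_congr ?_ fun _ _ => rfl
    ext p
    simp only [mem_filter, mem_PS (Nat.cast_nonneg x), Nat.mem_primeFactors, Nat.cast_le, not_lt]
    constructor
    · rintro ⟨⟨a1, a2, a3⟩, a4⟩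
      exact ⟨⟨a1, (hiff p a1).2 ⟨a4, a3⟩, hl0.ne'⟩, a2⟩
    · rintro ⟨⟨a1, a2, -⟩, a3⟩
      exact ⟨⟨a1, a3, ((hiff p a1).1 a2).2⟩, ((hiff p a1).1 a2).1⟩
  have h4 : th h z (key c V x m) = h g * ∏ p ∈ big x m, z (c p) := by
    rw [th, key, ← hgd, ← prod_fiberwise (s := big x m) (g := c)]
    congr 1
    refine prod_congr rfl fun j _ => ?_
    rw [← prod_const]
    exact prod_congr rfl fun p hp => by rw [(mem_filter.1 hp).2]
  have h5 : h m = h g * h l := by
    rw [← hh.mul g l hg0 hl0 (hco.coprime_dvd_right hgV).symm, ← hnm]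
  rw [h2, ← h3] at h1
  have h6 : h m - th h z (key c V x m) * sml h V x m =
      h g * sml h V x m * (∏ p ∈ big x m, h p - ∏ p ∈ big x m, z (c p)) := by
    rw [h5, h1, h4]
    ring
  rw [h6, norm_mul]
  refine (mul_le_of_le_one_left (norm_nonneg _) ?_).trans
    (norm_prod_sub_le _ (fun p _ => hh.le p) fun p _ => hz _)
  rw [norm_mul]
  exact mul_le_one₀ (hh.le _) (norm_nonneg _) (norm_sml_le hh V x m)

theorem ap_sum (hh : IsMul h) (hz : ∀ j, ‖z j‖ ≤ 1) {V x : ℕ} (hV : 0 < V) (hx : V ≤ x) (X : ℕ) :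
    ∑ m ∈ Ioc 0 X, ‖h m - th h z (key c V x m) * sml h V x m‖ ≤
      2 * #{n ∈ Ioc 0 X | ¬good V n} + X * tl h z c x X := by
  have h1 : ∑ m ∈ Ioc 0 X, ∑ p ∈ big x m, ‖h p - z (c p)‖ ≤ X * tl h z c x X := by
    have k1 : ∀ m ∈ Ioc 0 X, ∑ p ∈ big x m, ‖h p - z (c p)‖ =
        ∑ p ∈ (Ioc x X).filter Nat.Prime, if p ∣ m then ‖h p - z (c p)‖ else 0 := fun m hm => by
      obtain ⟨m1, m2⟩ := mem_Ioc.1 hm
      rw [← sum_filter]
      refine sum_congr ?_ fun _ _ => rfl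
      ext p
      simp only [big, mem_filter, Nat.mem_primeFactors, mem_Ioc]
      constructor
      · rintro ⟨⟨a1, a2, -⟩, a3⟩
        exact ⟨⟨⟨a3, (Nat.le_of_dvd m1 a2).trans m2⟩, a1⟩, a2⟩
      · rintro ⟨⟨⟨a1, -⟩, a2⟩, a3⟩
        exact ⟨⟨a2, a3, m1.ne'⟩, a1⟩
    rw [sum_congr rfl k1, sum_comm, tl, mul_sum]
    refine sum_le_sum fun p _ => ?_
    rw [← sum_filter, sum_const, Nat.Ioc_filter_dvd_card_eq_div, nsmul_eq_mul]
    refine (mul_le_mul_of_nonneg_right Nat.cast_div_le (norm_nonneg _)).trans (le_of_eq ?_)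
    ring
  have h2 : (2 : ℝ) * #{n ∈ Ioc 0 X | ¬good V n} =
      ∑ n ∈ Ioc 0 X, if ¬good V n then 2 else 0 := by
    rw [← sum_filter, sum_const, nsmul_eq_mul, mul_comm]
  refine le_trans ?_ (add_le_add_right h1 _)
  rw [h2, ← sum_add_distrib]
  refine sum_le_sum fun m hm => ?_
  by_cases hg : good V m
  · rw [if_neg (not_not.2 hg), zero_add]
    exact ap_pt hh hz hV hx (mem_Ioc.1 hm).1 hg
  · rw [if_pos hg]
    have h3 := norm_sub_le (h m) (th h z (key c V x m) * sml h V x m)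
    have h4 := hh.le m
    have h5 : ‖th h z (key c V x m) * sml h V x m‖ ≤ 1 := by
      rw [norm_mul]
      exact mul_le_one₀ (norm_th_le hh hz _) (norm_nonneg _) (norm_sml_le hh V x m)
    have h6 : 0 ≤ ∑ p ∈ big x m, ‖h p - z (c p)‖ := sum_nonneg fun _ _ => norm_nonneg _
    linarith

/-- The factor of a correlation attached to the cells of the shifts. -/
noncomputable def thc (H : ℕ) (A B : Finset ℕ) (h : ℕ → ℂ) (z : Fin J → ℂ)
    (k : Fin H → ℕ × (Fin J → ℕ)) : ℂ :=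
  cp A B fun i => if hi : i < H then th h z (k ⟨i, hi⟩) else 1

theorem norm_thc_le (hh : IsMul h) (hz : ∀ j, ‖z j‖ ≤ 1) (H : ℕ) (A B : Finset ℕ)
    (k : Fin H → ℕ × (Fin J → ℕ)) : ‖thc H A B h z k‖ ≤ 1 :=
  norm_cp_le A B fun i => by
    split_ifs
    · exact norm_th_le hh hz _
    · simp

theorem corr_ap (hh : IsMul h) (hz : ∀ j, ‖z j‖ ≤ 1) {F : ℕ → ℂ} (hF : ∀ n, ‖F n‖ ≤ 1)
    {H V x : ℕ} {A B : Finset ℕ} (hAB : Adm H A B) (hV : 0 < V) (hx : V ≤ x) (N : ℕ) :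
    ‖∑ n ∈ Ioc 0 N, cp A B (fun i => F (n + i) * h (n + i)) -
      ∑ n ∈ Ioc 0 N, cp A B (fun i => F (n + i)) *
        (thc H A B h z (fun i => key c V x (n + i)) * cp A B fun i => sml h V x (n + i))‖ ≤
      H * (2 * #{n ∈ Ioc 0 (N + H) | ¬good V n} + (N + H : ℕ) * tl h z c x (N + H)) := by
  have h1 := ap_sum (c := c) hh hz hV hx (N + H)
  have h2 : ∀ n, thc H A B h z (fun i => key c V x (n + i)) * (cp A B fun i => sml h V x (n + i)) =
      cp A B fun i => th h z (key c V x (n + i)) * sml h V x (n + i) := fun n => by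
    rw [cp_mul, thc]
    congr 1
    simp only [cp]
    congr 1
    · exact prod_congr rfl fun i hi => by rw [dif_pos (mem_range.1 (hAB.left hi))]
    · exact prod_congr rfl fun i hi => by rw [dif_pos (mem_range.1 (hAB.right hi))]
  rw [← sum_sub_distrib]
  refine (norm_sum_le _ _).trans ((sum_le_sum fun n _ => ?_).trans
    (?_ : ∑ n ∈ Ioc 0 N, ∑ i ∈ range H,
      ‖h (n + i) - th h z (key c V x (n + i)) * sml h V x (n + i)‖ ≤ _))
  · rw [h2, cp_mul, ← mul_sub, norm_mul]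
    refine (mul_le_of_le_one_left (norm_nonneg _) (norm_cp_le A B fun i => hF _)).trans
      (norm_cp_sub_le hAB (fun i => hh.le _) fun i => ?_)
    rw [norm_mul]
    exact mul_le_one₀ (norm_th_le hh hz _) (norm_nonneg _) (norm_sml_le hh V x _)
  rw [sum_comm]
  refine (sum_le_card_nsmul _ _ _ fun i hi => le_trans ?_ h1).trans (le_of_eq ?_)
  · rw [← sum_image (s := Ioc 0 N) (g := fun n => n + i)
      (f := fun m => ‖h m - th h z (key c V x m) * sml h V x m‖)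
      fun a _ b _ e => Nat.add_right_cancel e]
    refine sum_le_sum_of_subset_of_nonneg (fun m hm => ?_) fun _ _ _ => norm_nonneg _
    obtain ⟨n, hn, rfl⟩ := mem_image.1 hm
    obtain ⟨n1, n2⟩ := mem_Ioc.1 hn
    have h3 := mem_range.1 hi
    exact mem_Ioc.2 ⟨by omega, by omega⟩
  · rw [card_range, nsmul_eq_mul]

theorem key_mem (c : ℕ → Fin J) {V x m u : ℕ} (hV : 0 < V) (hx : 2 ≤ x) (hm : 0 < m)
    (hu : m ≤ x ^ u) :
    key c V x m ∈ range (V + 1) ×ˢ Fintype.piFinset fun _ : Fin J => range (u + 1) := by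
  refine mem_product.2 ⟨mem_range.2 (Nat.lt_succ_of_le (Nat.gcd_le_right m hV)),
    Fintype.mem_piFinset.2 fun j => mem_range.2 (Nat.lt_succ_of_le ?_)⟩
  refine (card_filter_le (big x m) fun p => c p = j).trans
    ((Nat.pow_le_pow_iff_right hx).1 (le_trans ?_ hu))
  calc x ^ #(big x m) ≤ ∏ p ∈ big x m, p :=
        pow_card_le_prod _ _ _ fun p hp => (mem_filter.1 hp).2.le
    _ ≤ m := Nat.le_of_dvd hm
        ((prod_dvd_prod_of_subset _ _ _ (filter_subset _ _)).trans (Nat.prod_primeFactors_dvd m))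

theorem isMul_mul_conj (hh : IsMul h) (hh' : IsMul h') : IsMul fun n => h n * conj (h' n) :=
  ⟨fun n => by
    rw [norm_mul, Complex.norm_conj]
    exact mul_le_one₀ (hh.le n) (norm_nonneg _) (hh'.le n), by simp [hh.one, hh'.one],
    fun m n hm hn co => by rw [hh.mul m n hm hn co, hh'.mul m n hm hn co, map_mul]; ring⟩

theorem zz_one (g : ℕ → ℂ) (p : ℕ) : zz g (1 : DirichletCharacter ℂ 1) 0 p = g p := by
  rw [zz, Subsingleton.elim (p : ZMod 1) 1, map_one, map_one, zero_mul, neg_zero, eI_zero, mul_one,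
    mul_one]

theorem pair_le (hh : IsMul h) (hh' : IsMul h') {H V x m : ℕ} {ε : ℝ} {A B : Finset ℕ}
    (hAB : Adm H A B) (hV0 : 0 < V) (hV : ∀ p : ℕ, p.Prime → p ≤ H → p ∣ V) (hx : 1 ≤ x)
    (hm : ∀ J : ℕ, ∏ j ∈ range J,
      (1 + ((2 : ℝ) * H * 6) ^ (m + j + 1) / (m + j + 1).factorial) ≤ 1 + ε) (N : ℕ) :
    ‖∑ n ∈ Ioc 0 N, (cp A B fun i => sml h V x (n + i)) *
        conj (cp A B fun i => sml h' V x (n + i))‖ ≤
      N * Real.exp (-((dst (fun n => h n * conj (h' n)) (1 : DirichletCharacter ℂ 1) 0 x - V) / 2))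
        + 2 * ε * N + 6 * (x : ℝ) ^ (4 * (2 * m + 4)) := by
  have hg := isMul_mul_conj hh hh'
  set g : ℕ → ℂ := fun n => h n * conj (h' n) with hgd
  have h1 : ∀ n, (cp A B fun i => sml h V x (n + i)) * conj (cp A B fun i => sml h' V x (n + i)) =
      ∏ p ∈ PS V x, cp A B fun i => loc g (1 : DirichletCharacter ℂ 1) 0 p (n + i) := fun n => by
    have k1 : conj (cp A B fun i => sml h' V x (n + i)) =
        cp A B fun i => conj (sml h' V x (n + i)) := by
      simp only [cp, map_mul, map_prod]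
    rw [k1, ← cp_mul, ← cp_prod]
    congr 1
    funext i
    rw [sml, sml, map_prod, ← prod_mul_distrib]
    refine prod_congr rfl fun p _ => ?_
    rw [loc, zz_one]
    split_ifs
    · rfl
    · simp
  have h2 := bh_hyp (1 : DirichletCharacter ℂ 1) 0 hg hAB (one_dvd V) (Nat.cast_nonneg x)
  have h3 := bhq H m hm x (PS V x)
    (fun p n => cp A B fun i => loc g (1 : DirichletCharacter ℂ 1) 0 p (n + i)) 1 (fun _ => 1) 0 N
    (by exact_mod_cast hx)
    (fun p hp => ⟨(h2 p hp).1, (h2 p hp).2.1, Nat.coprime_one_left p, (h2 p hp).2.2.2⟩) one_pos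
    (fun _ => rfl) (fun _ => by simp)
  have h4 := prod_mean_le (1 : DirichletCharacter ℂ 1) 0 hg hAB hV0 hV (Nat.cast_nonneg x)
  simp only [mean, range_one, sum_singleton, Nat.cast_one, div_one, one_mul, mul_one, norm_one,
    zero_add] at h3 h4
  simp only [h1]
  have h5 := norm_le_norm_add_norm_sub' (∑ n ∈ Ioc 0 N, ∏ p ∈ PS V x,
    cp A B fun i => loc g (1 : DirichletCharacter ℂ 1) 0 p (n + i))
    (N * ∏ p ∈ PS V x, (∑ n ∈ range p,
      cp A B fun i => loc g (1 : DirichletCharacter ℂ 1) 0 p (n + i)) / p)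
  rw [norm_mul, Complex.norm_natCast] at h5
  have h6 := mul_le_mul_of_nonneg_left h4 (Nat.cast_nonneg (α := ℝ) N)
  linarith

end Pool.Agent.Lib.MP_232f4c_nt.H86
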