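import Pool.Agent.Lib.MP_232f4c_nt.Crt
import Pool.Agent.Lib.MP_232f4c_nt.Det

/-!
Second moments of correlations of random multiplicative functions.
-/

namespace Pool.Agent.Lib.MP_232f4c_nt

open MeasureTheory ProbabilityTheory Filter Topology Finset
open scoped ComplexConjugate

variable {Ω : Type*} [MeasurableSpace Ω] {P : Measure Ω}

theorem ae_subseq {J : Type*} [Countable J] {Y : J → ℕ → Ω → ℝ} (hm : ∀ j k, Integrable (Y j k) P)
    (h0 : ∀ j k ω, 0 ≤ Y j k ω) (h : ∀ j, Tendsto (fun k => ∫ ω, Y j k ω ∂P) atTop (𝓝 0)) :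
    ∃ φ : ℕ → ℕ, StrictMono φ ∧ ∀ᵐ ω ∂P, ∀ j, Tendsto (fun k => Y j (φ k) ω) atTop (𝓝 0) := by
  obtain ⟨e, he⟩ := exists_injective_nat J
  obtain ⟨φ, h1, h2⟩ := extraction_forall_of_eventually
    (P := fun n k => ∀ j ∈ e ⁻¹' Set.Iic n, ∫ ω, Y j k ω ∂P < (1 / 2) ^ n) fun n =>
    (eventually_all_finite ((Set.finite_Iic n).preimage he.injOn)).2 fun j _ =>
      (h j).eventually (gt_mem_nhds (by positivity))
  refine ⟨φ, h1, ae_all_iff.2 fun j => ?_⟩
  have h3 : Summable fun n => ∫ ω, Y j (φ n) ω ∂P := by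
    refine summable_geometric_two.of_norm_bounded_eventually_nat ?_
    filter_upwards [eventually_ge_atTop (e j)] with n hn
    rw [Real.norm_of_nonneg (integral_nonneg (h0 j _))]
    exact (h2 n j hn).le
  have h4 : ∀ n, AEMeasurable (fun ω => ENNReal.ofReal (Y j (φ n) ω)) P := fun n =>
    (hm j _).aemeasurable.ennreal_ofReal
  have h5 : ∫⁻ ω, ∑' n, ENNReal.ofReal (Y j (φ n) ω) ∂P ≠ ⊤ := by
    rw [lintegral_tsum h4]
    simp only [← ofReal_integral_eq_lintegral_ofReal (hm j _) (ae_of_all _ (h0 j _))]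
    exact h3.tsum_ofReal_ne_top
  filter_upwards [ae_lt_top' (AEMeasurable.tsum h4) h5] with ω hω
  simpa [Function.comp_def, ENNReal.toReal_ofReal (h0 j _ ω)] using
    (ENNReal.tendsto_toReal ENNReal.zero_ne_top).comp
      (ENNReal.tendsto_atTop_zero_of_tsum_ne_top hω.ne)

theorem eq_prod_primes {u : ℕ → ℂ} (h1 : u 1 = 1)
    (hm : ∀ m n : ℕ, 0 < m → 0 < n → Nat.Coprime m n → u (m * n) = u m * u n) {n : ℕ} (hn : n ≠ 0)
    {S : Finset Nat.Primes} (hS : ∀ p : Nat.Primes, (p : ℕ) ≤ n → p ∈ S) :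
    u n = ∏ p ∈ S, u ((p : ℕ) ^ n.factorization p) := by
  rw [Nat.multiplicative_factorization u (fun x y h => ?_) h1 hn, Finsupp.prod_of_support_subset _
    (s := S.map (Function.Embedding.subtype _)) (fun p hp => ?_) _ fun p _ => by simpa using h1,
    prod_map]
  · rfl
  · exact mem_map.2 ⟨⟨p, Nat.prime_of_mem_primeFactors hp⟩,
      hS _ (Nat.le_of_mem_primeFactors hp), rfl⟩
  · rcases x.eq_zero_or_pos with rfl | hx
    · rw [(Nat.coprime_zero_left y).1 h, h1, mul_one, mul_one]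
    rcases y.eq_zero_or_pos with rfl | hy
    · rw [(Nat.coprime_zero_right x).1 h, h1, one_mul, one_mul]
    exact hm x y hx hy h

theorem finite_primes_le (K : ℕ) : {p : Nat.Primes | (p : ℕ) ≤ K}.Finite :=
  (Set.finite_Iic K).preimage Subtype.val_injective.injOn

/-- A random bounded multiplicative function with independent local factors. -/
structure Rand (P : Measure Ω) (f : Ω → ℕ → ℂ) : Prop where
  le : ∀ ω n, ‖f ω n‖ ≤ 1
  one : ∀ ω, f ω 1 = 1
  mul : ∀ ω (m n : ℕ), 0 < m → 0 < n → Nat.Coprime m n → f ω (m * n) = f ω m * f ω n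
  meas : ∀ n, Measurable fun ω => f ω n
  ind : iIndepFun (fun (p : Nat.Primes) ω (k : ℕ) => f ω ((p : ℕ) ^ k)) P

variable {f : Ω → ℕ → ℂ} {s : ℕ → ℂ →+* ℂ} {T : Finset ℕ}

theorem meas_prod (hs : ∀ i, s i = RingHom.id ℂ ∨ s i = starRingEnd ℂ) {X : Type*}
    [MeasurableSpace X] {g : ℕ → X → ℂ} (hg : ∀ i, Measurable (g i)) :
    Measurable fun x => ∏ i ∈ T, s i (g i x) :=
  Finset.measurable_prod _ fun i _ => by
    rcases hs i with h | h <;> rw [h]
    exacts [hg i, Complex.continuous_conj.measurable.comp (hg i)]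

theorem norm_prod_le (hs : ∀ i, s i = RingHom.id ℂ ∨ s i = starRingEnd ℂ) {z : ℕ → ℂ}
    (hz : ∀ i, ‖z i‖ ≤ 1) : ‖∏ i ∈ T, s i (z i)‖ ≤ 1 := by
  rw [norm_prod]
  refine prod_le_one (fun _ _ => norm_nonneg _) fun i _ => ?_
  rcases hs i with h | h <;> simpa [h] using hz i

theorem norm_pair_le (hs : ∀ i, s i = RingHom.id ℂ ∨ s i = starRingEnd ℂ) {z z' : ℕ → ℂ}
    (hz : ∀ i, ‖z i‖ ≤ 1) (hz' : ∀ i, ‖z' i‖ ≤ 1) :
    ‖(∏ i ∈ T, s i (z i)) * conj (∏ i ∈ T, s i (z' i))‖ ≤ 1 := by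
  rw [norm_mul, Complex.norm_conj]
  exact mul_le_one₀ (norm_prod_le hs hz) (norm_nonneg _) (norm_prod_le hs hz')

theorem Rand.pair (h : Rand P f) (hs : ∀ i, s i = RingHom.id ℂ ∨ s i = starRingEnd ℂ) {j : ℕ}
    (hj : j ∈ T) {S : Finset Nat.Primes} (hS : ∀ p ∈ S, ∀ i ∈ T, i < (p : ℕ)) {n m : ℕ}
    (hn : 0 < n) (hm : 0 < m) :
    ‖∫ ω, (∏ i ∈ T, s i (f ω (n + i))) * conj (∏ i ∈ T, s i (f ω (m + i))) ∂P‖ ≤
      ∏ p ∈ S, gain T j p ‖∫ ω, f ω p ∂P‖ n m := by
  classical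
  have := h.ind.isProbabilityMeasure
  let S' := S ∪ (finite_primes_le (n + m + T.sup id)).toFinset
  have h1 : ∀ ω a, 0 < a → a ≤ n + m → ∏ i ∈ T, s i (f ω (a + i)) =
      ∏ p ∈ S', ∏ i ∈ T, s i (f ω ((p : ℕ) ^ (a + i).factorization p)) := fun ω a h0 ha => by
    rw [Finset.prod_comm]
    refine prod_congr rfl fun i hi => ?_
    rw [← map_prod]
    exact congrArg _ (eq_prod_primes (n := a + i) (h.one ω) (h.mul ω) (by omega) fun p hp =>
      mem_union_right _ ((Set.Finite.mem_toFinset _).2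
        (hp.trans (Nat.add_le_add ha (le_sup (f := id) hi)))))
  let F : Nat.Primes → (ℕ → ℂ) → ℂ := fun p x => (∏ i ∈ T, s i (x ((n + i).factorization p))) *
    conj (∏ i ∈ T, s i (x ((m + i).factorization p)))
  have h2 : ∀ p, Measurable (F p) := fun p => (meas_prod hs fun i => measurable_pi_apply _).mul
    (Complex.continuous_conj.measurable.comp (meas_prod hs fun i => measurable_pi_apply _))
  have h3 := (h.ind.precomp (g := ((↑) : S' → Nat.Primes)) Subtype.val_injective).integral_fun_prod_comp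
    (f := fun p : S' => F p) (fun p : S' => (measurable_pi_lambda
      (fun ω (k : ℕ) => f ω (((p : Nat.Primes) : ℕ) ^ k)) fun k => h.meas _).aemeasurable)
    fun p => (h2 p).aestronglyMeasurable
  rw [prod_coe_sort S' fun p => ∫ ω, F p (fun k => f ω ((p : ℕ) ^ k)) ∂P] at h3
  have h4 : ∀ ω, (∏ i ∈ T, s i (f ω (n + i))) * conj (∏ i ∈ T, s i (f ω (m + i))) =
      ∏ p : S', F p fun k => f ω (((p : Nat.Primes) : ℕ) ^ k) := fun ω => by
    rw [prod_coe_sort S' fun p => F p fun k => f ω ((p : ℕ) ^ k), h1 ω n hn (by omega),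
      h1 ω m hm (by omega), map_prod, ← prod_mul_distrib]
  have h5 : ∀ p : Nat.Primes, ‖∫ ω, F p (fun k => f ω ((p : ℕ) ^ k)) ∂P‖ ≤ 1 := fun p => by
    simpa using norm_integral_le_of_norm_le_const (μ := P) (C := 1)
      (f := fun ω => F p fun k => f ω ((p : ℕ) ^ k))
      (ae_of_all _ fun ω => norm_pair_le hs (fun _ => h.le _ _) fun _ => h.le _ _)
  simp only [h4]
  rw [h3, norm_prod]
  refine (prod_le_prod_of_subset_of_le_one subset_union_left (fun _ _ => norm_nonneg _)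
    fun p _ _ => h5 p).trans (prod_le_prod (fun _ _ => norm_nonneg _) fun p hp => ?_)
  rw [gain]
  split_ifs with h6
  swap
  · exact h5 p
  have h7 : (n + j).factorization p = 1 := by
    have e1 := (p.2.dvd_iff_one_le_factorization (by omega)).1 h6.2.1
    have e2 := mt (p.2.pow_dvd_iff_le_factorization (k := 2) (by omega)).2 h6.2.2
    omega
  have h8 : ∀ ω, F p (fun k => f ω ((p : ℕ) ^ k)) = s j (f ω p) := fun ω => by
    simp only [F]
    rw [prod_eq_single_of_mem j hj fun i hi hij => ?_, prod_eq_one fun i hi => ?_, h7, pow_one,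
      map_one, mul_one]
    · rw [Nat.factorization_eq_zero_of_not_dvd (h6.1 i hi), pow_zero, h.one, map_one]
    · rw [Nat.factorization_eq_zero_of_not_dvd fun h9 => hij ?_, pow_zero, h.one, map_one]
      exact (Nat.ModEq.add_left_cancel' n ((Nat.modEq_zero_iff_dvd.2 h9).trans
        (Nat.modEq_zero_iff_dvd.2 h6.2.1).symm)).eq_of_lt_of_lt (hS p hp i hi) (hS p hp j hj)
  simp only [h8]
  rcases hs j with e | e <;> rw [e]
  · rfl
  · rw [integral_conj, Complex.norm_conj]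

theorem Rand.second (h : Rand P f) (hs : ∀ i, s i = RingHom.id ℂ ∨ s i = starRingEnd ℂ) (N : ℕ) :
    ∫ ω, ‖∑ n ∈ Icc 1 N, ∏ i ∈ T, s i (f ω (n + i))‖ ^ 2 ∂P ≤ ∑ m ∈ Icc 1 N, ∑ n ∈ Icc 1 N,
      ‖∫ ω, (∏ i ∈ T, s i (f ω (n + i))) * conj (∏ i ∈ T, s i (f ω (m + i))) ∂P‖ := by
  have := h.ind.isProbabilityMeasure
  have h1 : ∀ n m, Integrable (fun ω => (∏ i ∈ T, s i (f ω (n + i))) *
      conj (∏ i ∈ T, s i (f ω (m + i)))) P := fun n m => Integrable.of_bound
    ((meas_prod hs fun i => h.meas _).mul (Complex.continuous_conj.measurable.comp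
      (meas_prod hs fun i => h.meas _))).aestronglyMeasurable 1
    (ae_of_all _ fun ω => norm_pair_le hs (fun _ => h.le _ _) fun _ => h.le _ _)
  refine (le_abs_self _).trans ?_
  rw [← Real.norm_eq_abs, ← Complex.norm_real, ← integral_complex_ofReal]
  simp only [Complex.ofReal_pow, ← Complex.mul_conj', map_sum, mul_sum, sum_mul]
  rw [integral_finsetSum _ fun m _ => integrable_finsetSum _ fun n _ => h1 n m]
  refine (norm_sum_le _ _).trans (sum_le_sum fun m _ => ?_)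
  rw [integral_finsetSum _ fun n _ => h1 n m]
  exact norm_sum_le _ _

theorem Rand.tendsto_second (h : Rand P f) (hs : ∀ i, s i = RingHom.id ℂ ∨ s i = starRingEnd ℂ)
    (hT : T.Nonempty) (hd : ¬Summable fun p : Nat.Primes => (1 - ‖∫ ω, f ω p ∂P‖) / (p : ℕ)) :
    Tendsto (fun N : ℕ => ∫ ω, ‖(1 / (N : ℂ)) * ∑ n ∈ Icc 1 N, ∏ i ∈ T, s i (f ω (n + i))‖ ^ 2 ∂P)
      atTop (𝓝 0) := by
  classical
  have := h.ind.isProbabilityMeasure
  obtain ⟨j, hj⟩ := hT
  have h1 : ∀ p : Nat.Primes, ‖∫ ω, f ω p ∂P‖ ≤ 1 := fun p => by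
    simpa using norm_integral_le_of_norm_le_const (μ := P) (C := 1) (f := fun ω => f ω p)
      (ae_of_all _ fun ω => h.le _ _)
  set a := fun p : Nat.Primes => (1 - ‖∫ ω, f ω p ∂P‖) / (p : ℕ) with ha
  have h2 : ∀ p, 0 ≤ a p := fun p => div_nonneg (sub_nonneg.2 (h1 p)) (Nat.cast_nonneg _)
  have h2' : ∀ p, a p ≤ 1 := fun p => div_le_one_of_le₀ ((sub_le_self _ (norm_nonneg _)).trans
    (Nat.one_le_cast.2 p.2.pos)) (Nat.cast_nonneg _)
  refine tendsto_order.2 ⟨fun ε hε => .of_forall fun N => hε.trans_le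
    (integral_nonneg fun ω => by positivity), fun ε hε => ?_⟩
  obtain ⟨S, h3, h4⟩ : ∃ S : Finset Nat.Primes, (∀ p ∈ S, 2 * #T + T.sup id < (p : ℕ)) ∧
      -(4 * Real.log (ε / 4)) < ∑ p ∈ S, a p := by
    by_contra h3
    push Not at h3
    refine hd ((summable_of_sum_le (f := fun p : Nat.Primes =>
      if 2 * #T + T.sup id < (p : ℕ) then a p else 0) (c := -(4 * Real.log (ε / 4)))
      (fun p => ?_) fun u => ?_).congr_cofinite ?_)
    · dsimp only
      split_ifs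
      exacts [h2 p, le_rfl]
    · rw [← sum_filter]
      exact h3 _ fun p hp => (mem_filter.1 hp).2
    · filter_upwards [(finite_primes_le (2 * #T + T.sup id)).compl_mem_cofinite] with p hp
      exact if_pos (lt_of_not_ge fun e => hp e)
  have h5 : ∏ p ∈ S, (1 - a p / 4) < ε / 4 := by
    refine (prod_le_prod (g := fun p => Real.exp (-(a p / 4))) (fun p _ => by linarith [h2' p])
      fun p _ => Real.one_sub_le_exp_neg _).trans_lt ?_
    rw [← Real.exp_sum, ← Real.lt_log_iff_exp_lt (by positivity), sum_neg_distrib, ← sum_div]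
    linarith
  have h6 : 0 ≤ ∏ p ∈ S, (1 - a p / 4) := prod_nonneg fun p _ => by linarith [h2' p]
  filter_upwards [eventually_ge_atTop (∏ p ∈ S, (p : ℕ) ^ 2), eventually_ge_atTop (∏ p ∈ S, (p : ℕ)),
    eventually_gt_atTop 0] with N k1 k2 k3
  have k4 := ((h.second hs N).trans (sum_le_sum fun m hm => sum_le_sum fun n hn => h.pair hs hj
    (fun p hp i hi => (le_sup (f := id) hi).trans_lt ((Nat.le_add_left _ _).trans_lt (h3 p hp)))
    (mem_Icc.1 hn).1 (mem_Icc.1 hm).1)).trans (sum_gain_le T j S (fun _ => norm_nonneg _) h1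
    (fun p hp => (Nat.le_add_right _ _).trans (h3 p hp).le) N)
  have k5 : (0 : ℝ) < N := Nat.cast_pos.2 k3
  simp only [norm_mul, mul_pow, integral_const_mul, norm_div, norm_one, Complex.norm_natCast]
  rw [div_pow, one_pow, one_div, inv_mul_lt_iff₀ (by positivity)]
  refine (k4.trans (mul_le_mul (add_le_add_right (Nat.cast_le.2 k1) _) (mul_le_mul_of_nonneg_right
    (add_le_add_right (Nat.cast_le.2 k2) _) h6) (by positivity) (by positivity))).trans_lt ?_
  nlinarith [mul_lt_mul_of_pos_left h5 (mul_pos k5 k5)]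

theorem Rand.chow (h : Rand P f)
    (hd : ¬Summable fun p : Nat.Primes => (1 - ‖∫ ω, f ω p ∂P‖) / (p : ℕ)) {M : ℕ → ℕ}
    (hM : Tendsto M atTop atTop) :
    ∃ φ : ℕ → ℕ, StrictMono φ ∧ ∀ᵐ ω ∂P, Chow (fun k => M (φ k)) (f ω) := by
  classical
  have := h.ind.isProbabilityMeasure
  let s : Finset ℕ → ℕ → ℂ →+* ℂ := fun A i => if i ∈ A then RingHom.id ℂ else starRingEnd ℂ
  have hs : ∀ A i, s A i = RingHom.id ℂ ∨ s A i = starRingEnd ℂ := fun A i => by
    simp only [s]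
    split_ifs <;> simp
  obtain ⟨φ, h1, h2⟩ := ae_subseq (P := P) (J := Finset ℕ × {T : Finset ℕ // T.Nonempty})
    (Y := fun j k ω => ‖(1 / (M k : ℂ)) * ∑ n ∈ Icc 1 (M k), ∏ i ∈ j.2.1, s j.1 i (f ω (n + i))‖ ^ 2)
    (fun j k => Integrable.of_bound ((((Finset.measurable_sum _ fun n _ => meas_prod (hs _)
      fun i => h.meas _).const_mul _).norm.pow_const _).aestronglyMeasurable)
      ((‖1 / (M k : ℂ)‖ * (M k)) ^ 2) (ae_of_all _ fun ω => by
        rw [norm_pow, norm_norm, norm_mul]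
        gcongr
        simpa using norm_sum_le_of_le (Icc 1 (M k)) fun n _ =>
          norm_prod_le (T := j.2.1) (hs j.1) fun i => h.le ω (n + i)))
    (fun j k ω => by positivity) fun j => (h.tendsto_second (hs _) j.2.2 hd).comp hM
  refine ⟨φ, h1, h2.mono fun ω hω A B hAB hne => ?_⟩
  have h3 := (hω (A, ⟨A ∪ B, hne⟩)).sqrt
  rw [Real.sqrt_zero] at h3
  refine tendsto_zero_iff_norm_tendsto_zero.2 (h3.congr fun k => ?_)
  rw [Real.sqrt_sq (norm_nonneg _), corr]
  congr 2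
  refine sum_congr rfl fun n _ => ?_
  rw [prod_union hAB]
  congr 1
  · exact prod_congr rfl fun i hi => by simp [s, hi]
  · exact prod_congr rfl fun i hi => by simp [s, disjoint_right.1 hAB hi]

end Pool.Agent.Lib.MP_232f4c_nt
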