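import Pool.Agent.Lib.MP_232f4c_nt.OdDefs

/-! The estimate for all dilations in odd characteristic. -/

namespace Pool.Agent.Lib.MP_232f4c_nt.Od

open Polynomial Pool.Agent.Lib.MP_9227d9_nt.Mob Filter Topology

open scoped Classical

namespace All

variable {k : Type} [Field k] [Fintype k]

theorem poly_le_exp (A : ℝ) (d s c : ℕ) (hs : 0 < s) :
    ∀ᶠ m : ℕ in atTop, A * (m : ℝ) ^ d ≤ qR k ^ ((m / 2 - c) / s) := by
  have hq : (1 : ℝ) < qR k := one_lt_two.trans_le two_le_qR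
  have h1 : Tendsto (fun m : ℕ => (m / 2 - c) / s + 1) atTop atTop :=
    (tendsto_add_atTop_nat 1).comp ((Nat.tendsto_div_const_atTop hs.ne').comp
      ((tendsto_sub_atTop_nat c).comp (Nat.tendsto_div_const_atTop two_ne_zero)))
  have h2 := ((tendsto_pow_const_div_const_pow_of_one_lt d hq).comp h1).const_mul
    (|A| * (2 * s + 2 * c + 1 : ℝ) ^ d * qR k)
  rw [mul_zero] at h2
  filter_upwards [h2.eventually (gt_mem_nhds one_pos)] with m hm
  simp only [Function.comp_def] at hm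
  obtain ⟨w, hw⟩ : ∃ w, w = (m / 2 - c) / s := ⟨_, rfl⟩
  rw [← hw] at hm ⊢
  have h3 : m ≤ (2 * s + 2 * c + 1) * (w + 1) := by
    have := Nat.lt_mul_div_succ (m / 2 - c) hs
    rw [← hw] at this
    have h4 : (2 * s + 2 * c + 1) * (w + 1) = 2 * (s * (w + 1)) + (2 * c + 1) * (w + 1) := by ring
    have h5 : 2 * c + 1 ≤ (2 * c + 1) * (w + 1) := Nat.le_mul_of_pos_right _ w.succ_pos
    omega
  have h4 : (m : ℝ) ^ d ≤ (2 * s + 2 * c + 1 : ℝ) ^ d * ((w + 1 : ℕ) : ℝ) ^ d := by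
    rw [← mul_pow]
    exact pow_le_pow_left₀ (Nat.cast_nonneg m) (by exact_mod_cast h3) d
  have h5 := qR_pow_pos (k := k) w
  rw [pow_succ, ← mul_div_assoc, div_lt_one (by positivity)] at hm
  have h6 : |A| * ((2 * s + 2 * c + 1 : ℝ) ^ d * ((w + 1 : ℕ) : ℝ) ^ d) < qR k ^ w := by
    refine lt_of_mul_lt_mul_right ?_ (qR_pos (k := k)).le
    linarith
  exact (mul_le_mul (le_abs_self A) h4 (by positivity) (abs_nonneg A)).trans h6.le

variable {p : ℕ} [hp : Fact p.Prime] [CharP k p]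

omit [Fintype k] hp in
theorem wr_shift (u y x : k[X]) : wronskian u (y + u * x ^ p) = wronskian u y := by
  rw [wronskian, wronskian, derivative_add, derivative_mul, derivative_pow,
    CharP.cast_eq_zero k p, map_zero]
  ring

omit [Fintype k] [CharP k p] in
theorem deg_pow_lt {A x : k[X]} {c N : ℕ} (hx : x.degree < c) (h : A.natDegree + p * c ≤ N) :
    (A * x ^ p).degree < N := by
  refine degree_lt_of_natDegree fun h0 => ?_
  have h1 : x ≠ 0 := fun h2 => h0 (by rw [h2, zero_pow hp.out.ne_zero, mul_zero])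
  have h2 := natDegree_lt_of_degree h1 hx
  have h3 := natDegree_mul_le (p := A) (q := x ^ p)
  rw [natDegree_pow] at h3
  have := Nat.mul_le_mul_left p (Nat.succ_le_of_lt h2)
  have := hp.out.pos
  rw [Nat.mul_succ] at *
  omega

omit [Fintype k] [CharP k p] in
theorem pow_split (x : k[X]) : x ^ p = x * x ^ (p - 1) := by
  rw [← pow_succ', Nat.sub_add_cancel hp.out.pos]

omit [Fintype k] [CharP k p] in
/-- The cell data do not change on a line. -/
theorem cell {R u y x : k[X]} {l N c : ℕ} {κ : k[X] → ℂ} {D : k[X] → k[X]}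
    (h : ∀ t : k[X], (R ^ 2 * t).natDegree + l < N →
      κ (y + R ^ 2 * t) = κ y ∧ D (y + R ^ 2 * t) = D y)
    (hx : x.degree < c) (hd : (u * R ^ p).natDegree + p * c + l ≤ N) :
    κ (y + u * R ^ p * x ^ p) = κ y ∧ D (y + u * R ^ p * x ^ p) = D y := by
  by_cases h0 : u * R ^ p * x ^ p = 0
  · simp [h0]
  have e : u * R ^ p * x ^ p = R ^ 2 * (u * R ^ (p - 2) * x ^ p) := by
    conv_lhs => rw [← Nat.add_sub_cancel' hp.out.two_le, pow_add R, Nat.add_sub_cancel' hp.out.two_le]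
    ring
  have h1 := natDegree_lt_of_degree h0 (deg_pow_lt (A := u * R ^ p) hx le_rfl)
  rw [e] at h1 ⊢
  exact h _ (by omega)

/-- One direction. -/
theorem dir {ι : Type} [Fintype ι] {a₀ b₀ R u : k[X]} {a b : ι → k[X]} {l m n w γ c₂ : ℕ}
    {g₀ θ : k[X] → ℂ} {g : ι → k[X] → ℂ} {K C ϑ : ℝ} (ha : a₀.Monic)
    (hab : ∀ j, a₀ * b j ≠ a j * b₀) (hR : R.Monic) (hu : IsP u) (hK : 1 ≤ K)
    (hS : Str R l (a₀.natDegree + n) g₀) (hθ : ∀ D, ‖θ D‖ ≤ 1) (hg : ∀ j F, ‖g j F‖ ≤ 1)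
    (hG : ∀ (a b : Option ι → k[X]) (h : k[X] → ℝ) (E : k[X] → k[X])
      (t : Option ι → k[X] → k[X]) (φ : Option ι → k[X] → k[X] → ℂ),
      (∀ j, a₀ * b j ≠ a j * b₀) → (∀ j, (a₀ * b j - a j * b₀).natDegree + w ≤ m) → E 0 = 0 →
      (∀ j s σ, E (σ + (a₀ * b j - a j * b₀) * s) = E σ + (a₀ * b j - a j * b₀) * t j s) →
      (∀ (j : Option ι) (s : k[X]), s.degree < w →
        (a j * t j s).degree < m ∧ (b j * t j s).degree < n) →
      (∀ y, |h y| ≤ 1) → (∀ j F D, MD n F → MD m D → ‖φ j F D‖ ≤ 1) →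
      (∀ (j : Option ι) (s F D : k[X]), s.degree < w → MD n F → MD m D →
        φ j (F + b j * t j s) (D - a j * t j s) = φ j F D) →
      (∀ (J : Type) [Fintype J] [Nonempty J] (σ : J → k[X]) (D : k[X]),
        Fintype.card J ≤ 2 ^ Fintype.card (Option ι) → Function.Injective σ →
        (∀ i, (σ i).degree < m) → MD m D →
        |avm n fun F => ∏ i, h (a₀ * F + b₀ * D + E (σ i))| ≤ ϑ ^ 2 ^ Fintype.card (Option ι)) →
      |avm m fun D => avm n fun F => h (a₀ * F + b₀ * D) * (∏ j, φ j F D).re| ≤ C * ϑ)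
    (hL : ∀ (J : Type) [Fintype J] [Nonempty J] (σ : J → k[X]) (D G w : k[X]),
      Fintype.card J ≤ 2 ^ Fintype.card (Option ι) → Function.Injective σ →
      (∀ i, (σ i).degree < m) → G.Monic → IsCoprime G (u * D) → R ^ p = D * D * w →
      (u * R ^ p).natDegree + p * (m + LL p γ) ≤ (D * G).natDegree →
      wronskian u (D * G) ≠ 0 → (wronskian u (D * G)).natDegree ≤ p * LL p γ + γ →
      wt p γ (wronskian u (D * G)) ≠ 0 →
      |avg (LL p γ) fun s => ∏ i, mu (G + u * D * (w * (σ i + a₀ * s) ^ p))| ≤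
        ϑ ^ 2 ^ Fintype.card (Option ι))
    (hW : ∀ y : k[X], MD (a₀.natDegree + n) y → wronskian u y ≠ 0 ∧
      (wronskian u y).natDegree ≤ p * LL p γ + γ ∧ 0 ≤ wt p γ (wronskian u y) / rh k p γ ∧
      wt p γ (wronskian u y) / rh k p γ ≤ K) (hϑ : 0 ≤ ϑ)
    (d1 : (u * R ^ p).natDegree + p * (m + LL p γ) + l ≤ a₀.natDegree + n)
    (d2 : b₀.natDegree + m < n) (d3 : a₀.natDegree < u.natDegree)
    (d4 : ∀ j, (a j).natDegree + (b j).natDegree + p * (a₀ * b j - a j * b₀).natDegree ≤ c₂)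
    (d5 : p * a₀.natDegree ≤ c₂) (d6 : (u * R ^ p).natDegree + c₂ + p * w ≤ m) :
    avm m (fun D => avm n fun F => wt p γ (wronskian u (a₀ * F + b₀ * D)) / rh k p γ *
      (θ D * (g₀ (a₀ * F + b₀ * D) * ∏ j, g j (a j * F + b j * D))).re) ≤
      K * (C * ϑ) + K / Nm u := by
  obtain ⟨κ, Dd, Gg, hS⟩ := hS
  have hp1 := hp.out.one_le
  have hK0 : 0 < K := one_pos.trans_le hK
  have hy : ∀ F D : k[X], MD n F → MD m D → MD (a₀.natDegree + n) (a₀ * F + b₀ * D) :=
    fun F D hF hD => (MD.mul ⟨ha, rfl⟩ hF).add (degree_lt_of_natDegree fun _ => by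
      have := natDegree_mul_le (p := b₀) (q := D)
      rw [hD.2] at this
      omega)
  have hud : u.natDegree ≤ (u * R ^ p).natDegree := by
    rw [hu.1.natDegree_mul (hR.pow p)]
    omega
  obtain ⟨h, hh⟩ : ∃ h : k[X] → ℝ, ∀ y, h y =
      if wt p γ (wronskian u y) ≠ 0 ∧ IsCoprime (Gg y) (u * Dd y) then mu (Gg y) else 0 :=
    ⟨_, fun _ => rfl⟩
  have h1 : ∀ y, |h y| ≤ 1 := fun y => by
    rw [hh]
    split_ifs
    · exact abs_mu_le _
    · simp
  obtain ⟨a', ha'⟩ : ∃ a' : Option ι → k[X], a' = fun j => j.elim 0 a := ⟨_, rfl⟩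
  obtain ⟨b', hb'⟩ : ∃ b' : Option ι → k[X], b' = fun j => j.elim 1 b := ⟨_, rfl⟩
  have d7 : ∀ j, (a' j).natDegree + (b' j).natDegree + p * (a₀ * b' j - a' j * b₀).natDegree ≤
      c₂ := by
    rintro (_ | j)
    · simpa [ha', hb'] using d5
    · simpa [ha', hb'] using d4 j
  have d8 : ∀ j, (a₀ * b' j - a' j * b₀).natDegree + w ≤ m := fun j => by
    have := d7 j
    have := Nat.le_mul_of_pos_left (a₀ * b' j - a' j * b₀).natDegree hp.out.pos
    have := Nat.le_mul_of_pos_left w hp.out.pos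
    omega
  have key := hG a' b' h (fun σ => u * R ^ p * σ ^ p)
    (fun j s => u * R ^ p * (a₀ * b' j - a' j * b₀) ^ (p - 1) * s ^ p)
    (fun j F D => j.elim (θ D * κ (a₀ * F + b₀ * D) *
      ((wt p γ (wronskian u (a₀ * F + b₀ * D)) / rh k p γ / K : ℝ) : ℂ))
      fun j => g j (a j * F + b j * D)) ?_ d8 (by simp [hp.out.ne_zero]) (fun j s σ => ?_)
      (fun j s hs => ?_) h1 ?_ ?_ fun J _ _ σ D hJ hσ hσ' hD => ?_
  · refine le_trans ?_ (add_le_add_left (mul_le_mul_of_nonneg_left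
      ((le_abs_self _).trans key) hK0.le) _)
    rw [← avm_mul_left, ← avm_const (k := k) m (K / Nm u), ← avm_add]
    refine avm_mono fun D hD => ?_
    have e1 : avm n (fun F => if u ∣ a₀ * X ^ n + b₀ * D + a₀ * (F - X ^ n) then (1 : ℝ) else 0) =
        1 / Nm u := by
      simp only [avm, add_sub_cancel_left]
      exact avg_dvd hu.1.ne_zero (by omega)
        (hu.isCoprime_iff.2 (hu.not_dvd_of_lt ha.ne_zero d3)) _
    rw [div_eq_mul_one_div K, ← e1, ← avm_mul_left, ← avm_mul_left, ← avm_add]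
    refine avm_mono fun F hF => ?_
    obtain ⟨s1, s2, s3, s4, s5, s6, -⟩ := hS _ (hy F D hF hD)
    obtain ⟨-, -, w1, w2⟩ := hW _ (hy F D hF hD)
    rw [show a₀ * X ^ n + b₀ * D + a₀ * (F - X ^ n) = a₀ * F + b₀ * D by ring,
      Fintype.prod_option, s5, hh]
    simp only [Option.elim]
    have hz : ‖∏ j, g j (a j * F + b j * D)‖ ≤ 1 := Ff.norm_prod_le_one _ fun j _ => hg j _
    generalize ∏ j, g j (a j * F + b j * D) = z at hz ⊢
    generalize a₀ * F + b₀ * D = y at *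
    have e2 : ∀ x v : ℝ, (θ D * κ y * ((x / K : ℝ) : ℂ) * z).re * K * v =
        x * (θ D * (κ y * (v : ℂ) * z)).re := fun x v => by
      rw [← Complex.re_mul_ofReal, ← Complex.re_mul_ofReal, ← Complex.re_ofReal_mul]
      congr 1
      have : (K : ℂ) ≠ 0 := by exact_mod_cast hK0.ne'
      push_cast
      field_simp
    have e3 : 0 ≤ K * if u ∣ y then (1 : ℝ) else 0 := by positivity
    split_ifs at e3 ⊢ with c1 c2 c3
    · linarith [e2 (wt p γ (wronskian u y) / rh k p γ) (mu (Gg y))]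
    · linarith [e2 (wt p γ (wronskian u y) / rh k p γ) (mu (Gg y))]
    · have e4 : (θ D * (κ y * (mu (Gg y) : ℂ) * z)).re ≤ 1 := by
        refine (Complex.re_le_norm _).trans ?_
        rw [norm_mul, norm_mul, norm_mul, Complex.norm_real]
        exact mul_le_one₀ (hθ D) (by positivity) (mul_le_one₀
          (mul_le_one₀ s1 (norm_nonneg _) (abs_mu_le _)) (norm_nonneg _) hz)
      nlinarith
    · by_cases c4 : wt p γ (wronskian u y) = 0
      · simp [c4]
      by_cases c5 : κ y = 0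
      · simp [c5]
      exact absurd ⟨c4, (hu.isCoprime_iff.2 fun h2 => c3 (s4 ▸ h2.mul_left _)).mul_right (s6 c5)⟩ c1
  · rintro (_ | j)
    · simpa [ha', hb'] using ha.ne_zero
    · simpa [ha', hb'] using hab j
  · rw [add_pow_char, mul_pow, pow_split (p := p) (a₀ * b' j - a' j * b₀)]
    ring
  · have e1 : ∀ c : k[X], c.natDegree + p * (a₀ * b' j - a' j * b₀).natDegree ≤ c₂ →
        (c * (u * R ^ p * (a₀ * b' j - a' j * b₀) ^ (p - 1) * s ^ p)).degree < m := fun c hc => by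
      rw [← mul_assoc]
      refine deg_pow_lt hs ?_
      have e2 := natDegree_mul_le (p := c) (q := u * R ^ p * (a₀ * b' j - a' j * b₀) ^ (p - 1))
      have e3 := natDegree_mul_le (p := u * R ^ p) (q := (a₀ * b' j - a' j * b₀) ^ (p - 1))
      rw [natDegree_pow] at e3
      have e4 := Nat.mul_le_mul_right (a₀ * b' j - a' j * b₀).natDegree (Nat.sub_le p 1)
      omega
    have := d7 j
    exact ⟨e1 _ (by omega), (e1 _ (by omega)).trans_le (by exact_mod_cast (by omega : m ≤ n))⟩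
  · rintro (_ | j) F D hF hD
    · obtain ⟨-, -, w1, w2⟩ := hW _ (hy F D hF hD)
      simp only [Option.elim]
      rw [norm_mul, norm_mul, Complex.norm_real, Real.norm_of_nonneg (by positivity)]
      exact mul_le_one₀ (mul_le_one₀ (hθ D) (norm_nonneg _) (hS _ (hy F D hF hD)).1)
        (by positivity) ((div_le_one hK0).2 w2)
    · exact hg j _
  · rintro (_ | j) s F D hs hF hD
    · have e1 : a₀ * (F + b' none * (u * R ^ p * (a₀ * b' none - a' none * b₀) ^ (p - 1) * s ^ p)) +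
          b₀ * D = a₀ * F + b₀ * D + u * R ^ p * (a₀ * s) ^ p := by
        simp only [ha', hb', Option.elim, mul_one, zero_mul, sub_zero, one_mul]
        rw [mul_pow, pow_split (p := p) a₀]
        ring
      have e2 : a' none = 0 := by rw [ha']; rfl
      have e3 := d8 none
      simp only [ha', hb', Option.elim, mul_one, zero_mul, sub_zero] at e3
      have e4 := Nat.mul_le_mul_left p (Nat.le_add_right m (LL p γ))
      simp only [Option.elim]
      rw [e2, zero_mul, sub_zero, ← e2, e1,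
        (cell (hS _ (hy F D hF hD)).2.2.2.2.2.2 (degree_mul_lt hs e3) (by omega)).1, mul_assoc u,
        ← mul_pow, wr_shift]
    · simp only [ha', hb', Option.elim]
      congr 1
      ring
  · rw [avm_avg_shift (LL p γ) (fun s => u * R ^ p * a₀ ^ (p - 1) * s ^ p) fun s hs => by
      refine deg_pow_lt hs ?_
      have e3 := natDegree_mul_le (p := u * R ^ p) (q := a₀ ^ (p - 1))
      rw [natDegree_pow] at e3
      have e4 : (p - 1) * a₀.natDegree + a₀.natDegree = p * a₀.natDegree := by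
        rw [← Nat.succ_mul, Nat.succ_eq_add_one, Nat.sub_add_cancel hp1]
      have e5 := Nat.mul_le_mul_left p (show a₀.natDegree ≤ m by omega)
      rw [mul_add] at d1
      omega]
    refine abs_avm_le_of_le fun F hF => ?_
    have hN := hy F D hF hD
    obtain ⟨-, s2, ⟨v, s3⟩, s4, -, -, s7⟩ := hS _ hN
    obtain ⟨w1, w2, -, -⟩ := hW _ hN
    have e1 : ∀ (s : k[X]) i, a₀ * (F + u * R ^ p * a₀ ^ (p - 1) * s ^ p) + b₀ * D +
        u * R ^ p * σ i ^ p = a₀ * F + b₀ * D + u * R ^ p * (σ i + a₀ * s) ^ p := fun s i => by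
      rw [add_pow_char, mul_pow, pow_split (p := p) a₀]
      ring
    simp only [e1]
    generalize a₀ * F + b₀ * D = y at *
    have e2 : R ^ p = Dd y * Dd y * (v * v * R ^ (p - 2)) := by
      conv_lhs => rw [← Nat.add_sub_cancel' hp.out.two_le, pow_add, s3]
      rw [← s3]
      ring_nf
      rw [s3]
      ring
    have e3 : ∀ (s : k[X]) i, s.degree < LL p γ → h (y + u * R ^ p * (σ i + a₀ * s) ^ p) =
        if wt p γ (wronskian u y) ≠ 0 ∧ IsCoprime (Gg y) (u * Dd y) then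
          mu (Gg y + u * Dd y * (v * v * R ^ (p - 2) * (σ i + a₀ * s) ^ p)) else 0 := by
      intro s i hs
      have e4 : (σ i + a₀ * s).degree < (m + LL p γ : ℕ) := (degree_add_le _ _).trans_lt (max_lt
        ((hσ' i).trans_le (by exact_mod_cast Nat.le_add_right _ _)) (degree_mul_lt hs (by omega)))
      have e5 := (cell s7 e4 d1).2
      have e6 := (hS _ (hN.add (deg_pow_lt (p := p) (A := u * R ^ p) e4 (by omega)))).2.2.2.1
      have e7 : Gg (y + u * R ^ p * (σ i + a₀ * s) ^ p) =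
          Gg y + u * Dd y * (v * v * R ^ (p - 2) * (σ i + a₀ * s) ^ p) := by
        refine mul_left_cancel₀ s2.ne_zero ?_
        rw [e5] at e6
        linear_combination e6 - s4 + u * (σ i + a₀ * s) ^ p * e2
      rw [hh, e5, e7, mul_assoc u (R ^ p), ← mul_pow, wr_shift, IsCoprime.add_mul_left_left_iff]
    rw [avg_congr fun s hs => Finset.prod_congr rfl fun i _ => e3 s i hs]
    split_ifs with c1
    · refine hL J σ _ _ _ hJ hσ hσ' (s2.of_mul_monic_left (s4.symm ▸ hN.1)) c1.2 e2 ?_ ?_ ?_ ?_ <;>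
        rw [s4]
      · rw [hN.2]
        omega
      · exact w1
      · exact w2
      · exact c1.1
    · rw [Finset.prod_const, zero_pow Finset.univ_nonempty.card_ne_zero, avg_const, abs_zero]
      positivity

omit hp [CharP k p] in
/-- Insertion of the cover. -/
theorem cover {m n nu : ℕ} {a₀ b₀ : k[X]} {Z : k[X] → k[X] → ℝ} {W : k[X] → k[X] → ℝ} {A B : ℝ}
    (ha : a₀.Monic) (hd : b₀.natDegree + m < n) (hnu : 3 ≤ nu) (hB : 0 ≤ B)
    (hZ : ∀ F D, MD n F → MD m D → |Z F D| ≤ 1)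
    (h1 : ∀ u, IsP u → MD nu u →
      avm m (fun D => avm n fun F => W u (a₀ * F + b₀ * D) * Z F D) ≤ A)
    (h2 : avm (a₀.natDegree + n)
      (fun y => (avm nu fun u => if IsP u then W u y - 1 else 0) ^ 2) ≤ B ^ 2) :
    avm m (fun D => avm n fun F => Z F D) ≤ A + 2 * nu * (Nm a₀ * B) := by
  obtain ⟨π, hπ⟩ : ∃ π, π = avm nu fun u : k[X] => if IsP u then (1 : ℝ) else 0 := ⟨_, rfl⟩
  have h3 : 1 ≤ 2 * nu * π := by
    have e : (Mn k nu).filter IsP = PrD k nu := by
      ext u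
      rw [Finset.mem_filter, mem_Mn, mem_PrD]
      exact ⟨fun h => ⟨h.2, h.1.2⟩, fun h => ⟨⟨h.1.1, h.2⟩, h.1⟩⟩
    rw [hπ, avm_eq, Finset.sum_boole, e, ← mul_div_assoc, one_le_div (qR_pow_pos _)]
    exact le_card_PrD hnu
  have h4 : (0 : ℝ) < 2 * nu := by
    have : (3 : ℝ) ≤ nu := by exact_mod_cast hnu
    linarith
  have h5 : 0 < π := pos_of_mul_pos_right (one_pos.trans_le h3) h4.le
  obtain ⟨c, hc⟩ : ∃ c : k[X] → ℝ, ∀ y, c y = avm nu fun u => if IsP u then W u y - 1 else 0 :=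
    ⟨_, fun _ => rfl⟩
  have h6 : avm (a₀.natDegree + n) (fun y => |c y|) ≤ B := by
    refine le_of_sq_le_sq (sq_avm_le.trans ?_) hB
    simpa only [sq_abs, hc] using h2
  have h7 : π * avm m (fun D => avm n fun F => Z F D) ≤ π * A + Nm a₀ * B := by
    have e1 : π * A = avm nu fun u : k[X] => if IsP u then A else 0 := by
      rw [hπ, ← avm_mul_right]
      exact avm_congr fun u _ => by split_ifs <;> simp
    have e2 : avm nu (fun u => avm m fun D => avm n fun F =>
        (if IsP u then W u (a₀ * F + b₀ * D) else 0) * Z F D) ≤ π * A := by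
      rw [e1]
      refine avm_mono fun u hu => ?_
      split_ifs with h
      · exact h1 u h hu
      · simp [avm_const]
    refine le_trans ?_ (add_le_add_left e2 _)
    rw [avm_comm nu m, ← avm_const (k := k) m (Nm a₀ * B), ← avm_add, ← avm_mul_left]
    refine avm_mono fun D hD => ?_
    have e3 : avm n (fun F => |c (a₀ * F + b₀ * D)|) ≤ Nm a₀ * B :=
      (avm_tr (F := fun y => |c y|) ha (degree_lt_of_natDegree fun _ => by
        have := natDegree_mul_le (p := b₀) (q := D)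
        rw [hD.2] at this
        omega) fun _ => abs_nonneg _).trans (mul_le_mul_of_nonneg_left h6 (Nm_pos _).le)
    refine le_trans ?_ (add_le_add_right e3 _)
    rw [avm_comm nu n, ← avm_add, ← avm_mul_left]
    refine avm_mono fun F hF => ?_
    have e4 : avm nu (fun u => if IsP u then W u (a₀ * F + b₀ * D) else 0) =
        c (a₀ * F + b₀ * D) + π := by
      rw [hc, hπ, ← avm_add]
      exact avm_congr fun u _ => by split_ifs <;> simp
    have e5 := neg_abs_le (c (a₀ * F + b₀ * D) * Z F D)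
    have e6 := mul_le_of_le_one_right (abs_nonneg (c (a₀ * F + b₀ * D))) (hZ F D hF hD)
    rw [abs_mul] at e5
    rw [avm_mul_right, e4]
    linarith
  have h8 : 0 ≤ Nm a₀ * B := mul_nonneg (Nm_pos _).le hB
  refine le_of_mul_le_mul_left (h7.trans ?_) h5
  nlinarith

end All

open All in
theorem stAll (h1 : StCov) (h2 : StLine) (h3 : StGvN) : StAll := by
  intro k _ _ p hp _ hp2 ι _ a₀ b₀ a b R l ha hab hR η hη
  obtain ⟨C, hC, hG⟩ := h3 (Fintype.card (Option ι))
  obtain ⟨K, hK, hCov⟩ := h1 k p hp2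
  have hp0 := hp.out.pos
  have hK0 : 0 < K := one_pos.trans_le hK
  have hN := Nm_pos a₀
  obtain ⟨c₂, hc₂⟩ : ∃ c₂, c₂ = p * a₀.natDegree +
    ∑ j, ((a j).natDegree + (b j).natDegree + p * (a₀ * b j - a j * b₀).natDegree) := ⟨_, rfl⟩
  obtain ⟨c₃, hc₃⟩ : ∃ c₃, c₃ = c₂ + p * R.natDegree + 1 := ⟨_, rfl⟩
  obtain ⟨e, he⟩ : ∃ e, e = 2 ^ Fintype.card (Option ι) := ⟨_, rfl⟩
  obtain ⟨η', h0, h4, h5⟩ : ∃ η' : ℝ, 0 < η' ∧ η' ≤ 1 ∧ K * (C * η') ≤ η / 3 := by
    refine ⟨min 1 (η / (3 * K * (C + 1))), lt_min one_pos (by positivity), min_le_left _ _, ?_⟩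
    have := (le_div_iff₀ (by positivity)).1 (min_le_right 1 (η / (3 * K * (C + 1))))
    have : 0 < min 1 (η / (3 * K * (C + 1))) * K := by positivity
    nlinarith
  obtain ⟨m₀, hm₀⟩ := eventually_atTop.1 (((poly_le_exp (k := k) (1 / η' ^ e) e p c₃ hp0).and
    ((poly_le_exp (k := k) (3 * K / η) 1 p c₃ hp0).and
      (poly_le_exp (k := k) (72 * (Nm a₀ * K / η) ^ 2) 4 p c₃ hp0))).and
    (eventually_ge_atTop (2 * (c₃ + p + a₀.natDegree + R.natDegree + 3))))
  refine ⟨m₀, fun m hm => ?_⟩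
  obtain ⟨⟨m1, m2, m3⟩, m4⟩ := hm₀ m hm
  obtain ⟨w, hw⟩ : ∃ w, w = (m / 2 - c₃) / p := ⟨_, rfl⟩
  rw [← hw] at m1 m2 m3
  have w1 : p * w ≤ m / 2 - c₃ := hw ▸ Nat.mul_div_le _ _
  have w2 : 1 ≤ w := hw ▸ (Nat.one_le_div_iff hp0).2 (by omega)
  have w3 : w ≤ p * w := Nat.le_mul_of_pos_left _ hp0
  have hm1 : (1 : ℝ) ≤ m := by exact_mod_cast (by omega : 1 ≤ m)
  have hq := qR_pow_pos (k := k) w
  have t0 : 0 < η' / m := by positivity
  have t1 : η' / m ≤ 1 := (div_le_one (by positivity)).2 (h4.trans hm1)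
  have t2 : 1 / qR k ^ w ≤ (η' / m) ^ e := by
    rw [div_pow, div_le_div_iff₀ hq (by positivity), one_mul]
    rw [one_div, inv_mul_le_iff₀ (by positivity)] at m1
    exact m1
  obtain ⟨γ₁, hγ₁⟩ := hCov (m / 2) w (K ^ 2 / qR k ^ w) w2 (by omega) (by positivity)
  obtain ⟨γ₂, hγ₂⟩ := hCov (m / 2 + 1) w (K ^ 2 / qR k ^ w) w2 (by omega) (by positivity)
  obtain ⟨γ₃, hγ₃⟩ := h2 k p hp2 e m ((η' / m) ^ e) (by positivity)
  obtain ⟨s, hs⟩ : ∃ s, s = p * (10 * rr p ^ 2) := ⟨_, rfl⟩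
  have s0 : 0 < s := by
    have : 0 < rr p := by
      have := hp.out.two_le
      unfold rr
      omega
    rw [hs]
    positivity
  obtain ⟨c₁, hc₁⟩ : ∃ c₁, c₁ = m + p * R.natDegree + p * m + l := ⟨_, rfl⟩
  refine ⟨c₁ + (γ₁ + γ₂ + γ₃ + c₁ + s + m) * s + b₀.natDegree + m + 1,
    fun n hn g₀ θ g hS hθ hg => ?_⟩
  obtain ⟨γ, hγ⟩ : ∃ γ, γ = (a₀.natDegree + n - c₁) / s := ⟨_, rfl⟩
  have g1 : γ₁ + γ₂ + γ₃ + c₁ + s + m ≤ γ := hγ ▸ (Nat.le_div_iff_mul_le s0).2 (by omega)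
  have g2 : p * LL p γ = s * γ := by
    rw [hs, LL]
    ring
  have g3 : s * γ ≤ a₀.natDegree + n - c₁ := hγ ▸ Nat.mul_div_le _ _
  have g4 : a₀.natDegree + n - c₁ < s * (γ + 1) := hγ ▸ Nat.lt_mul_div_succ _ s0
  rw [mul_add, mul_one] at g4
  obtain ⟨nu, n1, n2, n3, n4⟩ : ∃ nu, m / 2 ≤ nu ∧ nu ≤ m / 2 + 1 ∧
      (∀ u y : k[X], MD nu u → MD (a₀.natDegree + n) y → wronskian u y ≠ 0 ∧
        (wronskian u y).natDegree ≤ p * LL p γ + γ ∧ 0 ≤ wt p γ (wronskian u y) / rh k p γ ∧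
        wt p γ (wronskian u y) / rh k p γ ≤ K) ∧
      avm (a₀.natDegree + n) (fun y : k[X] => (avm nu fun u : k[X] =>
        if IsP u then wt p γ (wronskian u y) / rh k p γ - 1 else 0) ^ 2) ≤
        K ^ 2 / qR k ^ w + K ^ 2 / qR k ^ w := by
    by_cases h : ((a₀.natDegree + n : ℕ) : k) = ((m / 2 : ℕ) : k)
    · exact ⟨m / 2 + 1, by omega, le_rfl, hγ₂ γ (by omega) _ (by omega) (by omega) (by
        rw [h, Nat.cast_succ]
        simp)⟩
    · exact ⟨m / 2, le_rfl, by omega, hγ₁ γ (by omega) _ (by omega) (by omega) h⟩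
  have hnu : (nu : ℝ) ≤ m := by exact_mod_cast (by omega : nu ≤ m)
  have key := All.cover (m := m) (n := n) (nu := nu) (b₀ := b₀)
    (Z := fun F D => (θ D * (g₀ (a₀ * F + b₀ * D) * ∏ j, g j (a j * F + b j * D))).re)
    (W := fun u y => wt p γ (wronskian u y) / rh k p γ) (A := K * (C * (η' / m)) + η / (3 * m))
    (B := η / (6 * m ^ 2 * Nm a₀)) ha (by omega) (by omega) (by positivity)
    (fun F D hF hD => ?_) (fun u hu hu' => ?_) (n4.trans ?_)
  · refine key.trans ?_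
    have e1 : K * (C * (η' / m)) ≤ η / (3 * m) := by
      rw [← mul_div_assoc, ← mul_div_assoc, ← div_div]
      exact div_le_div_of_nonneg_right h5 (by positivity)
    have e2 : 2 * nu * (Nm a₀ * (η / (6 * m ^ 2 * Nm a₀))) ≤ η / (3 * m) :=
      (mul_le_mul_of_nonneg_right (mul_le_mul_of_nonneg_left hnu two_pos.le) (by positivity)).trans
        (le_of_eq (by field_simp; ring))
    have e3 : η / m = η / (3 * m) + η / (3 * m) + η / (3 * m) := by
      field_simp
      ring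
    linarith
  · obtain ⟨κ, Dd, Gg, hS⟩ := hS
    obtain ⟨s1, -, -, -, s5, -⟩ := hS (a₀ * F + b₀ * D) ((MD.mul ⟨ha, rfl⟩ hF).add
      (degree_lt_of_natDegree fun _ => by
        have := natDegree_mul_le (p := b₀) (q := D)
        rw [hD.2] at this
        omega))
    refine (Complex.abs_re_le_norm _).trans ?_
    rw [norm_mul, norm_mul, s5, norm_mul, Complex.norm_real]
    exact mul_le_one₀ (hθ D) (by positivity) (mul_le_one₀
      (mul_le_one₀ s1 (norm_nonneg _) (abs_mu_le _)) (norm_nonneg _)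
      (Ff.norm_prod_le_one _ fun j _ => hg j _))
  · have d0 : (u * R ^ p).natDegree = nu + p * R.natDegree := by
      rw [hu.1.natDegree_mul (hR.pow p), hu'.2, natDegree_pow]
    refine (dir (w := w) (γ := γ) (c₂ := c₂) (C := C) (ϑ := η' / m) ha hab hR hu hK hS hθ hg
      (fun a b h E t φ k1 k2 k3 k4 k5 k6 k7 k8 k9 => hG k (Option ι) a₀ b₀ a b h E t φ m n w m _
        rfl t0.le t1 k1 k2 k3 k4 k5 k6 k7 k8 (he ▸ t2) k9)
      (fun J _ _ σ D G w' k1 k2 k3 k4 k5 k6 k7 k8 k9 k10 => he ▸ hγ₃ γ (by omega) J σ u D G R w' a₀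
        (he ▸ k1) k2 k3 k4 k5 k6 hR.ne_zero ha.ne_zero (by rw [hu'.2]; omega) (by omega)
        (by omega) k7 k8 k9 k10)
      (fun y hy => n3 u y hu' hy) t0.le (by rw [d0, mul_add]; omega) (by omega)
      (by rw [hu'.2]; omega) (fun j => ?_) (by omega) (by omega)).trans (add_le_add_right ?_ _)
    · rw [hc₂]
      exact (Finset.single_le_sum (f := fun j => (a j).natDegree + (b j).natDegree +
        p * (a₀ * b j - a j * b₀).natDegree) (fun _ _ => Nat.zero_le _)
        (Finset.mem_univ j)).trans (Nat.le_add_left _ _)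
    · have e1 : qR k ^ w ≤ Nm u := pow_le_pow_right₀ one_le_qR (by rw [hu'.2]; omega)
      rw [div_le_div_iff₀ (Nm_pos u) (by positivity)]
      rw [pow_one, div_mul_eq_mul_div, div_le_iff₀ hη] at m2
      nlinarith
  · rw [← add_div, div_pow, div_le_div_iff₀ hq (by positivity)]
    rw [div_pow, ← mul_div_assoc, div_mul_eq_mul_div, div_le_iff₀ (by positivity)] at m3
    nlinarith

end Pool.Agent.Lib.MP_232f4c_nt.Od
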