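import Pool.Agent.Lib.MP_232f4c_nt.OdDefs

/-!
The estimate for all dilations in characteristic two.
-/

namespace Pool.Agent.Lib.MP_232f4c_nt.Od

open Polynomial Pool.Agent.Lib.MP_9227d9_nt.Mob Filter Topology

open scoped Classical ComplexConjugate

namespace All2

variable {k : Type} [Field k] [Fintype k]

/-- The identity or the complex conjugation. -/
noncomputable def cj (β : Bool) : ℂ →* ℂ :=
  if β then MonoidHom.id ℂ else (starRingEnd ℂ).toMonoidHom

theorem cj_true (z : ℂ) : cj true z = z := rfl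

theorem cj_false (z : ℂ) : cj false z = conj z := rfl

theorem norm_cj (β : Bool) (z : ℂ) : ‖cj β z‖ = ‖z‖ := by
  cases β
  · rw [cj_false, Complex.norm_conj]
  · rw [cj_true]

theorem re_eq (u z : ℂ) : (((u * z).re : ℝ) : ℂ) = ∑ β : Bool, cj β u / 2 * cj β z := by
  rw [Fintype.sum_bool, cj_true, cj_true, cj_false, cj_false, Complex.re_eq_add_conj, map_mul]
  ring

theorem base [CharP k 2] {f : k[X] → ℂ} (h1 : Mul1 f) (h2 : Pret f) {a₀ : k[X]} (ha : a₀.Monic)
    (u : ℂ) (w : k[X]) (A : Finset k[X]) (hA : A.Nonempty) :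
    Tendsto (fun n : ℕ => avm n fun F => ∏ s ∈ A, (u * f (a₀ * F + w + s)).re) atTop (𝓝 0) := by
  obtain ⟨ξ, M, l, hM, hξ, hξ', hs⟩ := h2
  have h3 : ∀ β : A → Bool, Tendsto (fun n : ℕ =>
      (∑ F ∈ (Mo k n).filter (fun F => F.natDegree = n),
        ∏ i : A, cj (β i) (f (a₀ * F + (w + i)))) / (Fintype.card k : ℂ) ^ n) atTop (𝓝 0) := by
    intro β
    refine Ff.ell (ι := A) (a := fun _ => a₀) (b := fun i => w + i)
      (f := fun i F => cj (β i) (f F)) (ε := fun _ => -1)
      (ξ := fun i => (cj (β i)).comp ξ) (M := M) (l := l)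
      Cw.cwL Cw.stTr (fun _ => ha) ?_ ?_ ?_ hM ?_ ?_ (fun _ => Or.inr rfl) ?_ ?_
    · intro i j hij h
      exact hij (Subtype.ext (add_left_cancel (mul_left_cancel₀ ha.ne_zero h)).symm)
    · intro i F
      rw [norm_cj]
      exact h1.1 F
    · intro i F G h3 h4 h5
      rw [h1.2 F G h3 h4 h5, map_mul]
    · intro i F
      rw [MonoidHom.comp_apply, norm_cj]
      exact hξ F
    · intro i F t h3 h4
      rw [MonoidHom.comp_apply, MonoidHom.comp_apply, hξ' F t h3 h4]
    · obtain ⟨x, hx⟩ := hA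
      exact ⟨⟨x, hx⟩, rfl⟩
    · intro i
      refine hs.congr fun P => ?_
      rw [MonoidHom.comp_apply]
      cases β i
      · rw [cj_false, cj_false]
        simp [sub_eq_add_neg]
      · rw [cj_true, cj_true]
        simp [sub_eq_add_neg]
  have h4 := tendsto_finsetSum (Finset.univ : Finset (A → Bool)) fun β _ =>
    (h3 β).const_mul (∏ i : A, cj (β i) u / 2)
  simp only [mul_zero, Finset.sum_const_zero] at h4
  have h5 := (Complex.continuous_re.tendsto 0).comp h4
  rw [Complex.zero_re] at h5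
  refine h5.congr fun n => ?_
  have h6 : ∀ F : k[X], ((∏ s ∈ A, (u * f (a₀ * F + w + s)).re : ℝ) : ℂ) =
      ∑ β : A → Bool, (∏ i : A, cj (β i) u / 2) * ∏ i : A, cj (β i) (f (a₀ * F + (w + i))) := by
    intro F
    rw [Complex.ofReal_prod, ← Finset.prod_coe_sort A]
    simp only [re_eq]
    rw [Finset.prod_univ_sum, Fintype.piFinset_univ]
    refine Finset.sum_congr rfl fun β _ => ?_
    rw [Finset.prod_mul_distrib]
    simp only [add_assoc]
  have h7 : ((avm n fun F => ∏ s ∈ A, (u * f (a₀ * F + w + s)).re : ℝ) : ℂ) =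
      ∑ β : A → Bool, (∏ i : A, cj (β i) u / 2) *
        ((∑ F ∈ (Mo k n).filter (fun F => F.natDegree = n),
          ∏ i : A, cj (β i) (f (a₀ * F + (w + i)))) / (Fintype.card k : ℂ) ^ n) := by
    rw [avm_eq_sum, Complex.ofReal_div, Complex.ofReal_sum]
    simp only [h6]
    rw [Finset.sum_comm, Finset.sum_div]
    refine Finset.sum_congr rfl fun β _ => ?_
    rw [← Finset.mul_sum, mul_div_assoc, qR]
    push_cast
    rfl
  rw [Function.comp_apply, ← h7, Complex.ofReal_re]

theorem unif [CharP k 2] {f : k[X] → ℂ} (h1 : Mul1 f) (h2 : Pret f) {a₀ : k[X]} (ha : a₀.Monic)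
    (u : ℂ) (b₀ : k[X]) (m : ℕ) {δ : ℝ} (hδ : 0 < δ) :
    ∀ᶠ n : ℕ in atTop, ∀ (J : Type) [Fintype J] [Nonempty J] (σ : J → k[X]) (D : k[X]),
      Function.Injective σ → (∀ i, (σ i).degree < m) → MD m D →
      |avm n fun F => ∏ i, (u * f (a₀ * F + b₀ * D + σ i)).re| ≤ δ := by
  have h3 : ∀ᶠ n : ℕ in atTop, ∀ D ∈ Mn k m, ∀ A ∈ (Pn k m).powerset.filter Finset.Nonempty,
      |avm n fun F => ∏ s ∈ A, (u * f (a₀ * F + b₀ * D + s)).re| ≤ δ := by
    refine (eventually_all_finset _).2 fun D _ => (eventually_all_finset _).2 fun A hA => ?_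
    have h4 := (base h1 h2 ha u (b₀ * D) A (Finset.mem_filter.1 hA).2).abs
    rw [abs_zero] at h4
    exact h4.eventually (eventually_le_nhds hδ)
  filter_upwards [h3] with n hn J _ _ σ D hσ hd hD
  have h4 := hn D (mem_Mn.2 hD) (Finset.univ.image σ) (Finset.mem_filter.2
    ⟨Finset.mem_powerset.2 fun s hs => by
      obtain ⟨i, -, rfl⟩ := Finset.mem_image.1 hs
      exact mem_Pn.2 (hd i), Finset.univ_nonempty.image σ⟩)
  simpa only [Finset.prod_image fun i _ j _ h => hσ h] using h4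

theorem small (N L : ℕ) {e : ℝ} (he : 0 < e) :
    ∀ᶠ m : ℕ in atTop, N ≤ m ∧ 0 < e / m ∧ e / m ≤ 1 ∧ 1 / qR k ^ (m - N) ≤ (e / m) ^ L := by
  have hq : 1 < qR k := one_lt_two.trans_le two_le_qR
  have h1 := (tendsto_pow_const_div_const_pow_of_one_lt L hq).eventually
    (eventually_le_nhds (show 0 < e ^ L / qR k ^ N from div_pos (pow_pos he L) (qR_pow_pos N)))
  filter_upwards [h1, eventually_ge_atTop N, eventually_ge_atTop 1,
    tendsto_natCast_atTop_atTop.eventually (eventually_ge_atTop e)] with m h2 h3 h4 h5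
  have hm : (0 : ℝ) < m := by exact_mod_cast h4
  refine ⟨h3, div_pos he hm, (div_le_one hm).2 h5, ?_⟩
  obtain ⟨d, rfl⟩ := Nat.exists_eq_add_of_le h3
  have h6 := qR_pow_pos (k := k) N
  have h7 := qR_pow_pos (k := k) d
  rw [Nat.add_sub_cancel_left, div_pow, div_le_div_iff₀ h7 (pow_pos hm L), one_mul]
  rw [pow_add, div_le_div_iff₀ (mul_pos h6 h7) h6] at h2
  have h8 : ((N + d : ℕ) : ℝ) ^ L * qR k ^ N ≤ e ^ L * qR k ^ d * qR k ^ N := by
    rw [mul_assoc, mul_comm (qR k ^ d)]
    exact h2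
  exact le_of_mul_le_mul_right h8 h6

theorem re_split (t z G : ℂ) : (t * (z * G)).re =
    (1 * z).re * (1 * t * G).re + (-Complex.I * z).re * (Complex.I * t * G).re := by
  simp only [Complex.mul_re, Complex.mul_im, Complex.one_re, Complex.one_im, Complex.neg_re,
    Complex.neg_im, Complex.I_re, Complex.I_im]
  ring

end All2

theorem stAll2 (h : StGvN) : StAll2 := by
  intro k _ _ _ f h1 h2 ι _ a₀ b₀ a b ha hab η hη
  obtain ⟨C, hC, H⟩ := h (Fintype.card (Option ι))
  set a' : Option ι → k[X] := fun j => j.elim 0 a with ha'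
  set b' : Option ι → k[X] := fun j => j.elim 1 b with hb'
  obtain ⟨N, hN⟩ : ∃ N : ℕ, ∀ j, (a₀ * b' j - a' j * b₀).natDegree ≤ N ∧ (a' j).natDegree ≤ N ∧
      (b' j).natDegree ≤ N := by
    obtain ⟨N, hN⟩ := Finite.exists_le fun j =>
      (a₀ * b' j - a' j * b₀).natDegree + (a' j).natDegree + (b' j).natDegree
    exact ⟨N, fun j => by have := hN j; omega⟩
  have he : 0 < η / (2 * (C + 1)) := by positivity
  obtain ⟨m₀, hm₀⟩ := eventually_atTop.1
    (All2.small (k := k) N (2 ^ Fintype.card (Option ι)) he)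
  refine ⟨m₀, fun m hm => ?_⟩
  obtain ⟨m1, m2, m3, m4⟩ := hm₀ m hm
  have hδ : 0 < (η / (2 * (C + 1)) / m) ^ 2 ^ Fintype.card (Option ι) := pow_pos m2 _
  obtain ⟨n₀, hn₀⟩ := eventually_atTop.1 (((All2.unif h1 h2 ha 1 b₀ m hδ).and
    (All2.unif h1 h2 ha (-Complex.I) b₀ m hδ)).and (eventually_ge_atTop m))
  refine ⟨n₀, fun n hn θ g hθ hg => ?_⟩
  obtain ⟨⟨n1, n2⟩, n3⟩ := hn₀ n hn
  have key : ∀ u v : ℂ, ‖u‖ ≤ 1 → ‖v‖ ≤ 1 →
      (∀ (J : Type) [Fintype J] [Nonempty J] (σ : J → k[X]) (D : k[X]),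
        Function.Injective σ → (∀ i, (σ i).degree < m) → MD m D →
        |avm n fun F => ∏ i, (u * f (a₀ * F + b₀ * D + σ i)).re| ≤
          (η / (2 * (C + 1)) / m) ^ 2 ^ Fintype.card (Option ι)) →
      |avm m fun D => avm n fun F => (u * f (a₀ * F + b₀ * D)).re *
        (v * θ D * ∏ j, g j (a j * F + b j * D)).re| ≤ C * (η / (2 * (C + 1)) / m) := by
    intro u v hu hv hb
    have h3 := H k (Option ι) a₀ b₀ a' b' (fun y => (u * f y).re) (fun s => s) (fun _ s => s)
      (fun j F D => j.elim (v * θ D) fun j => g j (a j * F + b j * D)) m n (m - N) m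
      (η / (2 * (C + 1)) / m) rfl m2.le m3 ?_ ?_ rfl (fun _ _ _ => rfl) ?_ ?_ ?_ ?_ m4
      fun J _ _ σ D _ hσ hd hD => hb J σ D hσ hd hD
    · simpa only [Fintype.prod_option, Option.elim_none, Option.elim_some] using h3
    · rintro (_ | j)
      · simpa [ha', hb'] using ha.ne_zero
      · exact hab j
    · intro j
      have := (hN j).1
      omega
    · intro j s hs
      have := hN j
      exact ⟨degree_mul_lt hs (by omega), degree_mul_lt hs (by omega)⟩
    · intro y
      refine (Complex.abs_re_le_norm _).trans ?_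
      rw [norm_mul]
      exact mul_le_one₀ hu (norm_nonneg _) (h1.1 y)
    · rintro (_ | j) F D - -
      · rw [Option.elim_none, norm_mul]
        exact mul_le_one₀ hv (norm_nonneg _) (hθ D)
      · exact hg j _
    · rintro (_ | j) s F D - - -
      · simp [ha']
      · simp only [ha', hb', Option.elim_some]
        congr 1
        ring
  have k1 := (le_abs_self _).trans (key 1 1 norm_one.le norm_one.le n1)
  have k2 := (le_abs_self _).trans (key (-Complex.I) Complex.I (by simp) (by simp) n2)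
  simp only [All2.re_split, avm_add]
  have hm0 : (0 : ℝ) < m := by
    by_contra h0
    have h4 : (m : ℝ) = 0 := le_antisymm (not_lt.1 h0) (Nat.cast_nonneg m)
    rw [h4, div_zero] at m2
    exact lt_irrefl _ m2
  have k3 : η / m = 2 * (C + 1) * (η / (2 * (C + 1)) / m) := by field_simp
  rw [k3]
  nlinarith

end Pool.Agent.Lib.MP_232f4c_nt.Od
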