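import Pool.Agent.Lib.MP_232f4c_nt.OdDefs

/-!
Three soft lemmas: the mean over the degrees, a common set of density one, and functions whose
modulus is far from one.
-/

namespace Pool.Agent.Lib.MP_232f4c_nt.Od

open Polynomial Pool.Agent.Lib.MP_9227d9_nt.Mob Filter Topology

open scoped Classical

namespace OdCes

theorem sum_shift {c : ℕ → ℝ} (h0 : ∀ n, 0 ≤ c n) (h1 : ∀ n, c n ≤ 1) (s N : ℕ) :
    ∑ n ∈ Finset.range N, c n ≤ s + ∑ j ∈ Finset.range N, c (s + j) := by
  have a : ∑ n ∈ Finset.range N, c n ≤ ∑ n ∈ Finset.range (s + N), c n :=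
    Finset.sum_le_sum_of_subset_of_nonneg (Finset.range_mono (Nat.le_add_left _ _))
      fun n _ _ => h0 n
  have b : ∑ n ∈ Finset.range s, c n ≤ s := by
    simpa using Finset.sum_le_card_nsmul (Finset.range s) c 1 fun n _ => h1 n
  rw [Finset.sum_range_add] at a
  linarith

theorem harm (m₀ : ℕ) (A : ℝ) : ∃ m₁ : ℕ, A ≤ ∑ m ∈ Finset.Ico m₀ m₁, 1 / (m : ℝ) := by
  obtain ⟨n, hn⟩ := (Real.tendsto_sum_range_one_div_nat_succ_atTop.eventually_ge_atTop
    (A + ∑ m ∈ Finset.range m₀, 1 / (m : ℝ))).exists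
  have h1 : ∑ i ∈ Finset.range n, 1 / ((i : ℝ) + 1) ≤
      ∑ m ∈ Finset.range (n + m₀ + 1), 1 / (m : ℝ) := by
    rw [Finset.sum_range_succ']
    push_cast
    rw [div_zero, add_zero]
    exact Finset.sum_le_sum_of_subset_of_nonneg (Finset.range_mono (Nat.le_add_right _ _))
      fun i _ _ => by positivity
  refine ⟨n + m₀ + 1, ?_⟩
  rw [Finset.sum_Ico_eq_sub _ (by omega)]
  linarith

end OdCes

open OdCes in
theorem stCes : StCes := by
  intro c h0 h1 h
  rw [Metric.tendsto_atTop]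
  intro ε hε
  obtain ⟨B, m₀, hB⟩ := h (ε / 4) (by positivity)
  obtain ⟨m₁, hH⟩ := harm m₀ (4 * (|B| + 1) / ε)
  obtain ⟨n₀, hn⟩ := hB m₁
  set H := ∑ m ∈ Finset.Ico m₀ m₁, 1 / (m : ℝ) with hHd
  have H0 : 0 < H := lt_of_lt_of_le (by positivity) hH
  have HB : B ≤ ε / 4 * H := by
    rw [div_le_iff₀ hε] at hH
    linarith [le_abs_self B]
  obtain ⟨N₀, hN₀⟩ := exists_nat_gt (4 * ((n₀ + m₁ : ℕ) : ℝ) / ε)
  refine ⟨N₀ + 1, fun N hN => ?_⟩
  have N0 : (0 : ℝ) < N := by exact_mod_cast (by omega : 0 < N)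
  have N1 : (N₀ : ℝ) ≤ N := by exact_mod_cast (by omega : N₀ ≤ N)
  have s0 : 0 ≤ ∑ n ∈ Finset.range N, c n := Finset.sum_nonneg fun n _ => h0 n
  have key : (∑ n ∈ Finset.range N, c n) * H ≤ ((n₀ + m₁ : ℕ) : ℝ) * H + N * (B + ε / 4 * H) := by
    calc (∑ n ∈ Finset.range N, c n) * H
        ≤ ∑ m ∈ Finset.Ico m₀ m₁, (((n₀ + m₁ : ℕ) : ℝ) * (1 / (m : ℝ)) +
            ∑ j ∈ Finset.range N, c (n₀ + m₁ + j - m) / m) := by
          rw [hHd, Finset.mul_sum]
          refine Finset.sum_le_sum fun m hm => ?_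
          have hm1 := (Finset.mem_Ico.1 hm).2
          have a := sum_shift h0 h1 (n₀ + m₁ - m) N
          have b : ((n₀ + m₁ - m : ℕ) : ℝ) ≤ ((n₀ + m₁ : ℕ) : ℝ) := by
            exact_mod_cast Nat.sub_le _ _
          have e : ∑ j ∈ Finset.range N, c (n₀ + m₁ - m + j) =
              ∑ j ∈ Finset.range N, c (n₀ + m₁ + j - m) :=
            Finset.sum_congr rfl fun j _ => congrArg c (by omega)
          rw [← Finset.sum_div, div_eq_mul_one_div (∑ j ∈ Finset.range N, _), ← add_mul, ← e]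
          exact mul_le_mul_of_nonneg_right (by linarith) (by positivity)
      _ ≤ _ := by
          rw [Finset.sum_add_distrib, ← Finset.mul_sum, Finset.sum_comm]
          refine add_le_add le_rfl ((Finset.sum_le_card_nsmul (Finset.range N) _ _ fun j _ =>
            hn (n₀ + m₁ + j) (by omega)).trans ?_)
          rw [Finset.card_range, nsmul_eq_mul]
  have k2 : ∑ n ∈ Finset.range N, c n ≤ ((n₀ + m₁ : ℕ) : ℝ) + N * (ε / 2) := by
    refine le_of_mul_le_mul_right (key.trans ?_) H0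
    nlinarith [mul_le_mul_of_nonneg_left HB N0.le]
  rw [div_lt_iff₀ hε] at hN₀
  rw [Real.dist_eq, sub_zero, abs_of_nonneg (by positivity), div_lt_iff₀ N0]
  nlinarith [mul_le_mul_of_nonneg_right N1 hε.le, mul_pos N0 hε]

theorem stKvN : StKvN := by
  intro I _ c h0 h1 h
  obtain ⟨e, he⟩ := exists_injective_nat I
  obtain ⟨c', hc, c0, ct⟩ : ∃ c' : ℕ → ℕ → ℝ, (∀ i, c' (e i) = c i) ∧ (∀ j n, 0 ≤ c' j n) ∧
      ∀ j, Tendsto (fun N : ℕ => (∑ n ∈ Finset.range N, c' j n) / N) atTop (𝓝 0) := by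
    refine ⟨Function.extend e c 0, he.extend_apply c 0, fun j n => ?_, fun j => ?_⟩ <;>
      by_cases hj : ∃ i, e i = j
    · obtain ⟨i, rfl⟩ := hj
      rw [he.extend_apply]
      exact h0 i n
    · rw [Function.extend_apply' _ _ _ hj]
      exact le_rfl
    · obtain ⟨i, rfl⟩ := hj
      rw [he.extend_apply]
      exact h i
    · rw [Function.extend_apply' _ _ _ hj]
      simp
  obtain ⟨d, hd⟩ : ∃ d : ℕ → ℕ → ℝ, ∀ j n, d j n = ∑ i ∈ Finset.range (j + 1), c' i n :=
    ⟨_, fun _ _ => rfl⟩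
  have dm : ∀ i j n, i ≤ j → d i n ≤ d j n := fun i j n hij => by
    rw [hd, hd]
    exact Finset.sum_le_sum_of_subset_of_nonneg (Finset.range_mono (by omega)) fun t _ _ => c0 t n
  have d0 : ∀ j n, 0 ≤ d j n := fun j n => hd j n ▸ Finset.sum_nonneg fun t _ => c0 t n
  obtain ⟨P, hP⟩ : ∃ P : ℕ → ℕ → Prop, ∀ j N, P j N ↔ ∀ N' : ℕ, N ≤ N' →
      (∑ n ∈ Finset.range N', d j n) / N' ≤ (1 / ((j : ℝ) + 1)) ^ 2 := ⟨_, fun _ _ => Iff.rfl⟩
  have Pe : ∀ j, ∀ᶠ N in atTop, P j N := fun j => by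
    have t : Tendsto (fun N : ℕ => (∑ n ∈ Finset.range N, d j n) / N) atTop (𝓝 0) := by
      have := tendsto_finsetSum (Finset.range (j + 1)) fun i _ => ct i
      rw [Finset.sum_const_zero] at this
      refine this.congr fun N => ?_
      rw [← Finset.sum_div, Finset.sum_comm]
      simp only [hd]
    obtain ⟨N, hN⟩ := eventually_atTop.1
      (t.eventually (eventually_le_nhds (show 0 < (1 / ((j : ℝ) + 1)) ^ 2 by positivity)))
    exact eventually_atTop.2 ⟨N, fun M hM => (hP j M).2 fun N' h' => hN N' (hM.trans h')⟩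
  obtain ⟨J, hJ⟩ : ∃ J : ℕ → ℕ, ∀ n, J n = Nat.findGreatest (fun j => P j n) n :=
    ⟨_, fun _ => rfl⟩
  have Jm : ∀ n N, n ≤ N → J n ≤ J N := fun n N hn => by
    rw [hJ, hJ]
    exact Nat.findGreatest_mono (fun j hj => (hP j N).2 fun N' h' => (hP j n).1 hj N' (hn.trans h'))
      hn
  have Jt : Tendsto J atTop atTop := tendsto_atTop.2 fun j => by
    filter_upwards [Pe j, eventually_ge_atTop j] with n a b
    rw [hJ]
    exact Nat.le_findGreatest b a
  have g0 : Tendsto (fun n => 1 / ((J n : ℝ) + 1)) atTop (𝓝 0) :=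
    tendsto_one_div_add_atTop_nhds_zero_nat.comp Jt
  refine ⟨{n | d (J n) n ≤ 1 / ((J n : ℝ) + 1)}, ?_, fun i => ?_⟩
  · have lo : Tendsto (fun n => 1 - 1 / ((J n : ℝ) + 1)) atTop (𝓝 1) := by
      simpa using g0.const_sub 1
    have cd : ∀ N : ℕ, ({n | d (J n) n ≤ 1 / ((J n : ℝ) + 1)} ∩ Set.Iio N).ncard =
        ((Finset.range N).filter fun n => d (J n) n ≤ 1 / ((J n : ℝ) + 1)).card := fun N => by
      rw [← Set.ncard_coe_finset]
      congr 1
      ext n
      simp [and_comm]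
    refine tendsto_of_tendsto_of_tendsto_of_le_of_le' lo tendsto_const_nhds ?_ ?_
    · filter_upwards [Pe 0, eventually_gt_atTop 0] with N a b
      have N0 : (0 : ℝ) < N := by exact_mod_cast b
      have p : P (J N) N := by
        rw [hJ]
        exact Nat.findGreatest_spec (P := fun j => P j N) (Nat.zero_le N) a
      have q := (hP _ _).1 p N le_rfl
      set t : ℝ := 1 / ((J N : ℝ) + 1) with ht
      have t0 : 0 < t := by positivity
      have r : ∑ n ∈ Finset.range N, t ≤ ∑ n ∈ Finset.range N,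
          (d (J N) n + t * if d (J n) n ≤ 1 / ((J n : ℝ) + 1) then 1 else 0) := by
        refine Finset.sum_le_sum fun n hn => ?_
        have m := Jm n N (Finset.mem_range.1 hn).le
        split_ifs with hc
        · linarith [d0 (J N) n]
        · have : t ≤ 1 / ((J n : ℝ) + 1) :=
            one_div_le_one_div_of_le (by positivity) (by exact_mod_cast Nat.succ_le_succ m)
          linarith [dm _ _ n m, not_le.1 hc]
      rw [Finset.sum_add_distrib, ← Finset.mul_sum, Finset.sum_boole, Finset.sum_const,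
        Finset.card_range, nsmul_eq_mul] at r
      rw [div_le_iff₀ N0] at q
      rw [cd, le_div_iff₀ N0]
      refine le_of_mul_le_mul_left ?_ t0
      nlinarith
    · filter_upwards [eventually_gt_atTop 0] with N b
      rw [cd, div_le_one (by exact_mod_cast b)]
      exact_mod_cast (Finset.card_filter_le _ _).trans (Finset.card_range N).le
  · refine squeeze_zero' (Eventually.of_forall (h0 i)) ?_ (g0.mono_left inf_le_left)
    rw [eventually_inf_principal]
    filter_upwards [Jt.eventually_ge_atTop (e i)] with n a b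
    refine le_trans ?_ b
    rw [hd, ← hc]
    exact Finset.single_le_sum (f := fun t => c' t n) (fun t _ => c0 t n)
      (Finset.mem_range.2 (by omega))

namespace OdCes

variable {k : Type} [Field k] [Fintype k]

/-- The local factor. -/
noncomputable def loc (f : k[X] → ℂ) (P F : k[X]) : ℝ :=
  1 - (1 - ‖f P‖) * ((if P ∣ F then 1 else 0) - if P ^ 2 ∣ F then 1 else 0)

theorem le_loc {f : k[X] → ℂ} (hf : Mul1 f) (y : ℕ) {F : k[X]} (hF : F.Monic) :
    ‖f F‖ ≤ ∏ P ∈ PrL k y, loc f P F := by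
  set S := (PrL k y).filter fun P => P ∣ F ∧ ¬ P ^ 2 ∣ F with hS
  have hP : ∀ P ∈ S, IsP P := fun P h => (mem_PrL.1 (Finset.mem_filter.1 h).1).1
  obtain ⟨d, hd⟩ := (prod_dvd_iff hP).2 fun P h => (Finset.mem_filter.1 h).2.1
  have hm : d.Monic := (monic_prod hP).of_mul_monic_left (hd ▸ hF)
  have e := Ff.mult_prod hf.2 hm S fun P h => ⟨hP P h, fun h' =>
    (Finset.mem_filter.1 h).2.2 (by
      rw [hd, sq]
      exact mul_dvd_mul (Finset.dvd_prod_of_mem (fun p => p) h) h')⟩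
  rw [mul_comm, ← hd] at e
  have g : ∏ P ∈ PrL k y, loc f P F = ∏ P ∈ S, ‖f P‖ := by
    rw [hS, Finset.prod_filter]
    refine Finset.prod_congr rfl fun P _ => ?_
    by_cases a : P ^ 2 ∣ F
    · simp [loc, a, (dvd_pow_self P two_ne_zero).trans a]
    · by_cases b : P ∣ F <;> simp [loc, a, b]
  rw [g, e, norm_mul, norm_prod]
  exact mul_le_of_le_one_left (Finset.prod_nonneg fun _ _ => norm_nonneg _) (hf.1 d)

theorem avg_loc {f : k[X] → ℂ} (hf : Mul1 f) {P : k[X]} (hP : IsP P) :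
    0 ≤ avg (P ^ 2).natDegree (loc f P) ∧
      avg (P ^ 2).natDegree (loc f P) ≤ Real.exp (-((1 - ‖f P‖) / Nm P) / 2) := by
  have hd : (P ^ 2).natDegree = 2 * P.natDegree := hP.1.natDegree_pow 2
  have a := avg_dvd (n := (P ^ 2).natDegree) hP.1.ne_zero (by omega) isCoprime_one_left 0
  have b := avg_dvd (n := (P ^ 2).natDegree) (hP.1.pow 2).ne_zero le_rfl isCoprime_one_left 0
  simp only [zero_add, one_mul] at a b
  have e : Nm (P ^ 2) = Nm P ^ 2 := by rw [Nm, Nm, hd, mul_comm, pow_mul]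
  have c : avg (P ^ 2).natDegree (loc f P) = 1 - (1 - ‖f P‖) * (1 / Nm P - (1 / Nm P) ^ 2) := by
    unfold loc
    rw [avg_sub, avg_const, avg_mul_left, avg_sub, a, b, e, one_div_pow]
  have u0 : 0 < 1 / Nm P := one_div_pos.2 (Nm_pos P)
  have u1 : 1 / Nm P ≤ 1 / 2 := one_div_le_one_div_of_le two_pos hP.two_le_Nm
  have f0 := norm_nonneg (f P)
  have f1 := hf.1 P
  rw [c, div_eq_mul_one_div (1 - ‖f P‖)]
  generalize 1 / Nm P = u at *
  have w : 0 ≤ (1 - ‖f P‖) * (u * (1 / 2 - u)) := by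
    have := sub_nonneg.2 f1
    have := sub_nonneg.2 u1
    positivity
  refine ⟨by nlinarith [mul_nonneg f0 (mul_nonneg u0.le (by linarith : 0 ≤ 1 - u))],
    le_trans ?_ (Real.add_one_le_exp _)⟩
  nlinarith

end OdCes

open OdCes in
theorem stZero : StZero := by
  intro k _ _ f hf hU
  rw [Metric.tendsto_atTop]
  intro ε hε
  unfold Uni at hU
  push Not at hU
  obtain ⟨y, hy⟩ := hU (-2 * Real.log ε)
  refine ⟨∑ P ∈ PrL k y, (P ^ 2).natDegree, fun n hn => ?_⟩
  have hP : ∀ P ∈ PrL k y, IsP P := fun P h => (mem_PrL.1 h).1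
  rw [Real.dist_eq, sub_zero, abs_of_nonneg (avm_nonneg fun _ _ => norm_nonneg _)]
  refine (avm_mono fun F hF => le_loc hf y hF.1).trans_lt ?_
  rw [avm, avg_prod (PrL k y) (fun P => P ^ 2) (loc f) (fun P h => ((hP P h).1.pow 2).ne_zero)
    (fun P h Q h' ne => ((hP P h).isCoprime (hP Q h') ne).pow) (fun P _ v t => ?_) hn]
  · refine (Finset.prod_le_prod (fun P h => (avg_loc hf (hP P h)).1)
      fun P h => (avg_loc hf (hP P h)).2).trans_lt ?_
    rw [← Real.exp_sum, ← Finset.sum_div, Finset.sum_neg_distrib, ← Real.lt_log_iff_exp_lt hε]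
    linarith
  · unfold loc
    simp only [dvd_add_left (dvd_mul_right (P ^ 2) t),
      dvd_add_left ((dvd_pow_self P two_ne_zero).mul_right t)]

end Pool.Agent.Lib.MP_232f4c_nt.Od
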