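import Pool.Agent.Lib.MP_232f4c_nt.OdDefs

/-!
Completion of a slightly incomplete sum, and the factorisation of the modulus.
-/

namespace Pool.Agent.Lib.MP_232f4c_nt.Od

open Polynomial Pool.Agent.Lib.MP_9227d9_nt.Mob Filter Topology

open scoped Classical

namespace Comp

variable {k : Type} [Field k] [Fintype k]

/-- The square of a mean is controlled by the means over the translates. -/
theorem proj (L δ : ℕ) (g : k[X] → ℝ) : (avg L g) ^ 2 ≤ qR k ^ δ *
    avg L fun s => avg L fun s' => avg (L + δ) fun x => g (x + s) * g (x + s') := by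
  have h1 : (avg L fun s => avg L fun s' => avg (L + δ) fun x => g (x + s) * g (x + s'))
      = avg (L + δ) fun x => (avg L fun s => g (x + s)) ^ 2 := by
    rw [avg_congr (G := fun s => avg (L + δ) fun x => avg L fun s' => g (x + s) * g (x + s'))
      fun s _ => avg_comm _ _ _, avg_comm]
    refine avg_congr fun x _ => ?_
    rw [avg_congr (G := fun s => g (x + s) * avg L fun s' => g (x + s'))
      fun s _ => avg_mul_left _, avg_mul_right, sq]
  have h2 : ∑ x ∈ Pn k L, (avg L fun s => g (x + s)) ^ 2 = qR k ^ L * (avg L g) ^ 2 := by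
    rw [Finset.sum_congr rfl (g := fun _ => (avg L g) ^ 2) fun x hx => by
      rw [← avg_shift (F := g) (mem_Pn.1 hx)]
      simp only [add_comm x], Finset.sum_const, nsmul_eq_mul, card_Pn]
  have h3 : ∑ x ∈ Pn k L, (avg L fun s => g (x + s)) ^ 2
      ≤ ∑ x ∈ Pn k (L + δ), (avg L fun s => g (x + s)) ^ 2 :=
    Finset.sum_le_sum_of_subset_of_nonneg (fun x hx => mem_Pn.2 ((mem_Pn.1 hx).trans_le
      (by exact_mod_cast Nat.le_add_right L δ))) fun _ _ _ => sq_nonneg _
  have h4 := qR_pow_pos (k := k) L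
  have h5 := qR_pow_pos (k := k) δ
  rw [h1]
  change _ ≤ _ * ((∑ x ∈ Pn k (L + δ), (avg L fun s => g (x + s)) ^ 2) / qR k ^ (L + δ))
  rw [pow_add, ← mul_div_assoc, mul_comm (qR k ^ L), mul_div_mul_left _ _ h5.ne', le_div_iff₀ h4]
  linarith

omit [Fintype k] in
theorem pack {r L δ : ℕ} {N P : k[X]} (Q : Fin r → k[X]) (A : Fin 3 → k[X]) (h1 : IsP P)
    (h2 : 3 * δ ≤ P.natDegree) (h3 : P.natDegree ≤ L + δ)
    (hQ : ∀ i, (Q i).Monic ∧ ¬ P ∣ Q i ∧ (Q i).natDegree + δ ≤ L)
    (hA : ∀ i, (A i).Monic ∧ ¬ P ∣ A i ∧ (A i).natDegree + δ ≤ L)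
    (hN : N = P * ((∏ i, Q i) * (A 0 * A 1 * A 2))) :
    ∃ (P : k[X]) (M : Fin (r + 3) → k[X]), IsP P ∧ 3 * δ ≤ P.natDegree ∧ P.natDegree ≤ L + δ ∧
      (∀ i, (M i).Monic ∧ ¬ P ∣ M i ∧ (M i).natDegree + δ ≤ L) ∧ N = P * ∏ i, M i := by
  refine ⟨P, Fin.append Q A, h1, h2, h3, Fin.addCases (fun i => ?_) (fun i => ?_), ?_⟩
  · rw [Fin.prod_univ_add]
    simp only [Fin.append_left, Fin.append_right]
    rw [Fin.prod_univ_three, hN]
  · rw [Fin.append_left]; exact hQ i
  · rw [Fin.append_right]; exact hA i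

omit [Fintype k] in
/-- A monic polynomial without long prime factors splits into three short pieces. -/
theorem three {L δ : ℕ} {C : k[X]} (hC : C.Monic) (h1 : C.natDegree ≤ L + δ) (h2 : 4 * δ ≤ L)
    (h3 : ∀ P, IsP P → P ∣ C → P.natDegree + δ ≤ L) :
    ∃ A : Fin 3 → k[X], (∀ i, (A i).Monic ∧ (A i).natDegree + δ ≤ L) ∧ C = A 0 * A 1 * A 2 := by
  let S : ℕ → Prop := fun d => ∃ C1 : k[X], C1.Monic ∧ C1 ∣ C ∧ C1.natDegree = d ∧ d + δ ≤ L
  have s0 : S 0 := ⟨1, monic_one, one_dvd _, natDegree_one, by omega⟩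
  obtain ⟨C1, a1, ⟨C2, a2⟩, a3, a4⟩ : S (Nat.findGreatest S L) :=
    Nat.findGreatest_spec (Nat.zero_le L) s0
  have b1 : C2.Monic := a1.of_mul_monic_left (a2 ▸ hC)
  have one : (1 : k[X]).Monic ∧ (1 : k[X]).natDegree + δ ≤ L :=
    ⟨monic_one, by rw [natDegree_one]; omega⟩
  by_cases hu : IsUnit C2
  · refine ⟨![C1, 1, 1], fun i => ?_, ?_⟩
    · fin_cases i
      · exact ⟨a1, by simpa [a3] using a4⟩
      · exact one
      · exact one
    · rw [a2, b1.eq_one_of_isUnit hu]
      simp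
  obtain ⟨P2, c1, c2, C3, c3⟩ := exists_monic_irreducible_factor C2 hu
  have d1 : C3.Monic := c1.of_mul_monic_left (c3 ▸ b1)
  have d2 : C = C1 * P2 * C3 := by rw [a2, c3, mul_assoc]
  have d3 : C.natDegree = C1.natDegree + P2.natDegree + C3.natDegree := by
    rw [d2, (a1.mul c1).natDegree_mul d1, a1.natDegree_mul c1]
  have d4 := h3 P2 ⟨c1, c2⟩ ⟨C1 * C3, by rw [d2]; ring⟩
  have d5 := c2.natDegree_pos
  have d6 : L < C1.natDegree + P2.natDegree + δ := by
    by_contra hc
    have := Nat.le_findGreatest (P := S) (m := C1.natDegree + P2.natDegree) (n := L) (by omega)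
      ⟨C1 * P2, a1.mul c1, ⟨C3, d2⟩, a1.natDegree_mul c1, by omega⟩
    omega
  refine ⟨![C1, P2, C3], fun i => ?_, d2⟩
  fin_cases i
  · exact ⟨a1, by simpa [a3] using a4⟩
  · exact ⟨c1, d4⟩
  · exact ⟨d1, show C3.natDegree + δ ≤ L by omega⟩

end Comp

theorem stComp (h1 : StJac) (h2 : StB0) : StComp := by
  intro k _ _ hk P a J _ _ c L δ hP ha hc d1 d2 d3
  have hw : 1 ≤ √(qR k) := Real.one_le_sqrt.2 one_le_qR
  have hw2 : √(qR k) ^ 2 = qR k := Real.sq_sqrt qR_pos.le
  set w := √(qR k) with hwd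
  have hJ : (1 : ℝ) ≤ Fintype.card J := by exact_mod_cast Fintype.card_pos
  have hN : w ^ (3 * δ) ≤ √(Nm P) := by
    rw [Nm, ← hw2, ← pow_mul, mul_comm 2, pow_mul w P.natDegree, Real.sqrt_sq (by positivity)]
    exact pow_le_pow_right₀ hw d1
  have hab : ∀ N G : k[X], |jac N G| ≤ 1 := fun N G => by
    rcases (h1 k).1 N G with h | h | h <;> simp [h]
  have key : ∀ s s' : k[X], (avg (L + δ) fun x => (∏ j, jac P (c j + a * (x + s))) *
      ∏ j, jac P (c j + a * (x + s'))) ≤ 40 * Fintype.card J / w ^ (3 * δ) +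
      ∑ e : J × J, if P ∣ c e.1 + a * s - c e.2 + -a * s' then 1 else 0 := fun s s' => by
    have e1 : (fun x => (∏ j, jac P (c j + a * (x + s))) * ∏ j, jac P (c j + a * (x + s')))
        = fun x => ∏ j : J ⊕ J, jac P
          (Sum.elim (fun j => c j + a * s) (fun j => c j + a * s') j + a * x) := by
      funext x
      rw [Fintype.prod_sum_type]
      congr 1 <;> refine Finset.prod_congr rfl fun j _ => ?_ <;> congr 1 <;>
        simp only [Sum.elim_inl, Sum.elim_inr] <;> ring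
    have e2 : 0 ≤ ∑ e : J × J, if P ∣ c e.1 + a * s - c e.2 + -a * s' then (1 : ℝ) else 0 :=
      Finset.sum_nonneg fun _ _ => by split_ifs <;> norm_num
    rw [e1]
    by_cases hb : ∃ e : J × J, P ∣ c e.1 + a * s - c e.2 + -a * s'
    · obtain ⟨e, he⟩ := hb
      have e3 := Finset.single_le_sum (f := fun e : J × J =>
        if P ∣ c e.1 + a * s - c e.2 + -a * s' then (1 : ℝ) else 0)
        (fun _ _ => by split_ifs <;> norm_num) (Finset.mem_univ e)
      rw [if_pos he] at e3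
      refine (avg_le_of_le (B := 1) fun x _ => (le_abs_self _).trans ?_).trans
        (le_add_of_nonneg_of_le (by positivity) e3)
      rw [Finset.abs_prod]
      exact Finset.prod_le_one (fun _ _ => abs_nonneg _) fun _ _ => hab _ _
    · have e4 := h2 k hk P a (J ⊕ J) (Sum.elim (fun j => c j + a * s) fun j => c j + a * s')
        (L + δ) hP ha (by
          rintro (i | i) (j | j) hij <;> simp only [Sum.elim_inl, Sum.elim_inr]
          · rw [add_sub_add_right_eq_sub]
            exact hc i j fun e => hij (e ▸ rfl)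
          · exact fun h => hb ⟨(i, j), by convert h using 1; ring⟩
          · exact fun h => hb ⟨(j, i), by convert h.neg_right using 1; ring⟩
          · rw [add_sub_add_right_eq_sub]
            exact hc i j fun e => hij (e ▸ rfl)) d2
      refine (le_abs_self _).trans (e4.trans (le_add_of_le_of_nonneg ?_ e2))
      rw [Fintype.card_sum]
      push_cast
      rw [show (20 : ℝ) * (Fintype.card J + Fintype.card J) = 40 * Fintype.card J by ring]
      exact div_le_div_of_nonneg_left (by positivity) (by positivity) hN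
  have key2 : ∀ s : k[X], (avg L fun s' => avg (L + δ) fun x =>
      (∏ j, jac P (c j + a * (x + s))) * ∏ j, jac P (c j + a * (x + s'))) ≤
      40 * Fintype.card J / w ^ (3 * δ) + (Fintype.card J : ℝ) ^ 2 * (1 / qR k ^ (3 * δ)) :=
    fun s => by
    refine (avg_mono fun s' _ => key s s').trans ?_
    rw [avg_add, avg_const, avg_sum]
    refine add_le_add le_rfl ((Finset.sum_le_card_nsmul _ _ _ fun e _ =>
      avg_dvd_le hP.1.ne_zero d3 d1 (hP.isCoprime_iff.2 ha).neg_left _).trans (le_of_eq ?_))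
    rw [Finset.card_univ, Fintype.card_prod, nsmul_eq_mul]
    push_cast
    ring
  refine (Comp.proj L δ _).trans ((mul_le_mul_of_nonneg_left (avg_le_of_le fun s _ => key2 s)
    (qR_pow_pos δ).le).trans ?_)
  have hu : 1 ≤ w ^ δ := one_le_pow₀ hw
  have f1 : qR k ^ δ = (w ^ δ) ^ 2 := by rw [← hw2, ← pow_mul, ← pow_mul, mul_comm]
  have f2 : qR k ^ (3 * δ) = (w ^ δ) ^ 6 := by
    rw [← hw2, ← pow_mul, ← pow_mul]
    congr 1
    ring
  have f3 : w ^ (3 * δ) = (w ^ δ) ^ 3 := by rw [← pow_mul, mul_comm]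
  rw [f1, f2, f3]
  generalize w ^ δ = u at hu
  generalize (Fintype.card J : ℝ) = j at hJ
  have g1 : u ^ 2 * (40 * j / u ^ 3 + j ^ 2 * (1 / u ^ 6)) = (40 * j + j ^ 2 / u ^ 3) / u := by
    field_simp
  have g2 : j ^ 2 / u ^ 3 ≤ j ^ 2 := div_le_self (sq_nonneg _) (one_le_pow₀ hu)
  rw [g1]
  exact div_le_div_of_nonneg_right (by nlinarith) (by linarith)

theorem stFac : StFac := by
  intro k _ _ r L δ Q N hN hQ hi hd hg h1 h2 h3
  have cop : Pairwise (Function.onFun IsCoprime Q) := fun i j hij =>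
    (hQ i).isCoprime (hQ j) fun e => hij (hi e)
  have mon : (∏ i, Q i).Monic := monic_prod_of_monic _ _ fun i _ => (hQ i).1
  have deg : (∏ i, Q i).natDegree = ∑ i, (Q i).natDegree :=
    natDegree_prod_of_monic _ _ fun i _ => (hQ i).1
  obtain ⟨C, hC⟩ := Fintype.prod_dvd_of_coprime cop hd
  have a1 : C.Monic := mon.of_mul_monic_left (hC ▸ hN)
  have a2 : C.natDegree ≤ L + δ := by
    rw [hC, mon.natDegree_mul a1, deg] at h1
    omega
  by_cases hl : ∃ P, IsP P ∧ P ∣ C ∧ L < P.natDegree + δ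
  · obtain ⟨P, b1, ⟨C', b2⟩, b3⟩ := hl
    have b4 : C'.Monic := b1.1.of_mul_monic_left (b2 ▸ a1)
    rw [b2, b1.1.natDegree_mul b4] at a2
    have one : (1 : k[X]).Monic ∧ ¬ P ∣ 1 ∧ (1 : k[X]).natDegree + δ ≤ L :=
      ⟨monic_one, b1.prime.not_dvd_one, by rw [natDegree_one]; omega⟩
    refine Comp.pack Q ![C', 1, 1] b1 (by omega) (by omega) (fun i => ⟨(hQ i).1,
      b1.not_dvd_of_lt (hQ i).1.ne_zero (by have := (hg i).2; omega), (hg i).2⟩) (fun i => ?_) ?_
    · fin_cases i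
      · exact ⟨b4, b1.not_dvd_of_lt b4.ne_zero (show C'.natDegree < _ by omega),
          show C'.natDegree + δ ≤ L by omega⟩
      · exact one
      · exact one
    · rw [hC, b2]
      simp only [Matrix.cons_val_zero, Matrix.cons_val_one, Matrix.cons_val]
      ring
  obtain ⟨A, c1, c2⟩ := Comp.three a1 a2 h3 fun P p1 p2 => not_lt.1 fun h => hl ⟨P, p1, p2, h⟩
  obtain ⟨i₀, c3⟩ : ∃ i₀, ¬ Q i₀ ∣ C := by
    by_contra hc
    have := natDegree_le_of_dvd (Fintype.prod_dvd_of_coprime cop fun i =>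
      not_not.1 fun h => hc ⟨i, h⟩) a1.ne_zero
    omega
  refine Comp.pack (Function.update Q i₀ 1) A (hQ i₀) (hg i₀).1 (by have := (hg i₀).2; omega)
    (fun i => ?_) (fun i => ⟨(c1 i).1, fun h => c3 (h.trans ?_), (c1 i).2⟩) ?_
  · rcases eq_or_ne i i₀ with rfl | h
    · rw [Function.update_self]
      exact ⟨monic_one, (hQ i).prime.not_dvd_one, by rw [natDegree_one]; omega⟩
    · rw [Function.update_of_ne h]
      exact ⟨(hQ i).1, fun e => h (hi ((hQ i₀).eq_of_dvd (hQ i) e)).symm, (hg i).2⟩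
  · rw [c2, ← Fin.prod_univ_three]
    exact Finset.dvd_prod_of_mem _ (Finset.mem_univ i)
  · rw [Finset.prod_update_of_mem (Finset.mem_univ i₀), one_mul, Finset.sdiff_singleton_eq_erase,
      ← mul_assoc, Finset.mul_prod_erase _ _ (Finset.mem_univ i₀), ← c2, hC]

end Pool.Agent.Lib.MP_232f4c_nt.Od
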