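import Pool.Agent.Lib.MP_9227d9_nt.MobAvg

/-!
Level of distribution of the Wronskian `u y' - u' y` along cells `y₀ + R ^ p * v`.
-/

namespace Pool.Agent.Lib.MP_232f4c_nt.Lev

open Polynomial Pool.Agent.Lib.MP_9227d9_nt.Mob Module

open scoped Classical

variable {k : Type} [Field k] [Fintype k]

theorem card_ker {W : Type} [AddCommGroup W] [Module k W] [DecidableEq W] (n : ℕ)
    (g : k[X] →ₗ[k] W) :
    ∃ κ : ℕ, κ + finrank k (LinearMap.range (g.domRestrict (degreeLT k n))) = n ∧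
      (((Pn k n).filter fun v => g v = 0).card : ℝ) = qR k ^ κ := by
  have : Module.Finite k (degreeLT k n) := Module.Finite.of_basis (degreeLT.basis k n)
  have hfin : finrank k (degreeLT k n) = n := by
    rw [finrank_eq_card_basis (degreeLT.basis k n), Fintype.card_fin]
  refine ⟨finrank k (LinearMap.ker (g.domRestrict (degreeLT k n))), ?_, ?_⟩
  · rw [add_comm, LinearMap.finrank_range_add_finrank_ker, hfin]
  · have h1 := Module.natCard_eq_pow_finrank (K := k)
      (V := LinearMap.ker (g.domRestrict (degreeLT k n)))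
    have h2 : Nat.card (LinearMap.ker (g.domRestrict (degreeLT k n))) =
        ((Pn k n).filter fun v => g v = 0).card := by
      rw [← Nat.card_eq_finsetCard]
      refine Nat.card_congr ⟨fun x => ⟨x.1.1, ?_⟩, fun y => ⟨⟨y.1, ?_⟩, ?_⟩, fun _ => rfl,
        fun _ => rfl⟩
      · exact Finset.mem_filter.2 ⟨mem_Pn.2 (mem_degreeLT.1 x.1.2), x.2⟩
      · exact mem_degreeLT.2 (mem_Pn.1 (Finset.mem_filter.1 y.2).1)
      · exact (Finset.mem_filter.1 y.2).2
    rw [← h2, h1, Nat.card_eq_fintype_card, qR]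
    push_cast
    rfl

/-- The defect of equidistribution of a linear map is bounded by the number of annihilators. -/
theorem equi {M : k[X]} (hM : M.Monic) (E : ℕ) (φ : k[X] →ₗ[k] k[X]) (c : k[X])
    (l : k[X] →ₗ[k] k) (hl : ∀ t, l (M * t) = 0) :
    |avg E (fun v => if M ∣ c + φ v then 1 else 0) - 1 / Nm M| ≤
      (((Pn k M.natDegree).filter fun b =>
        b ≠ 0 ∧ ∀ v : k[X], v.degree < E → l (b * φ v) = 0).card : ℝ) / Nm M := by
  set D := M.natDegree with hD
  set g : k[X] →ₗ[k] k[X] := modByMonicHom M ∘ₗ φ with hg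
  have hgv : ∀ v, g v = φ v %ₘ M := fun v => rfl
  set V := LinearMap.range (g.domRestrict (degreeLT k E)) with hV
  have hfE : Module.Finite k (degreeLT k E) := Module.Finite.of_basis (degreeLT.basis k E)
  have hfD : Module.Finite k (degreeLT k D) := Module.Finite.of_basis (degreeLT.basis k D)
  have hfinD : finrank k (degreeLT k D) = D := by
    rw [finrank_eq_card_basis (degreeLT.basis k D), Fintype.card_fin]
  have hdeg : ∀ x : k[X], (x %ₘ M).degree < D := fun x => by
    have := degree_modByMonic_lt x hM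
    rwa [degree_eq_natDegree hM.ne_zero] at this
  have hVle : V ≤ degreeLT k D := by
    rintro x ⟨v, rfl⟩
    exact mem_degreeLT.2 (hdeg _)
  obtain ⟨κ, hκ, hcκ⟩ := card_ker E g
  rw [← hV] at hκ
  set g₂ : k[X] →ₗ[k] V →ₗ[k] k := ((LinearMap.mul k k[X]).compr₂ l).compl₂ V.subtype with hg₂
  obtain ⟨n, hn, hcn⟩ := card_ker D g₂
  have hr : finrank k (LinearMap.range (g₂.domRestrict (degreeLT k D))) ≤ finrank k V := by
    refine (Submodule.finrank_le _).trans (le_of_eq ?_)
    exact Subspace.dual_finrank_eq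
  set a := finrank k V with ha
  have haD : a ≤ D := hfinD ▸ Submodule.finrank_mono hVle
  have hq := qR_pos (k := k)
  have hq2 := two_le_qR (k := k)
  -- the annihilators
  have hN : qR k ^ n - 1 ≤ (((Pn k D).filter fun b =>
      b ≠ 0 ∧ ∀ v : k[X], v.degree < E → l (b * φ v) = 0).card : ℝ) := by
    rw [← hcn, sub_le_iff_le_add]
    have h1 : ((Pn k D).filter fun b => g₂ b = 0) ⊆ insert 0 ((Pn k D).filter fun b =>
        b ≠ 0 ∧ ∀ v : k[X], v.degree < E → l (b * φ v) = 0) := by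
      intro b hb
      rw [Finset.mem_filter] at hb
      by_cases h0 : b = 0
      · simp [h0]
      refine Finset.mem_insert_of_mem (Finset.mem_filter.2 ⟨hb.1, h0, fun v hv => ?_⟩)
      have h2 := LinearMap.congr_fun hb.2 ⟨g v, ⟨⟨v, mem_degreeLT.2 hv⟩, rfl⟩⟩
      have h3 : l (b * (φ v %ₘ M)) = 0 := h2
      have h4 : b * φ v = b * (φ v %ₘ M) + M * (b * (φ v /ₘ M)) := by
        conv_lhs => rw [← modByMonic_add_div (φ v) M]
        ring
      rw [h4, map_add, h3, hl, add_zero]
    exact_mod_cast (Finset.card_le_card h1).trans (Finset.card_insert_le _ _)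
  refine le_trans ?_ (div_le_div_of_nonneg_right hN (pow_pos hq _).le)
  -- the fibre
  have havg : avg E (fun v => if M ∣ c + φ v then (1 : ℝ) else 0) =
      (((Pn k E).filter fun v => M ∣ c + φ v).card : ℝ) / qR k ^ E := by
    unfold avg
    rw [Finset.sum_boole]
  have hfib : ∀ v₀ : k[X], v₀.degree < E → M ∣ c + φ v₀ →
      (((Pn k E).filter fun v => M ∣ c + φ v).card : ℝ) = qR k ^ κ := by
    intro v₀ h0 h1
    rw [← hcκ]
    congr 1
    refine Finset.card_bij' (fun v _ => v - v₀) (fun v _ => v + v₀) ?_ ?_ ?_ ?_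
    · intro v hv
      rw [Finset.mem_filter, mem_Pn] at hv ⊢
      refine ⟨(degree_sub_le _ _).trans_lt (max_lt hv.1 h0), ?_⟩
      rw [hgv, modByMonic_eq_zero_iff_dvd hM, map_sub]
      have := dvd_sub hv.2 h1
      rwa [add_sub_add_left_eq_sub] at this
    · intro v hv
      rw [Finset.mem_filter, mem_Pn] at hv ⊢
      refine ⟨(degree_add_le _ _).trans_lt (max_lt hv.1 h0), ?_⟩
      rw [hgv, modByMonic_eq_zero_iff_dvd hM] at hv
      have := dvd_add hv.2 h1
      rw [map_add]
      convert this using 1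
      ring
    · intro v _
      simp
    · intro v _
      simp
  have hE : qR k ^ κ / qR k ^ E = 1 / qR k ^ a := by
    rw [← hκ, pow_add]
    field_simp
  rw [havg, Nm, ← hD]
  rcases haD.eq_or_lt with h | h
  · have hVeq : V = degreeLT k D :=
      Submodule.eq_of_le_of_finrank_eq hVle (by rw [hfinD, ← ha, h])
    have h1 : (-c) %ₘ M ∈ V := hVeq ▸ mem_degreeLT.2 (hdeg _)
    obtain ⟨v₀, hv₀⟩ := h1
    have h2 : φ v₀.1 %ₘ M = (-c) %ₘ M := hv₀
    have h3 : M ∣ c + φ v₀.1 := by
      rw [← modByMonic_eq_zero_iff_dvd hM, add_modByMonic, h2, ← add_modByMonic, add_neg_cancel,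
        zero_modByMonic]
    rw [hfib _ (mem_degreeLT.1 v₀.2) h3, hE, h, sub_self, abs_zero]
    exact div_nonneg (sub_nonneg.2 (one_le_pow₀ one_le_qR)) (pow_pos hq _).le
  · have hn1 : 1 ≤ n := by omega
    have h2 : (2 : ℝ) ≤ qR k ^ n := hq2.trans (le_self_pow₀ one_le_qR (by omega))
    have hDpos := pow_pos hq D
    have h0 : (0 : ℝ) ≤ (((Pn k E).filter fun v => M ∣ c + φ v).card : ℝ) / qR k ^ E := by
      positivity
    have h1 : (((Pn k E).filter fun v => M ∣ c + φ v).card : ℝ) / qR k ^ E ≤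
        qR k ^ n / qR k ^ D := by
      rcases ((Pn k E).filter fun v => M ∣ c + φ v).eq_empty_or_nonempty with h3 | ⟨v₀, h3⟩
      · rw [h3]
        simp only [Finset.card_empty, Nat.cast_zero, zero_div]
        positivity
      · rw [Finset.mem_filter, mem_Pn] at h3
        rw [hfib _ h3.1 h3.2, hE, div_le_div_iff₀ (pow_pos hq _) hDpos, one_mul, ← pow_add]
        exact pow_le_pow_right₀ one_le_qR (by omega)
    rw [abs_le, sub_div]
    have h4 : 2 * (1 / qR k ^ D) ≤ qR k ^ n / qR k ^ D := by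
      rw [mul_one_div]
      exact div_le_div_of_nonneg_right h2 hDpos.le
    constructor <;> linarith

omit [Fintype k] in
theorem div_eq {M q r f : k[X]} (hM : M.Monic) (h : r + M * q = f) (hr : r.degree < M.degree) :
    f /ₘ M = q := (div_modByMonic_unique q r hM ⟨h, hr⟩).1

/-- The coefficient of `X⁻¹` in `x / M`. -/
noncomputable def res (M : k[X]) (hM : M.Monic) : k[X] →ₗ[k] k where
  toFun x := ((X * x) /ₘ M).coeff 0
  map_add' x y := by
    rw [← coeff_add]
    congr 1
    refine div_eq (r := (X * x) %ₘ M + (X * y) %ₘ M) hM ?_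
      ((degree_add_le _ _).trans_lt (max_lt (degree_modByMonic_lt _ hM)
        (degree_modByMonic_lt _ hM)))
    linear_combination modByMonic_add_div (X * x) M + modByMonic_add_div (X * y) M
  map_smul' c x := by
    rw [RingHom.id_apply, ← coeff_smul]
    congr 1
    refine div_eq (r := c • ((X * x) %ₘ M)) hM ?_
      ((degree_smul_le _ _).trans_lt (degree_modByMonic_lt _ hM))
    simp only [smul_eq_C_mul]
    linear_combination C c * modByMonic_add_div (X * x) M

omit [Fintype k] in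
theorem res_mul {M : k[X]} (hM : M.Monic) (t : k[X]) : res M hM (M * t) = 0 := by
  change ((X * (M * t)) /ₘ M).coeff 0 = 0
  rw [mul_left_comm, mul_divByMonic_cancel_left _ hM, coeff_X_mul_zero]

omit [Fintype k] in
theorem degree_div_lt {M b : k[X]} (hM : M.Monic) (hb : b.degree < M.degree) (n : ℕ) :
    ((X ^ n * b) /ₘ M).degree < n := by
  refine degree_lt_of_natDegree fun h0 => ?_
  have hb0 : b ≠ 0 := by
    rintro rfl
    simp at h0
  have h1 : ¬ (X ^ n * b).degree < M.degree := fun h => h0 ((divByMonic_eq_zero_iff hM).2 h)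
  have h2 : b.natDegree < M.natDegree := natDegree_lt_natDegree hb0 hb
  have h3 : (X ^ n * b).natDegree = n + b.natDegree := by
    rw [(monic_X_pow n).natDegree_mul' hb0, natDegree_X_pow]
  have h4 : M.natDegree ≤ (X ^ n * b).natDegree := natDegree_le_natDegree (not_lt.1 h1)
  rw [natDegree_divByMonic _ hM]
  omega

omit [Fintype k] in
theorem coeff_div {M : k[X]} (hM : M.Monic) (b : k[X]) (i j : ℕ) :
    ((X ^ (j + i) * b) /ₘ M).coeff j = ((X ^ i * b) /ₘ M).coeff 0 := by
  set r := (X ^ i * b) %ₘ M with hr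
  have h1 : (X ^ (j + i) * b) /ₘ M = X ^ j * ((X ^ i * b) /ₘ M) + (X ^ j * r) /ₘ M := by
    refine div_eq (r := (X ^ j * r) %ₘ M) hM ?_ (degree_modByMonic_lt _ hM)
    linear_combination modByMonic_add_div (X ^ j * r) M + X ^ j * modByMonic_add_div (X ^ i * b) M
  have h2 := degree_div_lt hM (degree_modByMonic_lt (X ^ i * b) hM) j
  rw [h1, coeff_add, coeff_eq_zero_of_degree_lt h2, add_zero]
  have := coeff_X_pow_mul ((X ^ i * b) /ₘ M) j 0
  rwa [zero_add] at this

omit [Fintype k] in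
theorem deriv_div (p : ℕ) [CharP k p] {M b : k[X]} (hM : M.Monic) (hb : b.degree < M.degree)
    (e : ℕ) (h : ∀ i : ℕ, i < p * e → res M hM (b * derivative (X ^ (i + 1))) = 0) :
    derivative ((X ^ (p * e) * b) /ₘ M) = 0 := by
  ext j
  rw [coeff_derivative, coeff_zero]
  by_cases hj : j + 1 < p * e
  · obtain ⟨i, hi⟩ : ∃ i, p * e = (j + 1) + (i + 1) := ⟨p * e - j - 2, by omega⟩
    have h1 := h i (by omega)
    rw [derivative_X_pow, mul_left_comm, ← smul_eq_C_mul, map_smul] at h1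
    have h2 : res M hM (b * X ^ (i + 1 - 1)) = ((X ^ (i + 1) * b) /ₘ M).coeff 0 := by
      change ((X * (b * X ^ (i + 1 - 1))) /ₘ M).coeff 0 = _
      congr 2
      rw [Nat.add_sub_cancel]
      ring
    have h3 : ((j : k) + 1) = -((i + 1 : ℕ) : k) := by
      have h4 : ((p * e : ℕ) : k) = 0 := by
        rw [Nat.cast_mul, CharP.cast_eq_zero, zero_mul]
      rw [hi] at h4
      push_cast at h4 ⊢
      linear_combination h4
    rw [hi, coeff_div hM, h3, ← h2, mul_neg, mul_comm, ← smul_eq_mul, h1, neg_zero]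
  · rw [coeff_eq_zero_of_degree_lt ((degree_div_lt hM hb _).trans_le
      (by exact_mod_cast not_lt.1 hj)), zero_mul]

/-- Reduced fractions whose expansion at infinity begins like a `p`-th power. -/
noncomputable def Fr (k : Type) [Field k] [Fintype k] (n d : ℕ) : Finset (k[X] × k[X]) :=
  (Mo k d ×ˢ Pn k d).filter fun x => Squarefree x.1 ∧ IsCoprime x.2 x.1 ∧ x.2 ≠ 0 ∧
    x.2.degree < x.1.degree ∧ derivative ((X ^ n * x.2) /ₘ x.1) = 0

omit [Fintype k] in
theorem lt_of_dvd_pow {a b : k[X]} {n m : ℕ} (h : X ^ n * a = b) (hb : b.degree < m) :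
    a.degree < (m - n : ℕ) := by
  refine degree_lt_of_natDegree fun h0 => ?_
  have h3 : b.natDegree = n + a.natDegree := by
    rw [← h, (monic_X_pow n).natDegree_mul' h0, natDegree_X_pow]
  have h4 : b ≠ 0 := h ▸ mul_ne_zero (pow_ne_zero _ X_ne_zero) h0
  have := natDegree_lt_of_degree h4 hb
  omega

theorem deg_mul_lt {a b : k[X]} {d : ℕ} (ha : a.degree < d) (hb : b.natDegree ≤ d) :
    (a * b).degree < (2 * d : ℕ) := by
  rw [mul_comm]
  exact degree_mul_lt ha (by omega)

theorem big_of_mem (p : ℕ) [CharP k p] {e d : ℕ} {x : k[X] × k[X]} (hx : x ∈ Fr k (p * e) d) :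
    p * e < 2 * x.1.natDegree := by
  obtain ⟨M, b⟩ := x
  simp only [Fr, Finset.mem_filter, Finset.mem_product, mem_Mo] at hx
  obtain ⟨⟨⟨hM, -⟩, -⟩, hs, hc, h0, hb, hd⟩ := hx
  change p * e < 2 * M.natDegree
  set r := (X ^ (p * e) * b) %ₘ M with hr
  set Q := (X ^ (p * e) * b) /ₘ M with hQ
  have h1 : r + M * Q = X ^ (p * e) * b := modByMonic_add_div _ _
  have hX : derivative (X ^ (p * e) : k[X]) = 0 := by
    rw [derivative_X_pow, Nat.cast_mul, CharP.cast_eq_zero, zero_mul, C_0, zero_mul]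
  have h2 := congrArg derivative h1
  rw [derivative_add, derivative_mul, derivative_mul, hd, hX] at h2
  have h3 : X ^ (p * e) * (derivative b * M - b * derivative M) =
      derivative r * M - r * derivative M := by
    linear_combination derivative M * h1 - M * h2
  have hrd : r.degree < M.natDegree := by
    have := degree_modByMonic_lt (X ^ (p * e) * b) hM
    rwa [degree_eq_natDegree hM.ne_zero] at this
  have h4 : (derivative r * M - r * derivative M).degree < (2 * M.natDegree : ℕ) :=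
    (degree_sub_le _ _).trans_lt (max_lt
      (deg_mul_lt (degree_derivative_le.trans_lt hrd) le_rfl)
      (deg_mul_lt hrd ((natDegree_derivative_le M).trans (Nat.sub_le _ _))))
  have h5 := lt_of_dvd_pow h3 h4
  by_contra h6
  rw [show 2 * M.natDegree - p * e = 0 by omega] at h5
  have h7 : derivative b * M - b * derivative M = 0 := by
    by_contra h8
    have := natDegree_lt_of_degree h8 h5
    omega
  have h8 : M ∣ derivative M :=
    hc.symm.dvd_of_dvd_mul_left ⟨derivative b, by linear_combination -h7⟩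
  have h9 : IsUnit M :=
    (PerfectField.separable_iff_squarefree.2 hs).isUnit_of_dvd' dvd_rfl h8
  rw [degree_eq_zero_of_isUnit h9] at hb
  exact absurd hb (not_lt.2 (zero_le_degree_iff.2 h0))

theorem card_Fr (p : ℕ) [CharP k p] (hp : p ≠ 0) (e d j : ℕ) :
    (((Fr k (p * e) d).filter fun x => x.1.natDegree = j).card : ℝ) ≤
      qR k ^ (2 * j - p * e) * qR k ^ e := by
  have h1 : ((Fr k (p * e) d).filter fun x => x.1.natDegree = j).card ≤
      (Pn k (2 * j - p * e)).card * ((Pn k e).image (expand k p)).card := by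
    refine Finset.card_le_mul_card_image_of_maps_to
      (f := fun x : k[X] × k[X] => (X ^ (p * e) * x.2) /ₘ x.1) ?_ _ ?_
    · rintro ⟨M, b⟩ hx
      simp only [Fr, Finset.mem_filter, Finset.mem_product, mem_Mo] at hx
      obtain ⟨⟨⟨⟨hM, -⟩, -⟩, -, -, -, hb, hd⟩, -⟩ := hx
      refine Finset.mem_image.2 ⟨_, mem_Pn.2 ?_, expand_contract p hd hp⟩
      rw [degree_lt_iff_coeff_zero]
      intro m hm
      rw [coeff_contract hp]
      refine coeff_eq_zero_of_degree_lt ((degree_div_lt hM hb _).trans_le ?_)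
      rw [mul_comm m p]
      exact_mod_cast Nat.mul_le_mul_left p hm
    · intro Q _
      set s := ((Fr k (p * e) d).filter fun x => x.1.natDegree = j).filter
        fun x => (X ^ (p * e) * x.2) /ₘ x.1 = Q with hs
      have hmem : ∀ x ∈ s, x.1.Monic ∧ x.1.natDegree = j ∧ IsCoprime x.2 x.1 ∧
          ∃ r : k[X], r.degree < j ∧ r + x.1 * Q = X ^ (p * e) * x.2 := by
        rintro ⟨M, b⟩ hx
        simp only [hs, Fr, Finset.mem_filter, Finset.mem_product, mem_Mo] at hx
        obtain ⟨⟨⟨⟨⟨hM, -⟩, -⟩, -, hc, -, -, -⟩, hj⟩, hQ⟩ := hx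
        refine ⟨hM, hj, hc, (X ^ (p * e) * b) %ₘ M, ?_, hQ ▸ modByMonic_add_div _ _⟩
        have := degree_modByMonic_lt (X ^ (p * e) * b) hM
        rwa [degree_eq_natDegree hM.ne_zero, hj] at this
      rcases s.eq_empty_or_nonempty with h | ⟨x₀, hx₀⟩
      · rw [h]
        exact Nat.zero_le _
      obtain ⟨hM₀, hj₀, hc₀, r₀, hr₀, he₀⟩ := hmem x₀ hx₀
      refine Finset.card_le_card_of_injOn (fun x => x₀.2 * x.1 - x.2 * x₀.1) ?_ ?_
      · intro x hx
        obtain ⟨-, hj, -, r, hr, he⟩ := hmem x hx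
        refine Finset.mem_coe.2 (mem_Pn.2 (lt_of_dvd_pow (b := r₀ * x.1 - r * x₀.1) ?_ ?_))
        · linear_combination x₀.1 * he - x.1 * he₀
        · exact (degree_sub_le _ _).trans_lt (max_lt (deg_mul_lt hr₀ hj.le) (deg_mul_lt hr hj₀.le))
      · intro x hx y hy hxy
        obtain ⟨hM, hj, -⟩ := hmem x hx
        obtain ⟨hM', hj', -⟩ := hmem y hy
        have hxy : x₀.2 * x.1 - x.2 * x₀.1 = x₀.2 * y.1 - y.2 * x₀.1 := hxy
        have h2 : x₀.1 ∣ x.1 - y.1 :=
          hc₀.symm.dvd_of_dvd_mul_left ⟨x.2 - y.2, by linear_combination hxy⟩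
        have h3 : x.1 - y.1 = 0 := by
          refine eq_zero_of_dvd_of_degree_lt h2 ?_
          have h4 := degree_sub_lt_left (p := x.1) (q := y.1)
            (by rw [degree_eq_natDegree hM.ne_zero, degree_eq_natDegree hM'.ne_zero, hj, hj'])
            hM.ne_zero (by rw [hM.leadingCoeff, hM'.leadingCoeff])
          rwa [degree_eq_natDegree hM.ne_zero, hj, ← hj₀, ← degree_eq_natDegree hM₀.ne_zero] at h4
        have h5 : x.1 = y.1 := sub_eq_zero.1 h3
        refine Prod.ext h5 (mul_right_cancel₀ hM₀.ne_zero ?_)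
        rw [h5] at hxy
        linear_combination -hxy
  rw [← card_Pn, ← card_Pn]
  exact_mod_cast h1.trans (Nat.mul_le_mul_left _ Finset.card_image_le)

theorem sum_Fr (p : ℕ) [CharP k p] (hp : p ≠ 0) (e d : ℕ) :
    ∑ x ∈ Fr k (p * e) d, 1 / Nm x.1 ≤ (d + 1) * (qR k ^ d / qR k ^ ((p - 1) * e)) := by
  have hq := qR_pos (k := k)
  rw [← Finset.sum_fiberwise_of_maps_to (s := Fr k (p * e) d)
    (g := fun x : k[X] × k[X] => x.1.natDegree) (t := Finset.range (d + 1)) fun x hx => Finset.mem_range.2 (Nat.lt_succ_of_le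
      (mem_Mo.1 (Finset.mem_product.1 (Finset.mem_filter.1 hx).1).1).2)]
  refine (Finset.sum_le_card_nsmul _ _ (qR k ^ d / qR k ^ ((p - 1) * e)) fun j hj => ?_).trans
    (by simp)
  rw [Finset.sum_congr rfl (g := fun _ => 1 / qR k ^ j) fun x hx => by
    rw [Nm, (Finset.mem_filter.1 hx).2], Finset.sum_const, nsmul_eq_mul]
  rcases ((Fr k (p * e) d).filter fun x => x.1.natDegree = j).eq_empty_or_nonempty with h | ⟨x, hx⟩
  · rw [h]
    simp only [Finset.card_empty, Nat.cast_zero, zero_mul]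
    positivity
  have h1 := big_of_mem p (Finset.mem_filter.1 hx).1
  rw [(Finset.mem_filter.1 hx).2] at h1
  refine (mul_le_mul_of_nonneg_right (card_Fr p hp e d j) (by positivity)).trans ?_
  rw [mul_one_div, div_le_div_iff₀ (by positivity) (by positivity), ← pow_add, ← pow_add,
    ← pow_add]
  refine pow_le_pow_right₀ one_le_qR ?_
  have h2 := Finset.mem_range.1 hj
  obtain ⟨p', rfl⟩ := Nat.exists_eq_succ_of_ne_zero hp
  simp only [Nat.succ_sub_one, Nat.succ_mul] at h1 ⊢
  omega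

theorem sum_Mo (z : ℕ) : ∑ g ∈ Mo k z, 1 / Nm g = z + 1 := by
  rw [← Finset.sum_fiberwise_of_maps_to (g := natDegree) (t := Finset.range (z + 1))
    fun g hg => Finset.mem_range.2 (Nat.lt_succ_of_le (mem_Mo.1 hg).2)]
  rw [Finset.sum_congr rfl (g := fun _ => (1 : ℝ)) fun n hn => ?_]
  · simp
  · rw [Finset.sum_congr rfl (g := fun _ => 1 / qR k ^ n) fun g hg => by
      rw [Nm, (Finset.mem_filter.1 hg).2], Finset.sum_const, nsmul_eq_mul,
      card_MD z n (Nat.le_of_lt_succ (Finset.mem_range.1 hn)),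
      mul_one_div_cancel (pow_pos qR_pos n).ne']

/-- All fractions with squarefree denominator. -/
theorem sum_frac (p : ℕ) [CharP k p] (hp : p ≠ 0) (e d : ℕ) (T : Finset (k[X] × k[X]))
    (hT : ∀ x ∈ T, x.1.Monic ∧ Squarefree x.1 ∧ x.1.natDegree ≤ d ∧ x.2 ≠ 0 ∧
      x.2.degree < x.1.degree ∧ derivative ((X ^ (p * e) * x.2) /ₘ x.1) = 0) :
    ∑ x ∈ T, 1 / Nm x.1 ≤ (d + 1) ^ 2 * (qR k ^ d / qR k ^ ((p - 1) * e)) := by
  have hq := qR_pos (k := k)
  have hN : ∀ M : k[X], 0 ≤ 1 / Nm M := fun M => by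
    unfold Nm
    positivity
  have hsub : T ⊆ (Mo k d ×ˢ Fr k (p * e) d).image
      fun y : k[X] × k[X] × k[X] => (y.1 * y.2.1, y.1 * y.2.2) := by
    rintro ⟨M, b⟩ hx
    obtain ⟨hM, hs, hd, h0, hb, hder⟩ := hT _ hx
    simp only at hM hs hd h0 hb hder
    obtain ⟨b₁, M₁, g, hc, hb₁, hM₁⟩ : ∃ b₁ M₁ g : k[X], IsCoprime b₁ M₁ ∧ b = g * b₁ ∧
        M = g * M₁ ∧ g.Monic := by
      obtain ⟨b₁, M₁, h1, h2, h3⟩ := extract_gcd b M
      have hg0 : gcd b M ≠ 0 := fun h => hM.ne_zero ((gcd_eq_zero_iff _ _).1 h).2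
      refine ⟨b₁, M₁, gcd b M, (gcd_isUnit_iff _ _).1 h3, h1, h2, ?_⟩
      rw [← normalize_gcd]
      exact monic_normalize hg0
    obtain ⟨hM₁, hg⟩ := hM₁
    have hm₁ : M₁.Monic := hg.of_mul_monic_left (hM₁ ▸ hM)
    have hdeg : M.natDegree = g.natDegree + M₁.natDegree := by rw [hM₁, hg.natDegree_mul hm₁]
    have hb0 : b₁ ≠ 0 := fun h => h0 (by rw [hb₁, h, mul_zero])
    have hlt : b₁.degree < M₁.degree := by
      rw [hb₁, hM₁, degree_mul, degree_mul] at hb
      exact (WithBot.add_lt_add_iff_left (degree_ne_bot.2 hg.ne_zero)).1 hb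
    have hdiv : (X ^ (p * e) * b) /ₘ M = (X ^ (p * e) * b₁) /ₘ M₁ := by
      refine div_eq (r := g * ((X ^ (p * e) * b₁) %ₘ M₁)) hM ?_ ?_
      · rw [hb₁, hM₁]
        linear_combination g * modByMonic_add_div (X ^ (p * e) * b₁) M₁
      · rw [hM₁, degree_mul, degree_mul]
        exact WithBot.add_lt_add_left (degree_ne_bot.2 hg.ne_zero) (degree_modByMonic_lt _ hm₁)
    refine Finset.mem_image.2 ⟨(g, M₁, b₁), Finset.mem_product.2 ⟨mem_Mo.2 ⟨hg, ?_⟩, ?_⟩,
      Prod.ext hM₁.symm hb₁.symm⟩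
    · change g.natDegree ≤ d
      omega
    · refine Finset.mem_filter.2 ⟨Finset.mem_product.2 ⟨mem_Mo.2 ⟨hm₁, ?_⟩, mem_Pn.2 ?_⟩,
        Squarefree.of_mul_right (hM₁ ▸ hs), hc, hb0, hlt, hdiv ▸ hder⟩
      · change M₁.natDegree ≤ d
        omega
      · refine hlt.trans_le ?_
        rw [degree_eq_natDegree hm₁.ne_zero]
        exact_mod_cast (by omega : M₁.natDegree ≤ d)
  refine (Finset.sum_le_sum_of_subset_of_nonneg hsub fun x _ _ => hN _).trans ?_
  refine (Finset.sum_image_le_of_nonneg fun x _ => hN _).trans ?_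
  rw [Finset.sum_product]
  have h1 : ∀ g ∈ Mo k d, ∑ y ∈ Fr k (p * e) d, 1 / Nm (g * y.1) =
      1 / Nm g * ∑ y ∈ Fr k (p * e) d, 1 / Nm y.1 := by
    intro g hg
    rw [Finset.mul_sum]
    refine Finset.sum_congr rfl fun y hy => ?_
    have hy1 := (mem_Mo.1 (Finset.mem_product.1 (Finset.mem_filter.1 hy).1).1).1
    rw [Nm, Nm, Nm, (mem_Mo.1 hg).1.natDegree_mul hy1, pow_add, one_div_mul_one_div]
  rw [Finset.sum_congr rfl h1, ← Finset.sum_mul, sum_Mo, sq, mul_assoc]
  exact mul_le_mul_of_nonneg_left (sum_Fr p hp e d) (by positivity)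

/-- The linear map `v ↦ w * (u v' - u' v)`. -/
noncomputable def wr (u w : k[X]) : k[X] →ₗ[k] k[X] :=
  LinearMap.mulLeft k w ∘ₗ
    (LinearMap.mulLeft k u ∘ₗ derivative - LinearMap.mulLeft k (derivative u))

omit [Fintype k] in
theorem wr_apply (u w v : k[X]) : wr u w v = w * (u * derivative v - derivative u * v) := rfl

/-- The level lemma, for an arbitrary constant term `c` and multiplier `w`. -/
theorem level' (p : ℕ) [CharP k p] (hp : p ≠ 0) (u w c : k[X]) (E e d : ℕ)
    (hE : u.natDegree + p * e < E) (S : Finset k[X])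
    (hS : ∀ M ∈ S, M.Monic ∧ Squarefree M ∧ IsCoprime M (u * w) ∧ M.natDegree ≤ d) :
    ∑ M ∈ S, |avg E (fun v =>
        if M ∣ c + w * (u * derivative v - derivative u * v) then 1 else 0) - 1 / Nm M| ≤
      (d + 1) ^ 2 * (qR k ^ d / qR k ^ ((p - 1) * e)) := by
  set B : k[X] → Finset k[X] := fun M => (Pn k M.natDegree).filter fun b =>
    b ≠ 0 ∧ derivative ((X ^ (p * e) * b) /ₘ M) = 0 with hB
  have h1 : ∀ M ∈ S, |avg E (fun v =>
      if M ∣ c + w * (u * derivative v - derivative u * v) then 1 else 0) - 1 / Nm M| ≤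
      ∑ _b ∈ B M, 1 / Nm M := by
    intro M hMS
    obtain ⟨hM, -, hc, -⟩ := hS M hMS
    refine (equi hM E (wr u w) c (res M hM) (res_mul hM)).trans ?_
    rw [Finset.sum_const, nsmul_eq_mul, mul_one_div]
    refine div_le_div_of_nonneg_right ?_ (pow_pos qR_pos _).le
    have hc2 : IsCoprime M (w * u ^ 2) :=
      hc.of_mul_right_right.mul_right hc.of_mul_right_left.pow_right
    have hinj : ∀ b : k[X], b.degree < M.natDegree → M ∣ b * (w * u ^ 2) → b = 0 := fun b hb h =>
      eq_zero_of_dvd_of_degree_lt (hc2.dvd_of_dvd_mul_right h)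
        (by rwa [degree_eq_natDegree hM.ne_zero])
    refine Nat.cast_le.2 (Finset.card_le_card_of_injOn (fun b => (b * (w * u ^ 2)) %ₘ M) ?_ ?_)
    · intro b hb
      rw [Finset.mem_coe, Finset.mem_filter, mem_Pn] at hb
      obtain ⟨hb1, hb0, hb2⟩ := hb
      have hd := degree_modByMonic_lt (b * (w * u ^ 2)) hM
      refine Finset.mem_coe.2 (Finset.mem_filter.2 ⟨mem_Pn.2 ?_, fun h => hb0 ?_, ?_⟩)
      · rwa [degree_eq_natDegree hM.ne_zero] at hd
      · exact hinj b hb1 ((modByMonic_eq_zero_iff_dvd hM).1 h)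
      · refine deriv_div p hM hd e fun i hi => ?_
        have h2 := hb2 (u * X ^ (i + 1)) (degree_mul_lt (L := p * e + 1)
          (by rw [degree_X_pow]; exact_mod_cast (by omega : i + 1 < p * e + 1)) (by omega))
        have h3 : b * wr u w (u * X ^ (i + 1)) =
            (b * (w * u ^ 2)) %ₘ M * derivative (X ^ (i + 1)) +
              M * ((b * (w * u ^ 2)) /ₘ M * derivative (X ^ (i + 1))) := by
          rw [wr_apply, derivative_mul]
          linear_combination
            -derivative (X ^ (i + 1)) * modByMonic_add_div (b * (w * u ^ 2)) M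
        rwa [h3, map_add, res_mul, add_zero] at h2
    · intro b hb b' hb' h
      rw [Finset.mem_coe, Finset.mem_filter, mem_Pn] at hb hb'
      refine sub_eq_zero.1 (hinj _ ((degree_sub_le _ _).trans_lt (max_lt hb.1 hb'.1)) ?_)
      have h : (b * (w * u ^ 2)) %ₘ M = (b' * (w * u ^ 2)) %ₘ M := h
      rw [← modByMonic_eq_zero_iff_dvd hM, sub_mul, sub_modByMonic, h, sub_self]
  refine (Finset.sum_le_sum h1).trans ?_
  rw [Finset.sum_sigma']
  have h2 := sum_frac p hp e d ((S.sigma B).image fun x => (x.1, x.2)) (by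
    intro x hx
    obtain ⟨⟨M, b⟩, hy, rfl⟩ := Finset.mem_image.1 hx
    obtain ⟨hMS, hb⟩ := Finset.mem_sigma.1 hy
    obtain ⟨hM, hs, -, hd⟩ := hS M hMS
    simp only [hB, Finset.mem_filter, mem_Pn] at hb
    exact ⟨hM, hs, hd, hb.2.1, by rw [degree_eq_natDegree hM.ne_zero]; exact hb.1, hb.2.2⟩)
  rwa [Finset.sum_image (by
    rintro ⟨a, b⟩ _ ⟨a', b'⟩ _ h
    obtain ⟨rfl, rfl⟩ := Prod.mk.inj h
    rfl)] at h2

/-- The level lemma on the cell `y₀ + R ^ p * v`. -/
theorem level (p : ℕ) [CharP k p] (hp : p ≠ 0) (u R y₀ : k[X]) (E e d : ℕ)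
    (hE : u.natDegree + p * e < E) (S : Finset k[X])
    (hS : ∀ M ∈ S, M.Monic ∧ Squarefree M ∧ IsCoprime M (u * R) ∧ M.natDegree ≤ d) :
    ∑ M ∈ S, |avg E (fun v => if M ∣ u * derivative (y₀ + R ^ p * v) -
        derivative u * (y₀ + R ^ p * v) then 1 else 0) - 1 / Nm M| ≤
      (d + 1) ^ 2 * (qR k ^ d / qR k ^ ((p - 1) * e)) := by
  have h := level' p hp u (R ^ p) (u * derivative y₀ - derivative u * y₀) E e d hE S
    fun M hM => by
      obtain ⟨h1, h2, h3, h4⟩ := hS M hM
      exact ⟨h1, h2, h3.of_mul_right_left.mul_right h3.of_mul_right_right.pow_right, h4⟩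
  have hR : derivative (R ^ p) = 0 := by
    rw [derivative_pow, CharP.cast_eq_zero, C_0, zero_mul, zero_mul]
  have e1 : ∀ v, u * derivative (y₀ + R ^ p * v) - derivative u * (y₀ + R ^ p * v) =
      u * derivative y₀ - derivative u * y₀ + R ^ p * (u * derivative v - derivative u * v) := by
    intro v
    rw [derivative_add, derivative_mul, hR]
    ring
  simpa only [e1] using h

end Pool.Agent.Lib.MP_232f4c_nt.Lev
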