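import Pool.Agent.Lib.MP_232f4c_nt.OdDefs
import Pool.Agent.Lib.MP_232f4c_nt.OddLevel

/-! The size of the weight, and the covering by good lines. -/

namespace Pool.Agent.Lib.MP_232f4c_nt.Od

open Polynomial Pool.Agent.Lib.MP_9227d9_nt.Mob Filter Topology

open scoped Classical

namespace OdCov

variable {k : Type} [Field k] [Fintype k]

theorem four_le_rr {p : ℕ} (hp : 3 ≤ p) : 4 ≤ rr p := by
  unfold rr
  omega

theorem le_aa {p γ : ℕ} (hp : 3 ≤ p) (i : ℕ) : 3 * γ ≤ aa p γ i := by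
  have h := four_le_rr hp
  unfold aa
  refine Nat.mul_le_mul_right _ ?_
  have : rr p + 3 ≤ 5 * rr p ^ 2 := by nlinarith
  omega

theorem aa_add_le {p γ i j : ℕ} (hi : i + j < rr p) :
    aa p γ i + γ + j * γ ≤ 5 * rr p ^ 2 * γ := by
  unfold aa
  have : rr p ≤ 5 * rr p ^ 2 := by nlinarith
  calc (5 * rr p ^ 2 - rr p + i) * γ + γ + j * γ = (5 * rr p ^ 2 - rr p + i + 1 + j) * γ := by ring
    _ ≤ _ := Nat.mul_le_mul_right _ (by omega)

theorem win_le {p γ i j d : ℕ} (h1 : aa p γ i ≤ d) (h2 : d < aa p γ j + γ) : i ≤ j := by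
  unfold aa at h1 h2
  have h3 : (5 * rr p ^ 2 - rr p + i) * γ < (5 * rr p ^ 2 - rr p + j + 1) * γ := by
    rw [add_mul _ 1 γ, one_mul]
    exact h1.trans_lt h2
  have := Nat.lt_of_mul_lt_mul_right h3
  omega

theorem sum_PrW (a g : ℕ) (f : k[X] → ℝ) :
    ∑ P ∈ PrW k a g, f P = ∑ d ∈ Finset.Ico a (a + g), ∑ P ∈ PrD k d, f P := by
  rw [← Finset.sum_fiberwise_of_maps_to (g := natDegree) (t := Finset.Ico a (a + g))
    fun P hP => Finset.mem_Ico.2 (mem_PrW.1 hP).2]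
  refine Finset.sum_congr rfl fun d hd => Finset.sum_congr ?_ fun _ _ => rfl
  ext P
  rw [Finset.mem_filter, mem_PrW, mem_PrD]
  have := Finset.mem_Ico.1 hd
  exact ⟨fun h => ⟨h.1.1, h.2⟩, fun h => ⟨⟨h.1, h.2 ▸ this⟩, h.2⟩⟩

theorem win_ge {a g B : ℕ} (ha : 3 ≤ a) (hB : a + g ≤ B) :
    (g : ℝ) / (2 * B) ≤ ∑ P ∈ PrW k a g, 1 / Nm P := by
  rw [sum_PrW]
  have h : ∀ d ∈ Finset.Ico a (a + g), 1 / (2 * (B : ℝ)) ≤ ∑ P ∈ PrD k d, 1 / Nm P := by
    intro d hd
    have hd' := Finset.mem_Ico.1 hd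
    rw [Finset.sum_congr rfl (g := fun _ => 1 / qR k ^ d) fun P hP => by
      rw [Nm, (mem_PrD.1 hP).2], Finset.sum_const, nsmul_eq_mul, mul_one_div]
    have h1 := le_card_PrD (k := k) (d := d) (by omega)
    have h2 : (d : ℝ) ≤ B := by exact_mod_cast (by omega : d ≤ B)
    have h3 : (0 : ℝ) < B := by exact_mod_cast (by omega : 0 < B)
    have h4 : (0 : ℝ) ≤ (PrD k d).card := Nat.cast_nonneg _
    rw [div_le_div_iff₀ (by positivity) (qR_pow_pos d)]
    nlinarith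
  have := Finset.card_nsmul_le_sum _ _ _ h
  rwa [Nat.card_Ico, Nat.add_sub_cancel_left, nsmul_eq_mul, mul_one_div] at this

theorem count_le {a g c γ : ℕ} {W : k[X]} (hγ : 1 ≤ γ) (ha : γ ≤ a) (hW : W ≠ 0)
    (hd : W.natDegree ≤ c * γ) :
    (∑ P ∈ PrW k a g, if P ∣ W then (1 : ℝ) else 0) ≤ c := by
  rw [Finset.sum_boole]
  have h1 : ((PrW k a g).filter fun P => P ∣ W).card * γ ≤ c * γ := by
    refine le_trans ?_ ((sum_natDegree_pf_le hW).trans hd)
    refine le_trans ?_ (Finset.sum_le_sum_of_subset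
      (s := (PrW k a g).filter fun P => P ∣ W) fun P hP => ?_)
    · have := Finset.card_nsmul_le_sum ((PrW k a g).filter fun P => P ∣ W) natDegree γ
        fun P hP => ha.trans (mem_PrW.1 (Finset.mem_filter.1 hP).1).2.1
      simpa using this
    · exact (mem_pf hW).2 ⟨(mem_PrW.1 (Finset.mem_filter.1 hP).1).1, (Finset.mem_filter.1 hP).2⟩
  exact_mod_cast Nat.le_of_mul_le_mul_right h1 hγ

theorem wt_nonneg (p γ : ℕ) (W : k[X]) : 0 ≤ wt p γ W :=
  Finset.prod_nonneg fun _ _ => Finset.sum_nonneg fun _ _ => by split_ifs <;> norm_num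

/-- The tuples of primes, one in each window. -/
noncomputable def TT (k : Type) [Field k] [Fintype k] (p γ : ℕ) : Finset (Fin (rr p) → k[X]) :=
  Fintype.piFinset fun i => PrW k (aa p γ i) γ

theorem mem_TT {p γ : ℕ} {t : Fin (rr p) → k[X]} (h : t ∈ TT k p γ) (i : Fin (rr p)) :
    IsP (t i) ∧ aa p γ i ≤ (t i).natDegree ∧ (t i).natDegree < aa p γ i + γ :=
  mem_PrW.1 (Fintype.mem_piFinset.1 h i)

theorem idx_eq {p γ : ℕ} {t t' : Fin (rr p) → k[X]} (h : t ∈ TT k p γ) (h' : t' ∈ TT k p γ)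
    {i j : Fin (rr p)} (e : t i = t' j) : i = j :=
  Fin.ext (le_antisymm (win_le (mem_TT h i).2.1 (e ▸ (mem_TT h' j).2.2))
    (win_le (mem_TT h' j).2.1 (e ▸ (mem_TT h i).2.2)))

theorem cop {p γ : ℕ} {t : Fin (rr p) → k[X]} (h : t ∈ TT k p γ) {i j : Fin (rr p)}
    (hij : i ≠ j) : IsCoprime (t i) (t j) :=
  (mem_TT h i).1.isCoprime (mem_TT h j).1 fun e => hij (idx_eq h h e)

theorem inj (p γ : ℕ) : Set.InjOn (fun t : Fin (rr p) → k[X] => ∏ i, t i) (TT k p γ) := by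
  intro t h t' h' e
  funext i
  have e' : ∏ i, t i = ∏ i, t' i := e
  have h1 : t i ∣ ∏ i, t' i := e' ▸ Finset.dvd_prod_of_mem _ (Finset.mem_univ i)
  obtain ⟨j, -, hj⟩ := (mem_TT h i).1.prime.dvd_finsetProd_iff _ |>.1 h1
  have h2 := (mem_TT h i).1.eq_of_dvd (mem_TT h' j).1 hj
  rw [h2, idx_eq h h' h2]

theorem monic_TT {p γ : ℕ} {t : Fin (rr p) → k[X]} (h : t ∈ TT k p γ) : (∏ i, t i).Monic :=
  monic_prod_of_monic _ _ fun i _ => (mem_TT h i).1.1

theorem deg_TT {p γ : ℕ} {t : Fin (rr p) → k[X]} (h : t ∈ TT k p γ) :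
    (∏ i, t i).natDegree = ∑ i, (t i).natDegree :=
  natDegree_prod_of_monic _ _ fun i _ => (mem_TT h i).1.1

theorem deg_TT_le {p γ : ℕ} (hp : 3 ≤ p) {t : Fin (rr p) → k[X]} (h : t ∈ TT k p γ) :
    (∏ i, t i).natDegree + γ ≤ 5 * rr p ^ 3 * γ := by
  have hr := four_le_rr hp
  let i0 : Fin (rr p) := ⟨0, by omega⟩
  have h1 : ∑ i, ((t i).natDegree + if i = i0 then γ else 0) ≤
      ∑ _i : Fin (rr p), 5 * rr p ^ 2 * γ := by
    refine Finset.sum_le_sum fun i _ => ?_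
    have h2 := (mem_TT h i).2.2
    split_ifs with hi
    · have := aa_add_le (p := p) (γ := γ) (i := i) (j := 1) (by rw [hi]; simp only [i0]; omega)
      omega
    · have := aa_add_le (p := p) (γ := γ) (i := i) (j := 0) i.2
      omega
  rw [Finset.sum_add_distrib, Finset.sum_ite_eq' _ i0, if_pos (Finset.mem_univ _),
    Finset.sum_const, Finset.card_univ, Fintype.card_fin, smul_eq_mul] at h1
  rw [deg_TT h]
  refine h1.trans_eq ?_
  ring

theorem sqf_TT {p γ : ℕ} {t : Fin (rr p) → k[X]} (h : t ∈ TT k p γ) : Squarefree (∏ i, t i) :=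
  Finset.squarefree_prod_of_pairwise_isCoprime (fun _ _ _ _ hne => (cop h hne).isRelPrime)
    fun i _ => (mem_TT h i).1.2.squarefree

theorem wt_eq (p γ : ℕ) (W : k[X]) :
    wt p γ W = ∑ t ∈ TT k p γ, if ∏ i, t i ∣ W then 1 else 0 := by
  rw [wt, Finset.prod_univ_sum]
  refine Finset.sum_congr rfl fun t h => ?_
  by_cases hd : ∏ i, t i ∣ W
  · rw [if_pos hd]
    exact Finset.prod_eq_one fun i hi => if_pos ((Finset.dvd_prod_of_mem _ hi).trans hd)
  · rw [if_neg hd]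
    by_contra hc
    refine hd (Finset.prod_dvd_of_coprime (fun _ _ _ _ hne => cop h hne) fun i hi => ?_)
    by_contra hi'
    exact hc (Finset.prod_eq_zero hi (if_neg hi'))

theorem rh_eq (p γ : ℕ) : rh k p γ = ∑ t ∈ TT k p γ, 1 / Nm (∏ i, t i) := by
  rw [rh, Finset.prod_univ_sum]
  refine Finset.sum_congr rfl fun t h => ?_
  rw [Nm, deg_TT h, ← Finset.prod_pow_eq_pow_sum, Finset.prod_div_distrib, Finset.prod_const_one]
  rfl

omit [Fintype k] in
theorem wr_ne {nu n : ℕ} {u y : k[X]} (hu : MD nu u) (hy : MD n y) (h1 : 1 ≤ nu) (h2 : 1 ≤ n)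
    (h : (n : k) ≠ (nu : k)) : wronskian u y ≠ 0 := by
  obtain ⟨a, rfl⟩ : ∃ a, nu = a + 1 := ⟨nu - 1, by omega⟩
  obtain ⟨b, rfl⟩ : ∃ b, n = b + 1 := ⟨n - 1, by omega⟩
  have c1 : u.coeff (a + 1) = 1 := by rw [← hu.2]; exact hu.1
  have c2 : y.coeff (b + 1) = 1 := by rw [← hy.2]; exact hy.1
  have d1 : (derivative u).natDegree ≤ a := (natDegree_derivative_le u).trans (by rw [hu.2]; omega)
  have d2 : (derivative y).natDegree ≤ b := (natDegree_derivative_le y).trans (by rw [hy.2]; omega)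
  intro h0
  have h3 := congrArg (fun f => coeff f (a + 1 + b)) h0
  simp only [wronskian, coeff_sub, coeff_zero] at h3
  rw [coeff_mul_add_eq_of_natDegree_le hu.2.le d2, show a + 1 + b = a + (b + 1) by ring,
    coeff_mul_add_eq_of_natDegree_le d1 hy.2.le, coeff_derivative, coeff_derivative, c1, c2] at h3
  apply h
  push_cast
  linear_combination h3

omit [Fintype k] in
theorem wr_line (p : ℕ) [CharP k p] (u G σ : k[X]) :
    wronskian u (G + u * σ ^ p) = wronskian u G := by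
  have : derivative (σ ^ p) = 0 := by
    rw [derivative_pow, CharP.cast_eq_zero, C_0, zero_mul, zero_mul]
  simp only [wronskian, derivative_add, derivative_mul, this]
  ring

theorem cell (p : ℕ) [CharP k p] (hp : 3 ≤ p)
    {γ e m d : ℕ} {u R : k[X]} (y : k[X]) {K : ℝ} (hK : 0 < K) (hrh : 1 / K ≤ rh k p γ)
    (hu : u ≠ 0) (hR : R ≠ 0) (du : u.natDegree < γ) (dR : R.natDegree < γ)
    (hm : u.natDegree + p * e < m) (hd : 5 * rr p ^ 3 * γ ≤ d + γ) :
    |avg m fun v => wt p γ (wronskian u (y + R ^ p * v)) / rh k p γ - 1| ≤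
      K * (((d : ℝ) + 1) ^ 2 * qR k ^ d / qR k ^ ((p - 1) * e)) := by
  have h0 : 0 < rh k p γ := lt_of_lt_of_le (by positivity) hrh
  have e1 : (avg m fun v => wt p γ (wronskian u (y + R ^ p * v)) / rh k p γ - 1) =
      (∑ t ∈ TT k p γ, (avg m (fun v => if ∏ i, t i ∣ wronskian u (y + R ^ p * v) then 1 else 0) -
        1 / Nm (∏ i, t i))) / rh k p γ := by
    rw [Finset.sum_sub_distrib, ← rh_eq, ← avg_sum, avg_sub, avg_const, sub_div, div_self h0.ne']
    simp only [← wt_eq, div_eq_mul_inv, avg_mul_right]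
  have e2 : |∑ t ∈ TT k p γ,
      (avg m (fun v => if ∏ i, t i ∣ wronskian u (y + R ^ p * v) then 1 else 0) -
        1 / Nm (∏ i, t i))| ≤ ((d : ℝ) + 1) ^ 2 * qR k ^ d / qR k ^ ((p - 1) * e) := by
    refine (Finset.abs_sum_le_sum_abs _ _).trans ?_
    rw [← Finset.sum_image (f := fun M : k[X] =>
      |avg m (fun v => if M ∣ wronskian u (y + R ^ p * v) then 1 else 0) - 1 / Nm M|) (inj p γ),
      mul_div_assoc]
    refine Lev.level p (by omega) u R y m e d hm _ fun M hM => ?_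
    obtain ⟨t, h, rfl⟩ := Finset.mem_image.1 hM
    have := deg_TT_le hp h
    refine ⟨monic_TT h, sqf_TT h, IsCoprime.prod_left fun i _ => ?_, by omega⟩
    have h3 := mem_TT h i
    have h4 := le_aa (γ := γ) hp i
    exact (h3.1.isCoprime_iff.2 (h3.1.not_dvd_of_lt hu (by omega))).symm.mul_right
      (h3.1.isCoprime_iff.2 (h3.1.not_dvd_of_lt hR (by omega))).symm
  rw [e1, abs_div, abs_of_pos h0, div_le_iff₀ h0]
  refine e2.trans ?_
  have h5 : 1 ≤ K * rh k p γ := by rwa [div_le_iff₀ hK, mul_comm] at hrh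
  have h6 : 0 ≤ ((d : ℝ) + 1) ^ 2 * qR k ^ d / qR k ^ ((p - 1) * e) :=
    div_nonneg (mul_nonneg (by positivity) (qR_pow_pos d).le) (qR_pow_pos _).le
  nlinarith

theorem small (A c : ℕ) {ε : ℝ} (hε : 0 < ε) :
    ∃ γ₀ : ℕ, ∀ γ, γ₀ ≤ γ → ((A : ℝ) * γ) ^ 2 * qR k ^ c / qR k ^ γ ≤ ε := by
  have h := (tendsto_pow_const_div_const_pow_of_one_lt 2
    (lt_of_lt_of_le one_lt_two (two_le_qR (k := k)))).const_mul ((A : ℝ) ^ 2 * qR k ^ c)
  rw [mul_zero] at h
  obtain ⟨γ₀, h0⟩ := eventually_atTop.1 (h.eventually (ge_mem_nhds hε))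
  refine ⟨γ₀, fun γ hγ => le_of_eq_of_le ?_ (h0 γ hγ)⟩
  ring

end OdCov

open OdCov

theorem stWt : StWt := by
  intro k _ _ p hp
  have hr := four_le_rr hp
  have hr' : (4 : ℝ) ≤ rr p := by exact_mod_cast hr
  set c : ℕ := 10 * p * rr p ^ 2 + 1 with hc
  have hc1 : (1 : ℝ) ≤ c := by exact_mod_cast (by omega : 1 ≤ c)
  have hA : (1 : ℝ) ≤ 10 * (rr p : ℝ) ^ 2 := by nlinarith
  refine ⟨(c : ℝ) ^ rr p * (10 * (rr p : ℝ) ^ 2) ^ rr p,
    one_le_mul_of_one_le_of_one_le (one_le_pow₀ hc1) (one_le_pow₀ hA), fun γ hγ => ?_⟩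
  have hγ' : (0 : ℝ) < γ := by exact_mod_cast hγ
  have h1 : 1 / (10 * (rr p : ℝ) ^ 2) ^ rr p ≤ rh k p γ := by
    have : ∏ _i : Fin (rr p), 1 / (10 * (rr p : ℝ) ^ 2) ≤ rh k p γ := by
      refine Finset.prod_le_prod (fun _ _ => by positivity) fun i _ => ?_
      have h2 := le_aa (γ := γ) hp i
      have h3 := aa_add_le (p := p) (γ := γ) (i := i) (j := 0) i.2
      refine le_of_eq_of_le ?_ (win_ge (B := 5 * rr p ^ 2 * γ) (by omega) (by omega))
      push_cast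
      field_simp
      ring
    rwa [Finset.prod_const, Finset.card_univ, Fintype.card_fin, div_pow, one_pow] at this
  have h0 : 0 < rh k p γ := lt_of_lt_of_le (by positivity) h1
  refine ⟨le_trans (one_div_le_one_div_of_le (by positivity) ?_) h1, fun W hW hd => ?_⟩
  · exact le_mul_of_one_le_left (by positivity) (one_le_pow₀ hc1)
  refine ⟨div_nonneg (wt_nonneg _ _ _) h0.le, ?_⟩
  have h2 : wt p γ W ≤ (c : ℝ) ^ rr p := by
    have : wt p γ W ≤ ∏ _i : Fin (rr p), (c : ℝ) := by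
      refine Finset.prod_le_prod (fun _ _ => Finset.sum_nonneg fun _ _ => ?_) fun i _ => ?_
      · split_ifs <;> norm_num
      · have h2 := le_aa (γ := γ) hp i
        refine count_le hγ (by omega) hW (hd.trans_eq ?_)
        rw [hc, LL]
        ring
    rwa [Finset.prod_const, Finset.card_univ, Fintype.card_fin] at this
  rw [div_le_iff₀ h0]
  rw [div_le_iff₀ (by positivity)] at h1
  have h3 : (0 : ℝ) ≤ (c : ℝ) ^ rr p := by positivity
  nlinarith

theorem stCov (h3 : StD) : StCov := by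
  intro k _ _ p hpp _ hp2
  have hp : 3 ≤ p := by
    have := hpp.out.two_le
    omega
  have hr := four_le_rr hp
  obtain ⟨K, hK, hW⟩ := stWt k p hp
  refine ⟨K, hK, fun nu z ε hz hnu hε => ?_⟩
  have hK0 : 0 < K := lt_of_lt_of_le one_pos hK
  have hs : 0 < √(qR k ^ z) := Real.sqrt_pos.2 (qR_pow_pos z)
  obtain ⟨γ₁, hγ₁⟩ := small (k := k) (5 * rr p ^ 3) ((p - 1) * (2 * z + 1))
    (ε := ε / (K * √(qR k ^ z)) / K) (by positivity)
  refine ⟨max γ₁ (nu + 1), fun γ hγ n hn1 hn2 hne => ?_⟩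
  have g1 : γ₁ ≤ γ := (le_max_left _ _).trans hγ
  have g2 : nu + 1 ≤ γ := (le_max_right _ _).trans hγ
  have hz2 : 3 * z ≤ nu := (Nat.mul_le_mul_right z hp).trans hnu
  have hL : γ ≤ LL p γ := by
    unfold LL
    exact Nat.le_mul_of_pos_left _ (by positivity)
  obtain ⟨hrh, hW⟩ := hW γ (by omega)
  have hA : ∀ u y : k[X], MD nu u → MD n y → wronskian u y ≠ 0 ∧
      (wronskian u y).natDegree ≤ p * LL p γ + γ ∧ 0 ≤ wt p γ (wronskian u y) / rh k p γ ∧
      wt p γ (wronskian u y) / rh k p γ ≤ K := by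
    intro u y hu hy
    have a1 := wr_ne hu hy (by omega) (by omega) hne
    have a2 := natDegree_wronskian_lt_add a1
    rw [hu.2, hy.2] at a2
    have a3 : (wronskian u y).natDegree ≤ p * LL p γ + γ := by omega
    exact ⟨a1, a3, hW _ a1 a3⟩
  refine ⟨hA, ?_⟩
  have := h3 k p nu (LL p γ) z n
    (fun u y => if IsP u then wt p γ (wronskian u y) / rh k p γ - 1 else 0) K
    (ε / (K * √(qR k ^ z))) hz (by omega) hnu hn1 hK0.le (by positivity) ?_ ?_ ?_
  · refine this.trans_eq ?_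
    rw [mul_div_cancel₀ _ (by positivity)]
  · intro u G hu hG
    obtain ⟨-, -, a1, a2⟩ := hA u G hu hG
    split_ifs
    · rw [abs_le]
      constructor <;> linarith
    · simpa using hK0.le
  · intro u G σ
    simp only [wr_line]
  · intro R G₀ hR dR _
    refine abs_avm_le_of_le fun u hu => ?_
    by_cases hP : IsP u
    swap
    · simp only [if_neg hP, avg_const, abs_zero]
      positivity
    simp only [if_pos hP]
    obtain ⟨e, he⟩ : ∃ e, LL p γ = e + (2 * z + 1) := ⟨LL p γ - (2 * z + 1), by omega⟩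
    have hA1 : 1 ≤ 5 * rr p ^ 3 := Nat.succ_le_of_lt (by positivity)
    obtain ⟨d, hd⟩ : ∃ d, 5 * rr p ^ 3 * γ = d + γ :=
      ⟨5 * rr p ^ 3 * γ - γ, (Nat.sub_add_cancel (Nat.le_mul_of_pos_left _ hA1)).symm⟩
    have hm : u.natDegree + p * e < nu + p * (LL p γ - 2 * z) := by
      rw [hu.2, show LL p γ - 2 * z = e + 1 by omega, Nat.mul_succ]
      omega
    refine (cell p hp G₀ hK0 hrh hu.ne_zero hR.ne_zero (by rw [hu.2]; omega) (by omega) hm
      hd.le).trans ?_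
    have b1 : (p - 1) * e + (p - 1) * (2 * z + 1) = d + γ := by
      rw [← Nat.mul_add, ← he, ← hd, LL, rr]
      ring
    have b2 : qR k ^ d / qR k ^ ((p - 1) * e) = qR k ^ ((p - 1) * (2 * z + 1)) / qR k ^ γ := by
      rw [div_eq_div_iff (qR_pow_pos _).ne' (qR_pow_pos _).ne', ← pow_add, ← pow_add, ← b1,
        add_comm]
    have b3 : (d : ℝ) + 1 ≤ ((5 * rr p ^ 3 : ℕ) : ℝ) * γ := by
      exact_mod_cast (by omega : d + 1 ≤ 5 * rr p ^ 3 * γ)
    have b4 := hγ₁ γ g1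
    rw [le_div_iff₀ hK0, mul_div_assoc] at b4
    rw [mul_div_assoc, b2, mul_comm]
    refine le_trans (mul_le_mul_of_nonneg_right (mul_le_mul_of_nonneg_right
      (pow_le_pow_left₀ (by positivity) b3 2) ?_) hK0.le) b4
    exact div_nonneg (qR_pow_pos _).le (qR_pow_pos _).le

end Pool.Agent.Lib.MP_232f4c_nt.Od
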