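import Pool.Agent.Lib.MP_232f4c_nt.OdDefs

/-!
Concentration of a mean of functions that are constant on lines.
-/

namespace Pool.Agent.Lib.MP_232f4c_nt.Od

open Polynomial Pool.Agent.Lib.MP_9227d9_nt.Mob Filter Topology

open scoped Classical ComplexConjugate

namespace OdD

theorem bochner_fin {V : Type} [AddCommGroup V] [Fintype V] (f : V → ℝ) (h : V) :
    ∑ ψ : AddChar V ℂ, Complex.normSq (∑ g, f g * ψ g) * (ψ h).re =
      Fintype.card V * ∑ g, f g * f (g + h) := by
  have e1 : ∀ ψ : AddChar V ℂ, (Complex.normSq (∑ g, f g * ψ g) : ℂ) * ψ h =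
      ∑ g, ∑ g', ((f g * f g' : ℝ) : ℂ) * ψ (g + h + -g') := by
    intro ψ
    rw [← Complex.mul_conj, map_sum, Finset.sum_mul_sum, Finset.sum_mul]
    refine Finset.sum_congr rfl fun g _ => ?_
    rw [Finset.sum_mul]
    refine Finset.sum_congr rfl fun g' _ => ?_
    rw [AddChar.map_add_eq_mul, AddChar.map_add_eq_mul, AddChar.map_neg_eq_conj, map_mul,
      Complex.conj_ofReal]
    push_cast
    ring
  have e2 : ∑ ψ : AddChar V ℂ, (Complex.normSq (∑ g, f g * ψ g) : ℂ) * ψ h =
      ((Fintype.card V * ∑ g, f g * f (g + h) : ℝ) : ℂ) := by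
    simp_rw [e1]
    rw [Finset.sum_comm, Finset.mul_sum, Complex.ofReal_sum]
    refine Finset.sum_congr rfl fun g _ => ?_
    rw [Finset.sum_comm]
    simp_rw [← Finset.mul_sum, AddChar.sum_apply_eq_ite]
    rw [Finset.sum_eq_single (g + h)]
    · rw [if_pos (add_neg_cancel _)]
      push_cast
      ring
    · intro g' _ hg'
      rw [if_neg fun h0 => hg' (add_neg_eq_zero.1 h0).symm, mul_zero]
    · intro hg
      exact absurd (Finset.mem_univ _) hg
  have e3 := congrArg Complex.re e2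
  rw [Complex.re_sum, Complex.ofReal_re] at e3
  rw [← e3]
  exact Finset.sum_congr rfl fun ψ _ => (Complex.re_ofReal_mul _ _).symm

variable {k : Type} [Field k] [Fintype k]

/-- The autocorrelation of a function is a nonnegative combination of characters. -/
theorem bochner (n : ℕ) (f : k[X] → ℝ) :
    ∃ (ι : Type) (_ : Fintype ι) (ω : ι → AddChar k[X] ℂ) (a : ι → ℝ), (∀ i, 0 ≤ a i) ∧
      ∀ h : k[X], h.degree < n →
        avm n (fun G => f G * f (G + h)) = ∑ i, a i * (ω i h).re := by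
  have : Finite (degreeLT k n) := Finite.of_equiv _ (degreeLTEquiv k n).toEquiv.symm
  let _ : Fintype (degreeLT k n) := Fintype.ofFinite _
  obtain ⟨π, hπ⟩ := LinearMap.exists_leftInverse_of_injective (degreeLT k n).subtype
    (Submodule.ker_subtype _)
  have hmem : ∀ x : k[X], x ∈ Pn k n ↔ x ∈ degreeLT k n := fun x => by
    rw [mem_Pn, mem_degreeLT]
  have hcard : (Fintype.card (degreeLT k n) : ℝ) = qR k ^ n := by
    rw [← card_Pn, Fintype.card_of_subtype (Pn k n) hmem]
  have hq : (0 : ℝ) < qR k ^ n := pow_pos qR_pos n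
  refine ⟨AddChar (degreeLT k n) ℂ, inferInstance,
    fun ψ => ψ.compAddMonoidHom π.toAddMonoidHom,
    fun ψ => Complex.normSq (∑ g : degreeLT k n, f (X ^ n + g.1) * ψ g) / (qR k ^ n) ^ 2,
    fun ψ => div_nonneg (Complex.normSq_nonneg _) (sq_nonneg _), fun h hh => ?_⟩
  have hh' : h ∈ degreeLT k n := mem_degreeLT.mpr hh
  have hπh : π h = ⟨h, hh'⟩ := by
    have := LinearMap.congr_fun hπ ⟨h, hh'⟩
    simpa using this
  have key := bochner_fin (fun g : degreeLT k n => f (X ^ n + g.1)) ⟨h, hh'⟩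
  have e : ∀ ψ : AddChar (degreeLT k n) ℂ,
      Complex.normSq (∑ g : degreeLT k n, f (X ^ n + g.1) * ψ g) / (qR k ^ n) ^ 2 *
        ((ψ.compAddMonoidHom π.toAddMonoidHom) h).re =
      Complex.normSq (∑ g : degreeLT k n, f (X ^ n + g.1) * ψ g) * (ψ ⟨h, hh'⟩).re /
        (qR k ^ n) ^ 2 := by
    intro ψ
    rw [AddChar.compAddMonoidHom_apply, LinearMap.toAddMonoidHom_coe, hπh]
    ring
  simp_rw [e]
  rw [← Finset.sum_div, key, hcard]
  unfold avm avg
  rw [Finset.sum_subtype (Pn k n) hmem]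
  simp only [Submodule.coe_add, add_assoc]
  field_simp

/-- The mean of a character along an additive map. -/
theorem avg_char (L : ℕ) (ω : AddChar k[X] ℂ) (φ : k[X] → k[X])
    (hφ : ∀ s t, φ (s + t) = φ s + φ t) :
    avg L (fun σ => (ω (φ σ)).re) = if ∀ σ ∈ Pn k L, ω (φ σ) = 1 then 1 else 0 := by
  split_ifs with h
  · rw [avg_congr (G := fun _ => 1), avg_const]
    intro v hv
    rw [h v (mem_Pn.mpr hv), Complex.one_re]
  · push Not at h
    obtain ⟨σ₀, h0, h1⟩ := h
    have h4 := avg_shift (F := fun σ => (ω (φ σ)).re) (mem_Pn.mp h0)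
    have h5 := avg_shift (F := fun σ => (ω (φ σ)).im) (mem_Pn.mp h0)
    simp only [hφ, AddChar.map_add_eq_mul, Complex.mul_re, Complex.mul_im] at h4 h5
    rw [avg_sub, avg_mul_right, avg_mul_right] at h4
    rw [avg_add, avg_mul_right, avg_mul_right] at h5
    have h6 : Complex.normSq (ω (φ σ₀) - 1) ≠ 0 := by
      rwa [Ne, Complex.normSq_eq_zero, sub_eq_zero]
    refine (mul_eq_zero.1 ?_).resolve_left h6
    rw [Complex.normSq_apply, Complex.sub_re, Complex.sub_im, Complex.one_re, Complex.one_im]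
    linear_combination ((ω (φ σ₀)).re - 1) * h4 + (ω (φ σ₀)).im * h5

/-- The mean over the shifts is an orthogonal projection. -/
theorem proj_sq (n L : ℕ) (f : k[X] → ℝ) (φ : k[X] → k[X])
    (hφ : ∀ s t, φ (s + t) = φ s + φ t) (hd : ∀ t : k[X], t.degree < L → (φ t).degree < n) :
    avm n (fun G => (avg L fun σ => f (G + φ σ)) ^ 2) =
      avg L fun σ => avm n fun G => f G * f (G + φ σ) := by
  rw [← avm_avg_comm]
  have h1 : avm n (fun G => avg L fun σ => f G * f (G + φ σ)) =
      avm n (fun G => f G * avg L fun σ => f (G + φ σ)) :=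
    avm_congr fun G _ => avg_mul_left _
  rw [h1, avm_avg_shift L φ hd (F := fun G => f G * avg L fun σ => f (G + φ σ))]
  refine avm_congr fun G _ => ?_
  rw [sq, ← avg_mul_right]
  refine avg_congr fun t ht => ?_
  congr 1
  rw [← avg_shift (F := fun σ => f (G + φ σ)) ht]
  refine avg_congr fun v _ => ?_
  rw [hφ, add_assoc, add_comm (φ v)]

theorem proj_eq {n : ℕ} {f : k[X] → ℝ} {ι : Type} [Fintype ι] {ω : ι → AddChar k[X] ℂ}
    {a : ι → ℝ} (hb : ∀ h : k[X], h.degree < n →
      avm n (fun G => f G * f (G + h)) = ∑ i, a i * (ω i h).re) (L : ℕ) (φ : k[X] → k[X])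
    (hφ : ∀ s t, φ (s + t) = φ s + φ t) (hd : ∀ t : k[X], t.degree < L → (φ t).degree < n) :
    avm n (fun G => (avg L fun σ => f (G + φ σ)) ^ 2) =
      ∑ i, a i * if ∀ σ ∈ Pn k L, ω i (φ σ) = 1 then 1 else 0 := by
  rw [proj_sq n L f φ hφ hd, avg_congr (G := fun σ => ∑ i, a i * (ω i (φ σ)).re)
    fun v hv => hb _ (hd v hv), avg_sum]
  refine Finset.sum_congr rfl fun i _ => ?_
  rw [avg_mul_left, avg_char L (ω i) φ hφ]

theorem le_of_sq_le {x a b : ℝ} (ha : 0 ≤ a) (hb : 0 ≤ b) (h : x ^ 2 ≤ a * x + b ^ 2) :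
    x ≤ a + b := by
  by_contra hx
  push Not at hx
  nlinarith

omit [Fintype k] in
theorem degree_mul_pow_lt {a t : k[X]} {p L n : ℕ} (hp : 0 < p) (ht : t.degree < L)
    (h : a.natDegree + p * L ≤ n) : (a * t ^ p).degree < n := by
  refine degree_lt_of_natDegree fun h0 => ?_
  have h3 : t ≠ 0 := fun h4 => h0 (by rw [h4, zero_pow hp.ne', mul_zero])
  have h1 := Nat.mul_lt_mul_of_pos_left (natDegree_lt_of_degree h3 ht) hp
  have h2 := natDegree_mul_le (p := a) (q := t ^ p)
  have h5 := natDegree_pow_le (p := t) (n := p)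
  omega

end OdD

theorem stD (hDa : StDa) : StD := by
  intro k _ _ p _ _ nu L z n F K ε hz hL hnu hn hK hε hFK hFl hR
  have hp : 0 < p := (Fact.out : p.Prime).pos
  set m := nu + p * (L - 2 * z) with hm
  set Fb : k[X] → ℝ := fun G => avm nu fun u => F u G with hFb
  set x := avm n (fun G => Fb G ^ 2) with hx
  have hq : (0 : ℝ) < qR k ^ z := pow_pos qR_pos z
  obtain ⟨ι, _, ω, a, ha, hb⟩ := OdD.bochner n Fb
  have hxa : x = ∑ i, a i := by
    have h0 := hb 0 (by rw [degree_zero]; exact WithBot.bot_lt_coe _)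
    simp only [add_zero, AddChar.map_zero_eq_one, Complex.one_re, mul_one] at h0
    rw [← h0, hx]
    exact avm_congr fun G _ => sq _
  have hadd : ∀ u s t : k[X], u * (s + t) ^ p = u * s ^ p + u * t ^ p := fun u s t => by
    rw [add_pow_char, mul_add]
  have hdu : ∀ u : k[X], MD nu u → ∀ t : k[X], t.degree < L → (u * t ^ p).degree < n :=
    fun u hu t ht => OdD.degree_mul_pow_lt hp ht (by rw [hu.2]; exact hn)
  set S := (Pn k z).filter fun R : k[X] => R.Monic with hS
  have hSm : ∀ R : k[X], R ∈ S ↔ R.Monic ∧ R.natDegree < z := by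
    intro R
    rw [hS, Finset.mem_filter, mem_Pn]
    constructor
    · rintro ⟨h1, h2⟩
      exact ⟨h2, (natDegree_lt_iff_degree_lt h2.ne_zero).mpr h1⟩
    · rintro ⟨h1, h2⟩
      exact ⟨(natDegree_lt_iff_degree_lt h1.ne_zero).mp h2, h1⟩
  have hScard : (S.card : ℝ) ≤ qR k ^ z := by
    rw [← card_Pn]
    exact_mod_cast Finset.card_filter_le _ _
  -- the projections along the cells are small
  have hcell : ∀ R ∈ S,
      (∑ i, a i * if ∀ v ∈ Pn k m, ω i (R ^ p * v) = 1 then 1 else 0) ≤ ε ^ 2 := by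
    intro R hRS
    obtain ⟨h1, h2⟩ := (hSm R).mp hRS
    have h0 : (R ^ p).natDegree + m ≤ n := by
      have h4 := Nat.mul_le_mul_left p (show R.natDegree + (L - 2 * z) ≤ L by omega)
      rw [mul_add] at h4
      rw [h1.natDegree_pow]
      omega
    rw [← OdD.proj_eq hb m (fun v => R ^ p * v) (fun s t => mul_add _ _ _)
      fun t ht => degree_mul_lt ht h0]
    refine avm_le_of_le fun G hG => ?_
    have h3 := hR R G h1 h2 hG
    rw [avm_avg_comm] at h3
    exact sq_le_sq' (abs_le.mp h3).1 (abs_le.mp h3).2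
  -- the projections along the lines
  have hline : avm nu (fun u => avm n fun G => (avg L fun σ => Fb (G + u * σ ^ p)) ^ 2) ≤
      1 / qR k ^ z * x + qR k ^ z * ε ^ 2 := by
    rw [avm_congr (G := fun u => ∑ i, a i * if ∀ σ ∈ Pn k L, ω i (u * σ ^ p) = 1 then 1 else 0)
      fun u hu => OdD.proj_eq hb L (fun σ => u * σ ^ p) (hadd u) (hdu u hu), avm_sum]
    have h1 : ∀ i, avm nu (fun u => a i * if ∀ σ ∈ Pn k L, ω i (u * σ ^ p) = 1 then 1 else 0) ≤
        1 / qR k ^ z * a i +
          ∑ R ∈ S, a i * if ∀ v ∈ Pn k m, ω i (R ^ p * v) = 1 then 1 else 0 := by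
      intro i
      rw [avm_mul_left, ← Finset.mul_sum, mul_comm _ (a i), ← mul_add]
      refine mul_le_mul_of_nonneg_left ?_ (ha i)
      have hs : ∀ R ∈ S, (0 : ℝ) ≤ if ∀ v ∈ Pn k m, ω i (R ^ p * v) = 1 then 1 else 0 :=
        fun R _ => by split_ifs <;> norm_num
      rcases hDa k p nu L z (ω i) hz hL hnu with h | ⟨R, h1, h2, h3⟩
      · exact h.trans (le_add_of_nonneg_right (Finset.sum_nonneg hs))
      · have h4 := Finset.single_le_sum hs ((hSm R).mpr ⟨h1, h2⟩)
        rw [if_pos h3] at h4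
        have h5 : avm nu (fun u : k[X] =>
            if ∀ σ ∈ Pn k L, ω i (u * σ ^ p) = 1 then (1 : ℝ) else 0) ≤ 1 :=
          avm_le_of_le fun u _ => by split_ifs <;> norm_num
        have h6 : (0 : ℝ) ≤ 1 / qR k ^ z := by positivity
        linarith
    refine (Finset.sum_le_sum fun i _ => h1 i).trans ?_
    rw [Finset.sum_add_distrib, ← Finset.mul_sum, ← hxa, Finset.sum_comm]
    have h2 := Finset.sum_le_card_nsmul S _ _ hcell
    rw [nsmul_eq_mul] at h2
    have h3 := mul_le_mul_of_nonneg_right hScard (sq_nonneg ε)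
    linarith
  -- the mean square is a correlation with the projections
  have hcorr : x ≤ avm nu fun u => avm n fun G => K * |avg L fun σ => Fb (G + u * σ ^ p)| := by
    have h1 : x = avm nu fun u => avm n fun G => Fb G * F u G := by
      rw [← avm_comm, hx]
      refine avm_congr fun G _ => ?_
      rw [avm_mul_left, sq]
    rw [h1]
    refine avm_mono fun u hu => ?_
    rw [avm_avg_shift L (fun σ => u * σ ^ p) (hdu u hu) (F := fun G => Fb G * F u G)]
    refine avm_mono fun G hG => ?_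
    simp only [hFl]
    rw [avg_mul_right, mul_comm K]
    refine (le_abs_self _).trans ?_
    rw [abs_mul]
    exact mul_le_mul_of_nonneg_left (hFK u G hu hG) (abs_nonneg _)
  have hx0 : 0 ≤ x := avm_nonneg fun G _ => sq_nonneg _
  have hsq : x ^ 2 ≤ K ^ 2 * (1 / qR k ^ z * x + qR k ^ z * ε ^ 2) := by
    refine (pow_le_pow_left₀ hx0 hcorr 2).trans (sq_avm_le.trans ?_)
    refine le_trans ?_ (mul_le_mul_of_nonneg_left hline (sq_nonneg K))
    rw [← avm_mul_left]
    refine avm_mono fun u _ => sq_avm_le.trans (le_of_eq ?_)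
    rw [← avm_mul_left]
    refine avm_congr fun G _ => ?_
    rw [mul_pow, sq_abs]
  refine OdD.le_of_sq_le (by positivity) (by positivity) ?_
  rw [mul_pow, mul_pow, Real.sq_sqrt hq.le]
  calc x ^ 2 ≤ _ := hsq
    _ = _ := by ring

end Pool.Agent.Lib.MP_232f4c_nt.Od
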