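import Pool.Agent.Lib.MP_232f4c_nt.OdDefs

/-!
An additive character that is trivial on many lines is trivial on a cell (any characteristic).
-/

namespace Pool.Agent.Lib.MP_232f4c_nt.Od

open Polynomial Pool.Agent.Lib.MP_9227d9_nt.Mob Filter Topology

open scoped Classical

namespace OdDa

variable {k : Type} [Field k] [Fintype k]

omit [Fintype k] in
theorem re_le (p : ℕ) [Fact p.Prime] [CharP k p] (ω : AddChar k[X] ℂ) (x : k[X]) :
    (ω x).re ≤ 1 := by
  have hp : p ≠ 0 := (Fact.out : p.Prime).ne_zero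
  have h : ω x ^ p = 1 := by
    rw [← AddChar.map_nsmul_eq_pow, nsmul_eq_mul, CharP.cast_eq_zero, zero_mul,
      AddChar.map_zero_eq_one]
  have h1 := Complex.norm_eq_one_of_pow_eq_one h hp
  rw [← h1]
  exact Complex.re_le_norm _

theorem avg_char (ω : AddChar k[X] ℂ) (n : ℕ) (a : k[X]) (φ : k[X] → k[X])
    (hφ : ∀ a b, φ (a + b) = φ a + φ b) :
    avg n (fun σ => (ω (a + φ σ)).re) =
      if ∀ σ ∈ Pn k n, ω (φ σ) = 1 then (ω a).re else 0 := by
  split_ifs with h
  · rw [← avg_const (k := k) n (ω a).re]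
    exact avg_congr fun v hv => by rw [AddChar.map_add_eq_mul, h v (mem_Pn.2 hv), mul_one]
  · push Not at h
    obtain ⟨c, hc, h1⟩ := h
    have h2 := avg_shift (F := fun σ => (ω (a + φ σ)).re) (mem_Pn.1 hc)
    have h3 := avg_shift (F := fun σ => (ω (a + φ σ)).im) (mem_Pn.1 hc)
    have e : ∀ v, ω (a + φ (v + c)) = ω (a + φ v) * ω (φ c) := fun v => by
      rw [hφ, ← add_assoc, AddChar.map_add_eq_mul]
    simp only [e, Complex.mul_re, Complex.mul_im] at h2 h3
    rw [avg_sub, avg_mul_right, avg_mul_right] at h2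
    rw [avg_add, avg_mul_right, avg_mul_right] at h3
    set A := avg n fun v => (ω (a + φ v)).re
    set B := avg n fun v => (ω (a + φ v)).im
    set x := (ω (φ c)).re with hx
    set y := (ω (φ c)).im with hy
    have h4 : ((1 - x) ^ 2 + y ^ 2) * A = 0 := by
      linear_combination (x - 1) * h2 + y * h3
    have h5 : (1 - x) ^ 2 + y ^ 2 ≠ 0 := by
      intro h0
      apply h1
      have hx1 : 1 - x = 0 := by nlinarith [sq_nonneg (1 - x), sq_nonneg y]
      have hy1 : y = 0 := by nlinarith [sq_nonneg (1 - x), sq_nonneg y]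
      apply Complex.ext
      · rw [← hx, Complex.one_re]; linarith
      · rw [← hy, Complex.one_im]; exact hy1
    exact (mul_eq_zero.1 h4).resolve_left h5

/-- The annihilator of the short multipliers. -/
def InS (p : ℕ) (ω : AddChar k[X] ℂ) (nu : ℕ) (σ : k[X]) : Prop :=
  ∀ v ∈ Pn k nu, ω (v * σ ^ p) = 1

theorem InS.sub {p : ℕ} [Fact p.Prime] [CharP k p] {ω : AddChar k[X] ℂ} {nu : ℕ} {a b : k[X]}
    (ha : InS p ω nu a) (hb : InS p ω nu b) : InS p ω nu (a - b) := by
  intro v hv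
  have h : ω (v * (a - b) ^ p) * ω (v * b ^ p) = ω (v * a ^ p) := by
    rw [← AddChar.map_add_eq_mul, sub_pow_char]
    congr 1
    ring
  rwa [ha v hv, hb v hv, mul_one] at h

theorem InS.mul_C {p : ℕ} {ω : AddChar k[X] ℂ} {nu : ℕ} {a : k[X]} (ha : InS p ω nu a) (c : k) :
    InS p ω nu (a * C c) := by
  intro v hv
  have h : (C (c ^ p) * v) ∈ Pn k nu :=
    mem_Pn.2 (degree_mul_lt (L := nu) (mem_Pn.1 hv) (by simp only [natDegree_C]; omega))
  have := ha _ h
  rw [← this]
  congr 1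
  rw [C_pow]
  ring

theorem mean_le (p : ℕ) [Fact p.Prime] [CharP k p] (ω : AddChar k[X] ℂ) (nu L : ℕ) :
    avm nu (fun u => if ∀ σ ∈ Pn k L, ω (u * σ ^ p) = 1 then 1 else 0) ≤
      (((Pn k L).filter (InS p ω nu)).card : ℝ) / qR k ^ L := by
  have h1 : ∀ u : k[X], (if ∀ σ ∈ Pn k L, ω (u * σ ^ p) = 1 then (1 : ℝ) else 0) =
      avg L fun σ => (ω (u * σ ^ p)).re := fun u => by
    have := avg_char ω L 0 (fun σ => u * σ ^ p) fun a b => by rw [add_pow_char, mul_add]
    simp only [zero_add, AddChar.map_zero_eq_one, Complex.one_re] at this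
    rw [this]
  have h2 : ∀ σ : k[X], avg nu (fun v => (ω (X ^ nu * σ ^ p + v * σ ^ p)).re) =
      if InS p ω nu σ then (ω (X ^ nu * σ ^ p)).re else 0 :=
    fun σ => by
      rw [avg_char ω nu (X ^ nu * σ ^ p) (fun v => v * σ ^ p) fun a b => add_mul _ _ _]
      unfold InS
      congr
  simp only [h1]
  unfold avm
  rw [avg_comm]
  have h3 : (((Pn k L).filter (InS p ω nu)).card : ℝ) / qR k ^ L =
      avg L fun σ => if InS p ω nu σ then 1 else 0 := by
    unfold avg
    rw [Finset.sum_boole]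
  rw [h3]
  refine avg_mono fun σ _ => ?_
  simp only [add_mul]
  rw [h2]
  have := re_le p ω (X ^ nu * σ ^ p)
  split_ifs <;> linarith

theorem pigeon {p : ℕ} [Fact p.Prime] [CharP k p] {ω : AddChar k[X] ℂ} {nu L z : ℕ}
    (h : 1 / qR k ^ z < (((Pn k L).filter (InS p ω nu)).card : ℝ) / qR k ^ L) {a : k[X]}
    (hd : a.natDegree + z ≤ L) :
    ∃ t : k[X], t.Monic ∧ t.natDegree < z ∧ InS p ω nu (a * t) := by
  have key : ∃ t ∈ Pn k z, t ≠ 0 ∧ InS p ω nu (a * t) := by
    by_contra hn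
    push Not at hn
    have hc : ((Pn k z) ×ˢ ((Pn k L).filter (InS p ω nu))).card ≤ (Pn k L).card := by
      refine Finset.card_le_card_of_injOn (fun s => a * s.1 + s.2) ?_ ?_
      · intro s hs
        simp only [Finset.coe_product, Set.mem_prod, Finset.mem_coe, Finset.mem_filter] at hs
        exact Finset.mem_coe.2 (mem_Pn.2 ((degree_add_le _ _).trans_lt
          (max_lt (degree_mul_lt (mem_Pn.1 hs.1) hd) (mem_Pn.1 hs.2.1))))
      · intro s hs s' hs' e
        simp only [Finset.coe_product, Set.mem_prod, Finset.mem_coe, Finset.mem_filter] at hs hs'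
        have e : a * s.1 + s.2 = a * s'.1 + s'.2 := e
        have e1 : a * (s.1 - s'.1) = s'.2 - s.2 := by
          linear_combination e
        have h1 : s.1 - s'.1 ∈ Pn k z :=
          mem_Pn.2 ((degree_sub_le _ _).trans_lt (max_lt (mem_Pn.1 hs.1) (mem_Pn.1 hs'.1)))
        have h2 : s.1 = s'.1 := by
          by_contra h3
          exact hn _ h1 (sub_ne_zero.2 h3) (e1 ▸ hs'.2.2.sub hs.2.2)
        rw [h2] at e
        exact Prod.ext h2 (add_left_cancel e)
    rw [Finset.card_product] at hc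
    have hc' : qR k ^ z * (((Pn k L).filter (InS p ω nu)).card : ℝ) ≤ qR k ^ L := by
      rw [← card_Pn, ← card_Pn]
      exact_mod_cast hc
    have hq := qR_pos (k := k)
    rw [div_lt_div_iff₀ (by positivity) (by positivity)] at h
    linarith
  obtain ⟨t, ht, h0, hS⟩ := key
  refine ⟨t * C t.leadingCoeff⁻¹, monic_mul_leadingCoeff_inv h0, ?_, ?_⟩
  · rw [natDegree_mul_leadingCoeff_inv _ h0]
    exact (natDegree_lt_iff_degree_lt h0).2 (mem_Pn.1 ht)
  · rw [← mul_assoc]
    exact hS.mul_C _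

omit [Fintype k] in
theorem degree_sub_lt' {v g : k[X]} {m : ℕ} (hv : v.degree < (m + 1 : ℕ)) (hg : g.Monic)
    (hm : g.natDegree = m) : (v - C (v.coeff m) * g).degree < m := by
  rw [degree_lt_iff_coeff_zero]
  intro j hj
  rw [coeff_sub, coeff_C_mul]
  rcases hj.eq_or_lt with e | hlt
  · have : g.coeff m = 1 := by rw [← hm]; exact hg.coeff_natDegree
    rw [← e, this, mul_one, sub_self]
  · rw [(degree_lt_iff_coeff_zero _ _).1 hv j hlt, coeff_eq_zero_of_natDegree_lt (p := g) (by omega),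
      mul_zero, sub_self]

theorem arith {p nu L z m s : ℕ} (hp : 0 < p) (hnu : p * z ≤ nu) (hm : nu ≤ m)
    (hle : m + 1 ≤ nu + p * (L - 2 * z)) (hs : s < z) :
    (m - nu) / p + 1 ≤ L - 2 * z ∧
      ∃ e, e < nu ∧ m = e + p * ((m - nu) / p + 1) + p * s := by
  have h1 : (m - nu) / p < L - 2 * z := by
    rw [Nat.div_lt_iff_lt_mul hp, mul_comm]
    omega
  have h2 : p * ((m - nu) / p) ≤ m - nu := Nat.mul_div_le _ _
  have h3 : m - nu < p * ((m - nu) / p + 1) := Nat.lt_mul_div_succ _ hp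
  have h4 : p * (s + 1) ≤ p * z := Nat.mul_le_mul_left _ hs
  rw [mul_add, mul_one] at h3 h4
  refine ⟨h1, m - p * ((m - nu) / p + 1) - p * s, ?_, ?_⟩ <;> rw [mul_add, mul_one] <;> omega

end OdDa

theorem stDa : StDa := by
  intro k _ _ p _ _ nu L z ω hz hL hnu
  have hp : 0 < p := (Fact.out : p.Prime).pos
  by_cases h : (((Pn k L).filter (OdDa.InS p ω nu)).card : ℝ) / qR k ^ L ≤ 1 / qR k ^ z
  · exact Or.inl ((OdDa.mean_le p ω nu L).trans h)
  rw [not_le] at h
  obtain ⟨R, hR, hRz, hS⟩ := OdDa.pigeon (a := 1) h (by simp only [natDegree_one]; omega)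
  rw [one_mul] at hS
  refine Or.inr ⟨R, hR, hRz, ?_⟩
  have key : ∀ m, nu ≤ m → m ≤ nu + p * (L - 2 * z) → ∀ v ∈ Pn k m, ω (R ^ p * v) = 1 := by
    intro m hm
    induction m, hm using Nat.le_induction with
    | base => exact fun _ v hv => by rw [mul_comm]; exact hS v hv
    | succ m hm ih =>
      intro hle v hv
      obtain ⟨j, hj⟩ : ∃ j, j = (m - nu) / p + 1 := ⟨_, rfl⟩
      have hdeg : (R * X ^ j).natDegree = R.natDegree + j := by
        rw [hR.natDegree_mul (monic_X_pow j), natDegree_X_pow]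
      have hjL : j ≤ L - 2 * z := hj ▸ (OdDa.arith hp hnu hm hle hRz).1
      obtain ⟨t, ht, htz, htS⟩ := OdDa.pigeon (a := R * X ^ j) h (by rw [hdeg]; omega)
      obtain ⟨e, hen, he⟩ := (OdDa.arith hp hnu hm hle htz).2
      rw [← hj] at he
      have hg : (X ^ (e + p * j) * t ^ p).Monic := (monic_X_pow _).mul (ht.pow p)
      have hgd : (X ^ (e + p * j) * t ^ p).natDegree = m := by
        rw [(monic_X_pow _).natDegree_mul (ht.pow p), natDegree_X_pow, ht.natDegree_pow, he]
      have h1 := ih (by omega) _ (mem_Pn.2 (OdDa.degree_sub_lt' (mem_Pn.1 hv) hg hgd))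
      have h2 := htS (C (v.coeff m) * X ^ e) (mem_Pn.2 ((degree_C_mul_X_pow_le e _).trans_lt
        (by exact_mod_cast hen)))
      have e1 : R ^ p * v = R ^ p * (v - C (v.coeff m) * (X ^ (e + p * j) * t ^ p)) +
          C (v.coeff m) * X ^ e * (R * X ^ j * t) ^ p := by ring
      rw [e1, AddChar.map_add_eq_mul, h1, h2, one_mul]
  exact key _ (Nat.le_add_right _ _) le_rfl

end Pool.Agent.Lib.MP_232f4c_nt.Od
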