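import Pool.Agent.Lib.MP_232f4c_nt.CwAll
import Pool.Agent.Lib.MP_232f4c_nt.FfSar

/-!
Correlations of all orders over an arbitrary finite field, for almost all degrees
(definitions and statements of the modules).
-/

namespace Pool.Agent.Lib.MP_232f4c_nt.Od

open Polynomial Pool.Agent.Lib.MP_9227d9_nt.Mob Filter Topology

open scoped Classical ComplexConjugate

section Defs

variable {k : Type} [Field k] [Fintype k]

/-- The Jacobi symbol of `G` modulo the monic polynomial `N`. -/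
noncomputable def jac (N G : k[X]) : ℝ := ((quadraticChar k (resultant N G) : ℤ) : ℝ)

/-- The number of windows. -/
def rr (p : ℕ) : ℕ := 2 * (p - 1)

/-- The length of the lines. -/
def LL (p γ : ℕ) : ℕ := 10 * rr p ^ 2 * γ

/-- The starting point of the window number `i`. -/
def aa (p γ i : ℕ) : ℕ := (5 * rr p ^ 2 - rr p + i) * γ

/-- The primes of degree in `[a, a + g)`. -/
noncomputable def PrW (k : Type) [Field k] [Fintype k] (a g : ℕ) : Finset k[X] :=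
  (PrL k (a + g)).filter fun P => a ≤ P.natDegree

/-- The number of ways to choose a prime factor of `W` in every window. -/
noncomputable def wt (p γ : ℕ) (W : k[X]) : ℝ :=
  ∏ i : Fin (rr p), ∑ P ∈ PrW k (aa p γ i) γ, if P ∣ W then 1 else 0

/-- The expected value of `wt`. -/
noncomputable def rh (k : Type) [Field k] [Fintype k] (p γ : ℕ) : ℝ :=
  ∏ i : Fin (rr p), ∑ P ∈ PrW k (aa p γ i) γ, 1 / Nm P

/-- The residues `b` modulo `M` that obstruct equidistribution. -/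
noncomputable def obs (E : ℕ) (M : k[X]) : Finset k[X] :=
  (Pn k M.natDegree).filter fun b => b ≠ 0 ∧ derivative ((X ^ E * b) /ₘ M) = 0

/-- The mean over a finite set. -/
noncomputable def ex {Γ : Type} (T : Finset Γ) (f : Γ → ℝ) : ℝ := (∑ x ∈ T, f x) / T.card

/-- The monic polynomials of degree `n`. -/
noncomputable def Mn (k : Type) [Field k] [Fintype k] (n : ℕ) : Finset k[X] :=
  (Mo k n).filter fun F => F.natDegree = n

/-- Bounded by one and multiplicative. -/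
def Mul1 (f : k[X] → ℂ) : Prop :=
  (∀ F, ‖f F‖ ≤ 1) ∧ ∀ F G : k[X], F.Monic → G.Monic → IsCoprime F G → f (F * G) = f F * f G

/-- `f` pretends to be the Liouville function times a Hayes character. -/
def Pret (f : k[X] → ℂ) : Prop :=
  ∃ (ξ : k[X] →* ℂ) (M : k[X]) (l : ℕ), M.Monic ∧ (∀ F, ‖ξ F‖ ≤ 1) ∧
    (∀ F t : k[X], F.Monic → (M * t).natDegree + l < F.natDegree → ξ (F + M * t) = ξ F) ∧
    Summable fun P : {P : k[X] // P.Monic ∧ Irreducible P} =>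
      (1 + (f P * conj (ξ P)).re) / (Fintype.card k : ℝ) ^ P.1.natDegree

/-- The modulus of `f` is close to one at most primes. -/
def Uni (f : k[X] → ℂ) : Prop := ∃ B : ℝ, ∀ N, ∑ P ∈ PrL k N, (1 - ‖f P‖) / Nm P ≤ B

/-- In degree `n` the function `g` is a multiple of the Moebius function of a cofactor on every
cell modulo `R ^ 2`. -/
def Str (R : k[X]) (l n : ℕ) (g : k[X] → ℂ) : Prop :=
  ∃ (κ : k[X] → ℂ) (D G : k[X] → k[X]), ∀ y, MD n y → ‖κ y‖ ≤ 1 ∧ (D y).Monic ∧ D y ∣ R ∧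
    D y * G y = y ∧ g y = κ y * ((mu (G y) : ℝ) : ℂ) ∧ (κ y ≠ 0 → IsCoprime (G y) (D y)) ∧
    ∀ t : k[X], (R ^ 2 * t).natDegree + l < n → κ (y + R ^ 2 * t) = κ y ∧ D (y + R ^ 2 * t) = D y

/-- Local uniformity of `f`, tested against dilations by primes. -/
def LU (f : k[X] → ℂ) : Prop :=
  ∀ (ι : Type) [Fintype ι] (a₀ b₀ : k[X]) (a b : ι → k[X]), a₀.Monic →
    (∀ j, a₀ * b j ≠ a j * b₀) → ∀ η : ℝ, 0 < η → ∃ m₀ : ℕ, ∀ m, m₀ ≤ m → ∃ n₀ : ℕ, ∀ n, n₀ ≤ n →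
    ∀ (θ : k[X] → ℂ) (g : ι → k[X] → ℂ), (∀ P, ‖θ P‖ ≤ 1) → (∀ j F, ‖g j F‖ ≤ 1) →
    ∑ P ∈ PrD k m, avm n (fun F =>
      (θ P * (f (a₀ * F + b₀ * P) * ∏ j, g j (a j * F + b j * P))).re) ≤ η * (PrD k m).card

/-- The correlation in degree `n`. -/
noncomputable def cor {ι : Type} [Fintype ι] (a b : ι → k[X]) (f : ι → k[X] → ℂ) (n : ℕ) : ℂ :=
  (∑ F ∈ Mn k n, ∏ i, f i (a i * F + b i)) / (Fintype.card k : ℂ) ^ n

end Defs

/-- Weil: the bound for the quadratic character of a product of distinct linear factors. -/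
def StWeil : Prop :=
  ∀ (F : Type) [Field F] [Fintype F], ringChar F ≠ 2 → ∀ (J : Type) [Fintype J] [Nonempty J]
    (c : J → F), Function.Injective c →
    |∑ x : F, ∏ j, ((quadraticChar F (x + c j) : ℤ) : ℝ)| ≤
      20 * Fintype.card J * √(Fintype.card F : ℝ)

/-- Jac: the formal properties of the symbol. -/
def StJac : Prop :=
  ∀ (k : Type) [Field k] [Fintype k],
    (∀ N G : k[X], jac N G = 0 ∨ jac N G = 1 ∨ jac N G = -1) ∧
    (∀ N G t : k[X], N.Monic → jac N (G + N * t) = jac N G) ∧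
    (∀ N N' G : k[X], N.Monic → N'.Monic → jac (N * N') G = jac N G * jac N' G) ∧
    ∀ N G G' : k[X], N.Monic → jac N (G * G') = jac N G * jac N G'

/-- B0: the complete sum. -/
def StB0 : Prop :=
  ∀ (k : Type) [Field k] [Fintype k], ringChar k ≠ 2 → ∀ (P a : k[X]) (J : Type) [Fintype J]
    [Nonempty J] (c : J → k[X]) (n : ℕ), IsP P → ¬ P ∣ a → (∀ i j, i ≠ j → ¬ P ∣ c i - c j) →
    P.natDegree ≤ n →
    |avg n fun s => ∏ j, jac P (c j + a * s)| ≤ 20 * Fintype.card J / √(Nm P)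

/-- Pel: the formula of Pellet on a set where a Wronskian is constant. -/
def StPel : Prop :=
  ∀ (k : Type) [Field k] [Fintype k], ringChar k ≠ 2 → ∀ (u D G N : k[X]) (lam : k), G.Monic →
    N.Monic → IsCoprime G (u * D) → wronskian u (D * G) = C lam * N → lam ≠ 0 →
    ∃ c : ℝ, |c| ≤ 1 ∧ ∀ t : k[X], (u * D * t).degree < G.degree →
      wronskian u (D * (G + u * D * t)) = wronskian u (D * G) →
      mu (G + u * D * t) = c * jac N (G + u * D * t)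

/-- VdC: the abstract van der Corput iteration. -/
def StVdC : Prop :=
  ∀ K j : ℕ, ∃ C : ℝ, 0 ≤ C ∧ ∀ (k : Type) [Field k] [Fintype k] (Γ : Type) [AddCommGroup Γ]
    (T : Finset Γ) (m : ℕ) (τ : Fin K → k[X] → Γ) (Δ : Fin K → k[X]) (H : k[X] → Γ → ℝ)
    (Bad Sm : k[X] → Prop) (θ : ℝ), 0 ≤ θ → θ ≤ 1 → T.Nonempty →
    (∀ (i : Fin K) (s : k[X]) (x : Γ), s.degree < m → x ∈ T → x + τ i s ∈ T) →
    (∀ σ x, |H σ x| ≤ 1) →
    (∀ (i : Fin K) (s σ : k[X]) (x : Γ), s.degree < m → x ∈ T →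
      H σ (x + τ i s) = H (σ + Δ i * s) x) →
    (∀ (i : Fin K) (s σ : k[X]), s.degree < m → Sm σ → Sm (σ + Δ i * s)) →
    (∀ d, Bad (-d) → Bad d) →
    (∀ (i : Fin K) (c : k[X]),
      avg m (fun s => if Bad (c + Δ i * s) then 1 else 0) ≤ θ ^ 2 ^ K) →
    (∀ (J : Type) [Fintype J] [Nonempty J] (σ : J → k[X]), Fintype.card J ≤ 2 ^ K * j →
      (∀ a, Sm (σ a)) → (∀ a b, a ≠ b → ¬ Bad (σ a - σ b)) →
      |ex T fun x => ∏ a, H (σ a) x| ≤ θ ^ 2 ^ K) →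
    ∀ (J : Type) [Fintype J] [Nonempty J] (σ : J → k[X]) (φ : Fin K → Γ → ℂ),
      Fintype.card J ≤ j → (∀ a, Sm (σ a)) → (∀ a b, a ≠ b → ¬ Bad (σ a - σ b)) →
      (∀ i x, x ∈ T → ‖φ i x‖ ≤ 1) →
      (∀ (i : Fin K) (s : k[X]) (x : Γ), s.degree < m → x ∈ T → φ i (x + τ i s) = φ i x) →
      |ex T fun x => (∏ a, H (σ a) x) * (∏ i, φ i x).re| ≤ C * θ

/-- Comp: completion of a sum that is a little shorter than the modulus. -/
def StComp : Prop :=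
  ∀ (k : Type) [Field k] [Fintype k], ringChar k ≠ 2 → ∀ (P a : k[X]) (J : Type) [Fintype J]
    [Nonempty J] (c : J → k[X]) (L δ : ℕ), IsP P → ¬ P ∣ a → (∀ i j, i ≠ j → ¬ P ∣ c i - c j) →
    3 * δ ≤ P.natDegree → P.natDegree ≤ L + δ → 3 * δ ≤ L →
    (avg L fun s => ∏ j, jac P (c j + a * s)) ^ 2 ≤ 41 * (Fintype.card J : ℝ) ^ 2 / √(qR k) ^ δ

/-- Fac: a factorisation of the modulus into one simple prime and short pieces. -/
def StFac : Prop :=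
  ∀ (k : Type) [Field k] [Fintype k] (r L δ : ℕ) (Q : Fin r → k[X]) (N : k[X]), N.Monic →
    (∀ i, IsP (Q i)) → Function.Injective Q → (∀ i, Q i ∣ N) →
    (∀ i, 3 * δ ≤ (Q i).natDegree ∧ (Q i).natDegree + δ ≤ L) →
    N.natDegree ≤ ∑ i, (Q i).natDegree + L + δ → L + δ < ∑ i, (Q i).natDegree → 4 * δ ≤ L →
    ∃ (P : k[X]) (M : Fin (r + 3) → k[X]), IsP P ∧ 3 * δ ≤ P.natDegree ∧ P.natDegree ≤ L + δ ∧
      (∀ i, (M i).Monic ∧ ¬ P ∣ M i ∧ (M i).natDegree + δ ≤ L) ∧ N = P * ∏ i, M i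

/-- Line: cancellation on a good line. -/
def StLine : Prop :=
  ∀ (k : Type) [Field k] [Fintype k] (p : ℕ) [Fact p.Prime] [CharP k p], p ≠ 2 →
    ∀ (j c : ℕ) (ε : ℝ), 0 < ε → ∃ γ₀ : ℕ, ∀ γ, γ₀ ≤ γ → ∀ (J : Type) [Fintype J] [Nonempty J]
    (σ : J → k[X]) (u D G R w a : k[X]), Fintype.card J ≤ j → Function.Injective σ →
    (∀ i, (σ i).degree < c) → G.Monic → IsCoprime G (u * D) → R ^ p = D * D * w → R ≠ 0 → a ≠ 0 →
    u.natDegree ≤ c → R.natDegree ≤ c → a.natDegree ≤ c →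
    (u * R ^ p).natDegree + p * (c + LL p γ) ≤ (D * G).natDegree →
    wronskian u (D * G) ≠ 0 → (wronskian u (D * G)).natDegree ≤ p * LL p γ + γ →
    wt p γ (wronskian u (D * G)) ≠ 0 →
    |avg (LL p γ) fun s => ∏ i, mu (G + u * D * (w * (σ i + a * s) ^ p))| ≤ ε

/-- Lev: the obstructions are rare. -/
def StLev : Prop :=
  ∀ (k : Type) [Field k] [Fintype k] (p : ℕ) [Fact p.Prime] [CharP k p] (e d : ℕ)
    (S : Finset k[X]), (∀ M ∈ S, M.Monic ∧ Squarefree M ∧ M.natDegree ≤ d) →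
    ∑ M ∈ S, ((obs (p * e) M).card : ℝ) / Nm M ≤
      ((d : ℝ) + 1) ^ 2 * qR k ^ d / qR k ^ ((p - 1) * e)

/-- Cell: divisibility of a Wronskian on a cell. -/
def StCell : Prop :=
  ∀ (k : Type) [Field k] [Fintype k] (p : ℕ) [Fact p.Prime] [CharP k p] (e m : ℕ)
    (M u R y : k[X]), M.Monic → IsCoprime M (u * R) → u.natDegree + p * e < m →
    |avg m (fun v => if M ∣ wronskian u (y + R ^ p * v) then 1 else 0) - 1 / Nm M| ≤
      ((obs (p * e) M).card : ℝ) / Nm M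

/-- Da: an additive character that is trivial on many lines is trivial on a cell. -/
def StDa : Prop :=
  ∀ (k : Type) [Field k] [Fintype k] (p : ℕ) [Fact p.Prime] [CharP k p] (nu L z : ℕ)
    (ω : AddChar k[X] ℂ), 1 ≤ z → 2 * z ≤ L → p * z ≤ nu →
    avm nu (fun u => if ∀ σ ∈ Pn k L, ω (u * σ ^ p) = 1 then 1 else 0) ≤ 1 / qR k ^ z ∨
    ∃ R : k[X], R.Monic ∧ R.natDegree < z ∧
      ∀ v ∈ Pn k (nu + p * (L - 2 * z)), ω (R ^ p * v) = 1

/-- D: concentration of a mean of functions that are constant on lines. -/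
def StD : Prop :=
  ∀ (k : Type) [Field k] [Fintype k] (p : ℕ) [Fact p.Prime] [CharP k p] (nu L z n : ℕ)
    (F : k[X] → k[X] → ℝ) (K ε : ℝ), 1 ≤ z → 2 * z ≤ L → p * z ≤ nu → nu + p * L ≤ n → 0 ≤ K →
    0 ≤ ε → (∀ u G, MD nu u → MD n G → |F u G| ≤ K) →
    (∀ u G σ, F u (G + u * σ ^ p) = F u G) →
    (∀ R G₀ : k[X], R.Monic → R.natDegree < z → MD n G₀ →
      |avm nu fun u => avg (nu + p * (L - 2 * z)) fun v => F u (G₀ + R ^ p * v)| ≤ ε) →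
    avm n (fun G => (avm nu fun u => F u G) ^ 2) ≤ K ^ 2 / qR k ^ z + K * √(qR k ^ z) * ε

/-- Wt: the size of the weight. -/
def StWt : Prop :=
  ∀ (k : Type) [Field k] [Fintype k] (p : ℕ), 3 ≤ p → ∃ K : ℝ, 1 ≤ K ∧ ∀ γ, 1 ≤ γ →
    1 / K ≤ rh k p γ ∧ ∀ W : k[X], W ≠ 0 → W.natDegree ≤ p * LL p γ + γ →
      0 ≤ wt p γ W / rh k p γ ∧ wt p γ W / rh k p γ ≤ K

/-- Cov: the good lines cover almost everything evenly. -/
def StCov : Prop :=
  ∀ (k : Type) [Field k] [Fintype k] (p : ℕ) [Fact p.Prime] [CharP k p], p ≠ 2 →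
    ∃ K : ℝ, 1 ≤ K ∧ ∀ (nu z : ℕ) (ε : ℝ), 1 ≤ z → p * z ≤ nu → 0 < ε → ∃ γ₀ : ℕ, ∀ γ, γ₀ ≤ γ →
    ∀ n : ℕ, nu + p * LL p γ ≤ n → n + nu ≤ p * LL p γ + γ → (n : k) ≠ (nu : k) →
    (∀ u y : k[X], MD nu u → MD n y → wronskian u y ≠ 0 ∧
      (wronskian u y).natDegree ≤ p * LL p γ + γ ∧ 0 ≤ wt p γ (wronskian u y) / rh k p γ ∧
      wt p γ (wronskian u y) / rh k p γ ≤ K) ∧
    avm n (fun y : k[X] => (avm nu fun u : k[X] =>
      if IsP u then wt p γ (wronskian u y) / rh k p γ - 1 else 0) ^ 2) ≤ K ^ 2 / qR k ^ z + ε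

/-- Ent: the entropy decrement at a fixed degree. -/
def StEnt : Prop :=
  ∀ (k : Type) [Field k] [Fintype k] (e m₁ : ℕ), ∃ n₀ : ℕ, ∀ n, n₀ ≤ n →
    ∀ (S : Type) [Fintype S] (V : k[X] → S) (Ψ : k[X] → k[X] → ℝ) (B : Finset ℕ) (η : ℝ),
    0 ≤ η → 2 * η ≤ 1 → (∀ m ∈ B, m < m₁) → (∀ P F, |Ψ P F| ≤ 1) →
    (∀ P F F' : k[X], (∀ t : k[X], t.degree < (P.natDegree + e : ℕ) → V (F + t) = V (F' + t)) →
      Ψ P F = Ψ P F') →
    ∑ m ∈ B, (∑ P ∈ PrD k m,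
      (η * (avm (n - m) (fun G => Ψ P (P * G)) - avm n (Ψ P)) - 4 * η ^ 2)) / qR k ^ (m + e) ≤
      Real.log (Fintype.card S)

/-- Str: approximation by a structured function. -/
def StStr : Prop :=
  ∀ (k : Type) [Field k] [Fintype k] (f : k[X] → ℂ), Mul1 f → Pret f → ∀ η : ℝ, 0 < η →
    ∃ (R : k[X]) (l : ℕ), R.Monic ∧ ∀ n, ∃ g : k[X] → ℂ, Str R l n g ∧
      avm n (fun F => ‖f F - g F‖) ≤ η

/-- GvN: control of a system of linear forms by a box norm of one function. -/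
def StGvN : Prop :=
  ∀ K : ℕ, ∃ C : ℝ, 0 ≤ C ∧ ∀ (k : Type) [Field k] [Fintype k] (ι : Type) [Fintype ι]
    (a₀ b₀ : k[X]) (a b : ι → k[X]) (h : k[X] → ℝ) (E : k[X] → k[X]) (t : ι → k[X] → k[X])
    (φ : ι → k[X] → k[X] → ℂ) (m n m' c : ℕ) (θ : ℝ), Fintype.card ι = K → 0 ≤ θ → θ ≤ 1 →
    (∀ j, a₀ * b j ≠ a j * b₀) → (∀ j, (a₀ * b j - a j * b₀).natDegree + m' ≤ c) →
    E 0 = 0 → (∀ j s σ, E (σ + (a₀ * b j - a j * b₀) * s) = E σ + (a₀ * b j - a j * b₀) * t j s) →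
    (∀ (j : ι) (s : k[X]), s.degree < m' → (a j * t j s).degree < m ∧ (b j * t j s).degree < n) →
    (∀ y, |h y| ≤ 1) → (∀ j F D, MD n F → MD m D → ‖φ j F D‖ ≤ 1) →
    (∀ (j : ι) (s F D : k[X]), s.degree < m' → MD n F → MD m D →
      φ j (F + b j * t j s) (D - a j * t j s) = φ j F D) →
    1 / qR k ^ m' ≤ θ ^ 2 ^ K →
    (∀ (J : Type) [Fintype J] [Nonempty J] (σ : J → k[X]) (D : k[X]), Fintype.card J ≤ 2 ^ K →
      Function.Injective σ → (∀ i, (σ i).degree < c) → MD m D →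
      |avm n fun F => ∏ i, h (a₀ * F + b₀ * D + E (σ i))| ≤ θ ^ 2 ^ K) →
    |avm m fun D => avm n fun F => h (a₀ * F + b₀ * D) * (∏ j, φ j F D).re| ≤ C * θ

/-- All: the estimate for all dilations in odd characteristic. -/
def StAll : Prop :=
  ∀ (k : Type) [Field k] [Fintype k] (p : ℕ) [Fact p.Prime] [CharP k p], p ≠ 2 →
    ∀ (ι : Type) [Fintype ι] (a₀ b₀ : k[X]) (a b : ι → k[X]) (R : k[X]) (l : ℕ), a₀.Monic →
    (∀ j, a₀ * b j ≠ a j * b₀) → R.Monic → ∀ η : ℝ, 0 < η → ∃ m₀ : ℕ, ∀ m, m₀ ≤ m → ∃ n₀ : ℕ,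
    ∀ n, n₀ ≤ n → ∀ (g₀ θ : k[X] → ℂ) (g : ι → k[X] → ℂ), Str R l (a₀.natDegree + n) g₀ →
    (∀ D, ‖θ D‖ ≤ 1) → (∀ j F, ‖g j F‖ ≤ 1) →
    avm m (fun D => avm n fun F =>
      (θ D * (g₀ (a₀ * F + b₀ * D) * ∏ j, g j (a j * F + b j * D))).re) ≤ η / m

/-- All2: the estimate for all dilations in characteristic two. -/
def StAll2 : Prop :=
  ∀ (k : Type) [Field k] [Fintype k] [CharP k 2] (f : k[X] → ℂ), Mul1 f → Pret f →
    ∀ (ι : Type) [Fintype ι] (a₀ b₀ : k[X]) (a b : ι → k[X]), a₀.Monic →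
    (∀ j, a₀ * b j ≠ a j * b₀) → ∀ η : ℝ, 0 < η → ∃ m₀ : ℕ, ∀ m, m₀ ≤ m → ∃ n₀ : ℕ,
    ∀ n, n₀ ≤ n → ∀ (θ : k[X] → ℂ) (g : ι → k[X] → ℂ), (∀ D, ‖θ D‖ ≤ 1) → (∀ j F, ‖g j F‖ ≤ 1) →
    avm m (fun D => avm n fun F =>
      (θ D * (f (a₀ * F + b₀ * D) * ∏ j, g j (a j * F + b j * D))).re) ≤ η / m

/-- LU: local uniformity. -/
def StLU : Prop :=
  ∀ (k : Type) [Field k] [Fintype k] (f : k[X] → ℂ), Mul1 f → Pret f → LU f

/-- Step: most of the degrees below a given large degree are good. -/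
def StStep : Prop :=
  ∀ (k : Type) [Field k] [Fintype k] (ι : Type) [Fintype ι] (a b : ι → k[X])
    (f : ι → k[X] → ℂ) (i₀ : ι), (∀ i, (a i).Monic) → (∀ j, j ≠ i₀ → a i₀ * b j ≠ a j * b i₀) →
    (∀ i, Mul1 (f i)) → (∀ i, Uni (f i)) → LU (f i₀) → ∀ δ : ℝ, 0 < δ → ∃ (B : ℝ) (m₀ : ℕ),
    ∀ m₁ : ℕ, ∃ n₀ : ℕ, ∀ n, n₀ ≤ n → ∑ m ∈ Finset.Ico m₀ m₁, ‖cor a b f (n - m)‖ / m ≤
      B + δ * ∑ m ∈ Finset.Ico m₀ m₁, 1 / (m : ℝ)

/-- Ces: passage to the mean over the degrees. -/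
def StCes : Prop :=
  ∀ c : ℕ → ℝ, (∀ n, 0 ≤ c n) → (∀ n, c n ≤ 1) →
    (∀ δ : ℝ, 0 < δ → ∃ (B : ℝ) (m₀ : ℕ), ∀ m₁ : ℕ, ∃ n₀ : ℕ, ∀ n, n₀ ≤ n →
      ∑ m ∈ Finset.Ico m₀ m₁, c (n - m) / m ≤ B + δ * ∑ m ∈ Finset.Ico m₀ m₁, 1 / (m : ℝ)) →
    Tendsto (fun N : ℕ => (∑ n ∈ Finset.range N, c n) / N) atTop (𝓝 0)

/-- KvN: a common set of density one. -/
def StKvN : Prop :=
  ∀ (I : Type) [Countable I] (c : I → ℕ → ℝ), (∀ i n, 0 ≤ c i n) → (∀ i n, c i n ≤ 1) →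
    (∀ i, Tendsto (fun N : ℕ => (∑ n ∈ Finset.range N, c i n) / N) atTop (𝓝 0)) →
    ∃ S : Set ℕ, Tendsto (fun N : ℕ => ((S ∩ Set.Iio N).ncard : ℝ) / N) atTop (𝓝 1) ∧
      ∀ i, Tendsto (c i) (atTop ⊓ 𝓟 S) (𝓝 0)

/-- Zero: a function whose modulus is far from one is small in the mean. -/
def StZero : Prop :=
  ∀ (k : Type) [Field k] [Fintype k] (f : k[X] → ℂ), Mul1 f → ¬ Uni f →
    Tendsto (fun n : ℕ => avm n fun F => ‖f F‖) atTop (𝓝 0)

/-- Ell: the correlations vanish in the mean over the degrees. -/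
def StEll : Prop :=
  ∀ (k : Type) [Field k] [Fintype k] (ι : Type) [Fintype ι] (a b : ι → k[X])
    (f : ι → k[X] → ℂ) (i₀ : ι), (∀ i, (a i).Monic) → (∀ j, j ≠ i₀ → a i₀ * b j ≠ a j * b i₀) →
    (∀ i, Mul1 (f i)) → Pret (f i₀) →
    Tendsto (fun N : ℕ => (∑ n ∈ Finset.range N, ‖cor a b f n‖) / N) atTop (𝓝 0)

section Api

variable {k : Type} [Field k] [Fintype k]

theorem mem_Mn {n : ℕ} {F : k[X]} : F ∈ Mn k n ↔ MD n F := by
  rw [Mn, Finset.mem_filter, mem_Mo]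
  exact ⟨fun h => ⟨h.1.1, h.2⟩, fun h => ⟨⟨h.1, h.2.le⟩, h.2⟩⟩

theorem card_Mn (n : ℕ) : ((Mn k n).card : ℝ) = qR k ^ n := card_MD n n le_rfl

theorem avm_eq (n : ℕ) (F : k[X] → ℝ) : avm n F = (∑ f ∈ Mn k n, F f) / qR k ^ n := avm_eq_sum

theorem ex_Pn (n : ℕ) (F : k[X] → ℝ) : ex (Pn k n) F = avg n F := by rw [ex, card_Pn, avg]

theorem ex_Mn (n m : ℕ) (F : k[X] × k[X] → ℝ) :
    ex (Mn k n ×ˢ Mn k m) F = avm m fun D => avm n fun G => F (G, D) := by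
  simp only [avm_eq]
  rw [ex, Finset.sum_product_right, Finset.card_product, Nat.cast_mul, card_Mn, card_Mn,
    ← Finset.sum_div, div_div]

theorem mem_PrW {a g : ℕ} {P : k[X]} :
    P ∈ PrW k a g ↔ IsP P ∧ a ≤ P.natDegree ∧ P.natDegree < a + g := by
  rw [PrW, Finset.mem_filter, mem_PrL]
  tauto

theorem avm_tr {m : ℕ} {A β : k[X]} {F : k[X] → ℝ} (hA : A.Monic)
    (hβ : β.degree < (A.natDegree + m : ℕ)) (hF : ∀ f, 0 ≤ F f) :
    avm m (fun b => F (A * b + β)) ≤ Nm A * avm (A.natDegree + m) F :=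
  Cw.stTr k m A β F hA hβ hF

open MP_a3f657_nt.Two UniqueFactorizationMonoid in
theorem gauss {m : ℕ} (hm : 1 ≤ m) :
    ∑ p ∈ (irrLe k m).filter (fun p => p.natDegree ∣ m), p.natDegree = Fintype.card k ^ m := by
  have hq : 1 < Fintype.card k ^ m := Nat.one_lt_pow (by omega) Fintype.one_lt_card
  have h1 : (X ^ Fintype.card k ^ m - X : k[X]).Monic :=
    monic_X_pow_sub (by rw [degree_X]; exact_mod_cast hq)
  have h2 : Squarefree (X ^ Fintype.card k ^ m - X : k[X]) := by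
    obtain ⟨n, -, hn⟩ := FiniteField.card k (ringChar k)
    refine (galois_poly_separable (ringChar k) _ ?_).squarefree
    rw [hn]
    exact dvd_pow (dvd_pow_self _ n.ne_zero) (by omega)
  have h3 : (irrLe k m).filter (fun p => p.natDegree ∣ m) =
      (normalizedFactors (X ^ Fintype.card k ^ m - X : k[X])).toFinset := by
    ext p
    rw [Finset.mem_filter, mem_irrLe, Multiset.mem_toFinset,
      Polynomial.mem_normalizedFactors_iff h1.ne_zero, ← Nat.card_eq_fintype_card]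
    constructor
    · rintro ⟨⟨-, h4, h5⟩, h6⟩
      exact ⟨h5, h4, h5.natDegree_dvd_iff_dvd_X_pow_card_pow_sub_X.1 h6⟩
    · rintro ⟨h5, h4, h6⟩
      have h7 := h5.natDegree_dvd_iff_dvd_X_pow_card_pow_sub_X.2 h6
      exact ⟨⟨Nat.le_of_dvd hm h7, h4, h5⟩, h7⟩
  rw [← natDegree_prod_of_monic _ _ fun p hp => (mem_irrLe.1 (Finset.mem_filter.1 hp).1).2.1, h3,
    prod_toFinset_nf h1 h2, FiniteField.X_pow_card_pow_sub_X_natDegree_eq _ (by omega)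
    Fintype.one_lt_card]

theorem deg_le (e : ℕ) (s : Finset k[X]) (hs : ∀ p ∈ s, IsP p ∧ p.natDegree = e) :
    ∑ p ∈ s, p.natDegree ≤ Fintype.card k ^ e := by
  rcases Nat.eq_zero_or_pos e with rfl | he
  · exact (Finset.sum_eq_zero fun p hp => (hs p hp).2).trans_le (Nat.zero_le _)
  · rw [← gauss he]
    exact Finset.sum_le_sum_of_subset fun p hp => Finset.mem_filter.2
      ⟨MP_a3f657_nt.Two.mem_irrLe.2 ⟨(hs p hp).2.le, (hs p hp).1⟩, (hs p hp).2 ▸ dvd_rfl⟩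

/-- Upper bound for the number of primes. -/
theorem card_PrD_le (d : ℕ) : (d : ℝ) * (PrD k d).card ≤ qR k ^ d := by
  have h := deg_le d (PrD k d) fun p hp => mem_PrD.1 hp
  rw [Cw.CwPr.sum_deg] at h
  rw [qR]
  exact_mod_cast h

/-- Lower bound for the number of primes. -/
theorem le_card_PrD {d : ℕ} (hd : 3 ≤ d) : qR k ^ d ≤ 2 * d * (PrD k d).card := by
  have hq : 2 ≤ Fintype.card k := Fintype.one_lt_card
  obtain ⟨c, rfl⟩ : ∃ c, d = c + 1 := ⟨d - 1, by omega⟩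
  have h1 := gauss (k := k) (m := c + 1) (by omega)
  generalize hs : (MP_a3f657_nt.Two.irrLe k (c + 1)).filter (·.natDegree ∣ c + 1) = s at h1
  have m : ∀ p ∈ s, IsP p ∧ p.natDegree ∣ c + 1 := fun p hp => by
    rw [← hs, Finset.mem_filter] at hp
    exact ⟨(MP_a3f657_nt.Two.mem_irrLe.1 hp.1).2, hp.2⟩
  rw [← Finset.sum_fiberwise_of_maps_to (g := natDegree) (t := insert (c + 1) (Finset.range c))
    fun p hp => by
      have a := Nat.le_of_dvd c.succ_pos (m p hp).2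
      have b : p.natDegree ≠ c := fun e => by
        have := (Nat.dvd_add_right (dvd_refl c)).1 (e ▸ (m p hp).2)
        have := Nat.le_of_dvd one_pos this
        omega
      simp only [Finset.mem_insert, Finset.mem_range]
      omega, Finset.sum_insert (by simp)] at h1
  have h2 : ∑ p ∈ s with p.natDegree = c + 1, p.natDegree ≤ (c + 1) * (PrD k (c + 1)).card := by
    rw [← Cw.CwPr.sum_deg]
    exact Finset.sum_le_sum_of_subset fun p hp =>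
      mem_PrD.2 ⟨(m p (Finset.mem_filter.1 hp).1).1, (Finset.mem_filter.1 hp).2⟩
  have h3 : ∑ e ∈ Finset.range c, ∑ p ∈ s with p.natDegree = e, p.natDegree <
      Fintype.card k ^ c :=
    (Finset.sum_le_sum fun e _ => deg_le e _ fun p hp =>
      ⟨(m p (Finset.mem_filter.1 hp).1).1, (Finset.mem_filter.1 hp).2⟩).trans_lt
      (Nat.geomSum_lt hq fun _ => Finset.mem_range.1)
  have h4 : Fintype.card k ^ (c + 1) ≤ 2 * (c + 1) * (PrD k (c + 1)).card := by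
    have := Nat.mul_le_mul_left (Fintype.card k ^ c) hq
    rw [← pow_succ] at this
    nlinarith
  rw [qR]
  exact_mod_cast h4

end Api

end Pool.Agent.Lib.MP_232f4c_nt.Od
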