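import Pool.Agent.Lib.MP_232f4c_nt.OdDefs
import Pool.Agent.Lib.MP_0a06fe_nt.Ent

/-! The entropy decrement argument at a fixed degree. -/

namespace Pool.Agent.Lib.MP_232f4c_nt.Od

namespace OdEnt

section Abstract

open Finset Pool.Agent.Lib.MP_0a06fe_nt

variable {Ω : Type} [Fintype Ω] {α β γ δ : Type} {P : Ω → ℝ}

/-- Mutual information. -/
noncomputable def MI (P : Ω → ℝ) (f : Ω → α) (g : Ω → β) : ℝ :=
  H P f + H P g - H P fun ω => (f ω, g ω)

theorem H_comp (T : Ω ≃ Ω) (hT : ∀ ω, P (T ω) = P ω) (f : Ω → α) :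
    H P (fun ω => f (T ω)) = H P f := by
  classical
  have hm : ∀ a, mass P (fun ω => f (T ω)) a = mass P f a := fun a => by
    rw [mass_eq, mass_eq, ← T.sum_comp fun ω => if f ω = a then P ω else 0]
    exact Finset.sum_congr rfl fun ω _ => by rw [hT]
  unfold H
  rw [← T.sum_comp fun ω => P ω * -Real.log (mass P f (f ω))]
  exact Finset.sum_congr rfl fun ω _ => by rw [hm, hT]

theorem MI_nonneg (hP : ∀ ω, 0 ≤ P ω) (h1 : ∑ ω, P ω = 1) (f : Ω → α) (g : Ω → β) :
    0 ≤ MI P f g := by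
  have := submod hP h1 f g (fun _ => ()) (fun ω => (f ω, g ω)) (fun _ _ _ => rfl)
    (fun _ _ _ => rfl) (fun _ _ a b => Prod.ext a b)
  rw [H_const h1] at this
  unfold MI
  linarith

/-- Conditional subadditivity. -/
theorem H_cond_sum (hP : ∀ ω, 0 ≤ P ω) (h1 : ∑ ω, P ω = 1) {ι : Type} (s : Finset ι)
    (f : ι → Ω → α) (v : Ω → γ) : ∀ (δ : Type) (u : Ω → δ),
    (∀ ω ω', (∀ i ∈ s, f i ω = f i ω') → v ω = v ω' → u ω = u ω') →
    H P u - H P v ≤ ∑ i ∈ s, (H P (fun ω => (f i ω, v ω)) - H P v) := by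
  classical
  induction s using Finset.induction_on with
  | empty =>
    intro δ u hu
    have := H_le_of_det hP u v fun ω ω' _ _ h => hu ω ω' (by simp) h
    simpa using this
  | insert j s hj ih =>
    intro δ u hu
    rw [Finset.sum_insert hj]
    have h2 := ih _ (fun ω => ((fun i : s => f i ω), v ω)) fun ω ω' a b =>
      Prod.ext (funext fun i => a i i.2) b
    have h3 := submod hP h1 (fun ω => (f j ω, v ω)) (fun ω => ((fun i : s => f i ω), v ω)) v u
      (fun _ _ h => congrArg Prod.snd h) (fun _ _ h => congrArg Prod.snd h) fun ω ω' a b =>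
        hu ω ω' (fun i hi => by
          rcases Finset.mem_insert.1 hi with rfl | hi
          · exact congrArg Prod.fst a
          · exact congrFun (congrArg Prod.fst b) ⟨i, hi⟩) (congrArg Prod.snd a)
    linarith

/-- One step: the long window `X'` is read off `card C` translates of the short window `X`. -/
theorem step (hP : ∀ ω, 0 ≤ P ω) (h1 : ∑ ω, P ω = 1) {C α' γ' : Type} [Fintype C]
    (X : Ω → α) (X' : Ω → α') (Y : Ω → β) (Z : Ω → γ) (Z' : Ω → γ') (T : C → Ω ≃ Ω)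
    (hT : ∀ c ω, P (T c ω) = P ω)
    (hX : ∀ ω ω', (∀ c, X (T c ω) = X (T c ω')) → X' ω = X' ω')
    (hZ : ∀ ω ω', Y ω = Y ω' → Z ω = Z ω' → Z' ω = Z' ω')
    (hZT : ∀ c ω ω', Z' (T c ω) = Z' (T c ω') ↔ Z' ω = Z' ω')
    (hind : H P Z + H P Y ≤ H P Z') :
    H P (fun ω => (X' ω, Z' ω)) - H P Z' ≤
      Fintype.card C * (H P (fun ω => (X ω, Z ω)) - H P Z - MI P X Y) := by
  have h2 := H_cond_sum hP h1 (Finset.univ : Finset C) (fun c ω => X (T c ω)) Z' _
    (fun ω => (X' ω, Z' ω)) fun ω ω' a b => Prod.ext (hX ω ω' fun c => a c (mem_univ c)) b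
  have h3 : ∀ c, H P (fun ω => (X (T c ω), Z' ω)) = H P fun ω => (X ω, Z' ω) := fun c => by
    rw [← H_comp (T c) (hT c) fun ω => (X ω, Z' ω)]
    refine H_eq_of_det hP _ _ fun ω ω' _ _ => ?_
    simp only [Prod.mk.injEq, hZT]
  have h4 := submod hP h1 (fun ω => (X ω, Y ω)) (fun ω => (X ω, Z ω)) X (fun ω => (X ω, Z' ω))
    (fun _ _ h => congrArg Prod.fst h) (fun _ _ h => congrArg Prod.fst h) fun ω ω' a b =>
      Prod.ext (Prod.mk.inj a).1 (hZ ω ω' (Prod.mk.inj a).2 (Prod.mk.inj b).2)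
  simp only [h3, Finset.sum_const, Finset.card_univ, nsmul_eq_mul] at h2
  refine h2.trans (mul_le_mul_of_nonneg_left ?_ (Nat.cast_nonneg _))
  unfold MI
  linarith

theorem cond_nonneg (hP : ∀ ω, 0 ≤ P ω) (X : Ω → α) (Z : Ω → γ) :
    0 ≤ H P (fun ω => (X ω, Z ω)) - H P Z :=
  sub_nonneg.2 (H_le_of_det hP _ _ fun _ _ _ _ h => congrArg Prod.snd h)

theorem cond_le (hP : ∀ ω, 0 ≤ P ω) (h1 : ∑ ω, P ω = 1) (X : Ω → α) (Z : Ω → γ) :
    H P (fun ω => (X ω, Z ω)) - H P Z ≤ H P X := by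
  have := MI_nonneg hP h1 X Z
  unfold MI at this
  linarith

/-- The entropy decrement inequality. -/
theorem decrement (hP : ∀ ω, 0 ≤ P ω) (h1 : ∑ ω, P ω = 1) {C : Type} [Fintype C] [Nonempty C]
    (X : ℕ → Ω → α) (Y : ℕ → Ω → β) (Z : ℕ → Ω → γ) (T : ℕ → C → Ω ≃ Ω) (m₀ N : ℕ)
    (hT : ∀ m c ω, P (T m c ω) = P ω)
    (hX : ∀ m, m₀ ≤ m → m < m₀ + N → ∀ ω ω', (∀ c, X m (T m c ω) = X m (T m c ω')) →
      X (m + 1) ω = X (m + 1) ω')
    (hZ : ∀ m, m₀ ≤ m → m < m₀ + N → ∀ ω ω', Y m ω = Y m ω' → Z m ω = Z m ω' →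
      Z (m + 1) ω = Z (m + 1) ω')
    (hZT : ∀ m, m₀ ≤ m → m < m₀ + N → ∀ c ω ω',
      Z (m + 1) (T m c ω) = Z (m + 1) (T m c ω') ↔ Z (m + 1) ω = Z (m + 1) ω')
    (hind : ∀ m, m₀ ≤ m → m < m₀ + N → H P (Z m) + H P (Y m) ≤ H P (Z (m + 1))) :
    ∑ m ∈ Finset.Ico m₀ (m₀ + N), MI P (X m) (Y m) / (Fintype.card C : ℝ) ^ m ≤
      H P (X m₀) / (Fintype.card C : ℝ) ^ m₀ := by
  have hq : (0 : ℝ) < Fintype.card C := Nat.cast_pos.2 Fintype.card_pos
  have key : ∀ j, j ≤ N → ∑ m ∈ Finset.Ico m₀ (m₀ + j), MI P (X m) (Y m) / (Fintype.card C : ℝ) ^ m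
      + (H P (fun ω => (X (m₀ + j) ω, Z (m₀ + j) ω)) - H P (Z (m₀ + j))) /
        (Fintype.card C : ℝ) ^ (m₀ + j) ≤ H P (X m₀) / (Fintype.card C : ℝ) ^ m₀ := by
    intro j
    induction j with
    | zero =>
      intro _
      simp only [add_zero, Finset.Ico_self, Finset.sum_empty, zero_add]
      exact div_le_div_of_nonneg_right (cond_le hP h1 _ _) (pow_pos hq _).le
    | succ j ih =>
      intro hj
      have a : m₀ ≤ m₀ + j := by omega
      have b : m₀ + j < m₀ + N := by omega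
      have h2 := step hP h1 (X (m₀ + j)) (X (m₀ + j + 1)) (Y (m₀ + j)) (Z (m₀ + j))
        (Z (m₀ + j + 1)) (T (m₀ + j)) (hT _) (hX _ a b) (hZ _ a b) (hZT _ a b) (hind _ a b)
      rw [← add_assoc, Finset.sum_Ico_succ_top a]
      refine le_trans ?_ (ih (by omega))
      rw [add_assoc, add_le_add_iff_left, ← le_sub_iff_add_le', ← sub_div, pow_succ,
        div_le_div_iff₀ (by positivity) (by positivity)]
      have := mul_le_mul_of_nonneg_right h2 (pow_pos hq (m₀ + j)).le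
      linarith
  have := key N le_rfl
  have h3 := div_nonneg (cond_nonneg hP (X (m₀ + N)) (Z (m₀ + N))) (pow_pos hq (m₀ + N)).le
  linarith

/-- The Donsker-Varadhan bound. -/
theorem dv (hP : ∀ ω, 0 ≤ P ω) (h1 : ∑ ω, P ω = 1) (X : Ω → α) (Y : Ω → β) (G : α → β → ℝ)
    (K : ℝ) (hG : ∀ ω, ∑ ω', P ω' * Real.exp (G (X ω) (Y ω')) ≤ Real.exp K) :
    ∑ ω, P ω * G (X ω) (Y ω) ≤ K + MI P X Y := by
  classical
  have h := var_ineq hP h1 X Y (fun _ => ()) (fun _ _ _ => rfl) (fun _ _ _ => rfl)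
    (fun a b => Real.exp (G a b - K)) (fun _ _ => Real.exp_pos _) ?_
  · rw [H_const h1] at h
    simp only [Real.log_exp, mul_sub, Finset.sum_sub_distrib, ← Finset.sum_mul, h1] at h
    unfold MI
    linarith
  · have hm : mass P (fun _ => ()) () = 1 := by
      rw [mass_eq]
      simpa using h1
    simp only [hm, if_true, div_one]
    refine le_trans (Finset.sum_le_sum fun ω _ => ?_) h1.le
    have : ∑ ω', P ω * P ω' * Real.exp (G (X ω) (Y ω') - K) =
        P ω * ((∑ ω', P ω' * Real.exp (G (X ω) (Y ω'))) / Real.exp K) := by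
      rw [Finset.sum_div, Finset.mul_sum]
      refine Finset.sum_congr rfl fun ω' _ => ?_
      rw [Real.exp_sub]
      ring
    rw [this]
    exact mul_le_of_le_one_right (hP ω) ((div_le_one (Real.exp_pos K)).2 (hG ω))

/-- A variable with values in a set `S` has entropy at most `log (card S)`. -/
theorem H_le_log (hP : ∀ ω, 0 ≤ P ω) (h1 : ∑ ω, P ω = 1) (X : Ω → α) (S : Finset α)
    (hS : ∀ ω, X ω ∈ S) (h0 : S.Nonempty) : H P X ≤ Real.log S.card := by
  have hc : (0 : ℝ) < S.card := Nat.cast_pos.2 h0.card_pos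
  have := gibbs_image hP h1 X (fun _ => (S.card : ℝ)⁻¹) (fun _ => by positivity) S hS
    (by simp [hc.ne']) (fun _ _ => by positivity)
  simpa [← Finset.sum_mul, h1] using this

/-- The Donsker-Varadhan bound for a function of two sample points. -/
theorem dv2 (hP : ∀ ω, 0 ≤ P ω) (h1 : ∑ ω, P ω = 1) (X : Ω → α) (Y : Ω → β) (G : Ω → Ω → ℝ)
    (hX : ∀ ω₁ ω₂ ω, X ω₁ = X ω₂ → G ω₁ ω = G ω₂ ω)
    (hY : ∀ ω ω₁ ω₂, Y ω₁ = Y ω₂ → G ω ω₁ = G ω ω₂)
    (K : ℝ) (hG : ∀ ω, ∑ ω', P ω' * Real.exp (G ω ω') ≤ Real.exp K) :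
    ∑ ω, P ω * G ω ω ≤ K + MI P X Y := by
  classical
  have key : ∀ ω ω', (fun a b => if h : (∃ ω, X ω = a) ∧ ∃ ω, Y ω = b then
      G h.1.choose h.2.choose else 0) (X ω) (Y ω') = G ω ω' := fun ω ω' => by
    have h : (∃ ω₁, X ω₁ = X ω) ∧ ∃ ω₁, Y ω₁ = Y ω' := ⟨⟨ω, rfl⟩, ⟨ω', rfl⟩⟩
    simp only [dif_pos h]
    rw [hX _ ω _ h.1.choose_spec, hY _ _ ω' h.2.choose_spec]
  have := dv hP h1 X Y (fun a b => if h : (∃ ω, X ω = a) ∧ ∃ ω, Y ω = b then
      G h.1.choose h.2.choose else 0) K fun ω => by simpa only [key] using hG ω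
  simpa only [key] using this

end Abstract

open Polynomial Pool.Agent.Lib.MP_9227d9_nt.Mob Pool.Agent.Lib.MP_0a06fe_nt

open scoped Classical

variable {k : Type} [Field k] [Fintype k] {n : ℕ}

/-- The uniform weight. -/
noncomputable def PP (k : Type) [Field k] [Fintype k] (n : ℕ) : Pn k n → ℝ :=
  fun _ => 1 / qR k ^ n

theorem PP_nonneg (ω : Pn k n) : 0 ≤ PP k n ω := (one_div_pos.2 (qR_pow_pos n)).le

theorem sum_PP (F : k[X] → ℝ) : ∑ ω : Pn k n, PP k n ω * F ω = avg n F := by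
  unfold PP avg
  rw [Finset.sum_coe_sort (Pn k n) fun v => 1 / qR k ^ n * F v, Finset.sum_div]
  exact Finset.sum_congr rfl fun v _ => by ring

theorem PP_one : ∑ ω : Pn k n, PP k n ω = 1 := by
  simpa [avg_const] using sum_PP (n := n) fun _ : k[X] => (1 : ℝ)

/-- The translation by `t`. -/
noncomputable def sh (n : ℕ) (t : k[X]) : Pn k n ≃ Pn k n :=
  if ht : t.degree < n then
    { toFun := fun v => ⟨v + t,
        mem_Pn.2 ((degree_add_le _ _).trans_lt (max_lt (mem_Pn.1 v.2) ht))⟩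
      invFun := fun v => ⟨v - t,
        mem_Pn.2 ((degree_sub_le _ _).trans_lt (max_lt (mem_Pn.1 v.2) ht))⟩
      left_inv := fun v => by simp
      right_inv := fun v => by simp }
  else Equiv.refl _

theorem sh_val {t : k[X]} (ht : t.degree < n) (v : Pn k n) : (sh n t v : k[X]) = v + t := by
  simp [sh, ht]

/-- The residue class of `F` modulo `M`. -/
def cl (M F : k[X]) : Set k[X] := {G | M ∣ G - F}

omit [Fintype k] in
theorem cl_eq {M F F' : k[X]} : cl M F = cl M F' ↔ M ∣ F - F' := by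
  constructor
  · intro h
    have : F ∈ cl M F := by simp [cl]
    rw [h] at this
    exact this
  · intro h
    ext G
    simp only [cl, Set.mem_ofPred_eq]
    constructor
    · intro h'
      simpa using dvd_add h' h
    · intro h'
      simpa using dvd_sub h' h

theorem H_cl {M : k[X]} (hM : M ≠ 0) (hn : M.natDegree ≤ n) :
    H (PP k n) (fun ω => cl M ω) = M.natDegree * Real.log (qR k) := by
  have hm : ∀ ω : Pn k n, mass (PP k n) (fun ω => cl M ω) (cl M ω) = 1 / Nm M := fun ω => by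
    rw [mass_eq, ← avg_dvd hM hn isCoprime_one_left (-(ω : k[X])), ← sum_PP]
    refine Finset.sum_congr rfl fun v _ => ?_
    have : -(ω : k[X]) + 1 * v = v - ω := by ring
    simp only [cl_eq, this, mul_ite, mul_one, mul_zero]
  unfold H
  simp only [hm]
  rw [← Finset.sum_mul, PP_one, one_mul, one_div, Real.log_inv, neg_neg, Nm, Real.log_pow]

/-- The product of the primes of degree `m`. -/
noncomputable def RR (k : Type) [Field k] [Fintype k] (m : ℕ) : k[X] := ∏ p ∈ PrD k m, p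

/-- The product of the primes of degree less than `m`. -/
noncomputable def QR (k : Type) [Field k] [Fintype k] (m : ℕ) : k[X] :=
  ∏ j ∈ Finset.range m, RR k j

theorem RR_ne (m : ℕ) : RR k m ≠ 0 :=
  Finset.prod_ne_zero_iff.2 fun _ hp => (mem_PrD.1 hp).1.1.ne_zero

theorem QR_ne (m : ℕ) : QR k m ≠ 0 := Finset.prod_ne_zero_iff.2 fun j _ => RR_ne j

theorem QR_succ (m : ℕ) : QR k (m + 1) = QR k m * RR k m := Finset.prod_range_succ _ _

theorem cop (m : ℕ) : IsCoprime (QR k m) (RR k m) := by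
  refine IsCoprime.prod_left fun j hj => IsCoprime.prod_left fun p hp =>
    IsCoprime.prod_right fun p' hp' => (mem_PrD.1 hp).1.isCoprime (mem_PrD.1 hp').1 fun h => ?_
  have h1 := (mem_PrD.1 hp).2
  have h2 := (mem_PrD.1 hp').2
  have h3 := Finset.mem_range.1 hj
  rw [h] at h1
  omega

theorem QR_le {m m₁ : ℕ} (h : m < m₁) :
    (QR k m).natDegree + (RR k m).natDegree ≤ (QR k m₁).natDegree := by
  rw [← natDegree_mul (QR_ne m) (RR_ne m), ← QR_succ]
  exact natDegree_le_of_dvd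
    (Finset.prod_dvd_prod_of_subset _ _ _ (Finset.range_subset_range.2 h)) (QR_ne m₁)

/-- The window of length `h`. -/
noncomputable def win {S : Type} (V : k[X] → S) (n h : ℕ) (ω : Pn k n) : k[X] → Option S :=
  fun t => if t.degree < h then some (V (X ^ n + ω.1 + t)) else none

theorem win_eq {S : Type} {V : k[X] → S} {h : ℕ} {ω ω' : Pn k n} :
    win V n h ω = win V n h ω' ↔
      ∀ t : k[X], t.degree < h → V (X ^ n + ω.1 + t) = V (X ^ n + ω'.1 + t) := by
  constructor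
  · intro e t ht
    simpa [win, ht] using congrFun e t
  · intro e
    funext t
    by_cases ht : t.degree < h
    · simp only [win, if_pos ht, e t ht]
    · simp only [win, if_neg ht]

omit [Fintype k] in
theorem deg_cut {t : k[X]} {h : ℕ} (ht : t.degree < (h + 1 : ℕ)) :
    (t - C (t.coeff h) * X ^ h).degree < (h : WithBot ℕ) := by
  rw [degree_lt_iff_coeff_zero] at ht ⊢
  intro j hj
  rw [coeff_sub, coeff_C_mul_X_pow]
  split_ifs with e
  · rw [e, sub_self]
  · rw [ht j (by omega), sub_zero]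

theorem sum_MI {S : Type} [Fintype S] (V : k[X] → S) {e m₁ : ℕ}
    (hn : (QR k m₁).natDegree + m₁ + e ≤ n) :
    ∑ m ∈ Finset.range m₁,
      MI (PP k n) (win V n (m + e)) (fun ω => cl (RR k m) ω) / qR k ^ m ≤
      qR k ^ e * Real.log (Fintype.card S) := by
  have hd : ∀ m, m < 0 + m₁ → ∀ c : k, (C c * X ^ (m + e) : k[X]).degree < n := fun m hm c =>
    (degree_C_mul_X_pow_le _ _).trans_lt (by exact_mod_cast (by omega : m + e < n))
  have h := decrement (C := k) PP_nonneg PP_one (fun m => win V n (m + e))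
    (fun m (ω : Pn k n) => cl (RR k m) ω) (fun m (ω : Pn k n) => cl (QR k m) ω)
    (fun m c => sh n (C c * X ^ (m + e))) 0 m₁ (fun _ _ _ => rfl) ?_ ?_ ?_ ?_
  · rw [zero_add, ← Finset.range_eq_Ico, pow_zero, div_one, zero_add] at h
    refine h.trans ?_
    have h2 := H_cond_sum PP_nonneg PP_one (Pn k e) (fun t (ω : Pn k n) => V (X ^ n + ω.1 + t))
      (fun _ => ()) _ (win V n e) fun ω ω' a _ => win_eq.2 fun t ht => a t (mem_Pn.2 ht)
    rw [H_const PP_one, sub_zero] at h2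
    refine h2.trans ?_
    rw [← card_Pn, ← nsmul_eq_mul]
    refine Finset.sum_le_card_nsmul _ _ _ fun t _ => ?_
    rw [sub_zero]
    refine (H_le_of_det PP_nonneg _ (fun ω : Pn k n => V (X ^ n + ω.1 + t))
      fun _ _ _ _ h => Prod.ext h rfl).trans ?_
    exact H_le_log PP_nonneg PP_one _ Finset.univ (fun _ => Finset.mem_univ _)
      ⟨V 0, Finset.mem_univ _⟩
  · intro m _ hm ω ω' a
    refine win_eq.2 fun t ht => ?_
    have ht' : t.degree < (m + e + 1 : ℕ) := by rwa [add_right_comm] at ht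
    have := win_eq.1 (a (t.coeff (m + e))) _ (deg_cut ht')
    rw [sh_val (hd m hm _), sh_val (hd m hm _)] at this
    convert this using 2 <;> ring
  · intro m _ _ ω ω' a b
    rw [cl_eq] at a b ⊢
    rw [QR_succ]
    exact (cop m).mul_dvd b a
  · intro m _ hm c ω ω'
    rw [cl_eq, cl_eq, sh_val (hd m hm c), sh_val (hd m hm c), add_sub_add_right_eq_sub]
  · intro m _ hm
    have h3 := QR_le (k := k) (show m < m₁ by omega)
    have h4 : (QR k (m + 1)).natDegree = (QR k m).natDegree + (RR k m).natDegree := by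
      rw [QR_succ, natDegree_mul (QR_ne m) (RR_ne m)]
    rw [H_cl (QR_ne m) (by omega), H_cl (RR_ne m) (by omega), H_cl (QR_ne (m + 1)) (by omega), h4]
    push_cast
    linarith

/-- The mean zero weight. -/
noncomputable def ww (P F : k[X]) : ℝ := (if P ∣ F then Nm P else 0) - 1

theorem avg_ind {P : k[X]} (hP : P ≠ 0) (F : k[X]) :
    avg P.natDegree (fun h => if P ∣ F + h then Nm P else 0) = 1 := by
  have h := avg_dvd hP le_rfl isCoprime_one_left F
  have h2 : Nm P ≠ 0 := (qR_pow_pos _).ne'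
  rw [avg_congr (G := fun t => Nm P * if P ∣ F + 1 * t then 1 else 0) fun v _ => by simp,
    avg_mul_left, h, mul_one_div_cancel h2]

theorem avg_ww {P : k[X]} (hP : P ≠ 0) (F : k[X]) :
    avg P.natDegree (fun h => ww P (F + h)) = 0 := by
  unfold ww
  rw [avg_sub, avg_ind hP, avg_const, sub_self]

/-- The local test function. -/
noncomputable def ph (Ψ : k[X] → ℝ) (P F F' : k[X]) : ℝ :=
  avg P.natDegree fun h => ww P (F' + h) * Ψ (F + h)

theorem ph_le {Ψ : k[X] → ℝ} (hΨ : ∀ F, |Ψ F| ≤ 1) {P : k[X]} (hP : P ≠ 0) (F F' : k[X]) :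
    |ph Ψ P F F'| ≤ 2 := by
  refine abs_avg_le.trans ?_
  have h0 : 0 < Nm P := qR_pow_pos _
  have h : avg P.natDegree (fun h => (if P ∣ F' + h then Nm P else 0) + 1) = 2 := by
    rw [avg_add, avg_ind hP, avg_const]
    norm_num
  rw [← h]
  refine avg_mono fun v _ => ?_
  rw [abs_mul]
  refine (mul_le_of_le_one_right (abs_nonneg _) (hΨ _)).trans ?_
  unfold ww
  split_ifs
  · exact abs_le.2 ⟨by linarith, by linarith⟩
  · simp

theorem ph_per (Ψ : k[X] → ℝ) (P F F' t : k[X]) : ph Ψ P F (F' + P * t) = ph Ψ P F F' := by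
  refine avg_congr fun v _ => ?_
  have : P ∣ F' + P * t + v ↔ P ∣ F' + v := by
    rw [add_right_comm]
    exact dvd_add_left (dvd_mul_right P t)
  simp only [ww, this]

theorem ph_mean (Ψ : k[X] → ℝ) {P : k[X]} (hP : P ≠ 0) (F : k[X]) :
    avg P.natDegree (ph Ψ P F) = 0 := by
  unfold ph
  rw [avg_comm, avg_congr (G := fun _ => 0) fun h _ => ?_, avg_const]
  rw [avg_mul_right]
  simp only [add_comm _ h]
  rw [avg_ww hP, zero_mul]

theorem ph_exp {Ψ : k[X] → ℝ} (hΨ : ∀ F, |Ψ F| ≤ 1) {P : k[X]} (hP : P ≠ 0) (F : k[X]) {η : ℝ}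
    (h0 : 0 ≤ η) (h1 : 2 * η ≤ 1) :
    avg P.natDegree (fun F' => Real.exp (η * ph Ψ P F F')) ≤ Real.exp (4 * η ^ 2) := by
  have h : avg P.natDegree (fun F' => (1 + 4 * η ^ 2) + η * ph Ψ P F F') = 4 * η ^ 2 + 1 := by
    rw [avg_add, avg_const, avg_mul_left, ph_mean Ψ hP]
    ring
  refine le_trans ?_ (Real.add_one_le_exp _)
  rw [← h]
  refine avg_mono fun v _ => ?_
  have h2 : |η * ph Ψ P F v| ≤ 2 * η := by
    rw [abs_mul, abs_of_nonneg h0, mul_comm]
    exact mul_le_mul_of_nonneg_right (ph_le hΨ hP F v) h0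
  have h3 := (abs_le.1 (Real.abs_exp_sub_one_sub_id_le (h2.trans h1))).2
  have h4 : (η * ph Ψ P F v) ^ 2 ≤ (2 * η) ^ 2 := sq_le_sq' (abs_le.1 h2).1 (abs_le.1 h2).2
  nlinarith

theorem avm_ind {P : k[X]} (hP : P.Monic) (hn : P.natDegree ≤ n) (Ψ : k[X] → ℝ) :
    avm n (fun F => (if P ∣ F then Nm P else 0) * Ψ F) =
      avm (n - P.natDegree) fun G => Ψ (P * G) := by
  obtain ⟨d, rfl⟩ := Nat.exists_eq_add_of_le hn
  rw [Ff.avm_split hP, Nat.add_sub_cancel_left,
    avg_congr (G := fun r => (if P ∣ 0 + r then Nm P else 0) * avm d fun G => Ψ (P * G))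
      fun r hr => ?_, avg_mul_right, avg_ind hP.ne_zero, one_mul]
  rw [← avm_mul_left, zero_add]
  refine avm_congr fun G _ => ?_
  simp only [dvd_add_left (dvd_mul_right P G)]
  split_ifs with h
  · rw [eq_zero_of_dvd_of_degree_lt h (by rwa [degree_eq_natDegree hP.ne_zero]), zero_add]
  · simp

theorem avg_ph {P : k[X]} (hP : P.Monic) (hn : P.natDegree ≤ n) (Ψ : k[X] → ℝ) :
    avg n (fun v => ph Ψ P (X ^ n + v) (X ^ n + v)) =
      avm (n - P.natDegree) (fun G => Ψ (P * G)) - avm n Ψ := by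
  symm
  rw [← avm_ind hP hn, ← avm_sub, avm, avg_avg_shift P.natDegree (fun t => t)
    fun t ht => ht.trans_le (by exact_mod_cast hn)]
  refine avg_congr fun v _ => avg_congr fun t _ => ?_
  simp only [ww, add_assoc]
  ring

theorem scale {S : Type} (V : k[X] → S) (Ψ : k[X] → k[X] → ℝ) {η : ℝ} {e m : ℕ}
    (h0 : 0 ≤ η) (h1 : 2 * η ≤ 1) (hΨ : ∀ P F, |Ψ P F| ≤ 1)
    (hV : ∀ P F F' : k[X], (∀ t : k[X], t.degree < (P.natDegree + e : ℕ) →
      V (F + t) = V (F' + t)) → Ψ P F = Ψ P F') (hm : m ≤ n) (hn : (RR k m).natDegree ≤ n) :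
    ∑ P ∈ PrD k m, (η * (avm (n - m) (fun G => Ψ P (P * G)) - avm n (Ψ P)) - 4 * η ^ 2) ≤
      MI (PP k n) (win V n (m + e)) fun ω => cl (RR k m) ω := by
  have hne : ∀ P ∈ PrD k m, P ≠ 0 := fun P hP => (mem_PrD.1 hP).1.1.ne_zero
  have h := dv2 PP_nonneg PP_one (win V n (m + e)) (fun ω : Pn k n => cl (RR k m) ω)
    (fun ω ω' => ∑ P ∈ PrD k m, η * ph (Ψ P) P (X ^ n + ω.1) (X ^ n + ω'.1)) ?_ ?_
    (∑ _P ∈ PrD k m, 4 * η ^ 2) ?_
  · rw [sum_PP fun v => ∑ P ∈ PrD k m, η * ph (Ψ P) P (X ^ n + v) (X ^ n + v), avg_sum] at h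
    rw [Finset.sum_sub_distrib, sub_le_iff_le_add']
    refine le_trans (le_of_eq (Finset.sum_congr rfl fun P hP => ?_)) h
    obtain ⟨hp, hd⟩ := mem_PrD.1 hP
    rw [avg_mul_left, avg_ph hp.1 (hd ▸ hm), hd]
  · intro ω₁ ω₂ ω a
    refine Finset.sum_congr rfl fun P hP => congrArg _ (avg_congr fun v hv => congrArg _ ?_)
    have hd := (mem_PrD.1 hP).2
    refine hV P _ _ fun t ht => ?_
    rw [hd] at hv ht
    rw [add_assoc _ v t, add_assoc _ v t]
    exact win_eq.1 a _ ((degree_add_le _ _).trans_lt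
      (max_lt (hv.trans_le (by exact_mod_cast Nat.le_add_right m e)) ht))
  · intro ω ω₁ ω₂ a
    refine Finset.sum_congr rfl fun P hP => congrArg _ ?_
    obtain ⟨t, ht⟩ := (Finset.dvd_prod_of_mem (fun p => p) hP).trans (cl_eq.1 a)
    rw [← ph_per (Ψ P) P _ (X ^ n + ω₂.1) t, add_assoc, ← ht, add_sub_cancel]
  · intro ω
    rw [sum_PP fun v => Real.exp (∑ P ∈ PrD k m, η * ph (Ψ P) P (X ^ n + ω.1) (X ^ n + v))]
    simp only [Real.exp_sum]
    rw [avg_prod (PrD k m) (fun P => P) (fun P F' => Real.exp (η * ph (Ψ P) P (X ^ n + ω.1) F')) hne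
      (fun P hP P' hP' hh => (mem_PrD.1 hP).1.isCoprime (mem_PrD.1 hP').1 hh)
      (fun P _ v t => by simp only [ph_per]) (by rwa [← natDegree_prod _ _ hne])]
    exact Finset.prod_le_prod (fun P _ => avg_nonneg fun _ _ => (Real.exp_pos _).le)
      fun P hP => ph_exp (hΨ P) (hne P hP) _ h0 h1

end OdEnt

open Polynomial Pool.Agent.Lib.MP_9227d9_nt.Mob OdEnt

theorem stEnt : StEnt := by
  intro k _ _ e m₁
  refine ⟨(QR k m₁).natDegree + m₁ + e, fun n hn S _ V Ψ B η h0 h1 hB hΨ hV => ?_⟩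
  have h := sum_MI V hn
  have hq := qR_pow_pos (k := k) e
  rw [← div_le_iff₀' hq, Finset.sum_div] at h
  refine le_trans (le_trans (Finset.sum_le_sum fun m hm => ?_)
    (Finset.sum_le_sum_of_subset_of_nonneg (fun m hm => Finset.mem_range.2 (hB m hm))
      fun m _ _ => ?_)) h
  · have h2 := hB m hm
    have h3 := QR_le (k := k) h2
    rw [div_div, ← pow_add]
    exact div_le_div_of_nonneg_right (scale V Ψ h0 h1 hΨ hV (by omega) (by omega))
      (qR_pow_pos _).le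
  · exact div_nonneg (div_nonneg (MI_nonneg PP_nonneg PP_one _ _) (qR_pow_pos _).le) hq.le

end Pool.Agent.Lib.MP_232f4c_nt.Od
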