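import Pool.Agent.Lib.MP_232f4c_nt.OdDefs

/-!
One set of degrees of density one for all correlations, and orthogonality to completely
deterministic weights along it.
-/

namespace Pool.Agent.Lib.MP_232f4c_nt.Od

open Polynomial Pool.Agent.Lib.MP_9227d9_nt.Mob Filter Topology MeasureTheory

open scoped Classical ComplexConjugate BoundedContinuousFunction

variable {k : Type} [Field k] [Fintype k]

namespace FinAux

theorem norm_cor_le {ι : Type} [Fintype ι] (a b : ι → k[X]) {f : ι → k[X] → ℂ}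
    (hf : ∀ i F, ‖f i F‖ ≤ 1) (n : ℕ) : ‖cor a b f n‖ ≤ 1 := by
  have h1 : ‖(Fintype.card k : ℂ) ^ n‖ = qR k ^ n := by rw [norm_pow, Complex.norm_natCast, qR]
  rw [cor, norm_div, h1, div_le_one (qR_pow_pos n), ← card_Mn]
  refine (norm_sum_le _ _).trans ((Finset.sum_le_card_nsmul _ _ 1 fun F _ => ?_).trans_eq ?_)
  · exact Ff.norm_prod_le_one _ fun i _ => hf i _
  · rw [nsmul_eq_mul, mul_one]

theorem cor_equiv {ι ι' : Type} [Fintype ι] [Fintype ι'] (e : ι' ≃ ι) (a b : ι → k[X])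
    (f : ι → k[X] → ℂ) :
    cor (fun i => a (e i)) (fun i => b (e i)) (fun i => f (e i)) = cor a b f := by
  funext n
  unfold cor
  refine congrArg (· / _) (Finset.sum_congr rfl fun F _ => ?_)
  exact e.prod_comp fun i => f i (a i * F + b i)

theorem dens_univ :
    Tendsto (fun N : ℕ => (((Set.univ : Set ℕ) ∩ Set.Iio N).ncard : ℝ) / N) atTop (𝓝 1) := by
  refine tendsto_const_nhds.congr' ?_
  filter_upwards [eventually_gt_atTop 0] with N hN
  rw [Set.univ_inter, ← Finset.coe_Iio, Set.ncard_coe_finset, Nat.card_Iio,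
    div_self (Nat.cast_ne_zero.2 hN.ne')]

theorem pret_conj {f : k[X] → ℂ} (h : Pret f) : Pret fun F => conj (f F) := by
  obtain ⟨ξ, M, l, h1, h2, h3, h4⟩ := h
  refine ⟨(starRingEnd ℂ).toMonoidHom.comp ξ, M, l, h1, fun F => by simpa using h2 F,
    fun F t h5 h6 => by simp [h3 F t h5 h6], h4.congr fun P => by simp⟩

omit [Fintype k] in
theorem mul1_conj {f : k[X] → ℂ} (h : Mul1 f) : Mul1 fun F => conj (f F) :=
  ⟨fun F => by simpa using h.1 F, fun F G h1 h2 h3 => by simp [h.2 F G h1 h2 h3]⟩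

end FinAux

/-- One set of degrees for a countable family of functions, all orders and all shifts. -/
theorem ellS (h1 : StEll) (h2 : StKvN) (I : Type) [Countable I] (f : I → k[X] → ℂ)
    (hf : ∀ i, Mul1 (f i)) :
    ∃ S : Set ℕ, Tendsto (fun N : ℕ => ((S ∩ Set.Iio N).ncard : ℝ) / N) atTop (𝓝 1) ∧
      ∀ (ι : Type) [Fintype ι] (c : ι → I) (a b : ι → k[X]) (i₀ : ι), (∀ i, (a i).Monic) →
        (∀ j, j ≠ i₀ → a i₀ * b j ≠ a j * b i₀) → Pret (f (c i₀)) →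
        Tendsto (cor a b fun i => f (c i)) (atTop ⊓ 𝓟 S) (𝓝 0) := by
  have := Ff.countable_poly k
  let T : Type := {x : Σ r : ℕ, (Fin r → I) × (Fin r → k[X]) × (Fin r → k[X]) //
    ∃ i₀, (∀ i, (x.2.2.1 i).Monic) ∧
      (∀ j, j ≠ i₀ → x.2.2.1 i₀ * x.2.2.2 j ≠ x.2.2.1 j * x.2.2.2 i₀) ∧ Pret (f (x.2.1 i₀))}
  obtain ⟨S, hS, h3⟩ := h2 T (fun x n => ‖cor x.1.2.2.1 x.1.2.2.2 (fun i => f (x.1.2.1 i)) n‖)
    (fun _ _ => norm_nonneg _) (fun x n => FinAux.norm_cor_le _ _ (fun i => (hf _).1) n) fun x => by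
      obtain ⟨i₀, h4, h5, h6⟩ := x.2
      exact h1 k _ _ _ _ i₀ h4 h5 (fun i => hf _) h6
  refine ⟨S, hS, fun ι _ c a b i₀ h4 h5 h6 => ?_⟩
  let e := (Fintype.equivFin ι).symm
  rw [tendsto_zero_iff_norm_tendsto_zero, ← FinAux.cor_equiv e]
  refine h3 ⟨⟨_, fun i => c (e i), fun i => a (e i), fun i => b (e i)⟩, e.symm i₀,
    fun i => h4 _, fun j hj => ?_, ?_⟩
  · simp only [Equiv.apply_symm_apply]
    exact h5 _ fun h => hj (by rw [← h, Equiv.symm_apply_apply])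
  · simpa only [Equiv.apply_symm_apply] using h6

/-- The Chowla-Elliott statement along one set of degrees. -/
theorem elliott (h1 : StEll) (h2 : StKvN) (I : Type) [Countable I] (f : I → k[X] → ℂ)
    (hf : ∀ i F, ‖f i F‖ ≤ 1)
    (hm : ∀ (i : I) (F G : k[X]), F.Monic → G.Monic → IsCoprime F G → f i (F * G) = f i F * f i G)
    (Pr : ℂ → I → Prop)
    (hP : ∀ ε i, Pr ε i → ∃ (ξ : k[X] →* ℂ) (M : k[X]) (l : ℕ), M.Monic ∧ (∀ F, ‖ξ F‖ ≤ 1) ∧
      (∀ F t : k[X], F.Monic → (M * t).natDegree + l < F.natDegree → ξ (F + M * t) = ξ F) ∧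
      Summable fun P : {P : k[X] // P.Monic ∧ Irreducible P} =>
        (1 - (ε * f i P * conj (ξ P)).re) / (Fintype.card k : ℝ) ^ P.1.natDegree) :
    ∃ S : Set ℕ, Tendsto (fun N : ℕ => ((S ∩ Set.Iio N).ncard : ℝ) / N) atTop (𝓝 1) ∧
      (ringChar k = 2 → (∀ i, Pr 1 i ∨ Pr (-1) i) → S = Set.univ) ∧
      ∀ (ι : Type) [Fintype ι] (c : ι → I) (a b : ι → k[X]), (∀ i, (a i).Monic) →
        (∀ i j, i ≠ j → a i * b j ≠ a j * b i) → (∃ i, Pr (-1) (c i)) →
        Tendsto (fun n : ℕ =>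
          (∑ᶠ F ∈ {F : k[X] | F.Monic ∧ F.natDegree = n}, ∏ i, f (c i) (a i * F + b i)) /
            (Fintype.card k : ℂ) ^ n) (atTop ⊓ 𝓟 S) (𝓝 0) := by
  simp only [Ff.finsum_monic]
  by_cases h : ringChar k = 2 ∧ ∀ i, Pr 1 i ∨ Pr (-1) i
  · refine ⟨Set.univ, FinAux.dens_univ, fun _ _ => rfl, fun ι _ c a b ha hab ⟨i₀, h0⟩ => ?_⟩
    have : CharP k 2 := ringChar.of_eq h.1
    have h3 : ∀ i, ∃ ε : ℂ, (ε = 1 ∨ ε = -1) ∧ (Pr (-1) (c i) → ε = -1) ∧ Pr ε (c i) := fun i => by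
      by_cases h4 : Pr (-1) (c i)
      · exact ⟨-1, Or.inr rfl, fun _ => rfl, h4⟩
      · exact ⟨1, Or.inl rfl, fun h5 => absurd h5 h4, (h.2 _).resolve_right h4⟩
    choose ε e1 e2 e3 using h3
    choose ξ M l m1 m2 m3 m4 using fun i => hP _ _ (e3 i)
    rw [principal_univ, inf_top_eq]
    refine Ff.ell (M := ∏ i, M i) (l := ∑ i, l i) Cw.cwL Cw.stTr ha hab (fun i => hf _)
      (fun i => hm _) (monic_prod_of_monic _ _ fun i _ => m1 i) m2 (fun i F t h4 h5 => ?_) e1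
      ⟨i₀, e2 _ h0⟩ m4
    have h6 : l i ≤ ∑ i, l i := Finset.single_le_sum (fun _ _ => Nat.zero_le _) (Finset.mem_univ i)
    rw [← Finset.mul_prod_erase _ _ (Finset.mem_univ i), mul_assoc] at h5 ⊢
    exact m3 i F _ h4 (by omega)
  · obtain ⟨S, hS, h3⟩ := ellS h1 h2 I f fun i => ⟨hf i, hm i⟩
    refine ⟨S, hS, fun h4 h5 => absurd ⟨h4, h5⟩ h, fun ι _ c a b ha hab ⟨i₀, h0⟩ => ?_⟩
    obtain ⟨ξ, M, l, m1, m2, m3, m4⟩ := hP _ _ h0
    exact h3 ι c a b i₀ ha (fun j hj => hab _ _ hj.symm)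
      ⟨ξ, M, l, m1, m2, m3, m4.congr fun P => by simp [sub_eq_add_neg]⟩

/-- Orthogonality to completely deterministic weights along one set of degrees. -/
theorem sarnak (h1 : StEll) (h2 : StKvN) {f : k[X] → ℂ} (hf : Mul1 f) (hp : Pret f) :
    ∃ S : Set ℕ, Tendsto (fun n : ℕ => ((S ∩ Set.Iio n).ncard : ℝ) / n) atTop (𝓝 1) ∧
      (ringChar k = 2 → S = Set.univ) ∧
      ∀ N : ℕ → ℕ, Tendsto N atTop atTop → (∀ j, N j ∈ S) → ∀ w : k[X] → ℂ, (∀ F, ‖w F‖ ≤ 1) →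
      (∀ φ : ℕ → ℕ, StrictMono φ → ∀ μ : Measure (k[X] → ℂ), IsProbabilityMeasure μ →
        (∀ g : (k[X] → ℂ) →ᵇ ℝ, Tendsto (fun j : ℕ =>
          (∑ᶠ F ∈ {F : k[X] | F.Monic ∧ F.natDegree = N (φ j)}, g fun h => w (F + h)) /
            (Fintype.card k : ℝ) ^ N (φ j)) atTop (𝓝 (∫ x, g x ∂μ))) →
        ∀ m : ℕ, ∀ P : (k[X] → ℂ) → Fin m, Measurable P →
          Tendsto (fun r : ℕ => (∑ᶠ a : degreeLT k r → Fin m, Real.negMulLog
            (μ {x | ∀ y : degreeLT k r, P (fun h => x (h + y)) = a y}).toReal) /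
              (Fintype.card k : ℝ) ^ r) atTop (𝓝 0)) →
      Tendsto (fun j : ℕ => (∑ᶠ F ∈ {F : k[X] | F.Monic ∧ F.natDegree = N j}, f F * w F) /
        (Fintype.card k : ℂ) ^ N j) atTop (𝓝 0) := by
  by_cases h : ringChar k = 2
  · have : CharP k 2 := ringChar.of_eq h
    obtain ⟨ξ, M, l, m1, m2, m3, m4⟩ := hp
    exact ⟨Set.univ, FinAux.dens_univ, fun _ => rfl, fun N hN _ w hw hd =>
      Ff.sarnak Cw.cwL Cw.stTr hf.1 hf.2 m1 m2 m3 m4 hN hw hd⟩
  obtain ⟨S, hS, h3⟩ := ellS h1 h2 Bool (fun i => cond i f fun F => conj (f F))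
    fun i => by cases i; exacts [FinAux.mul1_conj hf, hf]
  refine ⟨S, hS, fun h4 => absurd h4 h, fun N hN hNS w hw hd => ?_⟩
  have hN' : Tendsto N atTop (atTop ⊓ 𝓟 S) :=
    tendsto_inf.2 ⟨hN, tendsto_principal.2 (Eventually.of_forall hNS)⟩
  have := Ff.countable_poly k
  have h4 : ∀ r, (0 : ℝ) < (Pn k r).card := fun r => card_Pn (k := k) r ▸ qR_pow_pos r
  have h5 := Ff.orth (I := fun j => (Mo k (N j)).filter fun F => F.natDegree = N j) (R := Pn k)
    (u := f) (w := w) (fun j => Finset.card_pos.1 (Ff.card_monic (k := k) (N j) ▸ by positivity))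
    (fun r => Finset.card_pos.1 (Nat.cast_pos.1 (h4 r)))
    (by simpa only [card_Pn] using
      tendsto_pow_atTop_atTop_of_one_lt (one_lt_two.trans_le (two_le_qR (k := k))))
    (fun i => ?_) (fun A B hAB hne => ?_) hf.1 hw fun φ hφ μ hμ hg m P hP => ?_
  · simpa only [Ff.finsum_monic, Ff.card_monic, Nat.cast_pow] using h5
  · filter_upwards [hN.eventually_gt_atTop i.natDegree] with j hj y
    have h6 := avm_shift (F := y) (degree_lt_of_natDegree fun _ => hj)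
    rwa [avm_eq_sum, avm_eq_sum, div_left_inj' (qR_pow_pos _).ne'] at h6
  · obtain ⟨i₀⟩ : Nonempty (A ⊕ B) :=
      hne.elim (fun ⟨x, h⟩ => ⟨Sum.inl ⟨x, h⟩⟩) fun ⟨x, h⟩ => ⟨Sum.inr ⟨x, h⟩⟩
    have h6 := h3 (A ⊕ B) Sum.isLeft (fun _ => 1) (Sum.elim (↑) (↑)) i₀ (fun _ => monic_one) ?_ ?_
    · refine (h6.comp hN').congr fun j => ?_
      simp only [Function.comp_def, cor, Mn, Ff.card_monic, Nat.cast_pow, Fintype.prod_sum_type,
        one_mul, Sum.elim_inl, Sum.elim_inr, Sum.isLeft_inl, Sum.isLeft_inr, cond_true, cond_false]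
      refine congrArg (· / _) (Finset.sum_congr rfl fun F _ => ?_)
      rw [Finset.prod_coe_sort A fun i => f (F + i), Finset.prod_coe_sort B fun i => conj (f (F + i))]
    · rcases i₀ with i | i <;> rintro (j | j) hij h <;>
        simp only [one_mul, Sum.elim_inl, Sum.elim_inr] at h
      · exact hij (congrArg _ (Subtype.ext h))
      · exact Finset.disjoint_left.1 hAB i.2 (h ▸ j.2)
      · exact Finset.disjoint_left.1 hAB j.2 (h ▸ i.2)
      · exact hij (congrArg _ (Subtype.ext h))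
    · rcases i₀ with i | i
      exacts [hp, FinAux.pret_conj hp]
  · refine (hd φ hφ μ hμ (fun g => ?_) m P hP).congr fun r => ?_
    · simpa only [Ff.finsum_monic, Ff.card_monic, Nat.cast_pow] using hg g
    · let e : Pn k r ≃ degreeLT k r :=
        Equiv.subtypeEquivRight fun x => mem_Pn.trans mem_degreeLT.symm
      rw [card_Pn, ← finsum_comp_equiv (e.arrowCongr (Equiv.refl _))]
      refine congrArg (· / _) (finsum_congr fun a => ?_)
      refine congrArg (fun S => Real.negMulLog (μ S).toReal) (Set.ext fun x => ?_)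
      exact (e.forall_congr fun y => by simp [e]).symm

end Pool.Agent.Lib.MP_232f4c_nt.Od
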