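import Pool.Agent.Lib.MP_232f4c_nt.OdDefs

/-!
Approximation by a structured function, and the control of a system of linear forms by a box norm.
-/

namespace Pool.Agent.Lib.MP_232f4c_nt.Od

open Polynomial Pool.Agent.Lib.MP_9227d9_nt.Mob Filter Topology

open scoped Classical ComplexConjugate

namespace OdGvN

open Ff

variable {k : Type} [Field k] [Fintype k]

/-- The model of a function that pretends to be the Liouville function times a character is
structured. -/
theorem str_md {f : k[X] → ℂ} {ξ : k[X] →* ℂ} {M : k[X]} {l : ℕ} (hf : ∀ F, ‖f F‖ ≤ 1)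
    (hξ : ∀ F, ‖ξ F‖ ≤ 1)
    (hξ' : ∀ F t : k[X], F.Monic → (M * t).natDegree + l < F.natDegree → ξ (F + M * t) = ξ F)
    (y n : ℕ) {c : ℂ} (hc : ‖c‖ ≤ 1) :
    Str (QQ k y ^ (2 * y + 2) * M) l n (md y c f (gg (-1) ξ)) := by
  refine ⟨fun F => if IsCoprime (rp y F) (QQ k y) then c * f (sp y F) * ξ (rp y F) else 0,
    sp y, rp y, fun F hF => ⟨?_, sp_monic y F, (sp_dvd y F).mul_right M, sp_mul_rp y F, ?_, ?_, ?_⟩⟩
  · beta_reduce
    split_ifs
    · rw [norm_mul, norm_mul]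
      exact mul_le_one₀ (mul_le_one₀ hc (norm_nonneg _) (hf _)) (norm_nonneg _) (hξ _)
    · simp
  · beta_reduce
    rw [md, gg, if_pos rfl]
    split_ifs
    · ring
    · simp
  · intro h
    beta_reduce at h
    have h1 : IsCoprime (rp y F) (QQ k y) := by
      by_contra h2
      exact h (if_neg h2)
    exact (h1.pow_right (n := 2 * y + 2)).of_isCoprime_of_dvd_right (sp_dvd y F)
  · intro t ht
    obtain ⟨v, hv⟩ := sp_dvd y F
    have e := sp_mul_rp y F
    have h1 : sp y (F + (QQ k y ^ (2 * y + 2) * M) ^ 2 * t) = sp y F :=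
      gcd_eq_of_dvd_sub_left ⟨QQ k y ^ (2 * y + 2) * M ^ 2 * t, by ring⟩
    have h2 : sp y F * (M * (v * QQ k y ^ (2 * y + 2) * M * t)) =
        (QQ k y ^ (2 * y + 2) * M) ^ 2 * t := by
      linear_combination (-(QQ k y ^ (2 * y + 2) * M ^ 2 * t)) * hv
    have h3 : rp y (F + (QQ k y ^ (2 * y + 2) * M) ^ 2 * t) =
        rp y F + M * (v * QQ k y ^ (2 * y + 2) * M * t) := by
      refine mul_left_cancel₀ (sp_monic y F).ne_zero ?_
      have e1 := sp_mul_rp y (F + (QQ k y ^ (2 * y + 2) * M) ^ 2 * t)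
      rw [h1] at e1
      linear_combination e1 - e - h2
    have h4 : (rp y F).Monic := (sp_monic y F).of_mul_monic_left (e.symm ▸ hF.1)
    have h5 : ξ (rp y F + M * (v * QQ k y ^ (2 * y + 2) * M * t)) = ξ (rp y F) := by
      by_cases h0 : M * (v * QQ k y ^ (2 * y + 2) * M * t) = 0
      · rw [h0, add_zero]
      refine hξ' _ _ h4 ?_
      have d1 := natDegree_mul (sp_monic y F).ne_zero h0
      have d2 := natDegree_mul (sp_monic y F).ne_zero h4.ne_zero
      rw [h2] at d1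
      rw [e, hF.2] at d2
      omega
    have h6 : IsCoprime (rp y F + M * (v * QQ k y ^ (2 * y + 2) * M * t)) (QQ k y) ↔
        IsCoprime (rp y F) (QQ k y) := by
      rw [show M * (v * QQ k y ^ (2 * y + 2) * M * t) =
        QQ k y * (M * v * QQ k y ^ (2 * y + 1) * M * t) by ring, IsCoprime.add_mul_left_left_iff]
    refine ⟨?_, h1⟩
    beta_reduce
    rw [h1, h3, h5, if_congr h6 rfl rfl]

/-- A linear equation has at most one solution. -/
theorem avg_root {m : ℕ} {p : k[X] → Prop} {_ : DecidablePred p}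
    (h : ∀ s s', p s → p s' → s = s') :
    avg m (fun s => if p s then 1 else 0) ≤ 1 / qR k ^ m := by
  unfold avg
  refine div_le_div_of_nonneg_right ?_ (qR_pow_pos m).le
  rw [Finset.sum_boole]
  exact_mod_cast Finset.card_le_one.2 fun s hs s' hs' =>
    h s s' (Finset.mem_filter.1 hs).2 (Finset.mem_filter.1 hs').2

end OdGvN

theorem stStr : StStr := by
  rintro k _ _ f ⟨hf, hm⟩ ⟨ξ, M, l, hM, hξ, hξ', hs⟩ η hη
  obtain ⟨y, hy⟩ := (Ff.approx' (ε := -1) hf hm hξ (Or.inr rfl)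
    (hs.congr fun P => by rw [neg_one_mul, neg_mul, Complex.neg_re, sub_neg_eq_add]) hη).exists
  refine ⟨Ff.QQ k y ^ (2 * y + 2) * M, l, ((Ff.QQ_monic y).pow _).mul hM, fun n => ?_⟩
  obtain ⟨c, hc, h⟩ := hy n
  exact ⟨_, OdGvN.str_md hf hξ hξ' y n hc, h⟩

theorem stGvN (h : StVdC) : StGvN := by
  intro K
  obtain ⟨C, hC, hV⟩ := h K 1
  refine ⟨C, hC, ?_⟩
  intro k _ _ ι _ a₀ b₀ a b h E t φ m n m' c θ hK h0 h1 hab hc hE0 hE hd hh hφ hφ' hq hB
  let e : ι ≃ Fin K := Fintype.equivFinOfCardEq hK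
  have hT : ∀ x : k[X] × k[X], x ∈ Mn k n ×ˢ Mn k m ↔ MD n x.1 ∧ MD m x.2 := fun x => by
    rw [Finset.mem_product, mem_Mn, mem_Mn]
  have key := hV k (k[X] × k[X]) (Mn k n ×ˢ Mn k m) m'
    (fun i s => (b (e.symm i) * t (e.symm i) s, -(a (e.symm i) * t (e.symm i) s)))
    (fun i => a₀ * b (e.symm i) - a (e.symm i) * b₀) (fun σ x => h (a₀ * x.1 + b₀ * x.2 + E σ))
    (fun d => d = 0) (fun σ => σ.degree < c) θ h0 h1
    ⟨(X ^ n, X ^ m), (hT _).2 ⟨⟨monic_X_pow n, natDegree_X_pow n⟩, monic_X_pow m,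
      natDegree_X_pow m⟩⟩
    (fun i s x hs hx => (hT _).2 ⟨((hT x).1 hx).1.add (hd _ s hs).2,
      ((hT x).1 hx).2.add (by rw [degree_neg]; exact (hd _ s hs).1)⟩)
    (fun σ x => hh _)
    (fun i s σ x _ _ => by
      rw [hE]
      refine congrArg h ?_
      simp only [Prod.fst_add, Prod.snd_add]
      ring)
    (fun i s σ hs hσ => (degree_add_le _ _).trans_lt (max_lt hσ (degree_mul_lt hs (hc _))))
    (fun d hd => neg_eq_zero.1 hd)
    (fun i c' => (OdGvN.avg_root fun s s' e1 e2 =>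
      mul_left_cancel₀ (sub_ne_zero.2 (hab (e.symm i))) (add_left_cancel (e1.trans e2.symm))).trans
      hq)
    (fun J _ _ σ hJ hσ hb => by
      rw [ex_Mn]
      exact abs_avm_le_of_le fun D hD => hB J σ D (by simpa using hJ)
        (fun i j hij => by_contra fun hne => hb i j hne (sub_eq_zero.2 hij)) hσ hD)
    Unit (fun _ => 0) (fun i x => φ (e.symm i) x.1 x.2) (by simp)
    (fun _ => by simp) (fun i j hij => absurd rfl hij)
    (fun i x hx => hφ _ _ _ ((hT x).1 hx).1 ((hT x).1 hx).2)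
    (fun i s x hs hx => by
      have := hφ' (e.symm i) s x.1 x.2 hs ((hT x).1 hx).1 ((hT x).1 hx).2
      rwa [sub_eq_add_neg] at this)
  have hp : ∀ F D, ∏ i, φ (e.symm i) F D = ∏ j, φ j F D := fun F D =>
    Equiv.prod_comp e.symm fun j => φ j F D
  rw [ex_Mn] at key
  simpa only [Finset.univ_unique, Finset.prod_singleton, hE0, add_zero, hp] using key

end Pool.Agent.Lib.MP_232f4c_nt.Od
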