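import Mathlib
import Pool.Agent.Lib.MP_4a1067_nt.Stepanov

/-! Stepanov's method over an arbitrary finite field of odd characteristic (Hasse derivatives):
a Weil-type bound for sums of the quadratic character of a polynomial. -/

namespace Pool.Agent.Lib.MP_232f4c_nt.OddWeil

open Polynomial
open Pool.Agent.Lib.MP_4a1067_nt (NS sum_pow_eq_zero mul_card_le_natDegree)

section Op
variable {F : Type*} [Field F]

lemma pow_dvd_hasse (f : F[X]) : ∀ (e i : ℕ), f ^ (e - i) ∣ hasseDeriv i (f ^ e) := by
  intro e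
  induction e with
  | zero => intro i; simp
  | succ e ih =>
    intro i
    rw [pow_succ', hasseDeriv_mul]
    refine Finset.dvd_sum fun ij hij => ?_
    rw [Finset.HasAntidiagonal.mem_antidiagonal] at hij
    rcases Nat.eq_zero_or_pos ij.1 with h0 | h0
    · rw [h0, hasseDeriv_zero']
      have hi : ij.2 = i := by omega
      rw [hi]
      refine dvd_trans (pow_dvd_pow f (show e + 1 - i ≤ (e - i) + 1 by omega)) ?_
      rw [pow_succ']
      exact mul_dvd_mul_left f (ih i)
    · refine Dvd.dvd.mul_left ?_ _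
      exact dvd_trans (pow_dvd_pow f (by omega)) (ih ij.2)

/-- cofactor of `f ^ (e - i)` in the `i`-th Hasse derivative of `f ^ e` -/
noncomputable def cof (f : F[X]) (e i : ℕ) : F[X] := (pow_dvd_hasse f e i).choose

lemma cof_spec (f : F[X]) (e i : ℕ) : hasseDeriv i (f ^ e) = f ^ (e - i) * cof f e i :=
  (pow_dvd_hasse f e i).choose_spec

lemma natDegree_cof_le (f : F[X]) (hf : f ≠ 0) (e i : ℕ) (hi : i ≤ e) :
    (cof f e i).natDegree ≤ i * f.natDegree := by
  by_cases h0 : cof f e i = 0
  · simp [h0]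
  have h1 := natDegree_hasseDeriv_le (f ^ e) i
  rw [cof_spec, natDegree_mul (pow_ne_zero _ hf) h0, natDegree_pow, natDegree_pow] at h1
  obtain ⟨d, rfl⟩ := Nat.exists_eq_add_of_le hi
  rw [Nat.add_sub_cancel_left, add_mul] at h1
  omega

/-- cofactor of `f ^ (e - k)` in the `k`-th Hasse derivative of `f ^ e * r` -/
noncomputable def T (f : F[X]) (e k : ℕ) : F[X] →ₗ[F] F[X] :=
  ∑ ij ∈ Finset.HasAntidiagonal.antidiagonal k,
    (LinearMap.mulLeft F (f ^ ij.2 * cof f e ij.1)) ∘ₗ hasseDeriv ij.2

lemma T_apply (f : F[X]) (e k : ℕ) (r : F[X]) :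
    T f e k r = ∑ ij ∈ Finset.HasAntidiagonal.antidiagonal k, f ^ ij.2 * cof f e ij.1 * hasseDeriv ij.2 r := by
  simp [T, LinearMap.sum_apply, mul_assoc]

lemma hasse_pow_mul (f : F[X]) (e : ℕ) (r : F[X]) (k : ℕ) (hk : k ≤ e) :
    hasseDeriv k (f ^ e * r) = f ^ (e - k) * T f e k r := by
  rw [hasseDeriv_mul, T_apply, Finset.mul_sum]
  refine Finset.sum_congr rfl fun ij hij => ?_
  rw [Finset.HasAntidiagonal.mem_antidiagonal] at hij
  rw [cof_spec, show e - ij.1 = (e - k) + ij.2 by omega, pow_add]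
  ring

lemma natDegree_T_le (f : F[X]) (hf : f ≠ 0) (e : ℕ) (r : F[X]) (k : ℕ) (hk : k ≤ e) :
    (T f e k r).natDegree ≤ r.natDegree + k * f.natDegree := by
  rw [T_apply]
  refine natDegree_sum_le_of_forall_le _ _ fun ij hij => ?_
  rw [Finset.HasAntidiagonal.mem_antidiagonal] at hij
  refine natDegree_mul_le.trans ?_
  have h1 : (f ^ ij.2 * cof f e ij.1).natDegree ≤ ij.2 * f.natDegree + ij.1 * f.natDegree :=
    natDegree_mul_le.trans (add_le_add natDegree_pow_le (natDegree_cof_le f hf e _ (by omega)))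
  have h2 := natDegree_hasseDeriv_le r ij.2
  rw [← hij, add_mul]
  omega

lemma pow_dvd_of_hasse (R : F[X]) (x : F) (l : ℕ)
    (h : ∀ k < l, (hasseDeriv k R).eval x = 0) : (X - C x) ^ l ∣ R := by
  rw [X_sub_C_pow_dvd_iff, X_pow_dvd_iff]
  intro d hd
  rw [← taylor_apply, taylor_coeff]
  exact h d hd

end Op

section Main
variable {F : Type*} [Field F] [Fintype F] {p : ℕ}

lemma key_dvd (hp : Fintype.card F = p) (hp2 : p % 2 = 1) (f : F[X]) (hns : NS f) (x0 : F) (hx0 : f.eval x0 ≠ 0)
    (B : ℕ) (hB : 2 * B + f.natDegree ≤ p + 1) (r s : F[X]) (hr : r.degree < B)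
    (hs : s.degree < B) (h : X ^ p - C x0 ∣ r + s * f ^ (p / 2)) : r = 0 ∧ s = 0 := by
  have hodd : p = 2 * (p / 2) + 1 := by
    omega
  have h1 : X ^ p - C x0 ∣ f ^ p - C (f.eval x0) := by
    rw [← hp, ← FiniteField.expand_card f, expand_eq_comp_X_pow, hp]
    have := Polynomial.sub_dvd_eval_sub (X ^ p : F[X]) (C x0) (f.map C)
    rw [eval_map, eval_map] at this
    have e1 : eval₂ C (X ^ p : F[X]) f = f.comp (X ^ p) := rfl
    have e2 : eval₂ C (C x0 : F[X]) f = C (f.eval x0) := by
      rw [eval₂_at_apply]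
    rwa [e1, e2] at this
  have h2 : X ^ p - C x0 ∣ r ^ 2 * f - C (f.eval x0) * s ^ 2 := by
    have e : r ^ 2 * f - C (f.eval x0) * s ^ 2
        = (r + s * f ^ (p / 2)) * ((r - s * f ^ (p / 2)) * f)
          + s ^ 2 * (f ^ p - C (f.eval x0)) := by
      have e3 : f ^ p = (f ^ (p / 2)) ^ 2 * f := by
        rw [← pow_mul, ← pow_succ]
        congr 1
        omega
      rw [e3]; ring
    rw [e]
    exact dvd_add (h.mul_right _) (h1.mul_left _)
  have hdeg : (X ^ p - C x0 : F[X]).natDegree = p := natDegree_X_pow_sub_C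
  have hppos : 0 < p := by omega
  have h3 : r ^ 2 * f - C (f.eval x0) * s ^ 2 = 0 := by
    by_cases hB0 : B = 0
    · subst hB0
      have hr0 : r = 0 := by
        by_contra h0
        rw [degree_eq_natDegree h0] at hr
        exact absurd hr (by norm_cast)
      have hs0 : s = 0 := by
        by_contra h0
        rw [degree_eq_natDegree h0] at hs
        exact absurd hs (by norm_cast)
      simp [hr0, hs0]
    have hr' : r.natDegree ≤ B - 1 := by
      by_cases h0 : r = 0
      · simp [h0]
      · have := (natDegree_lt_iff_degree_lt h0).mpr hr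
        omega
    have hs' : s.natDegree ≤ B - 1 := by
      by_cases h0 : s = 0
      · simp [h0]
      · have := (natDegree_lt_iff_degree_lt h0).mpr hs
        omega
    refine eq_zero_of_dvd_of_natDegree_lt h2 ?_
    rw [hdeg]
    refine lt_of_le_of_lt (natDegree_sub_le _ _) (max_lt ?_ ?_)
    · refine lt_of_le_of_lt natDegree_mul_le ?_
      have := natDegree_pow_le (p := r) (n := 2)
      omega
    · refine lt_of_le_of_lt (natDegree_C_mul_le _ _) ?_
      have := natDegree_pow_le (p := s) (n := 2)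
      omega
  have hr0 : r = 0 := hns _ r s (sub_eq_zero.mp h3)
  refine ⟨hr0, ?_⟩
  rw [hr0] at h3
  simpa [hx0] using h3

lemma stepanov_count (hp : Fintype.card F = p) (hp2 : p % 2 = 1) (f : F[X]) (hns : NS f) (x0 : F)
    (hx0 : f.eval x0 ≠ 0) (θ : F) (l J B : ℕ) (hl : l ≤ p)
    (hB : 2 * B + f.natDegree ≤ p + 1) (hcount : l * (B + l * f.natDegree + J) < J * (2 * B))
    (S : Finset F) (hS : ∀ x ∈ S, f.eval x = 0 ∨ (f.eval x) ^ (p / 2) = θ) :
    l * S.card ≤ l * f.natDegree + (B + (p / 2) * f.natDegree) + (J - 1) * p := by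
  classical
  have hf0 : f ≠ 0 := by
    intro h
    apply hx0
    simp [h]
  set m := f.natDegree with hm
  set N := B + l * m + J with hN
  set c := p / 2 with hc
  let V := Fin J → degreeLT F B × degreeLT F B
  let σ : ℕ → V →ₗ[F] F[X] := fun k =>
    ∑ j : Fin J, (LinearMap.mulRight F ((X - C x0) ^ (j : ℕ))) ∘ₗ
      ((T f l k ∘ₗ (degreeLT F B).subtype ∘ₗ LinearMap.fst _ _ _
        + θ • (T f (l + c) k ∘ₗ (degreeLT F B).subtype ∘ₗ LinearMap.snd _ _ _)) ∘ₗ
        LinearMap.proj j)
  have hσ : ∀ k (v : V), σ k v = ∑ j : Fin J,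
      (T f l k (v j).1 + θ • T f (l + c) k (v j).2) * (X - C x0) ^ (j : ℕ) := by
    intro k v
    simp [σ, LinearMap.sum_apply]
    rfl
  let Φ : V →ₗ[F] (Fin l × Fin N → F) :=
    LinearMap.pi fun i => lcoeff F (i.2 : ℕ) ∘ₗ σ (i.1 : ℕ)
  have hfin : Module.finrank F (degreeLT F B) = B := by
    rw [Module.finrank_eq_card_basis (degreeLT.basis F B), Fintype.card_fin]
  have : Module.Finite F (degreeLT F B) :=
    Module.Finite.of_basis (degreeLT.basis F B)
  have hker : LinearMap.ker Φ ≠ ⊥ := by
    apply LinearMap.ker_ne_bot_of_finrank_lt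
    rw [Module.finrank_fintype_fun_eq_card, Module.finrank_pi_fintype]
    simp only [Module.finrank_prod, hfin, Finset.sum_const, Finset.card_univ, Fintype.card_fin,
      Fintype.card_prod, smul_eq_mul]
    rw [← two_mul]
    exact hcount
  obtain ⟨v, hv, hv0⟩ := Submodule.exists_mem_ne_zero_of_ne_bot hker
  have hdegr : ∀ r : degreeLT F B, (r : F[X]).natDegree ≤ B := by
    intro r
    have := mem_degreeLT.mp r.2
    exact natDegree_le_of_degree_le this.le
  have hσ0 : ∀ k < l, σ k v = 0 := by
    intro k hk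
    have hdeg : (σ k v).natDegree < N := by
      rw [hσ]
      by_cases hJ : J = 0
      · subst hJ
        simp at hcount
      refine lt_of_le_of_lt (natDegree_sum_le_of_forall_le _ _ (n := B + l * m + (J - 1)) ?_)
        (by omega)
      intro j _
      refine natDegree_mul_le.trans (add_le_add ?_ ?_)
      · have hkl : k * m ≤ l * m := Nat.mul_le_mul_right _ hk.le
        refine (natDegree_add_le _ _).trans (max_le ?_ ?_)
        · have := natDegree_T_le f hf0 l (v j).1 k hk.le
          rw [← hm] at this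
          have := hdegr (v j).1
          omega
        · refine (natDegree_smul_le _ _).trans ?_
          have := natDegree_T_le f hf0 (l + c) (v j).2 k (by omega)
          rw [← hm] at this
          have := hdegr (v j).2
          omega
      · refine natDegree_pow_le.trans ?_
        rw [natDegree_X_sub_C]
        have := j.2
        omega
    ext i
    by_cases hi : i < N
    · have := congrFun (LinearMap.mem_ker.mp hv) (⟨k, hk⟩, ⟨i, hi⟩)
      simpa [Φ] using this
    · rw [coeff_eq_zero_of_natDegree_lt (by omega), coeff_zero]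
  set Y : F[X] := X ^ p - C x0 with hY
  have hYdeg : Y.natDegree = p := natDegree_X_pow_sub_C
  have hppos : 0 < p := by omega
  have hY0 : Y ≠ 0 := by
    intro h
    rw [h, natDegree_zero] at hYdeg
    omega
  set A : Fin J → F[X] := fun j => (v j).1 + (v j).2 * f ^ c with hA
  set R : F[X] := f ^ l * ∑ j, A j * Y ^ (j : ℕ) with hR
  have hR0 : R ≠ 0 := by
    intro h
    rw [hR, mul_eq_zero] at h
    have h1 := h.resolve_left (pow_ne_zero _ hf0)
    have hk : ∀ j, Y ∣ A j → ((v j).1 : F[X]) = 0 ∧ ((v j).2 : F[X]) = 0 :=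
      fun j hj => key_dvd hp hp2 f hns x0 hx0 B hB _ _ (mem_degreeLT.mp (v j).1.2)
        (mem_degreeLT.mp (v j).2.2) hj
    have h2 := sum_pow_eq_zero Y hY0 J A h1 (fun j hj => by
      simp [hA, (hk j hj).1, (hk j hj).2])
    apply hv0
    funext j
    have h3 := hk j (by rw [h2 j]; exact dvd_zero _)
    exact Prod.ext (Subtype.ext h3.1) (Subtype.ext h3.2)
  have hRdeg : R.natDegree ≤ l * m + (B + c * m) + (J - 1) * p := by
    refine natDegree_mul_le.trans ?_
    rw [add_assoc]
    refine add_le_add natDegree_pow_le ?_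
    refine natDegree_sum_le_of_forall_le _ _ ?_
    intro j _
    refine natDegree_mul_le.trans (add_le_add ?_ ?_)
    · refine (natDegree_add_le _ _).trans (max_le ?_ ?_)
      · have := hdegr (v j).1
        omega
      · exact natDegree_mul_le.trans (add_le_add (hdegr _) natDegree_pow_le)
    · refine natDegree_pow_le.trans ?_
      rw [hYdeg]
      have := j.2
      exact Nat.mul_le_mul_right _ (by omega)
  refine le_trans (mul_card_le_natDegree R l S ?_) hRdeg
  intro x hx
  rw [le_rootMultiplicity_iff hR0]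
  rcases hS x hx with h | h
  · exact Dvd.dvd.mul_right (pow_dvd_pow_of_dvd (dvd_iff_isRoot.mpr h) l) _
  have hYx : (X - C x) ^ l ∣ Y - C (x - x0) := by
    have e : Y - C (x - x0) = (X - C x) ^ p := by
      rw [← hp, ← FiniteField.expand_card, hp, map_sub, map_sub, expand_X, expand_C, hY]
      ring
    rw [e]
    exact pow_dvd_pow _ hl
  set R' : F[X] := ∑ j : Fin J,
    ((x - x0) ^ (j : ℕ)) • (f ^ l * (v j).1 + f ^ (l + c) * (v j).2) with hR'
  have hRR : (X - C x) ^ l ∣ R - R' := by
    rw [hR, hR', Finset.mul_sum, ← Finset.sum_sub_distrib]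
    refine Finset.dvd_sum fun j _ => ?_
    have e : f ^ l * (A j * Y ^ (j : ℕ))
        - ((x - x0) ^ (j : ℕ)) • (f ^ l * (v j).1 + f ^ (l + c) * (v j).2)
        = (f ^ l * A j) * (Y ^ (j : ℕ) - (C (x - x0)) ^ (j : ℕ)) := by
      rw [smul_eq_C_mul, C_pow]
      simp only [hA]
      ring
    rw [e]
    exact Dvd.dvd.mul_left (hYx.trans (sub_dvd_pow_sub_pow _ _ _)) _
  have hR'' : (X - C x) ^ l ∣ R' := by
    refine pow_dvd_of_hasse R' x l fun k hk => ?_
    have h1 := congrArg (eval x) (hσ0 k hk)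
    rw [hσ, eval_zero, eval_finsetSum] at h1
    rw [hR', map_sum, eval_finsetSum]
    have e : ∀ j : Fin J, eval x (hasseDeriv k (((x - x0) ^ (j : ℕ)) •
        (f ^ l * ((v j).1 : F[X]) + f ^ (l + c) * ((v j).2 : F[X]))))
        = (f.eval x) ^ (l - k) * eval x
          ((T f l k (v j).1 + θ • T f (l + c) k (v j).2) * (X - C x0) ^ (j : ℕ)) := by
      intro j
      rw [map_smul, map_add, hasse_pow_mul f l _ k hk.le, hasse_pow_mul f (l + c) _ k (by omega),
        show l + c - k = (l - k) + c by omega]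
      simp only [eval_mul, eval_add, eval_pow, eval_smul, eval_sub, eval_X, eval_C, pow_add, h,
        smul_eq_mul]
      ring
    rw [Finset.sum_congr rfl fun j _ => e j, ← Finset.mul_sum, h1, mul_zero]
  have := dvd_add hRR hR''
  rwa [sub_add_cancel] at this

lemma sqrt_bound (hp : Fintype.card F = p) (hp2 : p % 2 = 1) (f : F[X]) (hns : NS f) (θ : F)
    (x0 : F) (hx0 : f.eval x0 ≠ 0)
    (S : Finset F) (hS : ∀ x ∈ S, f.eval x = 0 ∨ (f.eval x) ^ (p / 2) = θ) :
    (S.card : ℝ) ≤ p / 2 + 10 * f.natDegree * Real.sqrt p := by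
  set m := f.natDegree with hm
  have hm1 : 1 ≤ m := by
    by_contra h
    have h0 : f.natDegree = 0 := by omega
    have h1 := eq_C_of_natDegree_eq_zero h0
    have := hns (f.coeff 0) 1 1 (by rw [one_pow, one_mul, mul_one]; exact h1)
    exact one_ne_zero this
  have hppos : 0 < p := by omega
  have hSp : S.card ≤ p := by
    have := S.card_le_univ
    rwa [hp] at this
  have hsq : Real.sqrt p * Real.sqrt p = p := Real.mul_self_sqrt (Nat.cast_nonneg _)
  have hs0 : 0 < Real.sqrt p := Real.sqrt_pos.mpr (by exact_mod_cast hppos)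
  have hm1' : (1 : ℝ) ≤ m := by exact_mod_cast hm1
  by_cases hbig : Real.sqrt p ≤ 20 * m
  · have : (S.card : ℝ) ≤ p := by exact_mod_cast hSp
    nlinarith
  push Not at hbig
  set l := Nat.sqrt p with hl
  have hl1 : l * l ≤ p := Nat.sqrt_le p
  have hl2 : p < (l + 1) * (l + 1) := Nat.lt_succ_sqrt p
  have hl1' : (l : ℝ) * l ≤ p := by exact_mod_cast hl1
  have hl2' : (p : ℝ) < (l + 1) * (l + 1) := by exact_mod_cast hl2
  have hls : Real.sqrt p < l + 1 := by
    by_contra h
    push Not at h
    nlinarith [Nat.cast_nonneg (α := ℝ) l]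
  have hml : 20 * m ≤ l := by
    have : (20 * m : ℝ) < l + 1 := hbig.trans hls
    have : 20 * m < l + 1 := by exact_mod_cast this
    omega
  have hlp : l ≤ p := Nat.sqrt_le_self p
  set B := (p + 1 - m) / 2 with hB
  set J := l / 2 + 2 * m + 3 with hJ
  have h20 : 20 * l ≤ p := by nlinarith
  have hB1 : 2 * B + m ≤ p + 1 := by omega
  have hB2 : p ≤ 2 * B + m := by omega
  have hJ1 : l + 4 * m + 5 ≤ 2 * J := by omega
  have hJ2 : 2 * J ≤ l + 4 * m + 6 := by omega
  have hcount : l * (B + l * m + J) < J * (2 * B) := by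
    have e1 : l * (l * m) ≤ p * m := by
      rw [← mul_assoc]; exact Nat.mul_le_mul_right _ hl1
    have e2 : (l + 4 * m + 5) * B ≤ J * (2 * B) := by nlinarith
    have e3 : l * J ≤ p := by
      have : J ≤ l := by omega
      nlinarith
    have e4 : 3 * p ≤ 8 * B := by omega
    have e5 : 3 * p * m ≤ 8 * B * m := Nat.mul_le_mul_right _ e4
    nlinarith
  have h := stepanov_count hp hp2 f hns x0 hx0 θ l J B hlp hB1 hcount S hS
  rw [← hm] at h
  have h2 : 2 * (l * S.card) ≤ l * p + 2 * (l * m) + (p + 1) + p * m + (4 * m + 4) * p := by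
    have e1 : 2 * ((p / 2) * m) ≤ p * m := by
      rw [← mul_assoc]; exact Nat.mul_le_mul_right _ (by omega)
    have e2 : 2 * ((J - 1) * p) ≤ (l + 4 * m + 4) * p := by
      rw [← mul_assoc]; exact Nat.mul_le_mul_right _ (by omega)
    nlinarith
  have h3 : 2 * ((l : ℝ) * S.card) ≤ l * p + 2 * (l * m) + (p + 1) + p * m + (4 * m + 4) * p := by
    exact_mod_cast h2
  have hl20 : (20 : ℝ) ≤ l := by
    have : 20 ≤ l := by omega
    exact_mod_cast this
  have hlle : (l : ℝ) ≤ Real.sqrt p := by
    by_contra h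
    push Not at h
    nlinarith
  have hp1 : (1 : ℝ) ≤ p := by exact_mod_cast hppos
  -- p ≤ (21/20) l √p
  have hpl : (p : ℝ) ≤ 21 / 20 * l * Real.sqrt p := by nlinarith
  have hlpos : (0 : ℝ) < l := by linarith
  have hs1 : (1 : ℝ) ≤ Real.sqrt p := by linarith
  have key : 2 * ((l : ℝ) * S.card) ≤ 2 * (l * (p / 2 + 10 * m * Real.sqrt p)) := by
    have e1 : (p : ℝ) + 1 + p * m + (4 * m + 4) * p ≤ 11 * (m * p) := by nlinarith
    have e2 : (m : ℝ) * p ≤ m * (21 / 20 * l * Real.sqrt p) :=
      mul_le_mul_of_nonneg_left hpl (by linarith)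
    have e3 : (l : ℝ) * m ≤ l * m * Real.sqrt p := by
      have : (0 : ℝ) ≤ l * m := by positivity
      nlinarith
    have e4 : (0 : ℝ) ≤ l * m * Real.sqrt p := by positivity
    nlinarith
  have := le_of_mul_le_mul_left (le_of_mul_le_mul_left key (by norm_num : (0 : ℝ) < 2)) hlpos
  exact this

/-- Weil-type bound for the quadratic character sum of a non-square polynomial. -/
theorem abs_sum_quadraticChar_le' [DecidableEq F] (hp : Fintype.card F = p) (hp2 : p % 2 = 1)
    (f : F[X]) (hns : NS f) :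
    |∑ x : F, ((quadraticChar F (f.eval x) : ℤ) : ℝ)|
      ≤ 20 * f.natDegree * Real.sqrt p := by
  classical
  by_cases hall : ∀ x, f.eval x = 0
  · simp only [hall, MulChar.map_zero, Int.cast_zero, Finset.sum_const_zero, abs_zero]
    positivity
  push Not at hall
  obtain ⟨x0, hx0⟩ := hall
  have hchar : ringChar F ≠ 2 := by
    intro h
    have := FiniteField.even_card_of_char_two h
    omega
  have hpow : ∀ y : F, ((quadraticChar F y : ℤ) : F) = y ^ (p / 2) := by
    intro y
    have := quadraticChar_eq_pow_of_char_ne_two' hchar y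
    rwa [hp] at this
  have main : ∀ ε : ℤ, (ε = 1 ∨ ε = -1) →
      ∑ x : F, ((ε * quadraticChar F (f.eval x) : ℤ) : ℝ)
        ≤ 20 * f.natDegree * Real.sqrt p := by
    intro ε hε
    set S : Finset F := Finset.univ.filter
      fun x => f.eval x = 0 ∨ (f.eval x) ^ (p / 2) = (ε : F) with hSdef
    have h1 := sqrt_bound hp hp2 f hns (ε : F) x0 hx0 S (fun x hx => (Finset.mem_filter.mp hx).2)
    have h2 : ∑ x : F, ((ε * quadraticChar F (f.eval x) : ℤ) : ℝ)
        ≤ ∑ x : F, (2 * (if x ∈ S then (1 : ℝ) else 0) - 1) := by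
      refine Finset.sum_le_sum fun x _ => ?_
      have hq := quadraticChar_isQuadratic F (f.eval x)
      by_cases hx : x ∈ S
      · rw [if_pos hx]
        rcases hε with rfl | rfl <;> rcases hq with h | h | h <;> rw [h] <;> norm_num
      · rw [if_neg hx]
        have hx' : ¬ (f.eval x = 0 ∨ (f.eval x) ^ (p / 2) = (ε : F)) :=
          fun h => hx (Finset.mem_filter.mpr ⟨Finset.mem_univ _, h⟩)
        push Not at hx'
        have hne : quadraticChar F (f.eval x) ≠ ε := by
          intro h
          apply hx'.2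
          rw [← hpow, h]
        have hne0 : quadraticChar F (f.eval x) ≠ 0 := by
          rw [Ne, quadraticChar_eq_zero_iff]; exact hx'.1
        rcases hε with rfl | rfl <;> rcases hq with h | h | h
        · exact absurd h hne0
        · exact absurd h hne
        · rw [h]; norm_num
        · exact absurd h hne0
        · rw [h]; norm_num
        · exact absurd h hne
    rw [Finset.sum_sub_distrib, ← Finset.mul_sum, Finset.sum_ite_mem] at h2
    simp only [Finset.univ_inter, Finset.sum_const, Finset.card_univ, hp, nsmul_eq_mul,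
      mul_one] at h2
    linarith
  rw [abs_le]
  constructor
  · have := main (-1) (Or.inr rfl)
    simp only [Int.cast_neg, neg_mul, one_mul,
      Finset.sum_neg_distrib] at this
    linarith
  · have := main 1 (Or.inl rfl)
    simpa using this

end Main

section Cor
variable {F : Type*} [Field F]

/-- a product of linear factors one of which occurs exactly once is not a constant times a square -/
lemma ns_prod {ι : Type*} (s : Finset ι) (c : ι → F) (j0 : ι) (hj0 : j0 ∈ s)
    (h : ∀ j ∈ s, j ≠ j0 → c j ≠ c j0) : NS (∏ j ∈ s, (X + C (c j))) := by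
  classical
  intro a r t hrt
  by_contra hr
  set f : F[X] := ∏ j ∈ s, (X + C (c j)) with hf
  have hf0 : f ≠ 0 := Finset.prod_ne_zero_iff.mpr fun j _ => X_add_C_ne_zero _
  have hne : r ^ 2 * f ≠ 0 := mul_ne_zero (pow_ne_zero _ hr) hf0
  have hne' : C a * t ^ 2 ≠ 0 := hrt ▸ hne
  have ha : (C a : F[X]) ≠ 0 := left_ne_zero_of_mul hne'
  have ht : t ≠ 0 := fun h0 => hne' (by simp [h0])
  have hmf : f.rootMultiplicity (-c j0) = 1 := by
    rw [hf, ← Finset.mul_prod_erase s _ hj0]
    have hg : ¬ (∏ j ∈ s.erase j0, (X + C (c j))).IsRoot (-c j0) := by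
      rw [IsRoot, eval_prod, Finset.prod_eq_zero_iff]
      rintro ⟨j, hj, hj'⟩
      rw [Finset.mem_erase] at hj
      apply h j hj.2 hj.1
      simp only [eval_add, eval_X, eval_C] at hj'
      linear_combination hj'
    have hg0 : (∏ j ∈ s.erase j0, (X + C (c j)) : F[X]) ≠ 0 :=
      Finset.prod_ne_zero_iff.mpr fun j _ => X_add_C_ne_zero _
    rw [rootMultiplicity_mul (mul_ne_zero (X_add_C_ne_zero _) hg0), rootMultiplicity_eq_zero hg]
    have : (X + C (c j0) : F[X]) = X - C (-c j0) := by simp
    rw [this, rootMultiplicity_X_sub_C_self]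
  have h1 := congrArg (rootMultiplicity (-c j0)) hrt
  rw [rootMultiplicity_mul hne, rootMultiplicity_mul hne', hmf, rootMultiplicity_C, sq, sq,
    rootMultiplicity_mul (mul_ne_zero hr hr), rootMultiplicity_mul (mul_ne_zero ht ht)] at h1
  omega

variable [Fintype F] [DecidableEq F]

/-- Weil-type bound over any finite field of odd characteristic. -/
theorem weil (h2 : ringChar F ≠ 2) (f : F[X]) (hns : NS f) :
    |∑ x : F, ((quadraticChar F (f.eval x) : ℤ) : ℝ)|
      ≤ 20 * f.natDegree * Real.sqrt (Fintype.card F) :=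
  abs_sum_quadraticChar_le' rfl (FiniteField.odd_card_of_char_ne_two h2) f hns

/-- the form used on lines: shifts `c j`, one of them different from all the others -/
theorem weil_shifts (h2 : ringChar F ≠ 2) {ι : Type*} (s : Finset ι) (c : ι → F) (j0 : ι)
    (hj0 : j0 ∈ s) (h : ∀ j ∈ s, j ≠ j0 → c j ≠ c j0) :
    |∑ x : F, ∏ j ∈ s, ((quadraticChar F (x + c j) : ℤ) : ℝ)|
      ≤ 20 * s.card * Real.sqrt (Fintype.card F) := by
  have h1 := weil h2 _ (ns_prod s c j0 hj0 h)
  have hd : (∏ j ∈ s, (X + C (c j)) : F[X]).natDegree = s.card := by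
    rw [natDegree_prod_of_monic _ _ fun j _ => monic_X_add_C _]
    simp
  rw [hd] at h1
  convert h1 using 3 with x
  rw [eval_prod, map_prod, Int.cast_prod]
  simp

end Cor

end Pool.Agent.Lib.MP_232f4c_nt.OddWeil
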