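import Pool.Agent.Lib.MP_232f4c_nt.OdDefs
import Pool.Agent.Lib.MP_232f4c_nt.OddWeil

/-!
The Jacobi symbol defined by the resultant, and the complete character sum.
-/

namespace Pool.Agent.Lib.MP_232f4c_nt.Od

open Polynomial Pool.Agent.Lib.MP_9227d9_nt.Mob Filter Topology

open scoped Classical

namespace Jac

variable {k : Type} [Field k] {N N' P : k[X]}

theorem res_deg (hN : N.Monic) (G : k[X]) {n : ℕ} (hn : G.natDegree ≤ n) :
    resultant N G N.natDegree n = resultant N G := by
  obtain ⟨c, rfl⟩ := Nat.exists_eq_add_of_le hn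
  rw [resultant_add_right_deg _ _ _ _ _ le_rfl, hN.coeff_natDegree, one_pow, one_mul]

theorem res_add (hN : N.Monic) (G t : k[X]) : resultant N (G + N * t) = resultant N G := by
  have h : (G + N * t).natDegree ≤ max G.natDegree (t.natDegree + N.natDegree) :=
    (natDegree_add_le _ _).trans (max_le_max le_rfl (natDegree_mul_le.trans (add_comm _ _).le))
  rw [← res_deg hN _ h, resultant_add_mul_right _ _ _ _ _ (le_max_right _ _) le_rfl,
    res_deg hN G (le_max_left _ _)]

theorem res_mul_right (hN : N.Monic) (G G' : k[X]) :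
    resultant N (G * G') = resultant N G * resultant N G' := by
  rw [← res_deg hN (G * G') natDegree_mul_le, resultant_mul_right _ _ _ _ le_rfl]

theorem res_mul_left (hN : N.Monic) (hN' : N'.Monic) (G : k[X]) :
    resultant (N * N') G = resultant N G * resultant N' G := by
  have := resultant_mul_left N N' G _ le_rfl
  rwa [← hN.natDegree_mul hN'] at this

variable [Fintype k]

theorem res_norm (hP : P.Monic) [Fact (Irreducible P)] (G : k[X]) :
    resultant P G = Algebra.norm k (AdjoinRoot.mk P G) := by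
  have : Module.Finite k (AdjoinRoot P) := (AdjoinRoot.powerBasis hP.ne_zero).finite
  have hs : P.Separable := PerfectField.separable_of_irreducible Fact.out
  apply (algebraMap k (AlgebraicClosure k)).injective
  rw [Algebra.norm_eq_prod_embeddings k (AlgebraicClosure k), ← resultant_map_map,
    ← natDegree_map (algebraMap k (AlgebraicClosure k)) (p := P),
    resultant_eq_prod_eval _ _ _ natDegree_map_le (IsAlgClosed.splits _),
    (hP.map _).leadingCoeff, one_pow, one_mul,
    Fintype.prod_equiv (AdjoinRoot.equiv (AlgebraicClosure k) k P hP.ne_zero) _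
      (fun x => (G.map (algebraMap k (AlgebraicClosure k))).eval x.1) fun σ => ?_,
    Finset.prod_mem_multiset _ _ (G.map (algebraMap k (AlgebraicClosure k))).eval fun _ => rfl,
    Finset.prod_eq_multiset_prod, Multiset.toFinset_val,
    Multiset.dedup_eq_self.2 (nodup_roots hs.map)]
  rw [eval_map_algebraMap, ← AdjoinRoot.aeval_eq, ← aeval_algHom_apply]
  rfl

variable {K : Type} [Field K] [Fintype K]

theorem chi_norm [Algebra k K] (hk : ringChar k ≠ 2) (x : K) :
    quadraticChar k (Algebra.norm k x) = quadraticChar K x := by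
  have hK : ringChar K ≠ 2 := by rwa [← Algebra.ringChar_eq k K]
  refine Int.cast_injOn_of_ringChar_ne_two hK (quadraticChar_isQuadratic k _)
    (quadraticChar_isQuadratic K _) ?_
  have h1 := FiniteField.odd_card_of_char_ne_two hk
  have h2 := FiniteField.odd_card_of_char_ne_two hK
  obtain ⟨m, hm⟩ : Fintype.card k - 1 ∣ Fintype.card K - 1 := by
    rw [Module.card_eq_pow_finrank (K := k) (V := K)]
    exact Nat.sub_one_dvd_pow_sub_one _ _
  have h3 : 1 < Fintype.card k := Fintype.one_lt_card
  rw [← map_intCast (algebraMap k K), quadraticChar_eq_pow_of_char_ne_two' hk,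
    quadraticChar_eq_pow_of_char_ne_two' hK, map_pow, FiniteField.algebraMap_norm_eq_pow,
    ← pow_mul, Nat.card_eq_fintype_card, Nat.card_eq_fintype_card, hm,
    Nat.mul_div_cancel_left _ (by omega)]
  congr 1
  obtain ⟨a, ha⟩ : ∃ a, Fintype.card k = 2 * a + 1 := ⟨Fintype.card k / 2, by omega⟩
  rw [ha, Nat.add_sub_cancel, mul_assoc] at hm
  rw [ha, show (2 * a + 1) / 2 = a by omega, mul_comm]
  omega

theorem avg_eq {f : k[X] →+* K} (hP : P ≠ 0) (h0 : ∀ x, f x = 0 ↔ P ∣ x)
    (hN : (Fintype.card K : ℝ) = Nm P) (Φ : K → ℝ) :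
    avg P.natDegree (fun s => Φ (f s)) = (∑ x, Φ x) / Nm P := by
  have hi : Set.InjOn f (Pn k P.natDegree) := by
    intro s hs s' hs' h
    rw [← sub_eq_zero, ← map_sub, h0] at h
    refine sub_eq_zero.1 (eq_zero_of_dvd_of_degree_lt h ?_)
    rw [degree_eq_natDegree hP]
    exact (degree_sub_le _ _).trans_lt (max_lt (mem_Pn.1 hs) (mem_Pn.1 hs'))
  have hu : (Pn k P.natDegree).image f = Finset.univ := by
    refine Finset.eq_univ_of_card _ ?_
    rw [Finset.card_image_of_injOn hi]
    have := (card_Pn (k := k) P.natDegree).trans hN.symm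
    exact_mod_cast this
  rw [avg, ← hu, Finset.sum_image hi]
  rfl

end Jac

theorem stJac : StJac := by
  intro k _ _
  refine ⟨fun N G => ?_, fun N G t hN => ?_, fun N N' G hN hN' => ?_, fun N G G' hN => ?_⟩
  · rcases quadraticChar_isQuadratic k (resultant N G) with h | h | h <;> simp [jac, h]
  · rw [jac, jac, Jac.res_add hN]
  · rw [jac, jac, jac, Jac.res_mul_left hN hN', map_mul, Int.cast_mul]
  · rw [jac, jac, jac, Jac.res_mul_right hN, map_mul, Int.cast_mul]

theorem stWeil : StWeil := by
  intro F _ _ h2 J _ hJ c hc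
  obtain ⟨j0⟩ := hJ
  exact OddWeil.weil_shifts h2 Finset.univ c j0 (Finset.mem_univ _) fun j _ hj h => hj (hc h)

namespace Jac

theorem total {k K : Type} [Field k] [Fintype k] [Field K] [Fintype K] (hK : ringChar K ≠ 2)
    {P a : k[X]} {f : k[X] →+* K} (hP : P ≠ 0) (h0 : ∀ x, f x = 0 ↔ P ∣ x)
    (hN : (Fintype.card K : ℝ) = Nm P) {J : Type} [Fintype J] [Nonempty J] {c : J → k[X]}
    (ha : ¬ P ∣ a) (hc : ∀ i j, i ≠ j → ¬ P ∣ c i - c j) :
    |avg P.natDegree fun s => ∏ j, ((quadraticChar K (f (c j + a * s)) : ℤ) : ℝ)| ≤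
      20 * Fintype.card J / √(Nm P) := by
  have ha' : f a ≠ 0 := fun h => ha ((h0 _).1 h)
  have h1 := stWeil K hK J (fun j => f (c j) / f a) fun i j h => by
    by_contra hij
    refine hc i j hij ((h0 _).1 ?_)
    rw [map_sub, sub_eq_zero]
    exact (div_left_inj' ha').1 h
  have h2 : ∀ s, ∏ j, ((quadraticChar K (f (c j + a * s)) : ℤ) : ℝ) =
      ((quadraticChar K (f a) : ℤ) : ℝ) ^ Fintype.card J *
        ∏ j, ((quadraticChar K (f s + f (c j) / f a) : ℤ) : ℝ) := fun s => by
    rw [← Finset.card_univ, ← Finset.prod_const, ← Finset.prod_mul_distrib]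
    refine Finset.prod_congr rfl fun j _ => ?_
    rw [← Int.cast_mul, ← map_mul (quadraticChar K), map_add, map_mul f, mul_add,
      mul_div_cancel₀ _ ha', add_comm]
  have h3 : |((quadraticChar K (f a) : ℤ) : ℝ)| = 1 := by
    rcases quadraticChar_dichotomy ha' with h | h <;> simp [h]
  have h4 := Nm_pos P
  simp only [h2]
  rw [avg_mul_left, abs_mul, abs_pow, h3, one_pow, one_mul,
    avg_eq hP h0 hN fun x => ∏ j, ((quadraticChar K (x + f (c j) / f a) : ℤ) : ℝ), abs_div,
    abs_of_pos h4, div_le_div_iff₀ h4 (Real.sqrt_pos.2 h4)]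
  rw [hN] at h1
  refine (mul_le_mul_of_nonneg_right h1 (Real.sqrt_nonneg _)).trans_eq ?_
  rw [mul_assoc, Real.mul_self_sqrt h4.le]

end Jac

theorem stB0 : StB0 := by
  intro k _ _ hk P a J _ _ c n hp ha hc hn
  have : Fact (Irreducible P) := ⟨hp.2⟩
  have : Module.Finite k (AdjoinRoot P) := (AdjoinRoot.powerBasis hp.1.ne_zero).finite
  have : Finite (AdjoinRoot P) := Module.finite_of_finite k
  let _ : Fintype (AdjoinRoot P) := Fintype.ofFinite _
  have hN : (Fintype.card (AdjoinRoot P) : ℝ) = Nm P := by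
    rw [Module.card_eq_pow_finrank (K := k), (AdjoinRoot.powerBasis hp.1.ne_zero).finrank,
      AdjoinRoot.powerBasis_dim, Nat.cast_pow]
    rfl
  have h1 := avg_periodic (F := fun s => ∏ j, jac P (c j + a * s)) hp.1.ne_zero hn
    (fun v t => Finset.prod_congr rfl fun j _ => by
      rw [show c j + a * (v + P * t) = c j + a * v + P * (a * t) by ring,
        (stJac k).2.1 _ _ _ hp.1]) 0
  simp only [zero_add] at h1
  rw [h1]
  simp only [jac, Jac.res_norm hp.1, Jac.chi_norm hk]
  exact Jac.total (by rwa [← Algebra.ringChar_eq k]) hp.1.ne_zero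
    (fun x => AdjoinRoot.mk_eq_zero) hN ha hc

end Pool.Agent.Lib.MP_232f4c_nt.Od
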