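import Pool.Agent.Lib.MP_232f4c_nt.OdDefs

/-!
Local uniformity, and the correlations in the mean over the degrees.
-/

namespace Pool.Agent.Lib.MP_232f4c_nt.Od

open Polynomial Pool.Agent.Lib.MP_9227d9_nt.Mob Filter Topology

open scoped Classical

namespace OdLU

variable {k : Type} [Field k] [Fintype k]

/-- From all dilations to prime dilations. -/
theorem primes_of_all {m n : ℕ} (hm : 3 ≤ m) (W : k[X] → k[X] → ℂ) {η : ℝ} (hη : 0 ≤ η)
    (h : ∀ θ : k[X] → ℂ, (∀ D, ‖θ D‖ ≤ 1) →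
      avm m (fun D => avm n fun F => (θ D * W F D).re) ≤ η / m)
    (θ : k[X] → ℂ) (hθ : ∀ D, ‖θ D‖ ≤ 1) :
    ∑ P ∈ PrD k m, avm n (fun F => (θ P * W F P).re) ≤ 2 * η * (PrD k m).card := by
  have h1 := h (fun D => if D ∈ PrD k m then θ D else 0) fun D => by
    split_ifs
    · exact hθ D
    · simp
  have hsub : PrD k m ⊆ Mn k m := fun P hP =>
    mem_Mn.2 ⟨(mem_PrD.1 hP).1.1, (mem_PrD.1 hP).2⟩
  have h2 : ∑ D ∈ Mn k m, avm n (fun F => ((if D ∈ PrD k m then θ D else 0) * W F D).re) =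
      ∑ P ∈ PrD k m, avm n (fun F => (θ P * W F P).re) := by
    rw [← Finset.sum_subset hsub]
    · exact Finset.sum_congr rfl fun P hP => by simp only [hP, if_true]
    · intro D _ hD
      simp only [hD, if_false, zero_mul, Complex.zero_re]
      exact avm_const n 0
  rw [avm_eq, h2, div_le_iff₀ (qR_pow_pos m)] at h1
  have h3 := le_card_PrD (k := k) hm
  have hm0 : (0 : ℝ) < m := by exact_mod_cast (by omega : 0 < m)
  calc _ ≤ η / m * qR k ^ m := h1
    _ ≤ η / m * (2 * m * (PrD k m).card) :=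
      mul_le_mul_of_nonneg_left h3 (div_nonneg hη hm0.le)
    _ = _ := by field_simp

theorem norm_prod_le_one {ι : Type} [Fintype ι] (z : ι → ℂ) (hz : ∀ j, ‖z j‖ ≤ 1) :
    ‖∏ j, z j‖ ≤ 1 := by
  rw [norm_prod]
  exact Finset.prod_le_one (fun _ _ => norm_nonneg _) fun j _ => hz j

theorem re_le {t x y z : ℂ} (ht : ‖t‖ ≤ 1) (hz : ‖z‖ ≤ 1) :
    (t * (x * z)).re ≤ (t * (y * z)).re + ‖x - y‖ := by
  have h1 : t * (x * z) = t * (y * z) + t * ((x - y) * z) := by ring
  rw [h1, Complex.add_re]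
  have h2 : (t * ((x - y) * z)).re ≤ ‖x - y‖ := by
    refine (Complex.re_le_norm _).trans ?_
    rw [norm_mul, norm_mul]
    calc _ ≤ 1 * (‖x - y‖ * 1) := by gcongr
      _ = _ := by ring
  linarith

theorem degree_lt_add {β : k[X]} {c n : ℕ} (h : β.natDegree < n) :
    β.degree < (c + n : ℕ) :=
  degree_lt_of_natDegree fun _ => by omega

theorem Nm_pos' (A : k[X]) : 0 < Nm A := qR_pow_pos _

theorem norm_cor_le {ι : Type} [Fintype ι] (a b : ι → k[X]) (f : ι → k[X] → ℂ) (n : ℕ) :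
    ‖cor a b f n‖ ≤ avm n fun F => ‖∏ i, f i (a i * F + b i)‖ := by
  rw [cor, avm_eq, norm_div, norm_pow, Complex.norm_natCast]
  exact div_le_div_of_nonneg_right (norm_sum_le _ _) (qR_pow_pos n).le

theorem norm_prod_le {ι : Type} [Fintype ι] (z : ι → ℂ) (hz : ∀ j, ‖z j‖ ≤ 1) (i : ι) :
    ‖∏ j, z j‖ ≤ ‖z i‖ := by
  rw [← Finset.mul_prod_erase _ _ (Finset.mem_univ i), norm_mul, norm_prod]
  exact mul_le_of_le_one_right (norm_nonneg _)
    (Finset.prod_le_one (fun _ _ => norm_nonneg _) fun j _ => hz j)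

end OdLU

open OdLU

theorem stLU (h1 : StStr) (h2 : StAll) (h3 : StAll2) : StLU := by
  intro k _ _ f hf hp ι _ a₀ b₀ a b ha hab η hη
  by_cases hc : ringChar k = 2
  · have : CharP k 2 := ringChar.of_eq hc
    obtain ⟨m₀, hm₀⟩ := h3 k f hf hp ι a₀ b₀ a b ha hab (η / 2) (by positivity)
    refine ⟨max m₀ 3, fun m hm => ?_⟩
    obtain ⟨n₀, hn₀⟩ := hm₀ m (le_of_max_le_left hm)
    refine ⟨n₀, fun n hn θ g hθ hg => ?_⟩
    have := primes_of_all (n := n) (le_of_max_le_right hm)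
      (fun F D => f (a₀ * F + b₀ * D) * ∏ j, g j (a j * F + b j * D)) (η := η / 2)
      (by positivity) (fun θ' hθ' => hn₀ n hn θ' g hθ' hg) θ hθ
    calc _ ≤ _ := this
      _ = _ := by ring
  · have : Fact (ringChar k).Prime := ⟨CharP.char_is_prime k (ringChar k)⟩
    have hN := Nm_pos' a₀
    obtain ⟨R, l, hR, hg₀⟩ := h1 k f hf hp (η / (2 * Nm a₀)) (by positivity)
    obtain ⟨m₀, hm₀⟩ := h2 k (ringChar k) hc ι a₀ b₀ a b R l ha hab hR (η / 4) (by positivity)
    refine ⟨max m₀ 3, fun m hm => ?_⟩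
    obtain ⟨n₀, hn₀⟩ := hm₀ m (le_of_max_le_left hm)
    refine ⟨max n₀ (b₀.natDegree + m + 1), fun n hn θ g hθ hg => ?_⟩
    obtain ⟨g₀, hS, hE⟩ := hg₀ (a₀.natDegree + n)
    have h4 := primes_of_all (n := n) (le_of_max_le_right hm)
      (fun F D => g₀ (a₀ * F + b₀ * D) * ∏ j, g j (a j * F + b j * D)) (η := η / 4)
      (by positivity) (fun θ' hθ' => hn₀ n (le_of_max_le_left hn) g₀ θ' g hS hθ' hg) θ hθ
    have h5 : ∀ P ∈ PrD k m, avm n (fun F =>
        (θ P * (f (a₀ * F + b₀ * P) * ∏ j, g j (a j * F + b j * P))).re) ≤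
        avm n (fun F => (θ P * (g₀ (a₀ * F + b₀ * P) * ∏ j, g j (a j * F + b j * P))).re) +
          η / 2 := by
      intro P hP
      have hd : (b₀ * P).natDegree < n := by
        have e1 := natDegree_mul_le (p := b₀) (q := P)
        have e2 := (mem_PrD.1 hP).2
        have e3 := le_of_max_le_right hn
        omega
      have h6 := avm_tr (m := n) (F := fun F => ‖f F - g₀ F‖) ha (degree_lt_add hd)
        fun _ => norm_nonneg _
      have h7 : Nm a₀ * avm (a₀.natDegree + n) (fun F => ‖f F - g₀ F‖) ≤ η / 2 :=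
        calc _ ≤ Nm a₀ * (η / (2 * Nm a₀)) := mul_le_mul_of_nonneg_left hE hN.le
          _ = _ := by field_simp
      refine le_trans (avm_mono fun F _ => OdLU.re_le (y := g₀ (a₀ * F + b₀ * P)) (hθ P)
        (norm_prod_le_one _ fun j => hg j _)) ?_
      rw [avm_add]
      linarith
    calc _ ≤ _ := Finset.sum_le_sum h5
      _ ≤ 2 * (η / 4) * (PrD k m).card + (PrD k m).card * (η / 2) := by
        rw [Finset.sum_add_distrib, Finset.sum_const, nsmul_eq_mul]
        linarith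
      _ = _ := by ring

theorem stEll (h1 : StLU) (h2 : StStep) (h3 : StCes) (h4 : StZero) : StEll := by
  intro k _ _ ι _ a b f i₀ ha hab hf hp
  by_cases hU : ∀ i, Uni (f i)
  · refine h3 (fun n => ‖cor a b f n‖) (fun _ => norm_nonneg _) (fun n => ?_)
      (h2 k ι a b f i₀ ha hab hf hU (h1 k _ (hf i₀) hp))
    exact (norm_cor_le a b f n).trans
      (avm_le_of_le fun F _ => norm_prod_le_one _ fun j => (hf j).1 _)
  · obtain ⟨i, hi⟩ := not_forall.1 hU
    have h5 : Tendsto (fun n : ℕ => Nm (a i) * avm ((a i).natDegree + n) fun F => ‖f i F‖)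
        atTop (𝓝 0) := by
      have := ((h4 k (f i) (hf i) hi).comp (tendsto_add_atTop_nat (a i).natDegree)).const_mul
        (Nm (a i))
      simpa only [mul_zero, Function.comp_def, add_comm] using this
    have h6 : Tendsto (fun n : ℕ => ‖cor a b f n‖) atTop (𝓝 0) := by
      refine squeeze_zero' (Eventually.of_forall fun _ => norm_nonneg _) ?_ h5
      filter_upwards [eventually_gt_atTop (b i).natDegree] with n hn
      refine (norm_cor_le a b f n).trans (le_trans (avm_mono fun F _ =>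
        norm_prod_le (fun j => f j (a j * F + b j)) (fun j => (hf j).1 _) i) ?_)
      exact avm_tr (F := fun F => ‖f i F‖) (ha i) (degree_lt_add hn) fun _ => norm_nonneg _
    simpa only [div_eq_inv_mul] using h6.cesaro

end Pool.Agent.Lib.MP_232f4c_nt.Od
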