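import Pool.Agent.Lib.MP_232f4c_nt.OdDefs

/-!
Cancellation on a good line.
-/

namespace Pool.Agent.Lib.MP_232f4c_nt.Od

open Polynomial Pool.Agent.Lib.MP_9227d9_nt.Mob Filter Topology

open scoped Classical

namespace OdLine

variable {k : Type} [Field k] [Fintype k]

theorem abs_jac (h1 : StJac) (N G : k[X]) : |jac N G| ≤ 1 := by
  rcases (h1 k).1 N G with h | h | h <;> simp [h]

theorem jac_congr (h1 : StJac) {N G G' : k[X]} (hN : N.Monic) (h : N ∣ G - G') :
    jac N G = jac N G' := by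
  obtain ⟨t, ht⟩ := h
  rw [← (h1 k).2.1 N G' t hN, ← ht, add_sub_cancel]

theorem jac_prod (h1 : StJac) {ι : Type} (s : Finset ι) (M : ι → k[X]) (hM : ∀ i, (M i).Monic)
    (G : k[X]) : jac (∏ i ∈ s, M i) G = ∏ i ∈ s, jac (M i) G := by
  induction s using Finset.induction_on with
  | empty => simp [jac]
  | insert i s hi ih =>
    rw [Finset.prod_insert hi, Finset.prod_insert hi,
      (h1 k).2.2.1 _ _ _ (hM i) (monic_prod_of_monic _ _ fun i _ => hM i), ih]

theorem jac_pow (h1 : StJac) {N : k[X]} (hN : N.Monic) (G : k[X]) {n : ℕ} (hn : Odd n) :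
    jac N (G ^ n) = jac N G := by
  have h : ∀ m : ℕ, jac N (G ^ (m + 1)) = jac N G ^ (m + 1) := fun m => by
    induction m with
    | zero => simp
    | succ m ih => rw [pow_succ, (h1 k).2.2.2 _ _ _ hN, ih, ← pow_succ]
  obtain ⟨m, rfl⟩ := hn
  rw [h]
  rcases (h1 k).1 N G with h | h | h <;> simp [h, pow_succ]

/-- Roots of order `p` modulo a prime. -/
theorem exists_root (p : ℕ) [Fact p.Prime] [CharP k p] {P A : k[X]} (hP : IsP P) (hA : ¬ P ∣ A)
    (G : k[X]) : ∃ c : k[X], P ∣ G - A * c ^ p := by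
  have : Fact (Irreducible P) := ⟨hP.2⟩
  have : Module.Finite k (AdjoinRoot P) := (AdjoinRoot.powerBasis hP.1.ne_zero).finite
  have : Finite (AdjoinRoot P) := Module.finite_of_finite k
  have : CharP (AdjoinRoot P) p := charP_of_injective_algebraMap (algebraMap k _).injective p
  obtain ⟨y, hy⟩ := Finite.injective_iff_surjective.1 (frobenius (AdjoinRoot P) p).injective
    (AdjoinRoot.mk P G / AdjoinRoot.mk P A)
  obtain ⟨c, rfl⟩ := AdjoinRoot.mk_surjective y
  refine ⟨c, AdjoinRoot.mk_eq_mk.1 ?_⟩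
  rw [frobenius_def] at hy
  rw [map_mul, map_pow, hy, mul_div_cancel₀ _ (mt AdjoinRoot.mk_eq_zero.1 hA)]

omit [Fintype k] in
theorem wr (p : ℕ) [Fact p.Prime] [CharP k p] {u D G R w : k[X]} (h : R ^ p = D * D * w)
    (x : k[X]) : wronskian u (D * (G + u * D * (w * x ^ p))) = wronskian u (D * G) := by
  have e : D * (G + u * D * (w * x ^ p)) = D * G + u * (R * x) ^ p := by
    rw [mul_pow, h]
    ring
  have e2 : derivative ((R * x) ^ p) = 0 := by
    rw [derivative_pow, CharP.cast_eq_zero k p]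
    simp
  rw [e, wronskian_add_right, add_eq_left, wronskian, derivative_mul, e2]
  ring

omit [Fintype k] in
theorem dg {p n : ℕ} (hp : 1 ≤ p) {u D G R w x : k[X]} (hG : G.Monic) (h : R ^ p = D * D * w)
    (hR : R ≠ 0) (hd : (u * R ^ p).natDegree + p * n ≤ (D * G).natDegree) (hx : x.degree < n) :
    (u * D * (w * x ^ p)).degree < G.degree := by
  have hD : D ≠ 0 := by
    rintro rfl
    exact pow_ne_zero p hR (by simpa using h)
  rw [degree_eq_natDegree hG.ne_zero]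
  refine degree_lt_of_natDegree fun h0 => ?_
  have hx0 : x ≠ 0 := by
    rintro rfl
    exact h0 (by simp [show p ≠ 0 by omega])
  have e : D * (u * D * (w * x ^ p)) = u * R ^ p * x ^ p := by
    rw [h]
    ring
  have a1 := natDegree_mul hD h0
  have a2 := natDegree_mul hD hG.ne_zero
  have a3 := natDegree_mul_le (p := u * R ^ p) (q := x ^ p)
  have a4 := natDegree_pow x p
  have a5 := Nat.mul_le_mul_left p (natDegree_lt_of_degree hx0 hx)
  rw [e] at a1
  rw [Nat.succ_eq_add_one, mul_add, mul_one] at a5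
  omega

/-- The factorisation of the modulus. -/
theorem fac (h5 : StFac) {p γ : ℕ} (hp : 3 ≤ p) (hγ : 1 ≤ γ) {W N : k[X]} {lam : k} (hN : N.Monic)
    (hl : lam ≠ 0) (hW : W = C lam * N) (hd : W.natDegree ≤ p * LL p γ + γ) (hw : wt p γ W ≠ 0) :
    ∃ (P : k[X]) (M : Fin (rr p + 3) → k[X]), IsP P ∧ 3 * ((rr p ^ 2 + 1) * γ) ≤ P.natDegree ∧
      P.natDegree ≤ LL p γ + (rr p ^ 2 + 1) * γ ∧
      (∀ i, (M i).Monic ∧ ¬ P ∣ M i ∧ (M i).natDegree + (rr p ^ 2 + 1) * γ ≤ LL p γ) ∧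
      N = P * ∏ i, M i := by
  have hQ : ∀ i : Fin (rr p), ∃ Q ∈ PrW k (aa p γ i) γ, Q ∣ W := fun i => by
    obtain ⟨Q, hQ, h⟩ := Finset.exists_ne_zero_of_sum_ne_zero
      (Finset.prod_ne_zero_iff.1 hw i (Finset.mem_univ i))
    exact ⟨Q, hQ, by simpa using h⟩
  choose Q hQ hQW using hQ
  simp only [mem_PrW] at hQ
  obtain ⟨p', rfl⟩ : ∃ p', p = p' + 1 := ⟨p - 1, by omega⟩
  have hr : rr (p' + 1) = 2 * p' := rfl
  rw [hW, natDegree_C_mul hl] at hd
  unfold aa at hQ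
  unfold LL at hd ⊢
  generalize rr (p' + 1) = r at *
  have hr4 : 4 ≤ r := by omega
  obtain ⟨b, hb⟩ : ∃ b, 5 * r ^ 2 = b + r :=
    ⟨5 * r ^ 2 - r, (Nat.sub_add_cancel (by nlinarith)).symm⟩
  have hb' : 5 * r ^ 2 - r = b := by omega
  rw [hb'] at hQ
  have lo : ∀ i, b * γ ≤ (Q i).natDegree := fun i =>
    (Nat.mul_le_mul_right γ (Nat.le_add_right _ _)).trans (hQ i).2.1
  have hs : r * (b * γ) ≤ ∑ i, (Q i).natDegree := by
    simpa using Finset.card_nsmul_le_sum Finset.univ (fun i => (Q i).natDegree) _ fun i _ => lo i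
  have e1 : r * (b * γ) + r ^ 2 * γ = p' * (10 * r ^ 2 * γ) := by
    have : r * (b * γ) + r ^ 2 * γ = r * γ * (b + r) := by ring
    rw [this, ← hb, hr]
    ring
  have e2 : 4 * r ≤ r ^ 2 := by nlinarith
  have e3 : 4 * (r * γ) ≤ r ^ 2 * γ := by nlinarith
  have e4 : 4 * γ ≤ r * γ := Nat.mul_le_mul_right γ hr4
  have e5 : b * γ + r * γ = 5 * (r ^ 2 * γ) := by rw [← add_mul, ← hb, mul_assoc]
  have e6 : 4 * (b * γ) ≤ r * (b * γ) := Nat.mul_le_mul_right _ hr4
  refine h5 k r _ _ Q N hN (fun i => (hQ i).1) (fun i j hij => ?_) (fun i => ?_) (fun i => ?_)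
    ?_ ?_ ?_
  · have a1 := (hQ i).2.1.trans_lt (hij ▸ (hQ j).2.2)
    have a2 := (hQ j).2.1.trans_lt (hij ▸ (hQ i).2.2)
    rw [← add_one_mul] at a1 a2
    have a3 := Nat.lt_of_mul_lt_mul_right a1
    have a4 := Nat.lt_of_mul_lt_mul_right a2
    exact Fin.ext (by omega)
  · exact (IsUnit.dvd_mul_left (isUnit_C.2 hl.isUnit)).1 (hW ▸ hQW i)
  · have a1 := lo i
    have a2 := (hQ i).2.2
    have a3 : (i + 1) * γ ≤ r * γ := Nat.mul_le_mul_right γ i.2
    simp only [add_mul, one_mul, mul_assoc] at a2 a3 ⊢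
    omega
  · simp only [add_mul, one_mul, mul_assoc] at hd e1 ⊢
    omega
  · simp only [add_mul, one_mul, mul_assoc]
    omega
  · simp only [add_mul, one_mul, mul_assoc]
    omega

end OdLine

open OdLine in
theorem stLine (h1 : StJac) (h2 : StPel) (h3 : StVdC) (h4 : StComp) (h5 : StFac) : StLine := by
  intro k _ _ p hpr _ hp2 j c ε hε
  have hp3 : 3 ≤ p := by
    have := hpr.out.two_le
    omega
  have hch : ringChar k ≠ 2 := by rwa [ringChar.eq k p]
  obtain ⟨C, hC, H⟩ := h3 (rr p + 3) j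
  obtain ⟨θ, t0, t1, t2⟩ : ∃ θ : ℝ, 0 < θ ∧ θ ≤ 1 ∧ C * θ ≤ ε := by
    refine ⟨min 1 (ε / (C + 1)), by positivity, min_le_left _ _, ?_⟩
    have := (le_div_iff₀ (by positivity : 0 < C + 1)).1 (min_le_right 1 (ε / (C + 1)))
    have : 0 < min 1 (ε / (C + 1)) := by positivity
    nlinarith
  have s0 : 0 < θ ^ 2 ^ (rr p + 3) := by positivity
  have s1 : θ ^ 2 ^ (rr p + 3) ≤ 1 := pow_le_one₀ t0.le t1
  have q1 : 1 < √(qR k) := by
    rw [Real.lt_sqrt zero_le_one]
    linarith [two_le_qR (k := k)]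
  obtain ⟨γ₁, hγ₁⟩ := pow_unbounded_of_one_lt
    ((41 * ((2 ^ (rr p + 3) * j : ℕ) : ℝ) ^ 2 + 1) / (θ ^ 2 ^ (rr p + 3)) ^ 2) q1
  refine ⟨γ₁ + c + 1, ?_⟩
  intro γ hγ J _ _ σ u D G R w a hJ hσ hσc hG hco hR hR0 ha huc hRc hac hdeg hW0 hWd hwt
  have hl := leadingCoeff_ne_zero.2 hW0
  have hN := monic_mul_leadingCoeff_inv hW0
  have hW : wronskian u (D * G) = Polynomial.C (wronskian u (D * G)).leadingCoeff *
      (wronskian u (D * G) * Polynomial.C (wronskian u (D * G)).leadingCoeff⁻¹) := by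
    rw [mul_left_comm, ← C_mul, mul_inv_cancel₀ hl, C_1, mul_one]
  obtain ⟨P, M, hP, d1, d2, hM, hPM⟩ := fac h5 hp3 (by omega) hN hl hW hWd hwt
  obtain ⟨e, he, hmu⟩ := h2 k hch u D G _ _ hG hN hco hW hl
  rw [hPM] at hmu
  have hδ : γ ≤ (rr p ^ 2 + 1) * γ := Nat.le_mul_of_pos_left _ (Nat.succ_pos _)
  have hL : 3 * ((rr p ^ 2 + 1) * γ) ≤ LL p γ := by
    have : 1 ≤ rr p ^ 2 := Nat.one_le_pow _ _ (by unfold rr; omega)
    unfold LL
    nlinarith
  generalize (rr p ^ 2 + 1) * γ = δ at *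
  have nd : ∀ A : k[X], A ≠ 0 → A.natDegree ≤ c → ¬ P ∣ A := fun A hA h hd => by
    have := natDegree_le_of_dvd hd hA
    omega
  have hu : u ≠ 0 := by
    rintro rfl
    exact hW0 (wronskian_zero_left _)
  have hPa := nd a ha hac
  have hA : ¬ P ∣ u * D * w := fun h => by
    have : P ∣ u * R ^ p := by
      rw [hR, show u * (D * D * w) = u * D * w * D by ring]
      exact h.mul_right _
    exact (hP.2.prime.dvd_or_dvd this).elim (nd u hu huc) fun h =>
      nd R hR0 hRc (hP.2.prime.dvd_of_dvd_pow h)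
  obtain ⟨c₀, hc₀⟩ := exists_root p hP hA G
  have big : (41 * ((2 ^ (rr p + 3) * j : ℕ) : ℝ) ^ 2 + 1) ≤
      √(qR k) ^ δ * (θ ^ 2 ^ (rr p + 3)) ^ 2 :=
    (div_le_iff₀ (by positivity)).1 (hγ₁.le.trans (pow_le_pow_right₀ q1.le (by omega)))
  have q2 : 0 < √(qR k) ^ δ := by positivity
  have key := H k k[X] (Pn k (LL p γ)) δ (fun i s => M i * s) (fun i => a * M i)
    (fun s x => jac P (s + a * x)) (fun d => P ∣ d) (fun _ => True) θ t0.le t1
    ⟨0, mem_Pn.2 (by simp)⟩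
    (fun i s x hs hx => mem_Pn.2 ((degree_add_le _ _).trans_lt
      (max_lt (mem_Pn.1 hx) (degree_mul_lt hs (hM i).2.2))))
    (fun _ _ => abs_jac h1 _ _) (fun i s s' x _ _ => by congr 1; ring) (fun _ _ _ _ _ => trivial)
    (fun d => dvd_neg.1) (fun i b => ?_) (fun J' _ _ s hJ' _ hs => ?_) J (fun i => c₀ + σ i)
    (fun l x => ((∏ i, jac (M l) (G + u * D * (w * (σ i + a * x) ^ p)) : ℝ) : ℂ)) hJ
    (fun _ => trivial) (fun i i' hi => ?_) (fun l x _ => ?_) (fun l s x _ _ => ?_)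
  · rw [ex_Pn] at key
    rw [avg_congr (G := fun x => (e * jac P (u * D * w)) ^ Fintype.card J *
      ((∏ i, jac P (c₀ + σ i + a * x)) *
        (∏ l, ((∏ i, jac (M l) (G + u * D * (w * (σ i + a * x) ^ p)) : ℝ) : ℂ)).re))
      fun x hx => ?_, avg_mul_left, abs_mul]
    · refine le_trans ?_ t2
      refine (mul_le_of_le_one_left (abs_nonneg _) ?_).trans key
      rw [abs_pow, abs_mul]
      exact pow_le_one₀ (by positivity) (mul_le_one₀ he (abs_nonneg _) (abs_jac h1 _ _))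
    · rw [← Complex.ofReal_prod, Complex.ofReal_re, Finset.prod_comm, ← Finset.prod_mul_distrib,
        ← Finset.card_univ, ← Finset.prod_const, ← Finset.prod_mul_distrib]
      refine Finset.prod_congr rfl fun i _ => ?_
      have hx' : (σ i + a * x).degree < (c + LL p γ : ℕ) :=
        (degree_add_le _ _).trans_lt (max_lt ((hσc i).trans_le (by exact_mod_cast le_self_add))
          (degree_mul_lt hx (by omega)))
      rw [hmu _ (dg (by omega) hG hR hR0 hdeg hx') (wr p hR _),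
        (h1 k).2.2.1 _ _ _ hP.1 (monic_prod_of_monic _ _ fun i _ => (hM i).1),
        jac_prod h1 _ _ fun i => (hM i).1,
        jac_congr h1 (G' := u * D * w * (c₀ + σ i + a * x) ^ p) hP.1 (by
          rw [add_assoc c₀, add_pow_char c₀]
          convert hc₀ using 1
          ring), (h1 k).2.2.2 _ _ _ hP.1, jac_pow h1 hP.1 _ (hpr.out.odd_of_ne_two hp2)]
      ring
  · refine (avg_dvd_le (s := δ) hP.1.ne_zero le_rfl (by omega) ?_ b).trans ?_
    · exact (hP.2.coprime_iff_not_dvd.2 fun h =>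
        (hP.2.prime.dvd_or_dvd h).elim hPa (hM i).2.1).symm
    · rw [div_le_iff₀ (qR_pow_pos δ)]
      have a1 : √(qR k) ^ δ ≤ qR k ^ δ := pow_le_pow_left₀ (by positivity)
        (by nlinarith [Real.sq_sqrt (qR_pos (k := k)).le]) δ
      have a2 : (0 : ℝ) ≤ ((2 ^ (rr p + 3) * j : ℕ) : ℝ) ^ 2 := by positivity
      generalize θ ^ 2 ^ (rr p + 3) = η at *
      nlinarith [mul_le_mul_of_nonneg_left s1 (mul_pos q2 s0).le]
  · rw [ex_Pn]
    refine abs_le_of_sq_le_sq' ?_ s0.le |> abs_le.2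
    refine (h4 k hch P a J' s (LL p γ) δ hP hPa hs d1 d2 hL).trans ?_
    rw [div_le_iff₀ q2]
    have a1 : (Fintype.card J' : ℝ) ≤ ((2 ^ (rr p + 3) * j : ℕ) : ℝ) := by exact_mod_cast hJ'
    have a2 := pow_le_pow_left₀ (by positivity) a1 2
    linarith
  · rw [add_sub_add_left_eq_sub]
    exact nd _ (sub_ne_zero.2 (hσ.ne hi)) (natDegree_le_iff_degree_le.2
      ((degree_sub_le _ _).trans (max_le (hσc i).le (hσc i').le)))
  · rw [Complex.norm_real, Real.norm_eq_abs, Finset.abs_prod]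
    exact Finset.prod_le_one (fun _ _ => abs_nonneg _) fun _ _ => abs_jac h1 _ _
  · refine congrArg _ (Finset.prod_congr rfl fun i _ => jac_congr h1 (hM l).1 ?_)
    have a1 : M l ∣ σ i + a * (x + M l * s) - (σ i + a * x) := ⟨a * s, by ring⟩
    convert (a1.trans (sub_dvd_pow_sub_pow _ _ p)).mul_left (u * D * w) using 1
    ring

end Pool.Agent.Lib.MP_232f4c_nt.Od
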