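import Pool.Agent.Lib.MP_232f4c_nt.OdDefs

/-! The formula of Pellet on a set where a Wronskian is constant. -/

namespace Pool.Agent.Lib.MP_232f4c_nt.Od

open Polynomial Pool.Agent.Lib.MP_9227d9_nt.Mob Filter Topology

open scoped Classical

namespace Pel

variable {k : Type} [Field k] [Fintype k]

/-- The quadratic character as a real number. -/
noncomputable def ch (a : k) : ℝ := ((quadraticChar k a : ℤ) : ℝ)

theorem ch_mul (a b : k) : ch (a * b) = ch a * ch b := by
  simp only [ch, map_mul, Int.cast_mul]

theorem ch_abs (a : k) : |ch a| ≤ 1 := by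
  rcases quadraticChar_isQuadratic k a with h | h | h <;> simp [ch, h]

theorem ch_sq {a : k} (ha : a ≠ 0) : ch a * ch a = 1 := by
  rcases quadraticChar_dichotomy ha with h | h <;> simp [ch, h]

/-- The character of the discriminant is the sign of the Frobenius permutation. -/
theorem ch_disc (hk : ringChar k ≠ 2) {G : k[X]} {n : ℕ} (hn : G.natDegree = n)
    (α : Fin n → AlgebraicClosure k) (s : Equiv.Perm (Fin n)) (hα : Function.Injective α)
    (hG : G.map (algebraMap k (AlgebraicClosure k)) = ∏ i, (X - C (α i)))
    (hs : ∀ i, α (s i) = α i ^ Fintype.card k) :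
    quadraticChar k ((A2.eta n : k) * resultant G (derivative G)) =
      ((Equiv.Perm.sign s : ℤˣ) : ℤ) := by
  set d := (Matrix.vandermonde α).det with hd
  have hd0 : d ≠ 0 := Matrix.det_vandermonde_ne_zero_iff.2 hα
  have h1 : d ^ Fintype.card k = ((Equiv.Perm.sign s : ℤˣ) : ℤ) * d :=
    Cw.CwRes.detPhi (FiniteField.frobeniusAlgHom k (AlgebraicClosure k)).toRingHom α s
      fun i => (hs i).symm
  have h2 : d ^ 2 = algebraMap k (AlgebraicClosure k)
      ((A2.eta n : k) * resultant G (derivative G)) := by
    rw [hd, A2.disc, Cw.CwRes.res_prod, ← hG, map_mul, map_intCast, ← resultant_map_map,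
      derivative_map, natDegree_map, hn]
  have h3 : d ^ Fintype.card k = (d ^ 2) ^ (Fintype.card k / 2) * d := by
    rw [← pow_mul, ← pow_succ]
    congr 1
    have := FiniteField.odd_card_of_char_ne_two hk
    omega
  rw [h3, h2, ← map_pow, ← quadraticChar_eq_pow_of_char_ne_two' hk] at h1
  have h4 := mul_right_cancel₀ hd0 h1
  rw [← map_intCast (algebraMap k (AlgebraicClosure k))] at h4
  refine Int.cast_injOn_of_ringChar_ne_two hk (quadraticChar_isQuadratic k _) ?_
    ((algebraMap k (AlgebraicClosure k)).injective h4)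
  rcases Int.units_eq_one_or (Equiv.Perm.sign s) with h | h <;> simp [h]

/-- The formula of Pellet. -/
theorem pellet (hk : ringChar k ≠ 2) {G : k[X]} (hG : G.Monic) :
    mu G = (-1) ^ G.natDegree * ch (A2.eta G.natDegree : k) * jac G (derivative G) := by
  by_cases hs : Squarefree G
  · obtain ⟨α, s, hα, h, hσ⟩ := A.exists_enum hG rfl hs
    have h2 := A1.main G (Fin G.natDegree) α s hs hα (fun x => by
      rw [← eval_map_algebraMap, h, eval_prod, Finset.prod_eq_zero_iff]
      simp [sub_eq_zero, eq_comm]) hσ
    rw [mu, h2, Fintype.card_fin, ← ch_disc hk rfl α s hα h hσ, map_mul, ch, jac]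
    push_cast
    ring
  · have h0 : resultant G (derivative G) = 0 :=
      resultant_eq_zero_iff.2 ⟨Or.inl hG.ne_zero, fun h => hs (Separable.squarefree h)⟩
    rw [mu, UniqueFactorizationMonoid.moebius_of_not_squarefree hs, jac, h0]
    simp

omit [Fintype k] in
theorem res_shift {G V t : k[X]} (ht : (V * t).degree < G.degree) :
    resultant (G + V * t) V = resultant G V := by
  rcases eq_or_ne (V * t) 0 with h0 | h0
  · rw [h0, add_zero]
  · have h1 : (G + V * t).natDegree = G.natDegree := natDegree_add_eq_left_of_degree_lt ht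
    have h2 := natDegree_lt_natDegree h0 ht
    rw [natDegree_mul (left_ne_zero_of_mul h0) (right_ne_zero_of_mul h0)] at h2
    rw [h1]
    exact resultant_add_mul_left _ _ _ _ _ (by omega) le_rfl

end Pel

open Pel

theorem stPel (h : StJac) : StPel := by
  intro k _ _ hk u D G N lam hG hN hc hW _
  obtain ⟨-, hsh, -, hmul⟩ := h k
  refine ⟨(-1) ^ G.natDegree * ch (A2.eta G.natDegree : k) * ch (resultant G (u * D)) *
    (ch (lam ^ G.natDegree) * ch ((-1 : k) ^ (G.natDegree * N.natDegree))), ?_, fun t ht hw => ?_⟩
  · simp only [abs_mul, abs_pow, abs_neg, abs_one, one_pow, one_mul]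
    exact mul_le_one₀ (mul_le_one₀ (ch_abs _) (abs_nonneg _) (ch_abs _)) (by positivity)
      (mul_le_one₀ (ch_abs _) (abs_nonneg _) (ch_abs _))
  · have hH : (G + u * D * t).Monic := hG.add_of_left ht
    have hn : (G + u * D * t).natDegree = G.natDegree := natDegree_add_eq_left_of_degree_lt ht
    have hρ := res_shift ht
    have hp := pellet hk hH
    generalize G + u * D * t = H at hH hn hρ hp hw ⊢
    have e1 : C lam * N =
        u * D * derivative H + H * (u * derivative D - derivative u * D) := by
      rw [← hW, ← hw, wronskian, derivative_mul]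
      ring
    have e2 : jac H (C lam * N) = ch (resultant G (u * D)) * jac H (derivative H) := by
      rw [e1, hsh _ _ _ hH, hmul _ _ _ hH, ← hρ]
      rfl
    have e3 : jac H (C lam) = ch (lam ^ G.natDegree) := by
      rw [jac, natDegree_C, resultant_C_zero_right, hn]
      rfl
    have e4 : jac H N = ch ((-1 : k) ^ (G.natDegree * N.natDegree)) * jac N H := by
      rw [jac, resultant_comm, ← hn]
      exact ch_mul _ _
    have e5 := ch_sq (resultant_ne_zero G (u * D) hc)
    rw [hmul _ _ _ hH, e3, e4] at e2
    rw [hp, hn]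
    linear_combination
      (-((-1) ^ G.natDegree * ch (A2.eta G.natDegree : k) * ch (resultant G (u * D)))) * e2
      - (-1) ^ G.natDegree * ch (A2.eta G.natDegree : k) * jac H (derivative H) * e5

end Pool.Agent.Lib.MP_232f4c_nt.Od
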