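import Pool.Agent.Lib.MP_232f4c_nt.OdDefs

/-!
Most of the degrees below a given large degree are good (entropy decrement and local uniformity).
-/

namespace Pool.Agent.Lib.MP_232f4c_nt.Od

open Polynomial Pool.Agent.Lib.MP_9227d9_nt.Mob Filter Topology

open scoped Classical

namespace Step

theorem net {ε : ℝ} (hε : 0 < ε) : ∃ (T : Finset ℂ) (D : ℂ → ℂ), (∀ z, D z ∈ T) ∧
    (∀ z, ‖D z‖ ≤ 1) ∧ ∀ z, ‖z‖ ≤ 1 → ‖D z - z‖ ≤ ε := by
  obtain ⟨t, h1, h2, h3⟩ := (isCompact_closedBall (0 : ℂ) 1).finite_cover_balls hε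
  have h4 : ∀ z : ℂ, ∃ w ∈ t, ‖z‖ ≤ 1 → ‖w - z‖ ≤ ε := fun z => by
    by_cases c : ‖z‖ ≤ 1
    · obtain ⟨w, hw, hz⟩ := Set.mem_iUnion₂.1 (h3 (mem_closedBall_zero_iff.2 c))
      refine ⟨w, hw, fun _ => ?_⟩
      rw [← dist_eq_norm, dist_comm]
      exact (Metric.mem_ball.1 hz).le
    · obtain ⟨w, hw, -⟩ := Set.mem_iUnion₂.1 (h3 (Metric.mem_closedBall_self zero_le_one))
      exact ⟨w, hw, fun h => absurd h c⟩
  choose D hD hD' using h4
  exact ⟨h2.toFinset, D, fun z => h2.mem_toFinset.2 (hD z),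
    fun z => mem_closedBall_zero_iff.1 (h1 (hD z)), hD'⟩

theorem re_le {c u v : ℂ} (hc : ‖c‖ ≤ 1) : (c * u).re ≤ (c * v).re + ‖u - v‖ := by
  have h1 : (c * (u - v)).re ≤ ‖u - v‖ := by
    refine (Complex.re_le_norm _).trans ?_
    rw [norm_mul]
    exact mul_le_of_le_one_left (norm_nonneg _) hc
  rw [mul_sub, Complex.sub_re] at h1
  linarith

theorem one_sub_le {ι : Type} [Fintype ι] (u : ι → ℂ) (hu : ∀ i, ‖u i‖ ≤ 1) :
    1 - ∑ i, (1 - ‖u i‖) ≤ ‖∏ i, u i‖ := by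
  have h1 := Ff.norm_prod_sub_le Finset.univ (fun _ : ι => (1 : ℂ)) (fun i => ((‖u i‖ : ℝ) : ℂ))
    (fun _ _ => by simp) fun i _ => by simpa using hu i
  have h2 : ∀ i, ‖(1 : ℂ) - ((‖u i‖ : ℝ) : ℂ)‖ = 1 - ‖u i‖ := fun i => by
    rw [← Complex.ofReal_one, ← Complex.ofReal_sub, Complex.norm_real, Real.norm_eq_abs,
      abs_of_nonneg (sub_nonneg.2 (hu i))]
  simp only [h2] at h1
  rw [Finset.prod_const_one, ← Complex.ofReal_prod, ← Complex.ofReal_one, ← Complex.ofReal_sub,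
    Complex.norm_real, Real.norm_eq_abs] at h1
  rw [norm_prod]
  linarith [le_abs_self (1 - ∏ i, ‖u i‖)]

variable {k : Type} [Field k] [Fintype k] {ι : Type} [Fintype ι] {a b : ι → k[X]}
  {f : ι → k[X] → ℂ}

theorem re_avm (c : ℂ) (n : ℕ) :
    avm n (fun F => (c * ∏ i, f i (a i * F + b i)).re) = (c * cor a b f n).re := by
  have h1 : (Fintype.card k : ℂ) ^ n = ((qR k ^ n : ℝ) : ℂ) := by simp [qR]
  rw [avm_eq, cor, h1, ← mul_div_assoc, Complex.div_ofReal_re, Finset.mul_sum, Complex.re_sum]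

theorem cor_le (hf : ∀ i, Mul1 (f i)) (n : ℕ) : ‖cor a b f n‖ ≤ 1 := by
  obtain ⟨c, h1, h2⟩ := Complex.exists_norm_eq_mul_self (cor a b f n)
  have h3 := re_avm (a := a) (b := b) (f := f) c n
  rw [← h2, Complex.ofReal_re] at h3
  rw [← h3]
  refine avm_le_of_le fun F _ => (Complex.re_le_norm _).trans ?_
  rw [norm_mul, h1, one_mul]
  exact Ff.norm_prod_le_one _ fun i _ => (hf i).1 _

/-- the test function -/
noncomputable def Ps (a b : ι → k[X]) (f : ι → k[X] → ℂ) (D : ℂ → ℂ) (θ : k[X] → ℂ)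
    (P F : k[X]) : ℝ := (θ P * ∏ i, D (f i (a i * F + b i * P))).re

omit [Fintype k] in
theorem abs_Ps {D : ℂ → ℂ} {θ : k[X] → ℂ} (hD : ∀ z, ‖D z‖ ≤ 1) (hθ : ∀ P, ‖θ P‖ ≤ 1)
    (P F : k[X]) : |Ps a b f D θ P F| ≤ 1 := by
  refine (Complex.abs_re_le_norm _).trans ?_
  rw [norm_mul]
  exact mul_le_one₀ (hθ P) (norm_nonneg _) (Ff.norm_prod_le_one _ fun i _ => hD _)

theorem loc_Ps {D : ℂ → ℂ} {θ : k[X] → ℂ} {A e : ℕ} (ha : ∀ i, (a i).Monic)
    (hA : ∀ i, (a i).natDegree ≤ A) (he : ∀ i, (b i).natDegree < e) (P F F' : k[X])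
    (h : ∀ t : k[X], t.degree < (P.natDegree + e : ℕ) → ∀ i, ∀ s ∈ Pn k A,
      D (f i (a i * (F + t) + s)) = D (f i (a i * (F' + t) + s))) :
    Ps a b f D θ P F = Ps a b f D θ P F' := by
  unfold Ps
  congr 2
  refine Finset.prod_congr rfl fun i _ => ?_
  have h1 := modByMonic_add_div (b i * P) (a i)
  have h2 : ((b i * P) /ₘ a i).degree < (P.natDegree + e : ℕ) := by
    refine (degree_divByMonic_le _ _).trans_lt (degree_lt_of_natDegree fun _ => ?_)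
    have := natDegree_mul_le (p := b i) (q := P)
    have := he i
    omega
  have h3 : (b i * P) %ₘ a i ∈ Pn k A := by
    refine mem_Pn.2 ((degree_modByMonic_lt _ (ha i)).trans_le ?_)
    exact degree_le_natDegree.trans (by exact_mod_cast hA i)
  have h4 := h _ h2 i _ h3
  have h5 : ∀ G, a i * (G + (b i * P) /ₘ a i) + (b i * P) %ₘ a i = a i * G + b i * P := fun G => by
    linear_combination h1
  rwa [h5, h5] at h4

theorem lowX (hf : ∀ i, Mul1 (f i)) (ha : ∀ i, (a i).Monic) {D : ℂ → ℂ} {θ : k[X] → ℂ} {ε : ℝ}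
    (hD : ∀ z, ‖D z‖ ≤ 1) (hD' : ∀ z, ‖z‖ ≤ 1 → ‖D z - z‖ ≤ ε) {P : k[X]} {N : ℕ} (hP : IsP P)
    (hθ : ‖θ P‖ ≤ 1)
    (hθ' : ((‖(∏ i, f i P) * cor a b f N‖ : ℝ) : ℂ) = θ P * ((∏ i, f i P) * cor a b f N))
    (h1 : ∀ i, (a i).natDegree < P.natDegree) (h2 : P.natDegree ≤ N)
    (h3 : ∀ i, (b i).natDegree < N) :
    ‖cor a b f N‖ ≤ avm N (fun G => Ps a b f D θ P (P * G)) + ∑ i, (1 - ‖f i P‖)
      + Fintype.card ι * (ε + 2 / Nm P) := by
  have a1 := re_avm (a := a) (b := b) (f := f) (θ P * ∏ i, f i P) N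
  rw [mul_assoc (θ P), ← hθ', Complex.ofReal_re, norm_mul] at a1
  have a2 := one_sub_le (fun i => f i P) fun i => (hf i).1 P
  have a3 := cor_le (a := a) (b := b) hf N
  have a4 : 0 ≤ ∑ i, (1 - ‖f i P‖) := Finset.sum_nonneg fun i _ => sub_nonneg.2 ((hf i).1 P)
  have a5 : ‖cor a b f N‖ - ∑ i, (1 - ‖f i P‖) ≤ ‖∏ i, f i P‖ * ‖cor a b f N‖ := by
    nlinarith [mul_le_mul_of_nonneg_right a2 (norm_nonneg (cor a b f N))]
  have a6 : ∀ i, avm N (fun G => if P ∣ a i * G + b i then (1 : ℝ) else 0) = 1 / Nm P := fun i => by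
    have := avg_dvd hP.1.ne_zero h2
      (hP.isCoprime_iff.2 (hP.not_dvd_of_lt (ha i).ne_zero (h1 i))) (a i * X ^ N + b i)
    rw [← this, avm]
    refine avg_congr fun v _ => ?_
    rw [show a i * (X ^ N + v) + b i = a i * X ^ N + b i + a i * v by ring]
  have a7 : avm N (fun F => ((θ P * ∏ i, f i P) * ∏ i, f i (a i * F + b i)).re) ≤
      avm N fun G => Ps a b f D θ P (P * G) +
        ∑ i, (ε + 2 * if P ∣ a i * G + b i then (1 : ℝ) else 0) := by
    refine avm_mono fun G hG => ?_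
    rw [mul_assoc, ← Finset.prod_mul_distrib]
    refine (re_le (v := ∏ i, D (f i (a i * (P * G) + b i * P))) hθ).trans ?_
    refine add_le_add le_rfl ((Ff.norm_prod_sub_le _ _ _ (fun i _ => ?_) fun i _ => hD _).trans
      (Finset.sum_le_sum fun i _ => ?_))
    · rw [norm_mul]
      exact mul_le_one₀ ((hf i).1 _) (norm_nonneg _) ((hf i).1 _)
    · have hε : 0 ≤ ε := (norm_nonneg _).trans (hD' 0 (by simp))
      split_ifs with c
      · refine (norm_sub_le _ _).trans ?_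
        have b1 : ‖f i P * f i (a i * G + b i)‖ ≤ 1 := by
          rw [norm_mul]
          exact mul_le_one₀ ((hf i).1 _) (norm_nonneg _) ((hf i).1 _)
        linarith [hD (f i (a i * (P * G) + b i * P))]
      · have b1 : MD ((a i).natDegree + N) (a i * G + b i) :=
          (MD.mul ⟨ha i, rfl⟩ hG).add (degree_lt_of_natDegree fun _ => by have := h3 i; omega)
        rw [← (hf i).2 P _ hP.1 b1.1 (hP.isCoprime_iff.2 c).symm,
          show a i * (P * G) + b i * P = P * (a i * G + b i) by ring, norm_sub_rev, mul_zero,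
          add_zero]
        exact hD' _ ((hf i).1 _)
  rw [a1, avm_add, avm_sum] at a7
  simp only [avm_add, avm_const, avm_mul_left, a6, Finset.sum_const, Finset.card_univ,
    nsmul_eq_mul] at a7
  rw [← mul_div_assoc, mul_one] at a7
  linarith

theorem upY (hf : ∀ i, Mul1 (f i)) {D : ℂ → ℂ} {θ : k[X] → ℂ} {ε : ℝ}
    (hD : ∀ z, ‖D z‖ ≤ 1) (hD' : ∀ z, ‖z‖ ≤ 1 → ‖D z - z‖ ≤ ε) (i₀ : ι) {P : k[X]} (n : ℕ)
    (hθ : ‖θ P‖ ≤ 1) :
    avm n (Ps a b f D θ P) ≤ avm n (fun F => (θ P * (f i₀ (a i₀ * F + b i₀ * P) *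
      ∏ j : {j // j ≠ i₀}, f j.1 (a j.1 * F + b j.1 * P))).re) + Fintype.card ι * ε := by
  rw [← avm_const (k := k) n (Fintype.card ι * ε), ← avm_add]
  refine avm_mono fun F _ => ?_
  rw [← Fintype.prod_eq_mul_prod_subtype_ne (fun i => f i (a i * F + b i * P)) i₀]
  refine (re_le (v := ∏ i, f i (a i * F + b i * P)) hθ).trans (add_le_add le_rfl ?_)
  refine (Ff.norm_prod_sub_le _ _ _ (fun i _ => hD _) fun i _ => (hf i).1 _).trans ?_
  refine (Finset.sum_le_sum fun i _ => hD' _ ((hf i).1 _)).trans ?_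
  simp

theorem sum_PrD_le (m₀ m₁ : ℕ) (g : k[X] → ℝ) (hg : ∀ P, 0 ≤ g P) :
    ∑ m ∈ Finset.Ico m₀ m₁, ∑ P ∈ PrD k m, g P ≤ ∑ P ∈ PrL k m₁, g P := by
  rw [← Finset.sum_fiberwise_of_maps_to (s := PrL k m₁) (t := Finset.range m₁) (g := natDegree)
    fun P hP => Finset.mem_range.2 (mem_PrL.1 hP).2]
  refine (Finset.sum_le_sum fun m hm => ?_).trans (Finset.sum_le_sum_of_subset_of_nonneg
    (fun m hm => Finset.mem_range.2 (Finset.mem_Ico.1 hm).2)
    fun m _ _ => Finset.sum_nonneg fun P _ => hg P)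
  refine Finset.sum_le_sum_of_subset_of_nonneg (fun P hP => ?_) fun P _ _ => hg P
  obtain ⟨h1, h2⟩ := mem_PrD.1 hP
  exact Finset.mem_filter.2 ⟨mem_PrL.2 ⟨h1, h2 ▸ (Finset.mem_Ico.1 hm).2⟩, h2⟩

theorem le_qR_pow (m : ℕ) : (m : ℝ) ≤ qR k ^ m := by
  refine le_trans ?_ (pow_le_pow_left₀ zero_le_two two_le_qR m)
  exact_mod_cast (Nat.lt_two_pow_self).le

theorem good {c z al N m Q δ : ℝ} (hm : 0 < m) (hQ : 0 < Q) (hN : Q ≤ 2 * m * N) (hal : 0 ≤ al)
    (h1 : N * c ≤ z + al) (h2 : z ≤ δ * N) : c / m ≤ δ * (1 / m) + 2 * (al / Q) := by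
  have hN0 : 0 < N := by nlinarith
  have h3 : al / (m * N) ≤ 2 * (al / Q) := by
    rw [← mul_div_assoc, div_le_div_iff₀ (by positivity) hQ]
    nlinarith [mul_le_mul_of_nonneg_left hN hal]
  have h4 : c / m ≤ δ * (1 / m) + al / (m * N) := by
    rw [div_le_iff₀ hm]
    have : (δ * (1 / m) + al / (m * N)) * m = δ + al / N := by field_simp
    rw [this, ← sub_le_iff_le_add', le_div_iff₀ hN0]
    linarith
  linarith

theorem bad {z N m Q R d : ℝ} (hm : 0 < m) (hQ : 0 < Q) (hR : 0 < R) (hN : Q ≤ 2 * m * N)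
    (hd : 0 < d) (h : d * N < z) :
    1 / m ≤ 32 * R / d ^ 2 * ((d / 8 * z - N * (4 * (d / 8) ^ 2)) / (Q * R)) := by
  have h1 : d ^ 2 * N / 16 ≤ d / 8 * z - N * (4 * (d / 8) ^ 2) := by
    nlinarith [mul_le_mul_of_nonneg_left h.le hd.le]
  refine le_trans ?_ (mul_le_mul_of_nonneg_left (div_le_div_of_nonneg_right h1 (by positivity))
    (by positivity))
  have h2 : 32 * R / d ^ 2 * (d ^ 2 * N / 16 / (Q * R)) = 2 * N / Q := by field_simp; ring
  rw [h2, div_le_div_iff₀ hm hQ]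
  linarith

end Step

open Step in
theorem stStep (h : StEnt) : StStep := by
  intro k _ _ ι _ a b f i₀ ha hab hf hU hLU δ hδ
  have hK : (1 : ℝ) ≤ Fintype.card ι := by
    exact_mod_cast Fintype.card_pos_iff.2 ⟨i₀⟩
  set K : ℝ := ((Fintype.card ι : ℕ) : ℝ) with hKd
  obtain ⟨T, D, hT, hD, hD'⟩ := net (ε := δ / (8 * K)) (by positivity)
  obtain ⟨A, hA⟩ : ∃ A, ∀ i, (a i).natDegree ≤ A :=
    ⟨Finset.univ.sup fun i => (a i).natDegree, fun i =>
      Finset.le_sup (f := fun i => (a i).natDegree) (Finset.mem_univ i)⟩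
  obtain ⟨e, he⟩ : ∃ e, ∀ i, (b i).natDegree < e :=
    ⟨(Finset.univ.sup fun i => (b i).natDegree) + 1, fun i => Nat.lt_succ_of_le
      (Finset.le_sup (f := fun i => (b i).natDegree) (Finset.mem_univ i))⟩
  choose Bf hBf using hU
  obtain ⟨m₂, hm₂⟩ := hLU {j // j ≠ i₀} (a i₀) (b i₀) (fun j => a j.1) (fun j => b j.1) (ha i₀)
    (fun j => hab j.1 j.2) (δ / 4) (by positivity)
  choose! n₂ hn₂ using hm₂
  set d : ℝ := min 1 (δ / 4) with hd
  have d0 : 0 < d := lt_min one_pos (by positivity)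
  have d1 : d ≤ 1 := min_le_left _ _
  have d2 : d ≤ δ / 4 := min_le_right _ _
  set Λ : ℝ := Real.log (Fintype.card (ι × Pn k A → T)) with hΛ
  refine ⟨32 * qR k ^ e / d ^ 2 * Λ + 2 * ∑ i, Bf i, m₂ + A + 3 + ⌈8 * K / δ⌉₊, fun m₁ => ?_⟩
  obtain ⟨n₁, hn₁⟩ := h k e m₁
  refine ⟨n₁ + 2 * m₁ + e + (Finset.range m₁).sup n₂, fun n hn => ?_⟩
  choose θ hθ hθ' using fun P : k[X] =>
    Complex.exists_norm_eq_mul_self ((∏ i, f i P) * cor a b f (n - P.natDegree))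
  set I := Finset.Ico (m₂ + A + 3 + ⌈8 * K / δ⌉₊) m₁ with hI
  set z : ℕ → ℝ := fun m => ∑ P ∈ PrD k m,
    (avm (n - m) (fun G => Ps a b f D θ P (P * G)) - avm n (Ps a b f D θ P)) with hz
  set B := I.filter fun m => d * (PrD k m).card < z m with hB
  have e1 := hn₁ n (by omega) (ι × Pn k A → T)
    (fun F p => ⟨D (f p.1 (a p.1 * F + p.2.1)), hT _⟩) (Ps a b f D θ) B (d / 8) (by positivity)
    (by linarith) (fun m hm => (Finset.mem_Ico.1 (Finset.mem_filter.1 hm).1).2)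
    (abs_Ps hD fun P => (hθ P).le) fun P F F' hV => loc_Ps ha hA he P F F' fun t ht i s hs =>
      congrArg Subtype.val (congrFun (hV t ht) (i, ⟨s, hs⟩))
  have e2 : ∑ m ∈ B, 1 / (m : ℝ) ≤ 32 * qR k ^ e / d ^ 2 * Λ := by
    refine le_trans ?_ (mul_le_mul_of_nonneg_left e1 (by have := qR_pow_pos (k := k) e; positivity))
    rw [Finset.mul_sum]
    refine Finset.sum_le_sum fun m hm => ?_
    obtain ⟨b1, b2⟩ := Finset.mem_filter.1 hm
    have b3 : 3 ≤ m := by have := (Finset.mem_Ico.1 b1).1; omega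
    rw [Finset.sum_sub_distrib, ← Finset.mul_sum, Finset.sum_const, nsmul_eq_mul, pow_add]
    exact bad (by exact_mod_cast (by omega : 0 < m)) (qR_pow_pos m) (qR_pow_pos e)
      (le_card_PrD b3) d0 b2
  have e3 : ∀ m ∈ I, ‖cor a b f (n - m)‖ / m ≤ (if d * (PrD k m).card < z m then 1 / (m : ℝ) else 0)
      + δ * (1 / m) + 2 * ∑ P ∈ PrD k m, (∑ i, (1 - ‖f i P‖)) / Nm P := fun m hm => by
    obtain ⟨b1, b2⟩ := Finset.mem_Ico.1 hm
    have m0 : (0 : ℝ) < m := by exact_mod_cast (by omega : 0 < m)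
    have al0 : ∀ P, 0 ≤ ∑ i, (1 - ‖f i P‖) := fun P =>
      Finset.sum_nonneg fun i _ => sub_nonneg.2 ((hf i).1 P)
    have b3 : ∑ P ∈ PrD k m, (∑ i, (1 - ‖f i P‖)) / Nm P =
        (∑ P ∈ PrD k m, ∑ i, (1 - ‖f i P‖)) / qR k ^ m := by
      rw [Finset.sum_div]
      exact Finset.sum_congr rfl fun P hP => by rw [Nm, (mem_PrD.1 hP).2]
    have b4 : 0 ≤ ∑ P ∈ PrD k m, ∑ i, (1 - ‖f i P‖) := Finset.sum_nonneg fun P _ => al0 P
    have hq := qR_pow_pos (k := k) m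
    rw [b3]
    split_ifs with c
    · have c1 : ‖cor a b f (n - m)‖ / m ≤ 1 / m := div_le_div_of_nonneg_right (cor_le hf _) m0.le
      have c2 : 0 ≤ δ * (1 / m) := by positivity
      have c3 := div_nonneg b4 hq.le
      linarith
    have c1 : n₂ m ≤ n := by
      have := Finset.le_sup (f := n₂) (Finset.mem_range.2 b2)
      omega
    have c2 := hn₂ m (by omega) n c1 θ (fun j => f j.1) (fun P => (hθ P).le) fun j => (hf j.1).1
    have c3 : K * (2 / qR k ^ m) ≤ δ / 4 := by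
      have c4 : 8 * K / δ ≤ qR k ^ m := by
        refine (Nat.le_ceil _).trans (le_trans ?_ (le_qR_pow m))
        exact_mod_cast (by omega : ⌈8 * K / δ⌉₊ ≤ m)
      rw [div_le_iff₀ hδ] at c4
      rw [← mul_div_assoc, div_le_iff₀ hq]
      linarith
    have c4 : K * (δ / (8 * K)) = δ / 8 := by field_simp
    have c5 : ∀ P ∈ PrD k m, ‖cor a b f (n - m)‖ ≤
        (avm (n - m) (fun G => Ps a b f D θ P (P * G)) - avm n (Ps a b f D θ P)) +
        avm n (fun F => (θ P * (f i₀ (a i₀ * F + b i₀ * P) *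
          ∏ j : {j // j ≠ i₀}, f j.1 (a j.1 * F + b j.1 * P))).re) + δ / 2 +
        ∑ i, (1 - ‖f i P‖) := fun P hP => by
      obtain ⟨p1, p2⟩ := mem_PrD.1 hP
      have g1 := lowX (N := n - m) hf ha hD hD' p1 (hθ P).le (p2 ▸ hθ' P)
        (fun i => by have := hA i; omega) (by omega) fun i => by have := he i; omega
      have g2 := upY (a := a) (b := b) hf hD hD' i₀ n (hθ P).le
      rw [Nm, p2, mul_add] at g1
      linarith
    have c6 := Finset.sum_le_sum c5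
    rw [Finset.sum_const, nsmul_eq_mul, Finset.sum_add_distrib, Finset.sum_add_distrib,
      Finset.sum_add_distrib, Finset.sum_const, nsmul_eq_mul] at c6
    have c7 : (0 : ℝ) ≤ (PrD k m).card := Nat.cast_nonneg _
    rw [zero_add]
    refine good m0 hq (le_card_PrD (by omega)) b4 c6 ?_
    have c8 : z m ≤ d * (PrD k m).card := not_lt.1 c
    have c9 := mul_le_mul_of_nonneg_right d2 c7
    simp only [hz] at c8
    linarith
  refine (Finset.sum_le_sum e3).trans ?_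
  rw [Finset.sum_add_distrib, Finset.sum_add_distrib, ← Finset.sum_filter, ← Finset.mul_sum,
    ← Finset.mul_sum]
  have e4 := sum_PrD_le (k := k) (m₂ + A + 3 + ⌈8 * K / δ⌉₊) m₁
    (fun P => (∑ i, (1 - ‖f i P‖)) / Nm P) fun P => div_nonneg
      (Finset.sum_nonneg fun i _ => sub_nonneg.2 ((hf i).1 P)) (Nm_pos P).le
  have e5 : ∑ P ∈ PrL k m₁, (∑ i, (1 - ‖f i P‖)) / Nm P ≤ ∑ i, Bf i := by
    simp only [Finset.sum_div]
    rw [Finset.sum_comm]
    exact Finset.sum_le_sum fun i _ => hBf i m₁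
  linarith

end Pool.Agent.Lib.MP_232f4c_nt.Od
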