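import Pool.Agent.Lib.MP_232f4c_nt.OdDefs

/-!
The repeated Cauchy-Schwarz (van der Corput) inequality.
-/

namespace Pool.Agent.Lib.MP_232f4c_nt.Od

open Polynomial Pool.Agent.Lib.MP_9227d9_nt.Mob Filter Topology

open scoped Classical ComplexConjugate

namespace VdC

variable {Γ : Type} {T : Finset Γ} {f g : Γ → ℝ} {k : Type} [Field k] [Fintype k]

theorem ex_congr (h : ∀ x ∈ T, f x = g x) : ex T f = ex T g := by
  rw [ex, ex, Finset.sum_congr rfl h]

theorem ex_mono (h : ∀ x ∈ T, f x ≤ g x) : ex T f ≤ ex T g :=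
  div_le_div_of_nonneg_right (Finset.sum_le_sum h) (Nat.cast_nonneg _)

theorem ex_le (hT : T.Nonempty) {B : ℝ} (h : ∀ x ∈ T, f x ≤ B) : ex T f ≤ B := by
  have h0 : (0 : ℝ) < T.card := by exact_mod_cast hT.card_pos
  rw [ex, div_le_iff₀ h0, mul_comm, ← nsmul_eq_mul]
  exact Finset.sum_le_card_nsmul _ _ _ h

theorem ex_shift [AddCommGroup Γ] {c : Γ} (hc : ∀ x ∈ T, x + c ∈ T) (f : Γ → ℝ) :
    ex T (fun x => f (x + c)) = ex T f := by
  have h1 : T.image (· + c) = T := by
    refine Finset.eq_of_subset_of_card_le (fun y hy => ?_) ?_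
    · obtain ⟨x, hx, rfl⟩ := Finset.mem_image.1 hy
      exact hc x hx
    · rw [Finset.card_image_of_injective _ (add_left_injective c)]
  unfold ex
  congr 1
  conv_rhs => rw [← h1]
  rw [Finset.sum_image fun x _ y _ h => add_left_injective c h]

theorem ex_avg (T : Finset Γ) (m : ℕ) (F : Γ → k[X] → ℝ) :
    ex T (fun x => avg m (F x)) = avg m fun s => ex T fun x => F x s := by
  unfold ex avg
  rw [← Finset.sum_div, ← Finset.sum_div, Finset.sum_comm, div_right_comm]

theorem sq_ex_le (hT : T.Nonempty) : ex T f ^ 2 ≤ ex T fun x => f x ^ 2 := by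
  have h0 : (0 : ℝ) < T.card := by exact_mod_cast hT.card_pos
  have h1 := sq_sum_le_card_mul_sum_sq (s := T) (f := f)
  rw [ex, ex, div_pow, div_le_div_iff₀ (by positivity) h0]
  nlinarith

theorem sq_avg (m : ℕ) (a : k[X] → ℝ) (w : k[X] → ℂ) {z : ℂ} (hz : ‖z‖ ≤ 1) :
    (avg m fun s => a s * (z * w s).re) ^ 2 ≤
      avg m fun s' => avg m fun s => a s * a s' * (w s * conj (w s')).re := by
  obtain ⟨U, hU⟩ : ∃ U, U = avg m fun s => a s * (w s).re := ⟨_, rfl⟩
  obtain ⟨V, hV⟩ : ∃ V, V = avg m fun s => a s * (w s).im := ⟨_, rfl⟩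
  have h1 : (avg m fun s => a s * (z * w s).re) = z.re * U - z.im * V := by
    rw [hU, hV, ← avg_mul_left, ← avg_mul_left, ← avg_sub]
    exact avg_congr fun s _ => by rw [Complex.mul_re]; ring
  have h2 : (avg m fun s' => avg m fun s => a s * a s' * (w s * conj (w s')).re) =
      U * U + V * V := by
    have h3 : ∀ s', (avg m fun s => a s * a s' * (w s * conj (w s')).re) =
        U * (a s' * (w s').re) + V * (a s' * (w s').im) := fun s' => by
      rw [hU, hV, ← avg_mul_right, ← avg_mul_right, ← avg_add]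
      exact avg_congr fun s _ => by
        rw [Complex.mul_re, Complex.conj_re, Complex.conj_im]; ring
    rw [avg_congr fun s' _ => h3 s', avg_add, avg_mul_left, avg_mul_left, ← hU, ← hV]
  have h4 : z.re ^ 2 + z.im ^ 2 ≤ 1 := by
    have h5 := Complex.sq_norm z
    rw [Complex.normSq_apply] at h5
    nlinarith [norm_nonneg z]
  rw [h1, h2]
  nlinarith [sq_nonneg (z.re * V + z.im * U), mul_le_mul_of_nonneg_right h4
    (add_nonneg (sq_nonneg U) (sq_nonneg V))]

theorem abs_prod_le {J : Type} [Fintype J] {c : J → ℝ} (h : ∀ a, |c a| ≤ 1) : |∏ a, c a| ≤ 1 := by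
  rw [Finset.abs_prod]
  exact Finset.prod_le_one (fun a _ => abs_nonneg _) fun a _ => h a

theorem norm_prod_le' {J : Type} [Fintype J] {c : J → ℂ} (h : ∀ a, ‖c a‖ ≤ 1) :
    ‖∏ a, c a‖ ≤ 1 := by
  rw [norm_prod]
  exact Finset.prod_le_one (fun a _ => norm_nonneg _) fun a _ => h a

end VdC

open VdC in
theorem stVdC : StVdC := by
  intro K
  induction K with
  | zero =>
    intro j
    refine ⟨1, zero_le_one, ?_⟩
    intro k _ _ Γ _ T m τ Δ H Bad Sm θ _ _ _ _ _ _ _ _ _ hb J _ _ σ φ hJ h1 h2 _ _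
    simpa using hb J σ (by simpa using hJ) h1 h2
  | succ K ih =>
    intro j
    obtain ⟨C, hC, ih⟩ := ih (2 * j)
    refine ⟨(j : ℝ) ^ 2 + C + 1, by positivity, ?_⟩
    intro k _ _ Γ _ T m τ Δ H Bad Sm θ θ0 θ1 hT hτ hH hs hSm hB hav hb J _ _ σ φ hJ h1 h2 h3 h4
    have hpow : θ ^ 2 ^ (K + 1) = (θ ^ 2) ^ 2 ^ K := by rw [← pow_mul, pow_succ']
    have θ2 : θ ^ 2 ≤ 1 := pow_le_one₀ θ0 θ1
    have hle : θ ^ 2 ^ (K + 1) ≤ θ ^ 2 := by
      rw [hpow]
      exact pow_le_of_le_one (sq_nonneg θ) θ2 (by positivity)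
    obtain ⟨Φ, hΦ⟩ : ∃ Φ : k[X] → Γ → ℝ, Φ = fun s x => ∏ a, H (σ a + Δ 0 * s) x := ⟨_, rfl⟩
    obtain ⟨Ψ, hΨ⟩ : ∃ Ψ : k[X] → Γ → ℂ,
      Ψ = fun s x => ∏ i : Fin K, φ i.succ (x + τ 0 s) := ⟨_, rfl⟩
    have e1 : (ex T fun x => (∏ a, H (σ a) x) * (∏ i, φ i x).re) =
        ex T fun x => avg m fun s => Φ s x * (φ 0 x * Ψ s x).re := by
      rw [ex_avg]
      refine ((avg_congr fun s hsm => ?_).trans (avg_const m _)).symm
      rw [← ex_shift (fun x hx => hτ 0 s x hsm hx)
        fun x => (∏ a, H (σ a) x) * (∏ i, φ i x).re]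
      refine ex_congr fun x hx => ?_
      simp only [hΦ, hΨ, Fin.prod_univ_succ, h4 0 s x hsm hx, hs 0 s _ x hsm hx]
    have e2 : ∀ s s' : k[X], s.degree < m → s'.degree < m →
        (ex T fun x => Φ s x * Φ s' x * (Ψ s x * conj (Ψ s' x)).re) ≤ C * θ ^ 2 +
          ∑ p : J × J, if Bad (σ p.1 - σ p.2 - Δ 0 * s' + Δ 0 * s) then 1 else 0 := by
      intro s s' hsm hsm'
      have hn : ∀ p : J × J, (0 : ℝ) ≤
          if Bad (σ p.1 - σ p.2 - Δ 0 * s' + Δ 0 * s) then 1 else 0 := fun p => by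
        split_ifs <;> norm_num
      have hφ : ∀ (i : Fin K) (x : Γ), x ∈ T →
          ‖φ i.succ (x + τ 0 s) * conj (φ i.succ (x + τ 0 s'))‖ ≤ 1 := fun i x hx => by
        rw [norm_mul, Complex.norm_conj]
        exact mul_le_one₀ (h3 _ _ (hτ 0 s x hsm hx)) (norm_nonneg _) (h3 _ _ (hτ 0 s' x hsm' hx))
      have e3 : ∀ x, Φ s x * Φ s' x * (Ψ s x * conj (Ψ s' x)).re =
          (∏ a : J ⊕ J, H (Sum.elim (fun a => σ a + Δ 0 * s) (fun a => σ a + Δ 0 * s') a) x) *
            (∏ i : Fin K, φ i.succ (x + τ 0 s) * conj (φ i.succ (x + τ 0 s'))).re := fun x => by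
        simp only [hΦ, hΨ, Fintype.prod_sum_type, Sum.elim_inl, Sum.elim_inr,
          Finset.prod_mul_distrib, map_prod]
      simp only [e3]
      by_cases hbad : ∃ p : J × J, Bad (σ p.1 - σ p.2 - Δ 0 * s' + Δ 0 * s)
      · obtain ⟨p, hp⟩ := hbad
        have h5 := Finset.single_le_sum (fun p _ => hn p) (Finset.mem_univ p)
        rw [if_pos hp] at h5
        refine (ex_le hT fun x hx => ?_).trans (h5.trans (le_add_of_nonneg_left (by positivity)))
        refine (le_abs_self _).trans ?_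
        rw [abs_mul]
        exact mul_le_one₀ (abs_prod_le fun a => hH _ _) (abs_nonneg _)
          ((Complex.abs_re_le_norm _).trans (norm_prod_le' fun i => hφ i x hx))
      · refine ((le_abs_self _).trans ?_).trans
          (le_add_of_nonneg_right (Finset.sum_nonneg fun p _ => hn p))
        refine ih k Γ T m (fun i => τ i.succ) (fun i => Δ i.succ) H Bad Sm (θ ^ 2) (sq_nonneg θ)
          θ2 hT (fun i => hτ i.succ) hH (fun i => hs i.succ) (fun i => hSm i.succ) hB
          (fun i c => hpow ▸ hav i.succ c)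
          (fun J' _ _ σ' h5 h6 h7 => hpow ▸ hb J' σ' (by rw [pow_succ, mul_assoc]; exact h5) h6 h7)
          (J ⊕ J) _ (fun i x => φ i.succ (x + τ 0 s) * conj (φ i.succ (x + τ 0 s')))
          (by rw [Fintype.card_sum]; omega) ?_ ?_ hφ ?_
        · rintro (a | a)
          · exact hSm 0 s _ hsm (h1 a)
          · exact hSm 0 s' _ hsm' (h1 a)
        · rintro (a | a) (b | b) hab
          · simpa using h2 a b fun h => hab (by rw [h])
          · refine fun h => hbad ⟨(a, b), ?_⟩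
            convert h using 1
            simp only [Sum.elim_inl, Sum.elim_inr]
            ring
          · refine fun h => hbad ⟨(b, a), hB _ ?_⟩
            convert h using 1
            simp only [Sum.elim_inl, Sum.elim_inr]
            ring
          · simpa using h2 a b fun h => hab (by rw [h])
        · intro i t x ht hx
          rw [add_right_comm x _ (τ 0 s), add_right_comm x _ (τ 0 s'),
            h4 _ t _ ht (hτ 0 s x hsm hx), h4 _ t _ ht (hτ 0 s' x hsm' hx)]
    have e4 : (ex T fun x => (∏ a, H (σ a) x) * (∏ i, φ i x).re) ^ 2 ≤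
        ((j : ℝ) ^ 2 + C) * θ ^ 2 := by
      rw [e1]
      refine (sq_ex_le hT).trans ((ex_mono fun x hx =>
        sq_avg m (fun s => Φ s x) (fun s => Ψ s x) (h3 0 x hx)).trans ?_)
      rw [ex_avg]
      refine avg_le_of_le fun s' hs' => ?_
      rw [ex_avg]
      refine (avg_mono fun s hsm => e2 s s' hsm hs').trans ?_
      rw [avg_add, avg_const, avg_sum]
      have h5 := Finset.sum_le_card_nsmul Finset.univ _ _ fun (p : J × J) _ =>
        (hav 0 (σ p.1 - σ p.2 - Δ 0 * s')).trans hle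
      rw [Finset.card_univ, Fintype.card_prod, nsmul_eq_mul, Nat.cast_mul] at h5
      have h6 : (Fintype.card J : ℝ) ≤ j := by exact_mod_cast hJ
      have h7 : (Fintype.card J : ℝ) * Fintype.card J ≤ (j : ℝ) ^ 2 := by
        rw [sq]
        exact mul_self_le_mul_self (Nat.cast_nonneg _) h6
      nlinarith [mul_le_mul_of_nonneg_right h7 (sq_nonneg θ)]
    refine abs_le_of_sq_le_sq' (e4.trans ?_) (by positivity) |> abs_le.2
    rw [mul_pow]
    refine mul_le_mul_of_nonneg_right ?_ (sq_nonneg θ)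
    nlinarith [sq_nonneg ((j : ℝ) ^ 2 + C), sq_nonneg (j : ℝ)]

end Pool.Agent.Lib.MP_232f4c_nt.Od
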