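import Pool.Agent.Lib.MP_232f4c_nt.OdAll
import Pool.Agent.Lib.MP_232f4c_nt.OdAll2
import Pool.Agent.Lib.MP_232f4c_nt.OdCes
import Pool.Agent.Lib.MP_232f4c_nt.OdComp
import Pool.Agent.Lib.MP_232f4c_nt.OdCov
import Pool.Agent.Lib.MP_232f4c_nt.OdD
import Pool.Agent.Lib.MP_232f4c_nt.OdDa
import Pool.Agent.Lib.MP_232f4c_nt.OdEnt
import Pool.Agent.Lib.MP_232f4c_nt.OdFin
import Pool.Agent.Lib.MP_232f4c_nt.OdGvN
import Pool.Agent.Lib.MP_232f4c_nt.OdJac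
import Pool.Agent.Lib.MP_232f4c_nt.OdLU
import Pool.Agent.Lib.MP_232f4c_nt.OdLine
import Pool.Agent.Lib.MP_232f4c_nt.OdPel
import Pool.Agent.Lib.MP_232f4c_nt.OdStep
import Pool.Agent.Lib.MP_232f4c_nt.OdVdC

/-!
Assembly of the modules.
-/

namespace Pool.Agent.Lib.MP_232f4c_nt.Od

theorem ellAll : StEll :=
  stEll (stLU stStr (stAll (stCov (stD stDa))
    (stLine stJac (stPel stJac) stVdC (stComp stJac stB0) stFac) (stGvN stVdC))
    (stAll2 (stGvN stVdC))) (stStep stEnt) stCes stZero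

end Pool.Agent.Lib.MP_232f4c_nt.Od
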